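import Pool.Agent.Q127.SM.Stm

/-!
# Project SM (helper127), job COP: the series over the integers not divisible by `q`
-/

set_option autoImplicit false

namespace Pool.Agent.Q65.SM

open Pool.Agent.TH133.SH Pool.Agent.Q127.SM

theorem cop_eq (h1 : S_hkF) (h2 : S_ort) : S_cop := by
  intro a q hq h0 hs hH τ hτ
  have hq0 : (q : ℂ) ≠ 0 := by exact_mod_cast hq.ne_zero
  have hqr : (0 : ℝ) < q := by exact_mod_cast hq.pos
  have him : 0 < ((q : ℂ) * τ).im := by
    have : ((q : ℂ) * τ).im = (q : ℝ) * τ.im := by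
      have h3 : (q : ℂ) = (((q : ℝ)) : ℂ) := by push_cast; rfl
      rw [h3, Complex.im_ofReal_mul]
    rw [this]
    positivity
  have e1 := h1 a q hq h0 hs hH ((q : ℂ) * τ) him
  have e2 := h2 a q hq hs τ hτ
  have e3 : ∀ u : ℕ, ((q : ℂ) * τ + (u : ℂ)) / (q : ℂ) = τ + (u : ℂ) / (q : ℂ) := by
    intro u
    field_simp
  simp only [e3] at e1
  rw [e2] at e1
  have e4 : (q : ℂ) * ((q : ℂ) * τ) = (q : ℂ) ^ 2 * τ := by ring
  rw [e4] at e1
  field_simp
  linear_combination -e1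

end Pool.Agent.Q65.SM
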