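import Pool.Agent.Q127.SM.Stm

/-!
# Project SM (helper127), job ORT: orthogonality
-/

set_option autoImplicit false

namespace Pool.Agent.Q65.SM

open Pool.Agent.TH133.SH Pool.Agent.Q127.SM

/-- the sum of the `q`-th roots of unity `e(n u / q)` over `u` -/
theorem root_sum {q : ℕ} (hq : q.Prime) (n : ℕ) :
    ∑ u ∈ Finset.range q, Complex.exp (2 * (Real.pi : ℂ) * Complex.I * (n : ℂ) *
      ((u : ℂ) / (q : ℂ))) = if q ∣ n then (q : ℂ) else 0 := by
  have hq0 : (q : ℂ) ≠ 0 := by exact_mod_cast hq.ne_zero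
  set ζ : ℂ := Complex.exp (2 * (Real.pi : ℂ) * Complex.I / (q : ℂ)) with hζ
  have hprim : IsPrimitiveRoot ζ q := Complex.isPrimitiveRoot_exp q hq.ne_zero
  have h1 : ∀ u : ℕ, Complex.exp (2 * (Real.pi : ℂ) * Complex.I * (n : ℂ) *
      ((u : ℂ) / (q : ℂ))) = (ζ ^ n) ^ u := by
    intro u
    rw [hζ, ← pow_mul, ← Complex.exp_nat_mul]
    congr 1
    push_cast
    field_simp
  simp only [h1]
  by_cases hd : q ∣ n
  · rw [if_pos hd, (hprim.pow_eq_one_iff_dvd n).2 hd]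
    simp
  · rw [if_neg hd]
    have h2 : ζ ^ n ≠ 1 := fun h => hd ((hprim.pow_eq_one_iff_dvd n).1 h)
    rw [geom_sum_eq h2, ← pow_mul, mul_comm, pow_mul, hprim.pow_eq_one, one_pow]
    simp

theorem summable_cop {a : ℕ → ℤ} (q : ℕ) (hs : Summ a) : Summ (cop a q) := by
  intro τ hτ
  refine Summable.of_norm_bounded (hs τ hτ).norm (fun k => ?_)
  rw [norm_mul, norm_mul]
  gcongr
  unfold Pool.Agent.Q127.SM.cop
  split_ifs
  · simp
  · exact le_refl _

theorem ort : S_ort := by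
  intro a q hq hs τ hτ
  have hq0 : (q : ℂ) ≠ 0 := by exact_mod_cast hq.ne_zero
  have him : ∀ u : ℕ, 0 < (τ + (u : ℂ) / (q : ℂ)).im := by
    intro u
    have : ((u : ℂ) / (q : ℂ)).im = 0 := by
      have h2 : (u : ℂ) / (q : ℂ) = (((u : ℝ) / (q : ℝ) : ℝ) : ℂ) := by push_cast; rfl
      rw [h2, Complex.ofReal_im]
    rw [Complex.add_im, this, add_zero]
    exact hτ
  have h1 : ∑ u ∈ Finset.range q, Fser a (τ + (u : ℂ) / (q : ℂ)) =
      ∑' k : ℕ, ∑ u ∈ Finset.range q, (a k : ℂ) / (k : ℂ) *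
        Complex.exp (2 * (Real.pi : ℂ) * Complex.I * (k : ℂ) * (τ + (u : ℂ) / (q : ℂ))) := by
    rw [Summable.tsum_finsetSum fun u _ => summable_Fser hs (him u)]
    rfl
  have h2 : (q : ℂ) * (Fser a τ - Fser (cop a q) τ) =
      ∑' k : ℕ, (q : ℂ) * ((a k : ℂ) / (k : ℂ) *
        Complex.exp (2 * (Real.pi : ℂ) * Complex.I * (k : ℂ) * τ) -
        (cop a q k : ℂ) / (k : ℂ) *
        Complex.exp (2 * (Real.pi : ℂ) * Complex.I * (k : ℂ) * τ)) := by
    rw [tsum_mul_left, Summable.tsum_sub (summable_Fser hs hτ)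
      (summable_Fser (summable_cop q hs) hτ)]
    rfl
  rw [h1, h2]
  refine tsum_congr fun k => ?_
  have h3 : ∀ u : ℕ, (a k : ℂ) / (k : ℂ) *
      Complex.exp (2 * (Real.pi : ℂ) * Complex.I * (k : ℂ) * (τ + (u : ℂ) / (q : ℂ))) =
      ((a k : ℂ) / (k : ℂ) * Complex.exp (2 * (Real.pi : ℂ) * Complex.I * (k : ℂ) * τ)) *
        Complex.exp (2 * (Real.pi : ℂ) * Complex.I * (k : ℂ) * ((u : ℂ) / (q : ℂ))) := by
    intro u
    rw [mul_add, Complex.exp_add]
    ring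
  simp only [h3]
  rw [← Finset.mul_sum, root_sum hq k]
  unfold Pool.Agent.Q127.SM.cop
  split_ifs with h
  · push_cast
    ring
  · ring

end Pool.Agent.Q65.SM
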