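import Mathlib
import Pool.Agent.Q16.SQ.Stm5
import Pool.Agent.Helper549.Tri.Angles
import Pool.Agent.Helper549.Tri.Vertex
set_option autoImplicit false
noncomputable section
open scoped BigOperators

/-! JOB CONJ of project SQ (helper16). -/

namespace Q65.SQC

open Pool.Agent.Helper549.Tri Pool.Agent.Helper549.Tri.Angles Pool.Agent.Helper549.Tri.Vertex
open Q16.SQ

theorem cnt_image {N : ℕ} (t : Fin N → Fin 3 → ℂ) (τ : Fin N → Equiv.Perm (Fin 3)) {Φ : ℂ → ℂ}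
    (hΦ : Function.Injective Φ) (p : ℂ) (k : Fin 3) :
    cnt (fun i m => Φ (t i m)) τ (Φ p) k = cnt t τ p k := by
  classical
  unfold cnt
  refine Finset.sum_congr rfl fun i _ => Finset.sum_congr rfl fun m _ => ?_
  have e : (Φ (t i m) = Φ p ∧ τ i m = k) = (t i m = p ∧ τ i m = k) := by
    rw [hΦ.eq_iff]
  simp only [e]

/-- JOB CONJ -/
theorem t_CONJ (h1 : S_NORM) (h2 : S_SEMI) (h3 : S_IMG) (h4 : S_DDT) (h5 : S_SUMW) (h6 : S_TOPD) :
    S_CONJ := by
  classical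
  intro N T t h hN τ ℓ θ hlen hang n a hn ha hsum hθ j hj hv
  obtain ⟨T', t', hnd, hcnt⟩ := h1 h hN τ ℓ θ hlen hang n a hn ha hsum hθ
  obtain ⟨Φ, hΦ⟩ := h2 (4 * n) j (by omega) (Dvd.intro _ rfl) hj
  obtain ⟨hdd, hang'⟩ := h3 hnd j Φ hj hΦ hv
  have hddT := h4 hnd hN j Φ hj hΦ hv
  have hdis : Dis N (fun m => Φ (T' m)) (fun i m => Φ (t' i m)) :=
    h6 N _ _ hddT hdd (h5 hnd hN j Φ hj hΦ hv)
  have hca : ∀ i : Fin 3, ∑ k, (cnt t τ (T i) k : ℝ) * (Real.pi * vf n j (a k)) =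
      ang (fun m => Φ (T' m)) i := by
    intro i
    have h7 := corner_angles hdis τ (fun k => Real.pi * vf n j (a k)) hang' i
    rw [← h7]
    refine Finset.sum_congr rfl fun k _ => ?_
    have h8 : cnt (fun i m => Φ (t' i m)) τ (Φ (T' i)) k = cnt t τ (T i) k := by
      rw [cnt_image t' τ hΦ.2.1, hcnt i k]
    rw [h8]
  have hA := ang_sum (fun m => Φ (T' m)) hddT
  rw [← hca 0, ← hca 1, ← hca 2] at hA
  have hpi := Real.pi_pos
  have h9 : Real.pi * (∑ k, ((∑ i, cnt t τ (T i) k : ℕ) : ℝ) * vf n j (a k)) = Real.pi * 1 := by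
    rw [mul_one]
    refine Eq.trans ?_ hA
    simp only [Fin.sum_univ_three]
    push_cast
    ring
  exact mul_left_cancel₀ hpi.ne' h9

end Q65.SQC
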