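import Mathlib
import Pool.Agent.Q16.SQ.Stm5
import Pool.Agent.Helper549.Tri.Basic
import Pool.Agent.Helper549.Tri.Angles
import Pool.Agent.Helper549.Tri.Odd
import Pool.Agent.Helper549.Tri.Corner
import Pool.Agent.Helper549.Tri.AngleSum
import Pool.Agent.Helper549.Tri.Vertex
set_option autoImplicit false
noncomputable section
open scoped BigOperators
open MeasureTheory

/-! JOB DATA0 of project SQ (helper16); after Pool.Agent.Helper549.Tri.DataDis. -/

namespace Q65.SQ0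
open Pool.Agent.Helper549.Tri
open Pool.Agent.Helper549.Tri.Basic Pool.Agent.Helper549.Tri.Angles Pool.Agent.Helper549.Tri.Odd Pool.Agent.Helper549.Tri.Corner Pool.Agent.Helper549.Tri.AngleSum Pool.Agent.Helper549.Tri.Vertex

theorem sum3_ (f : Fin 3 → ℝ) : ∑ k, f k = f 0 + f 1 + f 2 := Fin.sum_univ_three f

theorem bcnt_pos {N : ℕ} {T : Fin 3 → ℂ} {t : Fin N → Fin 3 → ℂ} {τ : Fin N → Equiv.Perm (Fin 3)}
    {j k : Fin 3} : 0 < bcnt T t τ j k ↔ ∃ i l, onBd T (t i) l j ∧ τ i l = k := by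
  classical
  unfold bcnt
  constructor
  · intro h
    obtain ⟨i, _, hi⟩ := Finset.exists_ne_zero_of_sum_ne_zero h.ne'
    obtain ⟨l, _, hl⟩ := Finset.exists_ne_zero_of_sum_ne_zero hi
    refine ⟨i, l, ?_⟩
    by_contra hn
    exact hl (if_neg hn)
  · rintro ⟨i, l, hil⟩
    have h1 : (1 : ℕ) ≤ ∑ l' : Fin 3, if onBd T (t i) l' j ∧ τ i l' = k then 1 else 0 := by
      have := Finset.single_le_sum (f := fun l' : Fin 3 =>
        if onBd T (t i) l' j ∧ τ i l' = k then 1 else 0) (fun _ _ => Nat.zero_le _)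
        (Finset.mem_univ l)
      simpa [if_pos hil] using this
    have h2 := Finset.single_le_sum (f := fun i' : Fin N => ∑ l' : Fin 3,
      if onBd T (t i') l' j ∧ τ i' l' = k then 1 else 0) (fun _ _ => Nat.zero_le _)
      (Finset.mem_univ i)
    exact lt_of_lt_of_le Nat.one_pos (h1.trans h2)

theorem cnt_pos {N : ℕ} {t : Fin N → Fin 3 → ℂ} {τ : Fin N → Equiv.Perm (Fin 3)} {p : ℂ}
    {i : Fin N} {m : Fin 3} (h : t i m = p) : 0 < cnt t τ p (τ i m) := by
  classical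
  unfold cnt
  have h1 : (1 : ℕ) ≤ ∑ m' : Fin 3, if t i m' = p ∧ τ i m' = τ i m then 1 else 0 := by
    have := Finset.single_le_sum (f := fun m' : Fin 3 =>
      if t i m' = p ∧ τ i m' = τ i m then 1 else 0) (fun _ _ => Nat.zero_le _)
      (Finset.mem_univ m)
    simpa [h] using this
  have h2 := Finset.single_le_sum (f := fun i' : Fin N => ∑ m' : Fin 3,
    if t i' m' = p ∧ τ i' m' = τ i m then 1 else 0) (fun _ _ => Nat.zero_le _)
    (Finset.mem_univ i)
  exact lt_of_lt_of_le Nat.one_pos (h1.trans h2)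

theorem area_tile {N : ℕ} {t : Fin N → Fin 3 → ℂ} (hccw : ∀ i, 0 < dd (t i))
    (τ : Fin N → Equiv.Perm (Fin 3)) (ℓ θ : Fin 3 → ℝ) (hlen : ∀ i m, len (t i) m = ℓ (τ i m))
    (hang : ∀ i m, ang (t i) m = θ (τ i m)) (i : Fin N) :
    dd (t i) = ℓ 0 * ℓ 1 * Real.sin (θ 2) := by
  have k1 : ∀ m : Fin 3, m + 1 ≠ m := by decide
  have k2 : ∀ m : Fin 3, m + 2 ≠ m := by decide
  have k3 : ∀ m : Fin 3, m + 1 ≠ m + 2 := by decide
  obtain ⟨m, hm⟩ := (τ i).surjective 2
  rw [dd_eq (t i) (hccw i) m, hlen, hlen, hang, hm]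
  congr 1
  have h1 : τ i (m + 1) ≠ 2 := by
    intro h; exact k1 m ((τ i).injective (h.trans hm.symm))
  have h2 : τ i (m + 2) ≠ 2 := by
    intro h; exact k2 m ((τ i).injective (h.trans hm.symm))
  have h3 : τ i (m + 1) ≠ τ i (m + 2) := by
    intro h; exact k3 m ((τ i).injective h)
  have key : ∀ a b : Fin 3, a ≠ 2 → b ≠ 2 → a ≠ b → (a = 0 ∧ b = 1) ∨ (a = 1 ∧ b = 0) := by decide
  rcases key _ _ h1 h2 h3 with ⟨ha, hb⟩ | ⟨ha, hb⟩
  · rw [ha, hb]
  · rw [ha, hb, mul_comm]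

/-- JOB DATA0 -/
theorem t_DATA0 : Q16.SQ.S_DATA0 := by
  classical
  intro N hN T t h τ ℓ θ hlen hang
  let i0 : Fin N := ⟨0, by omega⟩
  have hinv : ∀ k, ∃ m, τ i0 m = k := (τ i0).surjective
  have lpos : ∀ k, 0 < ℓ k := by
    intro k
    obtain ⟨m, rfl⟩ := hinv k
    rw [← hlen]; exact len_pos _ (h.ccwt i0) m
  have tpos : ∀ k, 0 < θ k := by
    intro k
    obtain ⟨m, rfl⟩ := hinv k
    rw [← hang]; exact ang_pos _ (h.ccwt i0) m
  have tsum : θ 0 + θ 1 + θ 2 = Real.pi := by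
    rw [← sum3_, ← Equiv.sum_comp (τ i0), ← ang_sum (t i0) (h.ccwt i0), ← sum3_]
    exact Finset.sum_congr rfl fun m _ => (hang i0 m).symm
  have hangles : ∀ j, ang T j = ∑ k, (cnt t τ (T j) k : ℝ) * θ k :=
    fun j => (corner_angles h τ θ hang j).symm
  have hAsum := ang_sum T h.ccwT
  refine ⟨lpos, len_pos T h.ccwT, tpos, tsum, ang_pos T h.ccwT, hAsum, ?_, ?_, ?_, hangles,
    ?_, ?_, ?_⟩
  · intro j k
    obtain ⟨a, rfl⟩ := hinv j
    obtain ⟨b, rfl⟩ := hinv k
    rw [← hlen, ← hlen, ← hang, ← hang]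
    exact sine_law _ (h.ccwt i0) a b
  · intro j k
    exact sine_law T h.ccwT j k
  · have h1 := area_sum h
    rw [Finset.sum_congr rfl fun i _ => area_tile h.ccwt τ ℓ θ hlen hang i] at h1
    rw [Finset.sum_const, Finset.card_univ, Fintype.card_fin, nsmul_eq_mul] at h1
    rw [h1]
    exact dd_eq T h.ccwT 2
  · intro j
    by_contra hn
    push Not at hn
    have h1 := hangles j
    have h2 : ∑ k, (cnt t τ (T j) k : ℝ) * θ k = 0 := by
      apply Finset.sum_eq_zero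
      intro k _
      have : cnt t τ (T j) k = 0 := Nat.le_zero.mp (hn k)
      rw [this]; simp
    rw [h2] at h1
    exact (ang_pos T h.ccwT j).ne' h1
  · intro j
    have h1 := bd_len h j
    rw [← h1]
    symm
    unfold bcnt
    push_cast
    simp_rw [Finset.sum_mul]
    rw [Finset.sum_comm]
    apply Finset.sum_congr rfl
    intro i _
    rw [Finset.sum_comm]
    apply Finset.sum_congr rfl
    intro l _
    by_cases hb : onBd T (t i) l j
    · simp only [hb, true_and, if_true]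
      rw [hlen]
      simp
    · simp [hb]
  · intro j k hjk
    obtain ⟨i, m, l, hm, hlm, hb⟩ := corner_side h j k hjk
    refine ⟨τ i m, τ i l, fun he => hlm ((τ i).injective he).symm, cnt_pos hm, ?_⟩
    exact bcnt_pos.mpr ⟨i, l, hb, rfl⟩

end Q65.SQ0
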