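import Mathlib
import Pool.Agent.Q2.CS2.Stm

set_option autoImplicit false

namespace Q65.CS2_2

open Q2.CS2

theorem tr_congr {X D : Type} {π : X → X → D} (hπ : Hom π) {x y x' y' : X} (h : π x y = π x' y')
    (h₁ h₂ : D) : tr π x y h₁ h₂ = tr π x' y' h₁ h₂ := by
  obtain ⟨g, hg, rfl, rfl⟩ := hπ.1 x y x' y' h
  unfold tr
  have e : {v | π (g x) v = h₁ ∧ π v (g y) = h₂} = g '' {v | π x v = h₁ ∧ π v y = h₂} := by
    ext v
    simp only [Set.mem_setOf_eq, Set.mem_image]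
    constructor
    · rintro ⟨a, b⟩
      refine ⟨g.symm v, ⟨?_, ?_⟩, by simp⟩
      · rw [← hg x (g.symm v)]; simpa using a
      · rw [← hg (g.symm v) y]; simpa using b
    · rintro ⟨u, ⟨a, b⟩, rfl⟩
      exact ⟨(hg x u).trans a, (hg u y).trans b⟩
  rw [e, Set.ncard_image_of_injective _ g.injective]

theorem j2 (h1 : S_1) : S_2 := by
  intro X D _ π hπ
  obtain ⟨_, _, hpt, _⟩ := h1 X D π hπ
  have hbr : ∀ x y, br π (π x y) = π y x := by
    intro x y
    obtain ⟨g, hg, hx, hy⟩ := hπ.1 x y default (pt π (π x y)) (hpt _).symm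
    unfold br
    rw [← hy, ← hx]
    exact hg y x
  refine ⟨fun x y h₁ h₂ => tr_congr hπ (hpt _).symm h₁ h₂, hbr, fun h => ?_, fun x y h₁ h₂ => ?_⟩
  · have h3 : br π h = π (pt π h) default := rfl
    rw [h3, hbr, hpt]
  · exact (hπ.2.2.2 x h₁).subset fun v hv => hv.1

end Q65.CS2_2
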