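import Pool.Agent.Q201.AR.Stm2

set_option autoImplicit false

/-! Project AR (MP_f714b8_lc), JOB MISO: two good codings (Marker extension) are isomorphic. -/

open Q201.AR

namespace Q65.AR

/-- the parametrisation of `M` given by a coding -/
def par3 {M : Type} (R : M → M → Prop) (ι κ : M → M) (ν : M → M → M) :
    M ⊕ (M ⊕ {q : M × M // ¬ R q.1 q.2}) → M
  | Sum.inl a => ι a
  | Sum.inr (Sum.inl a) => κ a
  | Sum.inr (Sum.inr q) => ν q.1.1 q.1.2

theorem par3_bij {M : Type} {R : M → M → Prop} {ι κ : M → M} {ν : M → M → M}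
    (h : Good3 R ι κ ν) : Function.Bijective (par3 R ι κ ν) := by
  constructor
  · rintro (a | a | ⟨⟨a, a'⟩, ha⟩) (b | b | ⟨⟨b, b'⟩, hb⟩) hab
    · rw [h.iinj hab]
    · exact absurd hab (h.ik _ _)
    · exact absurd hab (h.iN _ _ _ hb)
    · exact absurd hab.symm (h.ik _ _)
    · rw [h.kinj hab]
    · exact absurd hab (h.kN _ _ _ hb)
    · exact absurd hab.symm (h.iN _ _ _ ha)
    · exact absurd hab.symm (h.kN _ _ _ ha)
    · obtain ⟨h1, h2⟩ := h.ninj _ _ _ _ ha hb hab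
      subst h1
      subst h2
      rfl
  · intro x
    rcases h.surj x with ⟨a, ha⟩ | ⟨a, ha⟩ | ⟨a, b, hab, hx⟩
    · exact ⟨Sum.inl a, ha.symm⟩
    · exact ⟨Sum.inr (Sum.inl a), ha.symm⟩
    · exact ⟨Sum.inr (Sum.inr ⟨(a, b), hab⟩), hx.symm⟩

/-- Two good codings are isomorphic. -/
theorem t_MISO : S_MISO := by
  intro M R ι κ ι' κ' ν ν' hg hg'
  let e := Equiv.ofBijective _ (par3_bij hg)
  let e' := Equiv.ofBijective _ (par3_bij hg')
  have k1 : ∀ a, (e'.symm.trans e) (ι' a) = ι a := by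
    intro a
    have h1 : e' (Sum.inl a) = ι' a := rfl
    have h2 : e (Sum.inl a) = ι a := rfl
    rw [Equiv.trans_apply, ← h1, Equiv.symm_apply_apply, h2]
  have k2 : ∀ a, (e'.symm.trans e) (κ' a) = κ a := by
    intro a
    have h1 : e' (Sum.inr (Sum.inl a)) = κ' a := rfl
    have h2 : e (Sum.inr (Sum.inl a)) = κ a := rfl
    rw [Equiv.trans_apply, ← h1, Equiv.symm_apply_apply, h2]
  have k3 : ∀ a b, ¬ R a b → (e'.symm.trans e) (ν' a b) = ν a b := by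
    intro a b hab
    have h1 : e' (Sum.inr (Sum.inr ⟨(a, b), hab⟩)) = ν' a b := rfl
    have h2 : e (Sum.inr (Sum.inr ⟨(a, b), hab⟩)) = ν a b := rfl
    rw [Equiv.trans_apply, ← h1, Equiv.symm_apply_apply, h2]
  set δ := e'.symm.trans e with hδ
  refine ⟨δ, fun x => ⟨?_, ?_⟩, fun x y => ⟨?_, ?_⟩, fun x y z => ⟨?_, ?_⟩⟩
  · rintro ⟨a, rfl⟩
    exact ⟨a, k1 a⟩
  · rintro ⟨a, ha⟩
    refine ⟨a, δ.injective ?_⟩
    rw [ha, k1]
  · rintro ⟨a, rfl, rfl⟩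
    exact ⟨a, k2 a, k1 a⟩
  · rintro ⟨a, ha, hb⟩
    refine ⟨a, δ.injective ?_, δ.injective ?_⟩
    · rw [ha, k2]
    · rw [hb, k1]
  · rintro ⟨a, b, hab, rfl, rfl, rfl⟩
    exact ⟨a, b, hab, k3 a b hab, k1 a, k1 b⟩
  · rintro ⟨a, b, hab, hx, hy, hz⟩
    refine ⟨a, b, hab, δ.injective ?_, δ.injective ?_, δ.injective ?_⟩
    · rw [hx, k3 a b hab]
    · rw [hy, k1]
    · rw [hz, k1]

end Q65.AR
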