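import Pool.Agent.Q201.AR.Stm3

set_option autoImplicit false

/-! Project AR (MP_f714b8_lc), JOB IND: the meaning of the code of the induction axiom. -/

open FirstOrder FirstOrder.Language Pool.Agent.Helper227.EN
open Q201.AR

namespace Q65.AR

theorem ind_key (hV : S_VARB) (c i : ℕ) (M : Type) [LA.Structure M] (e : ℕ → M) (x u y z : M) :
    Sat M c (Function.update (Function.update (Function.update (Function.update e i x) (c + i + 2) u)
      (c + i + 1) y) i z) ↔ Sat M c (Function.update e i z) := by
  apply hV
  intro j hj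
  by_cases hji : j = i
  · subst hji; simp
  · rw [Function.update_of_ne hji, Function.update_of_ne (by omega), Function.update_of_ne (by omega),
      Function.update_of_ne hji, Function.update_of_ne hji]

theorem ind_succ (hV : S_VARB) (c i : ℕ) (M : Type) [LA.Structure M] (e : ℕ → M) (x : M) :
    Sat M (cex (c + i + 2) (cand (co (c + i + 2))
      (cex (c + i + 1) (cand (cad i (c + i + 2) (c + i + 1))
        (cex i (cand (ceq i (c + i + 1)) c)))))) (Function.update e i x) ↔
      Sat M c (Function.update e i
        (Structure.funMap (L := LA) AF.add ![x, Structure.funMap (L := LA) AF.one ![] ])) := by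
  have n1 : i ≠ c + i + 1 := by omega
  have n2 : i ≠ c + i + 2 := by omega
  have n3 : c + i + 2 ≠ c + i + 1 := by omega
  have n4 : c + i + 1 ≠ i := by omega
  constructor
  · intro h
    obtain ⟨u, h⟩ := (Sat_cex _ _ _).1 h
    obtain ⟨hu, h⟩ := (Sat_cand _ _ _).1 h
    obtain ⟨y, h⟩ := (Sat_cex _ _ _).1 h
    obtain ⟨hy, h⟩ := (Sat_cand _ _ _).1 h
    obtain ⟨z, h⟩ := (Sat_cex _ _ _).1 h
    obtain ⟨hz, h⟩ := (Sat_cand _ _ _).1 h
    rw [Sat_co, Function.update_self] at hu
    rw [Sat_cad, Function.update_of_ne n1, Function.update_of_ne n2, Function.update_self,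
      Function.update_of_ne n3, Function.update_self, Function.update_self] at hy
    rw [Sat_ceq, Function.update_self, Function.update_of_ne n4, Function.update_self] at hz
    rw [ind_key hV] at h
    rw [hu, hy, ← hz]
    exact h
  · intro h
    refine (Sat_cex _ _ _).2 ⟨Structure.funMap (L := LA) AF.one ![], (Sat_cand _ _ _).2 ⟨?_, ?_⟩⟩
    · rw [Sat_co, Function.update_self]
    · refine (Sat_cex _ _ _).2 ⟨Structure.funMap (L := LA) AF.add
        ![x, Structure.funMap (L := LA) AF.one ![] ], (Sat_cand _ _ _).2 ⟨?_, ?_⟩⟩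
      · rw [Sat_cad, Function.update_of_ne n1, Function.update_of_ne n2, Function.update_self,
          Function.update_of_ne n3, Function.update_self, Function.update_self]
      · refine (Sat_cex _ _ _).2 ⟨Structure.funMap (L := LA) AF.add
          ![x, Structure.funMap (L := LA) AF.one ![] ], (Sat_cand _ _ _).2 ⟨?_, ?_⟩⟩
        · rw [Sat_ceq, Function.update_self, Function.update_of_ne n4, Function.update_self]
        · rw [ind_key hV]
          exact h

/-- The meaning of the code of the induction axiom. -/
theorem t_IND : S_IND := by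
  intro hV c i M _ e
  have hA : Sat M (cex i (cand (cz i) c)) e ↔
      Sat M c (Function.update e i (Structure.funMap (L := LA) AF.zero ![])) := by
    rw [Sat_cex]
    constructor
    · rintro ⟨x, h⟩
      obtain ⟨h1, h2⟩ := (Sat_cand _ _ _).1 h
      rw [Sat_cz, Function.update_self] at h1
      rw [h1]
      exact h2
    · intro h
      refine ⟨_, (Sat_cand _ _ _).2 ⟨?_, h⟩⟩
      rw [Sat_cz, Function.update_self]
  unfold cind
  rw [Sat_cneg, Sat_cand, Sat_cand, hA, Sat_cneg, Sat_cex, Sat_cex]
  simp only [Sat_cand, Sat_cneg]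
  constructor
  · intro h h0 hs x
    by_contra hx
    refine h ⟨h0, ?_, x, hx⟩
    rintro ⟨y, hy, hy2⟩
    exact hy2 ((ind_succ hV c i M e y).2 (hs y hy))
  · rintro h ⟨h0, hB, x, hx⟩
    refine hx (h h0 (fun y hy => ?_) x)
    by_contra hy2
    exact hB ⟨y, hy, fun h3 => hy2 ((ind_succ hV c i M e y).1 h3)⟩

end Q65.AR
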