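import Pool.Agent.Q256.EC.Stm

/-!
# Project EC of helper256 and helper170: job ANP
-/

set_option autoImplicit false

namespace Pool.Agent.Q65.EC

open Pool.Agent.Q256.EC

theorem diff_zero {K : Type} [NormedField K] (i n : ℕ) :
    (fwdDiff 1)^[i] (fun _ : ℕ => (0 : K)) n = 0 := by
  induction i generalizing n with
  | zero => rfl
  | succ i ih =>
    rw [Function.iterate_succ_apply', fwdDiff, ih, ih, sub_zero]

theorem an_lin (K : Type) [NormedField K] [IsUltrametricDist K] (q : ℝ) (hq : 0 < q)
    (hq1 : q ≤ 1) (c m : ℕ) : An q (fun n => ((c + m * n : ℕ) : K)) := by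
  refine ⟨1 / q, fun i n => ?_⟩
  have h1 : fwdDiff 1 (fun n : ℕ => ((c + m * n : ℕ) : K)) = fun _ => (m : K) := by
    funext n
    rw [fwdDiff]
    push_cast
    ring
  have h2 : fwdDiff 1 (fun _ : ℕ => (m : K)) = fun _ => (0 : K) := by
    funext n
    rw [fwdDiff, sub_self]
  rcases i with _ | _ | i
  · rw [pow_zero, mul_one]
    refine (IsUltrametricDist.norm_natCast_le_one K _).trans ?_
    rw [le_div_iff₀ hq, one_mul]
    exact hq1
  · rw [Function.iterate_succ_apply, h1, zero_add, pow_one, one_div, inv_mul_cancel₀ hq.ne']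
    exact IsUltrametricDist.norm_natCast_le_one K _
  · rw [Function.iterate_succ_apply, Function.iterate_succ_apply, h1, h2, diff_zero, norm_zero]
    positivity

theorem anp : S_ANM → S_ANP := by
  intro h K _ _ q hq hq1 c m i
  induction i with
  | zero =>
    have h1 := (h K q hq).2.2.1 1
    simpa only [pow_zero] using h1
  | succ i ih =>
    have h1 := (h K q hq).2.1 _ _ ih (an_lin K q hq hq1 c m)
    simpa only [pow_succ] using h1

end Pool.Agent.Q65.EC

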