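import Mathlib
import Pool.Agent.Q256.UG.Stm

/-! Project UG of helper256 (MP_821da1_nt): job DGC. -/

set_option autoImplicit false

namespace Pool.Agent.Q65.UG

open Finset MvPolynomial
open Pool.Agent.Q256.UP (PBox)
open Pool.Agent.Q256.UI (tc rho)
open Pool.Agent.Q256.UG

theorem dgc (hP : S_PRD) (hL : S_LDF) (hI : S_INV) (hN : S_NTH) : S_DGC := by
  intro d c hd
  obtain ⟨C, hC, hCP⟩ := hP d (c + 1) (by omega)
  obtain ⟨M, hM⟩ : ∃ M : ℝ, M = 2 * ((c : ℝ) + 1) + 1 := ⟨_, rfl⟩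
  have hM1 : 1 ≤ M := by
    rw [hM]
    have := Nat.cast_nonneg (α := ℝ) c
    linarith
  have hNC : d + 1 ≤ NC d := by
    unfold NC
    have h1 : (d + 2).choose 2 = (d + 1).choose 1 + (d + 1).choose 2 := Nat.choose_succ_succ _ _
    rw [h1, Nat.choose_one_right]
    omega
  have hd1 : (1 : ℝ) ≤ d := by exact_mod_cast (by omega : 1 ≤ d)
  refine ⟨d * (C * M ^ (NC d - (d + 1))), ?_, ?_⟩
  · exact one_le_mul_of_one_le_of_one_le hd1
      (one_le_mul_of_one_le_of_one_le hC (one_le_pow₀ hM1))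
  intro H D hH hDH
  have hH' : (1 : ℝ) ≤ H := by exact_mod_cast hH
  have hD : 0 < D := by
    by_contra hneg
    have : D * H ≤ 0 := mul_nonpos_of_nonpos_of_nonneg (not_lt.1 hneg) (by linarith)
    linarith
  -- the sets
  let V : Set (MvPolynomial (Fin 2) ℤ) := {F | F ∈ PBox d (c * H) ∧ ∃ θ : ℝ, Th d F θ ∧
    |tc F θ d 1| ≤ D * H ∧ |rho d (tc F θ)| ≤ 1 / 4}
  let P : Set (Fin (d + 1) → ℤ) := {v | ∃ θ : ℝ, |θ| ≤ 2 ∧ pv d v 0 θ = 0 ∧ |pv d v 1 θ| ≤ D * H}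
  let B : Set (MvPolynomial (Fin 2) ℤ) := {F | F ∈ PBox d ((c + 1) * H) ∧ lc d F ∈ P}
  have hBfin : B.Finite := (Pool.Agent.Q256.UP.finite_pbox _ _).subset fun F hF => hF.1
  have : Finite B := hBfin.to_subtype
  -- cardinality of B
  have hB : (Nat.card B : ℝ) ≤ C * D * (H : ℝ) ^ (d + 1) * (M * H) ^ (NC d - (d + 1)) := by
    have h1 := hL.2.2 d ((c + 1) * H) P (by omega)
    have h2 := hCP H D hH hDH
    have h3 : (Nat.card B : ℝ) ≤ (Nat.card {v | v ∈ Vc d ((c + 1) * H) ∧ v ∈ P} : ℝ) *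
        (2 * (((c + 1) * H : ℕ) : ℝ) + 1) ^ (NC d - (d + 1)) := by
      have : (Nat.card B : ℝ) ≤ ((Nat.card {v | v ∈ Vc d ((c + 1) * H) ∧ v ∈ P} *
          (2 * ((c + 1) * H) + 1) ^ (NC d - (d + 1)) : ℕ) : ℝ) := by exact_mod_cast h1
      refine this.trans (le_of_eq ?_)
      push_cast
      ring
    refine h3.trans (mul_le_mul h2 (pow_le_pow_left₀ (by positivity) ?_ _) (by positivity)
      (by positivity))
    rw [hM]
    push_cast
    nlinarith
  -- the enumeration of the directions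
  have henum : ∀ F : MvPolynomial (Fin 2) ℤ, ∃ e : {θ : ℝ | Th d F θ} → Fin d,
      Function.Injective e := by
    intro F
    obtain ⟨h1, h2⟩ := hN d F
    have : Fintype {θ : ℝ | Th d F θ} := h1.fintype
    have h3 : Fintype.card {θ : ℝ | Th d F θ} ≤ Fintype.card (Fin d) := by
      rw [Fintype.card_fin, ← Nat.card_eq_fintype_card, Nat.card_coe_set_eq]
      exact h2
    obtain ⟨e⟩ := Function.Embedding.nonempty_of_card_le h3
    exact ⟨e, e.injective⟩
  choose e he using henum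
  -- directions of F
  have hθ : ∀ F : V, ∃ θ : ℝ, Th d F.1 θ ∧ |tc F.1 θ d 1| ≤ D * H ∧
    |rho d (tc F.1 θ)| ≤ 1 / 4 := fun F => F.2.2
  choose θ hθ1 hθ2 hθ3 using hθ
  have hI2 := hI.2
  have hTh : ∀ (F : V) (t : ℤ), Th d (F.1 + monomial (Finsupp.single 0 (d - 2)) t) (θ F) := by
    intro F t
    obtain ⟨h1, -, -⟩ := hI2 d F.1 t hd
    refine ⟨(hθ1 F).abs, ?_, ?_⟩
    · rw [h1]
      exact (hθ1 F).zero
    · rw [h1]
      exact (hθ1 F).one
  have hmem : ∀ p : V × Fin (H + 1),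
      p.1.1 + monomial (Finsupp.single 0 (d - 2)) ((p.2 : ℕ) : ℤ) ∈ B := by
    rintro ⟨F, t⟩
    refine ⟨?_, θ F, (hθ1 F).abs, ?_, ?_⟩
    · rw [add_mul, one_mul]
      refine Pool.Agent.Q256.UP.pbox_add F.2.1 ?_
      refine Pool.Agent.Q256.UP.pbox_monomial 0 (d - 2) (by omega) _ ?_
      rw [abs_of_nonneg (by positivity)]
      have := t.2
      exact_mod_cast (by omega : (t : ℕ) ≤ H)
    · rw [← hL.1]
      exact (hTh F _).zero
    · rw [← hL.1, (hI2 d F.1 _ hd).1]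
      exact hθ2 F
  let φ : V × Fin (H + 1) → B × Fin d := fun p =>
    (⟨_, hmem p⟩, e (p.1.1 + monomial (Finsupp.single 0 (d - 2)) ((p.2 : ℕ) : ℤ))
      ⟨θ p.1, hTh p.1 _⟩)
  have hφ : Function.Injective φ := by
    rintro ⟨F, t⟩ ⟨F', t'⟩ h
    have h1 : F.1 + monomial (Finsupp.single 0 (d - 2)) ((t : ℕ) : ℤ) =
        F'.1 + monomial (Finsupp.single 0 (d - 2)) ((t' : ℕ) : ℤ) :=
      congrArg (fun z => z.1.1) h
    have h2 : e (F.1 + monomial (Finsupp.single 0 (d - 2)) ((t : ℕ) : ℤ)) ⟨θ F, hTh F _⟩ =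
        e (F'.1 + monomial (Finsupp.single 0 (d - 2)) ((t' : ℕ) : ℤ)) ⟨θ F', hTh F' _⟩ :=
      congrArg (fun z => z.2) h
    have key : ∀ (G G' : MvPolynomial (Fin 2) ℤ) (a : {θ : ℝ | Th d G θ})
        (b : {θ : ℝ | Th d G' θ}), G = G' → e G a = e G' b → a.1 = b.1 := by
      intro G G' a b hG hab
      subst hG
      exact congrArg Subtype.val (he G hab)
    have h3 : θ F = θ F' := key _ _ _ _ h1 h2
    have h4 := (hI2 d F.1 ((t : ℕ) : ℤ) hd).2.2 (θ F)
    have h5 := (hI2 d F'.1 ((t' : ℕ) : ℤ) hd).2.2 (θ F')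
    rw [h1, h3, h5] at h4
    have hr1 := abs_le.1 (hθ3 F)
    have hr2 := abs_le.1 (hθ3 F')
    rw [h3] at hr1
    have h6 : |(((t : ℕ) : ℤ) : ℝ) - (((t' : ℕ) : ℤ) : ℝ)| < 1 := by
      rw [abs_lt]
      constructor <;> linarith [hr1.1, hr1.2, hr2.1, hr2.2]
    have h7 : ((t : ℕ) : ℤ) = ((t' : ℕ) : ℤ) := by
      have h8 : |((t : ℕ) : ℤ) - ((t' : ℕ) : ℤ)| < 1 := by exact_mod_cast h6
      rw [Int.abs_lt_one_iff] at h8
      omega
    have h9 : t = t' := Fin.ext (by exact_mod_cast h7)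
    subst h9
    have h10 : F = F' := Subtype.ext (add_right_cancel h1)
    subst h10
    rfl
  have hcard := Nat.card_le_card_of_injective φ hφ
  rw [Nat.card_prod, Nat.card_prod, Nat.card_eq_fintype_card (α := Fin (H + 1)),
    Nat.card_eq_fintype_card (α := Fin d), Fintype.card_fin, Fintype.card_fin] at hcard
  have hcard' : (Nat.card V : ℝ) * ((H : ℝ) + 1) ≤ Nat.card B * d := by exact_mod_cast hcard
  have hfinal : (Nat.card V : ℝ) * H ≤
      (d * (C * M ^ (NC d - (d + 1))) * D * (H : ℝ) ^ (NC d - 1)) * H := by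
    calc (Nat.card V : ℝ) * H ≤ (Nat.card V : ℝ) * ((H : ℝ) + 1) :=
          mul_le_mul_of_nonneg_left (by linarith) (Nat.cast_nonneg _)
      _ ≤ Nat.card B * d := hcard'
      _ ≤ (C * D * (H : ℝ) ^ (d + 1) * (M * H) ^ (NC d - (d + 1))) * d :=
          mul_le_mul_of_nonneg_right hB (Nat.cast_nonneg _)
      _ = d * (C * M ^ (NC d - (d + 1))) * D * ((H : ℝ) ^ (d + 1) * (H : ℝ) ^ (NC d - (d + 1))) := by
          rw [mul_pow]
          ring
      _ = d * (C * M ^ (NC d - (d + 1))) * D * ((H : ℝ) ^ (NC d - 1) * H) := by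
          rw [← pow_add, ← pow_succ]
          congr 2
          omega
      _ = (d * (C * M ^ (NC d - (d + 1))) * D * (H : ℝ) ^ (NC d - 1)) * H := by ring
  exact le_of_mul_le_mul_right hfinal (by linarith)

end Pool.Agent.Q65.UG

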