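import Mathlib
import Pool.Agent.Q256.UG.Stm

/-! Project UG of helper256 (MP_821da1_nt): job PRD. -/

set_option autoImplicit false

namespace Pool.Agent.Q65.UG

open Finset
open Pool.Agent.Q256.UG

/-- Second order Taylor estimate for a power. -/
theorem pow_taylor2 (t θ : ℝ) (ht : |t| ≤ 2) (hθ : |θ| ≤ 2) (i : ℕ) :
    |t ^ i - θ ^ i - i * θ ^ (i - 1) * (t - θ)| ≤ (i : ℝ) ^ 2 * 2 ^ i * (t - θ) ^ 2 := by
  induction i with
  | zero => simp
  | succ i ih =>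
    have e : t ^ (i + 1) - θ ^ (i + 1) - ((i + 1 : ℕ) : ℝ) * θ ^ (i + 1 - 1) * (t - θ) =
        t * (t ^ i - θ ^ i - i * θ ^ (i - 1) * (t - θ)) + i * θ ^ (i - 1) * (t - θ) ^ 2 := by
      rcases Nat.eq_zero_or_pos i with h | h
      · subst h
        simp
      · obtain ⟨k, rfl⟩ := Nat.exists_eq_add_of_lt h
        simp only [Nat.zero_add, Nat.add_sub_cancel]
        push_cast
        ring
    rw [e]
    have h1 : |t * (t ^ i - θ ^ i - i * θ ^ (i - 1) * (t - θ))| ≤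
        2 * ((i : ℝ) ^ 2 * 2 ^ i * (t - θ) ^ 2) := by
      rw [abs_mul]
      exact mul_le_mul ht ih (abs_nonneg _) (by norm_num)
    have h2 : |(i : ℝ) * θ ^ (i - 1) * (t - θ) ^ 2| ≤ i * 2 ^ i * (t - θ) ^ 2 := by
      rw [abs_mul, abs_mul, abs_of_nonneg (sq_nonneg (t - θ)), Nat.abs_cast, abs_pow]
      refine mul_le_mul_of_nonneg_right (mul_le_mul_of_nonneg_left ?_ (Nat.cast_nonneg _))
        (sq_nonneg _)
      calc |θ| ^ (i - 1) ≤ 2 ^ (i - 1) := pow_le_pow_left₀ (abs_nonneg _) hθ _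
        _ ≤ 2 ^ i := pow_le_pow_right₀ (by norm_num) (Nat.sub_le _ _)
    refine (abs_add_le _ _).trans ((add_le_add h1 h2).trans ?_)
    have h3 : (0 : ℝ) ≤ 2 ^ i * (t - θ) ^ 2 := by positivity
    have h4 : (0 : ℝ) ≤ i := Nat.cast_nonneg _
    have e2 : (((i + 1 : ℕ) : ℝ)) ^ 2 * 2 ^ (i + 1) * (t - θ) ^ 2 -
        (2 * ((i : ℝ) ^ 2 * 2 ^ i * (t - θ) ^ 2) + i * 2 ^ i * (t - θ) ^ 2) =
        (3 * i + 2) * (2 ^ i * (t - θ) ^ 2) := by
      push_cast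
      ring
    have h5 : (0 : ℝ) ≤ (3 * i + 2) * (2 ^ i * (t - θ) ^ 2) := mul_nonneg (by linarith) h3
    linarith

/-- First order Taylor estimate for a power. -/
theorem pow_taylor1 (t θ : ℝ) (ht : |t| ≤ 2) (hθ : |θ| ≤ 2) (i : ℕ) :
    |t ^ i - θ ^ i| ≤ (i : ℝ) * 2 ^ i * |t - θ| := by
  induction i with
  | zero => simp
  | succ i ih =>
    have e : t ^ (i + 1) - θ ^ (i + 1) = t * (t ^ i - θ ^ i) + θ ^ i * (t - θ) := by ring
    rw [e]
    have h1 : |t * (t ^ i - θ ^ i)| ≤ 2 * ((i : ℝ) * 2 ^ i * |t - θ|) := by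
      rw [abs_mul]
      exact mul_le_mul ht ih (abs_nonneg _) (by norm_num)
    have h2 : |θ ^ i * (t - θ)| ≤ 2 ^ i * |t - θ| := by
      rw [abs_mul, abs_pow]
      exact mul_le_mul_of_nonneg_right (pow_le_pow_left₀ (abs_nonneg _) hθ _) (abs_nonneg _)
    refine (abs_add_le _ _).trans ((add_le_add h1 h2).trans ?_)
    have h3 : (0 : ℝ) ≤ 2 ^ i * |t - θ| := by positivity
    have e2 : (((i + 1 : ℕ) : ℝ)) * 2 ^ (i + 1) * |t - θ| -
        (2 * ((i : ℝ) * 2 ^ i * |t - θ|) + 2 ^ i * |t - θ|) = 2 ^ i * |t - θ| := by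
      push_cast
      ring
    linarith

/-- The value at a nearby point. -/
theorem pv0_near (d : ℕ) (v : Fin (d + 1) → ℤ) (B t θ : ℝ) (hv : ∀ i, |(v i : ℝ)| ≤ B)
    (ht : |t| ≤ 2) (hθ : |θ| ≤ 2) :
    |pv d v 0 t - pv d v 0 θ - pv d v 1 θ * (t - θ)| ≤
      ((d : ℝ) + 1) * (B * ((d : ℝ) ^ 2 * 2 ^ d)) * (t - θ) ^ 2 := by
  have hB : 0 ≤ B := (abs_nonneg _).trans (hv 0)
  have e : pv d v 0 t - pv d v 0 θ - pv d v 1 θ * (t - θ) =
      ∑ i : Fin (d + 1), (v i : ℝ) *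
        (t ^ (i : ℕ) - θ ^ (i : ℕ) - ((i : ℕ) : ℝ) * θ ^ ((i : ℕ) - 1) * (t - θ)) := by
    unfold pv
    rw [sum_mul, ← sum_sub_distrib, ← sum_sub_distrib]
    refine sum_congr rfl fun i _ => ?_
    simp only [Nat.choose_zero_right, Nat.choose_one_right, Nat.sub_zero]
    push_cast
    ring
  rw [e]
  calc |∑ i : Fin (d + 1), (v i : ℝ) *
        (t ^ (i : ℕ) - θ ^ (i : ℕ) - ((i : ℕ) : ℝ) * θ ^ ((i : ℕ) - 1) * (t - θ))|
      ≤ ∑ i : Fin (d + 1), |(v i : ℝ) *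
        (t ^ (i : ℕ) - θ ^ (i : ℕ) - ((i : ℕ) : ℝ) * θ ^ ((i : ℕ) - 1) * (t - θ))| :=
        abs_sum_le_sum_abs _ _
    _ ≤ ∑ _i : Fin (d + 1), B * ((d : ℝ) ^ 2 * 2 ^ d * (t - θ) ^ 2) := by
        refine sum_le_sum fun i _ => ?_
        rw [abs_mul]
        refine mul_le_mul (hv i) ((pow_taylor2 t θ ht hθ i).trans ?_) (abs_nonneg _) hB
        have hi : ((i : ℕ) : ℝ) ≤ d := by exact_mod_cast Nat.lt_succ_iff.1 i.2
        have h1 : ((i : ℕ) : ℝ) ^ 2 ≤ (d : ℝ) ^ 2 := pow_le_pow_left₀ (Nat.cast_nonneg _) hi 2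
        have h2 : (2 : ℝ) ^ (i : ℕ) ≤ 2 ^ d :=
          pow_le_pow_right₀ (by norm_num) (Nat.lt_succ_iff.1 i.2)
        exact mul_le_mul_of_nonneg_right (mul_le_mul h1 h2 (by positivity) (by positivity))
          (sq_nonneg _)
    _ = ((d : ℝ) + 1) * (B * ((d : ℝ) ^ 2 * 2 ^ d)) * (t - θ) ^ 2 := by
        rw [sum_const, card_univ, Fintype.card_fin, nsmul_eq_mul]
        push_cast
        ring

/-- The derivative at a nearby point. -/
theorem pv1_near (d : ℕ) (v : Fin (d + 1) → ℤ) (B t θ : ℝ) (hv : ∀ i, |(v i : ℝ)| ≤ B)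
    (ht : |t| ≤ 2) (hθ : |θ| ≤ 2) :
    |pv d v 1 t - pv d v 1 θ| ≤ ((d : ℝ) + 1) * (B * ((d : ℝ) ^ 2 * 2 ^ d)) * |t - θ| := by
  have hB : 0 ≤ B := (abs_nonneg _).trans (hv 0)
  have e : pv d v 1 t - pv d v 1 θ =
      ∑ i : Fin (d + 1), (v i : ℝ) * (((i : ℕ) : ℝ) * (t ^ ((i : ℕ) - 1) - θ ^ ((i : ℕ) - 1))) := by
    unfold pv
    rw [← sum_sub_distrib]
    refine sum_congr rfl fun i _ => ?_
    simp only [Nat.choose_one_right]
    ring
  rw [e]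
  calc |∑ i : Fin (d + 1), (v i : ℝ) *
        (((i : ℕ) : ℝ) * (t ^ ((i : ℕ) - 1) - θ ^ ((i : ℕ) - 1)))|
      ≤ ∑ i : Fin (d + 1), |(v i : ℝ) *
        (((i : ℕ) : ℝ) * (t ^ ((i : ℕ) - 1) - θ ^ ((i : ℕ) - 1)))| := abs_sum_le_sum_abs _ _
    _ ≤ ∑ _i : Fin (d + 1), B * ((d : ℝ) ^ 2 * 2 ^ d * |t - θ|) := by
        refine sum_le_sum fun i _ => ?_
        rw [abs_mul, abs_mul, Nat.abs_cast]
        refine mul_le_mul (hv i) ?_ (by positivity) hB
        have hi : ((i : ℕ) : ℝ) ≤ d := by exact_mod_cast Nat.lt_succ_iff.1 i.2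
        have hi1 : (((i : ℕ) - 1 : ℕ) : ℝ) ≤ d := by
          exact_mod_cast (Nat.sub_le _ _).trans (Nat.lt_succ_iff.1 i.2)
        have h2 : (2 : ℝ) ^ ((i : ℕ) - 1) ≤ 2 ^ d :=
          pow_le_pow_right₀ (by norm_num) ((Nat.sub_le _ _).trans (Nat.lt_succ_iff.1 i.2))
        calc ((i : ℕ) : ℝ) * |t ^ ((i : ℕ) - 1) - θ ^ ((i : ℕ) - 1)|
            ≤ d * ((((i : ℕ) - 1 : ℕ) : ℝ) * 2 ^ ((i : ℕ) - 1) * |t - θ|) :=
              mul_le_mul hi (pow_taylor1 t θ ht hθ _) (abs_nonneg _) (Nat.cast_nonneg _)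
          _ ≤ d * (d * 2 ^ d * |t - θ|) := by
              refine mul_le_mul_of_nonneg_left (mul_le_mul_of_nonneg_right
                (mul_le_mul hi1 h2 (by positivity) (Nat.cast_nonneg _)) (abs_nonneg _))
                (Nat.cast_nonneg _)
          _ = (d : ℝ) ^ 2 * 2 ^ d * |t - θ| := by ring
    _ = ((d : ℝ) + 1) * (B * ((d : ℝ) ^ 2 * 2 ^ d)) * |t - θ| := by
        rw [sum_const, card_univ, Fintype.card_fin, nsmul_eq_mul]
        push_cast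
        ring

theorem Vc_eq (d H : ℕ) : Vc d H =
    ((Fintype.piFinset fun _ : Fin (d + 1) => Icc (-(H : ℤ)) H : Finset (Fin (d + 1) → ℤ)) :
      Set (Fin (d + 1) → ℤ)) := by
  ext v
  rw [mem_coe, Fintype.mem_piFinset]
  exact forall_congr' fun i => by rw [mem_Icc, abs_le]

theorem Vc_finite (d H : ℕ) : (Vc d H).Finite := by
  rw [Vc_eq]
  exact finite_toSet _

theorem Vc_card (d H : ℕ) : (Vc d H).ncard = (2 * H + 1) ^ (d + 1) := by
  rw [Vc_eq, Set.ncard_coe_finset, Fintype.card_piFinset, prod_const, Int.card_Icc, card_univ,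
    Fintype.card_fin]
  congr 1
  omega

/-- A grid point near `θ`, between `0` and `θ`. -/
theorem grid (θ D : ℝ) (hD : 0 < D) (hθ : |θ| ≤ 2) :
    ∃ k : ℤ, |k| ≤ ⌊2 / D⌋₊ ∧ |k * D| ≤ 2 ∧ |k * D - θ| ≤ D := by
  have key : ∀ φ : ℝ, 0 ≤ φ → φ ≤ 2 →
      (⌊φ / D⌋₊ : ℕ) ≤ ⌊2 / D⌋₊ ∧ (⌊φ / D⌋₊ : ℝ) * D ≤ φ ∧ φ - (⌊φ / D⌋₊ : ℝ) * D ≤ D := by
    intro φ h0 h2
    have h3 : 0 ≤ φ / D := div_nonneg h0 hD.le
    refine ⟨Nat.floor_le_floor (div_le_div_of_nonneg_right h2 hD.le), ?_, ?_⟩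
    · exact (le_div_iff₀ hD).1 (Nat.floor_le h3)
    · have h4 := (div_lt_iff₀ hD).1 (Nat.lt_floor_add_one (φ / D))
      linarith
  rcases le_total 0 θ with h | h
  · obtain ⟨h1, h2, h3⟩ := key θ h ((le_abs_self θ).trans hθ)
    refine ⟨(⌊θ / D⌋₊ : ℕ), ?_, ?_, ?_⟩
    · rw [Nat.abs_cast]
      exact_mod_cast h1
    · push_cast
      rw [abs_of_nonneg (by positivity)]
      exact h2.trans ((le_abs_self θ).trans hθ)
    · push_cast
      rw [abs_le]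
      constructor <;> linarith
  · obtain ⟨h1, h2, h3⟩ := key (-θ) (by linarith) ((neg_le_abs θ).trans hθ)
    refine ⟨-(⌊-θ / D⌋₊ : ℕ), ?_, ?_, ?_⟩
    · rw [abs_neg, Nat.abs_cast]
      exact_mod_cast h1
    · push_cast
      rw [neg_mul, abs_neg, abs_of_nonneg (by positivity)]
      exact h2.trans ((neg_le_abs θ).trans hθ)
    · push_cast
      rw [abs_le]
      constructor <;> linarith

theorem prd (hG : S_GRD) : S_PRD := by
  intro d c hd
  obtain ⟨C0, hC0⟩ : ∃ C0 : ℝ, C0 = ((d : ℝ) + 1) * (c * ((d : ℝ) ^ 2 * 2 ^ d)) := ⟨_, rfl⟩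
  have hC0n : 0 ≤ C0 := by rw [hC0]; positivity
  obtain ⟨C1, hC1⟩ : ∃ C1 : ℝ, C1 = 2 * (1 + C0) + 16 := ⟨_, rfl⟩
  have hC1n : 1 ≤ C1 := by rw [hC1]; linarith
  have hc1 : (1 : ℝ) ≤ 2 * c + 1 := by
    have := Nat.cast_nonneg (α := ℝ) c
    linarith
  refine ⟨5 * C1 ^ 2 * (2 * (c : ℝ) + 1) ^ (d + 1), ?_, ?_⟩
  · have h1 : (1 : ℝ) ≤ C1 ^ 2 := one_le_pow₀ hC1n
    have h2 : (1 : ℝ) ≤ (2 * (c : ℝ) + 1) ^ (d + 1) := one_le_pow₀ hc1
    nlinarith [mul_nonneg (sub_nonneg.2 h1) (sub_nonneg.2 h2)]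
  intro H D hH hDH
  have hH' : (1 : ℝ) ≤ H := by exact_mod_cast hH
  have hD : 0 < D := by
    by_contra hneg
    have : D * H ≤ 0 := mul_nonpos_of_nonpos_of_nonneg (not_lt.1 hneg) (by linarith)
    linarith
  have hbox : (2 * ((c * H : ℕ) : ℝ) + 1) ≤ (2 * c + 1) * H := by
    push_cast
    nlinarith
  have hV : {v | v ∈ Vc d (c * H) ∧ ∃ θ : ℝ, |θ| ≤ 2 ∧ pv d v 0 θ = 0 ∧ |pv d v 1 θ| ≤ D * H} ⊆
      Vc d (c * H) := fun v hv => hv.1
  rw [Nat.card_coe_set_eq]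
  rcases le_total 1 D with h1 | h1
  · have h2 := Set.ncard_le_ncard hV (Vc_finite d (c * H))
    rw [Vc_card] at h2
    have h3 : (({v | v ∈ Vc d (c * H) ∧ ∃ θ : ℝ, |θ| ≤ 2 ∧ pv d v 0 θ = 0 ∧
        |pv d v 1 θ| ≤ D * H}.ncard : ℕ) : ℝ) ≤ ((2 * (c * H) + 1) ^ (d + 1) : ℕ) := by
      exact_mod_cast h2
    refine h3.trans ?_
    calc ((((2 * (c * H) + 1) ^ (d + 1) : ℕ)) : ℝ) = (2 * ((c * H : ℕ) : ℝ) + 1) ^ (d + 1) := by
          push_cast
          ring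
      _ ≤ ((2 * c + 1) * H) ^ (d + 1) := pow_le_pow_left₀ (by positivity) hbox _
      _ = 1 * (2 * (c : ℝ) + 1) ^ (d + 1) * 1 * (H : ℝ) ^ (d + 1) := by rw [mul_pow]; ring
      _ ≤ 5 * C1 ^ 2 * (2 * (c : ℝ) + 1) ^ (d + 1) * D * (H : ℝ) ^ (d + 1) := by
          have h4 : (1 : ℝ) ≤ 5 * C1 ^ 2 := by
            have : (1 : ℝ) ≤ C1 ^ 2 := one_le_pow₀ hC1n
            linarith
          refine mul_le_mul_of_nonneg_right (mul_le_mul (mul_le_mul_of_nonneg_right h4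
            (by positivity)) h1 (by norm_num) (by positivity)) (by positivity)
  · -- the grid
    obtain ⟨K, hK⟩ : ∃ K : ℕ, K = ⌊2 / D⌋₊ := ⟨_, rfl⟩
    obtain ⟨X, hX⟩ : ∃ X : ℝ, X = (1 + C0) * (D ^ 2 * H) := ⟨_, rfl⟩
    obtain ⟨Y, hY⟩ : ∃ Y : ℝ, Y = (1 + C0) * (D * H) := ⟨_, rfl⟩
    have hX0 : 0 ≤ X := by rw [hX]; positivity
    have hY0 : 0 ≤ Y := by rw [hY]; positivity
    have hsub : {v | v ∈ Vc d (c * H) ∧ ∃ θ : ℝ, |θ| ≤ 2 ∧ pv d v 0 θ = 0 ∧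
        |pv d v 1 θ| ≤ D * H} ⊆ ⋃ k ∈ Icc (-(K : ℤ)) K,
          {v | v ∈ Vc d (c * H) ∧ |pv d v 0 (k * D)| ≤ X ∧ |pv d v 1 (k * D)| ≤ Y} := by
      rintro v ⟨hv, θ, hθ, h0, hp⟩
      obtain ⟨k, hk1, hk2, hk3⟩ := grid θ D hD hθ
      simp only [Set.mem_iUnion]
      refine ⟨k, ?_, hv, ?_, ?_⟩
      · rw [mem_Icc, ← abs_le, hK]
        exact_mod_cast hk1
      · have hvr : ∀ i, |(v i : ℝ)| ≤ c * H := by
          intro i
          have := hv i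
          have h5 : ((|v i| : ℤ) : ℝ) ≤ ((c * H : ℕ) : ℤ) := by exact_mod_cast this
          rw [Int.cast_abs] at h5
          push_cast at h5
          exact h5
        have h6 := pv0_near d v (c * H) (k * D) θ hvr hk2 hθ
        rw [h0, sub_zero] at h6
        have h7 : |pv d v 1 θ * (k * D - θ)| ≤ D * H * D := by
          rw [abs_mul]
          exact mul_le_mul hp hk3 (abs_nonneg _) (by positivity)
        have h8 : (k * D - θ) ^ 2 ≤ D ^ 2 := by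
          rw [← sq_abs (k * D - θ)]
          exact pow_le_pow_left₀ (abs_nonneg _) hk3 2
        have h9 : ((d : ℝ) + 1) * (c * H * ((d : ℝ) ^ 2 * 2 ^ d)) * (k * D - θ) ^ 2 ≤
            C0 * H * D ^ 2 := by
          have : ((d : ℝ) + 1) * (c * H * ((d : ℝ) ^ 2 * 2 ^ d)) = C0 * H := by rw [hC0]; ring
          rw [this]
          exact mul_le_mul_of_nonneg_left h8 (by positivity)
        have h10 : |pv d v 0 (k * D)| ≤ |pv d v 0 (k * D) - pv d v 1 θ * (k * D - θ)| +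
            |pv d v 1 θ * (k * D - θ)| := by
          have := abs_add_le (pv d v 0 (k * D) - pv d v 1 θ * (k * D - θ))
            (pv d v 1 θ * (k * D - θ))
          rwa [sub_add_cancel] at this
        rw [hX]
        calc |pv d v 0 (k * D)| ≤ C0 * H * D ^ 2 + D * H * D :=
              h10.trans (add_le_add (h6.trans h9) h7)
          _ = (1 + C0) * (D ^ 2 * H) := by ring
      · have hvr : ∀ i, |(v i : ℝ)| ≤ c * H := by
          intro i
          have := hv i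
          have h5 : ((|v i| : ℤ) : ℝ) ≤ ((c * H : ℕ) : ℤ) := by exact_mod_cast this
          rw [Int.cast_abs] at h5
          push_cast at h5
          exact h5
        have h6 := pv1_near d v (c * H) (k * D) θ hvr hk2 hθ
        have h9 : ((d : ℝ) + 1) * (c * H * ((d : ℝ) ^ 2 * 2 ^ d)) * |k * D - θ| ≤
            C0 * H * D := by
          have : ((d : ℝ) + 1) * (c * H * ((d : ℝ) ^ 2 * 2 ^ d)) = C0 * H := by rw [hC0]; ring
          rw [this]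
          exact mul_le_mul_of_nonneg_left hk3 (by positivity)
        have h10 : |pv d v 1 (k * D)| ≤ |pv d v 1 (k * D) - pv d v 1 θ| + |pv d v 1 θ| := by
          have := abs_add_le (pv d v 1 (k * D) - pv d v 1 θ) (pv d v 1 θ)
          rwa [sub_add_cancel] at this
        rw [hY]
        calc |pv d v 1 (k * D)| ≤ C0 * H * D + D * H := h10.trans (add_le_add (h6.trans h9) hp)
          _ = (1 + C0) * (D * H) := by ring
    have hfin : (⋃ k ∈ Icc (-(K : ℤ)) K,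
          {v | v ∈ Vc d (c * H) ∧ |pv d v 0 (k * D)| ≤ X ∧ |pv d v 1 (k * D)| ≤ Y}).Finite :=
      Set.Finite.biUnion (finite_toSet _) fun k _ =>
        (Vc_finite d (c * H)).subset fun v hv => hv.1
    have h2 := (Set.ncard_le_ncard hsub hfin).trans (Finset.set_ncard_biUnion_le _ _)
    have h3 : ∀ k ∈ Icc (-(K : ℤ)) K,
        (({v | v ∈ Vc d (c * H) ∧ |pv d v 0 (k * D)| ≤ X ∧
          |pv d v 1 (k * D)| ≤ Y}.ncard : ℕ) : ℝ) ≤
        (C1 * (D * H)) * (C1 * (D * H)) * ((2 * c + 1) * H) ^ (d - 1) := by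
      intro k _
      have h4 := (hG d (c * H) (k * D) X Y 0 hd hX0 hY0 le_rfl).1
      rw [Nat.card_coe_set_eq] at h4
      refine h4.trans ?_
      have h16 : 1 ≤ 16 * (D * H) := by linarith
      have hX1 : 2 * X + 1 ≤ C1 * (D * H) := by
        have : D ^ 2 * H ≤ D * H := by
          have : D ^ 2 ≤ D := by nlinarith
          exact mul_le_mul_of_nonneg_right this (by linarith)
        have h5 : X ≤ (1 + C0) * (D * H) := by
          rw [hX]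
          exact mul_le_mul_of_nonneg_left this (by linarith)
        rw [hC1]
        linarith
      have hY1 : 2 * Y + 1 ≤ C1 * (D * H) := by
        rw [hC1, hY]
        linarith
      exact mul_le_mul (mul_le_mul hX1 hY1 (by positivity) (by positivity))
        (pow_le_pow_left₀ (by positivity) hbox _) (by positivity) (by positivity)
    have h5 : (({v | v ∈ Vc d (c * H) ∧ ∃ θ : ℝ, |θ| ≤ 2 ∧ pv d v 0 θ = 0 ∧
        |pv d v 1 θ| ≤ D * H}.ncard : ℕ) : ℝ) ≤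
        ∑ k ∈ Icc (-(K : ℤ)) K, (({v | v ∈ Vc d (c * H) ∧ |pv d v 0 (k * D)| ≤ X ∧
          |pv d v 1 (k * D)| ≤ Y}.ncard : ℕ) : ℝ) := by
      exact_mod_cast h2
    refine (h5.trans (sum_le_sum h3)).trans ?_
    rw [sum_const, nsmul_eq_mul, Int.card_Icc]
    have hKc : (((K : ℤ) + 1 - -(K : ℤ)).toNat : ℝ) ≤ 5 / D := by
      have h6 : ((K : ℤ) + 1 - -(K : ℤ)).toNat = 2 * K + 1 := by omega
      rw [h6]
      have h7 : (K : ℝ) ≤ 2 / D := by
        rw [hK]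
        exact Nat.floor_le (by positivity)
      have h8 : (1 : ℝ) ≤ 1 / D := by
        rw [le_div_iff₀ hD]
        linarith
      push_cast
      calc 2 * (K : ℝ) + 1 ≤ 2 * (2 / D) + 1 / D := by linarith
        _ = 5 / D := by ring
    calc (((K : ℤ) + 1 - -(K : ℤ)).toNat : ℝ) *
          ((C1 * (D * H)) * (C1 * (D * H)) * ((2 * c + 1) * H) ^ (d - 1))
        ≤ 5 / D * ((C1 * (D * H)) * (C1 * (D * H)) * ((2 * c + 1) * H) ^ (d - 1)) :=
          mul_le_mul_of_nonneg_right hKc (by positivity)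
      _ = 5 * C1 ^ 2 * (2 * (c : ℝ) + 1) ^ (d - 1) * D * ((H : ℝ) ^ 2 * (H : ℝ) ^ (d - 1)) := by
          rw [mul_pow]
          field_simp
      _ = 5 * C1 ^ 2 * (2 * (c : ℝ) + 1) ^ (d - 1) * D * (H : ℝ) ^ (d + 1) := by
          rw [← pow_add]
          congr 2
          omega
      _ ≤ 5 * C1 ^ 2 * (2 * (c : ℝ) + 1) ^ (d + 1) * D * (H : ℝ) ^ (d + 1) := by
          refine mul_le_mul_of_nonneg_right (mul_le_mul_of_nonneg_right
            (mul_le_mul_of_nonneg_left (pow_le_pow_right₀ hc1 (by omega)) (by positivity)) hD.le)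
            (by positivity)

end Pool.Agent.Q65.UG

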