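import Pool.Agent.Q61.MH.Stm

set_option autoImplicit false

/-! Project MH (helper61), JOB SUM23. -/

open Real

namespace Q65.MH

open Pool.Agent.Q61.MH

theorem tele (r : ℝ) (k : ℕ) :
    ∑ i ∈ Finset.range k, (((i : ℝ) + 1 + 1 / 2) ^ (r + 1) - ((i : ℝ) + 1 - 1 / 2) ^ (r + 1)) =
      ((k : ℝ) + 1 / 2) ^ (r + 1) - (1 / 2) ^ (r + 1) := by
  have h := Finset.sum_range_sub (fun i : ℕ => ((i : ℝ) + 1 / 2) ^ (r + 1)) k
  simp only [Nat.cast_zero, zero_add] at h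
  rw [← h]
  refine Finset.sum_congr rfl fun i _ => ?_
  have e1 : ((i : ℝ) + 1 - 1 / 2) = (i : ℝ) + 1 / 2 := by ring
  rw [e1]
  push_cast
  rfl

theorem jens {p : ℝ} (hp0 : 0 ≤ p) (hp1 : p ≤ 1) {k : ℕ} (hk : 1 ≤ k) :
    ∑ i ∈ Finset.range k, ((i : ℝ) + 1) ^ p ≤ k * (((k : ℝ) + 1) / 2) ^ p := by
  have hk0 : (0 : ℝ) < k := by exact_mod_cast hk
  have hc := Real.concaveOn_rpow hp0 hp1
  have h1 := hc.le_map_sum (t := Finset.range k) (w := fun _ => 1 / (k : ℝ))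
    (p := fun i : ℕ => (i : ℝ) + 1) (fun i _ => by positivity)
    (by rw [Finset.sum_const, Finset.card_range, nsmul_eq_mul]; field_simp)
    (fun i _ => by simp only [Set.mem_Ici]; positivity)
  simp only [smul_eq_mul] at h1
  rw [← Finset.mul_sum, ← Finset.mul_sum] at h1
  have h2 : ∑ i ∈ Finset.range k, ((i : ℝ) + 1) = k * (((k : ℝ) + 1) / 2) := by
    clear h1 hk hk0
    induction k with
    | zero => simp
    | succ n ih => rw [Finset.sum_range_succ, ih]; push_cast; ring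
  rw [h2] at h1
  have h3 : 1 / (k : ℝ) * (k * (((k : ℝ) + 1) / 2)) = ((k : ℝ) + 1) / 2 := by field_simp
  rw [h3] at h1
  calc ∑ i ∈ Finset.range k, ((i : ℝ) + 1) ^ p
      = k * (1 / (k : ℝ) * ∑ i ∈ Finset.range k, ((i : ℝ) + 1) ^ p) := by field_simp
    _ ≤ _ := by gcongr

theorem kk {p : ℝ} (hp0 : 0 ≤ p) (hp1 : p ≤ 1) {x : ℝ} (hx : 0 < x) :
    x * (x + 1) ^ p ≤ (x + 1 / 2) ^ (p + 1) := by
  have hN : 0 < x + 1 / 2 := by linarith
  have e1 : x * (x + 1) ^ p = x ^ (1 - p) * (x * (x + 1)) ^ p := by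
    rw [Real.mul_rpow hx.le (by linarith), ← mul_assoc, ← Real.rpow_add hx]
    have : 1 - p + p = 1 := by ring
    rw [this, Real.rpow_one]
  have e2 : (x + 1 / 2) ^ (p + 1) = (x + 1 / 2) ^ (1 - p) * ((x + 1 / 2) ^ 2) ^ p := by
    rw [← Real.rpow_natCast (x + 1 / 2) 2, ← Real.rpow_mul hN.le, ← Real.rpow_add hN]
    congr 1
    push_cast
    ring
  rw [e1, e2]
  refine mul_le_mul (Real.rpow_le_rpow hx.le (by linarith) (by linarith)) ?_ (by positivity) (by positivity)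
  exact Real.rpow_le_rpow (by positivity) (by nlinarith) hp0

theorem sum23 (h : S_loc2) : S_sum23 := by
  intro r k hr2 hr3 hk
  have hk0 : (0 : ℝ) < k := by exact_mod_cast hk
  have hr1 : 0 < r + 1 := by linarith
  have h1 : ∑ i ∈ Finset.range k, ((((i : ℝ) + 1 + 1 / 2) ^ (r + 1) - ((i : ℝ) + 1 - 1 / 2) ^ (r + 1)) / (r + 1) -
      r * (r - 1) / 24 * ((i : ℝ) + 1) ^ (r - 2)) ≤ S k r := by
    unfold S
    refine Finset.sum_le_sum fun i _ => h r ((i : ℝ) + 1) hr2 hr3 ?_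
    have : (0 : ℝ) ≤ i := Nat.cast_nonneg i
    linarith
  rw [Finset.sum_sub_distrib, ← Finset.sum_div, tele, ← Finset.mul_sum] at h1
  have h2 : ∑ i ∈ Finset.range k, ((i : ℝ) + 1) ^ (r - 2) ≤ ((k : ℝ) + 1 / 2) ^ (r - 1) / 2 ^ (r - 2) := by
    refine (jens (p := r - 2) (by linarith) (by linarith) hk).trans ?_
    rw [Real.div_rpow (by positivity) (by norm_num), ← mul_div_assoc]
    refine div_le_div_of_nonneg_right ?_ (by positivity)
    have h3 := kk (p := r - 2) (by linarith) (by linarith) hk0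
    have e : r - 2 + 1 = r - 1 := by ring
    rwa [e] at h3
  have h4 : 0 ≤ r * (r - 1) / 24 := by
    have : 0 ≤ r - 1 := by linarith
    positivity
  have h5 := mul_le_mul_of_nonneg_left h2 h4
  linarith

end Q65.MH
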