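import Pool.Agent.Q82.BB.Stm

set_option autoImplicit false

open MeasureTheory Filter Topology Set

namespace Pool.Agent.Q82.BB

private theorem gd_sq {a ξ : ℝ} (ha : 0 < a) :
    (1 + |ξ|) ^ 2 ≤ (1 + 64 / a) ^ 2 * Real.exp (a * |ξ| / 32) := by
  have h1 : 1 + |ξ| ≤ (1 + 64 / a) * Real.exp (a * |ξ| / 64) := by
    have h2 : 1 + a * |ξ| / 64 ≤ Real.exp (a * |ξ| / 64) := by
      linarith [Real.add_one_le_exp (a * |ξ| / 64)]
    calc 1 + |ξ| ≤ (1 + 64 / a) * (1 + a * |ξ| / 64) := by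
          have h3 : 64 / a * (a * |ξ| / 64) = |ξ| := by field_simp
          have h4 : (1 + 64 / a) * (1 + a * |ξ| / 64) = 1 + 64 / a + a * |ξ| / 64 + 64 / a * (a * |ξ| / 64) := by
            ring
          rw [h4, h3]
          have : 0 ≤ 64 / a := by positivity
          have : 0 ≤ a * |ξ| / 64 := by positivity
          linarith
      _ ≤ _ := by gcongr
  calc (1 + |ξ|) ^ 2 ≤ ((1 + 64 / a) * Real.exp (a * |ξ| / 64)) ^ 2 := by gcongr
    _ = (1 + 64 / a) ^ 2 * Real.exp (a * |ξ| / 32) := by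
        rw [mul_pow, ← Real.exp_nat_mul]
        congr 2
        push_cast
        ring

theorem gd : S_GD := by
  constructor
  · intro T p w Cs hT hA
    refine ⟨?_, ?_⟩
    · have h := hA.2.1 0
      simp only [iteratedDeriv_zero] at h
      exact h.mono (prod_mono subset_rfl Ioo_subset_Icc_self)
    · intro a b ha hb
      refine ⟨a / 16, Cs 0, by positivity, fun ξ τ hτ => ?_⟩
      have h := hA.2.2.2 0 ξ τ ⟨ha.le.trans hτ.1, hτ.2.trans hb.le⟩
      simp only [iteratedDeriv_zero] at h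
      refine h.trans (mul_le_mul_of_nonneg_left ?_ (hA.2.2.1 0))
      unfold ex
      refine (div_le_self (Real.exp_pos _).le (one_le_pow₀ (by linarith [abs_nonneg ξ]))).trans ?_
      apply Real.exp_le_exp.mpr
      have := mul_le_mul_of_nonneg_right hτ.1 (abs_nonneg ξ)
      linarith
  · intro T p w C hT hc hb'
    refine ⟨hc.mono (prod_mono subset_rfl Ioo_subset_Icc_self), ?_⟩
    intro a b ha hb
    refine ⟨a / 32, |C| * (1 + 64 / a) ^ 2, by positivity, fun ξ τ hτ => ?_⟩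
    have h := hb' ξ τ ⟨ha.le.trans hτ.1, hτ.2.trans hb.le⟩
    refine h.trans ?_
    have h1 : ex ξ τ / (1 + |ξ|) ^ (p + 1) ≤ Real.exp (-(a * |ξ| / 16)) := by
      unfold ex
      refine (div_le_self (Real.exp_pos _).le (one_le_pow₀ (by linarith [abs_nonneg ξ]))).trans ?_
      apply Real.exp_le_exp.mpr
      have := mul_le_mul_of_nonneg_right hτ.1 (abs_nonneg ξ)
      linarith
    have h0 : 0 ≤ ex ξ τ / (1 + |ξ|) ^ (p + 1) := by unfold ex; positivity
    calc C * (1 + |ξ|) ^ 2 * (ex ξ τ / (1 + |ξ|) ^ (p + 1))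
        ≤ |C| * (1 + |ξ|) ^ 2 * (ex ξ τ / (1 + |ξ|) ^ (p + 1)) := by gcongr; exact le_abs_self C
      _ ≤ |C| * ((1 + 64 / a) ^ 2 * Real.exp (a * |ξ| / 32)) * Real.exp (-(a * |ξ| / 16)) := by
          gcongr
          exact gd_sq ha
      _ = |C| * (1 + 64 / a) ^ 2 * (Real.exp (a * |ξ| / 32) * Real.exp (-(a * |ξ| / 16))) := by ring
      _ = |C| * (1 + 64 / a) ^ 2 * Real.exp (-(a / 32 * |ξ|)) := by
          rw [← Real.exp_add]
          congr 2
          ring

end Pool.Agent.Q82.BB
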