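import Pool.Agent.Q82.BB.Stm

set_option autoImplicit false

open MeasureTheory Filter Topology Set

namespace Pool.Agent.Q82.BB

private theorem lb_exp (x ξ : ℝ) : ‖Complex.exp (Complex.I * x * ξ)‖ = 1 := by
  have : Complex.I * x * ξ = ((x * ξ : ℝ) : ℂ) * Complex.I := by push_cast; ring
  rw [this, Complex.norm_exp_ofReal_mul_I]

theorem lb (h1 : S_WJ) : S_LB := by
  intro T p W hT hTow h0 h1' i j hij
  obtain ⟨C, hC⟩ := h1 T p W hT hTow h0 h1' j (by omega)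
  have hint : Integrable (fun ξ : ℝ => |C| * (1 + ‖ξ‖) ^ (-(2 : ℝ))) :=
    (integrable_one_add_norm (by simp)).const_mul |C|
  refine ⟨∫ ξ : ℝ, |C| * (1 + ‖ξ‖) ^ (-(2 : ℝ)), fun x τ hτ => ?_⟩
  unfold UU
  refine (Complex.abs_re_le_norm _).trans ?_
  refine norm_integral_le_of_norm_le hint (Eventually.of_forall fun ξ => ?_)
  have hW := hC ξ τ hτ
  rw [norm_mul, norm_mul, norm_pow, norm_mul, Complex.norm_I, one_mul, Complex.norm_real, lb_exp, mul_one,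
    Real.norm_eq_abs]
  have hpos : (0 : ℝ) < 1 + |ξ| := by positivity
  have hge : (1 : ℝ) ≤ 1 + |ξ| := by linarith [abs_nonneg ξ]
  have e2 : (1 + |ξ|) ^ (-(2 : ℝ)) = ((1 + |ξ|) ^ 2)⁻¹ := by
    rw [Real.rpow_neg hpos.le]
    norm_num
  rw [e2, ← div_eq_mul_inv, le_div_iff₀ (by positivity)]
  have hP : (0 : ℝ) < (1 + |ξ|) ^ (2 * j) := by positivity
  refine le_of_mul_le_mul_right ?_ hP
  calc |ξ| ^ i * ‖W j ξ τ‖ * (1 + |ξ|) ^ 2 * (1 + |ξ|) ^ (2 * j)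
      ≤ (1 + |ξ|) ^ i * ‖W j ξ τ‖ * (1 + |ξ|) ^ 2 * (1 + |ξ|) ^ (2 * j) := by
        gcongr
        linarith
    _ = ‖W j ξ τ‖ * (1 + |ξ|) ^ (i + 2 + 2 * j) := by rw [pow_add, pow_add]; ring
    _ ≤ ‖W j ξ τ‖ * (1 + |ξ|) ^ (p + 1) := by
        exact mul_le_mul_of_nonneg_left (pow_le_pow_right₀ hge (by omega)) (norm_nonneg _)
    _ ≤ C * (1 + |ξ|) ^ (2 * j) := hW
    _ ≤ |C| * (1 + |ξ|) ^ (2 * j) := by gcongr; exact le_abs_self C

end Pool.Agent.Q82.BB
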