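import Mathlib
import Pool.Agent.Q82.BC.Stm

set_option autoImplicit false

open MeasureTheory Filter Topology Set
open scoped FourierTransform ContDiff

namespace Pool.Agent.Q82.BC

private theorem dec2_exp {c : ℝ} (hc : 0 < c) (m : ℕ) : ∃ D : ℝ, 0 ≤ D ∧ ∀ ξ : ℝ,
    (1 + |ξ|) ^ m * Real.exp (-(c * |ξ|)) ≤ D := by
  set c' := c / (m + 1) with hc'
  have h0 : 0 < c' := by positivity
  refine ⟨(1 + 1 / c') ^ m, by positivity, fun ξ => ?_⟩
  have h1 : 1 + |ξ| ≤ (1 + 1 / c') * Real.exp (c' * |ξ|) := by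
    have h2 : 1 + c' * |ξ| ≤ Real.exp (c' * |ξ|) := by linarith [Real.add_one_le_exp (c' * |ξ|)]
    calc 1 + |ξ| ≤ (1 + 1 / c') * (1 + c' * |ξ|) := by
          have h3 : 1 / c' * (c' * |ξ|) = |ξ| := by field_simp
          have h4 : (1 + 1 / c') * (1 + c' * |ξ|) = 1 + 1 / c' + c' * |ξ| + 1 / c' * (c' * |ξ|) := by ring
          rw [h4, h3]
          have : 0 ≤ 1 / c' := by positivity
          have : 0 ≤ c' * |ξ| := by positivity
          linarith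
      _ ≤ _ := by gcongr
  calc (1 + |ξ|) ^ m * Real.exp (-(c * |ξ|))
      ≤ ((1 + 1 / c') * Real.exp (c' * |ξ|)) ^ m * Real.exp (-(c * |ξ|)) := by gcongr
    _ = (1 + 1 / c') ^ m * Real.exp (m * (c' * |ξ|) + -(c * |ξ|)) := by
        rw [mul_pow, ← Real.exp_nat_mul, Real.exp_add]; ring
    _ ≤ (1 + 1 / c') ^ m * 1 := by
        gcongr
        rw [Real.exp_le_one_iff]
        have h5 : (m : ℝ) * c' ≤ c := by
          rw [hc', mul_div_assoc', div_le_iff₀ (by positivity)]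
          nlinarith
        have := mul_le_mul_of_nonneg_right h5 (abs_nonneg ξ)
        linarith
    _ = _ := mul_one _

private theorem dec2_key (T : ℝ) (w : ℝ → ℝ → ℂ) (Cs : ℕ → ℝ) (hA : Adm2 T w Cs) (a : ℝ) (ha : 0 < a)
    (i n : ℕ) : ∃ D : ℝ, 0 ≤ D ∧ ∀ τ ∈ Icc a T, ∀ ξ : ℝ,
      ‖iteratedDeriv n (fun ξ : ℝ => (Complex.I * ξ) ^ i * w ξ τ) ξ‖ ≤ D * (1 + ‖ξ‖) ^ (-(2 : ℝ)) := by
  obtain ⟨hs, -, hC0, hb⟩ := hA
  have hp : Function.HasTemperateGrowth (fun ξ : ℝ => (Complex.I * (ξ : ℂ)) ^ i) := by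
    have h1 : Function.HasTemperateGrowth (fun ξ : ℝ => (ξ : ℂ)) :=
      Function.Complex.hasTemperateGrowth_ofReal
    exact ((Function.HasTemperateGrowth.const Complex.I).mul h1).pow i
  have hp1 := hp.2
  choose k C hk using hp1
  choose D hD0 hD using fun j => dec2_exp (c := Real.sqrt a / 16) (by positivity) (k j + 3)
  refine ⟨∑ j ∈ Finset.range (n + 1), (n.choose j : ℝ) * |C j| * Cs (n - j) * D j,
    Finset.sum_nonneg fun j _ => by have := hC0 (n - j); have := hD0 j; positivity, ?_⟩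
  intro τ hτ ξ
  have hτ' : τ ∈ Ioc 0 T := ⟨ha.trans_le hτ.1, hτ.2⟩
  rw [← norm_iteratedFDeriv_eq_norm_iteratedDeriv]
  have hpc : ContDiff ℝ n (fun ξ : ℝ => (Complex.I * (ξ : ℂ)) ^ i) := hp.1.of_le (by exact_mod_cast le_top)
  refine (norm_iteratedFDeriv_mul_le (N := (n : ℕ∞ω)) hpc (hs τ hτ' n) ξ le_rfl).trans ?_
  rw [Finset.sum_mul]
  refine Finset.sum_le_sum fun j _ => ?_
  have b1 : ‖iteratedFDeriv ℝ j (fun ξ : ℝ => (Complex.I * (ξ : ℂ)) ^ i) ξ‖ ≤ |C j| * (1 + |ξ|) ^ (k j) := by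
    refine (hk j ξ).trans ?_
    rw [Real.norm_eq_abs]
    gcongr
    exact le_abs_self _
  have b2 : ‖iteratedFDeriv ℝ (n - j) (fun ξ => w ξ τ) ξ‖ ≤
      Cs (n - j) * ((1 + |ξ|) * Real.exp (-(Real.sqrt a / 16 * |ξ|))) := by
    rw [norm_iteratedFDeriv_eq_norm_iteratedDeriv]
    refine (hb (n - j) ξ τ hτ').trans ?_
    have := hC0 (n - j)
    unfold er
    gcongr
    have h1 : Real.sqrt a ≤ Real.sqrt τ := Real.sqrt_le_sqrt hτ.1
    have := mul_le_mul_of_nonneg_right h1 (abs_nonneg ξ)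
    linarith
  have hpos : (0 : ℝ) < 1 + |ξ| := by positivity
  have e2 : (1 + ‖ξ‖) ^ (-(2 : ℝ)) = ((1 + |ξ|) ^ 2)⁻¹ := by
    rw [Real.norm_eq_abs, Real.rpow_neg hpos.le]
    norm_num
  have b3 : (1 + |ξ|) ^ (k j) * ((1 + |ξ|) * Real.exp (-(Real.sqrt a / 16 * |ξ|))) ≤
      D j * ((1 + |ξ|) ^ 2)⁻¹ := by
    rw [← div_eq_mul_inv, le_div_iff₀ (by positivity)]
    refine le_trans (le_of_eq ?_) (hD j ξ)
    ring
  have hCn := hC0 (n - j)
  calc (n.choose j : ℝ) * ‖iteratedFDeriv ℝ j (fun ξ : ℝ => (Complex.I * (ξ : ℂ)) ^ i) ξ‖ *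
        ‖iteratedFDeriv ℝ (n - j) (fun ξ => w ξ τ) ξ‖
      ≤ (n.choose j : ℝ) * (|C j| * (1 + |ξ|) ^ (k j)) *
        (Cs (n - j) * ((1 + |ξ|) * Real.exp (-(Real.sqrt a / 16 * |ξ|)))) := by gcongr
    _ = (n.choose j : ℝ) * |C j| * Cs (n - j) *
        ((1 + |ξ|) ^ (k j) * ((1 + |ξ|) * Real.exp (-(Real.sqrt a / 16 * |ξ|)))) := by ring
    _ ≤ (n.choose j : ℝ) * |C j| * Cs (n - j) * (D j * ((1 + |ξ|) ^ 2)⁻¹) := by gcongr
    _ = _ := by rw [e2]; ring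

theorem dec2 : S_DEC2 := by
  intro T w Cs hT hA a ha i N
  obtain ⟨D0, hD0, h0⟩ := dec2_key T w Cs hA a ha i 0
  obtain ⟨D1, hD1, h1⟩ := dec2_key T w Cs hA a ha i N
  have hint : Integrable (fun ξ : ℝ => (1 + ‖ξ‖) ^ (-(2 : ℝ))) := integrable_one_add_norm (by simp)
  set J := ∫ ξ : ℝ, (1 + ‖ξ‖) ^ (-(2 : ℝ)) with hJ
  have hJ0 : 0 ≤ J := integral_nonneg fun ξ => by positivity
  refine ⟨2 ^ N * (D0 * J + D1 * J), fun x τ hτ => ?_⟩
  have hτ' : τ ∈ Ioc 0 T := ⟨ha.trans_le hτ.1, hτ.2⟩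
  set h : ℝ → ℂ := fun ξ : ℝ => (Complex.I * ξ) ^ i * w ξ τ with hh
  have hp : Function.HasTemperateGrowth (fun ξ : ℝ => (Complex.I * (ξ : ℂ)) ^ i) := by
    have h1 : Function.HasTemperateGrowth (fun ξ : ℝ => (ξ : ℂ)) :=
      Function.Complex.hasTemperateGrowth_ofReal
    exact ((Function.HasTemperateGrowth.const Complex.I).mul h1).pow i
  have hc : ∀ n : ℕ, ContDiff ℝ n h := fun n =>
    (hp.1.of_le (by exact_mod_cast le_top)).mul (hA.1 τ hτ' n)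
  have hInt : ∀ n : ℕ, Integrable (iteratedDeriv n h) := by
    intro n
    obtain ⟨D, hD, h2⟩ := dec2_key T w Cs hA a ha i n
    exact (hint.const_mul D).mono' ((hc n).continuous_iteratedDeriv n le_rfl).aestronglyMeasurable
      (Eventually.of_forall fun ξ => h2 τ hτ ξ)
  have hnorm : ∀ n : ℕ, ∀ D : ℝ, (∀ τ ∈ Icc a T, ∀ ξ : ℝ,
      ‖iteratedDeriv n (fun ξ : ℝ => (Complex.I * ξ) ^ i * w ξ τ) ξ‖ ≤ D * (1 + ‖ξ‖) ^ (-(2 : ℝ))) →
      ∫ ξ, ‖iteratedDeriv n h ξ‖ ≤ D * J := by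
    intro n D hD
    rw [hJ, ← integral_const_mul]
    exact integral_mono (hInt n).norm (hint.const_mul D) fun ξ => hD τ hτ ξ
  set y : ℝ := -x / (2 * Real.pi) with hy
  have hF : ∫ ξ : ℝ, (Complex.I * ξ) ^ i * w ξ τ * Complex.exp (Complex.I * x * ξ) = 𝓕 h y := by
    rw [Real.fourier_real_eq_integral_exp_smul]
    refine integral_congr_ae (Eventually.of_forall fun ξ => ?_)
    simp only [smul_eq_mul]
    rw [mul_comm]
    congr 2
    rw [hy]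
    have : (Real.pi : ℂ) ≠ 0 := by exact_mod_cast Real.pi_ne_zero
    push_cast
    field_simp
  rw [hF]
  have hbound : ∀ n : ℕ, |x| ^ n * ‖𝓕 h y‖ ≤ ∫ ξ, ‖iteratedDeriv n h ξ‖ := by
    intro n
    have h3 := Real.fourier_iteratedDeriv (f := h) (N := (n : ℕ∞)) (n := n) (by exact_mod_cast hc n)
      (fun m _ => hInt m) le_rfl
    have h4 := congrFun h3 y
    have h5 : ‖𝓕 (iteratedDeriv n h) y‖ ≤ ∫ ξ, ‖iteratedDeriv n h ξ‖ :=
      VectorFourier.norm_fourierIntegral_le_integral_norm _ _ _ _ _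
    rw [h4, norm_smul] at h5
    refine le_trans (le_of_eq ?_) h5
    congr 1
    rw [norm_pow]
    congr 1
    have : (2 * (Real.pi : ℂ) * Complex.I * (y : ℂ)) = ((-x : ℝ) : ℂ) * Complex.I := by
      rw [hy]
      have : (Real.pi : ℂ) ≠ 0 := by exact_mod_cast Real.pi_ne_zero
      push_cast
      field_simp
    rw [this, norm_mul, Complex.norm_I, mul_one, Complex.norm_real, norm_neg, Real.norm_eq_abs]
  have hb0 := hbound 0
  have hb1 := hbound N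
  rw [pow_zero, one_mul] at hb0
  have hx : (1 + |x|) ^ N ≤ 2 ^ N * (1 + |x| ^ N) := by
    rcases le_total |x| 1 with hx1 | hx1
    · calc (1 + |x|) ^ N ≤ 2 ^ N := by gcongr; linarith
        _ ≤ 2 ^ N * (1 + |x| ^ N) := by
            have : (0 : ℝ) ≤ |x| ^ N := by positivity
            nlinarith [pow_pos (show (0 : ℝ) < 2 by norm_num) N]
    · calc (1 + |x|) ^ N ≤ (2 * |x|) ^ N := by gcongr; linarith
        _ = 2 ^ N * |x| ^ N := mul_pow _ _ _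
        _ ≤ 2 ^ N * (1 + |x| ^ N) := by gcongr; linarith
  calc (1 + |x|) ^ N * |(𝓕 h y).re| ≤ 2 ^ N * (1 + |x| ^ N) * ‖𝓕 h y‖ := by
        gcongr
        exact Complex.abs_re_le_norm _
    _ = 2 ^ N * (‖𝓕 h y‖ + |x| ^ N * ‖𝓕 h y‖) := by ring
    _ ≤ 2 ^ N * (D0 * J + D1 * J) := by
        exact mul_le_mul_of_nonneg_left
          (add_le_add (hb0.trans (hnorm 0 D0 h0)) (hb1.trans (hnorm N D1 h1))) (by positivity)

end Pool.Agent.Q82.BC
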