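import Pool.Agent.Q127.DJ.Stm

/-!
# LTW: Cauchy-Schwarz for the density
-/

set_option autoImplicit false

namespace Pool.Agent.Q65.DJ_LTW

open MeasureTheory Filter Topology Pool.Agent.Q127.DJ

/-- a bounded measurable function is integrable -/
lemma integrable_of_bdd {X : Type} [MeasurableSpace X] (P : Measure X) [IsProbabilityMeasure P]
    {F : X → ℝ} {C : ℝ} (hF : Measurable F) (hb : ∀ x, |F x| ≤ C) : Integrable F P :=
  Integrable.of_bound hF.aestronglyMeasurable C (Eventually.of_forall fun x => by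
    rw [Real.norm_eq_abs]; exact hb x)

/-- **LTW.** -/
theorem ltw (_h1 : S_ce1) (h2 : S_inn) (h3 : S_mar) : S_ltw := by
  intro μ ν _ _ m k f h a b ε C C' T U u v hε0 hε1 hu hv
  obtain ⟨hum, hub⟩ := hu
  obtain ⟨hvm, hvb⟩ := hv
  have hG : ∀ t, BM 1 (g μ f a t) := fun t => (h2 μ m f a t).2.1
  have hH : ∀ t, BM 1 (g ν h b t) := fun t => (h2 ν k h b t).2.1
  have hfac : ∀ t x y, |ε * g μ f a t x * g ν h b t y| ≤ 1 := by
    intro t x y
    rw [abs_mul, abs_mul, abs_of_nonneg hε0]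
    have e1 := (hG t).2 x
    have e2 := (hH t).2 y
    have e3 := abs_nonneg (g μ f a t x)
    have e4 := abs_nonneg (g ν h b t y)
    have e5 : ε * |g μ f a t x| ≤ 1 := by nlinarith
    have e6 : 0 ≤ ε * |g μ f a t x| := mul_nonneg hε0 e3
    nlinarith
  have hDm : Measurable (fun p : (ℕ → ℕ) × (ℕ → ℕ) => D μ ν f h a b ε T U p.1 p.2) := by
    unfold D
    refine Finset.measurable_prod _ fun t _ => ?_
    exact measurable_const.add (((measurable_const.mul ((hG t).1.comp measurable_fst))).mul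
      ((hH t).1.comp measurable_snd))
  have hD0 : ∀ x y, 0 ≤ D μ ν f h a b ε T U x y := by
    intro x y
    refine Finset.prod_nonneg fun t _ => ?_
    have := (abs_le.1 (hfac t x y)).1
    linarith
  have hDb : ∀ x y, |D μ ν f h a b ε T U x y| ≤ 2 ^ (Finset.Ico T U).card := by
    intro x y
    rw [abs_of_nonneg (hD0 x y)]
    unfold D
    rw [← Finset.prod_const]
    refine Finset.prod_le_prod (fun t _ => ?_) fun t _ => ?_
    · have := (abs_le.1 (hfac t x y)).1
      linarith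
    · have := (abs_le.1 (hfac t x y)).2
      linarith
  have hm1 : ∀ x, ∫ y, D μ ν f h a b ε T U x y ∂ν = 1 := by
    intro x
    refine h3 ν k h b (fun t => ε * g μ f a t x) T U fun t => ?_
    rw [abs_mul, abs_of_nonneg hε0]
    have e1 := (hG t).2 x
    have e3 := abs_nonneg (g μ f a t x)
    nlinarith
  have hm2 : ∀ y, ∫ x, D μ ν f h a b ε T U x y ∂μ = 1 := by
    intro y
    rw [← h3 μ m f a (fun t => ε * g ν h b t y) T U fun t => by
      rw [abs_mul, abs_of_nonneg hε0]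
      have e1 := (hH t).2 y
      have e3 := abs_nonneg (g ν h b t y)
      nlinarith]
    refine integral_congr_ae (Eventually.of_forall fun x => ?_)
    change D μ ν f h a b ε T U x y = _
    unfold D
    refine Finset.prod_congr rfl fun t _ => ?_
    ring
  set M : ℝ := 2 ^ (Finset.Ico T U).card with hM
  have hM0 : 0 ≤ M := by positivity
  have hC0 : 0 ≤ C := (abs_nonneg _).trans (hub fun _ => 0)
  have hC'0 : 0 ≤ C' := (abs_nonneg _).trans (hvb fun _ => 0)
  -- the three integrable functions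
  have i1 : Integrable (fun p : (ℕ → ℕ) × (ℕ → ℕ) => (u p.1) ^ 2 * D μ ν f h a b ε T U p.1 p.2)
      (μ.prod ν) := by
    refine integrable_of_bdd _ (C := C ^ 2 * M) (((hum.comp measurable_fst).pow_const 2).mul hDm)
      fun p => ?_
    rw [abs_mul, abs_pow]
    have := hub p.1
    have := hDb p.1 p.2
    gcongr
  have i2 : Integrable (fun p : (ℕ → ℕ) × (ℕ → ℕ) => u p.1 * v p.2 * D μ ν f h a b ε T U p.1 p.2)
      (μ.prod ν) := by
    refine integrable_of_bdd _ (C := C * C' * M)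
      (((hum.comp measurable_fst).mul (hvm.comp measurable_snd)).mul hDm) fun p => ?_
    rw [abs_mul, abs_mul]
    have := hub p.1
    have := hvb p.2
    have := hDb p.1 p.2
    gcongr
  have i3 : Integrable (fun p : (ℕ → ℕ) × (ℕ → ℕ) => (v p.2) ^ 2 * D μ ν f h a b ε T U p.1 p.2)
      (μ.prod ν) := by
    refine integrable_of_bdd _ (C := C' ^ 2 * M) (((hvm.comp measurable_snd).pow_const 2).mul hDm)
      fun p => ?_
    rw [abs_mul, abs_pow]
    have := hvb p.2
    have := hDb p.1 p.2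
    gcongr
  have e1 : ∫ p, (u p.1) ^ 2 * D μ ν f h a b ε T U p.1 p.2 ∂(μ.prod ν) = ∫ x, (u x) ^ 2 ∂μ := by
    rw [integral_prod _ i1]
    refine integral_congr_ae (Eventually.of_forall fun x => ?_)
    change ∫ y, (u x) ^ 2 * D μ ν f h a b ε T U x y ∂ν = _
    rw [integral_const_mul, hm1, mul_one]
  have e2 : ∫ p, u p.1 * v p.2 * D μ ν f h a b ε T U p.1 p.2 ∂(μ.prod ν) =
      ∫ x, ∫ y, u x * v y * D μ ν f h a b ε T U x y ∂ν ∂μ := integral_prod _ i2
  have e3 : ∫ p, (v p.2) ^ 2 * D μ ν f h a b ε T U p.1 p.2 ∂(μ.prod ν) = ∫ y, (v y) ^ 2 ∂ν := by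
    rw [integral_prod_symm _ i3]
    refine integral_congr_ae (Eventually.of_forall fun y => ?_)
    change ∫ x, (v y) ^ 2 * D μ ν f h a b ε T U x y ∂μ = _
    rw [integral_const_mul, hm2, mul_one]
  set X : ℝ := ∫ x, ∫ y, u x * v y * D μ ν f h a b ε T U x y ∂ν ∂μ with hX
  have hq : ∀ s : ℝ, 0 ≤ (∫ x, (u x) ^ 2 ∂μ) * (s * s) + 2 * X * s + ∫ y, (v y) ^ 2 ∂ν := by
    intro s
    have h0 : 0 ≤ ∫ p, (s * u p.1 + v p.2) ^ 2 * D μ ν f h a b ε T U p.1 p.2 ∂(μ.prod ν) :=
      integral_nonneg fun p => mul_nonneg (sq_nonneg _) (hD0 _ _)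
    have h1 : (fun p : (ℕ → ℕ) × (ℕ → ℕ) => (s * u p.1 + v p.2) ^ 2 * D μ ν f h a b ε T U p.1 p.2) =
        fun p => s * s * ((u p.1) ^ 2 * D μ ν f h a b ε T U p.1 p.2) +
          2 * s * (u p.1 * v p.2 * D μ ν f h a b ε T U p.1 p.2) +
          (v p.2) ^ 2 * D μ ν f h a b ε T U p.1 p.2 := by
      funext p
      ring
    have i12 : Integrable (fun p : (ℕ → ℕ) × (ℕ → ℕ) =>
        s * s * ((u p.1) ^ 2 * D μ ν f h a b ε T U p.1 p.2) +
          2 * s * (u p.1 * v p.2 * D μ ν f h a b ε T U p.1 p.2)) (μ.prod ν) :=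
      (i1.const_mul _).add (i2.const_mul _)
    rw [h1, integral_add i12 i3,
      integral_add (i1.const_mul _) (i2.const_mul _), integral_const_mul, integral_const_mul,
      e1, e2, e3] at h0
    linarith
  have hd := discrim_le_zero hq
  unfold discrim at hd
  have hA : 0 ≤ ∫ x, (u x) ^ 2 ∂μ := integral_nonneg fun x => sq_nonneg _
  rw [← Real.sqrt_mul hA]
  apply Real.abs_le_sqrt
  linarith

end Pool.Agent.Q65.DJ_LTW
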