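import Mathlib

/-! # Two general tools: building sequences by local invariants; biorthogonal sequences with
dense span in separable infinite-dimensional normed spaces. -/

open Filter Topology

namespace Q65.SB

/-- Build a sequence term by term, keeping an invariant of the first `n` terms. -/
theorem exists_seq {α : Type*} [Nonempty α] (Inv : ℕ → (ℕ → α) → Prop)
    (hloc : ∀ n S S', (∀ k < n, S k = S' k) → Inv n S → Inv n S')
    (h0 : ∀ S, Inv 0 S)
    (hs : ∀ n S, Inv n S → ∃ a, Inv (n + 1) (Function.update S n a)) :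
    ∃ S, ∀ n, Inv n S := by
  classical
  have key : ∀ n S, ∃ a, Inv n S → Inv (n + 1) (Function.update S n a) := by
    intro n S
    by_cases h : Inv n S
    · obtain ⟨a, ha⟩ := hs n S h
      exact ⟨a, fun _ => ha⟩
    · exact ⟨Classical.arbitrary α, fun h' => absurd h' h⟩
  choose nxt hnxt using key
  let R : ℕ → (ℕ → α) := fun n =>
    Nat.rec (fun _ => Classical.arbitrary α) (fun n S => Function.update S n (nxt n S)) n
  have hR0 : R 0 = fun _ => Classical.arbitrary α := rfl
  have hRs : ∀ n, R (n + 1) = Function.update (R n) n (nxt n (R n)) := fun n => rfl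
  have hInv : ∀ n, Inv n (R n) := by
    intro n
    induction n with
    | zero => exact h0 _
    | succ n ih => rw [hRs]; exact hnxt n _ ih
  have hval : ∀ n k, k < n → R n k = R (k + 1) k := by
    intro n
    induction n with
    | zero => intro k hk; omega
    | succ n ih =>
      intro k hk
      rcases Nat.lt_succ_iff_lt_or_eq.mp hk with h | h
      · rw [hRs, Function.update_of_ne h.ne, ih k h]
      · subst h; rfl
  refine ⟨fun k => R (k + 1) k, fun n => hloc n (R n) _ (fun k hk => hval n k hk) (hInv n)⟩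

variable {𝕜 X : Type*} [RCLike 𝕜] [NormedAddCommGroup X] [NormedSpace 𝕜 X]

/-- One step of the biorthogonalisation. -/
theorem step (e : ℕ → X) (f : ℕ → X →L[𝕜] 𝕜) (n : ℕ)
    (hef : ∀ k < n, ∀ l < n, f k (e l) = if k = l then 1 else 0)
    (y : X) (hy : y ∉ Submodule.span 𝕜 (e '' {k | k < n})) :
    ∃ (z : X) (g : X →L[𝕜] 𝕜), ‖z‖ ≤ 1 ∧ g z = 1 ∧ (∀ k < n, f k z = 0) ∧ (∀ k < n, g (e k) = 0) ∧
      ∃ (c : 𝕜), y - c • z ∈ Submodule.span 𝕜 (e '' {k | k < n}) := by
  classical
  set P : X →L[𝕜] X := ∑ k ∈ Finset.range n, (f k).smulRight (e k) with hP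
  have hPx : ∀ x, P x = ∑ k ∈ Finset.range n, f k x • e k := by
    intro x
    simp [hP]
  have hPmem : ∀ x, P x ∈ Submodule.span 𝕜 (e '' {k | k < n}) := by
    intro x
    rw [hPx]
    refine Submodule.sum_mem _ fun k hk => Submodule.smul_mem _ _ (Submodule.subset_span ?_)
    exact ⟨k, Finset.mem_range.mp hk, rfl⟩
  have hPe : ∀ l < n, P (e l) = e l := by
    intro l hl
    rw [hPx, Finset.sum_eq_single l]
    · rw [hef l hl l hl]; simp
    · intro k hk hkl
      rw [hef k (Finset.mem_range.mp hk) l hl, if_neg hkl, zero_smul]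
    · intro h; exact absurd (Finset.mem_range.mpr hl) h
  have hfP : ∀ k < n, ∀ x, f k (P x) = f k x := by
    intro k hk x
    rw [hPx, map_sum, Finset.sum_eq_single k]
    · rw [map_smul, hef k hk k hk]; simp
    · intro l hl hlk
      rw [map_smul, hef k hk l (Finset.mem_range.mp hl), if_neg (Ne.symm hlk), smul_zero]
    · intro h; exact absurd (Finset.mem_range.mpr hk) h
  set z0 := y - P y with hz0
  have hz0ne : z0 ≠ 0 := by
    intro h
    apply hy
    have : y = P y := sub_eq_zero.mp h
    rw [this]; exact hPmem y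
  set z : X := ((‖z0‖⁻¹ : ℝ) : 𝕜) • z0 with hz
  have hn : ‖z0‖ ≠ 0 := norm_ne_zero_iff.mpr hz0ne
  have hzne : z ≠ 0 := by
    rw [hz]
    refine smul_ne_zero ?_ hz0ne
    exact_mod_cast inv_ne_zero hn
  obtain ⟨g0, hg0⟩ := SeparatingDual.exists_eq_one (R := 𝕜) hzne
  have hfz : ∀ k < n, f k z = 0 := by
    intro k hk
    rw [hz, map_smul, hz0, map_sub, hfP k hk, sub_self, smul_zero]
  have hPz : P z = 0 := by
    rw [hPx]
    exact Finset.sum_eq_zero fun k hk => by rw [hfz k (Finset.mem_range.mp hk), zero_smul]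
  refine ⟨z, g0.comp (ContinuousLinearMap.id 𝕜 X - P), ?_, ?_, hfz, ?_, ((‖z0‖ : ℝ) : 𝕜), ?_⟩
  · rw [hz, norm_smul]
    simp [hn]
  · simp [hPz, hg0]
  · intro k hk
    simp [hPe k hk]
  · have : ((‖z0‖ : ℝ) : 𝕜) • z = z0 := by
      rw [hz, smul_smul]
      have h2 : ((‖z0‖ : ℝ) : 𝕜) * ((‖z0‖⁻¹ : ℝ) : 𝕜) = 1 := by
        rw [← RCLike.ofReal_mul, mul_inv_cancel₀ hn, RCLike.ofReal_one]
      rw [h2, one_smul]
    rw [this, hz0]
    simpa using hPmem y

/-- Every separable infinite-dimensional normed space has a biorthogonal sequence with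
dense span. -/
theorem exists_biorth [TopologicalSpace.SeparableSpace X] (hinf : ¬ FiniteDimensional 𝕜 X) :
    ∃ (e : ℕ → X) (f : ℕ → X →L[𝕜] 𝕜), (∀ k l, f k (e l) = if k = l then 1 else 0) ∧
      (∀ k, ‖e k‖ ≤ 1) ∧ Dense (Submodule.span 𝕜 (Set.range e) : Set X) := by
  classical
  have hne : Nonempty X := ⟨0⟩
  set x : ℕ → X := TopologicalSpace.denseSeq X with hx
  let Inv : ℕ → (ℕ → X × (X →L[𝕜] 𝕜)) → Prop := fun n S =>
    (∀ k < n, ∀ l < n, (S k).2 (S l).1 = if k = l then 1 else 0) ∧ (∀ k < n, ‖(S k).1‖ ≤ 1) ∧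
    ∀ k < n, x k ∈ Submodule.span 𝕜 ((fun l => (S l).1) '' {l | l < n})
  have key : ∃ S, ∀ n, Inv n S := by
    apply exists_seq Inv
    · rintro n S S' hSS' ⟨h1, h2, h3⟩
      refine ⟨fun k hk l hl => ?_, fun k hk => ?_, fun k hk => ?_⟩
      · rw [← hSS' k hk, ← hSS' l hl]; exact h1 k hk l hl
      · rw [← hSS' k hk]; exact h2 k hk
      · have : (fun l => (S' l).1) '' {l | l < n} = (fun l => (S l).1) '' {l | l < n} := by
          apply Set.image_congr
          intro l hl
          exact (congrArg Prod.fst (hSS' l hl)).symm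
        rw [this]; exact h3 k hk
    · intro S
      exact ⟨fun k hk => by omega, fun k hk => by omega, fun k hk => by omega⟩
    · rintro n S ⟨h1, h2, h3⟩
      set sp := Submodule.span 𝕜 ((fun l => (S l).1) '' {l | l < n}) with hsp
      have hfin : FiniteDimensional 𝕜 sp := by
        apply FiniteDimensional.span_of_finite
        exact (Set.finite_lt_nat n).image _
      have hsp_ne : sp ≠ ⊤ := by
        intro h
        apply hinf
        rw [h] at hfin
        exact Module.finite_def.mpr ((Submodule.fg_iff_finiteDimensional _).mpr hfin)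
      obtain ⟨y, hy, hy2⟩ : ∃ y, y ∉ sp ∧ (x n ∉ sp → y = x n) := by
        by_cases hxn : x n ∈ sp
        · have : ∃ y, y ∉ sp := by
            by_contra hcon
            push Not at hcon
            exact hsp_ne (eq_top_iff.mpr fun y _ => hcon y)
          obtain ⟨y, hy⟩ := this
          exact ⟨y, hy, fun h => absurd hxn h⟩
        · exact ⟨x n, hxn, fun _ => rfl⟩
      obtain ⟨z, g, hz1, hgz, hfz, hge, c, hc⟩ := step (fun k => (S k).1) (fun k => (S k).2) n h1 y hy
      refine ⟨(z, g), ?_, ?_, ?_⟩
      · intro k hk l hl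
        rcases Nat.lt_succ_iff_lt_or_eq.mp hk with hk' | rfl <;>
        rcases Nat.lt_succ_iff_lt_or_eq.mp hl with hl' | rfl
        · rw [Function.update_of_ne hk'.ne, Function.update_of_ne hl'.ne]; exact h1 k hk' l hl'
        · rw [Function.update_of_ne hk'.ne, Function.update_self, if_neg hk'.ne]
          exact hfz k hk'
        · rw [Function.update_of_ne hl'.ne, Function.update_self, if_neg hl'.ne']
          exact hge l hl'
        · rw [Function.update_self, if_pos rfl]
          exact hgz
      · intro k hk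
        rcases Nat.lt_succ_iff_lt_or_eq.mp hk with hk' | rfl
        · rw [Function.update_of_ne hk'.ne]; exact h2 k hk'
        · rw [Function.update_self]; exact hz1
      · have hsub : sp ≤ Submodule.span 𝕜
            ((fun l => (Function.update S n (z, g) l).1) '' {l | l < n + 1}) := by
          apply Submodule.span_mono
          rintro _ ⟨l, hl, rfl⟩
          refine ⟨l, Nat.lt_succ_of_lt hl, ?_⟩
          simp only
          rw [Function.update_of_ne (ne_of_lt hl)]
        have hzmem : z ∈ Submodule.span 𝕜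
            ((fun l => (Function.update S n (z, g) l).1) '' {l | l < n + 1}) := by
          apply Submodule.subset_span
          refine ⟨n, Nat.lt_succ_self n, ?_⟩
          simp only [Function.update_self]
        intro k hk
        rcases Nat.lt_succ_iff_lt_or_eq.mp hk with hk' | rfl
        · exact hsub (h3 k hk')
        · by_cases hxn : x k ∈ sp
          · exact hsub hxn
          · have := hy2 hxn
            rw [← this]
            have h4 : y = (y - c • z) + c • z := by abel
            rw [h4]
            exact Submodule.add_mem _ (hsub hc) (Submodule.smul_mem _ _ hzmem)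
  obtain ⟨S, hS⟩ := key
  refine ⟨fun k => (S k).1, fun k => (S k).2, ?_, ?_, ?_⟩
  · intro k l
    exact (hS (max k l + 1)).1 k (by omega) l (by omega)
  · intro k
    exact (hS (k + 1)).2.1 k (by omega)
  · apply (TopologicalSpace.denseRange_denseSeq X).mono
    rintro _ ⟨k, rfl⟩
    have := (hS (k + 1)).2.2 k (by omega)
    refine Submodule.span_mono ?_ this
    rintro _ ⟨l, _, rfl⟩
    exact ⟨l, rfl⟩

end Q65.SB
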