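import Mathlib
import Pool.Agent.Q65.SeqBiorth

/-! # A hereditarily hypercyclic operator on a countable direct sum: the algebraic part. -/

open Filter Topology DirectSum

namespace Q65.DS

variable {𝕜 : Type*} [RCLike 𝕜] {E : ℕ → Type*} [∀ n, NormedAddCommGroup (E n)]
  [∀ n, NormedSpace 𝕜 (E n)]

/-- a seminorm on the direct sum which is bounded on every summand -/
def Good (q : Seminorm 𝕜 (⨁ i, E i)) : Prop :=
  ∀ i, ∃ C : ℝ, 0 ≤ C ∧ ∀ x : E i, q (lof 𝕜 ℕ E i x) ≤ C * ‖x‖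

/-- Continuous seminorms and infinite sums. -/
theorem seminorm_tsum_le {X : Type*} [NormedAddCommGroup X] [NormedSpace 𝕜 X]
    (r : Seminorm 𝕜 X) (C : ℝ) (hr : ∀ x, r x ≤ C * ‖x‖) (a : ℕ → X) (ha : Summable a)
    (b : ℕ → ℝ) (hb : Summable b) (hab : ∀ n, r (a n) ≤ b n) : r (∑' n, a n) ≤ ∑' n, b n := by
  have hcont : Continuous r := by
    apply Seminorm.continuous_of_continuousAt_zero
    rw [ContinuousAt, map_zero]
    have h1 : Tendsto (fun x : X => C * ‖x‖) (𝓝 0) (𝓝 0) := by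
      have : Continuous fun x : X => C * ‖x‖ := continuous_const.mul continuous_norm
      simpa using this.tendsto 0
    exact squeeze_zero (fun x => apply_nonneg r x) hr h1
  have h1 : Tendsto (fun n => r (∑ k ∈ Finset.range n, a k)) atTop (𝓝 (r (∑' n, a n))) :=
    (hcont.tendsto _).comp ha.hasSum.tendsto_sum_nat
  have hb0 : ∀ n, 0 ≤ b n := fun n => (apply_nonneg r _).trans (hab n)
  refine le_of_tendsto h1 (Eventually.of_forall fun n => ?_)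
  calc r (∑ k ∈ Finset.range n, a k) ≤ ∑ k ∈ Finset.range n, r (a k) := by
        induction n with
        | zero => simp
        | succ n ih =>
          rw [Finset.sum_range_succ, Finset.sum_range_succ]
          exact (map_add_le_add r _ _).trans (by linarith)
    _ ≤ ∑ k ∈ Finset.range n, b k := Finset.sum_le_sum fun k _ => hab k
    _ ≤ ∑' n, b n := hb.sum_le_tsum _ fun k _ => hb0 k

theorem good_iterate (T : (⨁ i, E i) →ₗ[𝕜] (⨁ i, E i))
    (hT : ∀ q : Seminorm 𝕜 (⨁ i, E i), Good q → Good (q.comp T)) (n : ℕ)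
    (q : Seminorm 𝕜 (⨁ i, E i)) (hq : Good q) : Good (q.comp (T ^ n)) := by
  induction n generalizing q with
  | zero =>
    intro i
    obtain ⟨C, hC, h⟩ := hq i
    exact ⟨C, hC, fun x => by simpa using h x⟩
  | succ n ih =>
    have h1 := hT _ (ih q hq)
    intro i
    obtain ⟨C, hC, h⟩ := h1 i
    refine ⟨C, hC, fun x => ?_⟩
    have := h x
    simpa [pow_succ] using this

/-- `y` can be reached from small vectors of `E 0` whose orbits stay small and in `E 0` for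
half of the time. -/
def Lift (T : (⨁ i, E i) →ₗ[𝕜] (⨁ i, E i)) (y : ⨁ i, E i) : Prop :=
  ∀ ε : ℝ, 0 < ε → ∃ N : ℕ, ∀ n ≥ N, ∃ u : E 0,
    (T ^ n) (lof 𝕜 ℕ E 0 u) = y ∧ (∃ M, ∀ m ≥ M, (T ^ m) (lof 𝕜 ℕ E 0 u) = 0) ∧
    ∀ m ≤ n / 2, ∃ v : E 0, (T ^ m) (lof 𝕜 ℕ E 0 u) = lof 𝕜 ℕ E 0 v ∧ ‖v‖ ≤ ε

theorem Lift.add {T : (⨁ i, E i) →ₗ[𝕜] (⨁ i, E i)} {y y' : ⨁ i, E i} (h : Lift T y)
    (h' : Lift T y') : Lift T (y + y') := by
  intro ε hε
  obtain ⟨N, hN⟩ := h (ε / 2) (by positivity)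
  obtain ⟨N', hN'⟩ := h' (ε / 2) (by positivity)
  refine ⟨max N N', fun n hn => ?_⟩
  obtain ⟨u, hu1, ⟨M, hM⟩, hu3⟩ := hN n ((le_max_left _ _).trans hn)
  obtain ⟨u', hu1', ⟨M', hM'⟩, hu3'⟩ := hN' n ((le_max_right _ _).trans hn)
  refine ⟨u + u', by rw [map_add, map_add, hu1, hu1'], ⟨max M M', fun m hm => ?_⟩,
    fun m hm => ?_⟩
  · rw [map_add, map_add, hM m ((le_max_left _ _).trans hm), hM' m ((le_max_right _ _).trans hm),
      add_zero]
  · obtain ⟨v, hv, hv2⟩ := hu3 m hm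
    obtain ⟨v', hv', hv2'⟩ := hu3' m hm
    refine ⟨v + v', by rw [map_add, map_add, hv, hv', map_add], ?_⟩
    exact (norm_add_le _ _).trans (by linarith)

theorem Lift.smul {T : (⨁ i, E i) →ₗ[𝕜] (⨁ i, E i)} {y : ⨁ i, E i} (h : Lift T y) (c : 𝕜) :
    Lift T (c • y) := by
  intro ε hε
  obtain ⟨N, hN⟩ := h (ε / (‖c‖ + 1)) (by positivity)
  refine ⟨N, fun n hn => ?_⟩
  obtain ⟨u, hu1, ⟨M, hM⟩, hu3⟩ := hN n hn
  refine ⟨c • u, by rw [map_smul, map_smul, hu1], ⟨M, fun m hm => ?_⟩, fun m hm => ?_⟩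
  · rw [map_smul, map_smul, hM m hm, smul_zero]
  · obtain ⟨v, hv, hv2⟩ := hu3 m hm
    refine ⟨c • v, by rw [map_smul, map_smul, hv, map_smul], ?_⟩
    rw [norm_smul]
    have h1 : ‖c‖ * ‖v‖ ≤ ‖c‖ * (ε / (‖c‖ + 1)) := by gcongr
    have h2 : ‖c‖ * (ε / (‖c‖ + 1)) ≤ ε := by
      rw [mul_div_assoc', div_le_iff₀ (by positivity)]
      nlinarith [norm_nonneg c]
    linarith

theorem Lift.zero {T : (⨁ i, E i) →ₗ[𝕜] (⨁ i, E i)} : Lift T (0 : ⨁ i, E i) := by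
  intro ε hε
  exact ⟨0, fun n _ => ⟨0, by simp, ⟨0, fun m _ => by simp⟩, fun m _ => ⟨0, by simp, by simp [hε.le]⟩⟩⟩

/-- The criterion. -/
theorem criterion [CompleteSpace (E 0)] (T : (⨁ i, E i) →ₗ[𝕜] (⨁ i, E i))
    (hT : ∀ q : Seminorm 𝕜 (⨁ i, E i), Good q → Good (q.comp T))
    (d : ℕ → ⨁ i, E i) (hd : ∀ x, ∀ q : Seminorm 𝕜 (⨁ i, E i), Good q → ∀ ε > 0, ∃ a, q (x - d a) < ε)
    (H : ∀ a, Lift T (d a)) (B : Set ℕ) (hB : B.Infinite) :
    ∃ x : E 0, ∀ y, ∀ q : Seminorm 𝕜 (⨁ i, E i), Good q → ∀ ε > 0,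
      ∃ n ∈ B, q ((T ^ n) (lof 𝕜 ℕ E 0 x) - y) < ε := by
  classical
  let Inv : ℕ → (ℕ → ℕ × E 0 × ℕ) → Prop := fun K S => ∀ k < K,
    (S k).1 ∈ B ∧ (T ^ (S k).1) (lof 𝕜 ℕ E 0 (S k).2.1) = d k.unpair.1 ∧
    (∀ m ≥ (S k).2.2, (T ^ m) (lof 𝕜 ℕ E 0 (S k).2.1) = 0) ∧
    (∀ m ≤ (S k).1 / 2, ∃ v : E 0, (T ^ m) (lof 𝕜 ℕ E 0 (S k).2.1) = lof 𝕜 ℕ E 0 v ∧
      ‖v‖ ≤ (1 / 2 : ℝ) ^ k) ∧
    ∀ i < k, (S i).1 ≤ (S k).1 / 2 ∧ (S i).2.2 ≤ (S k).1
  have key : ∃ S, ∀ n, Inv n S := by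
    apply SB.exists_seq Inv
    · intro n S S' hSS' hS k hk
      have h1 := hS k hk
      rw [← hSS' k hk]
      refine ⟨h1.1, h1.2.1, h1.2.2.1, h1.2.2.2.1, fun i hi => ?_⟩
      rw [← hSS' i (hi.trans hk)]
      exact h1.2.2.2.2 i hi
    · intro S k hk; omega
    · intro K S hS
      obtain ⟨N, hN⟩ := H K.unpair.1 ((1 / 2 : ℝ) ^ K) (by positivity)
      set L := N + ∑ i ∈ Finset.range K, (2 * (S i).1 + (S i).2.2) with hL
      have hLi : ∀ i < K, 2 * (S i).1 + (S i).2.2 ≤ L := by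
        intro i hi
        have := Finset.single_le_sum (f := fun i => 2 * (S i).1 + (S i).2.2)
          (fun j _ => Nat.zero_le _) (Finset.mem_range.mpr hi)
        omega
      obtain ⟨n, hnB, hn⟩ := hB.exists_gt L
      obtain ⟨u, hu1, ⟨M, hM⟩, hu3⟩ := hN n (by omega)
      refine ⟨(n, u, M), ?_⟩
      intro k hk
      rcases Nat.lt_succ_iff_lt_or_eq.mp hk with hk' | rfl
      · rw [Function.update_of_ne hk'.ne]
        have h1 := hS k hk'
        refine ⟨h1.1, h1.2.1, h1.2.2.1, h1.2.2.2.1, fun i hi => ?_⟩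
        rw [Function.update_of_ne (hi.trans hk').ne]
        exact h1.2.2.2.2 i hi
      · rw [Function.update_self]
        refine ⟨hnB, hu1, hM, hu3, fun i hi => ?_⟩
        rw [Function.update_of_ne hi.ne]
        have := hLi i hi
        constructor <;> simp only <;> omega
  obtain ⟨S, hS⟩ := key
  set n : ℕ → ℕ := fun k => (S k).1 with hn
  set u : ℕ → E 0 := fun k => (S k).2.1 with hu
  set M : ℕ → ℕ := fun k => (S k).2.2 with hMdef
  have hnB : ∀ k, n k ∈ B := fun k => (hS (k + 1) k (by omega)).1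
  have h1 : ∀ k, (T ^ (n k)) (lof 𝕜 ℕ E 0 (u k)) = d k.unpair.1 :=
    fun k => (hS (k + 1) k (by omega)).2.1
  have h2 : ∀ k, ∀ m ≥ M k, (T ^ m) (lof 𝕜 ℕ E 0 (u k)) = 0 :=
    fun k => (hS (k + 1) k (by omega)).2.2.1
  have h3 : ∀ k, ∀ m ≤ n k / 2, ∃ v : E 0, (T ^ m) (lof 𝕜 ℕ E 0 (u k)) = lof 𝕜 ℕ E 0 v ∧
      ‖v‖ ≤ (1 / 2 : ℝ) ^ k := fun k => (hS (k + 1) k (by omega)).2.2.2.1
  have h4 : ∀ k, ∀ i < k, n i ≤ n k / 2 ∧ M i ≤ n k :=
    fun k => (hS (k + 1) k (by omega)).2.2.2.2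
  have hnorm : ∀ k, ‖u k‖ ≤ (1 / 2 : ℝ) ^ k := by
    intro k
    obtain ⟨v, hv, hv2⟩ := h3 k 0 (Nat.zero_le _)
    have : u k = v := by
      have h5 : lof 𝕜 ℕ E 0 (u k) = lof 𝕜 ℕ E 0 v := by simpa using hv
      exact DirectSum.of_injective (β := E) 0 h5
    rw [this]; exact hv2
  have hsum : Summable u :=
    Summable.of_norm_bounded (summable_geometric_of_lt_one (by norm_num) (by norm_num)) hnorm
  refine ⟨∑' k, u k, fun y q hq ε hε => ?_⟩
  -- the tail estimate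
  obtain ⟨C, hC0, hC⟩ := hq 0
  have htail : ∀ k, q ((T ^ (n k)) (lof 𝕜 ℕ E 0 (∑' k, u k)) - d k.unpair.1) ≤
      C * (1 / 2 : ℝ) ^ k := by
    intro k
    have hsplit : (∑' k, u k) = (∑ i ∈ Finset.range k, u i) + u k + ∑' i, u (i + (k + 1)) := by
      rw [← hsum.sum_add_tsum_nat_add (k + 1), Finset.sum_range_succ]
    have hz : (T ^ (n k)) (lof 𝕜 ℕ E 0 (∑ i ∈ Finset.range k, u i)) = 0 := by
      rw [map_sum, map_sum]
      refine Finset.sum_eq_zero fun i hi => h2 i _ ?_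
      exact (h4 k i (Finset.mem_range.mp hi)).2
    have heq : (T ^ (n k)) (lof 𝕜 ℕ E 0 (∑' k, u k)) - d k.unpair.1 =
        (T ^ (n k)) (lof 𝕜 ℕ E 0 (∑' i, u (i + (k + 1)))) := by
      rw [hsplit, map_add, map_add, map_add, map_add, hz, h1 k]
      abel
    rw [heq]
    obtain ⟨C', hC'0, hC'⟩ := good_iterate T hT (n k) q hq 0
    have hgeo : Summable fun i : ℕ => C * (1 / 2 : ℝ) ^ (i + (k + 1)) :=
      ((summable_nat_add_iff (k + 1)).mpr
        (summable_geometric_of_lt_one (by norm_num) (by norm_num))).mul_left C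
    have h6 := seminorm_tsum_le ((q.comp (T ^ (n k))).comp (lof 𝕜 ℕ E 0)) C'
      (fun x => by simpa using hC' x) (fun i => u (i + (k + 1)))
      ((summable_nat_add_iff (k + 1)).mpr hsum) (fun i => C * (1 / 2 : ℝ) ^ (i + (k + 1))) hgeo
      (fun i => by
        obtain ⟨v, hv, hv2⟩ := h3 (i + (k + 1)) (n k) (h4 _ k (by omega)).1
        simp only [Seminorm.comp_apply]
        rw [hv]
        exact (hC v).trans (by gcongr))
    simp only [Seminorm.comp_apply] at h6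
    refine h6.trans (le_of_eq ?_)
    rw [tsum_mul_left]
    congr 1
    have : (fun i : ℕ => (1 / 2 : ℝ) ^ (i + (k + 1))) = fun i : ℕ => (1 / 2 : ℝ) ^ i * (1 / 2) ^ (k + 1) := by
      funext i; rw [pow_add]
    rw [this, tsum_mul_right, tsum_geometric_of_lt_one (by norm_num) (by norm_num)]
    rw [pow_succ]; norm_num; ring
  obtain ⟨a, ha⟩ := hd y q hq (ε / 2) (by positivity)
  have hlim : Tendsto (fun k : ℕ => C * (1 / 2 : ℝ) ^ k) atTop (𝓝 0) := by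
    have := (tendsto_pow_atTop_nhds_zero_of_lt_one (r := (1 / 2 : ℝ)) (by norm_num)
      (by norm_num)).const_mul C
    simpa using this
  obtain ⟨K, hK⟩ := (hlim.eventually (gt_mem_nhds (show (0 : ℝ) < ε / 2 by positivity))).exists_forall_of_atTop
  set k := Nat.pair a K with hk
  have hkK : K ≤ k := Nat.right_le_pair a K
  have hka : k.unpair.1 = a := by rw [hk, Nat.unpair_pair]
  refine ⟨n k, hnB k, ?_⟩
  have h7 := htail k
  rw [hka] at h7
  have h8 := hK k hkK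
  have h9 : (T ^ (n k)) (lof 𝕜 ℕ E 0 (∑' k, u k)) - y =
      ((T ^ (n k)) (lof 𝕜 ℕ E 0 (∑' k, u k)) - d a) - (y - d a) := by abel
  rw [h9]
  exact (map_sub_le_add q _ _).trans_lt (by linarith)

end Q65.DS
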