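import Mathlib
import Pool.Agent.Q65.DirSumOp

/-! # Construction of the operator. -/

open Filter Topology DirectSum

namespace Q65.DS

variable {𝕜 : Type*} [RCLike 𝕜] {E : ℕ → Type*} [∀ n, NormedAddCommGroup (E n)]
  [∀ n, NormedSpace 𝕜 (E n)]

theorem exists_op [∀ n, CompleteSpace (E n)] (e : ∀ i, ℕ → E i) (f : ∀ i, ℕ → (E i →L[𝕜] 𝕜))
    (hef : ∀ i k l, f i k (e i l) = if k = l then 1 else 0)
    (he : ∀ i k, ‖e i k‖ ≤ 1)
    (nxt : ℕ → ℕ → ℕ × ℕ) (w : ℕ → ℕ → ℝ) (hw : ∀ i j, 0 ≤ w i j)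
    (hsum : ∀ i, Summable fun j => w i j * ‖f i j‖) (N : ℕ → ℕ)
    (hN : ∀ i j, w i j ≠ 0 → (nxt i j).1 < N i) :
    ∃ T : (⨁ i, E i) →ₗ[𝕜] (⨁ i, E i),
      (∀ q : Seminorm 𝕜 (⨁ i, E i), Good q → Good (q.comp T)) ∧
      ∀ i j, T (lof 𝕜 ℕ E i (e i j)) =
        ((w i j : ℝ) : 𝕜) • lof 𝕜 ℕ E (nxt i j).1 (e (nxt i j).1 (nxt i j).2) := by
  classical
  let g : ∀ i i' : ℕ, ℕ → (E i →L[𝕜] E i') := fun i i' j =>
    if (nxt i j).1 = i' then ((w i j : ℝ) : 𝕜) • (f i j).smulRight (e i' (nxt i j).2) else 0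
  have hg : ∀ i i', Summable (g i i') := by
    intro i i'
    refine Summable.of_norm_bounded (hsum i) fun j => ?_
    simp only [g]
    split_ifs with h
    · rw [norm_smul, ContinuousLinearMap.norm_smulRight_apply]
      have h1 : ‖((w i j : ℝ) : 𝕜)‖ = w i j := by
        rw [RCLike.norm_ofReal, abs_of_nonneg (hw i j)]
      rw [h1]
      have := he i' (nxt i j).2
      have h2 : ‖f i j‖ * ‖e i' (nxt i j).2‖ ≤ ‖f i j‖ := by
        nlinarith [norm_nonneg (f i j)]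
      exact mul_le_mul_of_nonneg_left h2 (hw i j)
    · rw [norm_zero]; exact mul_nonneg (hw i j) (norm_nonneg _)
  let A : ∀ i i' : ℕ, (E i →L[𝕜] E i') := fun i i' => ∑' j, g i i' j
  have hA : ∀ i i' j, A i i' (e i j) =
      if (nxt i j).1 = i' then ((w i j : ℝ) : 𝕜) • e i' (nxt i j).2 else 0 := by
    intro i i' j
    have h1 : A i i' (e i j) = ∑' k, g i i' k (e i j) := by
      have := (ContinuousLinearMap.apply 𝕜 (E i') (e i j)).map_tsum (hg i i')
      simpa using this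
    rw [h1, tsum_eq_single j]
    · simp only [g]
      split_ifs with h
      · simp [hef]
      · simp
    · intro k hk
      simp only [g]
      split_ifs with h
      · simp [hef, hk]
      · simp
  let S : ∀ i, E i →ₗ[𝕜] (⨁ i, E i) := fun i =>
    ∑ i' ∈ Finset.range (N i), (lof 𝕜 ℕ E i').comp ((A i i' : E i →L[𝕜] E i') : E i →ₗ[𝕜] E i')
  have hS : ∀ i x, S i x = ∑ i' ∈ Finset.range (N i), lof 𝕜 ℕ E i' (A i i' x) := by
    intro i x
    simp [S]
  refine ⟨toModule 𝕜 ℕ _ S, ?_, ?_⟩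
  · intro q hq i
    choose C hC0 hC using hq
    refine ⟨∑ i' ∈ Finset.range (N i), C i' * ‖A i i'‖,
      Finset.sum_nonneg fun i' _ => mul_nonneg (hC0 i') (norm_nonneg _), fun x => ?_⟩
    rw [Seminorm.comp_apply, toModule_lof, hS, Finset.sum_mul]
    have h1 : ∀ s : Finset ℕ, q (∑ i' ∈ s, lof 𝕜 ℕ E i' (A i i' x)) ≤
        ∑ i' ∈ s, q (lof 𝕜 ℕ E i' (A i i' x)) := by
      intro s
      induction s using Finset.induction_on with
      | empty => simp
      | insert a s ha ih =>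
        rw [Finset.sum_insert ha, Finset.sum_insert ha]
        exact (map_add_le_add q _ _).trans (by linarith)
    refine (h1 _).trans (Finset.sum_le_sum fun i' _ => ?_)
    refine (hC i' _).trans ?_
    rw [mul_assoc]
    exact mul_le_mul_of_nonneg_left ((A i i').le_opNorm x) (hC0 i')
  · intro i j
    rw [toModule_lof, hS]
    by_cases hwij : w i j = 0
    · have : ∀ i', A i i' (e i j) = 0 := by
        intro i'
        rw [hA, hwij]
        simp
      simp [this, hwij]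
    · rw [Finset.sum_eq_single (nxt i j).1]
      · rw [hA, if_pos rfl, map_smul]
      · intro i' _ hne
        rw [hA, if_neg (Ne.symm hne), map_zero]
      · intro h
        exact absurd (Finset.mem_range.mpr (hN i j hwij)) h

/-! ### The concrete data -/

/-- the code of a node in the second coordinate -/
def code (p n t : ℕ) : ℕ := Nat.pair p (Nat.pair n t)

/-- the basic small weights -/
noncomputable def wk (F : ℕ → ℕ → ℝ) (i j : ℕ) : ℝ := (1 / 2) ^ j / (1 + F i j)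

/-- the next node -/
def nx (_i j : ℕ) : ℕ × ℕ :=
  if j.unpair.2.unpair.2 + 1 < j.unpair.2.unpair.1 then
    (j.unpair.2.unpair.2 + 1 - j.unpair.2.unpair.1 / 2,
      code j.unpair.1 j.unpair.2.unpair.1 (j.unpair.2.unpair.2 + 1))
  else j.unpair.1.unpair

/-- the weights -/
noncomputable def wt (F : ℕ → ℕ → ℝ) (i j : ℕ) : ℝ :=
  if j.unpair.2.unpair.2 < j.unpair.2.unpair.1 ∧
      i = j.unpair.2.unpair.2 - j.unpair.2.unpair.1 / 2 ∧ j.unpair.1 ≤ j.unpair.2.unpair.1 then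
    (if j.unpair.2.unpair.2 + 1 < j.unpair.2.unpair.1 then wk F i j else
      (j.unpair.2.unpair.1 : ℝ) / ∏ s ∈ Finset.range (j.unpair.2.unpair.1 - 1),
        wk F (s - j.unpair.2.unpair.1 / 2) (code j.unpair.1 j.unpair.2.unpair.1 s))
  else 0

theorem nx_code_lt {i p n t : ℕ} (h : t + 1 < n) :
    nx i (code p n t) = (t + 1 - n / 2, code p n (t + 1)) := by
  simp [nx, code, h]

theorem nx_code_last {i p n t : ℕ} (h : ¬ t + 1 < n) :
    nx i (code p n t) = p.unpair := by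
  simp [nx, code, h]

theorem wt_code_lt {F : ℕ → ℕ → ℝ} {p n t : ℕ} (hp : p ≤ n) (h : t + 1 < n) :
    wt F (t - n / 2) (code p n t) = wk F (t - n / 2) (code p n t) := by
  have h' : t < n := by omega
  simp [wt, code, h, h', hp]

theorem wt_code_last {F : ℕ → ℕ → ℝ} {p n t : ℕ} (hp : p ≤ n) (h : t + 1 = n) :
    wt F (t - n / 2) (code p n t) =
      (n : ℝ) / ∏ s ∈ Finset.range (n - 1), wk F (s - n / 2) (code p n s) := by
  have h' : t < n := by omega
  have h'' : ¬ t + 1 < n := by omega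
  simp [wt, code, h', h'', hp]

theorem wk_pos {F : ℕ → ℕ → ℝ} (hF : ∀ i j, 0 ≤ F i j) (i j : ℕ) : 0 < wk F i j := by
  have := hF i j
  rw [wk]; positivity

theorem wk_le_one {F : ℕ → ℕ → ℝ} (hF : ∀ i j, 0 ≤ F i j) (i j : ℕ) : wk F i j ≤ 1 := by
  have := hF i j
  rw [wk, div_le_one (by positivity)]
  have : ((1 : ℝ) / 2) ^ j ≤ 1 := pow_le_one₀ (by norm_num) (by norm_num)
  linarith

theorem wt_nonneg {F : ℕ → ℕ → ℝ} (hF : ∀ i j, 0 ≤ F i j) (i j : ℕ) : 0 ≤ wt F i j := by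
  rw [wt]
  split_ifs
  · exact (wk_pos hF i j).le
  · exact div_nonneg (Nat.cast_nonneg _) (Finset.prod_nonneg fun s _ => (wk_pos hF _ _).le)
  · exact le_rfl

theorem wt_ne_zero {F : ℕ → ℕ → ℝ} {i j : ℕ} (h : wt F i j ≠ 0) :
    ∃ p n t, t < n ∧ i = t - n / 2 ∧ p ≤ n ∧ j = code p n t := by
  rw [wt] at h
  split_ifs at h with h1 h2
  · exact ⟨_, _, _, h1.1, h1.2.1, h1.2.2, by simp [code]⟩
  · exact ⟨_, _, _, h1.1, h1.2.1, h1.2.2, by simp [code]⟩
  · exact absurd rfl h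

theorem wt_bound {F : ℕ → ℕ → ℝ} {i j : ℕ} (h : wt F i j ≠ 0) : (nx i j).1 < 2 * i + 3 := by
  obtain ⟨p, n, t, h1, h2, h3, rfl⟩ := wt_ne_zero h
  by_cases h4 : t + 1 < n
  · rw [nx_code_lt h4]; simp only; omega
  · rw [nx_code_last h4]
    have := Nat.unpair_left_le p
    omega

theorem wt_summable {F : ℕ → ℕ → ℝ} (hF : ∀ i j, 0 ≤ F i j) (i : ℕ) :
    Summable fun j => wt F i j * F i j := by
  classical
  apply Summable.of_norm_bounded_eventually
    (summable_geometric_of_lt_one (r := (1 / 2 : ℝ)) (by norm_num) (by norm_num))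
  rw [Filter.eventually_cofinite]
  let Fs : Finset ℕ := ((Finset.range (2 * i + 3)) ×ˢ (Finset.range (2 * i + 3)) ×ˢ
    (Finset.range (2 * i + 3))).image fun x => code x.1 x.2.1 x.2.2
  apply (Fs.finite_toSet).subset
  intro j hj
  by_contra hcon
  apply hj
  have hw0 := wt_nonneg hF i j
  rw [Real.norm_eq_abs, abs_of_nonneg (mul_nonneg hw0 (hF i j))]
  by_cases h0 : wt F i j = 0
  · rw [h0, zero_mul]; positivity
  · obtain ⟨p, n, t, h1, h2, h3, rfl⟩ := wt_ne_zero h0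
    have h4 : t + 1 < n := by
      by_contra h5
      apply hcon
      simp only [Fs, Finset.coe_image, Set.mem_image]
      refine ⟨(p, n, t), ?_, rfl⟩
      simp only [Finset.coe_product, Set.mem_prod, Finset.coe_range, Set.mem_Iio]
      omega
    subst h2
    rw [wt_code_lt h3 h4, wk]
    have := hF (t - n / 2) (code p n t)
    rw [div_mul_eq_mul_div, div_le_iff₀ (by positivity)]
    have h6 : (0 : ℝ) < (1 / 2) ^ (code p n t) := by positivity
    nlinarith

variable (T : (⨁ i, E i) →ₗ[𝕜] (⨁ i, E i)) (e : ∀ i, ℕ → E i) (F : ℕ → ℕ → ℝ)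

theorem path (_hF : ∀ i j, 0 ≤ F i j)
    (hT : ∀ i j, T (lof 𝕜 ℕ E i (e i j)) =
        ((wt F i j : ℝ) : 𝕜) • lof 𝕜 ℕ E (nx i j).1 (e (nx i j).1 (nx i j).2))
    (p n : ℕ) (hp : p ≤ n) (t : ℕ) (ht : t < n) :
    (T ^ t) (lof 𝕜 ℕ E (0 - n / 2) (e (0 - n / 2) (code p n 0))) =
      ((∏ s ∈ Finset.range t, wk F (s - n / 2) (code p n s) : ℝ) : 𝕜) •
        lof 𝕜 ℕ E (t - n / 2) (e (t - n / 2) (code p n t)) := by
  induction t with
  | zero => simp
  | succ t ih =>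
    rw [pow_succ', Module.End.mul_apply, ih (by omega), map_smul, hT, wt_code_lt hp ht,
      nx_code_lt ht, Finset.prod_range_succ, RCLike.ofReal_mul, smul_smul]

theorem path_last (hF : ∀ i j, 0 ≤ F i j)
    (hT : ∀ i j, T (lof 𝕜 ℕ E i (e i j)) =
        ((wt F i j : ℝ) : 𝕜) • lof 𝕜 ℕ E (nx i j).1 (e (nx i j).1 (nx i j).2))
    (p n : ℕ) (hp : p ≤ n) (hn : 0 < n) :
    (T ^ n) (lof 𝕜 ℕ E (0 - n / 2) (e (0 - n / 2) (code p n 0))) =
      (n : 𝕜) • lof 𝕜 ℕ E p.unpair.1 (e p.unpair.1 p.unpair.2) := by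
  obtain ⟨m, rfl⟩ : ∃ m, n = m + 1 := ⟨n - 1, by omega⟩
  rw [pow_succ', Module.End.mul_apply, path T e F hF hT p (m + 1) hp m (by omega), map_smul, hT,
    wt_code_last hp rfl, nx_code_last (by omega), smul_smul, ← RCLike.ofReal_mul]
  congr 1
  have h1 : (∏ s ∈ Finset.range m, wk F (s - (m + 1) / 2) (code p (m + 1) s)) ≠ 0 :=
    (Finset.prod_pos fun s _ => wk_pos hF _ _).ne'
  rw [Nat.add_sub_cancel, mul_div_cancel₀ _ h1]
  push_cast
  rfl

theorem nil_all (hT : ∀ i j, T (lof 𝕜 ℕ E i (e i j)) =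
        ((wt F i j : ℝ) : 𝕜) • lof 𝕜 ℕ E (nx i j).1 (e (nx i j).1 (nx i j).2)) (J : ℕ) :
    ∀ i j, j < J → ∃ M, ∀ m ≥ M, (T ^ m) (lof 𝕜 ℕ E i (e i j)) = 0 := by
  have back : ∀ y : (⨁ i, E i), (∃ M, ∀ m ≥ M, (T ^ m) (T y) = 0) →
      ∃ M, ∀ m ≥ M, (T ^ m) y = 0 := by
    rintro y ⟨M, hM⟩
    refine ⟨M + 1, fun m hm => ?_⟩
    obtain ⟨m', rfl⟩ : ∃ m', m = m' + 1 := ⟨m - 1, by omega⟩
    rw [pow_succ, Module.End.mul_apply]
    exact hM m' (by omega)
  have hsm : ∀ (c : 𝕜) (y : (⨁ i, E i)), (∃ M, ∀ m ≥ M, (T ^ m) y = 0) →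
      ∃ M, ∀ m ≥ M, (T ^ m) (c • y) = 0 := by
    rintro c y ⟨M, hM⟩
    exact ⟨M, fun m hm => by rw [map_smul, hM m hm, smul_zero]⟩
  induction J with
  | zero => intro i j hj; omega
  | succ J ih =>
    intro i j hj
    by_cases h0 : wt F i j = 0
    · apply back
      rw [hT, h0]
      exact ⟨0, fun m _ => by simp⟩
    · obtain ⟨p, n, t, h1, h2, h3, rfl⟩ := wt_ne_zero h0
      subst h2
      have hpj : p < code p n t := by
        have h4 : 0 < Nat.pair n t := lt_of_lt_of_le (by omega) (Nat.left_le_pair n t)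
        unfold code
        rw [Nat.pair]
        split_ifs
        · nlinarith
        · nlinarith
      have hlt : p.unpair.2 < J := by
        have := Nat.unpair_right_le p
        omega
      have hmain : ∀ k t, t < n → n - 1 - t = k → ∃ M, ∀ m ≥ M,
          (T ^ m) (lof 𝕜 ℕ E (t - n / 2) (e (t - n / 2) (code p n t))) = 0 := by
        intro k
        induction k with
        | zero =>
          intro t ht hk
          apply back
          rw [hT, nx_code_last (by omega)]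
          exact hsm _ _ (ih _ _ hlt)
        | succ k ihk =>
          intro t ht hk
          apply back
          rw [hT, nx_code_lt (by omega)]
          exact hsm _ _ (ihk (t + 1) (by omega) (by omega))
      exact hmain _ t h1 rfl

theorem lift_basis (hF : ∀ i j, 0 ≤ F i j) (he : ∀ i k, ‖e i k‖ ≤ 1)
    (hT : ∀ i j, T (lof 𝕜 ℕ E i (e i j)) =
        ((wt F i j : ℝ) : 𝕜) • lof 𝕜 ℕ E (nx i j).1 (e (nx i j).1 (nx i j).2)) (i j : ℕ) :
    Lift T (lof 𝕜 ℕ E i (e i j)) := by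
  intro ε hε
  set p := Nat.pair i j with hp
  obtain ⟨N, hN⟩ := exists_nat_gt (1 / ε)
  refine ⟨max (max p 1) N, fun n hn => ?_⟩
  have hpn : p ≤ n := (le_max_left _ _).trans ((le_max_left _ _).trans hn)
  have hn1 : 1 ≤ n := (le_max_right _ _).trans ((le_max_left _ _).trans hn)
  have hNn : N ≤ n := (le_max_right _ _).trans hn
  have hn0 : (0 : ℝ) < n := by exact_mod_cast hn1
  have hε1 : 1 / (n : ℝ) ≤ ε := by
    have h1 : 1 / ε < n := hN.trans_le (by exact_mod_cast hNn)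
    rw [div_lt_iff₀ hε] at h1
    rw [div_le_iff₀ hn0]; linarith
  have h00 : 0 - n / 2 = 0 := Nat.zero_sub _
  refine ⟨((1 / (n : ℝ) : ℝ) : 𝕜) • e 0 (code p n 0), ?_, ?_, ?_⟩
  · have h1 := path_last T e F hF hT p n hpn hn1
    rw [h00] at h1
    rw [map_smul, map_smul, h1, smul_smul, hp, Nat.unpair_pair]
    have h2 : ((1 / (n : ℝ) : ℝ) : 𝕜) * (n : 𝕜) = 1 := by
      have : (n : 𝕜) = ((n : ℝ) : 𝕜) := by push_cast; rfl
      rw [this, ← RCLike.ofReal_mul, one_div, inv_mul_cancel₀ hn0.ne', RCLike.ofReal_one]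
    rw [h2, one_smul]
  · obtain ⟨M, hM⟩ := nil_all T e F hT (code p n 0 + 1) 0 (code p n 0) (Nat.lt_succ_self _)
    exact ⟨M, fun m hm => by rw [map_smul, map_smul, hM m hm, smul_zero]⟩
  · intro m hm
    have h1 := path T e F hF hT p n hpn m (by omega)
    rw [h00] at h1
    have h2 : m - n / 2 = 0 := by omega
    rw [h2] at h1
    set c : ℝ := ∏ s ∈ Finset.range m, wk F (s - n / 2) (code p n s) with hc
    have hc0 : 0 ≤ c := Finset.prod_nonneg fun s _ => (wk_pos hF _ _).le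
    have hc1 : c ≤ 1 := Finset.prod_le_one (fun s _ => (wk_pos hF _ _).le)
      fun s _ => wk_le_one hF _ _
    refine ⟨((1 / (n : ℝ) : ℝ) : 𝕜) • (c : 𝕜) • e 0 (code p n m), ?_, ?_⟩
    · rw [map_smul, map_smul, h1, map_smul, map_smul]
    · rw [norm_smul, norm_smul, RCLike.norm_ofReal, RCLike.norm_ofReal, abs_of_nonneg hc0,
        abs_of_nonneg (by positivity)]
      have h3 := he 0 (code p n m)
      have h4 : c * ‖e 0 (code p n m)‖ ≤ 1 := mul_le_one₀ hc1 (norm_nonneg _) h3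
      have h5 : 1 / (n : ℝ) * (c * ‖e 0 (code p n m)‖) ≤ 1 / (n : ℝ) * 1 :=
        mul_le_mul_of_nonneg_left h4 (by positivity)
      linarith

end Q65.DS
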