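import Mathlib

/-! Preliminaries on `[0,1]`: finite Parseval identity and uniqueness of Fourier coefficients. -/

set_option autoImplicit false

open MeasureTheory Set Complex
open scoped Real ComplexConjugate

namespace Q65.ER

/-- `e(t) = exp(2 π i t)` -/
noncomputable def ee (t : ℝ) : ℂ := Complex.exp (2 * π * I * t)

lemma ee_add (s t : ℝ) : ee (s + t) = ee s * ee t := by
  unfold ee; rw [← Complex.exp_add]; congr 1; push_cast; ring

lemma ee_zero : ee 0 = 1 := by simp [ee]

lemma norm_ee (t : ℝ) : ‖ee t‖ = 1 := by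
  unfold ee
  rw [show (2 * π * I * t : ℂ) = ((2 * π * t : ℝ) : ℂ) * I by push_cast; ring]
  exact Complex.norm_exp_ofReal_mul_I _

lemma conj_ee (t : ℝ) : conj (ee t) = ee (-t) := by
  unfold ee
  rw [← Complex.exp_conj]
  congr 1
  simp only [map_mul, conj_ofReal, conj_I, map_ofNat]
  push_cast; ring

lemma ee_mul_conj (t : ℝ) : ee t * conj (ee t) = 1 := by
  rw [conj_ee, ← ee_add, add_neg_cancel, ee_zero]

lemma ee_int (n : ℤ) : ee n = 1 := by
  unfold ee
  rw [Complex.exp_eq_one_iff]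
  exact ⟨n, by push_cast; ring⟩

lemma ee_half : ee (1/2) = -1 := by
  unfold ee
  rw [show (2 * π * I * ((1/2 : ℝ) : ℂ) : ℂ) = π * I by push_cast; ring]
  exact Complex.exp_pi_mul_I

lemma ee_int_add_half (n : ℤ) : ee ((n:ℝ) + 1/2) = -1 := by
  rw [ee_add, ee_int, ee_half, one_mul]

lemma continuous_ee : Continuous ee := by
  unfold ee; fun_prop

lemma int_ee (k : ℤ) : ∫ t in (0:ℝ)..1, ee (k * t) = if k = 0 then 1 else 0 := by
  split_ifs with h
  · subst h
    simp [ee_zero]
  · have hk : (2 * π * I * k : ℂ) ≠ 0 := by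
      have : (k:ℂ) ≠ 0 := by exact_mod_cast h
      have hpi : (π:ℂ) ≠ 0 := by exact_mod_cast Real.pi_ne_zero
      simp [hpi, this, I_ne_zero]
    have e1 : ∀ t : ℝ, ee (k * t) = cexp ((2 * π * I * k) * t) := by
      intro t; unfold ee; congr 1; push_cast; ring
    simp_rw [e1]
    rw [integral_exp_mul_complex hk]
    have e2 : cexp ((2 * π * I * k) * ((1:ℝ):ℂ)) = 1 := by
      rw [Complex.exp_eq_one_iff]; exact ⟨k, by push_cast; ring⟩
    rw [e2]; simp

/-- Parseval for trigonometric polynomials -/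
lemma pars (K : Finset ℤ) (c : ℤ → ℂ) :
    ∫ t in (0:ℝ)..1, ‖∑ n ∈ K, c n * ee (n * t)‖ ^ 2 = ∑ n ∈ K, ‖c n‖ ^ 2 := by
  have hC : ∀ n : ℤ, Continuous fun t : ℝ => c n * ee (n * t) := fun n =>
    continuous_const.mul (continuous_ee.comp (continuous_const.mul continuous_id))
  have h1 : ((∫ t in (0:ℝ)..1, ‖∑ n ∈ K, c n * ee (n * t)‖ ^ 2 : ℝ) : ℂ) =
      ((∑ n ∈ K, ‖c n‖ ^ 2 : ℝ) : ℂ) := by
    rw [← intervalIntegral.integral_ofReal]
    have e1 : ∀ t : ℝ, ((‖∑ n ∈ K, c n * ee (n * t)‖ ^ 2 : ℝ) : ℂ) =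
        ∑ n ∈ K, ∑ m ∈ K, (c n * conj (c m)) * ee (((n - m : ℤ) : ℝ) * t) := by
      intro t
      rw [Complex.ofReal_pow, ← Complex.mul_conj', map_sum, Finset.sum_mul_sum]
      refine Finset.sum_congr rfl fun n _ => Finset.sum_congr rfl fun m _ => ?_
      rw [map_mul, conj_ee]
      have : ee (((n - m : ℤ) : ℝ) * t) = ee (n * t) * ee (-(m * t)) := by
        rw [← ee_add]; congr 1; push_cast; ring
      rw [this]; ring
    simp_rw [e1]
    rw [intervalIntegral.integral_finset_sum]
    · rw [Complex.ofReal_sum]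
      refine Finset.sum_congr rfl fun n hn => ?_
      rw [intervalIntegral.integral_finset_sum]
      · simp_rw [intervalIntegral.integral_const_mul, int_ee]
        rw [Finset.sum_eq_single n]
        · simp [Complex.mul_conj']
        · intro m _ hm
          rw [if_neg (by rw [sub_eq_zero]; exact fun h => hm h.symm), mul_zero]
        · intro h; exact absurd hn h
      · intro m _
        exact (continuous_const.mul (continuous_ee.comp (continuous_const.mul
          continuous_id))).intervalIntegrable _ _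
    · intro n _
      exact (continuous_finset_sum _ fun m _ => continuous_const.mul (continuous_ee.comp
        (continuous_const.mul continuous_id))).intervalIntegrable _ _
  exact_mod_cast h1

/-- uniqueness of Fourier coefficients in `L²(0,1)` -/
lemma uniq {G : ℝ → ℂ} (hG : MemLp G 2 (volume.restrict (Ioc (0:ℝ) 1)))
    (h : ∀ n : ℤ, ∫ t in (0:ℝ)..1, ee (-(n * t)) * G t = 0) :
    G =ᵐ[volume.restrict (Ioc (0:ℝ) 1)] 0 := by
  have h1 := hasSum_sq_fourierCoeffOn one_pos hG
  have h2 : ∀ n : ℤ, fourierCoeffOn one_pos G n = 0 := by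
    intro n
    rw [fourierCoeffOn_eq_integral]
    have e1 : ∀ x : ℝ, (fourier (-n) (x : AddCircle ((1:ℝ) - 0)) • G x : ℂ) =
        ee (-(n * x)) * G x := by
      intro x
      rw [fourier_coe_apply, smul_eq_mul]
      unfold ee
      congr 2
      push_cast; ring
    simp_rw [e1]
    rw [h n]; simp
  simp_rw [h2] at h1
  have h3 : HasSum (fun _ : ℤ => (0:ℝ)) 0 := hasSum_zero
  have h4 : (1 - 0 : ℝ)⁻¹ • ∫ x in (0:ℝ)..1, ‖G x‖ ^ 2 = 0 := by
    refine h1.unique ?_
    simpa using h3
  have h5 : ∫ x in (0:ℝ)..1, ‖G x‖ ^ 2 = 0 := by simpa using h4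
  rw [intervalIntegral.integral_of_le zero_le_one] at h5
  have h6 : Integrable (fun x => ‖G x‖ ^ 2) (volume.restrict (Ioc (0:ℝ) 1)) :=
    (memLp_two_iff_integrable_sq_norm hG.1).mp hG
  rw [integral_eq_zero_iff_of_nonneg (fun x => sq_nonneg _) h6] at h5
  filter_upwards [h5] with x hx
  have : ‖G x‖ ^ 2 = 0 := hx
  simpa using this

end Q65.ER
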