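import Pool.Agent.Q65.ERa

/-! The system of exponentials on the four sides of the unit square, in one variable. -/

set_option autoImplicit false

open MeasureTheory Set Complex
open scoped Real ComplexConjugate

namespace Q65.ER

/-- first coordinates of the frequencies -/
noncomputable def k1 (i : Fin 4 × ℤ) : ℝ := ![(i.2:ℝ), (i.2:ℝ), (i.2:ℝ) + 1/2, (i.2:ℝ) + 1/2] i.1
/-- second coordinates of the frequencies -/
noncomputable def k2 (i : Fin 4 × ℤ) : ℝ := ![(i.2:ℝ), (i.2:ℝ) + 1/2, -(i.2:ℝ) - 1/2, -(i.2:ℝ)] i.1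

section core1
variable (K : Finset ℤ) (c : Fin 4 × ℤ → ℂ)

/-- trigonometric polynomials -/
noncomputable def ff (j : Fin 4) (t : ℝ) : ℂ := ∑ n ∈ K, c (j, n) * ee (n * t)

lemma ff_cont (j : Fin 4) : Continuous (ff K c j) :=
  continuous_finsetSum _ fun _ _ => continuous_const.mul (continuous_ee.comp
    (continuous_const.mul continuous_id))

lemma ff_per (j : Fin 4) (t : ℝ) : ff K c j (t - 1) = ff K c j t := by
  unfold ff
  refine Finset.sum_congr rfl fun n _ => ?_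
  congr 1
  rw [show (n:ℝ) * (t - 1) = n * t + ((-n : ℤ) : ℝ) by push_cast; ring, ee_add, ee_int, mul_one]

lemma sum4 (g : Fin 4 × ℤ → ℂ) : ∑ i ∈ Finset.univ ×ˢ K, g i =
    ∑ n ∈ K, g (0, n) + ∑ n ∈ K, g (1, n) + ∑ n ∈ K, g (2, n) + ∑ n ∈ K, g (3, n) := by
  rw [Finset.sum_product, Fin.sum_univ_four]

lemma bot_eq (t : ℝ) : ∑ i ∈ Finset.univ ×ˢ K, c i * ee (k1 i * t) =
    (ff K c 0 t + ee (t/2) * ff K c 3 t) + (ff K c 1 t + ee (t/2) * ff K c 2 t) := by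
  rw [sum4]
  have h2 : ∑ n ∈ K, c (2, n) * ee (k1 (2, n) * t) = ee (t/2) * ff K c 2 t := by
    unfold ff; rw [Finset.mul_sum]
    refine Finset.sum_congr rfl fun n _ => ?_
    have : k1 (2, n) * t = n * t + t / 2 := by simp [k1]; ring
    rw [this, ee_add]; ring
  have h3 : ∑ n ∈ K, c (3, n) * ee (k1 (3, n) * t) = ee (t/2) * ff K c 3 t := by
    unfold ff; rw [Finset.mul_sum]
    refine Finset.sum_congr rfl fun n _ => ?_
    have : k1 (3, n) * t = n * t + t / 2 := by simp [k1]; ring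
    rw [this, ee_add]; ring
  rw [h2, h3]
  have h0 : ∑ n ∈ K, c (0, n) * ee (k1 (0, n) * t) = ff K c 0 t := rfl
  have h1 : ∑ n ∈ K, c (1, n) * ee (k1 (1, n) * t) = ff K c 1 t := rfl
  rw [h0, h1]; ring

lemma top_eq (t : ℝ) : ∑ i ∈ Finset.univ ×ˢ K, c i * ee (k2 i + k1 i * t) =
    (ff K c 0 t + ee (t/2) * ff K c 3 t) - (ff K c 1 t + ee (t/2) * ff K c 2 t) := by
  rw [sum4]
  have h0 : ∑ n ∈ K, c (0, n) * ee (k2 (0, n) + k1 (0, n) * t) = ff K c 0 t := by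
    unfold ff
    refine Finset.sum_congr rfl fun n _ => ?_
    have : k2 (0, n) + k1 (0, n) * t = n + n * t := by simp [k1, k2]
    rw [this, ee_add, ee_int, one_mul]
  have h1 : ∑ n ∈ K, c (1, n) * ee (k2 (1, n) + k1 (1, n) * t) = - ff K c 1 t := by
    unfold ff; rw [← Finset.sum_neg_distrib]
    refine Finset.sum_congr rfl fun n _ => ?_
    have : k2 (1, n) + k1 (1, n) * t = ((n:ℝ) + 1/2) + n * t := by simp [k1, k2]
    rw [this, ee_add, ee_int_add_half]; ring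
  have h2 : ∑ n ∈ K, c (2, n) * ee (k2 (2, n) + k1 (2, n) * t) = - (ee (t/2) * ff K c 2 t) := by
    unfold ff; rw [Finset.mul_sum, ← Finset.sum_neg_distrib]
    refine Finset.sum_congr rfl fun n _ => ?_
    have : k2 (2, n) + k1 (2, n) * t = (((-n - 1 : ℤ) : ℝ) + 1/2) + (n * t + t / 2) := by
      simp [k1, k2]; ring
    rw [this, ee_add, ee_int_add_half, ee_add]; ring
  have h3 : ∑ n ∈ K, c (3, n) * ee (k2 (3, n) + k1 (3, n) * t) = ee (t/2) * ff K c 3 t := by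
    unfold ff; rw [Finset.mul_sum]
    refine Finset.sum_congr rfl fun n _ => ?_
    have : k2 (3, n) + k1 (3, n) * t = ((-n : ℤ) : ℝ) + (n * t + t / 2) := by
      simp [k1, k2]; ring
    rw [this, ee_add, ee_int, ee_add]; ring
  rw [h0, h1, h2, h3]; ring

lemma lef_eq (t : ℝ) : ∑ i ∈ Finset.univ ×ˢ K, c i * ee (k2 i * t) =
    (ff K c 0 t + ee (t/2) * ff K c 1 t) + (ee (-(t/2)) * ff K c 2 (-t) + ff K c 3 (-t)) := by
  rw [sum4]
  have h0 : ∑ n ∈ K, c (0, n) * ee (k2 (0, n) * t) = ff K c 0 t := rfl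
  have h1 : ∑ n ∈ K, c (1, n) * ee (k2 (1, n) * t) = ee (t/2) * ff K c 1 t := by
    unfold ff; rw [Finset.mul_sum]
    refine Finset.sum_congr rfl fun n _ => ?_
    have : k2 (1, n) * t = n * t + t / 2 := by simp [k2]; ring
    rw [this, ee_add]; ring
  have h2 : ∑ n ∈ K, c (2, n) * ee (k2 (2, n) * t) = ee (-(t/2)) * ff K c 2 (-t) := by
    unfold ff; rw [Finset.mul_sum]
    refine Finset.sum_congr rfl fun n _ => ?_
    have : k2 (2, n) * t = n * (-t) + -(t / 2) := by simp [k2]; ring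
    rw [this, ee_add]; ring
  have h3 : ∑ n ∈ K, c (3, n) * ee (k2 (3, n) * t) = ff K c 3 (-t) := by
    unfold ff
    refine Finset.sum_congr rfl fun n _ => ?_
    have : k2 (3, n) * t = n * (-t) := by simp [k2]
    rw [this]
  rw [h0, h1, h2, h3]; ring

lemma rig_eq (t : ℝ) : ∑ i ∈ Finset.univ ×ˢ K, c i * ee (k1 i + k2 i * t) =
    (ff K c 0 t + ee (t/2) * ff K c 1 t) - (ee (-(t/2)) * ff K c 2 (-t) + ff K c 3 (-t)) := by
  rw [sum4]
  have h0 : ∑ n ∈ K, c (0, n) * ee (k1 (0, n) + k2 (0, n) * t) = ff K c 0 t := by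
    unfold ff
    refine Finset.sum_congr rfl fun n _ => ?_
    have : k1 (0, n) + k2 (0, n) * t = n + n * t := by simp [k1, k2]
    rw [this, ee_add, ee_int, one_mul]
  have h1 : ∑ n ∈ K, c (1, n) * ee (k1 (1, n) + k2 (1, n) * t) = ee (t/2) * ff K c 1 t := by
    unfold ff; rw [Finset.mul_sum]
    refine Finset.sum_congr rfl fun n _ => ?_
    have : k1 (1, n) + k2 (1, n) * t = n + (n * t + t / 2) := by simp [k1, k2]; ring
    rw [this, ee_add, ee_int, ee_add]; ring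
  have h2 : ∑ n ∈ K, c (2, n) * ee (k1 (2, n) + k2 (2, n) * t) =
      - (ee (-(t/2)) * ff K c 2 (-t)) := by
    unfold ff; rw [Finset.mul_sum, ← Finset.sum_neg_distrib]
    refine Finset.sum_congr rfl fun n _ => ?_
    have : k1 (2, n) + k2 (2, n) * t = ((n:ℝ) + 1/2) + (n * (-t) + -(t / 2)) := by
      simp [k1, k2]; ring
    rw [this, ee_add, ee_int_add_half, ee_add]; ring
  have h3 : ∑ n ∈ K, c (3, n) * ee (k1 (3, n) + k2 (3, n) * t) = - ff K c 3 (-t) := by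
    unfold ff; rw [← Finset.sum_neg_distrib]
    refine Finset.sum_congr rfl fun n _ => ?_
    have : k1 (3, n) + k2 (3, n) * t = ((n:ℝ) + 1/2) + n * (-t) := by
      simp [k1, k2]
    rw [this, ee_add, ee_int_add_half]; ring
  rw [h0, h1, h2, h3]; ring

lemma para (x y : ℂ) : ‖x + y‖ ^ 2 + ‖x - y‖ ^ 2 = 2 * (‖x‖ ^ 2 + ‖y‖ ^ 2) := by
  have := parallelogram_law_with_norm ℝ x y
  nlinarith

lemma paraInt {x y : ℝ → ℂ} (hx : Continuous x) (hy : Continuous y) :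
    (∫ t in (0:ℝ)..1, ‖x t + y t‖ ^ 2) + (∫ t in (0:ℝ)..1, ‖x t - y t‖ ^ 2) =
      2 * ((∫ t in (0:ℝ)..1, ‖x t‖ ^ 2) + ∫ t in (0:ℝ)..1, ‖y t‖ ^ 2) := by
  have hci : ∀ {f : ℝ → ℂ}, Continuous f → IntervalIntegrable (fun t => ‖f t‖ ^ 2) volume 0 1 :=
    fun hf => (hf.norm.pow 2).intervalIntegrable _ _
  have h1 : IntervalIntegrable (fun t => ‖x t + y t‖ ^ 2) volume 0 1 := hci (hx.add hy)
  have h2 : IntervalIntegrable (fun t => ‖x t - y t‖ ^ 2) volume 0 1 := hci (hx.sub hy)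
  rw [← intervalIntegral.integral_add h1 h2]
  simp_rw [para]
  rw [intervalIntegral.integral_const_mul, intervalIntegral.integral_add (hci hx) (hci hy)]

/-- the four building blocks -/
noncomputable def g1 (t : ℝ) : ℂ := ff K c 0 t + ee (t/2) * ff K c 3 t
noncomputable def g2 (t : ℝ) : ℂ := ff K c 1 t + ee (t/2) * ff K c 2 t
noncomputable def g3 (t : ℝ) : ℂ := ff K c 0 t + ee (t/2) * ff K c 1 t
noncomputable def g4 (t : ℝ) : ℂ := ff K c 3 t - ee (t/2) * ff K c 2 t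

lemma hz : Continuous fun t : ℝ => ee (t/2) := continuous_ee.comp (continuous_id.div_const 2)

lemma g1_cont : Continuous (g1 K c) := (ff_cont K c 0).add (hz.mul (ff_cont K c 3))
lemma g2_cont : Continuous (g2 K c) := (ff_cont K c 1).add (hz.mul (ff_cont K c 2))
lemma g3_cont : Continuous (g3 K c) := (ff_cont K c 0).add (hz.mul (ff_cont K c 1))
lemma g4_cont : Continuous (g4 K c) := (ff_cont K c 3).sub (hz.mul (ff_cont K c 2))

lemma int_refl : ∫ t in (0:ℝ)..1, ‖ee (-(t/2)) * ff K c 2 (-t) + ff K c 3 (-t)‖ ^ 2 =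
    ∫ t in (0:ℝ)..1, ‖g4 K c t‖ ^ 2 := by
  have h := intervalIntegral.integral_comp_sub_left
    (fun t => ‖ee (-(t/2)) * ff K c 2 (-t) + ff K c 3 (-t)‖ ^ 2) (1:ℝ) (a := 0) (b := 1)
  rw [sub_self, sub_zero] at h
  rw [← h]
  refine intervalIntegral.integral_congr fun t _ => ?_
  show ‖ee (-((1 - t)/2)) * ff K c 2 (-(1 - t)) + ff K c 3 (-(1 - t))‖ ^ 2 = ‖g4 K c t‖ ^ 2
  have e1 : -(1 - t) = t - 1 := by ring
  rw [e1, ff_per, ff_per]
  have e2 : ee (-((1 - t)/2)) = - ee (t/2) := by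
    rw [show -((1 - t)/2) = (((-1 : ℤ) : ℝ) + 1/2) + t/2 by push_cast; ring, ee_add,
      ee_int_add_half]; ring
  rw [e2]
  congr 2
  unfold g4; ring

lemma sq_add_le (x y : ℂ) : ‖x + y‖ ^ 2 ≤ 2 * (‖x‖ ^ 2 + ‖y‖ ^ 2) := by
  have := para x y
  have := sq_nonneg ‖x - y‖
  linarith

lemma sq_sub_le (x y : ℂ) : ‖x - y‖ ^ 2 ≤ 2 * (‖x‖ ^ 2 + ‖y‖ ^ 2) := by
  have := para x y
  have := sq_nonneg ‖x + y‖
  linarith

/-- pointwise inequalities -/
lemma ptw (z a b c d : ℂ) (hz : ‖z‖ = 1) :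
    (1/2) * (‖a‖ ^ 2 + ‖b‖ ^ 2 + ‖c‖ ^ 2 + ‖d‖ ^ 2) ≤
      (‖a + z * d‖ ^ 2 + ‖b + z * c‖ ^ 2) + (‖a + z * b‖ ^ 2 + ‖d - z * c‖ ^ 2) ∧
    (‖a + z * d‖ ^ 2 + ‖b + z * c‖ ^ 2) + (‖a + z * b‖ ^ 2 + ‖d - z * c‖ ^ 2) ≤
      4 * (‖a‖ ^ 2 + ‖b‖ ^ 2 + ‖c‖ ^ 2 + ‖d‖ ^ 2) := by
  have hm : ∀ w : ℂ, ‖z * w‖ = ‖w‖ := fun w => by rw [norm_mul, hz, one_mul]
  constructor
  · -- `b, d`
    have h1 : 2 * (‖b‖ ^ 2 + ‖d‖ ^ 2) ≤ 2 * (‖a + z * d‖ ^ 2 + ‖a + z * b‖ ^ 2) +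
        2 * (‖b + z * c‖ ^ 2 + ‖d - z * c‖ ^ 2) := by
      have e1 := para b d
      have e2 := sq_sub_le (a + z * b) (a + z * d)
      have e3 : ‖(a + z * b) - (a + z * d)‖ = ‖b - d‖ := by
        rw [show (a + z * b) - (a + z * d) = z * (b - d) by ring, hm]
      rw [e3] at e2
      have e4 := sq_add_le (b + z * c) (d - z * c)
      have e5 : (b + z * c) + (d - z * c) = b + d := by ring
      rw [e5] at e4
      linarith
    have h2 : 2 * (‖a‖ ^ 2 + ‖c‖ ^ 2) ≤ 2 * (‖a + z * b‖ ^ 2 + ‖b + z * c‖ ^ 2) +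
        2 * (‖a + z * d‖ ^ 2 + ‖d - z * c‖ ^ 2) := by
      have e1 := para a (z * (z * c))
      rw [hm, hm] at e1
      have e2 := sq_sub_le (a + z * b) (z * (b + z * c))
      rw [hm] at e2
      have e3 : (a + z * b) - z * (b + z * c) = a - z * (z * c) := by ring
      rw [e3] at e2
      have e4 := sq_sub_le (a + z * d) (z * (d - z * c))
      rw [hm] at e4
      have e5 : (a + z * d) - z * (d - z * c) = a + z * (z * c) := by ring
      rw [e5] at e4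
      linarith
    linarith
  · have h1 := sq_add_le a (z * d)
    have h2 := sq_add_le b (z * c)
    have h3 := sq_add_le a (z * b)
    have h4 := sq_sub_le d (z * c)
    rw [hm] at h1 h2 h3 h4
    linarith

/-- the two-sided inequality -/
theorem core1 {p q m M : ℝ} (hm : 0 < m) (hmp : m ≤ p) (hmq : m ≤ q) (hpM : p ≤ M) (hqM : q ≤ M) :
    let I := p * (∫ t in (0:ℝ)..1, ‖∑ i ∈ Finset.univ ×ˢ K, c i * ee (k1 i * t)‖ ^ 2) +
      p * (∫ t in (0:ℝ)..1, ‖∑ i ∈ Finset.univ ×ˢ K, c i * ee (k2 i + k1 i * t)‖ ^ 2) +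
      (q * (∫ t in (0:ℝ)..1, ‖∑ i ∈ Finset.univ ×ˢ K, c i * ee (k2 i * t)‖ ^ 2) +
      q * (∫ t in (0:ℝ)..1, ‖∑ i ∈ Finset.univ ×ˢ K, c i * ee (k1 i + k2 i * t)‖ ^ 2))
    m * ∑ i ∈ Finset.univ ×ˢ K, ‖c i‖ ^ 2 ≤ I ∧ I ≤ 8 * M * ∑ i ∈ Finset.univ ×ˢ K, ‖c i‖ ^ 2 := by
  intro I
  have hci : ∀ {f : ℝ → ℂ}, Continuous f → IntervalIntegrable (fun t => ‖f t‖ ^ 2) volume 0 1 :=
    fun hf => (hf.norm.pow 2).intervalIntegrable _ _
  set J1 := ∫ t in (0:ℝ)..1, ‖g1 K c t‖ ^ 2 with hJ1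
  set J2 := ∫ t in (0:ℝ)..1, ‖g2 K c t‖ ^ 2 with hJ2
  set J3 := ∫ t in (0:ℝ)..1, ‖g3 K c t‖ ^ 2 with hJ3
  set J4 := ∫ t in (0:ℝ)..1, ‖g4 K c t‖ ^ 2 with hJ4
  have hJnn : ∀ {f : ℝ → ℂ}, 0 ≤ ∫ t in (0:ℝ)..1, ‖f t‖ ^ 2 := by
    intro f
    exact intervalIntegral.integral_nonneg zero_le_one fun t _ => by positivity
  have hBT : (∫ t in (0:ℝ)..1, ‖∑ i ∈ Finset.univ ×ˢ K, c i * ee (k1 i * t)‖ ^ 2) +
      (∫ t in (0:ℝ)..1, ‖∑ i ∈ Finset.univ ×ˢ K, c i * ee (k2 i + k1 i * t)‖ ^ 2) =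
      2 * (J1 + J2) := by
    have e1 : ∀ t : ℝ, ∑ i ∈ Finset.univ ×ˢ K, c i * ee (k1 i * t) = g1 K c t + g2 K c t :=
      fun t => bot_eq K c t
    have e2 : ∀ t : ℝ, ∑ i ∈ Finset.univ ×ˢ K, c i * ee (k2 i + k1 i * t) =
      g1 K c t - g2 K c t := fun t => top_eq K c t
    simp_rw [e1, e2]
    exact paraInt (g1_cont K c) (g2_cont K c)
  have hLR : (∫ t in (0:ℝ)..1, ‖∑ i ∈ Finset.univ ×ˢ K, c i * ee (k2 i * t)‖ ^ 2) +
      (∫ t in (0:ℝ)..1, ‖∑ i ∈ Finset.univ ×ˢ K, c i * ee (k1 i + k2 i * t)‖ ^ 2) =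
      2 * (J3 + J4) := by
    have hw : Continuous fun t : ℝ => ee (-(t/2)) * ff K c 2 (-t) + ff K c 3 (-t) :=
      ((continuous_ee.comp (continuous_id.div_const 2).neg).mul ((ff_cont K c 2).comp
        continuous_neg)).add ((ff_cont K c 3).comp continuous_neg)
    have e1 : ∀ t : ℝ, ∑ i ∈ Finset.univ ×ˢ K, c i * ee (k2 i * t) = g3 K c t +
        (ee (-(t/2)) * ff K c 2 (-t) + ff K c 3 (-t)) := fun t => lef_eq K c t
    have e2 : ∀ t : ℝ, ∑ i ∈ Finset.univ ×ˢ K, c i * ee (k1 i + k2 i * t) =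
        g3 K c t - (ee (-(t/2)) * ff K c 2 (-t) + ff K c 3 (-t)) := fun t => rig_eq K c t
    simp_rw [e1, e2]
    rw [paraInt (g3_cont K c) hw, int_refl]
  have hI : I = 2 * p * (J1 + J2) + 2 * q * (J3 + J4) := by
    show p * _ + p * _ + (q * _ + q * _) = _
    rw [← mul_add, ← mul_add, hBT, hLR]; ring
  have hS : J1 + J2 + (J3 + J4) = ∫ t in (0:ℝ)..1, ((‖g1 K c t‖ ^ 2 + ‖g2 K c t‖ ^ 2) +
      (‖g3 K c t‖ ^ 2 + ‖g4 K c t‖ ^ 2)) := by
    rw [intervalIntegral.integral_add ((hci (g1_cont K c)).add (hci (g2_cont K c)))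
      ((hci (g3_cont K c)).add (hci (g4_cont K c))),
      intervalIntegral.integral_add (hci (g1_cont K c)) (hci (g2_cont K c)),
      intervalIntegral.integral_add (hci (g3_cont K c)) (hci (g4_cont K c))]
  have hP : ∑ i ∈ Finset.univ ×ˢ K, ‖c i‖ ^ 2 = ∫ t in (0:ℝ)..1, (‖ff K c 0 t‖ ^ 2 +
      ‖ff K c 1 t‖ ^ 2 + ‖ff K c 2 t‖ ^ 2 + ‖ff K c 3 t‖ ^ 2) := by
    rw [intervalIntegral.integral_add (((hci (ff_cont K c 0)).add (hci (ff_cont K c 1))).add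
      (hci (ff_cont K c 2))) (hci (ff_cont K c 3)),
      intervalIntegral.integral_add ((hci (ff_cont K c 0)).add (hci (ff_cont K c 1)))
      (hci (ff_cont K c 2)),
      intervalIntegral.integral_add (hci (ff_cont K c 0)) (hci (ff_cont K c 1))]
    have hp : ∀ j, ∫ t in (0:ℝ)..1, ‖ff K c j t‖ ^ 2 = ∑ n ∈ K, ‖c (j, n)‖ ^ 2 :=
      fun j => pars K (fun n => c (j, n))
    rw [hp, hp, hp, hp, Finset.sum_product, Fin.sum_univ_four]
  have hcS : Continuous fun t => ((‖g1 K c t‖ ^ 2 + ‖g2 K c t‖ ^ 2) +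
      (‖g3 K c t‖ ^ 2 + ‖g4 K c t‖ ^ 2)) :=
    (((g1_cont K c).norm.pow 2).add ((g2_cont K c).norm.pow 2)).add
      (((g3_cont K c).norm.pow 2).add ((g4_cont K c).norm.pow 2))
  have hcP : Continuous fun t => (‖ff K c 0 t‖ ^ 2 +
      ‖ff K c 1 t‖ ^ 2 + ‖ff K c 2 t‖ ^ 2 + ‖ff K c 3 t‖ ^ 2) :=
    ((((ff_cont K c 0).norm.pow 2).add ((ff_cont K c 1).norm.pow 2)).add
      ((ff_cont K c 2).norm.pow 2)).add ((ff_cont K c 3).norm.pow 2)
  have hlow : (1/2) * ∑ i ∈ Finset.univ ×ˢ K, ‖c i‖ ^ 2 ≤ J1 + J2 + (J3 + J4) := by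
    rw [hS, hP, ← intervalIntegral.integral_const_mul]
    refine intervalIntegral.integral_mono_on zero_le_one
      ((continuous_const.mul hcP).intervalIntegrable _ _) (hcS.intervalIntegrable _ _) ?_
    intro t _
    exact (ptw (ee (t/2)) (ff K c 0 t) (ff K c 1 t) (ff K c 2 t) (ff K c 3 t) (norm_ee _)).1
  have hupp : J1 + J2 + (J3 + J4) ≤ 4 * ∑ i ∈ Finset.univ ×ˢ K, ‖c i‖ ^ 2 := by
    rw [hS, hP, ← intervalIntegral.integral_const_mul]
    refine intervalIntegral.integral_mono_on zero_le_one (hcS.intervalIntegrable _ _)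
      ((continuous_const.mul hcP).intervalIntegrable _ _) ?_
    intro t _
    exact (ptw (ee (t/2)) (ff K c 0 t) (ff K c 1 t) (ff K c 2 t) (ff K c 3 t) (norm_ee _)).2
  have n1 : 0 ≤ J1 := hJnn
  have n2 : 0 ≤ J2 := hJnn
  have n3 : 0 ≤ J3 := hJnn
  have n4 : 0 ≤ J4 := hJnn
  rw [hI]
  constructor
  · have a1 : m * (J1 + J2) ≤ p * (J1 + J2) := mul_le_mul_of_nonneg_right hmp (by linarith)
    have a2 : m * (J3 + J4) ≤ q * (J3 + J4) := mul_le_mul_of_nonneg_right hmq (by linarith)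
    have a3 := mul_le_mul_of_nonneg_left hlow hm.le
    nlinarith
  · have a1 : p * (J1 + J2) ≤ M * (J1 + J2) := mul_le_mul_of_nonneg_right hpM (by linarith)
    have a2 : q * (J3 + J4) ≤ M * (J3 + J4) := mul_le_mul_of_nonneg_right hqM (by linarith)
    have a3 := mul_le_mul_of_nonneg_left hupp (hm.le.trans (hmp.trans hpM))
    nlinarith

end core1

end Q65.ER
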