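import Pool.Agent.Q65.ERb

/-! Completeness of the system of exponentials on the four sides, in one variable. -/

set_option autoImplicit false

open MeasureTheory Set Complex
open scoped Real ComplexConjugate

namespace Q65.ER


lemma mp_refl : MeasurePreserving (fun t : ℝ => 1 - t) (volume.restrict (Ioc (0:ℝ) 1) : Measure ℝ) (volume.restrict (Ioc (0:ℝ) 1) : Measure ℝ) := by
  have h := (Measure.measurePreserving_sub_left (volume : Measure ℝ) (1:ℝ)).restrict_preimage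
    (s := Ioc (0:ℝ) 1) measurableSet_Ioc
  have e : (fun t : ℝ => 1 - t) ⁻¹' Ioc (0:ℝ) 1 = Ico (0:ℝ) 1 := by
    ext t; simp only [mem_preimage, mem_Ioc, mem_Ico]; constructor <;> rintro ⟨h1, h2⟩ <;>
      constructor <;> linarith
  rw [e, restrict_Ico_eq_restrict_Ioc] at h
  exact h

lemma memLp_ee {a : ℝ → ℝ} (ha : Continuous a) {h : ℝ → ℂ} (hh : MemLp h 2 (volume.restrict (Ioc (0:ℝ) 1) : Measure ℝ)) :
    MemLp (fun t => ee (a t) * h t) 2 (volume.restrict (Ioc (0:ℝ) 1) : Measure ℝ) := by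
  refine hh.of_le ((continuous_ee.comp ha).aestronglyMeasurable.mul hh.1) ?_
  filter_upwards with t
  rw [norm_mul, norm_ee, one_mul]

lemma ii {h : ℝ → ℂ} (hh : MemLp h 2 (volume.restrict (Ioc (0:ℝ) 1) : Measure ℝ)) : IntervalIntegrable h volume 0 1 := by
  rw [intervalIntegrable_iff_integrableOn_Ioc_of_le zero_le_one]
  exact hh.integrable one_le_two

lemma swap (F : ℝ → ℂ) : ∫ t in (0:ℝ)..1, F t = ∫ t in (0:ℝ)..1, F (1 - t) := by
  have h := intervalIntegral.integral_comp_sub_left F (1:ℝ) (a := 0) (b := 1)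
  rw [sub_self, sub_zero] at h
  exact h.symm

theorem core2 {p q : ℝ} (hp : 0 < p) (hq : 0 < q) {hB hT hL hR : ℝ → ℂ}
    (mB : MemLp hB 2 (volume.restrict (Ioc (0:ℝ) 1) : Measure ℝ)) (mT : MemLp hT 2 (volume.restrict (Ioc (0:ℝ) 1) : Measure ℝ)) (mL : MemLp hL 2 (volume.restrict (Ioc (0:ℝ) 1) : Measure ℝ)) (mR : MemLp hR 2 (volume.restrict (Ioc (0:ℝ) 1) : Measure ℝ))
    (H : ∀ i : Fin 4 × ℤ,
      (p:ℂ) * (∫ t in (0:ℝ)..1, ee (-(k1 i * t)) * hB t) +
      (p:ℂ) * (∫ t in (0:ℝ)..1, ee (-(k2 i + k1 i * t)) * hT t) +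
      ((q:ℂ) * (∫ t in (0:ℝ)..1, ee (-(k2 i * t)) * hL t) +
      (q:ℂ) * (∫ t in (0:ℝ)..1, ee (-(k1 i + k2 i * t)) * hR t)) = 0) :
    (hB =ᵐ[(volume.restrict (Ioc (0:ℝ) 1) : Measure ℝ)] 0 ∧ hT =ᵐ[(volume.restrict (Ioc (0:ℝ) 1) : Measure ℝ)] 0) ∧ (hL =ᵐ[(volume.restrict (Ioc (0:ℝ) 1) : Measure ℝ)] 0 ∧ hR =ᵐ[(volume.restrict (Ioc (0:ℝ) 1) : Measure ℝ)] 0) := by
  have hpC : (p:ℂ) ≠ 0 := by exact_mod_cast hp.ne'
  have hqC : (q:ℂ) ≠ 0 := by exact_mod_cast hq.ne'
  have mLr : MemLp (fun t => hL (1 - t)) 2 (volume.restrict (Ioc (0:ℝ) 1) : Measure ℝ) := mL.comp_measurePreserving mp_refl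
  have mRr : MemLp (fun t => hR (1 - t)) 2 (volume.restrict (Ioc (0:ℝ) 1) : Measure ℝ) := mR.comp_measurePreserving mp_refl
  have cn : ∀ n : ℤ, Continuous fun t : ℝ => -((n:ℝ) * t) := fun n => by fun_prop
  have ch : Continuous fun t : ℝ => -(t/2) := by fun_prop
  -- combination of four integrals
  have comb : ∀ (x y z w : ℝ → ℂ), MemLp x 2 (volume.restrict (Ioc (0:ℝ) 1) : Measure ℝ) → MemLp y 2 (volume.restrict (Ioc (0:ℝ) 1) : Measure ℝ) → MemLp z 2 (volume.restrict (Ioc (0:ℝ) 1) : Measure ℝ) → MemLp w 2 (volume.restrict (Ioc (0:ℝ) 1) : Measure ℝ) →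
      (p:ℂ) * (∫ t in (0:ℝ)..1, x t) + (p:ℂ) * (∫ t in (0:ℝ)..1, y t) +
      ((q:ℂ) * (∫ t in (0:ℝ)..1, z t) + (q:ℂ) * (∫ t in (0:ℝ)..1, w t)) =
      ∫ t in (0:ℝ)..1, (((p:ℂ) * x t + (p:ℂ) * y t) + ((q:ℂ) * z t + (q:ℂ) * w t)) := by
    intro x y z w hx hy hz hw
    rw [intervalIntegral.integral_add (((ii hx).const_mul _).add ((ii hy).const_mul _))
      (((ii hz).const_mul _).add ((ii hw).const_mul _)),
      intervalIntegral.integral_add ((ii hx).const_mul _) ((ii hy).const_mul _),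
      intervalIntegral.integral_add ((ii hz).const_mul _) ((ii hw).const_mul _),
      intervalIntegral.integral_const_mul, intervalIntegral.integral_const_mul,
      intervalIntegral.integral_const_mul, intervalIntegral.integral_const_mul]
  have memcomb : ∀ (x y z w : ℝ → ℂ), MemLp x 2 (volume.restrict (Ioc (0:ℝ) 1) : Measure ℝ) → MemLp y 2 (volume.restrict (Ioc (0:ℝ) 1) : Measure ℝ) → MemLp z 2 (volume.restrict (Ioc (0:ℝ) 1) : Measure ℝ) → MemLp w 2 (volume.restrict (Ioc (0:ℝ) 1) : Measure ℝ) →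
      MemLp (fun t => (((p:ℂ) * x t + (p:ℂ) * y t) + ((q:ℂ) * z t + (q:ℂ) * w t))) 2 (volume.restrict (Ioc (0:ℝ) 1) : Measure ℝ) := by
    intro x y z w hx hy hz hw
    exact ((hx.const_mul _).add (hy.const_mul _)).add ((hz.const_mul _).add (hw.const_mul _))
  -- the four equations
  have E0 : (fun t => (((p:ℂ) * hB t + (p:ℂ) * hT t) + ((q:ℂ) * hL t + (q:ℂ) * hR t))) =ᵐ[(volume.restrict (Ioc (0:ℝ) 1) : Measure ℝ)] 0 := by
    refine uniq (memcomb _ _ _ _ mB mT mL mR) fun n => ?_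
    have h := H (0, n)
    rw [comb _ _ _ _ (memLp_ee (by fun_prop) mB) (memLp_ee (by fun_prop) mT)
      (memLp_ee (by fun_prop) mL) (memLp_ee (by fun_prop) mR)] at h
    rw [← h]
    refine intervalIntegral.integral_congr fun t _ => ?_
    have a1 : ee (-(k1 (0, n) * t)) = ee (-(n * t)) := rfl
    have a2 : ee (-(k2 (0, n) + k1 (0, n) * t)) = ee (-(n * t)) := by
      rw [show -(k2 (0, n) + k1 (0, n) * t) = ((-n : ℤ) : ℝ) + -(n * t) by
        simp [k1, k2]; ring, ee_add, ee_int, one_mul]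
    have a3 : ee (-(k2 (0, n) * t)) = ee (-(n * t)) := rfl
    have a4 : ee (-(k1 (0, n) + k2 (0, n) * t)) = ee (-(n * t)) := by
      rw [show -(k1 (0, n) + k2 (0, n) * t) = ((-n : ℤ) : ℝ) + -(n * t) by
        simp [k1, k2]; ring, ee_add, ee_int, one_mul]
    simp only [a1, a2, a3, a4]; ring
  have E1 : (fun t => (((p:ℂ) * hB t + (p:ℂ) * (- hT t)) +
      ((q:ℂ) * (ee (-(t/2)) * hL t) + (q:ℂ) * (ee (-(t/2)) * hR t)))) =ᵐ[(volume.restrict (Ioc (0:ℝ) 1) : Measure ℝ)] 0 := by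
    refine uniq (memcomb _ _ _ _ mB mT.neg (memLp_ee ch mL) (memLp_ee ch mR)) fun n => ?_
    have h := H (1, n)
    rw [comb _ _ _ _ (memLp_ee (by fun_prop) mB) (memLp_ee (by fun_prop) mT)
      (memLp_ee (by fun_prop) mL) (memLp_ee (by fun_prop) mR)] at h
    rw [← h]
    refine intervalIntegral.integral_congr fun t _ => ?_
    have a1 : ee (-(k1 (1, n) * t)) = ee (-(n * t)) := rfl
    have a2 : ee (-(k2 (1, n) + k1 (1, n) * t)) = - ee (-(n * t)) := by
      rw [show -(k2 (1, n) + k1 (1, n) * t) = (((-n - 1 : ℤ) : ℝ) + 1/2) + -(n * t) by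
        simp [k1, k2]; ring, ee_add, ee_int_add_half]; ring
    have a3 : ee (-(k2 (1, n) * t)) = ee (-(n * t)) * ee (-(t/2)) := by
      rw [← ee_add]; congr 1; simp [k2]; ring
    have a4 : ee (-(k1 (1, n) + k2 (1, n) * t)) = ee (-(n * t)) * ee (-(t/2)) := by
      rw [show -(k1 (1, n) + k2 (1, n) * t) = ((-n : ℤ) : ℝ) + (-(n * t) + -(t/2)) by
        simp [k1, k2]; ring, ee_add, ee_int, one_mul, ee_add]
    simp only [a1, a2, a3, a4]; ring
  have E2 : (fun t => (((p:ℂ) * (ee (-(t/2)) * hB t) + (p:ℂ) * (- (ee (-(t/2)) * hT t))) +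
      ((q:ℂ) * (-(ee (-(t/2)) * hL (1 - t))) + (q:ℂ) * (ee (-(t/2)) * hR (1 - t))))) =ᵐ[(volume.restrict (Ioc (0:ℝ) 1) : Measure ℝ)] 0 := by
    refine uniq (memcomb _ _ _ _ (memLp_ee ch mB) (memLp_ee ch mT).neg (memLp_ee ch mLr).neg
      (memLp_ee ch mRr)) fun n => ?_
    have h := H (2, n)
    rw [swap (fun t => ee (-(k2 (2, n) * t)) * hL t),
      swap (fun t => ee (-(k1 (2, n) + k2 (2, n) * t)) * hR t)] at h
    rw [comb _ _ _ _ (memLp_ee (by fun_prop) mB) (memLp_ee (by fun_prop) mT)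
      (memLp_ee (by fun_prop) mLr) (memLp_ee (by fun_prop) mRr)] at h
    rw [← h]
    refine intervalIntegral.integral_congr fun t _ => ?_
    have a1 : ee (-(k1 (2, n) * t)) = ee (-(n * t)) * ee (-(t/2)) := by
      rw [← ee_add]; congr 1; simp [k1]; ring
    have a2 : ee (-(k2 (2, n) + k1 (2, n) * t)) = - (ee (-(n * t)) * ee (-(t/2))) := by
      rw [show -(k2 (2, n) + k1 (2, n) * t) = ((n : ℤ) + 1/2) + (-(n * t) + -(t/2)) by
        simp [k1, k2]; ring, ee_add, ee_int_add_half, ee_add]; ring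
    have a3 : ee (-(k2 (2, n) * (1 - t))) = - (ee (-(n * t)) * ee (-(t/2))) := by
      rw [show -(k2 (2, n) * (1 - t)) = ((n : ℤ) + 1/2) + (-(n * t) + -(t/2)) by
        simp [k2]; ring, ee_add, ee_int_add_half, ee_add]; ring
    have a4 : ee (-(k1 (2, n) + k2 (2, n) * (1 - t))) = ee (-(n * t)) * ee (-(t/2)) := by
      rw [show -(k1 (2, n) + k2 (2, n) * (1 - t)) = (-(n * t) + -(t/2)) by
        simp [k1, k2]; ring, ee_add]
    simp only [a1, a2, a3, a4]; ring
  have E3 : (fun t => (((p:ℂ) * (ee (-(t/2)) * hB t) + (p:ℂ) * (ee (-(t/2)) * hT t)) +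
      ((q:ℂ) * (hL (1 - t)) + (q:ℂ) * (- hR (1 - t))))) =ᵐ[(volume.restrict (Ioc (0:ℝ) 1) : Measure ℝ)] 0 := by
    refine uniq (memcomb _ _ _ _ (memLp_ee ch mB) (memLp_ee ch mT) mLr mRr.neg) fun n => ?_
    have h := H (3, n)
    rw [swap (fun t => ee (-(k2 (3, n) * t)) * hL t),
      swap (fun t => ee (-(k1 (3, n) + k2 (3, n) * t)) * hR t)] at h
    rw [comb _ _ _ _ (memLp_ee (by fun_prop) mB) (memLp_ee (by fun_prop) mT)
      (memLp_ee (by fun_prop) mLr) (memLp_ee (by fun_prop) mRr)] at h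
    rw [← h]
    refine intervalIntegral.integral_congr fun t _ => ?_
    have a1 : ee (-(k1 (3, n) * t)) = ee (-(n * t)) * ee (-(t/2)) := by
      rw [← ee_add]; congr 1; simp [k1]; ring
    have a2 : ee (-(k2 (3, n) + k1 (3, n) * t)) = ee (-(n * t)) * ee (-(t/2)) := by
      rw [show -(k2 (3, n) + k1 (3, n) * t) = (n : ℤ) + (-(n * t) + -(t/2)) by
        simp [k1, k2]; ring, ee_add, ee_int, one_mul, ee_add]
    have a3 : ee (-(k2 (3, n) * (1 - t))) = ee (-(n * t)) := by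
      rw [show -(k2 (3, n) * (1 - t)) = (n : ℤ) + -(n * t) by
        simp [k2]; ring, ee_add, ee_int, one_mul]
    have a4 : ee (-(k1 (3, n) + k2 (3, n) * (1 - t))) = - ee (-(n * t)) := by
      rw [show -(k1 (3, n) + k2 (3, n) * (1 - t)) = (((-1 : ℤ) : ℝ) + 1/2) + -(n * t) by
        simp [k1, k2]; ring, ee_add, ee_int_add_half]; ring
    simp only [a1, a2, a3, a4]; ring
  -- solve pointwise
  have key : ∀ᵐ t ∂(volume.restrict (Ioc (0:ℝ) 1) : Measure ℝ), hB t = 0 ∧ hT t = 0 ∧ hL t + hR t = 0 ∧ hL (1 - t) - hR (1 - t) = 0 := by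
    filter_upwards [E0, E1, E2, E3] with t e0 e1 e2 e3
    simp only [Pi.zero_apply] at e0 e1 e2 e3
    have hz : ee (-(t/2)) ≠ 0 := by
      intro h; have := norm_ee (-(t/2)); rw [h] at this; simp at this
    set z := ee (-(t/2)) with hzdef
    -- `s = q (hL(1-t) - hR(1-t))`
    have f1 : z * ((p:ℂ) * (hB t - hT t)) = z * ((q:ℂ) * (hL (1 - t) - hR (1 - t))) := by
      linear_combination e2
    have f2 := mul_left_cancel₀ hz f1
    have f3 : (2:ℂ) * (z * ((p:ℂ) * (hB t + hT t))) = 0 := by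
      linear_combination e3 + z * e0 - e1 + f2
    have f4 : hB t + hT t = 0 := by
      have : z * ((p:ℂ) * (hB t + hT t)) = 0 := by
        rcases mul_eq_zero.mp f3 with h | h
        · norm_num at h
        · exact h
      rcases mul_eq_zero.mp this with h | h
      · exact absurd h hz
      · rcases mul_eq_zero.mp h with h | h
        · exact absurd h hpC
        · exact h
    have f5 : hL t + hR t = 0 := by
      have : (q:ℂ) * (hL t + hR t) = 0 := by linear_combination e0 - (p:ℂ) * f4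
      rcases mul_eq_zero.mp this with h | h
      · exact absurd h hqC
      · exact h
    have f6 : hB t - hT t = 0 := by
      have : (p:ℂ) * (hB t - hT t) = 0 := by linear_combination e1 - (q:ℂ) * z * f5
      rcases mul_eq_zero.mp this with h | h
      · exact absurd h hpC
      · exact h
    have f7 : hL (1 - t) - hR (1 - t) = 0 := by
      have : (q:ℂ) * (hL (1 - t) - hR (1 - t)) = 0 := by rw [← f2, f6, mul_zero]
      rcases mul_eq_zero.mp this with h | h
      · exact absurd h hqC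
      · exact h
    refine ⟨by linear_combination (f4 + f6) / 2, by linear_combination (f4 - f6) / 2, f5, f7⟩
  have key2 : ∀ᵐ t ∂(volume.restrict (Ioc (0:ℝ) 1) : Measure ℝ), hL t - hR t = 0 := by
    have h1 : ∀ᵐ t ∂(volume.restrict (Ioc (0:ℝ) 1) : Measure ℝ), hL (1 - t) - hR (1 - t) = 0 := key.mono fun t h => h.2.2.2
    have h2 := mp_refl.quasiMeasurePreserving.ae h1
    filter_upwards [h2] with t ht
    rwa [sub_sub_cancel] at ht
  refine ⟨⟨key.mono fun t h => h.1, key.mono fun t h => h.2.1⟩, ?_, ?_⟩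
  · filter_upwards [key, key2] with t h1 h2
    show hL t = 0
    linear_combination (h1.2.2.1 + h2) / 2
  · filter_upwards [key, key2] with t h1 h2
    show hR t = 0
    linear_combination (h1.2.2.1 - h2) / 2

end Q65.ER
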