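import Pool.Agent.Q65.ERc

/-! The length measure on the boundary of a parallelogram. -/

set_option autoImplicit false

open MeasureTheory Set Complex
open scoped Real ComplexConjugate ENNReal

namespace Q65.ER


abbrev E2 := EuclideanSpace ℝ (Fin 2)

/-- length measure on the segment from `P` to `P + w` -/
noncomputable def eg (P w : E2) : Measure E2 :=
  ENNReal.ofReal ‖w‖ • Measure.map (fun t : ℝ => P + t • w) (volume.restrict (Ioc (0:ℝ) 1) : Measure ℝ)

/-- length measure on the boundary of the parallelogram `P, P+u, P+v, P+u+v` -/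
noncomputable def sig (P u v : E2) : Measure E2 :=
  (eg P u + eg (P + v) u) + (eg P v + eg (P + u) v)

instance (P w : E2) : IsFiniteMeasure (eg P w) := by
  unfold eg
  have : IsFiniteMeasure (Measure.map (fun t : ℝ => P + t • w) (volume.restrict (Ioc (0:ℝ) 1) : Measure ℝ)) := inferInstance
  exact MeasureTheory.Measure.smul_finite _ ENNReal.ofReal_ne_top

instance (P u v : E2) : IsFiniteMeasure (sig P u v) := by
  unfold sig; infer_instance

lemma cont_edge (P w : E2) : Continuous fun t : ℝ => P + t • w := by fun_prop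

lemma integral_eg {G : Type*} [NormedAddCommGroup G] [NormedSpace ℝ G] (P w : E2) {F : E2 → G}
    (hF : AEStronglyMeasurable F (Measure.map (fun t : ℝ => P + t • w) (volume.restrict (Ioc (0:ℝ) 1) : Measure ℝ))) :
    ∫ x, F x ∂(eg P w) = ‖w‖ • ∫ t in (0:ℝ)..1, F (P + t • w) := by
  unfold eg
  rw [integral_smul_measure, integral_map (cont_edge P w).aemeasurable hF,
    ENNReal.toReal_ofReal (norm_nonneg w), intervalIntegral.integral_of_le zero_le_one]

lemma eg_le1 (P u v : E2) : eg P u ≤ sig P u v := by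
  unfold sig; rw [add_assoc]; exact Measure.le_add_right le_rfl
lemma eg_le2 (P u v : E2) : eg (P + v) u ≤ sig P u v := by
  unfold sig; exact (Measure.le_add_left le_rfl).trans (Measure.le_add_right le_rfl)
lemma eg_le3 (P u v : E2) : eg P v ≤ sig P u v := by
  unfold sig; exact (Measure.le_add_right le_rfl).trans (Measure.le_add_left le_rfl)
lemma eg_le4 (P u v : E2) : eg (P + u) v ≤ sig P u v := by
  unfold sig; exact (Measure.le_add_left le_rfl).trans (Measure.le_add_left le_rfl)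

lemma map_le_eg {P w : E2} (hw : w ≠ 0) :
    Measure.map (fun t : ℝ => P + t • w) (volume.restrict (Ioc (0:ℝ) 1) : Measure ℝ) ≤ ENNReal.ofReal ‖w‖⁻¹ • eg P w := by
  unfold eg
  rw [smul_smul, ← ENNReal.ofReal_mul (inv_nonneg.mpr (norm_nonneg w)),
    inv_mul_cancel₀ (norm_ne_zero_iff.mpr hw), ENNReal.ofReal_one, one_smul]

lemma memLp_edge {P w : E2} (hw : w ≠ 0) {μ : Measure E2} (hle : eg P w ≤ μ) {h : E2 → ℂ}
    (hh : MemLp h 2 μ) : MemLp h 2 (Measure.map (fun t : ℝ => P + t • w) (volume.restrict (Ioc (0:ℝ) 1) : Measure ℝ)) := by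
  refine (hh.mono_measure hle).of_measure_le_smul (c := ENNReal.ofReal ‖w‖⁻¹)
    ENNReal.ofReal_ne_top (map_le_eg hw)

lemma memLp_comp {P w : E2} (hw : w ≠ 0) {μ : Measure E2} (hle : eg P w ≤ μ) {h : E2 → ℂ}
    (hh : MemLp h 2 μ) : MemLp (fun t : ℝ => h (P + t • w)) 2 (volume.restrict (Ioc (0:ℝ) 1) : Measure ℝ) :=
  (memLp_map_measure_iff (memLp_edge hw hle hh).1 (cont_edge P w).aemeasurable).mp
    (memLp_edge hw hle hh)

lemma integral_sig {G : Type*} [NormedAddCommGroup G] [NormedSpace ℝ G] {P u v : E2}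
    (hu : u ≠ 0) (hv : v ≠ 0) {F : E2 → G}
    (hF : Integrable F (sig P u v)) :
    ∫ x, F x ∂(sig P u v) =
      (‖u‖ • (∫ t in (0:ℝ)..1, F (P + t • u)) + ‖u‖ • ∫ t in (0:ℝ)..1, F (P + v + t • u)) +
      (‖v‖ • (∫ t in (0:ℝ)..1, F (P + t • v)) + ‖v‖ • ∫ t in (0:ℝ)..1, F (P + u + t • v)) := by
  have m : ∀ {Q w : E2}, w ≠ 0 → eg Q w ≤ sig P u v →
      AEStronglyMeasurable F (Measure.map (fun t : ℝ => Q + t • w) (volume.restrict (Ioc (0:ℝ) 1) : Measure ℝ)) := by
    intro Q w hw hle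
    refine (hF.1.mono_measure hle).mono_ac ?_
    exact (Measure.absolutelyContinuous_of_le (map_le_eg hw)).trans
      Measure.smul_absolutelyContinuous
  have h1 := hF.mono_measure (eg_le1 P u v)
  have h2 := hF.mono_measure (eg_le2 P u v)
  have h3 := hF.mono_measure (eg_le3 P u v)
  have h4 := hF.mono_measure (eg_le4 P u v)
  rw [← integral_eg P u (m hu (eg_le1 P u v)), ← integral_eg (P + v) u (m hu (eg_le2 P u v)),
    ← integral_eg P v (m hv (eg_le3 P u v)), ← integral_eg (P + u) v (m hv (eg_le4 P u v))]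
  unfold sig
  rw [integral_add_measure (h1.add_measure h2) (h3.add_measure h4), integral_add_measure h1 h2,
    integral_add_measure h3 h4]

/-- exponentials -/
noncomputable def ex (l x : E2) : ℂ := ee (inner ℝ l x)

lemma continuous_ex (l : E2) : Continuous (ex l) :=
  continuous_ee.comp (continuous_const.inner continuous_id)

lemma norm_ex (l x : E2) : ‖ex l x‖ = 1 := norm_ee _

lemma ex_add (l x y : E2) : ex l (x + y) = ex l x * ex l y := by
  unfold ex; rw [inner_add_right, ee_add]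

section
variable {P u v : E2} {L : Fin 4 × ℤ → E2}

lemma ex_edge1 (h1 : ∀ i, inner ℝ (L i) u = k1 i) (i : Fin 4 × ℤ) (t : ℝ) :
    ex (L i) (P + t • u) = ex (L i) P * ee (k1 i * t) := by
  rw [ex_add]; congr 1; unfold ex; rw [inner_smul_right, h1, mul_comm]

lemma ex_edge2 (h1 : ∀ i, inner ℝ (L i) u = k1 i) (h2 : ∀ i, inner ℝ (L i) v = k2 i)
    (i : Fin 4 × ℤ) (t : ℝ) :
    ex (L i) (P + v + t • u) = ex (L i) P * ee (k2 i + k1 i * t) := by
  rw [ex_add, ex_add, mul_assoc]; congr 1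
  unfold ex; rw [inner_smul_right, h1, h2, ← ee_add, mul_comm t]

theorem bound (hu : u ≠ 0) (hv : v ≠ 0) (h1 : ∀ i, inner ℝ (L i) u = k1 i)
    (h2 : ∀ i, inner ℝ (L i) v = k2 i) (s : Finset (Fin 4 × ℤ)) (c : Fin 4 × ℤ → ℂ) :
    min ‖u‖ ‖v‖ * ∑ i ∈ s, ‖c i‖ ^ 2 ≤ ∫ x, ‖∑ i ∈ s, c i * ex (L i) x‖ ^ 2 ∂(sig P u v) ∧
    ∫ x, ‖∑ i ∈ s, c i * ex (L i) x‖ ^ 2 ∂(sig P u v) ≤
      8 * max ‖u‖ ‖v‖ * ∑ i ∈ s, ‖c i‖ ^ 2 := by
  classical
  set K : Finset ℤ := s.image Prod.snd with hK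
  have hsK : s ⊆ Finset.univ ×ˢ K := by
    intro i hi
    exact Finset.mem_product.mpr ⟨Finset.mem_univ _, Finset.mem_image_of_mem _ hi⟩
  set c' : Fin 4 × ℤ → ℂ := fun i => if i ∈ s then c i * ex (L i) P else 0 with hc'
  have hn : ∑ i ∈ Finset.univ ×ˢ K, ‖c' i‖ ^ 2 = ∑ i ∈ s, ‖c i‖ ^ 2 := by
    rw [← Finset.sum_subset hsK]
    · refine Finset.sum_congr rfl fun i hi => ?_
      simp only [hc', if_pos hi, norm_mul, norm_ex, mul_one]
    · intro i _ hi
      simp only [hc', if_neg hi]; simp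
  have hsum : ∀ g : Fin 4 × ℤ → ℂ, ∑ i ∈ s, c i * (ex (L i) P * g i) =
      ∑ i ∈ Finset.univ ×ˢ K, c' i * g i := by
    intro g
    rw [← Finset.sum_subset hsK]
    · refine Finset.sum_congr rfl fun i hi => ?_
      simp only [hc', if_pos hi]; ring
    · intro i _ hi
      simp only [hc', if_neg hi, zero_mul]
  have hFc : Continuous fun x => ‖∑ i ∈ s, c i * ex (L i) x‖ ^ 2 :=
    ((continuous_finsetSum _ fun i _ => continuous_const.mul (continuous_ex (L i))).norm.pow 2)
  have hF : Integrable (fun x => ‖∑ i ∈ s, c i * ex (L i) x‖ ^ 2) (sig P u v) := by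
    refine Integrable.of_bound hFc.aestronglyMeasurable ((∑ i ∈ s, ‖c i‖) ^ 2) ?_
    filter_upwards with x
    rw [Real.norm_eq_abs, abs_of_nonneg (by positivity)]
    refine pow_le_pow_left₀ (norm_nonneg _) ((norm_sum_le _ _).trans ?_) 2
    exact Finset.sum_le_sum fun i _ => by rw [norm_mul, norm_ex, mul_one]
  rw [integral_sig hu hv hF]
  have e1 : ∀ t : ℝ, ∑ i ∈ s, c i * ex (L i) (P + t • u) =
      ∑ i ∈ Finset.univ ×ˢ K, c' i * ee (k1 i * t) := by
    intro t; rw [← hsum]; exact Finset.sum_congr rfl fun i _ => by rw [ex_edge1 h1]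
  have e2 : ∀ t : ℝ, ∑ i ∈ s, c i * ex (L i) (P + v + t • u) =
      ∑ i ∈ Finset.univ ×ˢ K, c' i * ee (k2 i + k1 i * t) := by
    intro t; rw [← hsum]; exact Finset.sum_congr rfl fun i _ => by rw [ex_edge2 h1 h2]
  have e3 : ∀ t : ℝ, ∑ i ∈ s, c i * ex (L i) (P + t • v) =
      ∑ i ∈ Finset.univ ×ˢ K, c' i * ee (k2 i * t) := by
    intro t; rw [← hsum]
    refine Finset.sum_congr rfl fun i _ => ?_
    rw [ex_add]; congr 2; unfold ex; rw [inner_smul_right, h2, mul_comm]
  have e4 : ∀ t : ℝ, ∑ i ∈ s, c i * ex (L i) (P + u + t • v) =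
      ∑ i ∈ Finset.univ ×ˢ K, c' i * ee (k1 i + k2 i * t) := by
    intro t; rw [← hsum]
    refine Finset.sum_congr rfl fun i _ => ?_
    rw [ex_add, ex_add, mul_assoc (ex (L i) P)]; congr 2
    unfold ex; rw [inner_smul_right, h1, h2, ← ee_add, mul_comm t]
  simp_rw [e1, e2, e3, e4, smul_eq_mul]
  have hm : 0 < min ‖u‖ ‖v‖ := lt_min (norm_pos_iff.mpr hu) (norm_pos_iff.mpr hv)
  have := core1 K c' hm (min_le_left _ _) (min_le_right _ _) (le_max_left ‖u‖ ‖v‖)
    (le_max_right ‖u‖ ‖v‖)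
  rw [hn] at this
  exact this

theorem complete (hu : u ≠ 0) (hv : v ≠ 0) (h1 : ∀ i, inner ℝ (L i) u = k1 i)
    (h2 : ∀ i, inner ℝ (L i) v = k2 i) {h : E2 → ℂ} (hh : MemLp h 2 (sig P u v))
    (H : ∀ i, ∫ x, conj (ex (L i) x) * h x ∂(sig P u v) = 0) : h =ᵐ[sig P u v] 0 := by
  have mB := memLp_comp hu (eg_le1 P u v) hh
  have mT := memLp_comp hu (eg_le2 P u v) hh
  have mL := memLp_comp hv (eg_le3 P u v) hh
  have mR := memLp_comp hv (eg_le4 P u v) hh
  have hP : ∀ i, conj (ex (L i) P) ≠ 0 := by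
    intro i h
    have := norm_ex (L i) P
    rw [← Complex.norm_conj, h] at this
    simp at this
  have key := core2 (norm_pos_iff.mpr hu) (norm_pos_iff.mpr hv) mB mT mL mR (by
    intro i
    have hI : Integrable (fun x => conj (ex (L i) x) * h x) (sig P u v) := by
      have h3 : MemLp (fun x => conj (ex (L i) x) * h x) 2 (sig P u v) := by
        refine hh.of_le ((continuous_conj.comp (continuous_ex (L i))).aestronglyMeasurable.mul
          hh.1) ?_
        filter_upwards with x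
        rw [norm_mul, Complex.norm_conj, norm_ex, one_mul]
      exact h3.integrable one_le_two
    have h4 := H i
    rw [integral_sig hu hv hI] at h4
    have e1 : ∀ t : ℝ, conj (ex (L i) (P + t • u)) * h (P + t • u) =
        conj (ex (L i) P) * (ee (-(k1 i * t)) * h (P + t • u)) := by
      intro t; rw [ex_edge1 h1, map_mul, conj_ee]; ring
    have e2 : ∀ t : ℝ, conj (ex (L i) (P + v + t • u)) * h (P + v + t • u) =
        conj (ex (L i) P) * (ee (-(k2 i + k1 i * t)) * h (P + v + t • u)) := by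
      intro t; rw [ex_edge2 h1 h2, map_mul, conj_ee]; ring
    have e3 : ∀ t : ℝ, conj (ex (L i) (P + t • v)) * h (P + t • v) =
        conj (ex (L i) P) * (ee (-(k2 i * t)) * h (P + t • v)) := by
      intro t
      have : ex (L i) (P + t • v) = ex (L i) P * ee (k2 i * t) := by
        rw [ex_add]; congr 1; unfold ex; rw [inner_smul_right, h2, mul_comm]
      rw [this, map_mul, conj_ee]; ring
    have e4 : ∀ t : ℝ, conj (ex (L i) (P + u + t • v)) * h (P + u + t • v) =
        conj (ex (L i) P) * (ee (-(k1 i + k2 i * t)) * h (P + u + t • v)) := by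
      intro t
      have : ex (L i) (P + u + t • v) = ex (L i) P * ee (k1 i + k2 i * t) := by
        rw [ex_add, ex_add, mul_assoc]; congr 1
        unfold ex; rw [inner_smul_right, h1, h2, ← ee_add, mul_comm t]
      rw [this, map_mul, conj_ee]; ring
    simp_rw [e1, e2, e3, e4, intervalIntegral.integral_const_mul, Complex.real_smul] at h4
    have h5 : conj (ex (L i) P) * ((((‖u‖:ℝ):ℂ) * (∫ t in (0:ℝ)..1, ee (-(k1 i * t)) * h (P + t • u)) +
        ((‖u‖:ℝ):ℂ) * (∫ t in (0:ℝ)..1, ee (-(k2 i + k1 i * t)) * h (P + v + t • u))) +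
        (((‖v‖:ℝ):ℂ) * (∫ t in (0:ℝ)..1, ee (-(k2 i * t)) * h (P + t • v)) +
        ((‖v‖:ℝ):ℂ) * (∫ t in (0:ℝ)..1, ee (-(k1 i + k2 i * t)) * h (P + u + t • v)))) = 0 := by
      rw [← h4]; ring
    rcases mul_eq_zero.mp h5 with h6 | h6
    · exact absurd h6 (hP i)
    · exact h6)
  obtain ⟨⟨kB, kT⟩, kL, kR⟩ := key
  have conv : ∀ {Q w : E2}, w ≠ 0 → eg Q w ≤ sig P u v →
      (fun t : ℝ => h (Q + t • w)) =ᵐ[(volume.restrict (Ioc (0:ℝ) 1) : Measure ℝ)] 0 → h =ᵐ[eg Q w] 0 := by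
    intro Q w hw hle hz
    have hm : AEStronglyMeasurable h (Measure.map (fun t : ℝ => Q + t • w) (volume.restrict (Ioc (0:ℝ) 1) : Measure ℝ)) :=
      (memLp_edge hw hle hh).1
    have h3 : ∀ᵐ x ∂(Measure.map (fun t : ℝ => Q + t • w) (volume.restrict (Ioc (0:ℝ) 1) : Measure ℝ)), h x = 0 := by
      have h4 : NullMeasurableSet {x | h x = 0} (Measure.map (fun t : ℝ => Q + t • w) (volume.restrict (Ioc (0:ℝ) 1) : Measure ℝ)) :=
        hm.aemeasurable.nullMeasurable (measurableSet_singleton 0)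
      rw [ae_iff]
      have h5 : NullMeasurableSet {x | ¬ h x = 0} (Measure.map (fun t : ℝ => Q + t • w) (volume.restrict (Ioc (0:ℝ) 1) : Measure ℝ)) :=
        h4.compl
      rw [Measure.map_apply₀ (cont_edge Q w).aemeasurable h5]
      exact hz
    unfold eg
    exact Measure.ae_smul_measure h3 _
  have a1 := conv hu (eg_le1 P u v) kB
  have a2 := conv hu (eg_le2 P u v) kT
  have a3 := conv hv (eg_le3 P u v) kL
  have a4 := conv hv (eg_le4 P u v) kR
  unfold sig
  rw [Filter.EventuallyEq, ae_add_measure_iff, ae_add_measure_iff, ae_add_measure_iff]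
  exact ⟨⟨a1, a2⟩, ⟨a3, a4⟩⟩

end

end Q65.ER
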