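import Pool.Agent.Q65.ERd

/-! The length measure on the boundary of a parallelogram is the one-dimensional Hausdorff
measure. -/

set_option autoImplicit false

open MeasureTheory Set Complex
open scoped Real ComplexConjugate ENNReal

namespace Q65.ER


/-- one-dimensional Hausdorff measure on a segment -/
lemma seg_eq (P : E2) {w : E2} (hw : w ≠ 0) :
    (μH[1] : Measure E2).restrict ((fun t : ℝ => P + t • w) '' Icc 0 1) = eg P w := by
  have hn : 0 < ‖w‖ := norm_pos_iff.mpr hw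
  set io : ℝ → E2 := fun s => P + s • (‖w‖⁻¹ • w) with hio
  have hun : ‖‖w‖⁻¹ • w‖ = 1 := by
    rw [norm_smul, norm_inv, norm_norm, inv_mul_cancel₀ hn.ne']
  have hiso : Isometry io := by
    refine Isometry.of_dist_eq fun s t => ?_
    simp only [hio, dist_add_left]
    rw [dist_eq_norm, ← sub_smul, norm_smul, hun, mul_one, Real.dist_eq, Real.norm_eq_abs]
  have hmap : Measure.map io volume = (μH[1] : Measure E2).restrict (range io) := by
    rw [← hausdorffMeasure_real]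
    exact hiso.map_hausdorffMeasure (Or.inl zero_le_one)
  have hS : (fun t : ℝ => P + t • w) '' Icc 0 1 = io '' Icc 0 ‖w‖ := by
    ext x
    constructor
    · rintro ⟨t, ⟨h0, h1⟩, rfl⟩
      refine ⟨‖w‖ * t, ⟨by positivity, by nlinarith⟩, ?_⟩
      simp only [hio]
      rw [smul_smul]
      congr 2
      field_simp
    · rintro ⟨s, ⟨h0, h1⟩, rfl⟩
      refine ⟨s / ‖w‖, ⟨by positivity, (div_le_one hn).mpr h1⟩, ?_⟩
      simp only [hio]
      rw [smul_smul]
      congr 2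
  have hSm : MeasurableSet (io '' Icc 0 ‖w‖) :=
    (isCompact_Icc.image hiso.continuous).isClosed.measurableSet
  rw [hS]
  have e1 : (μH[1] : Measure E2).restrict (io '' Icc 0 ‖w‖) =
      Measure.map io (volume.restrict (Icc 0 ‖w‖)) := by
    have h1 : ((μH[1] : Measure E2).restrict (range io)).restrict (io '' Icc 0 ‖w‖) =
        (μH[1] : Measure E2).restrict (io '' Icc 0 ‖w‖) :=
      Measure.restrict_restrict_of_subset (image_subset_range _ _)
    rw [← h1, ← hmap, Measure.restrict_map hiso.continuous.measurable hSm,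
      preimage_image_eq _ hiso.injective]
  rw [e1]
  unfold eg
  have e2 : (fun t : ℝ => P + t • w) = io ∘ (fun t => ‖w‖ * t) := by
    funext t
    simp only [hio, Function.comp]
    rw [smul_smul]
    congr 2
    field_simp
  have hmm : Measurable (fun t : ℝ => ‖w‖ * t) := measurable_const_mul _
  rw [e2, ← Measure.map_map hiso.continuous.measurable hmm]
  have e3 : Measure.map (fun t : ℝ => ‖w‖ * t) (volume.restrict (Ioc (0:ℝ) 1) : Measure ℝ) =
      ENNReal.ofReal ‖w‖⁻¹ • volume.restrict (Ioc 0 ‖w‖) := by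
    have h1 : Ioc (0:ℝ) 1 = (fun t : ℝ => ‖w‖ * t) ⁻¹' (Ioc 0 ‖w‖) := by
      ext t
      simp only [mem_preimage, mem_Ioc]
      constructor
      · rintro ⟨h0, h1⟩; exact ⟨by positivity, by nlinarith⟩
      · rintro ⟨h0, h1⟩
        exact ⟨by by_contra hc; push Not at hc; nlinarith, by
          by_contra hc; push Not at hc; nlinarith⟩
    rw [h1, ← Measure.restrict_map hmm measurableSet_Ioc, Real.map_volume_mul_left hn.ne',
      Measure.restrict_smul, abs_of_pos (inv_pos.mpr hn)]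
  rw [e3, Measure.map_smul, smul_smul, ← ENNReal.ofReal_mul hn.le, mul_inv_cancel₀ hn.ne',
    ENNReal.ofReal_one, one_smul, restrict_Ioc_eq_restrict_Icc]

/-- the solid parallelogram with vertices `P, P+u, P+v, P+u+v` -/
def pgram (P u v : E2) : Set E2 :=
  {x | ∃ s ∈ Icc (0:ℝ) 1, ∃ t ∈ Icc (0:ℝ) 1, x = P + s • u + t • v}

lemma linMap_exists {u v : E2} (huv : LinearIndependent ℝ ![u, v]) :
    ∃ A : (ℝ × ℝ) ≃L[ℝ] E2, ∀ p, A p = p.1 • u + p.2 • v := by
  set l : (ℝ × ℝ) →ₗ[ℝ] E2 :=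
    (LinearMap.toSpanSingleton ℝ E2 u).coprod (LinearMap.toSpanSingleton ℝ E2 v) with hl
  have hlp : ∀ p, l p = p.1 • u + p.2 • v := by
    intro p; simp [hl]
  have hinj : Function.Injective l := by
    rw [← LinearMap.ker_eq_bot, LinearMap.ker_eq_bot']
    intro p hp
    rw [hlp] at hp
    obtain ⟨h1, h2⟩ := LinearIndependent.pair_iff.mp huv p.1 p.2 hp
    exact Prod.ext h1 h2
  have hdim : Module.finrank ℝ (ℝ × ℝ) = Module.finrank ℝ E2 := by
    simp
  refine ⟨(l.linearEquivOfInjective hinj hdim).toContinuousLinearEquiv, fun p => ?_⟩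
  rw [← hlp]
  rfl

theorem frontier_pgram {P u v : E2} (huv : LinearIndependent ℝ ![u, v]) :
    (μH[1] : Measure E2).restrict (frontier (pgram P u v)) = sig P u v := by
  obtain ⟨A, hA⟩ := linMap_exists huv
  have hu : u ≠ 0 := huv.ne_zero 0
  have hv : v ≠ 0 := huv.ne_zero 1
  set h : (ℝ × ℝ) ≃ₜ E2 := A.toHomeomorph.trans (Homeomorph.addLeft P) with hh
  have hap : ∀ p, h p = P + (p.1 • u + p.2 • v) := by
    intro p
    rw [← hA]; rfl
  have hpara : pgram P u v = h '' (Icc (0:ℝ) 1 ×ˢ Icc (0:ℝ) 1) := by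
    ext x
    constructor
    · rintro ⟨s, hs, t, ht, rfl⟩
      refine ⟨(s, t), ⟨hs, ht⟩, ?_⟩
      rw [hap]; simp only; abel
    · rintro ⟨⟨s, t⟩, ⟨hs, ht⟩, rfl⟩
      refine ⟨s, hs, t, ht, ?_⟩
      rw [hap]; simp only; abel
  have hfr : frontier (pgram P u v) =
      (h '' (Icc (0:ℝ) 1 ×ˢ {0}) ∪ h '' (Icc (0:ℝ) 1 ×ˢ {1})) ∪
      (h '' ({0} ×ˢ Icc (0:ℝ) 1) ∪ h '' ({1} ×ˢ Icc (0:ℝ) 1)) := by
    rw [hpara, ← h.image_frontier, frontier_prod_eq, isClosed_Icc.closure_eq,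
      frontier_Icc zero_le_one, ← image_union, ← image_union, ← image_union]
    congr 1
    ext ⟨x, y⟩
    simp only [mem_union, mem_prod, mem_insert_iff, mem_singleton_iff]
    tauto
  have s1 : h '' (Icc (0:ℝ) 1 ×ˢ {0}) = (fun t : ℝ => P + t • u) '' Icc 0 1 := by
    ext x
    constructor
    · rintro ⟨⟨s, t⟩, ⟨hs, ht⟩, rfl⟩
      have : t = 0 := ht
      subst this
      exact ⟨s, hs, by rw [hap]; simp⟩
    · rintro ⟨s, hs, rfl⟩
      exact ⟨(s, 0), ⟨hs, rfl⟩, by rw [hap]; simp⟩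
  have s2 : h '' (Icc (0:ℝ) 1 ×ˢ {1}) = (fun t : ℝ => (P + v) + t • u) '' Icc 0 1 := by
    ext x
    constructor
    · rintro ⟨⟨s, t⟩, ⟨hs, ht⟩, rfl⟩
      have : t = 1 := ht
      subst this
      exact ⟨s, hs, by rw [hap]; simp only [one_smul]; abel⟩
    · rintro ⟨s, hs, rfl⟩
      exact ⟨(s, 1), ⟨hs, rfl⟩, by rw [hap]; simp only [one_smul]; abel⟩
  have s3 : h '' ({0} ×ˢ Icc (0:ℝ) 1) = (fun t : ℝ => P + t • v) '' Icc 0 1 := by
    ext x
    constructor
    · rintro ⟨⟨s, t⟩, ⟨hs, ht⟩, rfl⟩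
      have : s = 0 := hs
      subst this
      exact ⟨t, ht, by rw [hap]; simp⟩
    · rintro ⟨t, ht, rfl⟩
      exact ⟨(0, t), ⟨rfl, ht⟩, by rw [hap]; simp⟩
  have s4 : h '' ({1} ×ˢ Icc (0:ℝ) 1) = (fun t : ℝ => (P + u) + t • v) '' Icc 0 1 := by
    ext x
    constructor
    · rintro ⟨⟨s, t⟩, ⟨hs, ht⟩, rfl⟩
      have : s = 1 := hs
      subst this
      exact ⟨t, ht, by rw [hap]; simp only [one_smul]; abel⟩
    · rintro ⟨t, ht, rfl⟩
      exact ⟨(1, t), ⟨rfl, ht⟩, by rw [hap]; simp only [one_smul]; abel⟩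
  have hcl : ∀ {T : Set (ℝ × ℝ)}, IsCompact T → MeasurableSet (h '' T) := fun hT =>
    (hT.image h.continuous).isClosed.measurableSet
  have c1 : IsCompact (Icc (0:ℝ) 1 ×ˢ ({0} : Set ℝ)) := isCompact_Icc.prod isCompact_singleton
  have c2 : IsCompact (Icc (0:ℝ) 1 ×ˢ ({1} : Set ℝ)) := isCompact_Icc.prod isCompact_singleton
  have c3 : IsCompact (({0} : Set ℝ) ×ˢ Icc (0:ℝ) 1) := isCompact_singleton.prod isCompact_Icc
  have c4 : IsCompact (({1} : Set ℝ) ×ˢ Icc (0:ℝ) 1) := isCompact_singleton.prod isCompact_Icc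
  have hna : NullSingletonClass (μH[1] : Measure E2) := Measure.nullSingletonClass_hausdorff E2 one_pos
  have hnull : ∀ {T T' : Set (ℝ × ℝ)}, T ∩ T' ⊆ ({0, 1} : Set ℝ) ×ˢ ({0, 1} : Set ℝ) →
      AEDisjoint (μH[1] : Measure E2) (h '' T) (h '' T') := by
    intro T T' hTT
    unfold AEDisjoint
    rw [← image_inter h.injective]
    have hfin : (h '' (T ∩ T')).Finite :=
      (((Set.toFinite ({0, 1} : Set ℝ)).prod (Set.toFinite ({0, 1} : Set ℝ))).subset hTT).image _
    exact hfin.measure_zero _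
  rw [hfr]
  rw [← image_union, ← image_union, Measure.restrict_union₀ (hnull ?_)
    (hcl (c3.union c4)).nullMeasurableSet, image_union, image_union,
    Measure.restrict_union₀ (hnull ?_) (hcl c2).nullMeasurableSet,
    Measure.restrict_union₀ (hnull ?_) (hcl c4).nullMeasurableSet, s1, s2, s3, s4,
    seg_eq P hu, seg_eq (P + v) hu, seg_eq P hv, seg_eq (P + u) hv]
  · rfl
  · rintro ⟨x, y⟩ ⟨⟨h1, -⟩, ⟨h2, -⟩⟩
    simp only [mem_singleton_iff] at h1 h2
    rw [h1] at h2; norm_num at h2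
  · rintro ⟨x, y⟩ ⟨⟨-, h1⟩, ⟨-, h2⟩⟩
    simp only [mem_singleton_iff] at h1 h2
    rw [h1] at h2; norm_num at h2
  · rintro ⟨x, y⟩ ⟨h1, h2⟩
    simp only [mem_union, mem_prod, mem_singleton_iff, mem_insert_iff] at h1 h2 ⊢
    tauto

end Q65.ER
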