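import Mathlib

/-! # A Fréchet space of entire functions of order `3/2` and its translation group

The space is the closed subspace of `∏ₘ ℓ¹` of all `x` with `x m k = (m+1)^k x 0 k`. With
`y k = x 0 k` and `ω k = (k!)^{1/3}` the vector `x` stands for the entire function
`∑ (ω k / k!) y k w^k`. -/

open Filter Topology

namespace Q65.Fr

set_option autoImplicit false

/-! ### the weights -/

/-- `ω k = (k!)^{1/3}` -/
noncomputable def om (k : ℕ) : ℝ := ((k.factorial : ℝ)) ^ (1 / 3 : ℝ)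

theorem om_zero : om 0 = 1 := by simp [om]

theorem om_one : om 1 = 1 := by simp [om]

theorem one_le_om (k : ℕ) : 1 ≤ om k :=
  Real.one_le_rpow (by exact_mod_cast Nat.succ_le_of_lt k.factorial_pos) (by norm_num)

theorem om_pos (k : ℕ) : 0 < om k := lt_of_lt_of_le one_pos (one_le_om k)

theorem om_cube (k : ℕ) : om k * om k * om k = (k.factorial : ℝ) := by
  have h0 : (0 : ℝ) < (k.factorial : ℝ) := by exact_mod_cast k.factorial_pos
  rw [om, ← Real.rpow_add h0, ← Real.rpow_add h0]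
  norm_num

theorem om_add (k n : ℕ) : om (k + n) ≤ 2 ^ (k + n) * (om k * om n) := by
  have h0 : (0 : ℝ) < (k.factorial : ℝ) := by exact_mod_cast k.factorial_pos
  have h1 : (0 : ℝ) < (n.factorial : ℝ) := by exact_mod_cast n.factorial_pos
  have h2 : ((k + n).factorial : ℝ) ≤ 2 ^ (k + n) * (k.factorial * n.factorial) := by
    rw [← Nat.add_choose_mul_factorial_mul_factorial k n]
    push_cast
    have h3 : (((k + n).choose n : ℕ) : ℝ) ≤ 2 ^ (k + n) := by
      exact_mod_cast Nat.choose_le_two_pow (k + n) n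
    rw [mul_assoc]
    exact mul_le_mul_of_nonneg_right h3 (mul_pos h0 h1).le
  have h3 : om (k + n) ≤ (2 ^ (k + n) * (k.factorial * n.factorial) : ℝ) ^ (1 / 3 : ℝ) :=
    Real.rpow_le_rpow (by positivity) h2 (by norm_num)
  refine h3.trans ?_
  rw [Real.mul_rpow (by positivity) (by positivity), Real.mul_rpow h0.le h1.le]
  have h4 : ((2 : ℝ) ^ (k + n)) ^ (1 / 3 : ℝ) ≤ 2 ^ (k + n) := by
    have : ((2 : ℝ) ^ (k + n)) ^ (1 / 3 : ℝ) ≤ ((2 : ℝ) ^ (k + n)) ^ (1 : ℝ) :=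
      Real.rpow_le_rpow_of_exponent_le (one_le_pow₀ (by norm_num)) (by norm_num)
    rwa [Real.rpow_one] at this
  exact mul_le_mul_of_nonneg_right h4 (mul_nonneg (om_pos k).le (om_pos n).le)

theorem om_le_factorial (k : ℕ) : om k ≤ k.factorial := by
  have := om_cube k
  have h1 := one_le_om k
  nlinarith [mul_le_mul h1 h1 (by norm_num) (om_pos k).le, om_pos k]

theorem summable_div_om (r : ℝ) (hr : 0 ≤ r) : Summable fun k => r ^ k / om k := by
  have hb : ∀ k, r ^ k / om k ≤ (Real.exp ((2 * r) ^ 3)) ^ (1 / 3 : ℝ) * (1 / 2) ^ k := by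
    intro k
    have h0 : (0 : ℝ) < (k.factorial : ℝ) := by exact_mod_cast k.factorial_pos
    have h1 := Real.pow_div_factorial_le_exp ((2 * r) ^ 3) (by positivity) k
    have h2 : (((2 * r) ^ 3) ^ k / (k.factorial : ℝ)) ^ (1 / 3 : ℝ) ≤
        (Real.exp ((2 * r) ^ 3)) ^ (1 / 3 : ℝ) :=
      Real.rpow_le_rpow (by positivity) h1 (by norm_num)
    have h3 : (((2 * r) ^ 3) ^ k / (k.factorial : ℝ)) ^ (1 / 3 : ℝ) = (2 * r) ^ k / om k := by
      rw [Real.div_rpow (by positivity) h0.le, ← pow_mul, mul_comm 3 k, pow_mul,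
        ← Real.rpow_natCast (((2 * r) ^ k)) 3, ← Real.rpow_mul (by positivity)]
      norm_num [om]
    rw [h3] at h2
    have h4 : r ^ k / om k = (2 * r) ^ k / om k * (1 / 2) ^ k := by
      rw [mul_pow, div_mul_eq_mul_div, mul_assoc, mul_comm (r ^ k), ← mul_assoc, ← mul_pow]
      norm_num
    rw [h4]
    exact mul_le_mul_of_nonneg_right h2 (by positivity)
  exact Summable.of_nonneg_of_le (fun k => div_nonneg (pow_nonneg hr k) (om_pos k).le) hb
    ((summable_geometric_of_lt_one (by norm_num) (by norm_num)).mul_left _)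

/-- the majorants of the coefficients of the translations -/
noncomputable def gz (r : ℝ) (n : ℕ) : ℝ := r ^ n / n.factorial * om n

theorem gz_nonneg {r : ℝ} (hr : 0 ≤ r) (n : ℕ) : 0 ≤ gz r n :=
  mul_nonneg (by positivity) (om_pos n).le

theorem summable_gz {r : ℝ} (hr : 0 ≤ r) : Summable (gz r) := by
  refine Summable.of_nonneg_of_le (gz_nonneg hr) (fun n => ?_) (summable_div_om r hr)
  have h0 : (0 : ℝ) < (n.factorial : ℝ) := by exact_mod_cast n.factorial_pos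
  rw [gz, div_mul_eq_mul_div, div_le_div_iff₀ h0 (om_pos n), mul_assoc]
  apply mul_le_mul_of_nonneg_left _ (by positivity)
  rw [← om_cube n]
  have h1 := one_le_om n
  have h2 := om_pos n
  nlinarith [mul_pos h2 h2]

theorem gz_le_exp {r : ℝ} (hr : 0 ≤ r) (n : ℕ) : gz r n ≤ Real.exp (r ^ (3 / 2 : ℝ)) := by
  have h0 : (0 : ℝ) < (n.factorial : ℝ) := by exact_mod_cast n.factorial_pos
  have hR : 0 ≤ r ^ (3 / 2 : ℝ) := Real.rpow_nonneg hr _
  have h1 := Real.pow_div_factorial_le_exp (r ^ (3 / 2 : ℝ)) hR n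
  have h2 : ((r ^ (3 / 2 : ℝ)) ^ n / (n.factorial : ℝ)) ^ (2 / 3 : ℝ) ≤
      (Real.exp (r ^ (3 / 2 : ℝ))) ^ (2 / 3 : ℝ) :=
    Real.rpow_le_rpow (by positivity) h1 (by norm_num)
  have h3 : (Real.exp (r ^ (3 / 2 : ℝ))) ^ (2 / 3 : ℝ) ≤ Real.exp (r ^ (3 / 2 : ℝ)) := by
    have : (Real.exp (r ^ (3 / 2 : ℝ))) ^ (2 / 3 : ℝ) ≤ (Real.exp (r ^ (3 / 2 : ℝ))) ^ (1 : ℝ) :=
      Real.rpow_le_rpow_of_exponent_le (Real.one_le_exp hR) (by norm_num)
    rwa [Real.rpow_one] at this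
  refine le_trans (le_of_eq ?_) (h2.trans h3)
  rw [Real.div_rpow (by positivity) h0.le, ← Real.rpow_natCast, ← Real.rpow_mul hr,
    ← Real.rpow_mul hr]
  have e1 : (3 / 2 : ℝ) * n * (2 / 3) = n := by ring
  rw [e1, Real.rpow_natCast, gz, div_mul_eq_mul_div]
  have h4 : (n.factorial : ℝ) ^ (2 / 3 : ℝ) = om n * om n := by
    rw [om, ← Real.rpow_add h0]; norm_num
  rw [h4, ← om_cube n, mul_div_mul_right _ _ (om_pos n).ne']

/-! ### the space -/

/-- `ℓ¹` -/
noncomputable abbrev L1 := lp (fun _ : ℕ => ℂ) 1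

theorem L1.summable (f : L1) : Summable fun k => ‖f k‖ := by
  have := (memℓp_gen_iff (by simp)).mp f.2
  simpa using this

theorem L1.norm_eq (f : L1) : ‖f‖ = ∑' k, ‖f k‖ := by
  rw [lp.norm_eq_tsum_rpow (by simp)]
  simp

/-- the closed subspace -/
noncomputable def Ks : Submodule ℂ (ℕ → L1) where
  carrier := {x | ∀ m k : ℕ, x m k = ((m : ℂ) + 1) ^ k * x 0 k}
  add_mem' := by
    intro x y hx hy m k
    simp only [Pi.add_apply, lp.coeFn_add, hx m k, hy m k]
    ring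
  zero_mem' := by
    intro m k
    simp
  smul_mem' := by
    intro c x hx m k
    simp only [Pi.smul_apply, lp.coeFn_smul, hx m k, smul_eq_mul]
    ring

/-- the Fréchet space -/
abbrev K := ↥Ks

theorem isClosed_Ks : IsClosed (Ks : Set (ℕ → L1)) := by
  have : (Ks : Set (ℕ → L1)) = ⋂ m : ℕ, ⋂ k : ℕ,
      {x : ℕ → L1 | x m k = ((m : ℂ) + 1) ^ k * x 0 k} := by
    ext x
    simp only [Set.mem_iInter, Set.mem_ofPred_eq]
    rfl
  rw [this]
  refine isClosed_iInter fun m => isClosed_iInter fun k => ?_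
  have h1 : ∀ m : ℕ, Continuous fun x : ℕ → L1 => x m k := by
    intro m
    exact ((lp.evalCLM ℂ (fun _ : ℕ => ℂ) 1 k).continuous).comp (continuous_apply m)
  exact isClosed_eq (h1 m) (continuous_const.mul (h1 0))

instance : CompleteSpace K := isClosed_Ks.completeSpace_coe

/-- coefficients -/
def co (x : K) (k : ℕ) : ℂ := x.1 0 k

theorem co_eq (x : K) (m k : ℕ) : x.1 m k = ((m : ℂ) + 1) ^ k * co x k := x.2 m k

theorem norm_co_eq (x : K) (m k : ℕ) : ‖x.1 m k‖ = ‖co x k‖ * ((m : ℝ) + 1) ^ k := by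
  rw [co_eq, norm_mul, norm_pow, mul_comm]
  congr 2
  have : ((m : ℂ) + 1) = ((m + 1 : ℕ) : ℂ) := by push_cast; rfl
  rw [this, Complex.norm_natCast]
  push_cast; rfl

theorem K_ext {x y : K} (h : ∀ k, co x k = co y k) : x = y := by
  apply Subtype.ext
  funext m
  apply lp.ext
  funext k
  rw [co_eq, co_eq, h]

theorem summable_co (x : K) (m : ℕ) : Summable fun k => ‖co x k‖ * ((m : ℝ) + 1) ^ k := by
  have := L1.summable (x.1 m)
  simpa only [norm_co_eq] using this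

theorem norm_level (x : K) (m : ℕ) : ‖x.1 m‖ = ∑' k, ‖co x k‖ * ((m : ℝ) + 1) ^ k := by
  rw [L1.norm_eq]
  simp only [norm_co_eq]

@[simp] theorem co_add (x y : K) (k : ℕ) : co (x + y) k = co x k + co y k := by
  simp [co]

@[simp] theorem co_sub (x y : K) (k : ℕ) : co (x - y) k = co x k - co y k := by
  simp [co]

@[simp] theorem co_smul (c : ℂ) (x : K) (k : ℕ) : co (c • x) k = c * co x k := by
  simp [co]

@[simp] theorem co_zero (k : ℕ) : co 0 k = 0 := by
  simp [co]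

/-- constructor -/
noncomputable def ofCo (y : ℕ → ℂ) (hy : ∀ m : ℕ, Summable fun k => ‖y k‖ * ((m : ℝ) + 1) ^ k) : K :=
  ⟨fun m => ⟨fun k => ((m : ℂ) + 1) ^ k * y k, by
    change Memℓp (fun k => ((m : ℂ) + 1) ^ k * y k) 1
    rw [memℓp_gen_iff (by simp)]
    have := hy m
    simp only [ENNReal.toReal_one, Real.rpow_one, norm_mul, norm_pow]
    have h1 : ‖((m : ℂ) + 1)‖ = (m : ℝ) + 1 := by
      have : ((m : ℂ) + 1) = ((m + 1 : ℕ) : ℂ) := by push_cast; rfl
      rw [this, Complex.norm_natCast]; push_cast; rfl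
    simp only [h1]
    simpa only [mul_comm] using this⟩, by
    intro m k
    simp⟩

@[simp] theorem co_ofCo (y : ℕ → ℂ) (hy : ∀ m : ℕ, Summable fun k => ‖y k‖ * ((m : ℝ) + 1) ^ k)
    (k : ℕ) : co (ofCo y hy) k = y k := by
  simp [co, ofCo]

/-- convergence in the space -/
theorem tendsto_iff {ι : Type*} {l : Filter ι} (u : ι → K) (x : K) :
    Tendsto u l (𝓝 x) ↔ ∀ m, Tendsto (fun i => ‖(u i - x).1 m‖) l (𝓝 0) := by
  rw [tendsto_subtype_rng, tendsto_pi_nhds]
  refine forall_congr' fun m => ?_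
  rw [tendsto_iff_norm_sub_tendsto_zero]
  rfl

/-- linear maps with estimates are continuous -/
theorem continuous_of_bound (f : K →ₗ[ℂ] K)
    (h : ∀ m : ℕ, ∃ m' : ℕ, ∃ C : ℝ, ∀ x : K, ‖(f x).1 m‖ ≤ C * ‖x.1 m'‖) : Continuous f := by
  apply continuous_of_continuousAt_zero
  rw [ContinuousAt, map_zero, tendsto_iff]
  intro m
  obtain ⟨m', C, hC⟩ := h m
  have h1 : Tendsto (fun x : K => C * ‖x.1 m'‖) (𝓝 0) (𝓝 0) := by
    have : Continuous fun x : K => C * ‖x.1 m'‖ :=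
      continuous_const.mul (((continuous_apply m').comp continuous_subtype_val).norm)
    simpa using this.tendsto 0
  refine squeeze_zero (fun x => norm_nonneg _) (fun x => ?_) h1
  simpa using hC x

theorem continuous_co (k : ℕ) : Continuous fun x : K => co x k :=
  ((lp.evalCLM ℂ (fun _ : ℕ => ℂ) 1 k).continuous).comp
    ((continuous_apply 0).comp continuous_subtype_val)

/-! ### double series -/

theorem double {g h : ℕ → ℝ} (hg : Summable g) (hh : Summable h) (hg0 : ∀ n, 0 ≤ g n)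
    (hh0 : ∀ n, 0 ≤ h n) :
    Summable (fun p : ℕ × ℕ => g p.2 * h (p.1 + p.2)) ∧
      ∑' k, ∑' n, g n * h (k + n) ≤ (∑' n, g n) * ∑' n, h n := by
  have hsh : ∀ n, Summable fun k => h (k + n) := fun n => (summable_nat_add_iff n).mpr hh
  have hle : ∀ n, ∑' k, h (k + n) ≤ ∑' k, h k := by
    intro n
    rw [← hh.sum_add_tsum_nat_add n]
    have : 0 ≤ ∑ i ∈ Finset.range n, h i := Finset.sum_nonneg fun i _ => hh0 i
    linarith
  have h1 : Summable (fun p : ℕ × ℕ => g p.1 * h (p.2 + p.1)) := by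
    rw [summable_prod_of_nonneg (fun p => mul_nonneg (hg0 _) (hh0 _))]
    refine ⟨fun n => (hsh n).mul_left (g n), ?_⟩
    refine Summable.of_nonneg_of_le (fun n => tsum_nonneg fun k => mul_nonneg (hg0 _) (hh0 _))
      (fun n => ?_) (hg.mul_right (∑' k, h k))
    simp only
    rw [tsum_mul_left]
    exact mul_le_mul_of_nonneg_left (hle n) (hg0 n)
  have h2 : Summable (fun p : ℕ × ℕ => g p.2 * h (p.1 + p.2)) := h1.prod_symm
  refine ⟨h2, ?_⟩
  have h3 : ∑' k, ∑' n, g n * h (k + n) = ∑' n, ∑' k, g n * h (k + n) :=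
    (Summable.tsum_comm (f := fun k n => g n * h (k + n)) h2).symm
  rw [h3, ← tsum_mul_right]
  refine Summable.tsum_le_tsum (fun n => ?_) ?_ (hg.mul_right _)
  · rw [tsum_mul_left]
    exact mul_le_mul_of_nonneg_left (hle n) (hg0 n)
  · exact h1.prod

/-- the data of an operator `y ↦ (∑ₙ c k n y (k+n))ₖ` -/
structure Mat where
  /-- the coefficients -/
  c : ℕ → ℕ → ℂ
  /-- the majorant -/
  g : ℕ → ℝ
  g_nonneg : ∀ n, 0 ≤ g n
  g_sum : Summable g
  bound : ∀ k n, ‖c k n‖ ≤ 2 ^ (k + n) * g n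

variable (A : Mat)

theorem Mat.term_le (x : K) (m k n : ℕ) : ‖A.c k n * co x (k + n)‖ * ((m : ℝ) + 1) ^ k ≤
    A.g n * (‖co x (k + n)‖ * (((2 * m + 1 : ℕ) : ℝ) + 1) ^ (k + n)) := by
  have h1 := A.bound k n
  have h2 : ((m : ℝ) + 1) ^ k ≤ ((m : ℝ) + 1) ^ (k + n) :=
    pow_le_pow_right₀ (by have : (0 : ℝ) ≤ m := Nat.cast_nonneg m; linarith) (by omega)
  have h3 : (((2 * m + 1 : ℕ) : ℝ) + 1) ^ (k + n) = 2 ^ (k + n) * ((m : ℝ) + 1) ^ (k + n) := by
    rw [← mul_pow]; congr 1; push_cast; ring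
  rw [h3, norm_mul]
  have h4 : ‖A.c k n‖ * ((m : ℝ) + 1) ^ k ≤ (2 ^ (k + n) * A.g n) * ((m : ℝ) + 1) ^ (k + n) :=
    mul_le_mul h1 h2 (by positivity) (mul_nonneg (by positivity) (A.g_nonneg n))
  have h5 := norm_nonneg (co x (k + n))
  calc ‖A.c k n‖ * ‖co x (k + n)‖ * ((m : ℝ) + 1) ^ k
      = (‖A.c k n‖ * ((m : ℝ) + 1) ^ k) * ‖co x (k + n)‖ := by ring
    _ ≤ ((2 ^ (k + n) * A.g n) * ((m : ℝ) + 1) ^ (k + n)) * ‖co x (k + n)‖ :=
        mul_le_mul_of_nonneg_right h4 h5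
    _ = _ := by ring

theorem Mat.dbl (x : K) (m : ℕ) :
    Summable (fun p : ℕ × ℕ => A.g p.2 *
      (‖co x (p.1 + p.2)‖ * (((2 * m + 1 : ℕ) : ℝ) + 1) ^ (p.1 + p.2))) ∧
    ∑' k, ∑' n, A.g n * (‖co x (k + n)‖ * (((2 * m + 1 : ℕ) : ℝ) + 1) ^ (k + n)) ≤
      (∑' n, A.g n) * ‖x.1 (2 * m + 1)‖ := by
  have := double (h := fun k => ‖co x k‖ * (((2 * m + 1 : ℕ) : ℝ) + 1) ^ k) A.g_sum
    (summable_co x (2 * m + 1)) A.g_nonneg (fun n => by positivity)
  rw [norm_level]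
  exact this

theorem Mat.summable_row (x : K) (k : ℕ) : Summable fun n => A.c k n * co x (k + n) := by
  apply Summable.of_norm
  have h1 := (A.dbl x 0).1.prod_factor k
  refine Summable.of_nonneg_of_le (fun n => norm_nonneg _) (fun n => ?_) h1
  have := A.term_le x 0 k n
  simpa using this

theorem Mat.row_le (x : K) (m k : ℕ) :
    ‖∑' n, A.c k n * co x (k + n)‖ * ((m : ℝ) + 1) ^ k ≤
      ∑' n, A.g n * (‖co x (k + n)‖ * (((2 * m + 1 : ℕ) : ℝ) + 1) ^ (k + n)) := by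
  have hs := (A.summable_row x k).norm
  have h1 := norm_tsum_le_tsum_norm hs
  calc ‖∑' n, A.c k n * co x (k + n)‖ * ((m : ℝ) + 1) ^ k
      ≤ (∑' n, ‖A.c k n * co x (k + n)‖) * ((m : ℝ) + 1) ^ k :=
        mul_le_mul_of_nonneg_right h1 (by positivity)
    _ = ∑' n, ‖A.c k n * co x (k + n)‖ * ((m : ℝ) + 1) ^ k := by rw [tsum_mul_right]
    _ ≤ _ := Summable.tsum_le_tsum (fun n => A.term_le x m k n) (hs.mul_right _)
        ((A.dbl x m).1.prod_factor k)

theorem Mat.summable_col (x : K) (m : ℕ) :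
    Summable fun k => ‖∑' n, A.c k n * co x (k + n)‖ * ((m : ℝ) + 1) ^ k :=
  Summable.of_nonneg_of_le (fun k => by positivity) (A.row_le x m) (A.dbl x m).1.prod

/-- the operator -/
noncomputable def Mat.lin : K →ₗ[ℂ] K where
  toFun x := ofCo (fun k : ℕ => ∑' n : ℕ, A.c k n * co x (k + n)) (fun m => A.summable_col x m)
  map_add' x y := by
    apply K_ext
    intro k
    simp only [co_ofCo, co_add, mul_add]
    exact (A.summable_row x k).tsum_add (A.summable_row y k)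
  map_smul' a x := by
    apply K_ext
    intro k
    simp only [co_ofCo, co_smul, RingHom.id_apply]
    rw [← tsum_mul_left]
    congr 1
    funext n
    ring

theorem Mat.norm_lin (x : K) (m : ℕ) :
    ‖(A.lin x).1 m‖ ≤ (∑' n, A.g n) * ‖x.1 (2 * m + 1)‖ := by
  rw [norm_level]
  refine le_trans ?_ (A.dbl x m).2
  have h1 : ∀ k, co (A.lin x) k = ∑' n, A.c k n * co x (k + n) := fun k => by
    simp [Mat.lin]
  simp only [h1]
  exact Summable.tsum_le_tsum (A.row_le x m) (A.summable_col x m) (A.dbl x m).1.prod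

/-- the continuous operator -/
noncomputable def Mat.op : K →L[ℂ] K :=
  ⟨A.lin, continuous_of_bound _ fun m => ⟨2 * m + 1, ∑' n, A.g n, fun x => A.norm_lin x m⟩⟩

theorem Mat.co_op (x : K) (k : ℕ) : co (A.op x) k = ∑' n, A.c k n * co x (k + n) := by
  simp [Mat.op, Mat.lin]

theorem Mat.norm_op (x : K) (m : ℕ) :
    ‖(A.op x).1 m‖ ≤ (∑' n, A.g n) * ‖x.1 (2 * m + 1)‖ := A.norm_lin x m

end Q65.Fr
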