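import Mathlib
import Pool.Agent.Q65.FrModel

/-! # The translation group on the Fréchet space `K` -/

open Filter Topology

namespace Q65.Fr

set_option autoImplicit false

theorem om_ratio (k n : ℕ) : om (k + n) / om k ≤ 2 ^ (k + n) * om n := by
  rw [div_le_iff₀ (om_pos k)]
  have := om_add k n
  linarith [this, mul_comm (om n) (om k), mul_assoc ((2 : ℝ) ^ (k + n)) (om n) (om k)]

theorem om_ratio_nonneg (k n : ℕ) : 0 ≤ om (k + n) / om k :=
  div_nonneg (om_pos _).le (om_pos _).le

/-- the matrix of the translation -/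
noncomputable def tm (z : ℂ) : Mat where
  c k n := z ^ n / n.factorial * ((om (k + n) / om k : ℝ) : ℂ)
  g := gz ‖z‖
  g_nonneg := gz_nonneg (norm_nonneg z)
  g_sum := summable_gz (norm_nonneg z)
  bound k n := by
    rw [norm_mul, norm_div, norm_pow, Complex.norm_natCast, Complex.norm_real, Real.norm_eq_abs,
      abs_of_nonneg (om_ratio_nonneg k n), gz]
    have h1 := om_ratio k n
    have h2 : 0 ≤ ‖z‖ ^ n / n.factorial := by positivity
    calc ‖z‖ ^ n / n.factorial * (om (k + n) / om k)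
        ≤ ‖z‖ ^ n / n.factorial * (2 ^ (k + n) * om n) := mul_le_mul_of_nonneg_left h1 h2
      _ = _ := by ring

/-- the translation group -/
noncomputable def T (z : ℂ) : K →L[ℂ] K := (tm z).op

theorem co_T (z : ℂ) (x : K) (k : ℕ) :
    co (T z x) k = ∑' n, z ^ n / n.factorial * ((om (k + n) / om k : ℝ) : ℂ) * co x (k + n) :=
  (tm z).co_op x k

theorem T_zero : T 0 = ContinuousLinearMap.id ℂ K := by
  refine ContinuousLinearMap.ext fun x => K_ext fun k => ?_
  rw [co_T, tsum_eq_single 0]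
  · have : om k ≠ 0 := (om_pos k).ne'
    simp [this]
  · intro n hn
    simp [hn]

theorem tsum_antidiag (a : ℕ × ℕ → ℂ) (ha : Summable a) :
    ∑' i, ∑' j, a (i, j) = ∑' N, ∑ p ∈ Finset.HasAntidiagonal.antidiagonal N, a p := by
  rw [← ha.tsum_prod, ← (Finset.HasAntidiagonal.sigmaAntidiagonalEquivProd).tsum_eq]
  have h2 : Summable (fun p : (Σ n : ℕ, Finset.HasAntidiagonal.antidiagonal n) =>
      a (Finset.HasAntidiagonal.sigmaAntidiagonalEquivProd p)) :=
    (Finset.HasAntidiagonal.sigmaAntidiagonalEquivProd.summable_iff).mpr ha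
  rw [h2.tsum_sigma' (fun n => (hasSum_fintype _).summable)]
  refine tsum_congr fun n => ?_
  rw [tsum_fintype, Finset.univ_eq_attach]
  exact Finset.sum_attach _ (fun p => a p)

theorem summable_grp (z w : ℂ) (x : K) (k : ℕ) :
    Summable fun p : ℕ × ℕ => z ^ p.1 / p.1.factorial * (w ^ p.2 / p.2.factorial) *
      ((om (k + p.1 + p.2) / om k : ℝ) : ℂ) * co x (k + p.1 + p.2) := by
  obtain ⟨C, hC⟩ : ∃ C : ℝ, ∀ N, ‖co x N‖ * 4 ^ N ≤ C := by
    refine ⟨‖x.1 3‖, fun N => ?_⟩
    have h1 := lp.norm_apply_le_norm (by simp) (x.1 3) N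
    rw [norm_co_eq] at h1
    norm_num at h1
    exact h1
  have hC0 : 0 ≤ C := (mul_nonneg (norm_nonneg (co x 0)) (by positivity)).trans (hC 0)
  have hsum := (summable_gz (norm_nonneg z)).mul_of_nonneg (summable_gz (norm_nonneg w))
    (gz_nonneg (norm_nonneg z)) (gz_nonneg (norm_nonneg w))
  refine Summable.of_norm_bounded (hsum.mul_left C) fun p => ?_
  obtain ⟨i, j⟩ := p
  simp only
  rw [norm_mul, norm_mul, norm_mul, norm_div, norm_div, norm_pow, norm_pow,
    Complex.norm_natCast, Complex.norm_natCast, Complex.norm_real, Real.norm_eq_abs]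
  have h0 : 0 ≤ om (k + i + j) / om k := div_nonneg (om_pos _).le (om_pos _).le
  rw [abs_of_nonneg h0]
  have h1 : om (k + i + j) / om k ≤ 4 ^ (k + i + j) * (om i * om j) := by
    rw [div_le_iff₀ (om_pos k)]
    have e1 := om_add k (i + j)
    have e2 := om_add i j
    rw [← add_assoc] at e1
    have e3 : om k * om (i + j) ≤ om k * (2 ^ (i + j) * (om i * om j)) :=
      mul_le_mul_of_nonneg_left e2 (om_pos k).le
    have e4 : (2 : ℝ) ^ (i + j) ≤ 2 ^ (k + i + j) := pow_le_pow_right₀ (by norm_num) (by omega)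
    have e5 : (4 : ℝ) ^ (k + i + j) = 2 ^ (k + i + j) * 2 ^ (k + i + j) := by
      rw [← mul_pow]; norm_num
    have e6 : 0 < om i * om j := mul_pos (om_pos i) (om_pos j)
    rw [e5]
    calc om (k + i + j) ≤ 2 ^ (k + i + j) * (om k * om (i + j)) := e1
      _ ≤ 2 ^ (k + i + j) * (om k * (2 ^ (i + j) * (om i * om j))) :=
          mul_le_mul_of_nonneg_left e3 (by positivity)
      _ ≤ 2 ^ (k + i + j) * (om k * (2 ^ (k + i + j) * (om i * om j))) := by
          have := om_pos k
          gcongr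
      _ = _ := by ring
  have h2 := hC (k + i + j)
  have h3 : om (k + i + j) / om k * ‖co x (k + i + j)‖ ≤ C * (om i * om j) := by
    calc om (k + i + j) / om k * ‖co x (k + i + j)‖
        ≤ 4 ^ (k + i + j) * (om i * om j) * ‖co x (k + i + j)‖ :=
          mul_le_mul_of_nonneg_right h1 (norm_nonneg _)
      _ = (‖co x (k + i + j)‖ * 4 ^ (k + i + j)) * (om i * om j) := by ring
      _ ≤ C * (om i * om j) :=
          mul_le_mul_of_nonneg_right h2 (mul_pos (om_pos i) (om_pos j)).le
  rw [gz, gz]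
  have h4 : 0 ≤ ‖z‖ ^ i / i.factorial * (‖w‖ ^ j / j.factorial) := by positivity
  calc ‖z‖ ^ i / i.factorial * (‖w‖ ^ j / j.factorial) * (om (k + i + j) / om k) *
        ‖co x (k + i + j)‖
      = (‖z‖ ^ i / i.factorial * (‖w‖ ^ j / j.factorial)) * (om (k + i + j) / om k *
        ‖co x (k + i + j)‖) := by ring
    _ ≤ (‖z‖ ^ i / i.factorial * (‖w‖ ^ j / j.factorial)) * (C * (om i * om j)) :=
        mul_le_mul_of_nonneg_left h3 h4
    _ = _ := by ring

theorem T_add (z w : ℂ) (x : K) : T (z + w) x = T z (T w x) := by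
  apply K_ext
  intro k
  have h1 : co (T z (T w x)) k = ∑' i, ∑' j, z ^ i / i.factorial * (w ^ j / j.factorial) *
      ((om (k + i + j) / om k : ℝ) : ℂ) * co x (k + i + j) := by
    rw [co_T]
    refine tsum_congr fun i => ?_
    rw [co_T, ← tsum_mul_left]
    refine tsum_congr fun j => ?_
    have e1 : (om (k + i) : ℂ) ≠ 0 := by exact_mod_cast (om_pos (k + i)).ne'
    have e2 : (om k : ℂ) ≠ 0 := by exact_mod_cast (om_pos k).ne'
    push_cast
    field_simp
  rw [h1, tsum_antidiag (fun p => z ^ p.1 / p.1.factorial * (w ^ p.2 / p.2.factorial) *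
      ((om (k + p.1 + p.2) / om k : ℝ) : ℂ) * co x (k + p.1 + p.2)) (summable_grp z w x k), co_T]
  refine tsum_congr fun N => ?_
  have h2 : ∀ p ∈ Finset.HasAntidiagonal.antidiagonal N, z ^ p.1 / p.1.factorial * (w ^ p.2 / p.2.factorial) *
      ((om (k + p.1 + p.2) / om k : ℝ) : ℂ) * co x (k + p.1 + p.2) =
      (z ^ p.1 / p.1.factorial * (w ^ p.2 / p.2.factorial)) *
        (((om (k + N) / om k : ℝ) : ℂ) * co x (k + N)) := by
    intro p hp
    rw [Finset.HasAntidiagonal.mem_antidiagonal] at hp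
    rw [add_assoc, hp]; ring
  rw [Finset.sum_congr rfl h2, ← Finset.sum_mul, mul_assoc]
  congr 1
  rw [Commute.add_pow' (Commute.all z w), Finset.sum_div]
  refine Finset.sum_congr rfl fun p hp => ?_
  rw [Finset.HasAntidiagonal.mem_antidiagonal] at hp
  rw [← hp]
  have h3 := Nat.add_choose_mul_factorial_mul_factorial p.1 p.2
  have h4 : (((p.1 + p.2).choose p.1 : ℕ) : ℂ) * p.1.factorial * p.2.factorial =
      (p.1 + p.2).factorial := by
    have h5 := Nat.choose_mul_factorial_mul_factorial (Nat.le_add_right p.1 p.2)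
    rw [Nat.add_sub_cancel_left] at h5
    exact_mod_cast h5
  have h6 : (p.1.factorial : ℂ) ≠ 0 := by exact_mod_cast p.1.factorial_ne_zero
  have h7 : (p.2.factorial : ℂ) ≠ 0 := by exact_mod_cast p.2.factorial_ne_zero
  have h8 : ((p.1 + p.2).factorial : ℂ) ≠ 0 := by exact_mod_cast (p.1 + p.2).factorial_ne_zero
  rw [nsmul_eq_mul]
  field_simp
  rw [← h4]
  ring

/-! ### holomorphy -/

/-- the generator -/
noncomputable def bm : Mat where
  c k n := if n = 1 then ((om (k + n) / om k : ℝ) : ℂ) else 0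
  g n := if n = 1 then 1 else 0
  g_nonneg n := by split_ifs <;> norm_num
  g_sum := summable_of_ne_finset_zero (s := {1}) (fun n hn => by simp at hn; simp [hn])
  bound k n := by
    split_ifs with h
    · subst h
      rw [Complex.norm_real, Real.norm_eq_abs, abs_of_nonneg (om_ratio_nonneg k 1)]
      have := om_ratio k 1
      rw [om_one] at this
      exact this
    · simp

/-- the remainder in the difference quotient -/
noncomputable def rm (h : ℂ) (hh : ‖h‖ ≤ 1) : Mat where
  c k n := if n < 2 then 0 else h ^ (n - 1) / n.factorial * ((om (k + n) / om k : ℝ) : ℂ)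
  g n := ‖h‖ * gz 1 n
  g_nonneg n := mul_nonneg (norm_nonneg h) (gz_nonneg zero_le_one n)
  g_sum := (summable_gz zero_le_one).mul_left _
  bound k n := by
    split_ifs with hn
    · rw [norm_zero]
      exact mul_nonneg (by positivity) (mul_nonneg (norm_nonneg h) (gz_nonneg zero_le_one n))
    · rw [norm_mul, norm_div, norm_pow, Complex.norm_natCast, Complex.norm_real, Real.norm_eq_abs,
        abs_of_nonneg (om_ratio_nonneg k n), gz, one_pow]
      have h1 := om_ratio k n
      have h2 : ‖h‖ ^ (n - 1) ≤ ‖h‖ := by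
        obtain ⟨m, hm⟩ : ∃ m, n - 1 = m + 1 := ⟨n - 2, by omega⟩
        rw [hm, pow_succ]
        have : ‖h‖ ^ m ≤ 1 := pow_le_one₀ (norm_nonneg h) hh
        nlinarith [norm_nonneg h]
      have h3 : ‖h‖ ^ (n - 1) / n.factorial ≤ ‖h‖ / n.factorial := by gcongr
      calc ‖h‖ ^ (n - 1) / n.factorial * (om (k + n) / om k)
          ≤ ‖h‖ / n.factorial * (2 ^ (k + n) * om n) :=
            mul_le_mul h3 h1 (om_ratio_nonneg k n) (by positivity)
        _ = _ := by ring

theorem quotient_eq (x : K) (h : ℂ) (hh : ‖h‖ ≤ 1) (h0 : h ≠ 0) :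
    h⁻¹ • (T h x - x) - bm.op x = (rm h hh).op x := by
  apply K_ext
  intro k
  have hT := (tm h).summable_row x k
  have hB := bm.summable_row x k
  have hR := (rm h hh).summable_row x k
  rw [co_sub, co_smul, co_sub, Mat.co_op, Mat.co_op]
  have e0 : co (T h x) k = ∑' n, (tm h).c k n * co x (k + n) := (tm h).co_op x k
  have e1 : co x k = ∑' n : ℕ, if n = 0 then co x k else 0 := by
    rw [tsum_ite_eq]
  have hs1 : Summable fun n : ℕ => if n = 0 then co x k else 0 :=
    summable_of_ne_finset_zero (s := {0}) (fun n hn => by simp at hn; simp [hn])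
  rw [e0]
  conv_lhs => rw [e1]
  rw [← hT.tsum_sub hs1, ← tsum_mul_left, ← (((hT.sub hs1).mul_left h⁻¹).tsum_sub hB)]
  refine tsum_congr fun n => ?_
  have hok : (om k : ℂ) ≠ 0 := by exact_mod_cast (om_pos k).ne'
  rcases Nat.lt_or_ge n 2 with hn | hn
  · interval_cases n
    · simp [tm, bm, rm, hok]
    · simp [tm, bm, rm]
      field_simp
      ring
  · have h1 : n ≠ 0 := by omega
    have h2 : n ≠ 1 := by omega
    have h3 : ¬ n < 2 := by omega
    simp only [tm, bm, rm, h1, h2, h3, if_false]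
    obtain ⟨m, rfl⟩ : ∃ m, n = m + 1 := ⟨n - 1, by omega⟩
    rw [Nat.add_sub_cancel, pow_succ]
    field_simp
    ring

theorem tendsto_quotient (x : K) :
    Tendsto (fun h : ℂ => h⁻¹ • (T h x - x)) (𝓝[≠] 0) (𝓝 (bm.op x)) := by
  rw [tendsto_iff]
  intro m
  have h1 : ∀ᶠ h : ℂ in 𝓝[≠] 0, ‖(h⁻¹ • (T h x - x) - bm.op x).1 m‖ ≤
      ‖h‖ * ((∑' n, gz 1 n) * ‖x.1 (2 * m + 1)‖) := by
    have h2 : ∀ᶠ h : ℂ in 𝓝[≠] 0, ‖h‖ ≤ 1 := by
      apply nhdsWithin_le_nhds
      have : Metric.closedBall (0 : ℂ) 1 ∈ 𝓝 (0 : ℂ) := Metric.closedBall_mem_nhds _ one_pos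
      filter_upwards [this] with h hh
      simpa using hh
    filter_upwards [h2, self_mem_nhdsWithin] with h hh h0
    rw [quotient_eq x h hh h0]
    refine ((rm h hh).norm_op x m).trans (le_of_eq ?_)
    simp only [rm]
    rw [tsum_mul_left]; ring
  have h3 : Tendsto (fun h : ℂ => ‖h‖ * ((∑' n, gz 1 n) * ‖x.1 (2 * m + 1)‖)) (𝓝[≠] 0) (𝓝 0) := by
    have : Continuous fun h : ℂ => ‖h‖ * ((∑' n, gz 1 n) * ‖x.1 (2 * m + 1)‖) :=
      continuous_norm.mul continuous_const
    have h4 := this.tendsto 0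
    simp only [norm_zero, zero_mul] at h4
    exact h4.mono_left nhdsWithin_le_nhds
  exact squeeze_zero' (Eventually.of_forall fun h => norm_nonneg _) h1 h3

theorem tendsto_quotient_at (x : K) (z : ℂ) :
    Tendsto (fun h : ℂ => h⁻¹ • (T (z + h) x - T z x)) (𝓝[≠] 0) (𝓝 (bm.op (T z x))) := by
  have := tendsto_quotient (T z x)
  refine this.congr fun h => ?_
  rw [add_comm z h, T_add]

theorem differentiable_T (x : K) : Differentiable ℂ fun z => T z x := by
  intro z
  refine ⟨ContinuousLinearMap.toSpanSingleton ℂ (bm.op (T z x)), ?_⟩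
  refine HasFDerivAtFilter.of_isLittleOTVS ?_
  rw [Asymptotics.isLittleOTVS_iff_tendsto_inv_smul]
  · have h1 := tendsto_quotient_at x z
    rw [tendsto_iff] at h1 ⊢
    intro m
    have h2 := h1 m
    rw [prod_pure, tendsto_map'_iff]
    have h3 : Tendsto (fun y : ℂ => y - z) (𝓝[≠] z) (𝓝[≠] 0) := by
      apply tendsto_nhdsWithin_of_tendsto_nhds_of_eventually_within
      · have : Continuous fun y : ℂ => y - z := continuous_id.sub continuous_const
        have h4 := this.tendsto z
        rw [sub_self] at h4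
        exact h4.mono_left nhdsWithin_le_nhds
      · filter_upwards [self_mem_nhdsWithin] with y hy
        exact sub_ne_zero.mpr hy
    have h5 := h2.comp h3
    have h6 : Tendsto (fun y : ℂ => ‖((y - z)⁻¹ • (T y x - T z x -
        (ContinuousLinearMap.toSpanSingleton ℂ (bm.op (T z x))) (y - z)) - 0 : K).1 m‖)
        (𝓝[≠] z) (𝓝 0) := by
      refine h5.congr' ?_
      filter_upwards [self_mem_nhdsWithin] with y hy
      have hy' : y - z ≠ 0 := sub_ne_zero.mpr hy
      simp only [Function.comp_apply, add_sub_cancel, sub_zero,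
        ContinuousLinearMap.toSpanSingleton_apply]
      rw [smul_sub (y - z)⁻¹ (T y x - T z x), inv_smul_smul₀ hy']
    have h7 : (fun y : ℂ => ‖((y - z)⁻¹ • (T y x - T z x -
        (ContinuousLinearMap.toSpanSingleton ℂ (bm.op (T z x))) (y - z)) - 0 : K).1 m‖) z = 0 := by
      simp
    rw [← nhdsNE_sup_pure z]
    refine Tendsto.sup h6 ?_
    rw [tendsto_pure_left]
    intro s hs
    simp only [Function.comp_apply]
    have := mem_of_mem_nhds hs
    convert this using 1
  · refine Eventually.of_forall fun p hp => ?_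
    have : p.1 = p.2 := sub_eq_zero.mp hp
    simp [this]

end Q65.Fr
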