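import Mathlib
import Pool.Agent.Q65.FrGroup

/-! # All operators `a T_z` are hypercyclic -/

open Filter Topology

namespace Q65.Fr

set_option autoImplicit false

/-- the basis vectors -/
noncomputable def es (k : ℕ) : K := ofCo (Pi.single k 1) (fun m => by
  apply summable_of_ne_finset_zero (s := {k})
  intro n hn
  simp at hn
  simp [hn])

theorem co_es (k n : ℕ) : co (es k) n = if n = k then 1 else 0 := by
  rw [es, co_ofCo, Pi.single_apply]

theorem hasSum_co (x : K) : HasSum (fun k => co x k • es k) x := by
  have h1 : HasSum (fun k => ((co x k • es k : K) : ℕ → L1)) (x : ℕ → L1) := by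
    rw [Pi.hasSum]
    intro m
    have h2 := lp.hasSum_single (E := fun _ : ℕ => ℂ) (p := 1) (by simp) (x.1 m)
    convert h2 using 1
    funext k
    apply lp.ext
    funext n
    rw [co_eq, co_smul, co_es, lp.single_apply]
    by_cases h : n = k
    · subst h
      simp [co_eq, mul_comm]
    · simp [h]
  exact (Topology.IsInducing.subtypeVal.hasSum_iff (g := Ks.subtype)
    (f := fun k => co x k • es k) (a := x)).mp h1

/-- the exponentials -/
noncomputable def Ev (l : ℂ) : K := ofCo (fun k => l ^ k / (om k : ℂ)) (fun m => by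
  have := summable_div_om (‖l‖ * ((m : ℝ) + 1)) (by positivity)
  refine this.congr fun k => ?_
  rw [norm_div, norm_pow, Complex.norm_real, Real.norm_eq_abs, abs_of_pos (om_pos k), mul_pow]
  ring)

theorem co_Ev (l : ℂ) (k : ℕ) : co (Ev l) k = l ^ k / (om k : ℂ) := by
  rw [Ev, co_ofCo]

theorem T_Ev (z l : ℂ) : T z (Ev l) = Complex.exp (l * z) • Ev l := by
  apply K_ext
  intro k
  rw [co_T, co_smul, co_Ev, Complex.exp_eq_exp_ℂ, NormedSpace.exp_eq_tsum_div, ← tsum_mul_right]
  refine tsum_congr fun n => ?_
  rw [co_Ev]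
  have e1 : (om (k + n) : ℂ) ≠ 0 := by exact_mod_cast (om_pos (k + n)).ne'
  have e2 : (om k : ℂ) ≠ 0 := by exact_mod_cast (om_pos k).ne'
  push_cast
  field_simp
  ring

/-- a functional vanishing on all exponentials with parameters in an open set is zero -/
theorem functional_eq_zero (f : K →L[ℂ] ℂ) (U : Set ℂ) (hU : IsOpen U) (hne : U.Nonempty)
    (hf : ∀ l ∈ U, f (Ev l) = 0) : f = 0 := by
  set c : ℕ → ℂ := fun k => f (es k) / (om k : ℂ) with hc
  have hsum : ∀ l : ℂ, HasSum (fun k => c k * l ^ k) (f (Ev l)) := by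
    intro l
    have h1 := f.hasSum (hasSum_co (Ev l))
    convert h1 using 1
    funext k
    simp only [map_smul, co_Ev, smul_eq_mul, hc]
    ring
  set p := FormalMultilinearSeries.ofScalars ℂ c with hp
  have hrad : p.radius = ⊤ := by
    apply FormalMultilinearSeries.radius_eq_top_of_summable_norm
    intro r
    have h1 := (hsum (r : ℂ)).summable.norm
    refine h1.congr fun n => ?_
    rw [hp, FormalMultilinearSeries.ofScalars_norm, norm_mul, norm_pow]
    simp
  have hps : HasFPowerSeriesOnBall (fun l => f (Ev l)) p 0 ⊤ := by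
    refine ⟨by rw [hrad], by simp, ?_⟩
    intro y _
    have h1 := hsum y
    have h2 : ∀ n, (p n fun _ : Fin n => y) = c n * y ^ n := by
      intro n
      rw [hp, FormalMultilinearSeries.ofScalars_apply_eq]
      simp
    simp only [h2, zero_add]
    exact h1
  have han : AnalyticOnNhd ℂ (fun l => f (Ev l)) Set.univ := by
    have := hps.analyticOnNhd
    intro z _
    exact this z (by simp)
  obtain ⟨l0, hl0⟩ := hne
  have hev : (fun l => f (Ev l)) =ᶠ[𝓝 l0] 0 := by
    filter_upwards [hU.mem_nhds hl0] with l hl
    exact hf l hl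
  have hzero : Set.EqOn (fun l => f (Ev l)) 0 Set.univ :=
    han.eqOn_zero_of_preconnected_of_eventuallyEq_zero isPreconnected_univ (Set.mem_univ l0) hev
  have hfun : (fun l => f (Ev l)) = 0 := by
    funext l; exact hzero (Set.mem_univ l)
  have hp0 : p = 0 := by
    have h2 := hps.hasFPowerSeriesAt
    rw [hfun] at h2
    exact HasFPowerSeriesAt.eq_zero h2
  have hc0 : c = 0 := (FormalMultilinearSeries.ofScalars_series_eq_zero ℂ).mp hp0
  have hes : ∀ k, f (es k) = 0 := by
    intro k
    have h3 := congrFun hc0 k
    simp only [hc, Pi.zero_apply] at h3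
    have e2 : (om k : ℂ) ≠ 0 := by exact_mod_cast (om_pos k).ne'
    rcases div_eq_zero_iff.mp h3 with h | h
    · exact h
    · exact absurd h e2
  ext x
  have h4 := f.hasSum (hasSum_co x)
  have h5 : (fun k => f (co x k • es k)) = fun _ => 0 := by
    funext k
    simp [hes]
  rw [h5] at h4
  exact h4.unique hasSum_zero

theorem dense_of_contains (p : Submodule ℂ K) (U : Set ℂ) (hU : IsOpen U) (hne : U.Nonempty)
    (h : ∀ l ∈ U, Ev l ∈ p) : Dense (p : Set K) := by
  by_contra hd
  have hcs : ContinuousSMul ℝ K := IsScalarTower.continuousSMul ℂ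
  have hlc : LocallyConvexSpace ℝ K := (PolynormableSpace.withSeminorms ℂ K).toLocallyConvexSpace
  obtain ⟨x, hx⟩ : ∃ x, x ∉ closure (p : Set K) := by
    by_contra hcon
    push Not at hcon
    exact hd hcon
  have hconv : Convex ℝ (closure (p : Set K)) := by
    apply Convex.closure
    exact (p.restrictScalars ℝ).convex
  obtain ⟨f, u, hf1, hf2⟩ := RCLike.geometric_hahn_banach_closed_point (𝕜 := ℂ) hconv
    isClosed_closure hx
  have hfp : ∀ y ∈ p, f y = 0 := by
    intro y hy
    have hbd : ∀ c : ℂ, (c * f y).re < u := by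
      intro c
      have := hf1 (c • y) (subset_closure (p.smul_mem c hy))
      simpa using this
    by_contra hne0
    have h1 := hbd (((u : ℂ)) / f y)
    rw [div_mul_cancel₀ _ hne0, Complex.ofReal_re] at h1
    exact lt_irrefl _ h1
  have hf0 : f = 0 := functional_eq_zero f U hU hne (fun l hl => hfp _ (h l hl))
  have h0 := hf1 0 (subset_closure p.zero_mem)
  rw [hf0] at h0 hf2
  simp at h0 hf2
  linarith

/-- the vectors whose orbit tends to zero form a dense set -/
theorem dense_small (a z : ℂ) (hz : z ≠ 0) :
    Dense {x : K | Tendsto (fun n : ℕ => ((a • T z) ^ n) x) atTop (𝓝 0)} := by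
  let p : Submodule ℂ K :=
    { carrier := {x : K | Tendsto (fun n : ℕ => ((a • T z) ^ n) x) atTop (𝓝 0)}
      add_mem' := by
        intro x y hx hy
        have := Tendsto.add hx hy
        simp only [Set.mem_ofPred_eq, map_add]
        simpa only [add_zero] using this
      zero_mem' := by
        simp only [Set.mem_ofPred_eq, map_zero]
        exact tendsto_const_nhds
      smul_mem' := by
        intro c x hx
        have := Tendsto.const_smul hx c
        simp only [Set.mem_ofPred_eq, map_smul]
        simpa only [smul_zero] using this }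
  have hpow : ∀ (n : ℕ) (l : ℂ), ((a • T z) ^ n) (Ev l) = (a * Complex.exp (l * z)) ^ n • Ev l := by
    intro n l
    induction n with
    | zero => simp
    | succ n ih =>
      rw [pow_succ', ContinuousLinearMap.mul_def, ContinuousLinearMap.comp_apply, ih, map_smul,
        _root_.smul_apply, T_Ev, smul_smul, smul_smul, pow_succ]
      ring_nf
  apply dense_of_contains p {l : ℂ | ‖a * Complex.exp (l * z)‖ < 1}
  · exact isOpen_lt (continuous_norm.comp (continuous_const.mul
      (Complex.continuous_exp.comp (continuous_id.mul continuous_const)))) continuous_const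
  · refine ⟨-((‖a‖ + 1 : ℝ) : ℂ) / z, ?_⟩
    simp only [Set.mem_ofPred_eq]
    rw [div_mul_cancel₀ _ hz, norm_mul, Complex.norm_exp]
    simp only [Complex.neg_re, Complex.ofReal_re]
    have h1 : ‖a‖ + 1 < Real.exp (‖a‖ + 1) := by
      have := Real.add_one_lt_exp (x := ‖a‖ + 1) (by positivity)
      linarith
    rw [Real.exp_neg, ← div_eq_mul_inv, div_lt_one (Real.exp_pos _)]
    linarith
  · intro l hl
    change Tendsto (fun n : ℕ => ((a • T z) ^ n) (Ev l)) atTop (𝓝 0)
    simp only [hpow]
    have h1 : Tendsto (fun n : ℕ => (a * Complex.exp (l * z)) ^ n) atTop (𝓝 0) :=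
      tendsto_pow_atTop_nhds_zero_of_norm_lt_one hl
    have := h1.smul_const (Ev l)
    simpa using this

instance : TopologicalSpace.SeparableSpace K := by
  have h1 : TopologicalSpace.IsSeparable (Set.range es) := (Set.countable_range es).isSeparable
  have h2 := h1.span (R := ℂ)
  have h3 : closure (Submodule.span ℂ (Set.range es) : Set K) = Set.univ := by
    rw [Set.eq_univ_iff_forall]
    intro x
    have h4 := (hasSum_co x)
    refine mem_closure_of_tendsto h4 (Eventually.of_forall fun s => ?_)
    exact Submodule.sum_mem _ fun k _ => Submodule.smul_mem _ _ (Submodule.subset_span ⟨k, rfl⟩)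
  have h5 := h2.closure
  rw [h3] at h5
  exact TopologicalSpace.isSeparable_univ_iff.mp h5

instance : (uniformity K).IsCountablyGenerated := Filter.comap.isCountablyGenerated _ _

instance : SecondCountableTopology K := UniformSpace.secondCountable_of_separable K

instance : BaireSpace K := by infer_instance

/-- an abstract form of the Kitai / Godefroy–Shapiro criterion -/
theorem hypercyclic_of_dense {X : Type*} [AddCommGroup X] [Module ℂ X] [TopologicalSpace X]
    [IsTopologicalAddGroup X] [SecondCountableTopology X] [BaireSpace X]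
    (A B : X →L[ℂ] X) (hAB : ∀ x, A (B x) = x)
    (hA : Dense {x : X | Tendsto (fun n : ℕ => (A ^ n) x) atTop (𝓝 0)})
    (hB : Dense {x : X | Tendsto (fun n : ℕ => (B ^ n) x) atTop (𝓝 0)}) :
    ∃ x : X, Dense (Set.range fun n : ℕ => (A ^ n) x) := by
  have hABn : ∀ (n : ℕ) (x : X), (A ^ n) ((B ^ n) x) = x := by
    intro n
    induction n with
    | zero => intro x; rfl
    | succ n ih =>
      intro x
      rw [pow_succ, pow_succ', ContinuousLinearMap.mul_def, ContinuousLinearMap.mul_def,
        ContinuousLinearMap.comp_apply, ContinuousLinearMap.comp_apply, hAB, ih]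
  set b := TopologicalSpace.countableBasis X with hb
  have hbc : b.Countable := TopologicalSpace.countable_countableBasis X
  have hbb : TopologicalSpace.IsTopologicalBasis b := TopologicalSpace.isBasis_countableBasis X
  have hd : Dense (⋂ V ∈ b, (⋃ n : ℕ, (A ^ n) ⁻¹' V)) := by
    apply dense_biInter_of_isOpen
    · intro V hV
      exact isOpen_iUnion fun n => (hbb.isOpen hV).preimage (A ^ n).continuous
    · exact hbc
    · intro V hV
      have hVo : IsOpen V := hbb.isOpen hV
      have hVn : V.Nonempty := TopologicalSpace.nonempty_of_mem_countableBasis hV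
      rw [dense_iff_inter_open]
      intro U hU hUn
      obtain ⟨x, hxU, hx⟩ := hA.inter_open_nonempty U hU hUn
      obtain ⟨y, hyV, hy⟩ := hB.inter_open_nonempty V hVo hVn
      have h1 : Tendsto (fun n : ℕ => x + (B ^ n) y) atTop (𝓝 x) := by
        have := hy.const_add x
        simpa using this
      have h2 : Tendsto (fun n : ℕ => (A ^ n) x + y) atTop (𝓝 y) := by
        have := hx.add_const y
        simpa using this
      obtain ⟨n, hn1, hn2⟩ := ((h1.eventually (hU.mem_nhds hxU)).and
        (h2.eventually (hVo.mem_nhds hyV))).exists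
      refine ⟨x + (B ^ n) y, hn1, ?_⟩
      rw [Set.mem_iUnion]
      refine ⟨n, ?_⟩
      rw [Set.mem_preimage, map_add, hABn]
      exact hn2
  obtain ⟨x, hx⟩ := hd.nonempty
  refine ⟨x, ?_⟩
  rw [hbb.dense_iff]
  intro V hV hVn
  rw [Set.mem_iInter₂] at hx
  obtain ⟨n, hn⟩ := Set.mem_iUnion.mp (hx V hV)
  exact ⟨(A ^ n) x, hn, n, rfl⟩

theorem hypercyclic (a z : ℂ) (ha : a ≠ 0) (hz : z ≠ 0) :
    ∃ x : K, Dense (Set.range fun n : ℕ => ((a • T z) ^ n) x) := by
  apply hypercyclic_of_dense (a • T z) (a⁻¹ • T (-z))
  · intro x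
    rw [_root_.smul_apply, _root_.smul_apply, map_smul, ← T_add,
      add_neg_cancel, T_zero, ContinuousLinearMap.id_apply, smul_inv_smul₀ ha]
  · exact dense_small a z hz
  · exact dense_small a⁻¹ (-z) (neg_ne_zero.mpr hz)

end Q65.Fr
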