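import Mathlib

/-! # Counting zeros, and a Borel–Cantelli argument for entire functions of order `3/2` -/

open Filter Topology MeasureTheory

namespace Q65.Fr

set_option autoImplicit false

/-- Counting zeros (a weak form of Jensen's inequality). -/
theorem zero_count (c : ℂ) (r : ℝ) (hr : 0 < r) (s : Finset ℂ) :
    ∀ (F : ℂ → ℂ), Differentiable ℂ F → ∀ M : ℝ, (∀ w ∈ s, F w = 0 ∧ ‖w - c‖ ≤ r) →
      (∀ w, ‖w - c‖ ≤ 3 * r → ‖F w‖ ≤ M) → ‖F c‖ * 2 ^ s.card ≤ M := by
  classical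
  induction s using Finset.induction_on with
  | empty =>
    intro F _ M _ hM
    simpa using hM c (by simp; positivity)
  | insert a s ha ih =>
    intro F hF M hs hM
    have hFa : F a = 0 := (hs a (Finset.mem_insert_self a s)).1
    have har : ‖a - c‖ ≤ r := (hs a (Finset.mem_insert_self a s)).2
    set G := dslope F a with hG
    have hGd : Differentiable ℂ G := by
      have h1 := (Complex.differentiableOn_dslope (s := Set.univ) (c := a) (f := F)
        Filter.univ_mem).mpr hF.differentiableOn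
      exact differentiableOn_univ.mp h1
    have hGF : ∀ w, F w = (w - a) * G w := by
      intro w
      have := sub_smul_dslope F a w
      rw [hFa, sub_zero, smul_eq_mul] at this
      exact this.symm
    have hM2 : ∀ w, ‖w - c‖ ≤ 3 * r → ‖G w‖ ≤ M / (2 * r) := by
      intro w hw
      have hsph : ∀ z ∈ frontier (Metric.ball c (3 * r)), ‖G z‖ ≤ M / (2 * r) := by
        intro z hz
        rw [frontier_ball c (by positivity), mem_sphere_iff_norm] at hz
        have h1 : 2 * r ≤ ‖z - a‖ := by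
          have h2 : ‖z - c‖ ≤ ‖z - a‖ + ‖a - c‖ := by
            have := norm_add_le (z - a) (a - c)
            simpa using this
          linarith
        have h3 := hM z hz.le
        rw [hGF z, norm_mul] at h3
        rw [le_div_iff₀ (by positivity)]
        calc ‖G z‖ * (2 * r) ≤ ‖G z‖ * ‖z - a‖ := mul_le_mul_of_nonneg_left h1 (norm_nonneg _)
          _ = ‖z - a‖ * ‖G z‖ := mul_comm _ _
          _ ≤ M := h3
      refine Complex.norm_le_of_forall_mem_frontier_norm_le Metric.isBounded_ball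
        hGd.diffContOnCl hsph ?_
      rw [closure_ball c (by positivity), mem_closedBall_iff_norm]
      exact hw
    have h4 := ih G hGd (M / (2 * r)) (fun w hw => by
      have h5 := hs w (Finset.mem_insert_of_mem hw)
      refine ⟨?_, h5.2⟩
      have h6 : w - a ≠ 0 := by
        intro h
        have : w = a := sub_eq_zero.mp h
        exact ha (this ▸ hw)
      have h7 := hGF w
      rw [h5.1] at h7
      rcases mul_eq_zero.mp h7.symm with h | h
      · exact absurd h h6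
      · exact h) hM2
    rw [Finset.card_insert_of_notMem ha, hGF c, norm_mul, pow_succ]
    rw [le_div_iff₀ (by positivity)] at h4
    have h8 : ‖c - a‖ ≤ r := by rw [norm_sub_rev]; exact har
    calc ‖c - a‖ * ‖G c‖ * (2 ^ s.card * 2) = (‖G c‖ * 2 ^ s.card) * (2 * ‖c - a‖) := by ring
      _ ≤ (‖G c‖ * 2 ^ s.card) * (2 * r) := by gcongr
      _ ≤ M := h4

/-- a zero near a simple zero -/
theorem exists_zero (h : ℂ → ℂ) (hh : Differentiable ℂ h) (hu : ∀ u, ‖u‖ ≤ 1 → ‖h u - u‖ < 1 / 4) :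
    ∃ u, ‖u‖ ≤ 1 ∧ h u = 0 := by
  by_contra hcon
  push Not at hcon
  have hd : DiffContOnCl ℂ (fun u => (h u)⁻¹) (Metric.ball 0 1) := by
    constructor
    · intro u hu1
      exact ((hh u).inv (hcon u (by simpa using (mem_ball_zero_iff.mp hu1).le))).differentiableWithinAt
    · rw [closure_ball 0 one_ne_zero]
      intro u hu1
      exact (hh.continuous.continuousAt.inv₀ (hcon u (by simpa using hu1))).continuousWithinAt
  have h1 : ∀ z ∈ frontier (Metric.ball (0 : ℂ) 1), ‖(h z)⁻¹‖ ≤ 4 / 3 := by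
    intro z hz
    rw [frontier_ball 0 one_ne_zero, mem_sphere_zero_iff_norm] at hz
    have h2 := hu z hz.le
    have h3 : 3 / 4 ≤ ‖h z‖ := by
      have : ‖z‖ ≤ ‖h z‖ + ‖h z - z‖ := by
        have := norm_sub_le (h z) (h z - z)
        simpa using this
      rw [hz] at this
      linarith
    rw [norm_inv, inv_le_comm₀ (by linarith) (by norm_num)]
    norm_num
    linarith
  have h4 := Complex.norm_le_of_forall_mem_frontier_norm_le Metric.isBounded_ball hd h1
    (subset_closure (Metric.mem_ball_self one_pos))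
  have h5 := hu 0 (by simp)
  rw [sub_zero] at h5
  have h6 : 0 < ‖h 0‖ := norm_pos_iff.mpr (hcon 0 (by simp))
  rw [norm_inv, inv_le_comm₀ h6 (by norm_num)] at h4
  norm_num at h4
  linarith

/-- the good parameters at time `n` -/
def En (F : ℂ → ℂ) (n : ℕ) : Set (ℝ × ℂ) :=
  {p | ‖p.2‖ ≤ 2 ∧ ∀ u, ‖u‖ ≤ 2 → ‖(Real.exp p.1 : ℂ) ^ n * F (n * p.2 + u) - u‖ < 1 / 8}

/-- a box of parameters attached to a point `w` -/
noncomputable def Bx (F : ℂ → ℂ) (n : ℕ) (w : ℂ) : Set (ℝ × ℂ) :=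
  Set.Icc (-Real.log (‖F (w + 1)‖ + ‖F (w - 1)‖) / n)
      ((-Real.log (‖F (w + 1)‖ + ‖F (w - 1)‖) + 2) / n) ×ˢ
    Metric.closedBall (w / n) (1 / n)

theorem En_subset (F : ℂ → ℂ) (hF : Differentiable ℂ F) (n : ℕ) (hn : 1 ≤ n) (p : ℝ × ℂ)
    (hp : p ∈ En F n) : ∃ w : ℂ, F w = 0 ∧ ‖w‖ ≤ 2 * n + 1 ∧ p ∈ Bx F n w := by
  obtain ⟨hp2, hp1⟩ := hp
  have hn0 : (0 : ℝ) < n := by exact_mod_cast hn
  obtain ⟨u0, hu0, hz⟩ := exists_zero (fun u => (Real.exp p.1 : ℂ) ^ n * F (n * p.2 + u))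
    ((differentiable_const _).mul (hF.comp ((differentiable_const _).add differentiable_id)))
    (fun u hu => (hp1 u (by linarith)).trans (by norm_num))
  have hexp : (Real.exp p.1 : ℂ) ^ n ≠ 0 := pow_ne_zero _ (by exact_mod_cast (Real.exp_pos _).ne')
  have hFz : F (n * p.2 + u0) = 0 := by
    rcases mul_eq_zero.mp hz with h | h
    · exact absurd h hexp
    · exact h
  refine ⟨n * p.2 + u0, hFz, ?_, ?_⟩
  · calc ‖(n : ℂ) * p.2 + u0‖ ≤ ‖(n : ℂ) * p.2‖ + ‖u0‖ := norm_add_le _ _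
      _ ≤ n * 2 + 1 := by
          rw [norm_mul, Complex.norm_natCast]
          gcongr
      _ = 2 * n + 1 := by ring
  · have h1 := hp1 (u0 + 1) ((norm_add_le _ _).trans (by rw [norm_one]; linarith))
    have h2 := hp1 (u0 - 1) ((norm_sub_le _ _).trans (by rw [norm_one]; linarith))
    rw [← add_assoc] at h1
    rw [← add_sub_assoc] at h2
    set w := (n : ℂ) * p.2 + u0 with hw
    set S := ‖F (w + 1)‖ + ‖F (w - 1)‖ with hS
    have hnE : ‖(Real.exp p.1 : ℂ) ^ n‖ = Real.exp (n * p.1) := by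
      rw [norm_pow, Complex.norm_real, Real.norm_eq_abs, abs_of_pos (Real.exp_pos _),
        ← Real.exp_nat_mul]
    have e1 : Real.exp (n * p.1) * ‖F (w + 1)‖ = ‖(Real.exp p.1 : ℂ) ^ n * F (w + 1)‖ := by
      rw [norm_mul, hnE]
    have e2 : Real.exp (n * p.1) * ‖F (w - 1)‖ = ‖(Real.exp p.1 : ℂ) ^ n * F (w - 1)‖ := by
      rw [norm_mul, hnE]
    have a1 : ‖u0 + 1‖ ≤ ‖(Real.exp p.1 : ℂ) ^ n * F (w + 1)‖ + 1 / 8 := by
      have := norm_sub_norm_le (u0 + 1) ((Real.exp p.1 : ℂ) ^ n * F (w + 1))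
      rw [norm_sub_rev (u0 + 1) _] at this
      linarith
    have a2 : ‖u0 - 1‖ ≤ ‖(Real.exp p.1 : ℂ) ^ n * F (w - 1)‖ + 1 / 8 := by
      have := norm_sub_norm_le (u0 - 1) ((Real.exp p.1 : ℂ) ^ n * F (w - 1))
      rw [norm_sub_rev (u0 - 1) _] at this
      linarith
    have b1 : ‖(Real.exp p.1 : ℂ) ^ n * F (w + 1)‖ ≤ 2 + 1 / 8 := by
      have := norm_sub_norm_le ((Real.exp p.1 : ℂ) ^ n * F (w + 1)) (u0 + 1)
      have h3 : ‖u0 + 1‖ ≤ 2 := (norm_add_le _ _).trans (by rw [norm_one]; linarith)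
      linarith
    have b2 : ‖(Real.exp p.1 : ℂ) ^ n * F (w - 1)‖ ≤ 2 + 1 / 8 := by
      have := norm_sub_norm_le ((Real.exp p.1 : ℂ) ^ n * F (w - 1)) (u0 - 1)
      have h3 : ‖u0 - 1‖ ≤ 2 := (norm_sub_le _ _).trans (by rw [norm_one]; linarith)
      linarith
    have h2le : 2 ≤ ‖u0 + 1‖ + ‖u0 - 1‖ := by
      have := norm_sub_le (u0 + 1) (u0 - 1)
      have h3 : (u0 + 1) - (u0 - 1) = 2 := by ring
      rw [h3] at this
      simpa using this
    have hlow : 1 ≤ Real.exp (n * p.1) * S := by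
      rw [hS, mul_add, e1, e2]; linarith
    have hupp : Real.exp (n * p.1) * S ≤ Real.exp 2 := by
      have h5 : (5 : ℝ) ≤ Real.exp 2 := by
        have := Real.quadratic_le_exp_of_nonneg (x := 2) (by norm_num)
        linarith
      rw [hS, mul_add, e1, e2]; linarith
    have hSpos : 0 < S := by
      by_contra hcon
      push Not at hcon
      have : Real.exp (n * p.1) * S ≤ 0 := mul_nonpos_of_nonneg_of_nonpos (Real.exp_pos _).le hcon
      linarith
    have hlog : Real.log (Real.exp (n * p.1) * S) = n * p.1 + Real.log S := by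
      rw [Real.log_mul (Real.exp_pos _).ne' hSpos.ne', Real.log_exp]
    have hl1 : 0 ≤ n * p.1 + Real.log S := by
      rw [← hlog]; exact Real.log_nonneg hlow
    have hl2 : n * p.1 + Real.log S ≤ 2 := by
      rw [← hlog, ← Real.log_exp 2]
      exact Real.log_le_log (by linarith) hupp
    refine ⟨⟨?_, ?_⟩, ?_⟩
    · rw [div_le_iff₀ hn0]; linarith
    · rw [le_div_iff₀ hn0]; linarith
    · rw [mem_closedBall_iff_norm]
      have hnc : (n : ℂ) ≠ 0 := by exact_mod_cast hn0.ne'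
      have : p.2 - w / n = -u0 / n := by
        rw [hw]; field_simp; ring
      rw [this, norm_div, norm_neg, Complex.norm_natCast]
      exact div_le_div_of_nonneg_right hu0 hn0.le

theorem volume_Bx (F : ℂ → ℂ) (n : ℕ) (hn : 1 ≤ n) (w : ℂ) :
    volume (Bx F n w) = ENNReal.ofReal (2 * Real.pi / (n : ℝ) ^ 3) := by
  have hn0 : (0 : ℝ) < n := by exact_mod_cast hn
  rw [Bx, Measure.volume_eq_prod, Measure.prod_prod, Real.volume_Icc, Complex.volume_closedBall]
  have h1 : (-Real.log (‖F (w + 1)‖ + ‖F (w - 1)‖) + 2) / (n : ℝ) -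
      -Real.log (‖F (w + 1)‖ + ‖F (w - 1)‖) / n = 2 / n := by
    field_simp
    ring
  rw [h1]
  have h2 : (NNReal.pi : ENNReal) = ENNReal.ofReal Real.pi := by
    rw [ENNReal.ofReal, ENNReal.coe_inj]
    ext
    simp [Real.pi_pos.le]
  rw [h2, ← ENNReal.ofReal_pow (by positivity), ← ENNReal.ofReal_mul (by positivity),
    ← ENNReal.ofReal_mul (by positivity)]
  congr 1
  field_simp

/-- **Borel–Cantelli**: the parameters which are good infinitely often form a null set. -/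
theorem null_limsup (F : ℂ → ℂ) (hF : Differentiable ℂ F) (A : ℝ)
    (hA : ∀ w, ‖F w‖ ≤ A * Real.exp (‖w‖ ^ (3 / 2 : ℝ))) (c : ℂ) (hc : F c ≠ 0) :
    volume (limsup (fun n => En F n) atTop) = 0 := by
  classical
  set D : ℝ := 10 + 4 * ‖c‖ with hD
  have hFc : 0 < ‖F c‖ := norm_pos_iff.mpr hc
  have hApos : 0 < A := by
    have := hA c
    by_contra hcon
    push Not at hcon
    have h1 : A * Real.exp (‖c‖ ^ (3 / 2 : ℝ)) ≤ 0 :=
      mul_nonpos_of_nonpos_of_nonneg hcon (Real.exp_pos _).le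
    linarith
  set C : ℝ := (|Real.log (A / ‖F c‖)| + D ^ (3 / 2 : ℝ)) / Real.log 2 with hC
  have hlog2 : 0 < Real.log 2 := Real.log_pos (by norm_num)
  have hC0 : 0 ≤ C := by
    apply div_nonneg _ hlog2.le
    have : 0 ≤ D ^ (3 / 2 : ℝ) := Real.rpow_nonneg (by positivity) _
    have := abs_nonneg (Real.log (A / ‖F c‖))
    linarith
  -- counting
  have hcount : ∀ n : ℕ, 1 ≤ n → ∀ s : Finset ℂ, (∀ w ∈ s, F w = 0 ∧ ‖w‖ ≤ 2 * n + 1) →
      (s.card : ℝ) ≤ C * (n : ℝ) ^ (3 / 2 : ℝ) := by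
    intro n hn s hs
    have hn1 : (1 : ℝ) ≤ n := by exact_mod_cast hn
    have h1 := zero_count c (2 * n + 1 + ‖c‖) (by positivity) s F hF
      (A * Real.exp ((D * n) ^ (3 / 2 : ℝ))) (fun w hw => by
        refine ⟨(hs w hw).1, ?_⟩
        exact (norm_sub_le _ _).trans (by linarith [(hs w hw).2]))
      (fun w hw => by
        refine (hA w).trans ?_
        have h2 : ‖w‖ ≤ D * n := by
          have h3 : ‖w‖ ≤ ‖w - c‖ + ‖c‖ := by
            have := norm_add_le (w - c) c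
            simpa using this
          rw [hD]
          nlinarith [norm_nonneg c]
        have h4 : ‖w‖ ^ (3 / 2 : ℝ) ≤ (D * n) ^ (3 / 2 : ℝ) :=
          Real.rpow_le_rpow (norm_nonneg _) h2 (by norm_num)
        exact mul_le_mul_of_nonneg_left (Real.exp_le_exp.mpr h4) hApos.le)
    have h5 : (2 : ℝ) ^ s.card ≤ A / ‖F c‖ * Real.exp ((D * n) ^ (3 / 2 : ℝ)) := by
      rw [div_mul_eq_mul_div, le_div_iff₀ hFc]
      linarith [mul_comm (‖F c‖) ((2 : ℝ) ^ s.card)]
    have h6 := Real.log_le_log (by positivity) h5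
    rw [Real.log_pow, Real.log_mul (by positivity) (Real.exp_pos _).ne', Real.log_exp,
      Real.mul_rpow (by positivity) (by positivity)] at h6
    have h7 : (1 : ℝ) ≤ (n : ℝ) ^ (3 / 2 : ℝ) := Real.one_le_rpow hn1 (by norm_num)
    rw [hC, div_mul_eq_mul_div, le_div_iff₀ hlog2]
    have h8 := le_abs_self (Real.log (A / ‖F c‖))
    have h9 := abs_nonneg (Real.log (A / ‖F c‖))
    nlinarith
  -- finiteness of the zero sets
  have hfin : ∀ n : ℕ, 1 ≤ n → {w : ℂ | F w = 0 ∧ ‖w‖ ≤ 2 * n + 1}.Finite := by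
    intro n hn
    by_contra hinf
    obtain ⟨N, hN⟩ := exists_nat_gt (C * (n : ℝ) ^ (3 / 2 : ℝ))
    obtain ⟨t, ht1, ht2⟩ := Set.Infinite.exists_subset_card_eq hinf N
    have := hcount n hn t (fun w hw => ht1 hw)
    rw [ht2] at this
    linarith
  have hmeas : ∀ n : ℕ, 1 ≤ n → volume (En F n) ≤
      ENNReal.ofReal (C * (2 * Real.pi) * (1 / (n : ℝ) ^ (3 / 2 : ℝ))) := by
    intro n hn
    have hn0 : (0 : ℝ) < n := by exact_mod_cast hn
    set Z := (hfin n hn).toFinset with hZ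
    have hsub : En F n ⊆ ⋃ w ∈ Z, Bx F n w := by
      intro p hp
      obtain ⟨w, hw1, hw2, hw3⟩ := En_subset F hF n hn p hp
      rw [Set.mem_iUnion₂]
      refine ⟨w, ?_, hw3⟩
      rw [hZ, Set.Finite.mem_toFinset]
      exact ⟨hw1, hw2⟩
    have h1 : volume (En F n) ≤ ∑ w ∈ Z, volume (Bx F n w) :=
      (measure_mono hsub).trans (measure_biUnion_finset_le _ _)
    refine h1.trans ?_
    simp only [volume_Bx F n hn]
    rw [Finset.sum_const, nsmul_eq_mul]
    have h2 : (Z.card : ENNReal) = ENNReal.ofReal (Z.card : ℝ) := by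
      rw [ENNReal.ofReal_natCast]
    rw [h2, ← ENNReal.ofReal_mul (Nat.cast_nonneg _)]
    apply ENNReal.ofReal_le_ofReal
    have h3 := hcount n hn Z (fun w hw => by
      rw [hZ, Set.Finite.mem_toFinset] at hw
      exact hw)
    have h4 : (n : ℝ) ^ 3 = (n : ℝ) ^ (3 / 2 : ℝ) * (n : ℝ) ^ (3 / 2 : ℝ) := by
      rw [← Real.rpow_add hn0]; norm_num
    have h5 : 0 < (n : ℝ) ^ (3 / 2 : ℝ) := Real.rpow_pos_of_pos hn0 _
    calc (Z.card : ℝ) * (2 * Real.pi / (n : ℝ) ^ 3)
        ≤ (C * (n : ℝ) ^ (3 / 2 : ℝ)) * (2 * Real.pi / (n : ℝ) ^ 3) := by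
          apply mul_le_mul_of_nonneg_right h3; positivity
      _ = C * (2 * Real.pi) * (1 / (n : ℝ) ^ (3 / 2 : ℝ)) := by
          rw [h4]; field_simp
  have hsum : Summable fun n : ℕ => C * (2 * Real.pi) * (1 / (n : ℝ) ^ (3 / 2 : ℝ)) :=
    (Real.summable_one_div_nat_rpow.mpr (by norm_num)).mul_left _
  have hsum1 : Summable fun n : ℕ =>
      C * (2 * Real.pi) * (1 / (((n + 1 : ℕ) : ℝ)) ^ (3 / 2 : ℝ)) :=
    (summable_nat_add_iff 1).mpr hsum
  rw [← Filter.limsup_nat_add (fun n => En F n) 1]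
  apply measure_limsup_atTop_eq_zero
  have hle : ∑' n : ℕ, volume (En F (n + 1)) ≤ ∑' n : ℕ, ENNReal.ofReal
      (C * (2 * Real.pi) * (1 / (((n + 1 : ℕ) : ℝ)) ^ (3 / 2 : ℝ))) :=
    ENNReal.tsum_le_tsum fun n => hmeas (n + 1) (by omega)
  refine ne_top_of_le_ne_top ?_ hle
  rw [← ENNReal.ofReal_tsum_of_nonneg (fun n => ?_) hsum1]
  · exact ENNReal.ofReal_ne_top
  · have := Real.pi_pos
    positivity

end Q65.Fr
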