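import Mathlib

/-!
# Bounded perturbation of a contraction semigroup (abstract part)
-/

set_option linter.unusedSectionVars false

namespace Q65.GF

open Set MeasureTheory Filter Topology
open scoped BoundedContinuousFunction NNReal

noncomputable section

section defs

variable {X : Type*} [NormedAddCommGroup X] [NormedSpace ℝ X]

/-- `V` (restricted to `[0,∞)`) is a `C₀`-semigroup -/
structure IsC0 (V : ℝ → X →L[ℝ] X) : Prop where
  zero : ∀ f, V 0 f = f
  add : ∀ s t, 0 ≤ s → 0 ≤ t → ∀ f, V (s + t) f = V s (V t f)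
  cont : ∀ f, ContinuousOn (fun t => V t f) (Ici 0)

/-- `f` is in the domain of the generator of `V` and the generator maps it to `g` -/
def IsGen (V : ℝ → X →L[ℝ] X) (f g : X) : Prop :=
  Tendsto (fun t : ℝ => t⁻¹ • (V t f - f)) (𝓝[>] 0) (𝓝 g)

/-- distance to the compact operators -/
def essNorm (T : X →L[ℝ] X) : ℝ :=
  sInf {c : ℝ | ∃ K : X →L[ℝ] X, IsCompactOperator K ∧ c = ‖T - K‖}

/-- essential spectral radius (Nussbaum's formula: spectral radius in the Calkin algebra) -/
def essRad (T : X →L[ℝ] X) : ℝ := ⨅ n : ℕ, (essNorm (T ^ (n+1))) ^ (1 / ((n:ℝ) + 1))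

/-- type (growth bound) -/
def typ (V : ℝ → X →L[ℝ] X) : EReal :=
  sInf {w : EReal | ∃ c : ℝ, w = c ∧ ∃ M : ℝ, ∀ t, 0 ≤ t → ‖V t‖ ≤ M * Real.exp (c * t)}

/-- essential type: the infimum of the real `c` with `r_ess(V t) ≤ e^{ct}` for all `t > 0` -/
def essTyp (V : ℝ → X →L[ℝ] X) : EReal :=
  sInf {w : EReal | ∃ c : ℝ, w = c ∧ ∀ t, 0 < t → essRad (V t) ≤ Real.exp (c * t)}

end defs

section volterra

variable {X : Type*} [NormedAddCommGroup X] [NormedSpace ℝ X]
variable (U : ℝ → X →L[ℝ] X) (B : X →L[ℝ] X)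

/-- extension to negative times by the identity -/
def Us (t : ℝ) : X →L[ℝ] X := U (max t 0)

lemma cont_Us (hU : IsC0 U) (hU1 : ∀ t, 0 ≤ t → ‖U t‖ ≤ 1) {Y : Type*} [TopologicalSpace Y]
    {g : Y → ℝ} {w : Y → X} (hg : Continuous g) (hw : Continuous w) :
    Continuous (fun y => Us U (g y) (w y)) := by
  rw [continuous_iff_continuousAt]
  intro y₀
  have h1 : Continuous (fun y => Us U (g y) (w y₀)) := by
    have h2 : Continuous (fun y => max (g y) 0) := hg.max continuous_const
    exact (hU.cont (w y₀)).comp_continuous h2 (fun y => mem_Ici.2 (le_max_right _ _))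
  have h3 : Tendsto (fun y => Us U (g y) (w y - w y₀)) (𝓝 y₀) (𝓝 0) := by
    rw [tendsto_zero_iff_norm_tendsto_zero]
    have h4 : Tendsto (fun y => ‖w y - w y₀‖) (𝓝 y₀) (𝓝 0) := by
      have := (hw.sub (continuous_const (y := w y₀))).norm.tendsto y₀
      simpa using this
    refine squeeze_zero (fun y => norm_nonneg _) (fun y => ?_) h4
    calc ‖Us U (g y) (w y - w y₀)‖ ≤ ‖Us U (g y)‖ * ‖w y - w y₀‖ := ContinuousLinearMap.le_opNorm _ _
      _ ≤ 1 * ‖w y - w y₀‖ := by
        apply mul_le_mul_of_nonneg_right _ (norm_nonneg _)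
        exact hU1 _ (le_max_right _ _)
      _ = _ := one_mul _
  have h5 := h3.add (h1.tendsto y₀)
  rw [zero_add] at h5
  refine h5.congr fun y => ?_
  rw [map_sub]; abel

/-- weight -/
def kw : ℝ := 2 * ‖B‖ + 1

lemma kw_pos : 0 < kw B := by unfold kw; positivity

/-- weighted convolution -/
def conv (w : ℝ → X) (t : ℝ) : X :=
  ∫ s in (0:ℝ)..(max t 0), Real.exp (-(kw B * s)) • Us U s (B (w (max t 0 - s)))

lemma cont_integrand (hU : IsC0 U) (hU1 : ∀ t, 0 ≤ t → ‖U t‖ ≤ 1) {w : ℝ → X} (hw : Continuous w) :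
    Continuous (fun q : ℝ × ℝ => Real.exp (-(kw B * q.2)) • Us U q.2 (B (w (max q.1 0 - q.2)))) := by
  apply Continuous.smul (by fun_prop)
  apply cont_Us U hU hU1 continuous_snd
  apply B.continuous.comp
  apply hw.comp
  fun_prop

variable [CompleteSpace X]

lemma cont_conv (hU : IsC0 U) (hU1 : ∀ t, 0 ≤ t → ‖U t‖ ≤ 1) {w : ℝ → X} (hw : Continuous w) :
    Continuous (conv U B w) := by
  unfold conv
  exact intervalIntegral.continuous_parametric_intervalIntegral_of_continuous
    (f := fun t s => Real.exp (-(kw B * s)) • Us U s (B (w (max t 0 - s))))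
    (cont_integrand U B hU hU1 hw) (continuous_id.max continuous_const)

lemma int_exp_le {k T c : ℝ} (hk : 0 < k) (hc : 0 ≤ c) :
    ∫ s in (0:ℝ)..T, Real.exp (-(k * s)) * c ≤ c / k := by
  have h : ∀ x ∈ uIcc 0 T, HasDerivAt (fun y => -(Real.exp (-(k * y)) * c) / k)
      (Real.exp (-(k * x)) * c) x := by
    intro x _
    have h1 : HasDerivAt (fun y : ℝ => -(k * y)) (-(k * 1)) x := ((hasDerivAt_id x).const_mul k).neg
    have h2 := ((h1.exp.mul_const c).neg).div_const k
    refine h2.congr_deriv ?_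
    field_simp
  have hc' : Continuous (fun s : ℝ => Real.exp (-(k * s)) * c) := by fun_prop
  rw [intervalIntegral.integral_eq_sub_of_hasDerivAt h (hc'.intervalIntegrable _ _)]
  have h3 : 0 ≤ Real.exp (-(k * T)) * c := by positivity
  have h4 : -(Real.exp (-(k * T)) * c) / k - -(Real.exp (-(k * 0)) * c) / k
      = (c - Real.exp (-(k * T)) * c) / k := by simp; ring
  rw [h4]
  apply div_le_div_of_nonneg_right _ hk.le
  linarith

lemma norm_conv_le (hU1 : ∀ t, 0 ≤ t → ‖U t‖ ≤ 1) {w : ℝ → X} {M : ℝ}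
    (hM0 : 0 ≤ M) (t : ℝ) (hM : ∀ s ∈ Icc 0 (max t 0), ‖w s‖ ≤ M) : ‖conv U B w t‖ ≤ M / 2 := by
  have hk := kw_pos B
  have hT : 0 ≤ max t 0 := le_max_right _ _
  have h1 : ‖conv U B w t‖ ≤ ∫ s in (0:ℝ)..(max t 0), Real.exp (-(kw B * s)) * (‖B‖ * M) := by
    unfold conv
    apply intervalIntegral.norm_integral_le_of_norm_le hT
    · filter_upwards with s hs
      rw [norm_smul, Real.norm_eq_abs, abs_of_pos (Real.exp_pos _)]
      apply mul_le_mul_of_nonneg_left _ (Real.exp_pos _).le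
      calc ‖Us U s (B (w (max t 0 - s)))‖ ≤ ‖Us U s‖ * ‖B (w (max t 0 - s))‖ :=
            ContinuousLinearMap.le_opNorm _ _
        _ ≤ 1 * (‖B‖ * M) := by
            apply mul_le_mul (hU1 _ (le_max_right _ _)) _ (norm_nonneg _) zero_le_one
            refine (B.le_opNorm _).trans (mul_le_mul_of_nonneg_left ?_ (norm_nonneg _))
            exact hM _ ⟨by linarith [hs.2], by linarith [hs.1]⟩
        _ = _ := one_mul _
    · have : Continuous (fun s : ℝ => Real.exp (-(kw B * s)) * (‖B‖ * M)) := by fun_prop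
      exact this.intervalIntegrable _ _
  refine h1.trans ((int_exp_le hk (by positivity)).trans ?_)
  rw [div_le_div_iff₀ hk two_pos]
  unfold kw
  nlinarith [norm_nonneg B]

/-- the Picard map -/
def Fm (hU : IsC0 U) (hU1 : ∀ t, 0 ≤ t → ‖U t‖ ≤ 1) (f : X) (w : ℝ →ᵇ X) : ℝ →ᵇ X :=
  BoundedContinuousFunction.ofNormedAddCommGroup
    (fun t => Real.exp (-(kw B * max t 0)) • Us U t f + conv U B w t)
    (((by fun_prop : Continuous fun t : ℝ => Real.exp (-(kw B * max t 0))).smul
      (cont_Us U hU hU1 continuous_id continuous_const)).add (cont_conv U B hU hU1 w.continuous))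
    (‖f‖ + ‖w‖ / 2)
    (by
      intro t
      refine (norm_add_le _ _).trans (add_le_add ?_ ?_)
      · rw [norm_smul, Real.norm_eq_abs, abs_of_pos (Real.exp_pos _)]
        have h1 : Real.exp (-(kw B * max t 0)) ≤ 1 := Real.exp_le_one_iff.2 (by
          have := mul_nonneg (kw_pos B).le (le_max_right t 0); linarith)
        have h2 : ‖Us U t f‖ ≤ 1 * ‖f‖ :=
          (ContinuousLinearMap.le_opNorm _ _).trans
            (mul_le_mul_of_nonneg_right (hU1 _ (le_max_right _ _)) (norm_nonneg _))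
        calc _ ≤ 1 * (1 * ‖f‖) := mul_le_mul h1 h2 (norm_nonneg _) zero_le_one
          _ = ‖f‖ := by ring
      · exact norm_conv_le U B hU1 (norm_nonneg w) t fun s _ => w.norm_coe_le_norm s)

lemma Fm_apply (hU : IsC0 U) (hU1 : ∀ t, 0 ≤ t → ‖U t‖ ≤ 1) (f : X) (w : ℝ →ᵇ X) (t : ℝ) :
    Fm U B hU hU1 f w t = Real.exp (-(kw B * max t 0)) • Us U t f + conv U B w t := rfl

lemma conv_sub (hU : IsC0 U) (hU1 : ∀ t, 0 ≤ t → ‖U t‖ ≤ 1) {w z : ℝ → X} (hw : Continuous w)
    (hz : Continuous z) (t : ℝ) : conv U B w t - conv U B z t = conv U B (fun s => w s - z s) t := by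
  unfold conv
  have c1 : Continuous (fun s : ℝ => Real.exp (-(kw B * s)) • Us U s (B (w (max t 0 - s)))) :=
    (cont_integrand U B hU hU1 hw).comp (continuous_const.prodMk continuous_id : Continuous fun s : ℝ => (t, s))
  have c2 : Continuous (fun s : ℝ => Real.exp (-(kw B * s)) • Us U s (B (z (max t 0 - s)))) :=
    (cont_integrand U B hU hU1 hz).comp (continuous_const.prodMk continuous_id : Continuous fun s : ℝ => (t, s))
  rw [← intervalIntegral.integral_sub (c1.intervalIntegrable _ _) (c2.intervalIntegrable _ _)]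
  congr 1
  ext s
  rw [map_sub, map_sub, smul_sub]

lemma contr (hU : IsC0 U) (hU1 : ∀ t, 0 ≤ t → ‖U t‖ ≤ 1) (f : X) :
    ContractingWith (1/2 : ℝ≥0) (Fm U B hU hU1 f) := by
  refine ⟨by norm_num, ?_⟩
  apply LipschitzWith.of_dist_le_mul
  intro w z
  rw [BoundedContinuousFunction.dist_le (by positivity)]
  intro t
  rw [Fm_apply, Fm_apply, dist_eq_norm, add_sub_add_left_eq_sub,
    conv_sub U B hU hU1 w.continuous z.continuous]
  have := norm_conv_le U B hU1 (w := fun s => w s - z s) (dist_nonneg (x := w) (y := z)) t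
    (fun s _ => by rw [← dist_eq_norm]; exact BoundedContinuousFunction.dist_coe_le_dist s)
  push_cast
  linarith

/-- `v` solves the Volterra equation with initial value `f` -/
structure IsVol (f : X) (v : ℝ → X) : Prop where
  cont : Continuous v
  eq : ∀ t, 0 ≤ t → v t = U t f + ∫ s in (0:ℝ)..t, Us U s (B (v (t - s)))

variable {U B}

lemma exists_vol (hU : IsC0 U) (hU1 : ∀ t, 0 ≤ t → ‖U t‖ ≤ 1) (f : X) :
    ∃ v, IsVol U B f v ∧ ∀ t, 0 ≤ t → ‖v t‖ ≤ 2 * Real.exp (kw B * t) * ‖f‖ := by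
  set w := ContractingWith.fixedPoint _ (contr U B hU hU1 f) with hw
  have hfix : Fm U B hU hU1 f w = w := ContractingWith.fixedPoint_isFixedPt (contr U B hU hU1 f)
  have hwt : ∀ t, w t = Real.exp (-(kw B * max t 0)) • Us U t f + conv U B w t := by
    intro t
    conv_lhs => rw [← hfix]
    exact Fm_apply U B hU hU1 f w t
  have hwn : ‖w‖ ≤ 2 * ‖f‖ := by
    have h1 : ‖w‖ ≤ ‖f‖ + ‖w‖ / 2 := by
      rw [BoundedContinuousFunction.norm_le (by positivity)]
      intro t
      rw [hwt t]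
      refine (norm_add_le _ _).trans (add_le_add ?_ ?_)
      · rw [norm_smul, Real.norm_eq_abs, abs_of_pos (Real.exp_pos _)]
        have h1 : Real.exp (-(kw B * max t 0)) ≤ 1 := Real.exp_le_one_iff.2 (by
          have := mul_nonneg (kw_pos B).le (le_max_right t 0); linarith)
        have h2 : ‖Us U t f‖ ≤ 1 * ‖f‖ :=
          (ContinuousLinearMap.le_opNorm _ _).trans
            (mul_le_mul_of_nonneg_right (hU1 _ (le_max_right _ _)) (norm_nonneg _))
        calc _ ≤ 1 * (1 * ‖f‖) := mul_le_mul h1 h2 (norm_nonneg _) zero_le_one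
          _ = ‖f‖ := by ring
      · exact norm_conv_le U B hU1 (norm_nonneg w) t fun s _ => w.norm_coe_le_norm s
    linarith
  refine ⟨fun t => Real.exp (kw B * t) • w t, ⟨?_, ?_⟩, ?_⟩
  · exact Continuous.smul (by fun_prop) w.continuous
  · intro t ht
    rw [hwt t, max_eq_left ht, smul_add, smul_smul, ← Real.exp_add, add_neg_cancel, Real.exp_zero,
      one_smul]
    congr 1
    · unfold Us; rw [max_eq_left ht]
    · unfold conv
      rw [max_eq_left ht, ← intervalIntegral.integral_smul]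
      apply intervalIntegral.integral_congr
      intro s _
      simp only
      rw [map_smul, map_smul, smul_smul, ← Real.exp_add]
      congr 2; ring
  · intro t ht
    rw [norm_smul, Real.norm_eq_abs, abs_of_pos (Real.exp_pos _)]
    have := (w.norm_coe_le_norm t).trans hwn
    nlinarith [Real.exp_pos (kw B * t)]

lemma vol_unique (hU : IsC0 U) (hU1 : ∀ t, 0 ≤ t → ‖U t‖ ≤ 1) {f : X} {v z : ℝ → X}
    (hv : IsVol U B f v) (hz : IsVol U B f z) : ∀ t, 0 ≤ t → v t = z t := by
  have hk := kw_pos B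
  set d : ℝ → X := fun t => Real.exp (-(kw B * t)) • (v t - z t) with hd
  have hdc : Continuous d := Continuous.smul (by fun_prop) (hv.cont.sub hz.cont)
  have hdeq : ∀ t, 0 ≤ t → d t = conv U B d t := by
    intro t ht
    have c1 : Continuous (fun s : ℝ => Us U s (B (v (t - s)))) :=
      cont_Us U hU hU1 continuous_id (B.continuous.comp (hv.cont.comp (by fun_prop)))
    have c2 : Continuous (fun s : ℝ => Us U s (B (z (t - s)))) :=
      cont_Us U hU hU1 continuous_id (B.continuous.comp (hz.cont.comp (by fun_prop)))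
    simp only [hd]
    rw [hv.eq t ht, hz.eq t ht, add_sub_add_left_eq_sub,
      ← intervalIntegral.integral_sub (c1.intervalIntegrable _ _) (c2.intervalIntegrable _ _),
      ← intervalIntegral.integral_smul]
    unfold conv
    rw [max_eq_left ht]
    apply intervalIntegral.integral_congr
    intro s _
    simp only
    rw [map_smul, map_smul, smul_smul, ← Real.exp_add, map_sub, map_sub]
    congr 2; ring
  intro T hT
  obtain ⟨t0, ht0, hmax⟩ := isCompact_Icc.exists_isMaxOn (nonempty_Icc.2 hT)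
    (hdc.norm.continuousOn (s := Icc 0 T))
  have hb : ‖d t0‖ ≤ ‖d t0‖ / 2 := by
    conv_lhs => rw [hdeq t0 ht0.1]
    apply norm_conv_le U B hU1 (norm_nonneg _) t0
    intro s hs
    rw [max_eq_left ht0.1] at hs
    exact hmax ⟨hs.1, hs.2.trans ht0.2⟩
  have h0 : ‖d t0‖ ≤ 0 := by linarith
  have h1 : ‖d T‖ ≤ ‖d t0‖ := hmax ⟨hT, le_rfl⟩
  have h2 : d T = 0 := norm_le_zero_iff.1 (h1.trans h0)
  simp only [hd] at h2
  rw [smul_eq_zero] at h2
  rcases h2 with h2 | h2
  · exact absurd h2 (Real.exp_pos _).ne'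
  · exact sub_eq_zero.1 h2

end volterra

end

end Q65.GF
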