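import Mathlib
import Pool.Agent.Q65.GFA

/-!
# The perturbed semigroup: semigroup law, generator, positivity, compactness
-/

set_option linter.unusedSectionVars false

namespace Q65.GF

open Set MeasureTheory Filter Topology
open scoped BoundedContinuousFunction NNReal

noncomputable section

variable {X : Type*} [NormedAddCommGroup X] [NormedSpace ℝ X] [CompleteSpace X]
variable {U : ℝ → X →L[ℝ] X} (B : X →L[ℝ] X)
variable (hU : IsC0 U) (hU1 : ∀ t, 0 ≤ t → ‖U t‖ ≤ 1)

include hU hU1 in
lemma vol_int {v : ℝ → X} (hv : Continuous v) (t : ℝ) :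
    Continuous (fun s : ℝ => Us U s (B (v (t - s)))) :=
  cont_Us U hU hU1 continuous_id (B.continuous.comp (hv.comp (by fun_prop)))

include hU hU1 in
lemma vol_add {f g : X} {v z : ℝ → X} (hv : IsVol U B f v) (hz : IsVol U B g z) :
    IsVol U B (f + g) (fun t => v t + z t) := by
  refine ⟨hv.cont.add hz.cont, fun t ht => ?_⟩
  rw [hv.eq t ht, hz.eq t ht, map_add]
  have h : (fun s => Us U s (B (v (t - s) + z (t - s)))) =
      fun s => Us U s (B (v (t - s))) + Us U s (B (z (t - s))) := by
    ext s; rw [map_add, map_add]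
  rw [h, intervalIntegral.integral_add ((vol_int B hU hU1 hv.cont t).intervalIntegrable _ _)
    ((vol_int B hU hU1 hz.cont t).intervalIntegrable _ _)]
  abel

lemma vol_smul (c : ℝ) {f : X} {v : ℝ → X} (hv : IsVol U B f v) :
    IsVol U B (c • f) (fun t => c • v t) := by
  refine ⟨hv.cont.const_smul c, fun t ht => ?_⟩
  rw [hv.eq t ht, map_smul, smul_add]
  congr 1
  rw [← intervalIntegral.integral_smul]
  congr 1
  ext s
  rw [map_smul, map_smul]

/-- the solution of the Volterra equation -/
def volf (f : X) : ℝ → X := Classical.choose (exists_vol (B := B) hU hU1 f)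

lemma volf_spec (f : X) : IsVol U B f (volf B hU hU1 f) ∧
    ∀ t, 0 ≤ t → ‖volf B hU hU1 f t‖ ≤ 2 * Real.exp (kw B * t) * ‖f‖ :=
  Classical.choose_spec (exists_vol (B := B) hU hU1 f)

/-- the perturbed semigroup -/
def Vp (t : ℝ) : X →L[ℝ] X :=
  LinearMap.mkContinuous
    { toFun := fun f => volf B hU hU1 f (max t 0)
      map_add' := fun f g => vol_unique hU hU1 (volf_spec B hU hU1 (f + g)).1
        (vol_add B hU hU1 (volf_spec B hU hU1 f).1 (volf_spec B hU hU1 g).1) _ (le_max_right _ _)
      map_smul' := fun c f => vol_unique hU hU1 (volf_spec B hU hU1 (c • f)).1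
        (vol_smul B c (volf_spec B hU hU1 f).1) _ (le_max_right _ _) }
    (2 * Real.exp (kw B * max t 0)) (fun f => (volf_spec B hU hU1 f).2 _ (le_max_right _ _))

lemma Vp_apply (t : ℝ) (f : X) : Vp B hU hU1 t f = volf B hU hU1 f (max t 0) := rfl

lemma Vp_norm (t : ℝ) (f : X) : ‖Vp B hU hU1 t f‖ ≤ 2 * Real.exp (kw B * max t 0) * ‖f‖ :=
  (volf_spec B hU hU1 f).2 _ (le_max_right _ _)

lemma Vp_vol (f : X) : IsVol U B f (fun t => Vp B hU hU1 t f) := by
  have h := (volf_spec B hU hU1 f).1
  refine ⟨h.cont.comp (continuous_id.max continuous_const), fun t ht => ?_⟩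
  simp only [Vp_apply]
  rw [max_eq_left ht, h.eq t ht]
  congr 1
  apply intervalIntegral.integral_congr
  intro s hs
  rw [uIcc_of_le ht] at hs
  simp only
  rw [max_eq_left (by linarith [hs.2] : 0 ≤ t - s)]

lemma Vp_eq {f : X} {v : ℝ → X} (hv : IsVol U B f v) {t : ℝ} (ht : 0 ≤ t) :
    Vp B hU hU1 t f = v t :=
  vol_unique hU hU1 (Vp_vol B hU hU1 f) hv t ht

theorem Vp_C0 : IsC0 (Vp B hU hU1) := by
  refine ⟨?_, ?_, ?_⟩
  · intro f
    have := (Vp_vol B hU hU1 f).eq 0 le_rfl
    simp only [intervalIntegral.integral_same, add_zero] at this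
    rw [this, hU.zero]
  · intro t s ht hs f
    have hV := Vp_vol B hU hU1 f
    set z : ℝ → X := fun τ => Vp B hU hU1 (max τ 0 + s) f with hz
    have hzc : Continuous z := hV.cont.comp ((continuous_id.max continuous_const).add continuous_const)
    have key : IsVol U B (Vp B hU hU1 s f) z := by
      refine ⟨hzc, fun τ hτ => ?_⟩
      have hτs : 0 ≤ τ + s := by linarith
      have c1 : Continuous (fun σ : ℝ => Us U σ (B (Vp B hU hU1 (τ + s - σ) f))) :=
        vol_int B hU hU1 hV.cont (τ + s)
      have e0 : z τ = U (τ + s) f + ∫ σ in (0:ℝ)..(τ + s), Us U σ (B (Vp B hU hU1 (τ + s - σ) f)) := by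
        simp only [hz]
        rw [max_eq_left hτ]
        exact hV.eq (τ + s) hτs
      have e1 : ∫ σ in (0:ℝ)..(τ + s), Us U σ (B (Vp B hU hU1 (τ + s - σ) f))
          = (∫ σ in (0:ℝ)..τ, Us U σ (B (Vp B hU hU1 (τ + s - σ) f)))
            + ∫ σ in τ..(τ + s), Us U σ (B (Vp B hU hU1 (τ + s - σ) f)) :=
        (intervalIntegral.integral_add_adjacent_intervals (c1.intervalIntegrable _ _)
          (c1.intervalIntegrable _ _)).symm
      have e2 : ∫ σ in (0:ℝ)..τ, Us U σ (B (Vp B hU hU1 (τ + s - σ) f))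
          = ∫ σ in (0:ℝ)..τ, Us U σ (B (z (τ - σ))) := by
        apply intervalIntegral.integral_congr
        intro σ hσ
        rw [uIcc_of_le hτ] at hσ
        simp only [hz]
        rw [max_eq_left (by linarith [hσ.2] : 0 ≤ τ - σ)]
        congr 4; ring
      have e3 : ∫ σ in τ..(τ + s), Us U σ (B (Vp B hU hU1 (τ + s - σ) f))
          = U τ (∫ σ in (0:ℝ)..s, Us U σ (B (Vp B hU hU1 (s - σ) f))) := by
        have c2 : Continuous (fun σ : ℝ => Us U σ (B (Vp B hU hU1 (s - σ) f))) :=
          vol_int B hU hU1 hV.cont s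
        rw [← ContinuousLinearMap.intervalIntegral_comp_comm (U τ) (c2.intervalIntegrable _ _)]
        have e4 : ∫ σ in τ..(τ + s), Us U σ (B (Vp B hU hU1 (τ + s - σ) f))
            = ∫ σ in (0:ℝ)..s, Us U (σ + τ) (B (Vp B hU hU1 (τ + s - (σ + τ)) f)) := by
          rw [intervalIntegral.integral_comp_add_right
            (fun σ => Us U σ (B (Vp B hU hU1 (τ + s - σ) f))) τ, zero_add, add_comm s τ]
        rw [e4]
        apply intervalIntegral.integral_congr
        intro σ hσ
        rw [uIcc_of_le hs] at hσ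
        simp only
        have h5 : τ + s - (σ + τ) = s - σ := by ring
        rw [h5]
        unfold Us
        rw [max_eq_left (by linarith [hσ.1] : 0 ≤ σ + τ), max_eq_left hσ.1, add_comm σ τ,
          hU.add τ σ hτ hσ.1]
      rw [e0, e1, e2, e3, hU.add τ s hτ hs]
      have e6 : Vp B hU hU1 s f = U s f + ∫ σ in (0:ℝ)..s, Us U σ (B (Vp B hU hU1 (s - σ) f)) :=
        hV.eq s hs
      conv_rhs => rw [e6, map_add]
      abel
    have h1 := Vp_eq B hU hU1 key ht
    rw [h1]
    simp only [hz]
    rw [max_eq_left ht]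
  · intro f
    exact (Vp_vol B hU hU1 f).cont.continuousOn

/-- first order behaviour of the perturbation -/
lemma Vp_diff (f : X) : Tendsto (fun t : ℝ => t⁻¹ • (Vp B hU hU1 t f - U t f)) (𝓝[>] 0) (𝓝 (B f)) := by
  have hV := Vp_vol B hU hU1 f
  set G : ℝ → X := fun t => ∫ θ in (0:ℝ)..1, Us U (t * θ) (B (Vp B hU hU1 (t - t * θ) f)) with hG
  have hGc : Continuous G := by
    apply intervalIntegral.continuous_parametric_intervalIntegral_of_continuous'
      (f := fun t θ => Us U (t * θ) (B (Vp B hU hU1 (t - t * θ) f)))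
    apply cont_Us U hU hU1 (by fun_prop)
    exact B.continuous.comp (hV.cont.comp (by fun_prop))
  have hG0 : G 0 = B f := by
    simp only [hG, zero_mul, sub_zero]
    have h1 : Us U 0 (B (Vp B hU hU1 0 f)) = B f := by
      unfold Us
      rw [max_self, hU.zero, (Vp_C0 B hU hU1).zero]
    rw [h1]; simp
  have h1 : Tendsto G (𝓝[>] 0) (𝓝 (B f)) := by
    rw [← hG0]; exact (hGc.tendsto 0).mono_left nhdsWithin_le_nhds
  refine h1.congr' ?_
  filter_upwards [self_mem_nhdsWithin] with t ht
  have ht0 : 0 < t := ht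
  have h2 : Vp B hU hU1 t f - U t f = ∫ s in (0:ℝ)..t, Us U s (B (Vp B hU hU1 (t - s) f)) := by
    have := hV.eq t ht0.le
    rw [this]; abel
  rw [h2]
  simp only [hG]
  have h3 := intervalIntegral.integral_comp_mul_left
    (fun s => Us U s (B (Vp B hU hU1 (t - s) f))) ht0.ne' (a := 0) (b := 1)
  rw [h3, mul_zero, mul_one]

theorem Vp_gen (f g : X) : IsGen (Vp B hU hU1) f g ↔ ∃ g₀, IsGen U f g₀ ∧ g = g₀ + B f := by
  have hd := Vp_diff B hU hU1 f
  constructor
  · intro h
    refine ⟨g - B f, ?_, by abel⟩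
    have := h.sub hd
    refine this.congr fun t => ?_
    rw [← smul_sub]; congr 1; abel
  · rintro ⟨g₀, h, rfl⟩
    have := h.add hd
    refine this.congr fun t => ?_
    rw [← smul_add]; congr 1; abel

/-- positivity: a closed convex cone invariant under `U` and `B` is invariant under `V` -/
theorem Vp_pos {P : Set X} (hP0 : (0:X) ∈ P) (hPc : IsClosed P) (hPa : ∀ f ∈ P, ∀ g ∈ P, f + g ∈ P)
    (hPs : ∀ c : ℝ, 0 ≤ c → ∀ f ∈ P, c • f ∈ P) (hUP : ∀ t, 0 ≤ t → ∀ f ∈ P, U t f ∈ P)
    (hBP : ∀ f ∈ P, B f ∈ P) {f : X} (hf : f ∈ P) {t : ℝ} (ht : 0 ≤ t) : Vp B hU hU1 t f ∈ P := by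
  have hconv : Convex ℝ P := by
    intro x hx y hy a b ha hb _
    exact hPa _ (hPs a ha x hx) _ (hPs b hb y hy)
  -- integrals of `P`-valued continuous functions
  have hint : ∀ (g : ℝ → X), Continuous g → ∀ T : ℝ, 0 ≤ T → (∀ s ∈ Icc 0 T, g s ∈ P) →
      ∫ s in (0:ℝ)..T, g s ∈ P := by
    intro g hg T hT hgP
    rcases eq_or_lt_of_le hT with h | h
    · rw [← h]; simpa using hP0
    · rw [intervalIntegral.integral_of_le hT]
      have h1 : ⨍ s in Ioc 0 T, g s ∈ P := by
        apply hconv.set_average_mem hPc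
        · simp [h]
        · simp
        · refine (ae_restrict_iff' measurableSet_Ioc).2 (Eventually.of_forall fun s hs => ?_)
          exact hgP s ⟨hs.1.le, hs.2⟩
        · exact (hg.integrableOn_Icc).mono_set Ioc_subset_Icc_self
      rw [setAverage_eq] at h1
      have h2 := hPs T hT _ h1
      rw [smul_smul] at h2
      have h3 : T * (volume.real (Ioc 0 T))⁻¹ = 1 := by
        rw [Real.volume_real_Ioc_of_le hT, sub_zero, mul_inv_cancel₀ h.ne']
      rwa [h3, one_smul] at h2
  -- Picard iterates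
  set F := Fm U B hU hU1 f with hF
  have hFP : ∀ w : ℝ →ᵇ X, (∀ s, w s ∈ P) → ∀ s, F w s ∈ P := by
    intro w hw s
    rw [hF, Fm_apply]
    apply hPa
    · exact hPs _ (Real.exp_pos _).le _ (hUP _ (le_max_right _ _) f hf)
    · unfold conv
      apply hint
      · exact (cont_integrand U B hU hU1 w.continuous).comp
          (continuous_const.prodMk continuous_id : Continuous fun σ : ℝ => (s, σ))
      · exact le_max_right _ _
      · intro σ _
        exact hPs _ (Real.exp_pos _).le _ (hUP _ (le_max_right _ _) _ (hBP _ (hw _)))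
  have hiter : ∀ n : ℕ, ∀ s, (F^[n] 0) s ∈ P := by
    intro n
    induction n with
    | zero => intro s; simpa using hP0
    | succ n ih =>
      intro s
      rw [Function.iterate_succ_apply']
      exact hFP _ ih s
  have hlim := (contr U B hU hU1 f).tendsto_iterate_fixedPoint (0 : ℝ →ᵇ X)
  set w := ContractingWith.fixedPoint _ (contr U B hU hU1 f) with hw
  have hwP : ∀ s, w s ∈ P := by
    intro s
    have h1 : Tendsto (fun n => (F^[n] 0) s) atTop (𝓝 (w s)) :=
      ((BoundedContinuousFunction.evalCLM ℝ s).continuous.tendsto w).comp hlim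
    exact hPc.mem_of_tendsto h1 (Eventually.of_forall fun n => hiter n s)
  have hfix : F w = w := ContractingWith.fixedPoint_isFixedPt (contr U B hU hU1 f)
  have hwt : ∀ t, w t = Real.exp (-(kw B * max t 0)) • Us U t f + conv U B w t := by
    intro t
    conv_lhs => rw [← hfix]
    exact Fm_apply U B hU hU1 f w t
  have hvol : IsVol U B f (fun t => Real.exp (kw B * t) • w t) := by
    refine ⟨Continuous.smul (by fun_prop) w.continuous, ?_⟩
    intro t ht
    rw [hwt t, max_eq_left ht, smul_add, smul_smul, ← Real.exp_add, add_neg_cancel, Real.exp_zero,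
      one_smul]
    congr 1
    · unfold Us; rw [max_eq_left ht]
    · unfold conv
      rw [max_eq_left ht, ← intervalIntegral.integral_smul]
      apply intervalIntegral.integral_congr
      intro s _
      simp only
      rw [map_smul, map_smul, smul_smul, ← Real.exp_add]
      congr 2; ring
  rw [Vp_eq B hU hU1 hvol ht]
  exact hPs _ (Real.exp_pos _).le _ (hwP t)

/-- for a rank one perturbation the difference of the semigroups is compact -/
theorem Vp_compact (ℓ : X →L[ℝ] ℝ) (h : X) (hB : ∀ f, B f = ℓ f • h) {t : ℝ} (ht : 0 < t) :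
    IsCompactOperator (Vp B hU hU1 t - U t) := by
  set M : ℝ := ‖ℓ‖ * (2 * Real.exp (kw B * t)) with hM
  have hM0 : 0 ≤ M := by positivity
  set S : Set X := (fun q : ℝ × ℝ => q.2 • Us U q.1 h) '' (Icc 0 t ×ˢ Icc (-M) M) with hS
  have hSc : IsCompact S := by
    apply (isCompact_Icc.prod isCompact_Icc).image
    exact continuous_snd.smul (cont_Us U hU hU1 continuous_fst continuous_const)
  set K : Set X := closure (convexHull ℝ S) with hK
  have hKc : IsCompact K := by
    exact ((totallyBounded_convexHull.2 hSc.totallyBounded).closure).isCompact_of_isClosed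
      isClosed_closure
  have hKconv : Convex ℝ K := (convex_convexHull ℝ S).closure
  refine ⟨(fun x => t • x) '' K, hKc.image (continuous_const_smul t), ?_⟩
  apply mem_of_superset (Metric.closedBall_mem_nhds (0:X) one_pos)
  intro f hf
  rw [mem_closedBall_zero_iff] at hf
  have hV := Vp_vol B hU hU1 f
  have e1 : (Vp B hU hU1 t - U t) f = ∫ s in (0:ℝ)..t, Us U s (B (Vp B hU hU1 (t - s) f)) := by
    have := hV.eq t ht.le
    rw [ContinuousLinearMap.sub_apply, this]; abel
  have hc : Continuous (fun s : ℝ => Us U s (B (Vp B hU hU1 (t - s) f))) :=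
    vol_int B hU hU1 hV.cont t
  refine ⟨t⁻¹ • ∫ s in (0:ℝ)..t, Us U s (B (Vp B hU hU1 (t - s) f)), ?_, ?_⟩
  swap
  · simp only
    rw [smul_smul, mul_inv_cancel₀ ht.ne', one_smul, e1]
  · have h1 : ⨍ s in Ioc 0 t, Us U s (B (Vp B hU hU1 (t - s) f)) ∈ K := by
      apply hKconv.set_average_mem isClosed_closure
      · simp [ht]
      · simp
      · refine (ae_restrict_iff' measurableSet_Ioc).2 (Eventually.of_forall fun s hs => ?_)
        apply subset_closure
        apply subset_convexHull
        refine ⟨(s, ℓ (Vp B hU hU1 (t - s) f)), ⟨⟨hs.1.le, hs.2⟩, ?_⟩, ?_⟩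
        · change -M ≤ ℓ (Vp B hU hU1 (t - s) f) ∧ ℓ (Vp B hU hU1 (t - s) f) ≤ M
          rw [← abs_le]
          have a1 : ‖Vp B hU hU1 (t - s) f‖ ≤ 2 * Real.exp (kw B * t) := by
            refine (Vp_norm B hU hU1 (t - s) f).trans ?_
            have a2 : Real.exp (kw B * max (t - s) 0) ≤ Real.exp (kw B * t) := by
              apply Real.exp_le_exp.2
              apply mul_le_mul_of_nonneg_left _ (kw_pos B).le
              exact max_le (by linarith [hs.1]) ht.le
            calc 2 * Real.exp (kw B * max (t - s) 0) * ‖f‖ ≤ 2 * Real.exp (kw B * t) * 1 := by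
                  apply mul_le_mul (by linarith) hf (norm_nonneg _) (by positivity)
              _ = _ := mul_one _
          have a3 := ℓ.le_opNorm (Vp B hU hU1 (t - s) f)
          rw [Real.norm_eq_abs] at a3
          exact a3.trans (mul_le_mul_of_nonneg_left a1 (norm_nonneg _))
        · simp only
          rw [hB, map_smul]
      · exact (hc.integrableOn_Icc).mono_set Ioc_subset_Icc_self
    rw [setAverage_eq, Real.volume_real_Ioc_of_le ht.le, sub_zero,
      ← intervalIntegral.integral_of_le ht.le] at h1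
    exact h1

/-! ### spectral consequences -/

lemma essNorm_le {T S : X →L[ℝ] X} (h : IsCompactOperator (T - S)) : essNorm T ≤ ‖S‖ := by
  apply csInf_le
  · exact ⟨0, by rintro _ ⟨K, -, rfl⟩; exact norm_nonneg _⟩
  · exact ⟨T - S, h, by rw [sub_sub_cancel]⟩

lemma essNorm_nonneg (T : X →L[ℝ] X) : 0 ≤ essNorm T := by
  apply Real.sInf_nonneg
  rintro _ ⟨K, -, rfl⟩
  exact norm_nonneg _

lemma essRad_le {T S : X →L[ℝ] X} (h : IsCompactOperator (T - S)) : essRad T ≤ ‖S‖ := by
  unfold essRad
  have hb : BddBelow (range fun n : ℕ => (essNorm (T ^ (n+1))) ^ (1 / ((n:ℝ) + 1))) :=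
    ⟨0, by rintro _ ⟨n, rfl⟩; exact Real.rpow_nonneg (essNorm_nonneg _) _⟩
  refine (ciInf_le hb 0).trans ?_
  simp only [zero_add, pow_one, Nat.cast_zero, div_one, Real.rpow_one]
  exact essNorm_le h

theorem essTyp_le {w : ℝ} (hw : ∀ t, 0 ≤ t → ‖U t‖ ≤ Real.exp (w * t))
    (ℓ : X →L[ℝ] ℝ) (h : X) (hB : ∀ f, B f = ℓ f • h) : essTyp (Vp B hU hU1) ≤ (w : EReal) := by
  apply sInf_le
  refine ⟨w, rfl, fun t ht => ?_⟩
  exact (essRad_le (Vp_compact B hU hU1 ℓ h hB ht)).trans (hw t ht.le)

theorem typ_ge {V : ℝ → X →L[ℝ] X} {f : X} (hf : f ≠ 0) (h : ∀ t, 0 ≤ t → V t f = f) :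
    (0 : EReal) ≤ typ V := by
  apply le_sInf
  rintro _ ⟨c, rfl, M, hM⟩
  have h1 : ∀ t, 0 ≤ t → 1 ≤ M * Real.exp (c * t) := by
    intro t ht
    refine le_trans ?_ (hM t ht)
    have h2 := (V t).le_opNorm f
    rw [h t ht] at h2
    have hfn : 0 < ‖f‖ := norm_pos_iff.2 hf
    exact le_of_mul_le_mul_right (by linarith) hfn
  by_contra hneg
  have hc : c < 0 := by
    push Not at hneg
    exact_mod_cast hneg
  have hlim : Tendsto (fun t : ℝ => M * Real.exp (c * t)) atTop (𝓝 (M * 0)) := by
    apply Tendsto.const_mul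
    apply Real.tendsto_exp_atBot.comp
    exact (tendsto_const_mul_atBot_of_neg hc).2 tendsto_id
  rw [mul_zero] at hlim
  have := ge_of_tendsto hlim ((eventually_ge_atTop 0).mono fun t ht => h1 t ht)
  linarith

include hU hU1 in
/-- a generator statement gives the integral formula -/
lemma gen_integral {f g : X} (h : IsGen U f g) : ∀ t, 0 ≤ t → U t f = f + ∫ s in (0:ℝ)..t, Us U s g := by
  intro t ht
  have hc : Continuous (fun s : ℝ => Us U s g) := cont_Us U hU hU1 continuous_id continuous_const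
  have hcf : ContinuousOn (fun s : ℝ => U s f) (Icc 0 t) := (hU.cont f).mono fun s hs => hs.1
  have hder : ∀ x ∈ Ioo 0 t, HasDerivWithinAt (fun s : ℝ => U s f) (Us U x g) (Ioi x) x := by
    intro x hx
    rw [hasDerivWithinAt_iff_tendsto_slope' self_notMem_Ioi]
    have h1 : Tendsto (fun s : ℝ => s - x) (𝓝[>] x) (𝓝[>] 0) := by
      apply tendsto_nhdsWithin_iff.2
      constructor
      · have : Tendsto (fun s : ℝ => s - x) (𝓝 x) (𝓝 (x - x)) := tendsto_id.sub_const x
        rw [sub_self] at this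
        exact this.mono_left nhdsWithin_le_nhds
      · filter_upwards [self_mem_nhdsWithin] with s hs
        exact mem_Ioi.2 (sub_pos.2 hs)
    have h2 := ((U x).continuous.tendsto g).comp (h.comp h1)
    unfold Us
    rw [max_eq_left hx.1.le]
    refine h2.congr' ?_
    filter_upwards [self_mem_nhdsWithin] with s hs
    have hs' : x < s := hs
    simp only [Function.comp, slope_def_module]
    rw [map_smul, map_sub, ← hU.add x (s - x) hx.1.le (by linarith)]
    congr 3; ring_nf
  have := intervalIntegral.integral_eq_sub_of_hasDeriv_right_of_le ht hcf hder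
    (hc.intervalIntegrable _ _)
  rw [this, hU.zero]; abel

/-- fixed vectors -/
theorem Vp_fixed {f : X} (h : IsGen U f (-(B f))) : ∀ t, 0 ≤ t → Vp B hU hU1 t f = f := by
  intro t ht
  have hv : IsVol U B f (fun _ => f) := by
    refine ⟨continuous_const, fun τ hτ => ?_⟩
    rw [gen_integral hU hU1 h τ hτ]
    have : (fun s => Us U s (-(B f))) = fun s => - Us U s (B f) := by ext s; rw [map_neg]
    rw [this, intervalIntegral.integral_neg]; abel
  exact Vp_eq B hU hU1 hv ht

end

end Q65.GF
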