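import Mathlib
import Pool.Agent.Q65.GFB

/-!
# The concrete growth-fragmentation semigroup
-/

set_option linter.unusedSectionVars false

namespace Q65.GF

open Set MeasureTheory Filter Topology
open scoped NNReal ENNReal

noncomputable section

/-- the measure `x dx` on `(0,∞)` -/
def mu : Measure ℝ := (volume.restrict (Ioi 0)).withDensity (fun x => ENNReal.ofReal x)

/-- the space `X₁ = L¹((0,∞); x dx)` -/
abbrev X1 := Lp ℝ 1 mu

lemma mu_apply {s : Set ℝ} (hs : MeasurableSet s) :
    mu s = ∫⁻ x, (s ∩ Ioi 0).indicator (fun x => ENNReal.ofReal x) x := by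
  unfold mu
  rw [withDensity_apply _ hs, Measure.restrict_restrict hs,
    lintegral_indicator (hs.inter measurableSet_Ioi)]

lemma map_scale {c : ℝ} (hc : 0 < c) :
    Measure.map (fun y => c * y) mu = ENNReal.ofReal (c⁻¹ ^ 2) • mu := by
  ext s hs
  have hm : Measurable (fun y : ℝ => c * y) := measurable_const_mul c
  rw [Measure.map_apply hm hs, mu_apply (hm hs), Measure.smul_apply, mu_apply hs]
  set H : ℝ → ℝ≥0∞ := (s ∩ Ioi 0).indicator (fun z => ENNReal.ofReal (c⁻¹ * z)) with hH
  have hHm : Measurable H :=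
    (ENNReal.measurable_ofReal.comp (measurable_const_mul _)).indicator (hs.inter measurableSet_Ioi)
  have e1 : ∀ y : ℝ, ((fun y => c * y) ⁻¹' s ∩ Ioi 0).indicator (fun x => ENNReal.ofReal x) y = H (c * y) := by
    intro y
    simp only [hH]
    by_cases h : y ∈ (fun y => c * y) ⁻¹' s ∩ Ioi 0
    · rw [indicator_of_mem h, indicator_of_mem]
      · rw [← mul_assoc, inv_mul_cancel₀ hc.ne', one_mul]
      · exact ⟨h.1, mul_pos hc h.2⟩
    · rw [indicator_of_notMem h, indicator_of_notMem]
      intro h2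
      exact h ⟨h2.1, (mul_pos_iff_of_pos_left hc).1 h2.2⟩
  rw [lintegral_congr e1]
  have e2 : ∫⁻ y, H (c * y) = ∫⁻ z, H z ∂(Measure.map (fun y => c * y) volume) :=
    (lintegral_map hHm hm).symm
  rw [e2, Real.map_volume_mul_left hc.ne', lintegral_smul_measure, abs_of_pos (inv_pos.2 hc)]
  have e3 : ∀ z, H z = ENNReal.ofReal c⁻¹ * (s ∩ Ioi 0).indicator (fun x => ENNReal.ofReal x) z := by
    intro z
    simp only [hH]
    by_cases h : z ∈ s ∩ Ioi 0
    · rw [indicator_of_mem h, indicator_of_mem h, ENNReal.ofReal_mul (inv_pos.2 hc).le]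
    · rw [indicator_of_notMem h, indicator_of_notMem h, mul_zero]
  rw [lintegral_congr e3, lintegral_const_mul _ (ENNReal.measurable_ofReal.indicator (hs.inter measurableSet_Ioi))]
  rw [smul_eq_mul, smul_eq_mul, ← mul_assoc, ← ENNReal.ofReal_mul (inv_pos.2 hc).le, sq]

lemma qmp_scale {c : ℝ} (hc : 0 < c) : Measure.QuasiMeasurePreserving (fun y => c * y) mu mu := by
  refine ⟨measurable_const_mul c, ?_⟩
  rw [map_scale hc]
  exact Measure.smul_absolutelyContinuous

lemma eLpNorm_scale {c : ℝ} (hc : 0 < c) {f : ℝ → ℝ} (hf : AEStronglyMeasurable f mu) :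
    eLpNorm (fun y => f (c * y)) 1 mu = ENNReal.ofReal (c⁻¹ ^ 2) * eLpNorm f 1 mu := by
  have h1 : AEStronglyMeasurable f (Measure.map (fun y => c * y) mu) := by
    rw [map_scale hc]; exact hf.smul_measure _
  have h2 := eLpNorm_map_measure (p := 1) h1 (measurable_const_mul c).aemeasurable
  rw [map_scale hc, eLpNorm_one_smul_measure] at h2
  exact h2.symm

lemma memLp_scale {c : ℝ} (hc : 0 < c) (k : ℝ) {f : ℝ → ℝ} (hf : MemLp f 1 mu) :
    MemLp (fun y => k * f (c * y)) 1 mu := by
  apply MemLp.const_mul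
  refine ⟨hf.1.comp_quasiMeasurePreserving (qmp_scale hc), ?_⟩
  rw [eLpNorm_scale hc hf.1]
  exact ENNReal.mul_lt_top ENNReal.ofReal_lt_top hf.2

/-- the action on functions -/
def uf (t : ℝ) (f : ℝ → ℝ) (y : ℝ) : ℝ := Real.exp (-(3 * t)) * f (Real.exp (-t) * y)

lemma memLp_uf (t : ℝ) {f : ℝ → ℝ} (hf : MemLp f 1 mu) : MemLp (uf t f) 1 mu :=
  memLp_scale (Real.exp_pos _) _ hf

lemma uf_congr (t : ℝ) {f g : ℝ → ℝ} (h : f =ᵐ[mu] g) : uf t f =ᵐ[mu] uf t g := by
  have := (qmp_scale (Real.exp_pos (-t))).ae_eq_comp h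
  filter_upwards [this] with y hy
  unfold uf
  simp only [Function.comp] at hy
  rw [hy]

lemma norm_uf (t : ℝ) {f : ℝ → ℝ} (hf : MemLp f 1 mu) :
    eLpNorm (uf t f) 1 mu = ENNReal.ofReal (Real.exp (-t)) * eLpNorm f 1 mu := by
  have h1 : uf t f = Real.exp (-(3 * t)) • (fun y => f (Real.exp (-t) * y)) := by
    ext y; rfl
  rw [h1, eLpNorm_const_smul, eLpNorm_scale (Real.exp_pos _) hf.1, ← mul_assoc]
  congr 1
  rw [Real.enorm_eq_ofReal (Real.exp_pos _).le, ← ENNReal.ofReal_mul (Real.exp_pos _).le]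
  congr 1
  rw [← Real.exp_neg, ← Real.exp_nat_mul, ← Real.exp_add]
  congr 1
  push_cast; ring

/-- the semigroup `U₀^{(a)}` for `r(x) = x`, `a = 2` -/
def UU (t : ℝ) : X1 →L[ℝ] X1 :=
  LinearMap.mkContinuous
    { toFun := fun f => (memLp_uf t (Lp.memLp f)).toLp (uf t f)
      map_add' := by
        intro f g
        rw [← MemLp.toLp_add]
        apply MemLp.toLp_congr
        refine (uf_congr t (Lp.coeFn_add f g)).trans ?_
        filter_upwards with y
        simp only [uf, Pi.add_apply]; ring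
      map_smul' := by
        intro c f
        rw [RingHom.id_apply, ← MemLp.toLp_const_smul]
        apply MemLp.toLp_congr
        refine (uf_congr t (Lp.coeFn_smul c f)).trans ?_
        filter_upwards with y
        simp only [uf, Pi.smul_apply, smul_eq_mul]; ring }
    (Real.exp (-t)) (by
      intro f
      change ‖(memLp_uf t (Lp.memLp f)).toLp (uf t f)‖ ≤ _
      rw [Lp.norm_toLp, norm_uf t (Lp.memLp f), ENNReal.toReal_mul,
        ENNReal.toReal_ofReal (Real.exp_pos _).le, Lp.norm_def])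

lemma UU_coe (t : ℝ) (f : X1) : (UU t f : ℝ → ℝ) =ᵐ[mu] uf t f :=
  MemLp.coeFn_toLp (memLp_uf t (Lp.memLp f))

lemma UU_norm (t : ℝ) (f : X1) : ‖UU t f‖ = Real.exp (-t) * ‖f‖ := by
  change ‖(memLp_uf t (Lp.memLp f)).toLp (uf t f)‖ = _
  rw [Lp.norm_toLp, norm_uf t (Lp.memLp f), ENNReal.toReal_mul,
    ENNReal.toReal_ofReal (Real.exp_pos _).le, Lp.norm_def]

lemma UU_opNorm (t : ℝ) : ‖UU t‖ ≤ Real.exp (-t) :=
  ContinuousLinearMap.opNorm_le_bound _ (Real.exp_pos _).le fun f => (UU_norm t f).le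

lemma UU_add (s t : ℝ) (f : X1) : UU (s + t) f = UU s (UU t f) := by
  apply Lp.ext
  refine (UU_coe (s+t) f).trans ?_
  refine EventuallyEq.trans ?_ (UU_coe s (UU t f)).symm
  refine EventuallyEq.trans ?_ (uf_congr s (UU_coe t f)).symm
  filter_upwards with y
  unfold uf
  rw [← mul_assoc, ← Real.exp_add, ← mul_assoc, ← Real.exp_add]
  congr 2
  · ring
  · ring_nf

lemma UU_zero (f : X1) : UU 0 f = f := by
  apply Lp.ext
  refine (UU_coe 0 f).trans ?_
  filter_upwards with y
  unfold uf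
  simp

instance : IsLocallyFiniteMeasure mu := by
  refine ⟨fun x => ⟨Ioo (x-1) (x+1), Ioo_mem_nhds (by linarith) (by linarith), ?_⟩⟩
  rw [mu_apply measurableSet_Ioo]
  have hle : ∀ y, (Ioo (x-1) (x+1) ∩ Ioi 0).indicator (fun x => ENNReal.ofReal x) y ≤
      (Ioo (x-1) (x+1)).indicator (fun _ => ENNReal.ofReal (x+1)) y := by
    intro y
    by_cases h : y ∈ Ioo (x-1) (x+1)
    · rw [indicator_of_mem h]
      by_cases h2 : y ∈ Ioo (x-1) (x+1) ∩ Ioi 0
      · rw [indicator_of_mem h2]
        exact ENNReal.ofReal_le_ofReal h.2.le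
      · rw [indicator_of_notMem h2]; exact zero_le
    · rw [indicator_of_notMem (fun h2 => h h2.1)]; exact zero_le
  refine lt_of_le_of_lt (lintegral_mono hle) ?_
  rw [lintegral_indicator measurableSet_Ioo, lintegral_const]
  apply ENNReal.mul_lt_top ENNReal.ofReal_lt_top
  simp

lemma mu_Icc_lt (a b : ℝ) : mu (Icc a b) < ⊤ := isCompact_Icc.measure_lt_top

/-- strong continuity at zero -/
lemma UU_tendsto (f : X1) : Tendsto (fun t => UU t f) (𝓝 0) (𝓝 f) := by
  rw [Metric.tendsto_nhds]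
  intro ε hε
  obtain ⟨g, hgs, hgε, hgc, hgm⟩ := (Lp.memLp f).exists_hasCompactSupport_eLpNorm_sub_le
    (by norm_num : (1:ℝ≥0∞) ≠ ⊤) (ε := ENNReal.ofReal (ε / 8)) (by simpa using hε)
  set g' : X1 := hgm.toLp g with hg'
  have hfg : ‖f - g'‖ ≤ ε / 8 := by
    have h1 : f - g' = ((Lp.memLp f).sub hgm).toLp ((f : ℝ → ℝ) - g) := by
      rw [MemLp.toLp_sub (Lp.memLp f) hgm, Lp.toLp_coeFn]
    rw [h1, Lp.norm_toLp]
    exact ENNReal.toReal_le_of_le_ofReal (by positivity) hgε
  -- convergence for `g`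
  obtain ⟨C, hC⟩ := hgs.exists_bound_of_continuous hgc
  have hC0 : 0 ≤ C := (norm_nonneg _).trans (hC 0)
  obtain ⟨R, hR⟩ := hgs.isCompact.isBounded.subset_closedBall (0:ℝ)
  have hgz : ∀ y, |R| < |y| → g y = 0 := by
    intro y hy
    by_contra hne
    have h1 : y ∈ tsupport g := subset_tsupport g hne
    have h2 := hR h1
    rw [mem_closedBall_zero_iff, Real.norm_eq_abs] at h2
    linarith [le_abs_self R]
  have hconv : Tendsto (fun t => ‖UU t g' - g'‖) (𝓝 0) (𝓝 0) := by
    have hnorm : ∀ t, ‖UU t g' - g'‖ = ∫ y, ‖uf t g y - g y‖ ∂mu := by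
      intro t
      rw [L1.norm_eq_integral_norm]
      apply integral_congr_ae
      filter_upwards [Lp.coeFn_sub (UU t g') g', UU_coe t g', uf_congr t hgm.coeFn_toLp,
        hgm.coeFn_toLp] with y h1 h2 h3 h4
      rw [h1, Pi.sub_apply, h2, h3, h4]
    simp only [hnorm]
    suffices hs : Tendsto (fun t => ∫ y, ‖uf t g y - g y‖ ∂mu) (𝓝 0) (𝓝 (∫ y : ℝ, (0:ℝ) ∂mu)) by
      simpa using hs
    apply tendsto_integral_filter_of_dominated_convergence
      (fun y => (Icc (-(3 * |R|)) (3 * |R|)).indicator (fun _ => (30 * C + C)) y)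
    · filter_upwards with t
      unfold uf
      exact (((continuous_const.mul (hgc.comp (by fun_prop))).sub hgc).norm).aestronglyMeasurable
    · have hb : Metric.ball (0:ℝ) 1 ∈ 𝓝 (0:ℝ) := Metric.ball_mem_nhds _ one_pos
      filter_upwards [hb] with t ht
      rw [mem_ball_zero_iff, Real.norm_eq_abs, abs_lt] at ht
      filter_upwards with y
      rw [norm_norm]
      have he1 : Real.exp (-(3 * t)) ≤ 30 := by
        have h1 : Real.exp (-(3 * t)) ≤ Real.exp 3 := Real.exp_le_exp.2 (by linarith [ht.1])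
        have h2 : Real.exp 3 = Real.exp 1 ^ 3 := by rw [← Real.exp_nat_mul]; norm_num
        have h3 := Real.exp_one_lt_d9
        have h4 := Real.exp_pos 1
        have h5 : Real.exp 1 ^ 3 ≤ 3 ^ 3 := pow_le_pow_left₀ h4.le (by linarith) 3
        linarith
      by_cases hy : y ∈ Icc (-(3 * |R|)) (3 * |R|)
      · rw [indicator_of_mem hy]
        refine (norm_sub_le _ _).trans (add_le_add ?_ (hC y))
        unfold uf
        rw [norm_mul, Real.norm_eq_abs, abs_of_pos (Real.exp_pos _)]
        exact mul_le_mul he1 (hC _) (norm_nonneg _) (by norm_num)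
      · rw [indicator_of_notMem hy]
        have hy3 : 3 * |R| < |y| := by
          by_contra hcon
          push Not at hcon
          exact hy (abs_le.1 hcon)
        have hR0 := abs_nonneg R
        have h1 : g y = 0 := hgz y (by linarith)
        have h2 : g (Real.exp (-t) * y) = 0 := by
          apply hgz
          rw [abs_mul, abs_of_pos (Real.exp_pos _)]
          have h3 : (1:ℝ)/3 ≤ Real.exp (-t) := by
            have h4 : Real.exp (-1) ≤ Real.exp (-t) := Real.exp_le_exp.2 (by linarith [ht.2])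
            have h5 := Real.exp_one_lt_d9
            rw [Real.exp_neg] at h4
            have h6 : (1:ℝ)/3 ≤ (Real.exp 1)⁻¹ := by
              rw [one_div]
              exact inv_anti₀ (Real.exp_pos 1) (by linarith)
            linarith
          nlinarith [abs_nonneg y]
        unfold uf
        rw [h1, h2]; simp
    · rw [integrable_indicator_iff measurableSet_Icc]
      exact integrableOn_const (mu_Icc_lt _ _).ne (by simp)
    · filter_upwards with y
      have h1 : Continuous (fun t : ℝ => ‖uf t g y - g y‖) := by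
        unfold uf
        exact (((by fun_prop : Continuous fun t : ℝ => Real.exp (-(3 * t))).mul
          (hgc.comp (by fun_prop))).sub continuous_const).norm
      have := h1.tendsto 0
      simpa [uf] using this
  have hev1 := (Metric.tendsto_nhds.1 hconv) (ε/4) (by positivity)
  have hev2 : ∀ᶠ t : ℝ in 𝓝 0, Real.exp (-t) < 2 := by
    have : Tendsto (fun t : ℝ => Real.exp (-t)) (𝓝 0) (𝓝 (Real.exp (-0))) :=
      (Real.continuous_exp.comp continuous_neg).tendsto 0
    rw [neg_zero, Real.exp_zero] at this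
    exact this.eventually (gt_mem_nhds (by norm_num))
  filter_upwards [hev1, hev2] with t h1 h2
  rw [Real.dist_eq, sub_zero, abs_of_nonneg (norm_nonneg _)] at h1
  rw [dist_eq_norm]
  have e : UU t f - f = UU t (f - g') + (UU t g' - g') + (g' - f) := by
    rw [map_sub]; abel
  rw [e]
  have h3 : ‖UU t (f - g')‖ ≤ 2 * (ε/8) := by
    rw [UU_norm]
    exact mul_le_mul h2.le hfg (norm_nonneg _) (by norm_num)
  have h4 : ‖g' - f‖ ≤ ε / 8 := by rw [norm_sub_rev]; exact hfg
  calc _ ≤ ‖UU t (f - g')‖ + ‖UU t g' - g'‖ + ‖g' - f‖ := norm_add₃_le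
    _ < ε := by linarith

lemma UU_continuous (f : X1) : Continuous (fun t => UU t f) := by
  rw [continuous_iff_continuousAt]
  intro s
  have h1 : Tendsto (fun t : ℝ => t - s) (𝓝 s) (𝓝 0) := by
    have : Tendsto (fun t : ℝ => t - s) (𝓝 s) (𝓝 (s - s)) := tendsto_id.sub_const s
    rwa [sub_self] at this
  have h2 := ((UU s).continuous.tendsto f).comp ((UU_tendsto f).comp h1)
  refine h2.congr fun t => ?_
  simp only [Function.comp]
  rw [← UU_add]; congr 2; ring

theorem UU_C0 : IsC0 UU :=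
  ⟨UU_zero, fun s t _ _ f => UU_add s t f, fun f => (UU_continuous f).continuousOn⟩

lemma UU_le_one (t : ℝ) (ht : 0 ≤ t) : ‖UU t‖ ≤ 1 :=
  (UU_opNorm t).trans (Real.exp_le_one_iff.2 (by linarith))

end

end Q65.GF
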