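import Mathlib
import Pool.Agent.Q65.GFC

/-!
# The counterexample for growth-fragmentation semigroups
-/

set_option linter.unusedSectionVars false

namespace Q65.GF

open Set MeasureTheory Filter Topology
open scoped NNReal ENNReal

noncomputable section

/-- `a` times the fragment profile: `(6/7)·1_{[1,2]}` -/
def hfun (y : ℝ) : ℝ := (Icc (1:ℝ) 2).indicator (fun _ => 6/7) y

lemma hfun_memLp : MemLp hfun 1 mu := by
  unfold hfun
  rw [memLp_one_iff_integrable]
  change Integrable ((Icc (1:ℝ) 2).indicator (fun _ => (6/7:ℝ))) mu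
  rw [integrable_indicator_iff measurableSet_Icc]
  exact integrableOn_const (mu_Icc_lt _ _).ne (by simp)

def h1 : X1 := hfun_memLp.toLp hfun

lemma Lp_integrable (f : X1) : Integrable f mu := memLp_one_iff_integrable.1 (Lp.memLp f)

/-- the functional `ℓ(f) = ∫_2^∞ f(y) y dy` -/
def ell : X1 →L[ℝ] ℝ :=
  LinearMap.mkContinuous
    { toFun := fun f => ∫ y in Ioi 2, f y ∂mu
      map_add' := by
        intro f g
        rw [← integral_add (Lp_integrable f).integrableOn (Lp_integrable g).integrableOn]
        apply integral_congr_ae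
        exact ae_restrict_of_ae (Lp.coeFn_add f g)
      map_smul' := by
        intro c f
        rw [RingHom.id_apply, smul_eq_mul, ← integral_const_mul]
        apply integral_congr_ae
        apply ae_restrict_of_ae
        filter_upwards [Lp.coeFn_smul c f] with y hy
        rw [hy]; rfl }
    1 (by
      intro f
      change ‖∫ y in Ioi 2, f y ∂mu‖ ≤ 1 * ‖f‖
      rw [one_mul, L1.norm_eq_integral_norm]
      refine (norm_integral_le_integral_norm _).trans ?_
      exact setIntegral_le_integral (Lp_integrable f).norm (Eventually.of_forall fun y => norm_nonneg _))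

lemma ell_apply (f : X1) : ell f = ∫ y in Ioi 2, f y ∂mu := rfl

/-- the fragmentation operator -/
def BB : X1 →L[ℝ] X1 := ell.smulRight h1

lemma BB_apply (f : X1) : BB f = ell f • h1 := rfl

/-- integrals against `mu` -/
lemma int_mu {s : Set ℝ} (hs : MeasurableSet s) (hpos : s ⊆ Ioi 0) (g : ℝ → ℝ) :
    ∫ y in s, g y ∂mu = ∫ y in s, y * g y := by
  unfold mu
  rw [restrict_withDensity hs, Measure.restrict_restrict hs, inter_eq_left.2 hpos,
    integral_withDensity_eq_integral_toReal_smul ENNReal.measurable_ofReal (by simp)]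
  apply setIntegral_congr_fun hs
  intro y hy
  simp only [smul_eq_mul]
  rw [ENNReal.toReal_ofReal (hpos hy).le]

lemma ae_pos : ∀ᵐ y ∂mu, 0 < y := by
  unfold mu
  apply (withDensity_absolutelyContinuous _ _).ae_le
  exact ae_restrict_mem measurableSet_Ioi

lemma ae_ne (b : ℝ) : ∀ᵐ y ∂mu, y ≠ b := by
  unfold mu
  apply (withDensity_absolutelyContinuous _ _).ae_le
  apply ae_restrict_of_ae
  exact measure_eq_zero_iff_ae_notMem.1 (measure_singleton b)

/-! ### the eigenfunction -/

def GG (y : ℝ) : ℝ := min (max (y ^ 3 - 1) 0) 7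

lemma GG_low {y : ℝ} (h0 : 0 ≤ y) (h : y ≤ 1) : GG y = 0 := by
  unfold GG
  have : y ^ 3 ≤ 1 := pow_le_one₀ h0 h
  rw [max_eq_right (by linarith)]; norm_num

lemma GG_mid {y : ℝ} (h1 : 1 ≤ y) (h2 : y ≤ 2) : GG y = y ^ 3 - 1 := by
  unfold GG
  have a1 : 1 ≤ y ^ 3 := one_le_pow₀ h1
  have a2 : y ^ 3 ≤ 2 ^ 3 := pow_le_pow_left₀ (by linarith) h2 3
  rw [max_eq_left (by linarith), min_eq_left (by linarith)]

lemma GG_high {y : ℝ} (h2 : 2 ≤ y) : GG y = 7 := by
  unfold GG
  have a2 : (2:ℝ) ^ 3 ≤ y ^ 3 := pow_le_pow_left₀ (by norm_num) h2 3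
  rw [max_eq_left (by linarith), min_eq_right (by linarith)]

lemma GG_nonneg (y : ℝ) : 0 ≤ GG y := le_min (le_max_right _ _) (by norm_num)

lemma GG_diff {y z : ℝ} (hz0 : 0 ≤ z) (hz : z ≤ y) : 0 ≤ GG y - GG z ∧ GG y - GG z ≤ y ^ 3 - z ^ 3 := by
  have h3 : z ^ 3 ≤ y ^ 3 := pow_le_pow_left₀ hz0 hz 3
  unfold GG
  constructor
  · have : max (z ^ 3 - 1) 0 ≤ max (y ^ 3 - 1) 0 := max_le_max (by linarith) le_rfl
    have := min_le_min this (le_refl (7:ℝ))
    linarith
  · rcases le_total (z ^ 3 - 1) 0 with h | h <;> rcases le_total (y ^ 3 - 1) 0 with h' | h'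
    · rw [max_eq_right h, max_eq_right h']; simp; linarith
    · rw [max_eq_right h, max_eq_left h']
      have : min (y ^ 3 - 1) 7 ≤ y ^ 3 - 1 := min_le_left _ _
      have : min (0:ℝ) 7 = 0 := by norm_num
      linarith
    · rw [max_eq_left h, max_eq_right h']
      have : min (0:ℝ) 7 = 0 := by norm_num
      have : 0 ≤ min (z ^ 3 - 1) 7 := le_min h (by norm_num)
      linarith
    · rw [max_eq_left h, max_eq_left h']
      rcases le_total (z ^ 3 - 1) 7 with g | g
      · rw [min_eq_left g]
        have : min (y ^ 3 - 1) 7 ≤ y ^ 3 - 1 := min_le_left _ _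
        linarith
      · rw [min_eq_right g]
        have : min (y ^ 3 - 1) 7 ≤ 7 := min_le_right _ _
        linarith

lemma GG_cont : Continuous GG := by unfold GG; fun_prop

def f0fun (y : ℝ) : ℝ := (y ^ 3)⁻¹ * GG y

lemma f0_meas : Measurable f0fun := by
  unfold f0fun
  exact ((measurable_id.pow_const 3).inv).mul GG_cont.measurable

lemma f0_int_high : IntegrableOn f0fun (Ioi 2) mu ∧ ∫ y in Ioi 2, f0fun y ∂mu = 7/2 := by
  have hcongr : ∀ y ∈ Ioi (2:ℝ), y * f0fun y = 7 * y ^ (-2 : ℝ) := by
    intro y hy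
    have hy2 : 2 < y := hy
    have hy0 : 0 < y := by linarith
    unfold f0fun
    rw [GG_high hy2.le, Real.rpow_neg hy0.le, Real.rpow_two]
    field_simp
  have hint : IntegrableOn (fun y : ℝ => 7 * y ^ (-2 : ℝ)) (Ioi 2) :=
    (integrableOn_Ioi_rpow_of_lt (by norm_num) (by norm_num)).const_mul 7
  constructor
  · have hmeasrestr : mu.restrict (Ioi 2) = (volume.restrict (Ioi 2)).withDensity (fun x => ENNReal.ofReal x) := by
      unfold mu
      rw [restrict_withDensity measurableSet_Ioi, Measure.restrict_restrict measurableSet_Ioi]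
      congr 2
      ext y; simp only [mem_inter_iff, mem_Ioi]
      constructor
      · exact fun h => h.1
      · intro h; exact ⟨h, by linarith⟩
    unfold IntegrableOn
    rw [hmeasrestr, integrable_withDensity_iff ENNReal.measurable_ofReal (by simp)]
    refine (hint.congr ?_)
    rw [Filter.EventuallyEq, ae_restrict_iff' measurableSet_Ioi]
    filter_upwards with y hy
    have hy2 : (2:ℝ) < y := hy
    rw [← hcongr y hy, ENNReal.toReal_ofReal (by linarith), mul_comm]
  · rw [int_mu measurableSet_Ioi (fun y (hy : (2:ℝ) < y) => (lt_trans two_pos hy : (0:ℝ) < y)),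
      setIntegral_congr_fun measurableSet_Ioi hcongr, integral_const_mul,
      integral_Ioi_rpow_of_lt (by norm_num) (by norm_num)]
    norm_num

lemma f0_memLp : MemLp f0fun 1 mu := by
  rw [memLp_one_iff_integrable]
  have h1 : IntegrableOn f0fun (Iic 2) mu := by
    have hb : IntegrableOn (fun _ : ℝ => (7:ℝ)) (Icc 0 2) mu :=
      integrableOn_const (mu_Icc_lt _ _).ne (by simp)
    have hIcc : IntegrableOn f0fun (Icc 0 2) mu := by
      refine hb.mono' f0_meas.aestronglyMeasurable ?_
      rw [ae_restrict_iff' measurableSet_Icc]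
      filter_upwards with y hy
      unfold f0fun
      rcases le_total y 1 with h | h
      · rw [GG_low hy.1 h]; norm_num
      · rw [norm_mul, Real.norm_eq_abs, Real.norm_eq_abs, abs_of_nonneg (GG_nonneg y),
          abs_of_nonneg (by have := hy.1; positivity)]
        have h3 : 1 ≤ y ^ 3 := one_le_pow₀ h
        have h4 : (y ^ 3)⁻¹ ≤ 1 := inv_le_one_of_one_le₀ h3
        have h5 : GG y ≤ 7 := min_le_right _ _
        have h6 := GG_nonneg y
        have h7 : 0 ≤ (y ^ 3)⁻¹ := by positivity
        nlinarith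
    refine hIcc.congr_set_ae ?_
    filter_upwards [ae_pos] with y hy
    apply propext
    constructor
    · exact fun h => ⟨hy.le, h⟩
    · exact fun h => h.2
  have := h1.union f0_int_high.1
  rwa [Iic_union_Ioi, integrableOn_univ] at this

def f0 : X1 := f0_memLp.toLp f0fun

lemma ell_f0 : ell f0 = 7/2 := by
  rw [ell_apply, ← f0_int_high.2]
  apply integral_congr_ae
  exact ae_restrict_of_ae f0_memLp.coeFn_toLp

lemma f0_ne : f0 ≠ 0 := by
  intro h
  have := ell_f0
  rw [h, map_zero] at this
  norm_num at this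

lemma uf_f0 (t : ℝ) {y : ℝ} (hy : 0 < y) : uf t f0fun y = (y ^ 3)⁻¹ * GG (Real.exp (-t) * y) := by
  unfold uf f0fun
  have he := Real.exp_pos (-t)
  have h3 : Real.exp (-(3 * t)) = Real.exp (-t) ^ 3 := by
    rw [← Real.exp_nat_mul]; congr 1; push_cast; ring
  rw [h3, mul_pow]
  field_simp

/-- the difference quotient -/
theorem gen_f0 : IsGen UU f0 (-(BB f0)) := by
  unfold IsGen
  rw [tendsto_iff_norm_sub_tendsto_zero]
  have hnorm : ∀ t : ℝ, ‖t⁻¹ • (UU t f0 - f0) - -(BB f0)‖
      = ∫ y, ‖t⁻¹ * (uf t f0fun y - f0fun y) + (7/2) * hfun y‖ ∂mu := by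
    intro t
    rw [L1.norm_eq_integral_norm, BB_apply, ell_f0]
    apply integral_congr_ae
    have e : t⁻¹ • (UU t f0 - f0) - -((7/2 : ℝ) • h1) = t⁻¹ • (UU t f0 - f0) + (7/2 : ℝ) • h1 := by abel
    rw [e]
    filter_upwards [Lp.coeFn_add (t⁻¹ • (UU t f0 - f0)) ((7/2 : ℝ) • h1), Lp.coeFn_smul t⁻¹ (UU t f0 - f0),
      Lp.coeFn_smul (7/2 : ℝ) h1, Lp.coeFn_sub (UU t f0) f0, UU_coe t f0,
      uf_congr t f0_memLp.coeFn_toLp, f0_memLp.coeFn_toLp, hfun_memLp.coeFn_toLp] with y a1 a2 a3 a4 a5 a6 a7 a8
    rw [a1, Pi.add_apply, a2, a3, Pi.smul_apply, Pi.smul_apply, a4, Pi.sub_apply, a5]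
    unfold f0 h1
    rw [a6, a7, a8]
    rfl
  simp only [hnorm]
  suffices hs : Tendsto (fun t => ∫ y, ‖t⁻¹ * (uf t f0fun y - f0fun y) + (7/2) * hfun y‖ ∂mu)
      (𝓝[>] 0) (𝓝 (∫ y : ℝ, (0:ℝ) ∂mu)) by simpa using hs
  have hmemt : Ioo (0:ℝ) 1 ∈ 𝓝[>] (0:ℝ) := Ioo_mem_nhdsGT one_pos
  apply tendsto_integral_filter_of_dominated_convergence
    (fun y => (Icc (1:ℝ) 6).indicator (fun _ => (6:ℝ)) y)
  · filter_upwards with t
    have m1 : Measurable (uf t f0fun) := by
      unfold uf
      exact (f0_meas.comp (measurable_const_mul _)).const_mul _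
    have m2 : Measurable hfun := measurable_const.indicator measurableSet_Icc
    exact (((m1.sub f0_meas).const_mul _).add (m2.const_mul _)).norm.aestronglyMeasurable
  · filter_upwards [hmemt] with t ht
    filter_upwards [ae_pos] with y hy
    rw [norm_norm, uf_f0 t hy]
    have het : Real.exp (-t) ≤ 1 := Real.exp_le_one_iff.2 (by linarith [ht.1])
    have het0 := Real.exp_pos (-t)
    have hzy : Real.exp (-t) * y ≤ y := by nlinarith
    have hz0 : 0 ≤ Real.exp (-t) * y := by positivity
    have hd := GG_diff hz0 hzy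
    have hy3 : 0 < y ^ 3 := by positivity
    unfold f0fun
    -- the quotient is at most `3`
    have hq : |t⁻¹ * ((y ^ 3)⁻¹ * GG (Real.exp (-t) * y) - (y ^ 3)⁻¹ * GG y)| ≤ 3 := by
      have e1 : t⁻¹ * ((y ^ 3)⁻¹ * GG (Real.exp (-t) * y) - (y ^ 3)⁻¹ * GG y)
          = -(t⁻¹ * ((y ^ 3)⁻¹ * (GG y - GG (Real.exp (-t) * y)))) := by ring
      rw [e1, abs_neg, abs_of_nonneg (by have := hd.1; have := ht.1; positivity)]
      have e2 : y ^ 3 - (Real.exp (-t) * y) ^ 3 ≤ 3 * t * y ^ 3 := by
        rw [mul_pow]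
        have e3 : 1 - 3 * t ≤ Real.exp (-t) ^ 3 := by
          rw [← Real.exp_nat_mul]
          have := Real.add_one_le_exp ((3:ℕ) * (-t))
          push_cast at this ⊢
          linarith
        nlinarith
      have e4 : (y ^ 3)⁻¹ * (GG y - GG (Real.exp (-t) * y)) ≤ 3 * t := by
        rw [inv_mul_le_iff₀ hy3]; linarith [hd.2]
      rw [inv_mul_le_iff₀ ht.1]; linarith
    by_cases hmem : y ∈ Icc (1:ℝ) 6
    · rw [indicator_of_mem hmem]
      have h2 : |(7/2) * hfun y| ≤ 3 := by
        unfold hfun
        by_cases h : y ∈ Icc (1:ℝ) 2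
        · rw [indicator_of_mem h]; norm_num
        · rw [indicator_of_notMem h]; norm_num
      refine (abs_add_le _ _).trans ?_
      linarith
    · rw [indicator_of_notMem hmem]
      have hh : hfun y = 0 := by
        unfold hfun
        apply indicator_of_notMem
        intro h; exact hmem ⟨h.1, by linarith [h.2]⟩
      rw [hh, mul_zero, add_zero]
      rcases lt_or_ge y 1 with h | h
      · rw [GG_low hy.le h.le, GG_low hz0 (by linarith)]; simp
      · have h6 : 6 < y := by
          by_contra hcon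
          exact hmem ⟨h, not_lt.1 hcon⟩
        have h7 : 2 ≤ Real.exp (-t) * y := by
          have h8 : (1:ℝ)/3 ≤ Real.exp (-t) := by
            have h4 : Real.exp (-1) ≤ Real.exp (-t) := Real.exp_le_exp.2 (by linarith [ht.2])
            have h5 := Real.exp_one_lt_d9
            rw [Real.exp_neg] at h4
            have h6 : (1:ℝ)/3 ≤ (Real.exp 1)⁻¹ := by
              rw [one_div]
              exact inv_anti₀ (Real.exp_pos 1) (by linarith)
            linarith
          nlinarith
        rw [GG_high h7, GG_high (by linarith)]; simp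
  · rw [integrable_indicator_iff measurableSet_Icc]
    exact integrableOn_const (mu_Icc_lt _ _).ne (by simp)
  · filter_upwards [ae_pos, ae_ne 1, ae_ne 2] with y hy hy1 hy2
    have hexp : Tendsto (fun t : ℝ => Real.exp (-t) * y) (𝓝[>] 0) (𝓝 y) := by
      have : Tendsto (fun t : ℝ => Real.exp (-t) * y) (𝓝 0) (𝓝 (Real.exp (-0) * y)) :=
        ((Real.continuous_exp.comp continuous_neg).mul continuous_const).tendsto 0
      rw [neg_zero, Real.exp_zero, one_mul] at this
      exact this.mono_left nhdsWithin_le_nhds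
    have hy3 : 0 < y ^ 3 := by positivity
    rcases lt_trichotomy y 1 with h | h | h
    · have hh : hfun y = 0 := by
        unfold hfun
        exact indicator_of_notMem (fun h' => by linarith [h'.1]) _
      apply tendsto_const_nhds.congr'
      filter_upwards [hmemt] with t ht
      have het : Real.exp (-t) ≤ 1 := Real.exp_le_one_iff.2 (by linarith [ht.1])
      have het0 := Real.exp_pos (-t)
      rw [uf_f0 t hy, hh]
      unfold f0fun
      rw [GG_low hy.le h.le, GG_low (by positivity) (by nlinarith)]; simp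
    · exact absurd h hy1
    · rcases lt_trichotomy y 2 with h' | h' | h'
      · have hh : hfun y = 6/7 := by
          have hm : y ∈ Icc (1:ℝ) 2 := ⟨h.le, h'.le⟩
          unfold hfun
          rw [indicator_of_mem hm]
        have hder : Tendsto (fun t : ℝ => t⁻¹ * (Real.exp (-(3 * t)) - 1)) (𝓝[>] 0) (𝓝 (-3)) := by
          have hd : HasDerivAt (fun t : ℝ => Real.exp (-(3 * t))) (-3) 0 := by
            have a1 : HasDerivAt (fun t : ℝ => -(3 * t)) (-(3 * 1)) 0 :=
              ((hasDerivAt_id (0:ℝ)).const_mul 3).neg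
            have a2 := a1.exp
            simpa using a2
          have := hd.tendsto_slope_zero_right
          simpa using this
        have hlim : Tendsto (fun t : ℝ => ‖t⁻¹ * (Real.exp (-(3 * t)) - 1) + 3‖) (𝓝[>] 0) (𝓝 ‖(-3 : ℝ) + 3‖) :=
          (hder.add_const 3).norm
        rw [show (-3 : ℝ) + 3 = 0 by norm_num, norm_zero] at hlim
        refine hlim.congr' ?_
        filter_upwards [hmemt, hexp.eventually (lt_mem_nhds h)] with t ht ht2
        have het : Real.exp (-t) ≤ 1 := Real.exp_le_one_iff.2 (by linarith [ht.1])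
        rw [uf_f0 t hy, hh]
        unfold f0fun
        rw [GG_mid h.le h'.le, GG_mid ht2.le (by nlinarith), mul_pow]
        have h3 : Real.exp (-(3 * t)) = Real.exp (-t) ^ 3 := by
          rw [← Real.exp_nat_mul]; congr 1; push_cast; ring
        rw [h3]
        congr 1
        field_simp
        ring
      · exact absurd h' hy2
      · have hh : hfun y = 0 := by
          unfold hfun
          exact indicator_of_notMem (fun h'' => by linarith [h''.2]) _
        apply tendsto_const_nhds.congr'
        filter_upwards [hexp.eventually (lt_mem_nhds h')] with t ht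
        rw [uf_f0 t hy, hh]
        unfold f0fun
        rw [GG_high h'.le, GG_high ht.le]; simp

end

end Q65.GF
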