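import Mathlib

/-!
Radial eigenfunctions of the Laplacian of real projective space, as even polynomials in `cos θ`.
-/

set_option autoImplicit false

namespace Q65.GP

open Finset Real

/-- coefficients of the zonal polynomial, normalised to be `1` at `0` -/
noncomputable def coef (d k : ℕ) : ℕ → ℝ
  | 0 => 1
  | j + 1 => -(coef d k j * ((2 * k - 2 * j) * (2 * k + 2 * j + d - 1))) /
      ((2 * j + 1) * (2 * j + 2))

/-- the square of the frequency -/
noncomputable def mu2 (d k : ℕ) : ℝ := 2 * k * (2 * k + d - 1)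

lemma coef_succ (d k j : ℕ) : (2 * j + 2 : ℝ) * (2 * j + 1) * coef d k (j + 1) =
    (2 * j * (2 * j - 1) + 2 * j * d - mu2 d k) * coef d k j := by
  have h1 : (2 * j + 1 : ℝ) ≠ 0 := by positivity
  have h2 : (2 * j + 2 : ℝ) ≠ 0 := by positivity
  rw [coef, mu2]
  field_simp
  ring

lemma coef_top (d k : ℕ) : coef d k (k + 1) = 0 := by
  rw [coef]
  simp

/-- the zonal polynomial -/
noncomputable def p0 (d k : ℕ) (x : ℝ) : ℝ := ∑ j ∈ range (k + 1), coef d k j * x ^ (2 * j)

noncomputable def p1 (d k : ℕ) (x : ℝ) : ℝ :=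
  ∑ j ∈ range (k + 1), coef d k j * ((2 * j : ℕ) * x ^ (2 * j - 1))

noncomputable def p2 (d k : ℕ) (x : ℝ) : ℝ :=
  ∑ j ∈ range (k + 1), coef d k j * ((2 * j : ℕ) * ((2 * j - 1 : ℕ) * x ^ (2 * j - 1 - 1)))

lemma hasDerivAt_p0 (d k : ℕ) (x : ℝ) : HasDerivAt (p0 d k) (p1 d k x) x := by
  unfold p0 p1
  exact HasDerivAt.fun_sum fun j _ => (hasDerivAt_pow (2 * j) x).const_mul _

lemma hasDerivAt_p1 (d k : ℕ) (x : ℝ) : HasDerivAt (p1 d k) (p2 d k x) x := by
  unfold p1 p2
  exact HasDerivAt.fun_sum fun j _ =>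
    ((hasDerivAt_pow (2 * j - 1) x).const_mul ((2 * j : ℕ) : ℝ)).const_mul _

lemma continuous_p0 (d k : ℕ) : Continuous (p0 d k) := by
  unfold p0; fun_prop

lemma continuous_p1 (d k : ℕ) : Continuous (p1 d k) := by
  unfold p1; fun_prop

lemma p0_zero (d k : ℕ) : p0 d k 0 = 1 := by
  unfold p0
  rw [sum_range_succ']
  simp [coef]

lemma p1_zero (d k : ℕ) : p1 d k 0 = 0 := by
  unfold p1
  apply sum_eq_zero
  intro j _
  rcases j with _ | j
  · simp
  · have : 2 * (j + 1) - 1 ≠ 0 := by omega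
    simp [this]

/-- the Gegenbauer differential equation -/
lemma ode (d k : ℕ) (x : ℝ) :
    (1 - x ^ 2) * p2 d k x - d * x * p1 d k x + mu2 d k * p0 d k x = 0 := by
  set T : ℕ → ℝ := fun j => (2 * j : ℝ) * (2 * j - 1) * coef d k j * x ^ (2 * j - 2) with hT
  have key : ∀ j : ℕ, (1 - x ^ 2) * (coef d k j * ((2 * j : ℕ) * ((2 * j - 1 : ℕ) *
      x ^ (2 * j - 1 - 1)))) - d * x * (coef d k j * ((2 * j : ℕ) * x ^ (2 * j - 1))) +
      mu2 d k * (coef d k j * x ^ (2 * j)) = T j - T (j + 1) := by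
    intro j
    have h := coef_succ d k j
    have e1 : T (j + 1) = (2 * j * (2 * j - 1) + 2 * j * d - mu2 d k) * coef d k j *
        x ^ (2 * j) := by
      rw [← h, hT]
      have : 2 * (j + 1) - 2 = 2 * j := by omega
      simp only [this]
      push_cast
      ring
    rw [e1, hT]
    rcases j with _ | j
    · simp
    · have a1 : 2 * (j + 1) - 1 - 1 = 2 * j := by omega
      have a2 : 2 * (j + 1) - 1 = 2 * j + 1 := by omega
      have a3 : 2 * (j + 1) - 2 = 2 * j := by omega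
      have a4 : 2 * (j + 1) = 2 * j + 2 := by ring
      simp only [a4]
      push_cast
      ring
  have h1 : (1 - x ^ 2) * p2 d k x - d * x * p1 d k x + mu2 d k * p0 d k x =
      ∑ j ∈ range (k + 1), (T j - T (j + 1)) := by
    unfold p2 p1 p0
    rw [mul_sum, mul_sum, mul_sum, ← sum_sub_distrib, ← sum_add_distrib]
    exact sum_congr rfl fun j _ => key j
  rw [h1, sum_range_sub']
  simp only [hT]
  rw [coef_top]
  simp

/-- the zonal function -/
noncomputable def u (d k : ℕ) (θ : ℝ) : ℝ := p0 d k (cos θ)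

noncomputable def u' (d k : ℕ) (θ : ℝ) : ℝ := -(sin θ * p1 d k (cos θ))

noncomputable def u'' (d k : ℕ) (θ : ℝ) : ℝ :=
  -(cos θ * p1 d k (cos θ)) + sin θ ^ 2 * p2 d k (cos θ)

lemma hasDerivAt_u (d k : ℕ) (θ : ℝ) : HasDerivAt (u d k) (u' d k θ) θ := by
  have h := (hasDerivAt_p0 d k (cos θ)).comp θ (hasDerivAt_cos θ)
  exact h.congr_deriv (by unfold u'; ring)

lemma hasDerivAt_u' (d k : ℕ) (θ : ℝ) : HasDerivAt (u' d k) (u'' d k θ) θ := by
  have h := ((hasDerivAt_sin θ).mul ((hasDerivAt_p1 d k (cos θ)).comp θ (hasDerivAt_cos θ))).neg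
  exact h.congr_deriv (by unfold u''; simp only [Function.comp]; ring)

lemma eigen_mul (d k : ℕ) (θ : ℝ) :
    sin θ * u'' d k θ + (d - 1) * cos θ * u' d k θ = -(mu2 d k * (sin θ * u d k θ)) := by
  have h := ode d k (cos θ)
  have h2 : 1 - cos θ ^ 2 = sin θ ^ 2 := by
    have := sin_sq_add_cos_sq θ; linarith
  rw [h2] at h
  unfold u u' u''
  linear_combination (sin θ) * h

lemma continuous_u (d k : ℕ) : Continuous (u d k) :=
  continuous_iff_continuousAt.2 fun θ => (hasDerivAt_u d k θ).continuousAt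

lemma continuous_u' (d k : ℕ) : Continuous (u' d k) :=
  continuous_iff_continuousAt.2 fun θ => (hasDerivAt_u' d k θ).continuousAt

lemma u_pi_div_two (d k : ℕ) : u d k (π / 2) = 1 := by
  unfold u; rw [cos_pi_div_two, p0_zero]

lemma u'_pi_div_two (d k : ℕ) : u' d k (π / 2) = 0 := by
  unfold u'; rw [cos_pi_div_two, p1_zero]; ring

lemma u_symm (d k : ℕ) (θ : ℝ) : u d k (π - θ) = u d k θ := by
  unfold u p0
  refine sum_congr rfl fun j _ => ?_
  rw [cos_pi_sub, pow_mul, pow_mul, neg_sq]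

end Q65.GP
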