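import Pool.Agent.Q65.GPa

/-!
Integral identities for the zonal functions: a Rellich identity and orthogonality.
The dimension is `d = e + 2`.
-/

set_option autoImplicit false

namespace Q65.GP

open Finset Real MeasureTheory

lemma eigen_e (e k : ℕ) (θ : ℝ) :
    sin θ * u'' (e + 2) k θ = -((e + 1) * cos θ * u' (e + 2) k θ) -
      mu2 (e + 2) k * (sin θ * u (e + 2) k θ) := by
  have h := eigen_mul (e + 2) k θ
  push_cast at h
  linarith

/-- the primitive in the Rellich identity -/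
noncomputable def rell (e k : ℕ) (θ : ℝ) : ℝ :=
  sin θ ^ (e + 2) * u' (e + 2) k θ ^ 2 + mu2 (e + 2) k * (sin θ ^ (e + 2) * u (e + 2) k θ ^ 2) +
    e * (cos θ * (sin θ ^ (e + 1) * (u (e + 2) k θ * u' (e + 2) k θ)) +
      1 / 2 * (sin θ ^ (e + 2) * u (e + 2) k θ ^ 2))

lemma hasDerivAt_rell (e k : ℕ) (θ : ℝ) : HasDerivAt (rell e k)
    ((2 * mu2 (e + 2) k + e * (e + 2) / 2) * (sin θ ^ (e + 1) * (cos θ * u (e + 2) k θ ^ 2))) θ := by
  have hs := hasDerivAt_sin θ
  have hc := hasDerivAt_cos θ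
  have hu := hasDerivAt_u (e + 2) k θ
  have hu' := hasDerivAt_u' (e + 2) k θ
  have h1 := (hs.fun_pow (e + 2)).fun_mul (hu'.fun_pow 2)
  have h2 := ((hs.fun_pow (e + 2)).fun_mul (hu.fun_pow 2)).const_mul (mu2 (e + 2) k)
  have h3 := hc.fun_mul ((hs.fun_pow (e + 1)).fun_mul (hu.fun_mul hu'))
  have h4 := ((hs.fun_pow (e + 2)).fun_mul (hu.fun_pow 2)).const_mul (1 / 2 : ℝ)
  have h5 := (h1.fun_add h2).fun_add ((h3.fun_add h4).const_mul (e : ℝ))
  refine h5.congr_deriv ?_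
  have key := eigen_e e k θ
  have a1 : e + 2 - 1 = e + 1 := by omega
  have a2 : e + 1 - 1 = e := by omega
  rw [a1, a2]
  push_cast
  generalize u (e + 2) k θ = U at key ⊢
  generalize u' (e + 2) k θ = U1 at key ⊢
  generalize u'' (e + 2) k θ = U2 at key ⊢
  generalize mu2 (e + 2) k = m at key ⊢
  generalize cos θ = c at key ⊢
  generalize sin θ = s at key ⊢
  have e1 : s ^ (e + 1) = s ^ e * s := pow_succ s e
  have e2 : s ^ (e + 2) = s ^ e * s ^ 2 := pow_add s e 2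
  rw [e1, e2]
  simp only [pow_one]
  linear_combination (2 * s ^ e * s * U1 + e * (c * (s ^ e * U))) * key

lemma rell_ftc (e k : ℕ) : (2 * mu2 (e + 2) k + e * (e + 2) / 2) *
    ∫ θ in (0:ℝ)..(π / 2), sin θ ^ (e + 1) * (cos θ * u (e + 2) k θ ^ 2) =
      mu2 (e + 2) k + e / 2 := by
  have h := intervalIntegral.integral_eq_sub_of_hasDerivAt (a := 0) (b := π / 2)
    (fun θ _ => hasDerivAt_rell e k θ) (by
      apply Continuous.intervalIntegrable
      have := continuous_u (e + 2) k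
      fun_prop)
  rw [intervalIntegral.integral_const_mul] at h
  rw [h]
  unfold rell
  rw [u_pi_div_two, u'_pi_div_two, sin_pi_div_two, cos_pi_div_two, sin_zero, cos_zero]
  have a1 : (0:ℝ) ^ (e + 2) = 0 := by simp
  have a2 : (0:ℝ) ^ (e + 1) = 0 := by simp
  rw [a1, a2]
  ring

lemma mu2_nonneg (e k : ℕ) : 0 ≤ mu2 (e + 2) k := by
  unfold mu2
  push_cast
  have : (0:ℝ) ≤ 2 * k + (e + 2) - 1 := by
    have h1 : (0:ℝ) ≤ k := by positivity
    have h2 : (0:ℝ) ≤ e := by positivity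
    linarith
  positivity

lemma mu2_pos (e : ℕ) {k : ℕ} (hk : 0 < k) : 0 < mu2 (e + 2) k := by
  unfold mu2
  push_cast
  have h1 : (0:ℝ) < k := by exact_mod_cast hk
  have h2 : (0:ℝ) ≤ e := by positivity
  have : (0:ℝ) < 2 * k + (e + 2) - 1 := by linarith
  positivity

lemma rell_bound (e : ℕ) {k : ℕ} (hk : 0 < k) :
    ∫ θ in (0:ℝ)..(π / 2), sin θ ^ (e + 1) * (cos θ * u (e + 2) k θ ^ 2) ≤ 1 := by
  have h := rell_ftc e k
  have hm := mu2_pos e hk
  have he : (0:ℝ) ≤ e := by positivity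
  have hK : 0 < 2 * mu2 (e + 2) k + e * (e + 2) / 2 := by positivity
  by_contra hcon
  push Not at hcon
  have : (2 * mu2 (e + 2) k + e * (e + 2) / 2) * 1 <
      (2 * mu2 (e + 2) k + e * (e + 2) / 2) *
        ∫ θ in (0:ℝ)..(π / 2), sin θ ^ (e + 1) * (cos θ * u (e + 2) k θ ^ 2) :=
    mul_lt_mul_of_pos_left hcon hK
  rw [h] at this
  nlinarith [mul_nonneg he he]

lemma hasDerivAt_wronsk (e k l : ℕ) (θ : ℝ) : HasDerivAt
    (fun θ => sin θ ^ (e + 1) * (u (e + 2) k θ * u' (e + 2) l θ - u' (e + 2) k θ * u (e + 2) l θ))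
    ((mu2 (e + 2) k - mu2 (e + 2) l) * (sin θ ^ (e + 1) * (u (e + 2) k θ * u (e + 2) l θ))) θ := by
  have hs := hasDerivAt_sin θ
  have hk := hasDerivAt_u (e + 2) k θ
  have hk' := hasDerivAt_u' (e + 2) k θ
  have hl := hasDerivAt_u (e + 2) l θ
  have hl' := hasDerivAt_u' (e + 2) l θ
  have h := (hs.fun_pow (e + 1)).fun_mul ((hk.fun_mul hl').fun_sub (hk'.fun_mul hl))
  refine h.congr_deriv ?_
  have key1 := eigen_e e k θ
  have key2 := eigen_e e l θ
  have a2 : e + 1 - 1 = e := by omega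
  rw [a2]
  push_cast
  have e1 : sin θ ^ (e + 1) = sin θ ^ e * sin θ := pow_succ _ e
  rw [e1]
  linear_combination (sin θ ^ e * u (e + 2) k θ) * key2 - (sin θ ^ e * u (e + 2) l θ) * key1

lemma mu2_strictMono (e : ℕ) {k l : ℕ} (h : k < l) : mu2 (e + 2) k < mu2 (e + 2) l := by
  unfold mu2
  push_cast
  have h1 : (k:ℝ) < l := by exact_mod_cast h
  have h2 : (0:ℝ) ≤ e := by positivity
  have h3 : (0:ℝ) ≤ k := by positivity
  nlinarith

lemma mu2_ne (e : ℕ) {k l : ℕ} (h : k ≠ l) : mu2 (e + 2) k ≠ mu2 (e + 2) l := by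
  rcases lt_or_gt_of_ne h with h | h
  · exact (mu2_strictMono e h).ne
  · exact (mu2_strictMono e h).ne'

lemma orthogonal (e : ℕ) {k l : ℕ} (h : k ≠ l) :
    ∫ θ in (0:ℝ)..(π / 2), sin θ ^ (e + 1) * (u (e + 2) k θ * u (e + 2) l θ) = 0 := by
  have h1 := intervalIntegral.integral_eq_sub_of_hasDerivAt (a := 0) (b := π / 2)
    (fun θ _ => hasDerivAt_wronsk e k l θ) (by
      apply Continuous.intervalIntegrable
      have := continuous_u (e + 2) k
      have := continuous_u (e + 2) l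
      fun_prop)
  rw [intervalIntegral.integral_const_mul, u_pi_div_two, u'_pi_div_two, u_pi_div_two,
    u'_pi_div_two, sin_zero] at h1
  have h2 : (mu2 (e + 2) k - mu2 (e + 2) l) *
      ∫ θ in (0:ℝ)..(π / 2), sin θ ^ (e + 1) * (u (e + 2) k θ * u (e + 2) l θ) = 0 := by
    rw [h1]; simp
  rcases mul_eq_zero.1 h2 with h3 | h3
  · exact absurd (sub_eq_zero.1 h3) (mu2_ne e h)
  · exact h3

end Q65.GP
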