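import Pool.Agent.Q65.GPb

/-!
Asymptotics of the zonal functions near the cut locus: comparison with a cosine.
-/

set_option autoImplicit false

namespace Q65.GP

open Finset Real MeasureTheory

/-- the exponent `(d - 1) / 2` -/
noncomputable def la (e : ℕ) : ℝ := (e + 1) / 2

/-- the shifted frequency -/
noncomputable def om (e k : ℕ) : ℝ := 2 * k + la e

lemma la_pos (e : ℕ) : 0 < la e := by unfold la; positivity

lemma om_sq (e k : ℕ) : om e k ^ 2 = mu2 (e + 2) k + la e ^ 2 := by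
  unfold om mu2 la
  push_cast
  ring

lemma om_ge (e : ℕ) {k : ℕ} (hk : 0 < k) : 1 ≤ om e k := by
  unfold om
  have h1 : (1:ℝ) ≤ k := by exact_mod_cast hk
  have := la_pos e
  linarith

noncomputable def V (e k : ℕ) (φ : ℝ) : ℝ := cos φ ^ la e * p0 (e + 2) k (sin φ)

noncomputable def V1 (e k : ℕ) (φ : ℝ) : ℝ :=
  cos φ ^ la e * (cos φ * p1 (e + 2) k (sin φ) - la e * (sin φ / cos φ) * p0 (e + 2) k (sin φ))

noncomputable def qq (e : ℕ) (φ : ℝ) : ℝ := la e * (la e - 1) / cos φ ^ 2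

lemma hasDerivAt_cospow (e : ℕ) {φ : ℝ} (h : 0 < cos φ) :
    HasDerivAt (fun φ => cos φ ^ la e) (-(la e * (sin φ / cos φ) * cos φ ^ la e)) φ := by
  have h1 := (hasDerivAt_cos φ).rpow_const (p := la e) (Or.inl h.ne')
  refine h1.congr_deriv ?_
  rw [rpow_sub_one h.ne']
  ring

lemma hasDerivAt_U (e k : ℕ) (φ : ℝ) : HasDerivAt (fun φ => p0 (e + 2) k (sin φ))
    (cos φ * p1 (e + 2) k (sin φ)) φ := by
  have h := (hasDerivAt_p0 (e + 2) k (sin φ)).comp φ (hasDerivAt_sin φ)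
  exact h.congr_deriv (by ring)

lemma hasDerivAt_U1 (e k : ℕ) (φ : ℝ) : HasDerivAt (fun φ => cos φ * p1 (e + 2) k (sin φ))
    (-(sin φ * p1 (e + 2) k (sin φ)) + cos φ ^ 2 * p2 (e + 2) k (sin φ)) φ := by
  have h := (hasDerivAt_cos φ).fun_mul
    ((hasDerivAt_p1 (e + 2) k (sin φ)).comp φ (hasDerivAt_sin φ))
  exact h.congr_deriv (by simp only [Function.comp]; ring)

lemma hasDerivAt_V (e k : ℕ) {φ : ℝ} (h : 0 < cos φ) : HasDerivAt (V e k) (V1 e k φ) φ := by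
  have h1 := (hasDerivAt_cospow e h).fun_mul (hasDerivAt_U e k φ)
  refine h1.congr_deriv ?_
  unfold V1
  ring

lemma hasDerivAt_V1 (e k : ℕ) {φ : ℝ} (h : 0 < cos φ) :
    HasDerivAt (V1 e k) (-(om e k ^ 2 - qq e φ) * V e k φ) φ := by
  have ht : HasDerivAt (fun φ => sin φ / cos φ) (1 / cos φ ^ 2) φ := by
    have h2 := (hasDerivAt_sin φ).fun_div (hasDerivAt_cos φ) h.ne'
    refine h2.congr_deriv ?_
    have := sin_sq_add_cos_sq φ
    rw [div_left_inj' (by positivity)]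
    linarith
  have h1 := (hasDerivAt_cospow e h).fun_mul
    ((hasDerivAt_U1 e k φ).fun_sub ((ht.const_mul (la e)).fun_mul (hasDerivAt_U e k φ)))
  have h3 : V1 e k = fun φ => cos φ ^ la e * (cos φ * p1 (e + 2) k (sin φ) -
      la e * (sin φ / cos φ) * p0 (e + 2) k (sin φ)) := rfl
  rw [h3]
  refine h1.congr_deriv ?_
  have ho := ode (e + 2) k (sin φ)
  have hc : 1 - sin φ ^ 2 = cos φ ^ 2 := by
    have := sin_sq_add_cos_sq φ; linarith
  rw [hc] at ho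
  have hs : sin φ ^ 2 = 1 - cos φ ^ 2 := by linarith
  rw [om_sq]
  unfold V qq
  have hne := h.ne'
  have hl : 2 * la e = e + 1 := by unfold la; ring
  push_cast at ho
  have hl2 : ((e:ℝ) + 2) = 2 * la e + 1 := by linarith
  rw [hl2] at ho
  generalize cos φ ^ la e = g
  generalize p0 (e + 2) k (sin φ) = P at ho ⊢
  generalize p1 (e + 2) k (sin φ) = P1 at ho ⊢
  generalize p2 (e + 2) k (sin φ) = P2 at ho ⊢
  generalize mu2 (e + 2) k = m at ho ⊢
  generalize la e = L at ho ⊢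
  generalize cos φ = c at *
  generalize sin φ = s at *
  have e1 : -(L * (s / c) * g) * (c * P1 - L * (s / c) * P) +
      g * (-(s * P1) + c ^ 2 * P2 - (L * (1 / c ^ 2) * P + L * (s / c) * (c * P1))) -
      -(m + L ^ 2 - L * (L - 1) / c ^ 2) * (g * P) =
      g * (c ^ 2 * P2 - (2 * L + 1) * s * P1 + m * P) +
        g * P * L ^ 2 / c ^ 2 * (s ^ 2 - (1 - c ^ 2)) := by
    field_simp
    ring
  rw [← sub_eq_zero, e1, ho, hs]
  ring

lemma cos_pos_of {φ : ℝ} (h0 : 0 ≤ φ) (h1 : φ ≤ π / 4) : 0 < cos φ :=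
  cos_pos_of_mem_Ioo ⟨by linarith [pi_pos], by linarith [pi_pos]⟩

lemma cos_sq_ge {φ : ℝ} (h0 : 0 ≤ φ) (h1 : φ ≤ π / 4) : 1 / 2 ≤ cos φ ^ 2 := by
  have h2 : cos (π / 4) ≤ cos φ := cos_le_cos_of_nonneg_of_le_pi h0 (by linarith [pi_pos]) h1
  rw [cos_pi_div_four] at h2
  have h3 : (√2 / 2) ^ 2 ≤ cos φ ^ 2 := pow_le_pow_left₀ (by positivity) h2 2
  have h4 : (√2 / 2) ^ 2 = 1 / 2 := by
    rw [div_pow, sq_sqrt (by norm_num)]; norm_num
  linarith

/-- bound of the potential -/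
noncomputable def QQ (e : ℕ) : ℝ := 2 * |la e * (la e - 1)|

lemma QQ_nonneg (e : ℕ) : 0 ≤ QQ e := by unfold QQ; positivity

lemma abs_qq_le (e : ℕ) {φ : ℝ} (h0 : 0 ≤ φ) (h1 : φ ≤ π / 4) : |qq e φ| ≤ QQ e := by
  unfold qq QQ
  have h2 := cos_sq_ge h0 h1
  rw [abs_div, abs_of_nonneg (sq_nonneg (cos φ)), div_le_iff₀ (by linarith)]
  nlinarith [abs_nonneg (la e * (la e - 1))]

lemma V_zero (e k : ℕ) : V e k 0 = 1 := by
  unfold V; rw [cos_zero, sin_zero, p0_zero, one_rpow]; norm_num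

lemma V1_zero (e k : ℕ) : V1 e k 0 = 0 := by
  unfold V1; rw [cos_zero, sin_zero, p1_zero]; simp

/-- energy bound -/
lemma energy (e : ℕ) {k : ℕ} (hk : 0 < k) {φ : ℝ} (h0 : 0 ≤ φ) (h1 : φ ≤ π / 4) :
    V1 e k φ ^ 2 + om e k ^ 2 * V e k φ ^ 2 ≤ om e k ^ 2 * exp (QQ e) := by
  set G : ℝ → ℝ := fun φ => (V1 e k φ ^ 2 + om e k ^ 2 * V e k φ ^ 2) * exp (-(QQ e * φ)) with hG
  have hd : ∀ φ ∈ Set.Icc 0 (π / 4), HasDerivAt G
      ((2 * V1 e k φ * (qq e φ * V e k φ) - QQ e * (V1 e k φ ^ 2 + om e k ^ 2 * V e k φ ^ 2)) *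
        exp (-(QQ e * φ))) φ := by
    intro φ hφ
    have hc := cos_pos_of hφ.1 hφ.2
    have h2 := ((hasDerivAt_V1 e k hc).fun_pow 2).fun_add
      (((hasDerivAt_V e k hc).fun_pow 2).const_mul (om e k ^ 2))
    have h3 : HasDerivAt (fun φ => exp (-(QQ e * φ))) (exp (-(QQ e * φ)) * -(QQ e * 1)) φ :=
      (((hasDerivAt_id φ).const_mul (QQ e)).fun_neg).exp
    have h4 := h2.fun_mul h3
    refine h4.congr_deriv ?_
    push_cast
    simp only [pow_one]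
    ring
  have hanti : AntitoneOn G (Set.Icc 0 (π / 4)) := by
    apply antitoneOn_of_deriv_nonpos (convex_Icc _ _)
    · exact fun φ hφ => (hd φ hφ).continuousAt.continuousWithinAt
    · rw [interior_Icc]
      exact fun φ hφ => (hd φ ⟨hφ.1.le, hφ.2.le⟩).differentiableAt.differentiableWithinAt
    · rw [interior_Icc]
      intro φ hφ
      rw [(hd φ ⟨hφ.1.le, hφ.2.le⟩).deriv]
      have hq := abs_qq_le e hφ.1.le hφ.2.le
      have ho := om_ge e hk
      have h5 : 2 * V1 e k φ * (qq e φ * V e k φ) ≤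
          QQ e * (V1 e k φ ^ 2 + om e k ^ 2 * V e k φ ^ 2) := by
        have a1 : 2 * V1 e k φ * (qq e φ * V e k φ) ≤ |qq e φ| * (2 * (|V1 e k φ| * |V e k φ|)) := by
          calc 2 * V1 e k φ * (qq e φ * V e k φ) ≤ |2 * V1 e k φ * (qq e φ * V e k φ)| :=
                le_abs_self _
            _ = |qq e φ| * (2 * (|V1 e k φ| * |V e k φ|)) := by
                rw [abs_mul, abs_mul, abs_mul, abs_two]; ring
        have a2 : 2 * (|V1 e k φ| * |V e k φ|) ≤ V1 e k φ ^ 2 + V e k φ ^ 2 := by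
          nlinarith [sq_nonneg (|V1 e k φ| - |V e k φ|), sq_abs (V1 e k φ), sq_abs (V e k φ)]
        have a3 : V e k φ ^ 2 ≤ om e k ^ 2 * V e k φ ^ 2 := by
          have : 1 ≤ om e k ^ 2 := by nlinarith
          nlinarith [sq_nonneg (V e k φ)]
        have a4 : 0 ≤ 2 * (|V1 e k φ| * |V e k φ|) := by positivity
        calc 2 * V1 e k φ * (qq e φ * V e k φ) ≤ |qq e φ| * (2 * (|V1 e k φ| * |V e k φ|)) := a1
          _ ≤ QQ e * (2 * (|V1 e k φ| * |V e k φ|)) := mul_le_mul_of_nonneg_right hq a4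
          _ ≤ _ := mul_le_mul_of_nonneg_left (by linarith) (QQ_nonneg e)
      exact mul_nonpos_of_nonpos_of_nonneg (by linarith) (exp_pos _).le
  have h6 := hanti (⟨le_rfl, by positivity⟩ : (0:ℝ) ∈ Set.Icc 0 (π / 4)) ⟨h0, h1⟩ h0
  simp only [hG, V_zero, V1_zero, mul_zero, neg_zero, exp_zero] at h6
  have h7 : V1 e k φ ^ 2 + om e k ^ 2 * V e k φ ^ 2 ≤ om e k ^ 2 * exp (QQ e * φ) := by
    have h8 : (V1 e k φ ^ 2 + om e k ^ 2 * V e k φ ^ 2) * exp (-(QQ e * φ)) * exp (QQ e * φ) ≤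
        (0 ^ 2 + om e k ^ 2 * 1 ^ 2) * 1 * exp (QQ e * φ) :=
      mul_le_mul_of_nonneg_right h6 (exp_pos _).le
    rw [mul_assoc, ← exp_add, neg_add_cancel, exp_zero, mul_one] at h8
    linarith
  refine h7.trans ?_
  apply mul_le_mul_of_nonneg_left _ (sq_nonneg _)
  apply exp_le_exp.2
  have : φ ≤ 1 := by linarith [pi_le_four]
  nlinarith [QQ_nonneg e]

lemma V_sq_le (e : ℕ) {k : ℕ} (hk : 0 < k) {φ : ℝ} (h0 : 0 ≤ φ) (h1 : φ ≤ π / 4) :
    V e k φ ^ 2 ≤ exp (QQ e) := by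
  have h := energy e hk h0 h1
  have ho : 0 < om e k ^ 2 := by
    have := om_ge e hk
    positivity
  have h2 : om e k ^ 2 * V e k φ ^ 2 ≤ om e k ^ 2 * exp (QQ e) := by
    nlinarith [sq_nonneg (V1 e k φ)]
  exact le_of_mul_le_mul_left h2 ho

/-- comparison with the cosine -/
lemma wkb (e : ℕ) {k : ℕ} (hk : 0 < k) {φ : ℝ} (h0 : 0 ≤ φ) (h1 : φ ≤ π / 4) :
    (om e k * (V e k φ - cos (om e k * φ))) ^ 2 ≤ 2 * (QQ e ^ 2 * exp (QQ e)) := by
  set K := QQ e ^ 2 * exp (QQ e) with hK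
  have hK0 : 0 ≤ K := by positivity
  set w := om e k with hw
  set z : ℝ → ℝ := fun φ => V e k φ - cos (w * φ) with hz
  set z1 : ℝ → ℝ := fun φ => V1 e k φ + w * sin (w * φ) with hz1
  set G : ℝ → ℝ := fun φ => (z1 φ ^ 2 + w ^ 2 * z φ ^ 2 + K) * exp (-φ) with hG
  have hd : ∀ φ ∈ Set.Icc 0 (π / 4), HasDerivAt G
      ((2 * z1 φ * (qq e φ * V e k φ) - (z1 φ ^ 2 + w ^ 2 * z φ ^ 2 + K)) * exp (-φ)) φ := by
    intro φ hφ
    have hc := cos_pos_of hφ.1 hφ.2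
    have hwφ : HasDerivAt (fun φ : ℝ => w * φ) w φ := by
      simpa using (hasDerivAt_id φ).const_mul w
    have d1 : HasDerivAt z (z1 φ) φ := by
      have := (hasDerivAt_V e k hc).fun_sub (hwφ.cos)
      refine this.congr_deriv ?_
      rw [hz1]; ring
    have d2 : HasDerivAt z1 (-(w ^ 2 * z φ) + qq e φ * V e k φ) φ := by
      have := (hasDerivAt_V1 e k hc).fun_add ((hwφ.sin).const_mul w)
      refine this.congr_deriv ?_
      rw [hz, ← hw]; ring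
    have h2 := (((d2.fun_pow 2).fun_add ((d1.fun_pow 2).const_mul (w ^ 2))).add_const K)
    have h3 : HasDerivAt (fun φ : ℝ => exp (-φ)) (exp (-φ) * -1) φ :=
      ((hasDerivAt_id φ).fun_neg).exp
    have h4 := h2.fun_mul h3
    refine h4.congr_deriv ?_
    push_cast
    simp only [pow_one]
    ring
  have hanti : AntitoneOn G (Set.Icc 0 (π / 4)) := by
    apply antitoneOn_of_deriv_nonpos (convex_Icc _ _)
    · exact fun φ hφ => (hd φ hφ).continuousAt.continuousWithinAt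
    · rw [interior_Icc]
      exact fun φ hφ => (hd φ ⟨hφ.1.le, hφ.2.le⟩).differentiableAt.differentiableWithinAt
    · rw [interior_Icc]
      intro φ hφ
      rw [(hd φ ⟨hφ.1.le, hφ.2.le⟩).deriv]
      have hq := abs_qq_le e hφ.1.le hφ.2.le
      have hV := V_sq_le e hk hφ.1.le hφ.2.le
      have h5 : (qq e φ * V e k φ) ^ 2 ≤ K := by
        rw [mul_pow, hK, ← sq_abs (qq e φ)]
        exact mul_le_mul (pow_le_pow_left₀ (abs_nonneg _) hq 2) hV (sq_nonneg _) (sq_nonneg _)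
      have h6 : 2 * z1 φ * (qq e φ * V e k φ) ≤ z1 φ ^ 2 + (qq e φ * V e k φ) ^ 2 := by
        nlinarith [sq_nonneg (z1 φ - qq e φ * V e k φ)]
      have h7 : 0 ≤ w ^ 2 * z φ ^ 2 := by positivity
      exact mul_nonpos_of_nonpos_of_nonneg (by linarith) (exp_pos _).le
  have h6 := hanti (⟨le_rfl, by positivity⟩ : (0:ℝ) ∈ Set.Icc 0 (π / 4)) ⟨h0, h1⟩ h0
  have hz0 : z 0 = 0 := by rw [hz]; simp [V_zero]
  have hz10 : z1 0 = 0 := by rw [hz1]; simp [V1_zero]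
  simp only [hG, hz0, hz10, neg_zero, exp_zero] at h6
  have h8 : (z1 φ ^ 2 + w ^ 2 * z φ ^ 2 + K) * exp (-φ) * exp φ ≤
      (0 ^ 2 + w ^ 2 * 0 ^ 2 + K) * 1 * exp φ :=
    mul_le_mul_of_nonneg_right h6 (exp_pos _).le
  rw [mul_assoc, ← exp_add, neg_add_cancel, exp_zero, mul_one] at h8
  have h9 : exp φ ≤ 3 := by
    have : φ ≤ 1 := by linarith [pi_le_four]
    have h10 : exp φ ≤ exp 1 := exp_le_exp.2 this
    linarith [exp_one_lt_d9]
  have h11 : 0 ≤ z1 φ ^ 2 := sq_nonneg _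
  have h12 : (w * (V e k φ - cos (w * φ))) ^ 2 = w ^ 2 * z φ ^ 2 := by rw [hz]; ring
  rw [h12]
  nlinarith

end Q65.GP
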