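import Pool.Agent.Q65.GPc

/-!
Mass bounds for the zonal functions.
-/

set_option autoImplicit false

namespace Q65.GP

open Finset Real MeasureTheory

lemma V_eq_u (e k : ℕ) (θ : ℝ) : V e k (π / 2 - θ) = sin θ ^ la e * u (e + 2) k θ := by
  unfold V u
  rw [cos_pi_div_two_sub, sin_pi_div_two_sub]

lemma V_sq_eq (e k : ℕ) {θ : ℝ} (h : 0 ≤ sin θ) :
    V e k (π / 2 - θ) ^ 2 = sin θ ^ (e + 1) * u (e + 2) k θ ^ 2 := by
  rw [V_eq_u, mul_pow, ← rpow_natCast (sin θ ^ la e) 2, ← rpow_mul h, ← rpow_natCast (sin θ) (e + 1)]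
  congr 3
  unfold la
  push_cast
  ring

lemma mass_pointwise (e : ℕ) {k : ℕ} (hk : 0 < k) {θ : ℝ} (h0 : 0 ≤ θ) (h1 : θ ≤ π / 2) :
    sin θ ^ (e + 1) * u (e + 2) k θ ^ 2 ≤
      2 * (sin θ ^ (e + 1) * (cos θ * u (e + 2) k θ ^ 2)) + exp (QQ e) := by
  have hs : 0 ≤ sin θ := sin_nonneg_of_nonneg_of_le_pi h0 (by linarith [pi_pos])
  have hc : 0 ≤ cos θ := cos_nonneg_of_mem_Icc ⟨by linarith [pi_pos], h1⟩
  rcases le_total θ (π / 4) with h | h
  · have h2 : cos (π / 4) ≤ cos θ := cos_le_cos_of_nonneg_of_le_pi h0 (by linarith [pi_pos]) h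
    have h3 : 1 / 2 ≤ cos θ := by
      have h4 := cos_sq_ge h0 h
      by_contra hcon
      push Not at hcon
      nlinarith
    have h5 : 0 ≤ sin θ ^ (e + 1) * u (e + 2) k θ ^ 2 := by positivity
    have h6 := exp_pos (QQ e)
    nlinarith
  · have h2 := V_sq_le e hk (φ := π / 2 - θ) (by linarith) (by linarith)
    rw [V_sq_eq e k hs] at h2
    have h5 : 0 ≤ sin θ ^ (e + 1) * (cos θ * u (e + 2) k θ ^ 2) := by positivity
    linarith

/-- bound of the mass -/
noncomputable def C0 (e : ℕ) : ℝ := 2 + 2 * exp (QQ e)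

lemma C0_pos (e : ℕ) : 0 < C0 e := by unfold C0; positivity

lemma mass_le (e : ℕ) {k : ℕ} (hk : 0 < k) :
    ∫ θ in (0:ℝ)..(π / 2), sin θ ^ (e + 1) * u (e + 2) k θ ^ 2 ≤ C0 e := by
  have hu := continuous_u (e + 2) k
  have h1 : ∫ θ in (0:ℝ)..(π / 2), sin θ ^ (e + 1) * u (e + 2) k θ ^ 2 ≤
      ∫ θ in (0:ℝ)..(π / 2), (2 * (sin θ ^ (e + 1) * (cos θ * u (e + 2) k θ ^ 2)) + exp (QQ e)) := by
    apply intervalIntegral.integral_mono_on (by positivity)
    · apply Continuous.intervalIntegrable; fun_prop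
    · apply Continuous.intervalIntegrable; fun_prop
    · intro θ hθ
      exact mass_pointwise e hk hθ.1 hθ.2
  refine h1.trans ?_
  rw [intervalIntegral.integral_add (by apply Continuous.intervalIntegrable; fun_prop)
    (by apply Continuous.intervalIntegrable; fun_prop), intervalIntegral.integral_const_mul,
    intervalIntegral.integral_const, smul_eq_mul]
  have h2 := rell_bound e hk
  unfold C0
  have h3 : (π / 2 - 0) * exp (QQ e) ≤ 2 * exp (QQ e) := by
    apply mul_le_mul_of_nonneg_right _ (exp_pos _).le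
    linarith [pi_le_four]
  linarith

/-- the mass of a finite combination -/
lemma mass_sum (e : ℕ) (s : Finset ℕ) (a : ℕ → ℝ) (hs : ∀ k ∈ s, 0 < k) :
    ∫ θ in (0:ℝ)..(π / 2), sin θ ^ (e + 1) * (∑ k ∈ s, a k * u (e + 2) k θ) ^ 2 ≤
      C0 e * ∑ k ∈ s, a k ^ 2 := by
  have h1 : ∀ θ : ℝ, sin θ ^ (e + 1) * (∑ k ∈ s, a k * u (e + 2) k θ) ^ 2 =
      ∑ k ∈ s, ∑ l ∈ s, a k * a l * (sin θ ^ (e + 1) * (u (e + 2) k θ * u (e + 2) l θ)) := by
    intro θ
    rw [sq, sum_mul_sum, mul_sum]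
    refine sum_congr rfl fun k _ => ?_
    rw [mul_sum]
    exact sum_congr rfl fun l _ => by ring
  have hint : ∀ k l : ℕ, IntervalIntegrable (fun θ => a k * a l *
      (sin θ ^ (e + 1) * (u (e + 2) k θ * u (e + 2) l θ))) volume 0 (π / 2) := by
    intro k l
    apply Continuous.intervalIntegrable
    have := continuous_u (e + 2) k
    have := continuous_u (e + 2) l
    fun_prop
  simp_rw [h1]
  rw [intervalIntegral.integral_finsetSum]
  · rw [mul_sum]
    refine sum_le_sum fun k hk => ?_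
    rw [intervalIntegral.integral_finsetSum (fun l _ => hint k l)]
    rw [sum_eq_single k]
    · rw [intervalIntegral.integral_const_mul]
      have h2 := mass_le e (hs k hk)
      have h3 : ∀ θ : ℝ, sin θ ^ (e + 1) * (u (e + 2) k θ * u (e + 2) k θ) =
          sin θ ^ (e + 1) * u (e + 2) k θ ^ 2 := fun θ => by ring
      simp_rw [h3]
      nlinarith [sq_nonneg (a k)]
    · intro l _ hl
      rw [intervalIntegral.integral_const_mul, orthogonal e (Ne.symm hl), mul_zero]
    · intro h; exact absurd hk h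
  · intro k _
    apply Continuous.intervalIntegrable
    refine continuous_finsetSum _ fun l _ => ?_
    have h2 := continuous_u (e + 2) k
    have h3 := continuous_u (e + 2) l
    fun_prop

end Q65.GP
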