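import Pool.Agent.Q65.GPd

/-!
The lower bound for the maximal function: one outgoing wave packet.
-/

set_option autoImplicit false

namespace Q65.GP

open Finset Real MeasureTheory

/-- geometric sum of unit complex numbers -/
lemma geom_bound {x : ℝ} (hx : 1 / 4 ≤ sin x) (M : ℕ) :
    ‖∑ j ∈ range M, Complex.exp (-((2 * x * j : ℝ) * Complex.I))‖ ≤ 4 := by
  set z : ℂ := Complex.exp (-((2 * x : ℝ) * Complex.I)) with hz
  have h1 : ∀ j : ℕ, Complex.exp (-((2 * x * j : ℝ) * Complex.I)) = z ^ j := by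
    intro j
    rw [hz, ← Complex.exp_nat_mul]
    congr 1
    push_cast
    ring
  simp_rw [h1]
  have hn : ‖z‖ = 1 := by
    rw [hz, show -((2 * x : ℝ) * Complex.I) = ((-(2 * x) : ℝ) : ℂ) * Complex.I by push_cast; ring]
    exact Complex.norm_exp_ofReal_mul_I _
  have hre : z.re = cos (2 * x) := by
    rw [hz, show -((2 * x : ℝ) * Complex.I) = ((-(2 * x) : ℝ) : ℂ) * Complex.I by push_cast; ring,
      Complex.exp_ofReal_mul_I_re, cos_neg]
  have him : z.im = -sin (2 * x) := by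
    rw [hz, show -((2 * x : ℝ) * Complex.I) = ((-(2 * x) : ℝ) : ℂ) * Complex.I by push_cast; ring,
      Complex.exp_ofReal_mul_I_im, sin_neg]
  have h3 : ‖z - 1‖ ^ 2 = (2 * sin x) ^ 2 := by
    rw [← Complex.normSq_eq_norm_sq, Complex.normSq_apply]
    simp only [Complex.sub_re, Complex.sub_im, Complex.one_re, Complex.one_im, hre, him]
    have := sin_sq_add_cos_sq (2 * x)
    have h4 := cos_two_mul x
    have h5 := sin_sq_add_cos_sq x
    nlinarith
  have h4 : ‖z - 1‖ = 2 * sin x := by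
    have h5 : 0 ≤ 2 * sin x := by linarith
    exact (pow_left_inj₀ (norm_nonneg _) h5 two_ne_zero).1 h3
  have hz1 : z ≠ 1 := by
    intro h
    rw [h, sub_self, norm_zero] at h4
    linarith
  rw [geom_sum_eq hz1, norm_div, h4, div_le_iff₀ (by linarith)]
  have h6 : ‖z ^ M - 1‖ ≤ 2 := by
    calc ‖z ^ M - 1‖ ≤ ‖z ^ M‖ + ‖(1:ℂ)‖ := norm_sub_le _ _
      _ = 2 := by rw [norm_pow, hn]; norm_num
  linarith

lemma norm_exp_sub_one_le' (x : ℝ) : ‖Complex.exp ((x : ℝ) * Complex.I) - 1‖ ≤ |x| := by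
  have := Real.norm_exp_I_mul_ofReal_sub_one_le (x := x)
  rw [mul_comm]
  simpa using this

/-- outgoing phases -/
lemma outgoing {A δ : ℝ} (hδ : δ ≤ 1 / 8) (M : ℕ) (η : ℕ → ℝ)
    (hη : ∀ j < M, |η j| ≤ δ) :
    (M : ℝ) * (127 / 128) ≤ ‖∑ j ∈ range M, Complex.exp (((A - η j : ℝ) : ℂ) * Complex.I)‖ := by
  have h1 : ∑ j ∈ range M, Complex.exp (((A - η j : ℝ) : ℂ) * Complex.I) =
      Complex.exp ((A : ℂ) * Complex.I) * ∑ j ∈ range M,
        Complex.exp (((-η j : ℝ) : ℂ) * Complex.I) := by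
    rw [mul_sum]
    refine sum_congr rfl fun j _ => ?_
    rw [← Complex.exp_add]
    congr 1
    push_cast
    ring
  rw [h1, norm_mul, Complex.norm_exp_ofReal_mul_I, one_mul]
  refine le_trans ?_ (Complex.re_le_norm _)
  rw [Complex.re_sum]
  have h2 : ∀ j ∈ range M, (127 / 128 : ℝ) ≤
      (Complex.exp (((-η j : ℝ) : ℂ) * Complex.I)).re := by
    intro j hj
    rw [Complex.exp_ofReal_mul_I_re, cos_neg]
    have h3 := one_sub_sq_div_two_le_cos (x := η j)
    have h4 := hη j (mem_range.1 hj)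
    have h5 : η j ^ 2 ≤ (1 / 8) ^ 2 := by
      rw [← sq_abs]
      exact pow_le_pow_left₀ (abs_nonneg _) (h4.trans hδ) 2
    linarith
  calc (M : ℝ) * (127 / 128) = ∑ _j ∈ range M, (127 / 128 : ℝ) := by simp
    _ ≤ _ := sum_le_sum h2

/-- incoming phases -/
lemma incoming {B x δ : ℝ} (hx : 1 / 4 ≤ sin x) (hδ : δ ≤ 1 / 8) (M : ℕ) (η : ℕ → ℝ)
    (hη : ∀ j < M, |η j| ≤ δ) :
    ‖∑ j ∈ range M, Complex.exp (((B - 2 * x * j - η j : ℝ) : ℂ) * Complex.I)‖ ≤ 4 + M * (1 / 8) := by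
  have h1 : ∀ j : ℕ, Complex.exp (((B - 2 * x * j - η j : ℝ) : ℂ) * Complex.I) =
      Complex.exp ((B : ℂ) * Complex.I) * (Complex.exp (-((2 * x * j : ℝ) * Complex.I)) +
        Complex.exp (((-(2 * x * j) : ℝ) : ℂ) * Complex.I) *
          (Complex.exp (((-η j : ℝ) : ℂ) * Complex.I) - 1)) := by
    intro j
    have e1 : -((2 * x * j : ℝ) * Complex.I) = ((-(2 * x * j) : ℝ) : ℂ) * Complex.I := by
      push_cast; ring
    rw [e1, mul_sub, mul_one, ← Complex.exp_add, add_sub_cancel, ← Complex.exp_add]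
    congr 1
    push_cast
    ring
  simp_rw [h1]
  rw [← mul_sum, norm_mul, Complex.norm_exp_ofReal_mul_I, one_mul, sum_add_distrib]
  refine (norm_add_le _ _).trans (add_le_add (geom_bound hx M) ?_)
  refine (norm_sum_le _ _).trans ?_
  have h2 : ∀ j ∈ range M, ‖Complex.exp (((-(2 * x * j) : ℝ) : ℂ) * Complex.I) *
          (Complex.exp (((-η j : ℝ) : ℂ) * Complex.I) - 1)‖ ≤ 1 / 8 := by
    intro j hj
    rw [norm_mul, Complex.norm_exp_ofReal_mul_I, one_mul]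
    refine (norm_exp_sub_one_le' _).trans ?_
    rw [abs_neg]
    exact (hη j (mem_range.1 hj)).trans hδ
  calc _ ≤ ∑ _j ∈ range M, (1 / 8 : ℝ) := sum_le_sum h2
    _ = M * (1 / 8) := by simp

/-- constant of the comparison with the cosine -/
noncomputable def C1 (e : ℕ) : ℝ := √(2 * (QQ e ^ 2 * exp (QQ e)))

lemma C1_nonneg (e : ℕ) : 0 ≤ C1 e := sqrt_nonneg _

lemma wkb' (e : ℕ) {k : ℕ} (hk : 0 < k) {φ : ℝ} (h0 : 0 ≤ φ) (h1 : φ ≤ π / 4) :
    |V e k φ - cos (om e k * φ)| ≤ C1 e / k := by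
  have h := wkb e hk h0 h1
  have hk1 : (0:ℝ) < k := by exact_mod_cast hk
  have h2 : |om e k * (V e k φ - cos (om e k * φ))| ≤ C1 e := by
    rw [C1, ← sqrt_sq_eq_abs]
    exact sqrt_le_sqrt h
  rw [abs_mul, abs_of_nonneg (by linarith [om_ge e hk])] at h2
  rw [le_div_iff₀ hk1]
  have h3 : (k:ℝ) ≤ om e k := by
    unfold om
    have := la_pos e
    linarith
  nlinarith [abs_nonneg (V e k φ - cos (om e k * φ))]

/-- the wave packet is large somewhere in time -/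
theorem packet (e : ℕ) (ψ : ℝ → ℝ) (hψ : ∀ m : ℝ, 0 ≤ m → |ψ (√m) - m| ≤ 1) {M : ℕ}
    (hM : 16 + C1 e ≤ M) {φ : ℝ} (h0 : π / 16 ≤ φ) (h1 : φ ≤ π / 8) :
    ∃ t : ℝ, 0 ≤ t ∧ t < 2 * π ∧ (M : ℝ) / 4 ≤ ‖∑ j ∈ range M,
      Complex.exp (-((t * ψ (√(mu2 (e + 2) (4 * M ^ 2 + j))) : ℝ) * Complex.I)) *
        (V e (4 * M ^ 2 + j) φ : ℂ)‖ := by
  have hpi := pi_gt_three
  have hpi4 := pi_lt_d2
  have hC1 := C1_nonneg e
  have hM1 : (16:ℝ) ≤ M := by linarith
  have hM0 : 0 < M := by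
    have : (0:ℝ) < M := by linarith
    exact_mod_cast this
  set N : ℕ := 4 * M ^ 2 with hN
  have hNR : (N : ℝ) = 4 * (M:ℝ) ^ 2 := by rw [hN]; push_cast; ring
  have hN0 : 0 < N := by positivity
  have he : (0:ℝ) ≤ e := by positivity
  have hNpos : (0:ℝ) < N := by exact_mod_cast hN0
  have hφ0 : 0 < φ := by linarith [pi_pos]
  set D : ℝ := 4 * N + (e + 1) with hD
  have hD0 : 0 < D := by positivity
  set t : ℝ := φ / D with ht
  have ht0 : 0 ≤ t := by positivity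
  have htD : t * D = φ := by rw [ht]; field_simp
  have htN : t * (4 * N) ≤ φ := by
    rw [← htD]
    apply mul_le_mul_of_nonneg_left _ ht0
    rw [hD]; linarith
  have htsmall : t ≤ φ / 16 := by
    rw [le_div_iff₀ (by norm_num)]
    have : (4:ℝ) ≤ N := by rw [hNR]; nlinarith
    nlinarith
  set f : ℕ → ℝ := fun j => t * ψ (√(mu2 (e + 2) (N + j))) with hf
  set η : ℕ → ℝ := fun j => 4 * t * j ^ 2 + t * (ψ (√(mu2 (e + 2) (N + j))) - mu2 (e + 2) (N + j))
    with hη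
  have hηb : ∀ j < M, |η j| ≤ 1 / 8 := by
    intro j hj
    have hjR : (j:ℝ) ≤ M := by exact_mod_cast hj.le
    have hj0 : (0:ℝ) ≤ j := by positivity
    have h2 := hψ (mu2 (e + 2) (N + j)) (mu2_nonneg e _)
    have h3 : |η j| ≤ 4 * t * j ^ 2 + t * 1 := by
      refine (abs_add_le _ _).trans ?_
      rw [abs_of_nonneg (by positivity), abs_mul, abs_of_nonneg ht0]
      have := mul_le_mul_of_nonneg_left h2 ht0
      linarith
    have h4 : 4 * t * (j:ℝ) ^ 2 ≤ 4 * t * (M:ℝ) ^ 2 := by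
      have : (j:ℝ) ^ 2 ≤ (M:ℝ) ^ 2 := pow_le_pow_left₀ hj0 hjR 2
      nlinarith
    have h5 : 4 * t * (M:ℝ) ^ 2 = t * (4 * N) / 4 := by rw [hNR]; ring
    have h6 : 4 * t * (M:ℝ) ^ 2 ≤ φ / 4 := by rw [h5]; linarith
    have h7 : φ ≤ 0.39375 := by linarith
    norm_num at h7 ⊢
    linarith
  set c : ℝ := t * (4 * N ^ 2 + 2 * (e + 1) * N) with hc
  have hfj : ∀ j : ℕ, f j = c + 2 * φ * j + η j := by
    intro j
    have e1 : mu2 (e + 2) (N + j) = 4 * N ^ 2 + 2 * (e + 1) * N + j * (2 * D) + 4 * j ^ 2 := by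
      unfold mu2
      rw [hD]
      push_cast
      ring
    simp only [hf, hη, hc]
    rw [e1, ← htD]
    ring
  have homj : ∀ j : ℕ, om e (N + j) * φ = (2 * N + la e) * φ + 2 * φ * j := by
    intro j
    unfold om
    push_cast
    ring
  refine ⟨t, ht0, by nlinarith, ?_⟩
  -- split
  have hsplit : ∀ j : ℕ, Complex.exp (-((f j : ℝ) * Complex.I)) * (V e (N + j) φ : ℂ) =
      1 / 2 * Complex.exp ((((2 * N + la e) * φ - c - η j : ℝ) : ℂ) * Complex.I) +
      1 / 2 * Complex.exp (((-(2 * N + la e) * φ - c - 2 * (2 * φ) * j - η j : ℝ) : ℂ) *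
        Complex.I) +
      Complex.exp (-((f j : ℝ) * Complex.I)) *
        ((V e (N + j) φ - cos (om e (N + j) * φ) : ℝ) : ℂ) := by
    intro j
    have e1 : (V e (N + j) φ : ℂ) = Complex.cos ((om e (N + j) * φ : ℝ) : ℂ) +
        ((V e (N + j) φ - cos (om e (N + j) * φ) : ℝ) : ℂ) := by
      rw [← Complex.ofReal_cos, ← Complex.ofReal_add]
      congr 1
      ring
    rw [e1, mul_add]
    congr 1
    rw [Complex.cos, mul_div_assoc', mul_add, ← Complex.exp_add, ← Complex.exp_add, add_div]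
    congr 1
    · rw [div_eq_inv_mul, one_div]
      congr 2
      rw [hfj, homj]
      push_cast
      ring
    · rw [div_eq_inv_mul, one_div]
      congr 2
      rw [hfj, homj]
      push_cast
      ring
  have hsum : ∑ j ∈ range M, Complex.exp (-((f j : ℝ) * Complex.I)) * (V e (N + j) φ : ℂ) =
      1 / 2 * ∑ j ∈ range M,
        Complex.exp ((((2 * N + la e) * φ - c - η j : ℝ) : ℂ) * Complex.I) +
      1 / 2 * ∑ j ∈ range M,
        Complex.exp (((-(2 * N + la e) * φ - c - 2 * (2 * φ) * j - η j : ℝ) : ℂ) * Complex.I) +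
      ∑ j ∈ range M, Complex.exp (-((f j : ℝ) * Complex.I)) *
        ((V e (N + j) φ - cos (om e (N + j) * φ) : ℝ) : ℂ) := by
    rw [mul_sum, mul_sum, ← sum_add_distrib, ← sum_add_distrib]
    exact sum_congr rfl fun j _ => hsplit j
  have hsin : 1 / 4 ≤ sin (2 * φ) := by
    have h2 : 2 / π * (2 * φ) ≤ sin (2 * φ) := mul_le_sin (by linarith) (by linarith)
    have h3 : 1 / 4 ≤ 2 / π * (2 * φ) := by
      rw [div_mul_eq_mul_div, div_le_div_iff₀ (by norm_num) pi_pos]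
      linarith
    linarith
  have hout := outgoing (A := (2 * N + la e) * φ - c) le_rfl M η hηb
  have hin := incoming (B := -(2 * N + la e) * φ - c) hsin le_rfl M η hηb
  have hrem : ‖∑ j ∈ range M, Complex.exp (-((f j : ℝ) * Complex.I)) *
        ((V e (N + j) φ - cos (om e (N + j) * φ) : ℝ) : ℂ)‖ ≤ M * (C1 e / N) := by
    refine (norm_sum_le _ _).trans ?_
    have h2 : ∀ j ∈ range M, ‖Complex.exp (-((f j : ℝ) * Complex.I)) *
        ((V e (N + j) φ - cos (om e (N + j) * φ) : ℝ) : ℂ)‖ ≤ C1 e / N := by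
      intro j _
      have e1 : -((f j : ℝ) * Complex.I) = ((-f j : ℝ) : ℂ) * Complex.I := by push_cast; ring
      rw [norm_mul, e1, Complex.norm_exp_ofReal_mul_I, one_mul, Complex.norm_real, norm_eq_abs]
      have h3 := wkb' e (k := N + j) (by omega) (φ := φ) hφ0.le (by linarith)
      refine h3.trans ?_
      apply div_le_div_of_nonneg_left hC1 hNpos
      push_cast
      linarith [(by positivity : (0:ℝ) ≤ j)]
    calc _ ≤ ∑ _j ∈ range M, C1 e / N := sum_le_sum h2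
      _ = M * (C1 e / N) := by simp
  have hrem2 : (M:ℝ) * (C1 e / N) ≤ C1 e / 64 := by
    rw [hNR, mul_div_assoc', div_le_div_iff₀ (by positivity) (by norm_num)]
    nlinarith [mul_nonneg hC1 (sq_nonneg (M:ℝ)), mul_nonneg hC1 (by linarith : (0:ℝ) ≤ M)]
  change (M : ℝ) / 4 ≤ ‖∑ j ∈ range M, Complex.exp (-((f j : ℝ) * Complex.I)) *
    (V e (N + j) φ : ℂ)‖
  rw [hsum]
  set X := ∑ j ∈ range M,
        Complex.exp ((((2 * N + la e) * φ - c - η j : ℝ) : ℂ) * Complex.I) with hX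
  set Y := ∑ j ∈ range M,
        Complex.exp (((-(2 * N + la e) * φ - c - 2 * (2 * φ) * j - η j : ℝ) : ℂ) * Complex.I)
    with hY
  set Z := ∑ j ∈ range M, Complex.exp (-((f j : ℝ) * Complex.I)) *
        ((V e (N + j) φ - cos (om e (N + j) * φ) : ℝ) : ℂ) with hZ
  have h5 : ‖(1 / 2 : ℂ) * X‖ ≤ ‖(1 / 2 : ℂ) * X + 1 / 2 * Y + Z‖ + ‖(1 / 2 : ℂ) * Y‖ + ‖Z‖ := by
    calc ‖(1 / 2 : ℂ) * X‖ = ‖((1 / 2 : ℂ) * X + 1 / 2 * Y + Z) - 1 / 2 * Y - Z‖ := by
          congr 1; ring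
      _ ≤ _ := (norm_sub_le _ _).trans (by gcongr; exact norm_sub_le _ _)
  have h6 : ‖(1 / 2 : ℂ)‖ = 1 / 2 := by norm_num
  rw [norm_mul, norm_mul, h6] at h5
  have h7 : ‖Z‖ ≤ C1 e / 64 := hrem.trans hrem2
  linarith

end Q65.GP
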