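import Mathlib

/-!
Boundedness for `x_{n+1} = γ + x_{n-2m} / x_{n-1}`.
-/

set_option autoImplicit false

namespace Q65.Gamma

open Filter Topology Set Real

/-- record values of a sequence -/
lemma exists_record {W : ℕ → ℝ} (h : ¬ BddAbove (range W)) (C : ℝ) :
    ∃ N, C ≤ W N ∧ ∀ n, n ≤ N → W n ≤ W N := by
  classical
  have hex : ∃ N, C ≤ W N := by
    by_contra hcon
    push Not at hcon
    exact h ⟨C, by rintro _ ⟨n, rfl⟩; exact (hcon n).le⟩
  have h1 := Nat.find_spec hex
  have h2 : ∀ n, n < Nat.find hex → W n < C := fun n hn => not_le.1 (Nat.find_min hex hn)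
  refine ⟨Nat.find hex, h1, fun n hn => ?_⟩
  rcases hn.lt_or_eq with hn | hn
  · exact (h2 n hn).le.trans h1
  · rw [hn]

/-- a linear function dominates -/
lemma exp_big {a c : ℝ} (ha : 0 < a) (C : ℝ) (hC : 0 < C) :
    ∃ L0, ∀ L, L0 ≤ L → C ≤ exp (a * L + c) := by
  refine ⟨(log C - c) / a, fun L hL => ?_⟩
  rw [div_le_iff₀ ha] at hL
  calc C = exp (log C) := (exp_log hC).symm
    _ ≤ exp (a * L + c) := exp_le_exp.2 (by linarith)

section

variable {γ : ℝ} {K : ℕ} {z : ℕ → ℝ}

/-- the statement that `c_e(j)` is large for many `j` -/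
def P (z : ℕ → ℝ) (K e : ℕ) : Prop :=
  ∃ κ θ L0 : ℝ, 0 < κ ∧ 0 < θ ∧ ∀ N, (∀ n, n ≤ N → z n ≤ z N) → L0 ≤ log (z N) →
    ∀ j : ℕ, (j : ℝ) ≤ κ * log (z N) → 2 * e + K * j ≤ N ∧
      exp (θ * log (z N)) ≤ z (N - (2 * e + K * j))

lemma back (hK : 2 ≤ K) (hrec : ∀ n, z (n + K) = γ + z n / z (n + K - 2)) {N e j : ℕ}
    (h : 2 * e + K * (j + 1) ≤ N) :
    z (N - (2 * e + K * j)) = γ + z (N - (2 * e + K * (j + 1))) / z (N - (2 * (e + 1) + K * j)) := by
  have h1 := hrec (N - (2 * e + K * (j + 1)))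
  have e0 : K * (j + 1) = K * j + K := by ring
  rw [show N - (2 * e + K * (j + 1)) + K = N - (2 * e + K * j) by omega] at h1
  rw [show N - (2 * e + K * j) - 2 = N - (2 * (e + 1) + K * j) by omega] at h1
  exact h1

/-- growth is at most exponential -/
lemma growth (hγ : 0 < γ) (hγ1 : γ < 1) (hK : 2 ≤ K) (hz : ∀ n, γ < z n)
    (hrec : ∀ n, z (n + K) = γ + z n / z (n + K - 2)) :
    ∃ D, 1 ≤ D ∧ ∀ n, z n ≤ D * (1 + 1 / γ) ^ n := by
  obtain ⟨D, hD⟩ := ((Set.finite_Iio K).image z).bddAbove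
  refine ⟨max D 1, le_max_right _ _, fun n => ?_⟩
  have hβ : 1 ≤ 1 + 1 / γ := by
    have : 0 < 1 / γ := by positivity
    linarith
  induction n using Nat.strong_induction_on with
  | _ n ih =>
    rcases lt_or_ge n K with hn | hn
    · have h1 : z n ≤ D := hD ⟨n, hn, rfl⟩
      calc z n ≤ max D 1 := h1.trans (le_max_left _ _)
        _ ≤ max D 1 * (1 + 1 / γ) ^ n :=
            le_mul_of_one_le_right (by positivity) (one_le_pow₀ hβ)
    · obtain ⟨n', rfl⟩ : ∃ n', n = n' + K := ⟨n - K, by omega⟩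
      have h1 := ih n' (by omega)
      have h2 := hz (n' + K - 2)
      have h3 : z n' / z (n' + K - 2) ≤ z n' / γ :=
        div_le_div_of_nonneg_left (hγ.trans (hz n')).le hγ h2.le
      set T := max D 1 * (1 + 1 / γ) ^ n' with hT
      have hT1 : 1 ≤ T := by
        calc (1 : ℝ) = 1 * 1 := by ring
          _ ≤ max D 1 * (1 + 1 / γ) ^ n' :=
            mul_le_mul (le_max_right _ _) (one_le_pow₀ hβ) zero_le_one (by positivity)
      have h4 : z (n' + K) ≤ (1 + 1 / γ) * T := by
        rw [hrec]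
        have h5 : z n' / γ ≤ T / γ := div_le_div_of_nonneg_right h1 hγ.le
        have h6 : (1 + 1 / γ) * T = T + T / γ := by ring
        rw [h6]
        linarith
      have h7 : (1 + 1 / γ) * T ≤ max D 1 * (1 + 1 / γ) ^ (n' + K) := by
        rw [hT, show max D 1 * (1 + 1 / γ) ^ (n' + K) =
          (1 + 1 / γ) ^ K * (max D 1 * (1 + 1 / γ) ^ n') by ring]
        refine mul_le_mul_of_nonneg_right ?_ (by positivity)
        exact le_self_pow₀ hβ (by omega)
      exact h4.trans h7

lemma P_zero (hγ : 0 < γ) (hγ1 : γ < 1) (hK : 2 ≤ K) (hz : ∀ n, γ < z n)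
    (hrec : ∀ n, z (n + K) = γ + z n / z (n + K - 2)) : P z K K := by
  obtain ⟨D, hD1, hD⟩ := growth hγ hγ1 hK hz hrec
  set β := 1 + 1 / γ with hβ
  have hβ1 : 1 < β := by
    have : 0 < 1 / γ := by positivity
    linarith
  have hlβ : 0 < log β := log_pos hβ1
  have hg : log γ < 0 := log_neg hγ hγ1
  have hK0 : (0 : ℝ) < K := by exact_mod_cast (by omega : 0 < K)
  set C := γ ^ 2 / (1 - γ) + 1 with hC
  have h1γ : 0 < 1 - γ := by linarith
  have hC0 : 0 < C := by positivity
  obtain ⟨L1, hL1⟩ := exp_big (a := 1 / 2) (c := 0) (by norm_num) C hC0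
  obtain ⟨L2, hL2⟩ := exp_big (a := 1 / 4) (c := 2 * log γ) (by norm_num) 2 (by norm_num)
  set κ := min (1 / (2 * K * log β)) (1 / (4 * -log γ)) with hκ
  have hκ0 : 0 < κ := by
    have : 0 < -log γ := by linarith
    positivity
  refine ⟨κ, 1 / 2, max (max L1 L2) (max 0 (2 * log D + 4 * K * log β)), hκ0, by norm_num, ?_⟩
  intro N hN hL j hj
  set L := log (z N) with hLdef
  have hLL1 : L1 ≤ L := ((le_max_left _ _).trans (le_max_left _ _)).trans hL
  have hLL2 : L2 ≤ L := ((le_max_right _ _).trans (le_max_left _ _)).trans hL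
  have hLL0 : 0 ≤ L := ((le_max_left _ _).trans (le_max_right _ _)).trans hL
  have hLL3 : 2 * log D + 4 * K * log β ≤ L := ((le_max_right _ _).trans (le_max_right _ _)).trans hL
  have hzN : 0 < z N := hγ.trans (hz N)
  have hX : z N = exp L := (exp_log hzN).symm
  -- the record is late
  have hN1 : L ≤ log D + N * log β := by
    have h1 := hD N
    have h2 : log (z N) ≤ log (D * β ^ N) := log_le_log hzN h1
    rw [log_mul (by positivity) (by positivity), log_pow] at h2
    exact h2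
  have hj1 : (j : ℝ) ≤ 1 / (2 * K * log β) * L :=
    hj.trans (mul_le_mul_of_nonneg_right (min_le_left _ _) hLL0)
  have hj2 : (j : ℝ) ≤ 1 / (4 * -log γ) * L :=
    hj.trans (mul_le_mul_of_nonneg_right (min_le_right _ _) hLL0)
  have hidx : 2 * K + K * j ≤ N := by
    have h1 : (K : ℝ) * j * log β ≤ L / 2 := by
      have : 1 / (2 * K * log β) * L = L / (2 * (K * log β)) := by ring
      rw [this, le_div_iff₀ (by positivity)] at hj1
      linarith
    have h2 : (2 * K + K * j : ℝ) * log β ≤ N * log β := by nlinarith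
    have h3 := le_of_mul_le_mul_right h2 hlβ
    exact_mod_cast h3
  refine ⟨hidx, ?_⟩
  -- lower bound for `c_0`
  have hlow : ∀ i : ℕ, K * i ≤ N → γ ^ i * z N - γ ^ 2 / (1 - γ) ≤ z (N - K * i) := by
    intro i
    induction i with
    | zero =>
      intro _
      have : 0 ≤ γ ^ 2 / (1 - γ) := by positivity
      simp only [pow_zero, one_mul, mul_zero, Nat.sub_zero]
      linarith
    | succ i ih =>
      intro hi
      have e0 : K * (i + 1) = K * i + K := by ring
      have h1 := ih (by omega)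
      have h2 := hrec (N - K * (i + 1))
      rw [show N - K * (i + 1) + K = N - K * i by omega] at h2
      have h3 := hz (N - K * i - 2)
      have h4 : z (N - K * (i + 1)) / z (N - K * i - 2) ≤ z (N - K * (i + 1)) / γ :=
        div_le_div_of_nonneg_left (hγ.trans (hz _)).le hγ h3.le
      have h5 : z (N - K * i) - γ ≤ z (N - K * (i + 1)) / γ := by linarith
      rw [le_div_iff₀ hγ] at h5
      have h6 : γ ^ 2 / (1 - γ) = γ * (γ ^ 2 / (1 - γ)) + γ ^ 2 := by
        field_simp
        ring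
      rw [pow_succ]
      nlinarith
  have h1 := hlow (j + 2) (by
    have e0 : K * (j + 2) = K * j + 2 * K := by ring
    omega)
  rw [show N - (2 * K + K * j) = N - K * (j + 2) by
    have e0 : K * (j + 2) = K * j + 2 * K := by ring
    omega]
  refine le_trans ?_ h1
  -- `γ ^ (j + 2) X ≥ exp (3/4 L + 2 log γ)`
  have h2 : exp (3 / 4 * L + 2 * log γ) ≤ γ ^ (j + 2) * z N := by
    have e1 : γ ^ (j + 2) = exp ((j + 2) * log γ) := by
      rw [← log_pow_eq_aux hγ]
    rw [e1, hX, ← exp_add]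
    refine exp_le_exp.2 ?_
    have : 1 / (4 * -log γ) * L = L / (4 * -log γ) := by ring
    rw [this, le_div_iff₀ (by linarith)] at hj2
    linarith
  have h3 : 2 * exp (1 / 2 * L) ≤ exp (3 / 4 * L + 2 * log γ) := by
    have e1 : 3 / 4 * L + 2 * log γ = (1 / 4 * L + 2 * log γ) + 1 / 2 * L := by ring
    rw [e1, exp_add]
    exact mul_le_mul_of_nonneg_right (hL2 L hLL2) (exp_pos _).le
  have h4 := hL1 L hLL1
  rw [add_zero] at h4
  linarith
where
  log_pow_eq_aux {γ : ℝ} (hγ : 0 < γ) {j : ℕ} : γ ^ (j + 2) = exp ((j + 2) * log γ) := by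
    rw [show ((j : ℝ) + 2) * log γ = ((j + 2 : ℕ) : ℝ) * log γ by push_cast; ring, ← log_pow,
      exp_log (by positivity)]

lemma P_step (hγ : 0 < γ) (hγ1 : γ < 1) (hK : 2 ≤ K) (hz : ∀ n, γ < z n)
    (hrec : ∀ n, z (n + K) = γ + z n / z (n + K - 2)) {e : ℕ} (h : P z K (e + 2)) : P z K e := by
  obtain ⟨κ, θ, L0, hκ, hθ, hP⟩ := h
  -- the constants
  set q := (1 + γ) / 2 with hq
  have hq0 : 0 < q := by rw [hq]; linarith
  have hq1 : q < 1 := by rw [hq]; linarith
  have hγq : γ < q := by rw [hq]; linarith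
  have hlq : log q < 0 := log_neg hq0 hq1
  obtain ⟨I, hI⟩ := exists_nat_gt (2 / θ)
  have hI' : 2 < θ * I := by
    rw [div_lt_iff₀ hθ] at hI
    linarith
  -- `γ / (1 - ε) + exp (-L) ≤ q` for large `L`
  obtain ⟨L1, hL1⟩ : ∃ L1, ∀ L, L1 ≤ L → γ + (exp (-(θ * L)) + exp (-L)) * (1 + γ) ≤ q ∧
      exp (-(θ * L)) ≤ 1 / 2 ∧ 0 ≤ L := by
    have t1 : Tendsto (fun L : ℝ => exp (-(θ * L))) atTop (𝓝 0) :=
      tendsto_exp_neg_atTop_nhds_zero.comp (tendsto_id.const_mul_atTop hθ)
    have t2 : Tendsto (fun L : ℝ => exp (-L)) atTop (𝓝 0) := tendsto_exp_neg_atTop_nhds_zero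
    have t3 := ((t1.add t2).mul_const (1 + γ)).const_add γ
    rw [add_zero, zero_mul, add_zero] at t3
    have h1 := t3.eventually (gt_mem_nhds hγq)
    have h2 := t1.eventually (gt_mem_nhds (show (0 : ℝ) < 1 / 2 by norm_num))
    obtain ⟨L1, hL1⟩ := eventually_atTop.1 ((h1.and h2).and (eventually_ge_atTop 0))
    exact ⟨L1, fun L hL => ⟨(hL1 L hL).1.1.le, (hL1 L hL).1.2.le, (hL1 L hL).2⟩⟩
  set a := κ / 4 * -log q with ha
  have ha0 : 0 < a := by
    have : 0 < -log q := by linarith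
    positivity
  set L2 := max (2 * (I + 1) / κ) (((I + 1) * -log q - log γ) / a) with hL2
  refine ⟨κ / 2, a, max (max L0 L1) L2, by positivity, ha0, ?_⟩
  intro N hN hL j hj
  set L := log (z N) with hLdef
  have hLL0 : L0 ≤ L := ((le_max_left _ _).trans (le_max_left _ _)).trans hL
  have hLL1 : L1 ≤ L := ((le_max_right _ _).trans (le_max_left _ _)).trans hL
  have hLL2 : L2 ≤ L := (le_max_right _ _).trans hL
  obtain ⟨hq', hε, hLnn⟩ := hL1 L hLL1
  set ε := exp (-(θ * L)) with hεdef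
  have hε0 : 0 < ε := exp_pos _
  have hPL := hP N hN hLL0
  have hzN : 0 < z N := hγ.trans (hz N)
  have hX : z N = exp L := (exp_log hzN).symm
  -- upper bound for `c_{e+1}`
  have hA : ∀ i j : ℕ, ((j + i : ℕ) : ℝ) ≤ κ * L →
      z (N - (2 * (e + 1) + K * j)) ≤ γ * (1 + 2 * ε) + ε ^ i * z N := by
    intro i
    induction i with
    | zero =>
      intro j _
      have h1 := hN (N - (2 * (e + 1) + K * j)) (Nat.sub_le _ _)
      have h2 : 0 ≤ γ * (1 + 2 * ε) := by positivity
      rw [pow_zero, one_mul]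
      linarith
    | succ i ih =>
      intro j hj'
      have h1 := ih (j + 1) (by rw [show j + 1 + i = j + (i + 1) by ring]; exact hj')
      have hj1 : ((j + 1 : ℕ) : ℝ) ≤ κ * L := by
        refine le_trans ?_ hj'
        exact_mod_cast (by omega : j + 1 ≤ j + (i + 1))
      have hj0 : ((j : ℕ) : ℝ) ≤ κ * L := by
        refine le_trans ?_ hj1
        exact_mod_cast (by omega : j ≤ j + 1)
      obtain ⟨h2, -⟩ := hPL (j + 1) hj1
      obtain ⟨-, h3⟩ := hPL j hj0
      have h4 := back (γ := γ) hK hrec (N := N) (e := e + 1) (j := j) (by omega)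
      rw [h4]
      have h5 : 0 < z (N - (2 * (e + 1) + K * (j + 1))) := hγ.trans (hz _)
      have h6 : z (N - (2 * (e + 1) + K * (j + 1))) / z (N - (2 * (e + 1 + 1) + K * j)) ≤
          z (N - (2 * (e + 1) + K * (j + 1))) * ε := by
        rw [div_eq_mul_inv]
        refine mul_le_mul_of_nonneg_left ?_ h5.le
        rw [hεdef, exp_neg]
        exact inv_anti₀ (exp_pos _) h3
      have h7 : z (N - (2 * (e + 1) + K * (j + 1))) * ε ≤
          (γ * (1 + 2 * ε) + ε ^ i * z N) * ε := mul_le_mul_of_nonneg_right h1 hε0.le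
      have h8 : γ * ε * (2 * ε) ≤ γ * ε * 1 :=
        mul_le_mul_of_nonneg_left (by linarith) (by positivity)
      rw [pow_succ]
      nlinarith
  have hεI : ε ^ I * z N ≤ exp (-L) := by
    rw [hεdef, ← exp_nat_mul, hX, ← exp_add]
    refine exp_le_exp.2 ?_
    nlinarith
  have hB : ∀ j : ℕ, ((j + I : ℕ) : ℝ) ≤ κ * L → z (N - (2 * (e + 1) + K * j)) ≤ q := by
    intro j hj'
    have h1 := hA I j hj'
    have h2 := exp_pos (-L)
    nlinarith
  have hI1 : 1 ≤ I := by
    by_contra hcon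
    have : I = 0 := by omega
    rw [this] at hI'
    simp at hI'
    linarith
  -- lower bound for `c_e`
  have hC : ∀ i j : ℕ, ((j + i + I : ℕ) : ℝ) ≤ κ * L →
      γ * (q⁻¹) ^ i ≤ z (N - (2 * e + K * j)) := by
    intro i
    induction i with
    | zero =>
      intro j _
      rw [pow_zero, mul_one]
      exact (hz _).le
    | succ i ih =>
      intro j hj'
      have h1 := ih (j + 1) (by rw [show j + 1 + i + I = j + (i + 1) + I by ring]; exact hj')
      have hjI : ((j + I : ℕ) : ℝ) ≤ κ * L := by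
        refine le_trans ?_ hj'
        exact_mod_cast (by omega : j + I ≤ j + (i + 1) + I)
      have hj1 : ((j + 1 : ℕ) : ℝ) ≤ κ * L := by
        refine le_trans ?_ hjI
        exact_mod_cast (by omega : j + 1 ≤ j + I)
      obtain ⟨h2, -⟩ := hPL (j + 1) hj1
      have h3 := hB j hjI
      have h4 := back (γ := γ) hK hrec (N := N) (e := e) (j := j) (by omega)
      have h5 : 0 < z (N - (2 * e + K * (j + 1))) := hγ.trans (hz _)
      have h6 : 0 < z (N - (2 * (e + 1) + K * j)) := hγ.trans (hz _)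
      have h7 : z (N - (2 * e + K * (j + 1))) * q⁻¹ ≤
          z (N - (2 * e + K * (j + 1))) / z (N - (2 * (e + 1) + K * j)) := by
        rw [div_eq_mul_inv]
        exact mul_le_mul_of_nonneg_left (inv_anti₀ h6 h3) h5.le
      have h8 : γ * q⁻¹ ^ i * q⁻¹ ≤ z (N - (2 * e + K * (j + 1))) * q⁻¹ :=
        mul_le_mul_of_nonneg_right h1 (by positivity)
      rw [h4, pow_succ, ← mul_assoc]
      linarith
  -- the conclusion
  have hκL : (I : ℝ) + 1 ≤ κ / 2 * L := by
    have h1 : 2 * (I + 1) / κ ≤ L := (le_max_left _ _).trans hLL2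
    rw [div_le_iff₀ hκ] at h1
    linarith
  set i := ⌊κ / 2 * L - I⌋₊ with hi
  have hi1 : (i : ℝ) ≤ κ / 2 * L - I := Nat.floor_le (by linarith)
  have hi2 : κ / 2 * L - I < i + 1 := Nat.lt_floor_add_one _
  have hidx : 2 * e + K * j ≤ N := by
    have h1 : (j : ℝ) ≤ κ * L := by
      have : 0 ≤ κ / 2 * L := by positivity
      linarith
    obtain ⟨h2, -⟩ := hPL j h1
    omega
  refine ⟨hidx, ?_⟩
  have h1 := hC i j (by push_cast; linarith)
  refine le_trans ?_ h1
  have e1 : γ * q⁻¹ ^ i = exp (log γ + i * -log q) := by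
    rw [exp_add, exp_log hγ, mul_neg, exp_neg, ← log_pow, exp_log (by positivity), inv_pow]
  rw [e1]
  refine exp_le_exp.2 ?_
  have h2 : ((I + 1) * -log q - log γ) / a ≤ L := (le_max_right _ _).trans hLL2
  rw [div_le_iff₀ ha0] at h2
  have h3 : (κ / 2 * L - I - 1) * -log q ≤ i * -log q :=
    mul_le_mul_of_nonneg_right (by linarith) (by linarith)
  have h4 : a * L = κ / 4 * L * -log q := by rw [ha]; ring
  nlinarith

/-- **boundedness for `γ < 1`** -/
theorem bounded_lt (hγ : 0 < γ) (hγ1 : γ < 1) {m : ℕ} (hm : 1 ≤ m) (hz : ∀ n, γ < z n)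
    (hrec : ∀ n, z (n + (2 * m + 1)) = γ + z n / z (n + (2 * m + 1) - 2)) :
    BddAbove (range z) := by
  by_contra hunb
  have hK : 2 ≤ 2 * m + 1 := by omega
  have hP : ∀ s, s ≤ m → P z (2 * m + 1) (2 * m + 1 - 2 * s) := by
    intro s
    induction s with
    | zero => intro _; exact P_zero hγ hγ1 hK hz hrec
    | succ s ih =>
      intro hs
      have h1 := ih (by omega)
      rw [show 2 * m + 1 - 2 * s = 2 * m + 1 - 2 * (s + 1) + 2 by omega] at h1
      exact P_step hγ hγ1 hK hz hrec h1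
  have h1 := hP m le_rfl
  rw [show 2 * m + 1 - 2 * m = 1 by omega] at h1
  obtain ⟨κ, θ, L0, hκ, hθ, h⟩ := h1
  obtain ⟨L1, hL1⟩ := exp_big (a := θ) (c := 0) hθ 3 (by norm_num)
  obtain ⟨C, hC⟩ := ((Set.finite_Iio (2 * m + 1)).image z).bddAbove
  obtain ⟨N, hN1, hN2⟩ := exists_record hunb (max (max (exp L0) (exp L1)) (max (C + 1) 3))
  have hzN : 0 < z N := hγ.trans (hz N)
  have hNK : 2 * m + 1 ≤ N := by
    by_contra hcon
    push Not at hcon
    have h2 : z N ≤ C := hC ⟨N, hcon, rfl⟩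
    have h3 : C + 1 ≤ z N := ((le_max_left _ _).trans (le_max_right _ _)).trans hN1
    linarith
  have hL0 : L0 ≤ log (z N) := by
    rw [le_log_iff_exp_le hzN]
    exact ((le_max_left _ _).trans (le_max_left _ _)).trans hN1
  have hLL1 : L1 ≤ log (z N) := by
    rw [le_log_iff_exp_le hzN]
    exact ((le_max_right _ _).trans (le_max_left _ _)).trans hN1
  have h3 : 3 ≤ z N := ((le_max_right _ _).trans (le_max_right _ _)).trans hN1
  obtain ⟨-, h4⟩ := h N hN2 hL0 0 (by
    have : 0 ≤ log (z N) := log_nonneg (by linarith)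
    simp only [Nat.cast_zero]
    positivity)
  rw [show 2 * 1 + (2 * m + 1) * 0 = 2 by ring] at h4
  have h5 := hL1 (log (z N)) hLL1
  rw [add_zero] at h5
  -- contradiction with the record
  have h6 := hrec (N - (2 * m + 1))
  rw [Nat.sub_add_cancel hNK] at h6
  have h7 : 3 ≤ z (N - 2) := h5.trans h4
  have h8 := hN2 (N - (2 * m + 1)) (Nat.sub_le _ _)
  have h9 : z (N - (2 * m + 1)) = (z N - γ) * z (N - 2) := by
    rw [h6]
    field_simp
    ring
  nlinarith

/-- **boundedness for `γ ≥ 1`** -/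
theorem bounded_ge (hγ1 : 1 ≤ γ) {K : ℕ} (hK : 2 ≤ K) (hz : ∀ n, γ < z n)
    (hrec : ∀ n, z (n + K) = γ + z n / z (n + K - 2)) :
    BddAbove (range z) := by
  obtain ⟨C, hC⟩ := ((Set.finite_Iio K).image z).bddAbove
  -- the lower end
  obtain ⟨l, hl1, hl2, hl3⟩ : ∃ l, γ < l ∧ l ≤ γ + 1 ∧ ∀ n, n < K → l ≤ z n ∧ z n ≤ l / (l - γ) := by
    -- the minimum of the first terms
    obtain ⟨d, hd, hd'⟩ : ∃ d, 0 < d ∧ ∀ n, n < K → γ + d ≤ z n := by
      have hne : (Finset.range K).Nonempty := ⟨0, Finset.mem_range.2 (by omega)⟩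
      obtain ⟨i, hi, hi'⟩ := Finset.exists_min_image (Finset.range K) z hne
      refine ⟨z i - γ, by linarith [hz i], fun n hn => ?_⟩
      linarith [hi' n (Finset.mem_range.2 hn)]
    set c := max C 1 with hc
    have hc1 : 1 ≤ c := le_max_right _ _
    set δ := min (min d 1) (γ / c) with hδ
    have hδ0 : 0 < δ := by positivity
    refine ⟨γ + δ, by linarith, by linarith [(min_le_left (min d 1) (γ / c)).trans (min_le_right _ _)],
      fun n hn => ⟨?_, ?_⟩⟩
    · linarith [hd' n hn, (min_le_left (min d 1) (γ / c)).trans (min_le_left _ _)]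
    · have h1 : z n ≤ c := (hC ⟨n, hn, rfl⟩ : z n ≤ C).trans (le_max_left _ _)
      rw [show γ + δ - γ = δ by ring, le_div_iff₀ hδ0]
      have h2 : δ ≤ γ / c := min_le_right _ _
      rw [le_div_iff₀ (by positivity)] at h2
      have h3 := hz n
      nlinarith
  set U := l / (l - γ) with hU
  have hlγ : 0 < l - γ := by linarith
  have hl0 : 0 < l := by linarith
  have hU0 : 0 < U := by positivity
  have key : ∀ n, l ≤ z n ∧ z n ≤ U := by
    intro n
    induction n using Nat.strong_induction_on with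
    | _ n ih =>
      rcases lt_or_ge n K with hn | hn
      · exact hl3 n hn
      · obtain ⟨n', rfl⟩ : ∃ n', n = n' + K := ⟨n - K, by omega⟩
        obtain ⟨a1, a2⟩ := ih n' (by omega)
        obtain ⟨b1, b2⟩ := ih (n' + K - 2) (by omega)
        rw [hrec]
        have hb0 : 0 < z (n' + K - 2) := hl0.trans_le b1
        constructor
        · have h1 : l / U ≤ z n' / z (n' + K - 2) :=
            div_le_div₀ (hl0.le.trans a1) a1 hb0 b2
          have h2 : l / U = l - γ := by rw [hU]; field_simp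
          linarith
        · have h1 : z n' / z (n' + K - 2) ≤ U / l := div_le_div₀ hU0.le a2 hl0 b1
          have h2 : U / l = 1 / (l - γ) := by rw [hU]; field_simp
          have h3 : γ + 1 / (l - γ) ≤ U := by
            rw [hU, ← sub_nonneg]
            have : l / (l - γ) - (γ + 1 / (l - γ)) = (γ - 1) * (1 - (l - γ)) / (l - γ) := by
              field_simp
              ring
            rw [this]
            exact div_nonneg (mul_nonneg (by linarith) (by linarith)) hlγ.le
          linarith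
  refine ⟨U, ?_⟩
  rintro _ ⟨n, rfl⟩
  exact (key n).2

end

end Q65.Gamma
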