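import Pool.Agent.Q65.Horseshoe

/-!
Helper for MP_f96ee4_an and MP_28d764_an: a horseshoe for
`x_{n+1} = (α + x_n + γ x_{n-1} + δ x_{n-2}) / (x_n + C x_{n-1} + D x_{n-2})` with
`α = C = exp 1080`, `δ = exp 960` and `0 ≤ γ, D ≤ exp (-5000)`.
-/

set_option autoImplicit false

namespace Q65.Horse28d764

open Q65.Horseshoe

/-- the recursion in logarithmic variables -/
noncomputable def G (γ D : ℝ) (x : ℝ × ℝ × ℝ) : ℝ :=
  Real.log (Real.exp 1080 + Real.exp x.2.2 + γ * Real.exp x.2.1 + Real.exp (960 + x.1)) -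
    Real.log (Real.exp x.2.2 + Real.exp (1080 + x.2.1) + D * Real.exp x.1)

lemma continuous_G {γ D : ℝ} (hγ : 0 ≤ γ) (hD : 0 ≤ D) : Continuous (G γ D) := by
  unfold G
  refine Continuous.sub ?_ ?_
  · refine Continuous.log (by fun_prop) (fun x => ?_)
    positivity
  · refine Continuous.log (by fun_prop) (fun x => ?_)
    positivity

lemma exp15 : 3 * Real.exp (-15) ≤ 1 / 1000000 := by
  have h1 := Real.exp_one_gt_d9
  have h2 : Real.exp 15 = Real.exp 1 ^ 15 := by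
    rw [← Real.exp_nat_mul]
    norm_num
  have h3 : (3000000 : ℝ) ≤ Real.exp 15 := by
    rw [h2]
    calc (3000000 : ℝ) ≤ (271 / 100) ^ 15 := by norm_num
      _ ≤ Real.exp 1 ^ 15 := pow_le_pow_left₀ (by norm_num) (by linarith) 15
  have h4 : Real.exp (-15) * Real.exp 15 = 1 := by rw [← Real.exp_add]; simp
  have h5 := Real.exp_pos (-15)
  nlinarith

/-- the dominant term of a sum -/
lemma dom {u r : ℝ} (h0 : 0 ≤ r) (h : r ≤ 3 * Real.exp (-15) * Real.exp u) :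
    u ≤ Real.log (Real.exp u + r) ∧ Real.log (Real.exp u + r) ≤ u + 1 / 1000000 := by
  have hu := Real.exp_pos u
  constructor
  · rw [Real.le_log_iff_exp_le (by positivity)]
    linarith
  · rw [Real.log_le_iff_le_exp (by positivity), Real.exp_add]
    have h1 := Real.add_one_le_exp (1 / 1000000 : ℝ)
    have h2 := exp15
    nlinarith

lemma small {u v : ℝ} (h : v ≤ u - 15) : Real.exp v ≤ Real.exp (-15) * Real.exp u := by
  rw [← Real.exp_add]
  exact Real.exp_le_exp.2 (by linarith)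

lemma tiny {γ u v : ℝ} (hγ : γ ≤ Real.exp (-5000)) (h : v - 5000 ≤ u - 15) :
    γ * Real.exp v ≤ Real.exp (-15) * Real.exp u := by
  refine (mul_le_mul_of_nonneg_right hγ (Real.exp_pos v).le).trans ?_
  rw [← Real.exp_add, ← Real.exp_add]
  exact Real.exp_le_exp.2 (by linarith)

variable {γ D : ℝ}

lemma numAl (hγ0 : 0 ≤ γ) (hγ : γ ≤ Real.exp (-5000)) {a b c : ℝ} (h1 : c ≤ 1065)
    (h2 : a ≤ 105) (h3 : b ≤ 6065) :
    1080 ≤ Real.log (Real.exp 1080 + Real.exp c + γ * Real.exp b + Real.exp (960 + a)) ∧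
    Real.log (Real.exp 1080 + Real.exp c + γ * Real.exp b + Real.exp (960 + a)) ≤
      1080 + 1 / 1000000 := by
  have e1 := small (u := 1080) (v := c) (by linarith)
  have e2 := small (u := 1080) (v := 960 + a) (by linarith)
  have e3 := tiny (u := 1080) (v := b) hγ (by linarith)
  rw [show Real.exp 1080 + Real.exp c + γ * Real.exp b + Real.exp (960 + a) =
    Real.exp 1080 + (Real.exp c + γ * Real.exp b + Real.exp (960 + a)) by ring]
  exact dom (by positivity) (by linarith)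

lemma numD (hγ0 : 0 ≤ γ) (hγ : γ ≤ Real.exp (-5000)) {a b c : ℝ} (h1 : 135 ≤ a)
    (h2 : c ≤ 945 + a) (h3 : b ≤ 5945 + a) :
    960 + a ≤ Real.log (Real.exp 1080 + Real.exp c + γ * Real.exp b + Real.exp (960 + a)) ∧
    Real.log (Real.exp 1080 + Real.exp c + γ * Real.exp b + Real.exp (960 + a)) ≤
      960 + a + 1 / 1000000 := by
  have e1 := small (u := 960 + a) (v := c) (by linarith)
  have e2 := small (u := 960 + a) (v := 1080) (by linarith)
  have e3 := tiny (u := 960 + a) (v := b) hγ (by linarith)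
  rw [show Real.exp 1080 + Real.exp c + γ * Real.exp b + Real.exp (960 + a) =
    Real.exp (960 + a) + (Real.exp 1080 + Real.exp c + γ * Real.exp b) by ring]
  exact dom (by positivity) (by linarith)

lemma denB (hD0 : 0 ≤ D) (hD : D ≤ Real.exp (-5000)) {a b c : ℝ} (h1 : c ≤ 1065 + b)
    (h2 : a ≤ 6065 + b) :
    1080 + b ≤ Real.log (Real.exp c + Real.exp (1080 + b) + D * Real.exp a) ∧
    Real.log (Real.exp c + Real.exp (1080 + b) + D * Real.exp a) ≤ 1080 + b + 1 / 1000000 := by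
  have e1 := small (u := 1080 + b) (v := c) (by linarith)
  have e3 := tiny (u := 1080 + b) (v := a) hD (by linarith)
  have e4 := Real.exp_pos (1080 + b)
  have e5 := Real.exp_pos (-15)
  rw [show Real.exp c + Real.exp (1080 + b) + D * Real.exp a =
    Real.exp (1080 + b) + (Real.exp c + D * Real.exp a) by ring]
  exact dom (by positivity) (by nlinarith)

lemma denC (hD0 : 0 ≤ D) (hD : D ≤ Real.exp (-5000)) {a b c : ℝ} (h1 : b ≤ c - 1095)
    (h2 : a ≤ 4985 + c) :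
    c ≤ Real.log (Real.exp c + Real.exp (1080 + b) + D * Real.exp a) ∧
    Real.log (Real.exp c + Real.exp (1080 + b) + D * Real.exp a) ≤ c + 1 / 1000000 := by
  have e1 := small (u := c) (v := 1080 + b) (by linarith)
  have e3 := tiny (u := c) (v := a) hD (by linarith)
  have e4 := Real.exp_pos c
  have e5 := Real.exp_pos (-15)
  rw [show Real.exp c + Real.exp (1080 + b) + D * Real.exp a =
    Real.exp c + (Real.exp (1080 + b) + D * Real.exp a) by ring]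
  exact dom (by positivity) (by nlinarith)

/-- the tube -/
def Tube : Set (ℝ × ℝ × ℝ) :=
  {x | |x.2.1 - (-960 + 2 / 3 * x.1)| ≤ 1 / 10 ∧ |x.2.2 - (840 - 5 / 3 * x.1)| ≤ 1 / 10}

lemma branchT {γ D : ℝ} (hγ0 : 0 ≤ γ) (hγ : γ ≤ Real.exp (-5000)) (hD0 : 0 ≤ D)
    (hD : D ≤ Real.exp (-5000)) {y : ℕ → ℝ}
    (r3 : y 3 = G γ D (y 0, y 1, y 2))
    (r4 : y 4 = G γ D (y 1, y 2, y 3))
    (r5 : y 5 = G γ D (y 2, y 3, y 4))
    (r6 : y 6 = G γ D (y 3, y 4, y 5))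
    (r7 : y 7 = G γ D (y 4, y 5, y 6))
    (r8 : y 8 = G γ D (y 5, y 6, y 7))
    (r9 : y 9 = G γ D (y 6, y 7, y 8))
    (r10 : y 10 = G γ D (y 7, y 8, y 9))
    (r11 : y 11 = G γ D (y 8, y 9, y 10))
    (r12 : y 12 = G γ D (y 9, y 10, y 11))
    (hb1 : -1 / 10 ≤ y 1 - (-960 + 2 / 3 * y 0)) (hb2 : y 1 - (-960 + 2 / 3 * y 0) ≤ 1 / 10)
    (hc1 : -1 / 10 ≤ y 2 - (840 - 5 / 3 * y 0)) (hc2 : y 2 - (840 - 5 / 3 * y 0) ≤ 1 / 10)
    (h1 : 1131 / 2 ≤ y 0) (h2 : y 0 ≤ 1329 / 2) :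
    (|y 11 - (-960 + 2 / 3 * y 10)| ≤ 1 / 10 ∧ |y 12 - (840 - 5 / 3 * y 10)| ≤ 1 / 10) ∧
      |y 10 - (-2 * y 0 + 1800)| ≤ 7 / 10 := by
  rw [G] at r3 r4 r5 r6 r7 r8 r9 r10 r11 r12
  obtain ⟨n0, m0⟩ := numD hγ0 hγ (a := y 0) (b := y 1) (c := y 2) (by linarith) (by linarith) (by linarith)
  obtain ⟨d0, e0⟩ := denB hD0 hD (a := y 0) (b := y 1) (c := y 2) (by linarith) (by linarith)
  obtain ⟨n1, m1⟩ := numAl hγ0 hγ (a := y 1) (b := y 2) (c := y 3) (by linarith) (by linarith) (by linarith)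
  obtain ⟨d1, e1⟩ := denC hD0 hD (a := y 1) (b := y 2) (c := y 3) (by linarith) (by linarith)
  obtain ⟨n2, m2⟩ := numAl hγ0 hγ (a := y 2) (b := y 3) (c := y 4) (by linarith) (by linarith) (by linarith)
  obtain ⟨d2, e2⟩ := denB hD0 hD (a := y 2) (b := y 3) (c := y 4) (by linarith) (by linarith)
  obtain ⟨n3, m3⟩ := numD hγ0 hγ (a := y 3) (b := y 4) (c := y 5) (by linarith) (by linarith) (by linarith)
  obtain ⟨d3, e3⟩ := denB hD0 hD (a := y 3) (b := y 4) (c := y 5) (by linarith) (by linarith)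
  obtain ⟨n4, m4⟩ := numAl hγ0 hγ (a := y 4) (b := y 5) (c := y 6) (by linarith) (by linarith) (by linarith)
  obtain ⟨d4, e4⟩ := denC hD0 hD (a := y 4) (b := y 5) (c := y 6) (by linarith) (by linarith)
  obtain ⟨n5, m5⟩ := numAl hγ0 hγ (a := y 5) (b := y 6) (c := y 7) (by linarith) (by linarith) (by linarith)
  obtain ⟨d5, e5⟩ := denB hD0 hD (a := y 5) (b := y 6) (c := y 7) (by linarith) (by linarith)
  obtain ⟨n6, m6⟩ := numD hγ0 hγ (a := y 6) (b := y 7) (c := y 8) (by linarith) (by linarith) (by linarith)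
  obtain ⟨d6, e6⟩ := denB hD0 hD (a := y 6) (b := y 7) (c := y 8) (by linarith) (by linarith)
  obtain ⟨n7, m7⟩ := numD hγ0 hγ (a := y 7) (b := y 8) (c := y 9) (by linarith) (by linarith) (by linarith)
  obtain ⟨d7, e7⟩ := denC hD0 hD (a := y 7) (b := y 8) (c := y 9) (by linarith) (by linarith)
  obtain ⟨n8, m8⟩ := numAl hγ0 hγ (a := y 8) (b := y 9) (c := y 10) (by linarith) (by linarith) (by linarith)
  obtain ⟨d8, e8⟩ := denB hD0 hD (a := y 8) (b := y 9) (c := y 10) (by linarith) (by linarith)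
  obtain ⟨n9, m9⟩ := numD hγ0 hγ (a := y 9) (b := y 10) (c := y 11) (by linarith) (by linarith) (by linarith)
  obtain ⟨d9, e9⟩ := denB hD0 hD (a := y 9) (b := y 10) (c := y 11) (by linarith) (by linarith)
  refine ⟨⟨abs_le.2 ⟨by linarith, by linarith⟩, abs_le.2 ⟨by linarith, by linarith⟩⟩,
    abs_le.2 ⟨by linarith, by linarith⟩⟩

lemma branchF {γ D : ℝ} (hγ0 : 0 ≤ γ) (hγ : γ ≤ Real.exp (-5000)) (hD0 : 0 ≤ D)
    (hD : D ≤ Real.exp (-5000)) {y : ℕ → ℝ}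
    (r3 : y 3 = G γ D (y 0, y 1, y 2))
    (r4 : y 4 = G γ D (y 1, y 2, y 3))
    (r5 : y 5 = G γ D (y 2, y 3, y 4))
    (r6 : y 6 = G γ D (y 3, y 4, y 5))
    (r7 : y 7 = G γ D (y 4, y 5, y 6))
    (r8 : y 8 = G γ D (y 5, y 6, y 7))
    (r9 : y 9 = G γ D (y 6, y 7, y 8))
    (r10 : y 10 = G γ D (y 7, y 8, y 9))
    (r11 : y 11 = G γ D (y 8, y 9, y 10))
    (r12 : y 12 = G γ D (y 9, y 10, y 11))
    (hb1 : -1 / 10 ≤ y 1 - (-960 + 2 / 3 * y 0)) (hb2 : y 1 - (-960 + 2 / 3 * y 0) ≤ 1 / 10)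
    (hc1 : -1 / 10 ≤ y 2 - (840 - 5 / 3 * y 0)) (hc2 : y 2 - (840 - 5 / 3 * y 0) ≤ 1 / 10)
    (h1 : 955 / 2 ≤ y 0) (h2 : y 0 ≤ 1055 / 2) :
    (|y 11 - (-960 + 2 / 3 * y 10)| ≤ 1 / 10 ∧ |y 12 - (840 - 5 / 3 * y 10)| ≤ 1 / 10) ∧
      |y 10 - (4 * y 0 - 1440)| ≤ 7 / 10 := by
  rw [G] at r3 r4 r5 r6 r7 r8 r9 r10 r11 r12
  obtain ⟨n0, m0⟩ := numD hγ0 hγ (a := y 0) (b := y 1) (c := y 2) (by linarith) (by linarith) (by linarith)
  obtain ⟨d0, e0⟩ := denB hD0 hD (a := y 0) (b := y 1) (c := y 2) (by linarith) (by linarith)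
  obtain ⟨n1, m1⟩ := numAl hγ0 hγ (a := y 1) (b := y 2) (c := y 3) (by linarith) (by linarith) (by linarith)
  obtain ⟨d1, e1⟩ := denB hD0 hD (a := y 1) (b := y 2) (c := y 3) (by linarith) (by linarith)
  obtain ⟨n2, m2⟩ := numAl hγ0 hγ (a := y 2) (b := y 3) (c := y 4) (by linarith) (by linarith) (by linarith)
  obtain ⟨d2, e2⟩ := denB hD0 hD (a := y 2) (b := y 3) (c := y 4) (by linarith) (by linarith)
  obtain ⟨n3, m3⟩ := numD hγ0 hγ (a := y 3) (b := y 4) (c := y 5) (by linarith) (by linarith) (by linarith)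
  obtain ⟨d3, e3⟩ := denB hD0 hD (a := y 3) (b := y 4) (c := y 5) (by linarith) (by linarith)
  obtain ⟨n4, m4⟩ := numAl hγ0 hγ (a := y 4) (b := y 5) (c := y 6) (by linarith) (by linarith) (by linarith)
  obtain ⟨d4, e4⟩ := denC hD0 hD (a := y 4) (b := y 5) (c := y 6) (by linarith) (by linarith)
  obtain ⟨n5, m5⟩ := numAl hγ0 hγ (a := y 5) (b := y 6) (c := y 7) (by linarith) (by linarith) (by linarith)
  obtain ⟨d5, e5⟩ := denB hD0 hD (a := y 5) (b := y 6) (c := y 7) (by linarith) (by linarith)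
  obtain ⟨n6, m6⟩ := numD hγ0 hγ (a := y 6) (b := y 7) (c := y 8) (by linarith) (by linarith) (by linarith)
  obtain ⟨d6, e6⟩ := denB hD0 hD (a := y 6) (b := y 7) (c := y 8) (by linarith) (by linarith)
  obtain ⟨n7, m7⟩ := numD hγ0 hγ (a := y 7) (b := y 8) (c := y 9) (by linarith) (by linarith) (by linarith)
  obtain ⟨d7, e7⟩ := denC hD0 hD (a := y 7) (b := y 8) (c := y 9) (by linarith) (by linarith)
  obtain ⟨n8, m8⟩ := numAl hγ0 hγ (a := y 8) (b := y 9) (c := y 10) (by linarith) (by linarith) (by linarith)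
  obtain ⟨d8, e8⟩ := denB hD0 hD (a := y 8) (b := y 9) (c := y 10) (by linarith) (by linarith)
  obtain ⟨n9, m9⟩ := numD hγ0 hγ (a := y 9) (b := y 10) (c := y 11) (by linarith) (by linarith) (by linarith)
  obtain ⟨d9, e9⟩ := denB hD0 hD (a := y 9) (b := y 10) (c := y 11) (by linarith) (by linarith)
  refine ⟨⟨abs_le.2 ⟨by linarith, by linarith⟩, abs_le.2 ⟨by linarith, by linarith⟩⟩,
    abs_le.2 ⟨by linarith, by linarith⟩⟩
lemma branches (hγ0 : 0 ≤ γ) (hγ : γ ≤ Real.exp (-5000)) (hD0 : 0 ≤ D)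
    (hD : D ≤ Real.exp (-5000)) (x : ℝ × ℝ × ℝ) (hx : x ∈ Tube) :
    (1131 / 2 ≤ x.1 → x.1 ≤ 1329 / 2 → (Tm (G γ D))^[10] x ∈ Tube ∧
      |((Tm (G γ D))^[10] x).1 - (-2 * x.1 + 1800)| ≤ 7 / 10) ∧
    (955 / 2 ≤ x.1 → x.1 ≤ 1055 / 2 → (Tm (G γ D))^[10] x ∈ Tube ∧
      |((Tm (G γ D))^[10] x).1 - (4 * x.1 - 1440)| ≤ 7 / 10) := by
  have hr : ∀ n, orb (G γ D) x (n + 3) = G γ D (orb (G γ D) x n, orb (G γ D) x (n + 1),
      orb (G γ D) x (n + 2)) := fun n => orb_rec (G γ D) x n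
  have e0 : orb (G γ D) x 0 = x.1 := rfl
  have e1 : orb (G γ D) x 1 = x.2.1 := rfl
  have e2 : orb (G γ D) x 2 = x.2.2 := rfl
  obtain ⟨hb, hc⟩ := hx
  rw [← e0, ← e1] at hb
  rw [← e0, ← e2] at hc
  obtain ⟨hb1, hb2⟩ := abs_le.1 hb
  obtain ⟨hc1, hc2⟩ := abs_le.1 hc
  rw [iterate_eq, ← e0]
  constructor
  · intro h1 h2
    exact branchT hγ0 hγ hD0 hD (hr 0) (hr 1) (hr 2) (hr 3) (hr 4) (hr 5) (hr 6) (hr 7) (hr 8)
      (hr 9) (by linarith) hb2 (by linarith) hc2 h1 h2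
  · intro h1 h2
    exact branchF hγ0 hγ hD0 hD (hr 0) (hr 1) (hr 2) (hr 3) (hr 4) (hr 5) (hr 6) (hr 7) (hr 8)
      (hr 9) (by linarith) hb2 (by linarith) hc2 h1 h2

/-- the horseshoe -/
noncomputable def data (hγ0 : 0 ≤ γ) (hγ : γ ≤ Real.exp (-5000)) (hD0 : 0 ≤ D)
    (hD : D ≤ Real.exp (-5000)) : Data (Tm (G γ D)) where
  hT := continuous_Tm (continuous_G hγ0 hD0)
  N := fun _ => 10
  hN := fun _ => by norm_num
  Tube := Tube
  τ := Prod.fst
  hτ := continuous_fst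
  t0 := 472
  t1 := 668
  u := fun i => bif i then 1131 / 2 else 955 / 2
  v := fun i => bif i then 1329 / 2 else 1055 / 2
  up := fun i => i = false
  h0 := fun i => by cases i <;> norm_num
  h1 := fun i => by cases i <;> norm_num
  huv := fun i => by cases i <;> norm_num
  tube := fun i x hx h1 h2 => by
    cases i
    · exact ((branches hγ0 hγ hD0 hD x hx).2 h1 h2).1
    · exact ((branches hγ0 hγ hD0 hD x hx).1 h1 h2).1
  lo := fun i hi => by
    subst hi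
    constructor
    · intro x hx h
      have h' : x.1 = 955 / 2 := h
      have := abs_le.1 ((branches hγ0 hγ hD0 hD x hx).2 (by rw [h']) (by rw [h']; norm_num)).2
      rw [h'] at this
      linarith [this.2]
    · intro x hx h
      have h' : x.1 = 1055 / 2 := h
      have := abs_le.1 ((branches hγ0 hγ hD0 hD x hx).2 (by rw [h']; norm_num) (by rw [h'])).2
      rw [h'] at this
      linarith [this.1]
  hi := fun i hi => by
    cases i
    · exact absurd rfl hi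
    · constructor
      · intro x hx h
        have h' : x.1 = 1131 / 2 := h
        have := abs_le.1 ((branches hγ0 hγ hD0 hD x hx).1 (by rw [h']) (by rw [h']; norm_num)).2
        rw [h'] at this
        linarith [this.1]
      · intro x hx h
        have h' : x.1 = 1329 / 2 := h
        have := abs_le.1 ((branches hγ0 hγ hD0 hD x hx).1 (by rw [h']; norm_num) (by rw [h'])).2
        rw [h'] at this
        linarith [this.2]
  g := fun r => (472 + 196 * r, -960 + 2 / 3 * (472 + 196 * r), 840 - 5 / 3 * (472 + 196 * r))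
  hg := by fun_prop
  gtube := fun r _ => by
    constructor
    · show |(-960 + 2 / 3 * (472 + 196 * r)) - (-960 + 2 / 3 * (472 + 196 * r))| ≤ 1 / 10
      rw [sub_self, abs_zero]
      norm_num
    · show |(840 - 5 / 3 * (472 + 196 * r)) - (840 - 5 / 3 * (472 + 196 * r))| ≤ 1 / 10
      rw [sub_self, abs_zero]
      norm_num
  g0 := by norm_num
  g1 := by norm_num

theorem exists_sol (hγ0 : 0 ≤ γ) (hγ : γ ≤ Real.exp (-5000)) (hD0 : 0 ≤ D)
    (hD : D ≤ Real.exp (-5000)) :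
    ∃ y : ℕ → ℝ, (∀ n, y (n + 3) = G γ D (y n, y (n + 1), y (n + 2))) ∧
    (∃ B, ∀ n, Real.exp (y n) ≤ B) ∧
    ∀ (p : ℕ → ℝ) (k : ℕ), 0 < k → (∀ n, p (n + k) = p n) →
      ¬ Filter.Tendsto (fun n => Real.exp (y n) - p n) Filter.atTop (nhds 0) := by
  refine exists_orbit_exp (data hγ0 hγ hD0 hD) rfl
    (by show (1055 / 2 : ℝ) < 1131 / 2; norm_num) (R := 2000) ?_
  intro x hx h1 h2
  obtain ⟨hb, hc⟩ : |x.2.1 - (-960 + 2 / 3 * x.1)| ≤ 1 / 10 ∧
    |x.2.2 - (840 - 5 / 3 * x.1)| ≤ 1 / 10 := hx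
  have h1' : 472 ≤ x.1 := h1
  have h2' : x.1 ≤ 668 := h2
  obtain ⟨hb1, hb2⟩ := abs_le.1 hb
  obtain ⟨hc1, hc2⟩ := abs_le.1 hc
  rw [Prod.norm_def, Prod.norm_def]
  refine max_le ?_ (max_le ?_ ?_)
  · rw [Real.norm_eq_abs, abs_le]; constructor <;> linarith
  · rw [Real.norm_eq_abs, abs_le]; constructor <;> linarith
  · rw [Real.norm_eq_abs, abs_le]; constructor <;> linarith

/-- the same in the original variables -/
theorem exists_sol' (hγ0 : 0 ≤ γ) (hγ : γ ≤ Real.exp (-5000)) (hD0 : 0 ≤ D)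
    (hD : D ≤ Real.exp (-5000)) :
    ∃ x : ℕ → ℝ, (∀ n, 0 < x n) ∧ (∀ n, x (n + 3) =
      (Real.exp 1080 + x (n + 2) + γ * x (n + 1) + Real.exp 960 * x n) /
        (x (n + 2) + Real.exp 1080 * x (n + 1) + D * x n)) ∧
    (∃ B, ∀ n, x n ≤ B) ∧
    ∀ (p : ℕ → ℝ) (k : ℕ), 0 < k → (∀ n, p (n + k) = p n) →
      ¬ Filter.Tendsto (fun n => x n - p n) Filter.atTop (nhds 0) := by
  obtain ⟨y, hy, hB, hper⟩ := exists_sol hγ0 hγ hD0 hD
  refine ⟨fun n => Real.exp (y n), fun n => Real.exp_pos _, fun n => ?_, hB, hper⟩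
  show Real.exp (y (n + 3)) = _
  rw [hy n]
  unfold G
  rw [Real.exp_sub, Real.exp_log (by positivity), Real.exp_log (by positivity), Real.exp_add,
    Real.exp_add]

end Q65.Horse28d764
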