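import Pool.Agent.Q65.Horseshoe

/-!
Helper for MP_415091_an: a horseshoe for `x_{n+1} = (α + x_{n-2}) / (A + B x_n + x_{n-1})` with
`α = A = exp (-600)`, `B = exp 540`.
-/

set_option autoImplicit false

namespace Q65.Horse415091

open Q65.Horseshoe

/-- the recursion in logarithmic variables -/
noncomputable def G (x : ℝ × ℝ × ℝ) : ℝ :=
  Real.log (Real.exp (-600) + Real.exp x.1) -
    Real.log (Real.exp (-600) + Real.exp (540 + x.2.2) + Real.exp x.2.1)

lemma continuous_G : Continuous G := by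
  unfold G
  refine Continuous.sub ?_ ?_
  · refine Continuous.log (by fun_prop) (fun x => ?_)
    positivity
  · refine Continuous.log (by fun_prop) (fun x => ?_)
    positivity

lemma exp15 : 2 * Real.exp (-15) ≤ 1 / 1000000 := by
  have h1 := Real.exp_one_gt_d9
  have h2 : Real.exp 15 = Real.exp 1 ^ 15 := by
    rw [← Real.exp_nat_mul]
    norm_num
  have h3 : (2000000 : ℝ) ≤ Real.exp 15 := by
    rw [h2]
    calc (2000000 : ℝ) ≤ (27 / 10) ^ 15 := by norm_num
      _ ≤ Real.exp 1 ^ 15 := pow_le_pow_left₀ (by norm_num) (by linarith) 15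
  have h4 : Real.exp (-15) * Real.exp 15 = 1 := by rw [← Real.exp_add]; simp
  have h5 := Real.exp_pos (-15)
  nlinarith

/-- the dominant term of a sum -/
lemma dom {u r : ℝ} (h0 : 0 ≤ r) (h : r ≤ 2 * Real.exp (-15) * Real.exp u) :
    u ≤ Real.log (Real.exp u + r) ∧ Real.log (Real.exp u + r) ≤ u + 1 / 1000000 := by
  have hu := Real.exp_pos u
  constructor
  · rw [Real.le_log_iff_exp_le (by positivity)]
    linarith
  · rw [Real.log_le_iff_le_exp (by positivity), Real.exp_add]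
    have h1 := Real.add_one_le_exp (1 / 1000000 : ℝ)
    have h2 := exp15
    nlinarith

lemma small {u v : ℝ} (h : v ≤ u - 15) : Real.exp v ≤ Real.exp (-15) * Real.exp u := by
  rw [← Real.exp_add]
  exact Real.exp_le_exp.2 (by linarith)

lemma numA {a : ℝ} (h : a ≤ -615) : -600 ≤ Real.log (Real.exp (-600) + Real.exp a) ∧
    Real.log (Real.exp (-600) + Real.exp a) ≤ -600 + 1 / 1000000 := by
  have h1 := small (u := -600) (v := a) (by linarith)
  have h2 := Real.exp_pos (-15)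
  have h3 := Real.exp_pos (-600)
  exact dom (Real.exp_pos a).le (by nlinarith)

lemma numX {a : ℝ} (h : -585 ≤ a) : a ≤ Real.log (Real.exp (-600) + Real.exp a) ∧
    Real.log (Real.exp (-600) + Real.exp a) ≤ a + 1 / 1000000 := by
  have h1 := small (u := a) (v := -600) (by linarith)
  have h2 := Real.exp_pos (-15)
  have h3 := Real.exp_pos a
  rw [add_comm]
  exact dom (Real.exp_pos _).le (by nlinarith)

lemma denC {b c : ℝ} (h : -585 ≤ 540 + c) (h' : b ≤ 540 + c - 15) :
    540 + c ≤ Real.log (Real.exp (-600) + Real.exp (540 + c) + Real.exp b) ∧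
    Real.log (Real.exp (-600) + Real.exp (540 + c) + Real.exp b) ≤ 540 + c + 1 / 1000000 := by
  have h1 := small (u := 540 + c) (v := -600) (by linarith)
  have h2 := small (u := 540 + c) (v := b) (by linarith)
  have h3 := Real.exp_pos (540 + c)
  rw [show Real.exp (-600) + Real.exp (540 + c) + Real.exp b =
    Real.exp (540 + c) + (Real.exp (-600) + Real.exp b) by ring]
  exact dom (by positivity) (by nlinarith)

lemma denB {b c : ℝ} (h : -585 ≤ b) (h' : 540 + c ≤ b - 15) :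
    b ≤ Real.log (Real.exp (-600) + Real.exp (540 + c) + Real.exp b) ∧
    Real.log (Real.exp (-600) + Real.exp (540 + c) + Real.exp b) ≤ b + 1 / 1000000 := by
  have h1 := small (u := b) (v := -600) (by linarith)
  have h2 := small (u := b) (v := 540 + c) (by linarith)
  have h3 := Real.exp_pos b
  rw [show Real.exp (-600) + Real.exp (540 + c) + Real.exp b =
    Real.exp b + (Real.exp (-600) + Real.exp (540 + c)) by ring]
  exact dom (by positivity) (by nlinarith)

/-- the tube -/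
def Tube : Set (ℝ × ℝ × ℝ) :=
  {x | |x.2.1 - (-920 - 5 / 3 * x.1)| ≤ 1 / 10 ∧ |x.2.2 - (-220 + 5 / 3 * x.1)| ≤ 1 / 10}

lemma branchT {y : ℕ → ℝ}
    (r3 : y 3 = Real.log (Real.exp (-600) + Real.exp (y 0)) -
      Real.log (Real.exp (-600) + Real.exp (540 + y 2) + Real.exp (y 1)))
    (r4 : y 4 = Real.log (Real.exp (-600) + Real.exp (y 1)) -
      Real.log (Real.exp (-600) + Real.exp (540 + y 3) + Real.exp (y 2)))
    (r5 : y 5 = Real.log (Real.exp (-600) + Real.exp (y 2)) -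
      Real.log (Real.exp (-600) + Real.exp (540 + y 4) + Real.exp (y 3)))
    (r6 : y 6 = Real.log (Real.exp (-600) + Real.exp (y 3)) -
      Real.log (Real.exp (-600) + Real.exp (540 + y 5) + Real.exp (y 4)))
    (r7 : y 7 = Real.log (Real.exp (-600) + Real.exp (y 4)) -
      Real.log (Real.exp (-600) + Real.exp (540 + y 6) + Real.exp (y 5)))
    (r8 : y 8 = Real.log (Real.exp (-600) + Real.exp (y 5)) -
      Real.log (Real.exp (-600) + Real.exp (540 + y 7) + Real.exp (y 6)))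
    (r9 : y 9 = Real.log (Real.exp (-600) + Real.exp (y 6)) -
      Real.log (Real.exp (-600) + Real.exp (540 + y 8) + Real.exp (y 7)))
    (r10 : y 10 = Real.log (Real.exp (-600) + Real.exp (y 7)) -
      Real.log (Real.exp (-600) + Real.exp (540 + y 9) + Real.exp (y 8)))
    (hb1 : -1 / 10 ≤ y 1 - (-920 - 5 / 3 * y 0)) (hb2 : y 1 - (-920 - 5 / 3 * y 0) ≤ 1 / 10)
    (hc1 : -1 / 10 ≤ y 2 - (-220 + 5 / 3 * y 0)) (hc2 : y 2 - (-220 + 5 / 3 * y 0) ≤ 1 / 10)
    (h1 : -695 / 2 ≤ y 0) (h2 : y 0 ≤ -595 / 2) :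
    (|y 9 - (-920 - 5 / 3 * y 8)| ≤ 1 / 10 ∧ |y 10 - (-220 + 5 / 3 * y 8)| ≤ 1 / 10) ∧
      |y 8 - (2 * y 0 + 300)| ≤ 1 / 2 := by
  obtain ⟨n0, m0⟩ := numX (a := y 0) (by linarith)
  obtain ⟨d0, e0⟩ := denC (b := y 1) (c := y 2) (by linarith) (by linarith)
  obtain ⟨n1, m1⟩ := numX (a := y 1) (by linarith)
  obtain ⟨d1, e1⟩ := denC (b := y 2) (c := y 3) (by linarith) (by linarith)
  obtain ⟨n2, m2⟩ := numA (a := y 2) (by linarith)
  obtain ⟨d2, e2⟩ := denB (b := y 3) (c := y 4) (by linarith) (by linarith)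
  obtain ⟨n3, m3⟩ := numX (a := y 3) (by linarith)
  obtain ⟨d3, e3⟩ := denC (b := y 4) (c := y 5) (by linarith) (by linarith)
  obtain ⟨n4, m4⟩ := numA (a := y 4) (by linarith)
  obtain ⟨d4, e4⟩ := denC (b := y 5) (c := y 6) (by linarith) (by linarith)
  obtain ⟨n5, m5⟩ := numX (a := y 5) (by linarith)
  obtain ⟨d5, e5⟩ := denB (b := y 6) (c := y 7) (by linarith) (by linarith)
  obtain ⟨n6, m6⟩ := numX (a := y 6) (by linarith)
  obtain ⟨d6, e6⟩ := denC (b := y 7) (c := y 8) (by linarith) (by linarith)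
  obtain ⟨n7, m7⟩ := numA (a := y 7) (by linarith)
  obtain ⟨d7, e7⟩ := denC (b := y 8) (c := y 9) (by linarith) (by linarith)
  refine ⟨⟨abs_le.2 ⟨by linarith, by linarith⟩, abs_le.2 ⟨by linarith, by linarith⟩⟩,
    abs_le.2 ⟨by linarith, by linarith⟩⟩

lemma branchF {y : ℕ → ℝ}
    (r3 : y 3 = Real.log (Real.exp (-600) + Real.exp (y 0)) -
      Real.log (Real.exp (-600) + Real.exp (540 + y 2) + Real.exp (y 1)))
    (r4 : y 4 = Real.log (Real.exp (-600) + Real.exp (y 1)) -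
      Real.log (Real.exp (-600) + Real.exp (540 + y 3) + Real.exp (y 2)))
    (r5 : y 5 = Real.log (Real.exp (-600) + Real.exp (y 2)) -
      Real.log (Real.exp (-600) + Real.exp (540 + y 4) + Real.exp (y 3)))
    (r6 : y 6 = Real.log (Real.exp (-600) + Real.exp (y 3)) -
      Real.log (Real.exp (-600) + Real.exp (540 + y 5) + Real.exp (y 4)))
    (r7 : y 7 = Real.log (Real.exp (-600) + Real.exp (y 4)) -
      Real.log (Real.exp (-600) + Real.exp (540 + y 6) + Real.exp (y 5)))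
    (r8 : y 8 = Real.log (Real.exp (-600) + Real.exp (y 5)) -
      Real.log (Real.exp (-600) + Real.exp (540 + y 7) + Real.exp (y 6)))
    (r9 : y 9 = Real.log (Real.exp (-600) + Real.exp (y 6)) -
      Real.log (Real.exp (-600) + Real.exp (540 + y 8) + Real.exp (y 7)))
    (r10 : y 10 = Real.log (Real.exp (-600) + Real.exp (y 7)) -
      Real.log (Real.exp (-600) + Real.exp (540 + y 9) + Real.exp (y 8)))
    (hb1 : -1 / 10 ≤ y 1 - (-920 - 5 / 3 * y 0)) (hb2 : y 1 - (-920 - 5 / 3 * y 0) ≤ 1 / 10)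
    (hc1 : -1 / 10 ≤ y 2 - (-220 + 5 / 3 * y 0)) (hc2 : y 2 - (-220 + 5 / 3 * y 0) ≤ 1 / 10)
    (h1 : -391 ≤ y 0) (h2 : y 0 ≤ -378) :
    (|y 9 - (-920 - 5 / 3 * y 8)| ≤ 1 / 10 ∧ |y 10 - (-220 + 5 / 3 * y 8)| ≤ 1 / 10) ∧
      |y 8 - (-8 * y 0 - 3420)| ≤ 1 / 2 := by
  obtain ⟨n0, m0⟩ := numX (a := y 0) (by linarith)
  obtain ⟨d0, e0⟩ := denB (b := y 1) (c := y 2) (by linarith) (by linarith)
  obtain ⟨n1, m1⟩ := numX (a := y 1) (by linarith)
  obtain ⟨d1, e1⟩ := denC (b := y 2) (c := y 3) (by linarith) (by linarith)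
  obtain ⟨n2, m2⟩ := numA (a := y 2) (by linarith)
  obtain ⟨d2, e2⟩ := denB (b := y 3) (c := y 4) (by linarith) (by linarith)
  obtain ⟨n3, m3⟩ := numX (a := y 3) (by linarith)
  obtain ⟨d3, e3⟩ := denC (b := y 4) (c := y 5) (by linarith) (by linarith)
  obtain ⟨n4, m4⟩ := numA (a := y 4) (by linarith)
  obtain ⟨d4, e4⟩ := denC (b := y 5) (c := y 6) (by linarith) (by linarith)
  obtain ⟨n5, m5⟩ := numX (a := y 5) (by linarith)
  obtain ⟨d5, e5⟩ := denB (b := y 6) (c := y 7) (by linarith) (by linarith)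
  obtain ⟨n6, m6⟩ := numX (a := y 6) (by linarith)
  obtain ⟨d6, e6⟩ := denC (b := y 7) (c := y 8) (by linarith) (by linarith)
  obtain ⟨n7, m7⟩ := numA (a := y 7) (by linarith)
  obtain ⟨d7, e7⟩ := denC (b := y 8) (c := y 9) (by linarith) (by linarith)
  refine ⟨⟨abs_le.2 ⟨by linarith, by linarith⟩, abs_le.2 ⟨by linarith, by linarith⟩⟩,
    abs_le.2 ⟨by linarith, by linarith⟩⟩

lemma branches (x : ℝ × ℝ × ℝ) (hx : x ∈ Tube) :
    (-695 / 2 ≤ x.1 → x.1 ≤ -595 / 2 → (Tm G)^[8] x ∈ Tube ∧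
      |((Tm G)^[8] x).1 - (2 * x.1 + 300)| ≤ 1 / 2) ∧
    (-391 ≤ x.1 → x.1 ≤ -378 → (Tm G)^[8] x ∈ Tube ∧
      |((Tm G)^[8] x).1 - (-8 * x.1 - 3420)| ≤ 1 / 2) := by
  have hr : ∀ n, orb G x (n + 3) = Real.log (Real.exp (-600) + Real.exp (orb G x n)) -
      Real.log (Real.exp (-600) + Real.exp (540 + orb G x (n + 2)) +
        Real.exp (orb G x (n + 1))) := fun n => orb_rec G x n
  have e0 : orb G x 0 = x.1 := rfl
  have e1 : orb G x 1 = x.2.1 := rfl
  have e2 : orb G x 2 = x.2.2 := rfl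
  obtain ⟨hb, hc⟩ := hx
  rw [← e0, ← e1] at hb
  rw [← e0, ← e2] at hc
  obtain ⟨hb1, hb2⟩ := abs_le.1 hb
  obtain ⟨hc1, hc2⟩ := abs_le.1 hc
  rw [iterate_eq, ← e0]
  constructor
  · intro h1 h2
    exact branchT (hr 0) (hr 1) (hr 2) (hr 3) (hr 4) (hr 5) (hr 6) (hr 7)
      (by linarith) hb2 (by linarith) hc2 h1 h2
  · intro h1 h2
    exact branchF (hr 0) (hr 1) (hr 2) (hr 3) (hr 4) (hr 5) (hr 6) (hr 7)
      (by linarith) hb2 (by linarith) hc2 h1 h2

/-- the horseshoe -/
noncomputable def D : Data (Tm G) where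
  hT := continuous_Tm continuous_G
  N := fun _ => 8
  hN := fun _ => by norm_num
  Tube := Tube
  τ := Prod.fst
  hτ := continuous_fst
  t0 := -394
  t1 := -296
  u := fun i => bif i then -695 / 2 else -391
  v := fun i => bif i then -595 / 2 else -378
  up := fun i => i = true
  h0 := fun i => by cases i <;> norm_num
  h1 := fun i => by cases i <;> norm_num
  huv := fun i => by cases i <;> norm_num
  tube := fun i x hx h1 h2 => by
    cases i
    · exact ((branches x hx).2 h1 h2).1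
    · exact ((branches x hx).1 h1 h2).1
  lo := fun i hi => by
    subst hi
    constructor
    · intro x hx h
      have h' : x.1 = -695 / 2 := h
      have := abs_le.1 ((branches x hx).1 (by rw [h']) (by rw [h']; norm_num)).2
      rw [h'] at this
      linarith [this.2]
    · intro x hx h
      have h' : x.1 = -595 / 2 := h
      have := abs_le.1 ((branches x hx).1 (by rw [h']; norm_num) (by rw [h'])).2
      rw [h'] at this
      linarith [this.1]
  hi := fun i hi => by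
    cases i
    · constructor
      · intro x hx h
        have h' : x.1 = -391 := h
        have := abs_le.1 ((branches x hx).2 (by rw [h']) (by rw [h']; norm_num)).2
        rw [h'] at this
        linarith [this.1]
      · intro x hx h
        have h' : x.1 = -378 := h
        have := abs_le.1 ((branches x hx).2 (by rw [h']; norm_num) (by rw [h'])).2
        rw [h'] at this
        linarith [this.2]
    · exact absurd rfl hi
  g := fun r => (-394 + 98 * r, -920 - 5 / 3 * (-394 + 98 * r), -220 + 5 / 3 * (-394 + 98 * r))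
  hg := by fun_prop
  gtube := fun r _ => by
    constructor
    · show |(-920 - 5 / 3 * (-394 + 98 * r)) - (-920 - 5 / 3 * (-394 + 98 * r))| ≤ 1 / 10
      rw [sub_self, abs_zero]
      norm_num
    · show |(-220 + 5 / 3 * (-394 + 98 * r)) - (-220 + 5 / 3 * (-394 + 98 * r))| ≤ 1 / 10
      rw [sub_self, abs_zero]
      norm_num
  g0 := by norm_num
  g1 := by norm_num

theorem exists_sol : ∃ y : ℕ → ℝ, (∀ n, y (n + 3) = G (y n, y (n + 1), y (n + 2))) ∧
    (∃ B, ∀ n, Real.exp (y n) ≤ B) ∧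
    ∀ (p : ℕ → ℝ) (k : ℕ), 0 < k → (∀ n, p (n + k) = p n) →
      ¬ Filter.Tendsto (fun n => Real.exp (y n) - p n) Filter.atTop (nhds 0) := by
  refine exists_orbit_exp D rfl (by show (-378 : ℝ) < -695 / 2; norm_num) (R := 2000) ?_
  intro x hx h1 h2
  obtain ⟨hb, hc⟩ : |x.2.1 - (-920 - 5 / 3 * x.1)| ≤ 1 / 10 ∧
    |x.2.2 - (-220 + 5 / 3 * x.1)| ≤ 1 / 10 := hx
  have h1' : -394 ≤ x.1 := h1
  have h2' : x.1 ≤ -296 := h2
  obtain ⟨hb1, hb2⟩ := abs_le.1 hb
  obtain ⟨hc1, hc2⟩ := abs_le.1 hc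
  rw [Prod.norm_def, Prod.norm_def]
  refine max_le ?_ (max_le ?_ ?_)
  · rw [Real.norm_eq_abs, abs_le]; constructor <;> linarith
  · rw [Real.norm_eq_abs, abs_le]; constructor <;> linarith
  · rw [Real.norm_eq_abs, abs_le]; constructor <;> linarith

end Q65.Horse415091
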