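import Mathlib

/-!
Stretching along paths: a continuous map which stretches two parts of a tube across the tube has
orbits with all symbolic itineraries.  Application to third order recursions: existence of bounded
solutions which do not converge to a periodic solution.
-/

set_option autoImplicit false

namespace Q65.Horseshoe

open Set Filter Topology

/-- cutting a path at the levels `u < v` -/
lemma cut_up {h : ℝ → ℝ} {p q u v : ℝ} (hpq : p ≤ q) (hc : ContinuousOn h (Icc p q))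
    (huv : u < v) (hp : h p ≤ u) (hq : v ≤ h q) :
    ∃ p' q', p ≤ p' ∧ p' < q' ∧ q' ≤ q ∧ h p' = u ∧ h q' = v ∧
      ∀ r ∈ Icc p' q', u ≤ h r ∧ h r ≤ v := by
  -- the first point with value `≥ v`
  set S : Set ℝ := {r ∈ Icc p q | v ≤ h r} with hS
  have hSne : S.Nonempty := ⟨q, ⟨hpq, le_rfl⟩, hq⟩
  have hSbdd : BddBelow S := ⟨p, fun r hr => hr.1.1⟩
  have hSclosed : IsClosed S := hc.preimage_isClosed_of_isClosed isClosed_Icc isClosed_Ici
  set q' := sInf S with hq'
  have hq'S : q' ∈ S := hSclosed.csInf_mem hSne hSbdd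
  have hbelow : ∀ r ∈ Icc p q, r < q' → h r < v := by
    intro r hr hlt
    by_contra hcon
    push Not at hcon
    exact absurd (csInf_le hSbdd ⟨hr, hcon⟩) (not_le.2 hlt)
  have hpq' : p < q' := by
    rcases eq_or_lt_of_le hq'S.1.1 with h0 | h0
    · exfalso
      have := hq'S.2
      rw [← h0] at this
      linarith
    · exact h0
  -- the last point before with value `≤ u`
  set R : Set ℝ := {r ∈ Icc p q' | h r ≤ u} with hR
  have hcq' : ContinuousOn h (Icc p q') := hc.mono (Icc_subset_Icc le_rfl hq'S.1.2)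
  have hRne : R.Nonempty := ⟨p, ⟨le_rfl, hpq'.le⟩, hp⟩
  have hRbdd : BddAbove R := ⟨q', fun r hr => hr.1.2⟩
  have hRclosed : IsClosed R := hcq'.preimage_isClosed_of_isClosed isClosed_Icc isClosed_Iic
  set p' := sSup R with hp'
  have hp'R : p' ∈ R := hRclosed.csSup_mem hRne hRbdd
  have habove : ∀ r ∈ Icc p q', p' < r → u < h r := by
    intro r hr hlt
    by_contra hcon
    push Not at hcon
    exact absurd (le_csSup hRbdd ⟨hr, hcon⟩) (not_le.2 hlt)
  have hp'q' : p' < q' := by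
    rcases eq_or_lt_of_le hp'R.1.2 with h0 | h0
    · exfalso
      have h1 := hp'R.2
      rw [h0] at h1
      linarith [hq'S.2]
    · exact h0
  have hval_p : h p' = u := by
    refine le_antisymm hp'R.2 ?_
    -- limit from the right
    have hcw : ContinuousWithinAt h (Ioc p' q') p' :=
      (hcq' p' hp'R.1).mono (fun r hr => ⟨hp'R.1.1.trans hr.1.le, hr.2⟩)
    have hne : (𝓝[Ioc p' q'] p').NeBot := by
      rw [← mem_closure_iff_nhdsWithin_neBot, closure_Ioc hp'q'.ne]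
      exact ⟨le_rfl, hp'q'.le⟩
    refine ge_of_tendsto hcw ?_
    filter_upwards [self_mem_nhdsWithin] with r hr
    exact (habove r ⟨hp'R.1.1.trans hr.1.le, hr.2⟩ hr.1).le
  have hval_q : h q' = v := by
    refine le_antisymm ?_ hq'S.2
    have hcw : ContinuousWithinAt h (Ico p' q') q' :=
      (hcq' q' ⟨hpq'.le, le_rfl⟩).mono (fun r hr => ⟨hp'R.1.1.trans hr.1, hr.2.le⟩)
    have hne : (𝓝[Ico p' q'] q').NeBot := by
      rw [← mem_closure_iff_nhdsWithin_neBot, closure_Ico hp'q'.ne]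
      exact ⟨hp'q'.le, le_rfl⟩
    refine le_of_tendsto hcw ?_
    filter_upwards [self_mem_nhdsWithin] with r hr
    exact (hbelow r ⟨hp'R.1.1.trans hr.1, hr.2.le.trans hq'S.1.2⟩ hr.2).le
  refine ⟨p', q', hp'R.1.1, hp'q', hq'S.1.2, hval_p, hval_q, fun r hr => ⟨?_, ?_⟩⟩
  · rcases eq_or_lt_of_le hr.1 with h0 | h0
    · rw [← h0, hval_p]
    · exact (habove r ⟨hp'R.1.1.trans hr.1, hr.2⟩ h0).le
  · rcases eq_or_lt_of_le hr.2 with h0 | h0
    · rw [h0, hval_q]
    · exact (hbelow r ⟨hp'R.1.1.trans hr.1, hr.2.trans hq'S.1.2⟩ h0).le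

lemma cut_down {h : ℝ → ℝ} {p q u v : ℝ} (hpq : p ≤ q) (hc : ContinuousOn h (Icc p q))
    (huv : u < v) (hp : v ≤ h p) (hq : h q ≤ u) :
    ∃ p' q', p ≤ p' ∧ p' < q' ∧ q' ≤ q ∧ h p' = v ∧ h q' = u ∧
      ∀ r ∈ Icc p' q', u ≤ h r ∧ h r ≤ v := by
  obtain ⟨p', q', h1, h2, h3, h4, h5, h6⟩ := cut_up (h := fun r => - h r) hpq hc.neg
    (neg_lt_neg huv) (by simpa using hp) (by simpa using hq)
  refine ⟨p', q', h1, h2, h3, by linarith, by linarith, fun r hr => ?_⟩
  have := h6 r hr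
  constructor <;> linarith [this.1, this.2]

/-- data of a horseshoe for a continuous map `T`; `up i` tells whether the branch `i` preserves the
orientation -/
structure Data {X : Type*} [TopologicalSpace X] (T : X → X) where
  hT : Continuous T
  N : Bool → ℕ
  hN : ∀ i, 0 < N i
  Tube : Set X
  τ : X → ℝ
  hτ : Continuous τ
  t0 : ℝ
  t1 : ℝ
  u : Bool → ℝ
  v : Bool → ℝ
  up : Bool → Prop
  h0 : ∀ i, t0 ≤ u i
  h1 : ∀ i, v i ≤ t1
  huv : ∀ i, u i < v i
  tube : ∀ i, ∀ x ∈ Tube, u i ≤ τ x → τ x ≤ v i → T^[N i] x ∈ Tube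
  lo : ∀ i, up i → (∀ x ∈ Tube, τ x = u i → τ (T^[N i] x) ≤ t0) ∧
    (∀ x ∈ Tube, τ x = v i → t1 ≤ τ (T^[N i] x))
  hi : ∀ i, ¬ up i → (∀ x ∈ Tube, τ x = u i → t1 ≤ τ (T^[N i] x)) ∧
    (∀ x ∈ Tube, τ x = v i → τ (T^[N i] x) ≤ t0)
  g : ℝ → X
  hg : Continuous g
  gtube : ∀ r ∈ Icc (0 : ℝ) 1, g r ∈ Tube
  g0 : τ (g 0) ≤ t0
  g1 : t1 ≤ τ (g 1)

variable {X : Type*} [TopologicalSpace X] {T : X → X}

/-- the visiting times -/
def Data.time (D : Data T) (s : ℕ → Bool) : ℕ → ℕ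
  | 0 => 0
  | k + 1 => D.time s k + D.N (s k)

/-- the path is stretched across the tube at stage `k` on `[p, q]` -/
def Data.Good (D : Data T) (s : ℕ → Bool) (k : ℕ) (p q : ℝ) : Prop :=
  p < q ∧ (∀ r ∈ Icc p q, T^[D.time s k] (D.g r) ∈ D.Tube) ∧
    ((D.τ (T^[D.time s k] (D.g p)) ≤ D.t0 ∧ D.t1 ≤ D.τ (T^[D.time s k] (D.g q))) ∨
      (D.t1 ≤ D.τ (T^[D.time s k] (D.g p)) ∧ D.τ (T^[D.time s k] (D.g q)) ≤ D.t0))

lemma Data.good_zero (D : Data T) (s : ℕ → Bool) : D.Good s 0 0 1 :=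
  ⟨one_pos, fun r hr => D.gtube r hr, Or.inl ⟨D.g0, D.g1⟩⟩

lemma Data.good_succ (D : Data T) (s : ℕ → Bool) {k : ℕ} {p q : ℝ} (h : D.Good s k p q) :
    ∃ p' q', p ≤ p' ∧ q' ≤ q ∧ D.Good s (k + 1) p' q' ∧
      ∀ r ∈ Icc p' q', D.u (s k) ≤ D.τ (T^[D.time s k] (D.g r)) ∧
        D.τ (T^[D.time s k] (D.g r)) ≤ D.v (s k) := by
  obtain ⟨hpq, htube, hends⟩ := h
  set F : ℝ → ℝ := fun r => D.τ (T^[D.time s k] (D.g r)) with hF
  have hFc : ContinuousOn F (Icc p q) :=
    (D.hτ.comp ((D.hT.iterate _).comp D.hg)).continuousOn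
  have hstep : ∀ r, T^[D.time s (k + 1)] (D.g r) = T^[D.N (s k)] (T^[D.time s k] (D.g r)) := by
    intro r
    rw [← Function.iterate_add_apply, add_comm (D.N (s k))]
    rfl
  -- the cut
  obtain ⟨p', q', hp', hlt, hq', hvals, hin⟩ : ∃ p' q', p ≤ p' ∧ p' < q' ∧ q' ≤ q ∧
      ((F p' = D.u (s k) ∧ F q' = D.v (s k)) ∨ (F p' = D.v (s k) ∧ F q' = D.u (s k))) ∧
      ∀ r ∈ Icc p' q', D.u (s k) ≤ F r ∧ F r ≤ D.v (s k) := by
    rcases hends with ⟨e1, e2⟩ | ⟨e1, e2⟩
    · obtain ⟨p', q', h1, h2, h3, h4, h5, h6⟩ := cut_up hpq.le hFc (D.huv (s k))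
        (e1.trans (D.h0 _)) ((D.h1 _).trans e2)
      exact ⟨p', q', h1, h2, h3, Or.inl ⟨h4, h5⟩, h6⟩
    · obtain ⟨p', q', h1, h2, h3, h4, h5, h6⟩ := cut_down hpq.le hFc (D.huv (s k))
        ((D.h1 _).trans e1) (e2.trans (D.h0 _))
      exact ⟨p', q', h1, h2, h3, Or.inr ⟨h4, h5⟩, h6⟩
  have hsub : ∀ r ∈ Icc p' q', r ∈ Icc p q := fun r hr => ⟨hp'.trans hr.1, hr.2.trans hq'⟩
  have hmemp : p' ∈ Icc p' q' := ⟨le_rfl, hlt.le⟩
  have hmemq : q' ∈ Icc p' q' := ⟨hlt.le, le_rfl⟩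
  refine ⟨p', q', hp', hq', ⟨hlt, fun r hr => ?_, ?_⟩, hin⟩
  · rw [hstep]
    exact D.tube (s k) _ (htube r (hsub r hr)) (hin r hr).1 (hin r hr).2
  · rw [hstep, hstep]
    have tp := htube p' (hsub p' hmemp)
    have tq := htube q' (hsub q' hmemq)
    by_cases hup : D.up (s k)
    · obtain ⟨l1, l2⟩ := D.lo (s k) hup
      rcases hvals with ⟨e1, e2⟩ | ⟨e1, e2⟩
      · exact Or.inl ⟨l1 _ tp e1, l2 _ tq e2⟩
      · exact Or.inr ⟨l2 _ tp e1, l1 _ tq e2⟩
    · obtain ⟨l1, l2⟩ := D.hi (s k) hup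
      rcases hvals with ⟨e1, e2⟩ | ⟨e1, e2⟩
      · exact Or.inr ⟨l1 _ tp e1, l2 _ tq e2⟩
      · exact Or.inl ⟨l2 _ tp e1, l1 _ tq e2⟩

/-- **Every itinerary is realized.** -/
theorem Data.itinerary (D : Data T) (s : ℕ → Bool) : ∃ x ∈ D.Tube, ∀ k,
    T^[D.time s k] x ∈ D.Tube ∧ D.u (s k) ≤ D.τ (T^[D.time s k] x) ∧
      D.τ (T^[D.time s k] x) ≤ D.v (s k) := by
  classical
  -- nested intervals
  choose! P Q hP hQ hgood hin using fun (k : ℕ) (p q : ℝ) (h : D.Good s k p q) => D.good_succ s h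
  let I : ℕ → ℝ × ℝ := fun k => Nat.rec (0, 1) (fun k pq => (P k pq.1 pq.2, Q k pq.1 pq.2)) k
  have hI0 : I 0 = (0, 1) := rfl
  have hIs : ∀ k, I (k + 1) = (P k (I k).1 (I k).2, Q k (I k).1 (I k).2) := fun k => rfl
  have hIgood : ∀ k, D.Good s k (I k).1 (I k).2 := by
    intro k
    induction k with
    | zero => exact D.good_zero s
    | succ k ih => rw [hIs]; exact hgood k _ _ ih
  have hsub : ∀ k, Icc (I (k + 1)).1 (I (k + 1)).2 ⊆ Icc (I k).1 (I k).2 := by
    intro k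
    rw [hIs]
    exact Icc_subset_Icc (hP k _ _ (hIgood k)) (hQ k _ _ (hIgood k))
  obtain ⟨r, hr⟩ : (⋂ k, Icc (I k).1 (I k).2).Nonempty :=
    IsCompact.nonempty_iInter_of_sequence_nonempty_isCompact_isClosed
      (fun k => Icc (I k).1 (I k).2) hsub (fun k => nonempty_Icc.2 (hIgood k).1.le) isCompact_Icc
      (fun k => isClosed_Icc)
  rw [mem_iInter] at hr
  refine ⟨D.g r, D.gtube r (hr 0), fun k => ⟨(hIgood k).2.1 r (hr k), ?_⟩⟩
  have h1 := hr (k + 1)
  rw [hIs] at h1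
  exact hin k _ _ (hIgood k) r h1

/-! ### itineraries of solutions which converge to periodic solutions -/

/-- an itinerary that can be read off from a function which is asymptotically periodic is
eventually periodic -/
lemma eventually_periodic {φ ψ : ℕ → ℝ} {k : ℕ} (hk : 0 < k) (hψ : ∀ n, ψ (n + k) = ψ n)
    (hlim : Tendsto (fun n => φ n - ψ n) atTop (𝓝 0)) {s : ℕ → Bool} {t : ℕ → ℕ} {N : Bool → ℕ}
    (hN : ∀ i, 0 < N i) (ht : ∀ j, t (j + 1) = t j + N (s j)) {a b : ℝ} (hab : a < b)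
    (hfalse : ∀ j, s j = false → φ (t j) ≤ a) (htrue : ∀ j, s j = true → b ≤ φ (t j)) :
    ∃ j0 m : ℕ, 0 < m ∧ ∀ j, j0 ≤ j → s (j + m) = s j := by
  have hψmod : ∀ n, ψ (n % k) = ψ n := by
    intro n
    have : ∀ l, ψ (n % k + k * l) = ψ (n % k) := by
      intro l
      induction l with
      | zero => rfl
      | succ l ih => rw [Nat.mul_succ, ← add_assoc, hψ, ih]
    rw [← this (n / k), Nat.mod_add_div]
  have htge : ∀ j, j ≤ t j := by
    intro j
    induction j with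
    | zero => exact Nat.zero_le _
    | succ j ih => rw [ht]; have := hN (s j); omega
  -- the symbols are determined by the residues
  obtain ⟨n0, hn0⟩ := (Metric.tendsto_atTop.1 hlim) ((b - a) / 2) (by linarith)
  have hdet : ∀ i j, n0 ≤ i → n0 ≤ j → t i % k = t j % k → s i = s j := by
    intro i j hi hj hmod
    have hψij : ψ (t i) = ψ (t j) := by rw [← hψmod, hmod, hψmod]
    have h1 := hn0 (t i) (hi.trans (htge i))
    have h2 := hn0 (t j) (hj.trans (htge j))
    rw [Real.dist_eq, sub_zero, abs_lt] at h1 h2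
    cases hsi : s i <;> cases hsj : s j
    · rfl
    · exfalso
      have h3 := hfalse i hsi
      have h4 := htrue j hsj
      linarith [h1.1, h2.2]
    · exfalso
      have h3 := htrue i hsi
      have h4 := hfalse j hsj
      linarith [h1.2, h2.1]
    · rfl
  -- pigeonhole
  have hfin : ∃ i j, n0 ≤ i ∧ i < j ∧ t i % k = t j % k := by
    by_contra hcon
    push Not at hcon
    have hinj : Function.Injective (fun i : Fin (k + 1) => (⟨t (n0 + i) % k, Nat.mod_lt _ hk⟩ : Fin k)) := by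
      intro i j hij
      have hij' : t (n0 + i) % k = t (n0 + j) % k := congrArg Fin.val hij
      rcases lt_trichotomy i j with h | h | h
      · exact absurd hij' (hcon _ _ (Nat.le_add_right _ _) (by have : (i : ℕ) < j := h; omega))
      · exact h
      · exact absurd hij'.symm (hcon _ _ (Nat.le_add_right _ _) (by have : (j : ℕ) < i := h; omega))
    have := Fintype.card_le_of_injective _ hinj
    simp at this
  obtain ⟨i, j, hi, hij, hmod⟩ := hfin
  refine ⟨i, j - i, by omega, ?_⟩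
  have key : ∀ l, t (i + l) % k = t (j + l) % k ∧ s (i + l) = s (j + l) := by
    intro l
    induction l with
    | zero => exact ⟨hmod, hdet _ _ hi (by omega) hmod⟩
    | succ l ih =>
      have h1 : t (i + (l + 1)) % k = t (j + (l + 1)) % k := by
        rw [← add_assoc, ← add_assoc, ht, ht, Nat.add_mod, ih.1, ih.2, ← Nat.add_mod]
      exact ⟨h1, hdet _ _ (by omega) (by omega) h1⟩
  intro l hl
  have := (key (l - i)).2
  rw [show i + (l - i) = l by omega, show j + (l - i) = l + (j - i) by omega] at this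
  exact this.symm

/-- a sequence of symbols which is not eventually periodic -/
def sq (j : ℕ) : Bool := decide (∃ i, i ≤ j ∧ i * i = j)

lemma sq_not : ¬ ∃ j0 m : ℕ, 0 < m ∧ ∀ j, j0 ≤ j → sq (j + m) = sq j := by
  rintro ⟨j0, m, hm, h⟩
  have h1 := h ((j0 + m) * (j0 + m)) (by nlinarith)
  have h2 : sq ((j0 + m) * (j0 + m)) = true := by
    unfold sq
    rw [decide_eq_true_iff]
    exact ⟨j0 + m, by nlinarith, rfl⟩
  rw [h2] at h1
  unfold sq at h1
  rw [decide_eq_true_iff] at h1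
  obtain ⟨i, -, hi⟩ := h1
  have h3 : j0 + m < i := by
    by_contra hcon
    push Not at hcon
    nlinarith
  nlinarith

/-! ### third order recursions -/

/-- the map of the recursion `y (n + 3) = G (y n, y (n + 1), y (n + 2))` -/
def Tm (G : ℝ × ℝ × ℝ → ℝ) (x : ℝ × ℝ × ℝ) : ℝ × ℝ × ℝ := (x.2.1, x.2.2, G x)

/-- the orbit as a sequence -/
def orb (G : ℝ × ℝ × ℝ → ℝ) (x : ℝ × ℝ × ℝ) (n : ℕ) : ℝ := ((Tm G)^[n] x).1

lemma iterate_eq (G : ℝ × ℝ × ℝ → ℝ) (x : ℝ × ℝ × ℝ) (n : ℕ) :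
    (Tm G)^[n] x = (orb G x n, orb G x (n + 1), orb G x (n + 2)) := by
  unfold orb
  rw [Function.iterate_succ_apply' (Tm G) (n + 1), Function.iterate_succ_apply']
  rfl

lemma orb_rec (G : ℝ × ℝ × ℝ → ℝ) (x : ℝ × ℝ × ℝ) (n : ℕ) :
    orb G x (n + 3) = G (orb G x n, orb G x (n + 1), orb G x (n + 2)) := by
  rw [← iterate_eq]
  show ((Tm G)^[n + 1 + 1 + 1] x).1 = _
  rw [Function.iterate_succ_apply', Function.iterate_succ_apply', Function.iterate_succ_apply']
  rfl

lemma orb_shift (G : ℝ × ℝ × ℝ → ℝ) (x : ℝ × ℝ × ℝ) (n m : ℕ) :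
    orb G ((Tm G)^[n] x) m = orb G x (n + m) := by
  unfold orb
  rw [← Function.iterate_add_apply, add_comm]

lemma continuous_Tm {G : ℝ × ℝ × ℝ → ℝ} (hG : Continuous G) : Continuous (Tm G) := by
  unfold Tm
  fun_prop

theorem exists_orbit {G : ℝ × ℝ × ℝ → ℝ} (D : Data (Tm G)) (hτ : D.τ = Prod.fst)
    (hgap : D.v false < D.u true) {R : ℝ}
    (hR : ∀ x ∈ D.Tube, D.t0 ≤ x.1 → x.1 ≤ D.t1 → ‖x‖ ≤ R) :
    ∃ y : ℕ → ℝ, (∀ n, y (n + 3) = G (y n, y (n + 1), y (n + 2))) ∧ (∃ B, ∀ n, |y n| ≤ B) ∧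
      ∀ (p : ℕ → ℝ) (k : ℕ), 0 < k → (∀ n, p (n + k) = p n) →
        ¬ Tendsto (fun n => y n - p n) atTop (𝓝 0) := by
  obtain ⟨x, hx, hit⟩ := D.itinerary sq
  refine ⟨orb G x, orb_rec G x, ?_, ?_⟩
  · -- boundedness
    have hcomp : ∀ m, ∃ B, ∀ z : ℝ × ℝ × ℝ, ‖z‖ ≤ R → |orb G z m| ≤ B := by
      intro m
      have hc : Continuous (fun z => |orb G z m|) :=
        (continuous_fst.comp (D.hT.iterate m)).abs
      obtain ⟨B, hB⟩ := (isCompact_closedBall (0 : ℝ × ℝ × ℝ) R).exists_bound_of_continuousOn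
        hc.continuousOn
      refine ⟨B, fun z hz => ?_⟩
      have := hB z (by simpa using hz)
      simpa using this
    choose B hB using hcomp
    set M := max (D.N false) (D.N true) with hM
    have hNM : ∀ i, D.N i ≤ M := by
      intro i
      cases i
      · exact le_max_left _ _
      · exact le_max_right _ _
    refine ⟨∑ m ∈ Finset.range M, |B m|, fun n => ?_⟩
    -- the last visiting time before `n`
    have hle : ∀ j, j ≤ D.time sq j := by
      intro j
      induction j with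
      | zero => exact Nat.zero_le _
      | succ j ih =>
        have h1 : D.time sq (j + 1) = D.time sq j + D.N (sq j) := rfl
        have := D.hN (sq j)
        omega
    obtain ⟨j, hj1, hj2⟩ : ∃ j, D.time sq j ≤ n ∧ n < D.time sq (j + 1) := by
      have hex : ∃ j, n < D.time sq j := ⟨n + 1, lt_of_lt_of_le (Nat.lt_succ_self n) (hle _)⟩
      classical
      have h1 := Nat.find_spec hex
      have h2 : Nat.find hex ≠ 0 := by
        intro h0
        rw [h0] at h1
        exact absurd h1 (Nat.not_lt_zero _)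
      obtain ⟨j, hj⟩ := Nat.exists_eq_succ_of_ne_zero h2
      refine ⟨j, ?_, ?_⟩
      · have := Nat.find_min hex (m := j) (by omega)
        omega
      · rw [hj] at h1
        exact h1
    have hlt : n - D.time sq j < M := by
      have h1 : D.time sq (j + 1) = D.time sq j + D.N (sq j) := rfl
      have := hNM (sq j)
      omega
    obtain ⟨h3, h4, h5⟩ := hit j
    rw [hτ] at h4 h5
    have h6 := hR _ h3 ((D.h0 _).trans h4) (h5.trans (D.h1 _))
    have h7 := hB (n - D.time sq j) _ h6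
    rw [orb_shift, Nat.add_sub_cancel' hj1] at h7
    exact h7.trans ((le_abs_self _).trans
      (Finset.single_le_sum (f := fun m => |B m|) (fun _ _ => abs_nonneg _)
        (Finset.mem_range.2 hlt)))
  · intro p k hk hp hlim
    refine sq_not (eventually_periodic hk hp hlim D.hN (t := D.time sq) (fun _ => rfl) hgap ?_ ?_)
    · intro j hj
      have := (hit j).2.2
      rw [hτ, hj] at this
      exact this
    · intro j hj
      have := (hit j).2.1
      rw [hτ, hj] at this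
      exact this

/-- passing to exponentials -/
theorem exists_orbit_exp {G : ℝ × ℝ × ℝ → ℝ} (D : Data (Tm G)) (hτ : D.τ = Prod.fst)
    (hgap : D.v false < D.u true) {R : ℝ}
    (hR : ∀ x ∈ D.Tube, D.t0 ≤ x.1 → x.1 ≤ D.t1 → ‖x‖ ≤ R) :
    ∃ y : ℕ → ℝ, (∀ n, y (n + 3) = G (y n, y (n + 1), y (n + 2))) ∧
      (∃ B, ∀ n, Real.exp (y n) ≤ B) ∧
      ∀ (p : ℕ → ℝ) (k : ℕ), 0 < k → (∀ n, p (n + k) = p n) →
        ¬ Tendsto (fun n => Real.exp (y n) - p n) atTop (𝓝 0) := by
  obtain ⟨y, h1, ⟨B, hB⟩, h3⟩ := exists_orbit D hτ hgap hR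
  refine ⟨y, h1, ⟨Real.exp B, fun n => Real.exp_le_exp.2 ((le_abs_self _).trans (hB n))⟩, ?_⟩
  intro p k hk hp hlim
  -- lower bound for `p`
  have hlow : ∀ n, Real.exp (-B) ≤ p n := by
    intro n
    have hpk : ∀ j, p (n + k * j) = p n := by
      intro j
      induction j with
      | zero => rfl
      | succ j ih => rw [Nat.mul_succ, ← add_assoc, hp, ih]
    have hsub : Tendsto (fun j => n + k * j) atTop atTop :=
      tendsto_atTop_mono (fun j => le_trans (Nat.le_mul_of_pos_left j hk) (Nat.le_add_left _ _))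
        tendsto_id
    have h4 := hlim.comp hsub
    have h5 : Tendsto (fun j => Real.exp (y (n + k * j)) ) atTop (𝓝 (p n)) := by
      have h6 : Tendsto (fun j => (Real.exp (y (n + k * j)) - p (n + k * j)) + p n) atTop
          (𝓝 (0 + p n)) := h4.add_const _
      rw [zero_add] at h6
      refine h6.congr (fun j => ?_)
      rw [hpk]
      ring
    refine ge_of_tendsto' h5 (fun j => Real.exp_le_exp.2 ?_)
    have := (abs_le.1 (hB (n + k * j))).1
    exact this
  have hpos : ∀ n, 0 < p n := fun n => lt_of_lt_of_le (Real.exp_pos _) (hlow n)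
  refine h3 (fun n => Real.log (p n)) k hk (fun n => by rw [hp]) ?_
  -- `|log x - log p| ≤ |x - p| / δ`
  have hδ := Real.exp_pos (-B)
  have hx : ∀ n, Real.exp (-B) ≤ Real.exp (y n) := fun n =>
    Real.exp_le_exp.2 (abs_le.1 (hB n)).1
  have hle : ∀ n, |y n - Real.log (p n)| ≤ |Real.exp (y n) - p n| / Real.exp (-B) := by
    intro n
    have e1 : y n = Real.log (Real.exp (y n)) := (Real.log_exp _).symm
    have key : ∀ a b : ℝ, Real.exp (-B) ≤ a → Real.exp (-B) ≤ b →
        Real.log a - Real.log b ≤ |a - b| / Real.exp (-B) := by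
      intro a b ha hb
      have ha' : 0 < a := lt_of_lt_of_le hδ ha
      have hb' : 0 < b := lt_of_lt_of_le hδ hb
      rw [← Real.log_div ha'.ne' hb'.ne']
      have h4 := Real.log_le_sub_one_of_pos (div_pos ha' hb')
      have h5 : a / b - 1 = (a - b) / b := by field_simp
      rw [h5] at h4
      refine h4.trans ?_
      refine (div_le_div_of_nonneg_right (le_abs_self _) hb'.le).trans ?_
      exact div_le_div_of_nonneg_left (abs_nonneg _) hδ hb
    rw [abs_le]
    constructor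
    · have := key (p n) (Real.exp (y n)) (hlow n) (hx n)
      rw [Real.log_exp, abs_sub_comm] at this
      linarith
    · have := key (Real.exp (y n)) (p n) (hx n) (hlow n)
      rw [Real.log_exp] at this
      exact this
  refine squeeze_zero_norm (a := fun n => |Real.exp (y n) - p n| / Real.exp (-B)) hle ?_
  have := (hlim.abs).div_const (Real.exp (-B))
  simpa using this

end Q65.Horseshoe
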