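import Mathlib

/-!
Averages over sign vectors: the operator `E`, flips of one coordinate, second and fourth moments
of weighted sign sums, and the first absolute moment.
-/

set_option autoImplicit false

namespace Q65.KH

open Finset

/-- the sign coded by a Boolean -/
def sg (b : Bool) : ℝ := if b then 1 else -1

lemma sg_sq (b : Bool) : sg b ^ 2 = 1 := by cases b <;> simp [sg]

lemma sg_mul_self (b : Bool) : sg b * sg b = 1 := by cases b <;> simp [sg]

lemma sg_not (b : Bool) : sg (!b) = -sg b := by cases b <;> simp [sg]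

lemma abs_sg (b : Bool) : |sg b| = 1 := by cases b <;> simp [sg]

/-- the average over all sign vectors -/
noncomputable def E {n : ℕ} (f : (Fin n → Bool) → ℝ) : ℝ := (∑ ε : Fin n → Bool, f ε) / 2 ^ n

/-- flip coordinate `i` -/
def flip {n : ℕ} (i : Fin n) (ε : Fin n → Bool) : Fin n → Bool := Function.update ε i (!ε i)

lemma flip_flip {n : ℕ} (i : Fin n) (ε : Fin n → Bool) : flip i (flip i ε) = ε := by
  unfold flip
  funext j
  by_cases h : j = i
  · subst h; simp
  · simp [Function.update_of_ne h]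

lemma flip_same {n : ℕ} (i : Fin n) (ε : Fin n → Bool) : flip i ε i = !ε i := by
  simp [flip]

lemma flip_ne {n : ℕ} {i j : Fin n} (h : j ≠ i) (ε : Fin n → Bool) : flip i ε j = ε j := by
  simp [flip, Function.update_of_ne h]

/-- flipping as a permutation of the sign vectors -/
def flipE {n : ℕ} (i : Fin n) : (Fin n → Bool) ≃ (Fin n → Bool) where
  toFun := flip i
  invFun := flip i
  left_inv := flip_flip i
  right_inv := flip_flip i

lemma E_flip {n : ℕ} (i : Fin n) (f : (Fin n → Bool) → ℝ) : E (fun ε => f (flip i ε)) = E f := by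
  unfold E
  congr 1
  exact Fintype.sum_equiv (flipE i) _ _ (fun ε => rfl)

lemma E_add {n : ℕ} (f g : (Fin n → Bool) → ℝ) : E (fun ε => f ε + g ε) = E f + E g := by
  unfold E; rw [sum_add_distrib, add_div]

lemma E_sub {n : ℕ} (f g : (Fin n → Bool) → ℝ) : E (fun ε => f ε - g ε) = E f - E g := by
  unfold E; rw [sum_sub_distrib, sub_div]

lemma E_mul {n : ℕ} (c : ℝ) (f : (Fin n → Bool) → ℝ) : E (fun ε => c * f ε) = c * E f := by
  unfold E; rw [← mul_sum, mul_div_assoc]

lemma E_const {n : ℕ} (c : ℝ) : E (fun _ : Fin n → Bool => c) = c := by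
  unfold E
  simp

lemma E_sum {n : ℕ} {ι : Type*} (s : Finset ι) (f : ι → (Fin n → Bool) → ℝ) :
    E (fun ε => ∑ i ∈ s, f i ε) = ∑ i ∈ s, E (f i) := by
  unfold E
  rw [sum_comm, sum_div]

lemma E_mono {n : ℕ} {f g : (Fin n → Bool) → ℝ} (h : ∀ ε, f ε ≤ g ε) : E f ≤ E g := by
  unfold E
  exact div_le_div_of_nonneg_right (sum_le_sum fun ε _ => h ε) (by positivity)

lemma E_nonneg {n : ℕ} {f : (Fin n → Bool) → ℝ} (h : ∀ ε, 0 ≤ f ε) : 0 ≤ E f := by
  unfold E
  exact div_nonneg (sum_nonneg fun ε _ => h ε) (by positivity)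

lemma E_half {n : ℕ} (i : Fin n) (f : (Fin n → Bool) → ℝ) :
    E f = E (fun ε => (f ε + f (flip i ε)) / 2) := by
  have h1 : E (fun ε => (f ε + f (flip i ε)) / 2) = (E f + E f) / 2 := by
    have : (fun ε => (f ε + f (flip i ε)) / 2) = fun ε => (1 / 2 : ℝ) * (f ε + f (flip i ε)) := by
      funext ε; ring
    rw [this, E_mul, E_add, E_flip]; ring
  rw [h1]; ring

/-- comparison after averaging over one flip -/
lemma E_mono_flip {n : ℕ} (i : Fin n) {f g : (Fin n → Bool) → ℝ}
    (h : ∀ ε, f ε + f (flip i ε) ≤ g ε + g (flip i ε)) : E f ≤ E g := by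
  rw [E_half i f, E_half i g]
  exact E_mono fun ε => by linarith [h ε]

lemma single_le {n : ℕ} {f : (Fin n → Bool) → ℝ} (h : ∀ ε, 0 ≤ f ε) (ε₀ : Fin n → Bool) :
    f ε₀ / 2 ^ n ≤ E f := by
  unfold E
  exact div_le_div_of_nonneg_right (single_le_sum (fun ε _ => h ε) (mem_univ ε₀)) (by positivity)

/-- weighted sign sum -/
noncomputable def S {n : ℕ} (c : Fin n → ℝ) (ε : Fin n → Bool) : ℝ := ∑ i, c i * sg (ε i)

lemma partial_flip {n : ℕ} (c : Fin n → ℝ) (s : Finset (Fin n)) {i : Fin n} (hi : i ∉ s)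
    (ε : Fin n → Bool) : ∑ j ∈ s, c j * sg (flip i ε j) = ∑ j ∈ s, c j * sg (ε j) := by
  refine sum_congr rfl fun j hj => ?_
  have hne : j ≠ i := fun h => hi (by rw [← h]; exact hj)
  rw [flip_ne hne]

lemma moment_two_aux {n : ℕ} (c : Fin n → ℝ) (s : Finset (Fin n)) :
    E (fun ε => (∑ j ∈ s, c j * sg (ε j)) ^ 2) = ∑ j ∈ s, c j ^ 2 := by
  classical
  induction s using Finset.induction_on with
  | empty => simp [E_const]
  | insert i s hi ih =>
    rw [sum_insert hi, E_half i]
    have : (fun ε : Fin n → Bool => ((∑ j ∈ insert i s, c j * sg (ε j)) ^ 2 +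
        (∑ j ∈ insert i s, c j * sg (flip i ε j)) ^ 2) / 2) =
        fun ε => c i ^ 2 + (∑ j ∈ s, c j * sg (ε j)) ^ 2 := by
      funext ε
      rw [sum_insert hi, sum_insert hi, partial_flip c s hi, flip_same, sg_not]
      have := sg_sq (ε i)
      linear_combination (c i ^ 2) * this
    rw [this, E_add, E_const, ih]

lemma moment_four_aux {n : ℕ} (c : Fin n → ℝ) (s : Finset (Fin n)) :
    E (fun ε => (∑ j ∈ s, c j * sg (ε j)) ^ 4) ≤ 3 * (∑ j ∈ s, c j ^ 2) ^ 2 := by
  classical
  induction s using Finset.induction_on with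
  | empty => simp [E_const]
  | insert i s hi ih =>
    rw [sum_insert hi, E_half i]
    have : (fun ε : Fin n → Bool => ((∑ j ∈ insert i s, c j * sg (ε j)) ^ 4 +
        (∑ j ∈ insert i s, c j * sg (flip i ε j)) ^ 4) / 2) =
        fun ε => (c i ^ 4 + 6 * c i ^ 2 * (∑ j ∈ s, c j * sg (ε j)) ^ 2) +
          (∑ j ∈ s, c j * sg (ε j)) ^ 4 := by
      funext ε
      rw [sum_insert hi, sum_insert hi, partial_flip c s hi, flip_same, sg_not]
      have h2 := sg_sq (ε i)
      have h4 : sg (ε i) ^ 4 = 1 := by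
        have : sg (ε i) ^ 4 = (sg (ε i) ^ 2) ^ 2 := by ring
        rw [this, h2]; norm_num
      linear_combination (c i ^ 4) * h4 + 6 * c i ^ 2 * (∑ j ∈ s, c j * sg (ε j)) ^ 2 * h2
    rw [this, E_add, E_add, E_const, E_mul, moment_two_aux]
    have hs : 0 ≤ ∑ j ∈ s, c j ^ 2 := sum_nonneg fun j _ => sq_nonneg _
    nlinarith [sq_nonneg (c i ^ 2), mul_nonneg (sq_nonneg (c i)) hs]

lemma moment_two {n : ℕ} (c : Fin n → ℝ) : E (fun ε => S c ε ^ 2) = ∑ j, c j ^ 2 :=
  moment_two_aux c univ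

lemma moment_four {n : ℕ} (c : Fin n → ℝ) : E (fun ε => S c ε ^ 4) ≤ 3 * (∑ j, c j ^ 2) ^ 2 :=
  moment_four_aux c univ

/-- lower bound for the first absolute moment -/
lemma moment_one_lower {n : ℕ} (c : Fin n → ℝ) :
    3 / 4 * (∑ j, c j ^ 2) - 3 / 16 * (∑ j, c j ^ 2) ^ 2 ≤ E (fun ε => |S c ε|) := by
  have h1 : ∀ y : ℝ, 3 / 4 * y ^ 2 - 1 / 16 * y ^ 4 ≤ |y| := by
    intro y
    have h : 0 ≤ |y| * ((|y| - 2) ^ 2 * (|y| + 4)) := by positivity
    have h2 : y ^ 2 = |y| ^ 2 := (sq_abs y).symm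
    have h4 : y ^ 4 = |y| ^ 4 := by
      have : y ^ 4 = (y ^ 2) ^ 2 := by ring
      rw [this, h2]; ring
    rw [h2, h4]
    nlinarith [h]
  have h2 := E_mono (n := n) fun ε => h1 (S c ε)
  have h3 : E (fun ε : Fin n → Bool => 3 / 4 * S c ε ^ 2 - 1 / 16 * S c ε ^ 4) =
      3 / 4 * (∑ j, c j ^ 2) - 1 / 16 * E (fun ε => S c ε ^ 4) := by
    rw [E_sub, E_mul, E_mul, moment_two]
  rw [h3] at h2
  linarith [moment_four c]

/-- upper bound for the first absolute moment -/
lemma moment_one_upper {n : ℕ} (c : Fin n → ℝ) {l : ℝ} (hl : 0 < l) :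
    E (fun ε => |S c ε|) ≤ ((∑ j, c j ^ 2) / l + l) / 2 := by
  have h1 : ∀ y : ℝ, |y| ≤ 1 / (2 * l) * y ^ 2 + l / 2 := by
    intro y
    have h : 0 ≤ (|y| - l) ^ 2 / (2 * l) := by positivity
    have h2 : (|y| - l) ^ 2 / (2 * l) = 1 / (2 * l) * y ^ 2 + l / 2 - |y| := by
      rw [sub_sq, sq_abs]; field_simp; ring
    linarith
  have h2 := E_mono (n := n) fun ε => h1 (S c ε)
  rw [E_add, E_mul, E_const, moment_two] at h2
  have : 1 / (2 * l) * (∑ j, c j ^ 2) + l / 2 = ((∑ j, c j ^ 2) / l + l) / 2 := by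
    field_simp
  linarith

/-- the sign sum with coordinate `i` singled out -/
lemma S_flip {n : ℕ} (c : Fin n → ℝ) (i : Fin n) (ε : Fin n → Bool) :
    S c (flip i ε) = S c ε - 2 * c i * sg (ε i) := by
  classical
  unfold S
  rw [← Finset.add_sum_erase _ _ (mem_univ i), ← Finset.add_sum_erase _ _ (mem_univ i)]
  have h := partial_flip c (univ.erase i) (notMem_erase i univ) ε
  rw [h, flip_same, sg_not]
  ring

/-- there is a choice of signs with a small sum -/
lemma exists_small {n : ℕ} (c : Fin n → ℝ) {β : ℝ} (hβ : 0 ≤ β) (h0 : ∀ i, 0 ≤ c i)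
    (h : ∀ i, c i ≤ β) : ∃ ε : Fin n → Bool, |S c ε| ≤ β := by
  classical
  have key : ∀ s : Finset (Fin n), ∃ ε : Fin n → Bool, |∑ j ∈ s, c j * sg (ε j)| ≤ β := by
    intro s
    induction s using Finset.induction_on with
    | empty => exact ⟨fun _ => true, by simpa using hβ⟩
    | insert i s hi ih =>
      obtain ⟨ε, hε⟩ := ih
      have h1 : ∀ b : Bool, ∑ j ∈ insert i s, c j * sg (Function.update ε i b j) =
          c i * sg b + ∑ j ∈ s, c j * sg (ε j) := by
        intro b
        rw [sum_insert hi]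
        congr 1
        · simp
        · refine sum_congr rfl fun j hj => ?_
          have hne : j ≠ i := fun h => hi (by rw [← h]; exact hj)
          rw [Function.update_of_ne hne]
      rw [abs_le] at hε
      by_cases hs : 0 ≤ ∑ j ∈ s, c j * sg (ε j)
      · refine ⟨Function.update ε i false, ?_⟩
        have e1 : sg false = -1 := by simp [sg]
        rw [h1, abs_le, e1]
        constructor <;> nlinarith [h0 i, h i, hε.1, hε.2, hs]
      · refine ⟨Function.update ε i true, ?_⟩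
        have e1 : sg true = 1 := by simp [sg]
        rw [h1, abs_le, e1]
        push Not at hs
        constructor <;> nlinarith [h0 i, h i, hε.1, hε.2, hs]
  exact key univ

end Q65.KH
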