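import Pool.Agent.Q65.KHa

/-!
The comparison of two coordinates: for the gradient of the third absolute moment of a weighted
sign sum in the squared weights.
-/

set_option autoImplicit false

namespace Q65.KH

open Finset

/-- `s |s|` -/
def hh (s : ℝ) : ℝ := s * |s|

lemma hh_of_nonneg {s : ℝ} (h : 0 ≤ s) : hh s = s ^ 2 := by
  unfold hh; rw [abs_of_nonneg h]; ring

lemma hh_neg (s : ℝ) : hh (-s) = -hh s := by
  unfold hh; rw [abs_neg]; ring

/-- truncated linear kernel -/
noncomputable def uu (p z : ℝ) : ℝ := max 0 (1 - |z| / p)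

lemma uu_nonneg (p z : ℝ) : 0 ≤ uu p z := le_max_left _ _

lemma kk_ineq {p q z : ℝ} (hp : 0 < p) (hq : 0 ≤ q) (hqp : q ≤ p) (hz : 0 ≤ z) :
    2 * q * (p - q) * p * uu p z ^ 2 ≤
      q * (hh (p + z) + hh (p - z)) - p * (hh (q + z) + hh (q - z)) := by
  have e1 : hh (p + z) = (p + z) ^ 2 := hh_of_nonneg (by linarith)
  have e2 : hh (q + z) = (q + z) ^ 2 := hh_of_nonneg (by linarith)
  unfold uu
  rw [abs_of_nonneg hz]
  by_cases h1 : p ≤ z
  · have e3 : hh (p - z) = -(z - p) ^ 2 := by
      rw [← neg_sub z p, hh_neg, hh_of_nonneg (by linarith)]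
    have e4 : hh (q - z) = -(z - q) ^ 2 := by
      rw [← neg_sub z q, hh_neg, hh_of_nonneg (by linarith)]
    have e5 : max 0 (1 - z / p) = 0 := by
      apply max_eq_left
      have : 1 ≤ z / p := (one_le_div hp).2 h1
      linarith
    rw [e1, e2, e3, e4, e5]
    nlinarith
  · push Not at h1
    have e3 : hh (p - z) = (p - z) ^ 2 := hh_of_nonneg (by linarith)
    have e5 : max 0 (1 - z / p) = 1 - z / p := by
      apply max_eq_right
      have : z / p < 1 := (div_lt_one hp).2 h1
      linarith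
    have e6 : p * (1 - z / p) ^ 2 = (p - z) ^ 2 / p := by
      field_simp
    have e7 : 2 * q * (p - q) * p * (1 - z / p) ^ 2 = 2 * q * (p - q) * ((p - z) ^ 2 / p) := by
      rw [← e6]; ring
    rw [e5, e7, e1, e2, e3]
    by_cases h2 : q ≤ z
    · have e4 : hh (q - z) = -(z - q) ^ 2 := by
        rw [← neg_sub z q, hh_neg, hh_of_nonneg (by linarith)]
      rw [e4]
      have h3 : (p - q) * ((p - z) ^ 2 / p) ≤ (p - z) ^ 2 := by
        rw [mul_div_assoc', div_le_iff₀ hp]
        nlinarith [sq_nonneg (p - z)]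
      have h4 : q * ((p - q) * ((p - z) ^ 2 / p)) ≤ q * (p - z) ^ 2 :=
        mul_le_mul_of_nonneg_left h3 hq
      nlinarith [h4]
    · push Not at h2
      have e4 : hh (q - z) = (q - z) ^ 2 := hh_of_nonneg (by linarith)
      rw [e4]
      have h3 : q * ((p - z) ^ 2 / p) ≤ p * q - z ^ 2 := by
        rw [mul_div_assoc', div_le_iff₀ hp]
        have : 0 ≤ z * (2 * q * p - z * p - q * z) := by
          apply mul_nonneg hz
          nlinarith
        nlinarith
      have h4 : (p - q) * (q * ((p - z) ^ 2 / p)) ≤ (p - q) * (p * q - z ^ 2) :=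
        mul_le_mul_of_nonneg_left h3 (by linarith)
      nlinarith [h4]

lemma kk_ineq' {p q : ℝ} (z : ℝ) (hp : 0 < p) (hq : 0 ≤ q) (hqp : q ≤ p) :
    2 * q * (p - q) * p * uu p z ^ 2 ≤
      q * (hh (p + z) + hh (p - z)) - p * (hh (q + z) + hh (q - z)) := by
  rcases le_total 0 z with hz | hz
  · exact kk_ineq hp hq hqp hz
  · have h := kk_ineq hp hq hqp (z := -z) (by linarith)
    have e : uu p (-z) = uu p z := by unfold uu; rw [abs_neg]
    rw [e] at h
    have e2 : p - -z = p + z := by ring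
    have e3 : q - -z = q + z := by ring
    have e4 : p + -z = p - z := by ring
    have e5 : q + -z = q - z := by ring
    rw [e2, e3, e4, e5] at h
    linarith

/-- the sum over the signs of two coordinates -/
noncomputable def Hs (x y z : ℝ) : ℝ :=
  hh (x + y + z) * (1 / x - 1 / y) + hh (-x - y + z) * (-1 / x + 1 / y) +
    (hh (x - y + z) * (1 / x + 1 / y) + hh (-x + y + z) * (-1 / x - 1 / y))

lemma Hs_eq {x y : ℝ} (z : ℝ) (hx : 0 < x) (hy : 0 < y) :
    x * y * Hs x y z = -(x - y) * (hh (x + y + z) + hh (x + y - z)) +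
      (x + y) * (hh (x - y + z) + hh (x - y - z)) := by
  unfold Hs
  have e1 : hh (-x - y + z) = -hh (x + y - z) := by
    rw [← hh_neg]; congr 1; ring
  have e2 : hh (-x + y + z) = -hh (x - y - z) := by
    rw [← hh_neg]; congr 1; ring
  rw [e1, e2]
  field_simp
  ring

lemma pair_ineq {x y : ℝ} (z : ℝ) (hx : 0 < x) (hy : 0 < y) :
    (y ^ 2 - x ^ 2) ^ 2 * (4 / (x + y)) * uu (x + y) z ^ 2 ≤ (y ^ 2 - x ^ 2) * Hs x y z := by
  have hxy : 0 < x * y := mul_pos hx hy
  have hp : 0 < x + y := by linarith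
  -- the symmetric statement in `q = |x - y|`
  have key : ∀ x y : ℝ, 0 < x → 0 < y → y ≤ x →
      (y ^ 2 - x ^ 2) ^ 2 * (4 / (x + y)) * uu (x + y) z ^ 2 ≤ (y ^ 2 - x ^ 2) * Hs x y z := by
    intro x y hx hy hle
    have hxy : 0 < x * y := mul_pos hx hy
    have hp : 0 < x + y := by linarith
    have h := kk_ineq' (p := x + y) (q := x - y) z hp (by linarith) (by linarith)
    have hH := Hs_eq z hx hy
    rw [← mul_le_mul_iff_right₀ hxy]
    have e1 : x * y * ((y ^ 2 - x ^ 2) * Hs x y z) =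
        (x + y) * (x - y) * ((x - y) * (hh (x + y + z) + hh (x + y - z)) -
          (x + y) * (hh (x - y + z) + hh (x - y - z))) := by
      linear_combination (y ^ 2 - x ^ 2) * hH
    rw [e1]
    have h2 : (x + y) * (x - y) * (2 * (x - y) * (x + y - (x - y)) * (x + y) *
        uu (x + y) z ^ 2) ≤ (x + y) * (x - y) *
        ((x - y) * (hh (x + y + z) + hh (x + y - z)) -
          (x + y) * (hh (x - y + z) + hh (x - y - z))) :=
      mul_le_mul_of_nonneg_left h (mul_nonneg hp.le (by linarith))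
    refine le_trans ?_ h2
    have e2 : x * y * ((y ^ 2 - x ^ 2) ^ 2 * (4 / (x + y)) * uu (x + y) z ^ 2) =
        4 * (x * y) * (x - y) ^ 2 * (x + y) * uu (x + y) z ^ 2 := by
      field_simp
      ring
    rw [e2]
    have h3 : 4 * (x * y) * (x - y) ^ 2 * (x + y) ≤
        (x + y) * (x - y) * (2 * (x - y) * (x + y - (x - y)) * (x + y)) := by
      have : (x + y) * (x - y) * (2 * (x - y) * (x + y - (x - y)) * (x + y)) -
          4 * (x * y) * (x - y) ^ 2 * (x + y) = 4 * y ^ 2 * (x + y) * (x - y) ^ 2 := by ring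
      have h4 : 0 ≤ 4 * y ^ 2 * (x + y) * (x - y) ^ 2 := by positivity
      linarith
    calc 4 * (x * y) * (x - y) ^ 2 * (x + y) * uu (x + y) z ^ 2
        ≤ (x + y) * (x - y) * (2 * (x - y) * (x + y - (x - y)) * (x + y)) *
          uu (x + y) z ^ 2 := mul_le_mul_of_nonneg_right h3 (sq_nonneg _)
      _ = _ := by ring
  rcases le_total y x with h | h
  · exact key x y hx hy h
  · have h1 := key y x hy hx h
    have e1 : Hs y x z = -Hs x y z := by
      unfold Hs
      have a1 : y + x + z = x + y + z := by ring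
      have a2 : -y - x + z = -x - y + z := by ring
      have a3 : y - x + z = -x + y + z := by ring
      have a4 : -y + x + z = x - y + z := by ring
      rw [a1, a2, a3, a4]
      ring
    have e2 : y + x = x + y := by ring
    rw [e1, e2] at h1
    calc (y ^ 2 - x ^ 2) ^ 2 * (4 / (x + y)) * uu (x + y) z ^ 2
        = (x ^ 2 - y ^ 2) ^ 2 * (4 / (x + y)) * uu (x + y) z ^ 2 := by ring
      _ ≤ (x ^ 2 - y ^ 2) * -Hs x y z := h1
      _ = _ := by ring

/-- the weights with the coordinates `k`, `l` removed -/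
def rem {n : ℕ} (a : Fin n → ℝ) (k l : Fin n) (i : Fin n) : ℝ :=
  if i = k ∨ i = l then 0 else a i

lemma S_rem {n : ℕ} (a : Fin n → ℝ) {k l : Fin n} (hkl : k ≠ l) (ε : Fin n → Bool) :
    S a ε = a k * sg (ε k) + a l * sg (ε l) + S (rem a k l) ε := by
  classical
  unfold S
  rw [← Finset.add_sum_erase univ (fun i => a i * sg (ε i)) (mem_univ k),
    ← Finset.add_sum_erase (univ.erase k) (fun i => a i * sg (ε i))
      (mem_erase.2 ⟨hkl.symm, mem_univ l⟩),
    ← Finset.add_sum_erase univ (fun i => rem a k l i * sg (ε i)) (mem_univ k),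
    ← Finset.add_sum_erase (univ.erase k) (fun i => rem a k l i * sg (ε i))
      (mem_erase.2 ⟨hkl.symm, mem_univ l⟩)]
  have h1 : rem a k l k = 0 := by simp [rem]
  have h2 : rem a k l l = 0 := by simp [rem]
  have h3 : ∑ i ∈ (univ.erase k).erase l, rem a k l i * sg (ε i) =
      ∑ i ∈ (univ.erase k).erase l, a i * sg (ε i) := by
    refine sum_congr rfl fun i hi => ?_
    have hi1 : i ≠ l := ne_of_mem_erase hi
    have hi2 : i ≠ k := ne_of_mem_erase (mem_of_mem_erase hi)
    simp [rem, hi1, hi2]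
  rw [h1, h2, h3]
  ring

lemma S_rem_flip_left {n : ℕ} (a : Fin n → ℝ) (k l : Fin n) (ε : Fin n → Bool) :
    S (rem a k l) (flip k ε) = S (rem a k l) ε := by
  rw [S_flip]
  simp [rem]

lemma S_rem_flip_right {n : ℕ} (a : Fin n → ℝ) (k l : Fin n) (ε : Fin n → Bool) :
    S (rem a k l) (flip l ε) = S (rem a k l) ε := by
  rw [S_flip]
  simp [rem]

/-- averaging over the signs of two coordinates -/
lemma E_pair {n : ℕ} (a : Fin n → ℝ) {k l : Fin n} (hkl : k ≠ l) :
    E (fun ε => hh (S a ε) * (sg (ε k) / a k - sg (ε l) / a l)) =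
      E (fun ε => Hs (a k) (a l) (S (rem a k l) ε)) / 4 := by
  rw [E_half k, E_half l]
  have : (fun ε : Fin n → Bool =>
      ((hh (S a ε) * (sg (ε k) / a k - sg (ε l) / a l) +
        hh (S a (flip k ε)) * (sg (flip k ε k) / a k - sg (flip k ε l) / a l)) / 2 +
      (hh (S a (flip l ε)) * (sg (flip l ε k) / a k - sg (flip l ε l) / a l) +
        hh (S a (flip k (flip l ε))) *
          (sg (flip k (flip l ε) k) / a k - sg (flip k (flip l ε) l) / a l)) / 2) / 2) =
      fun ε => (1 / 4 : ℝ) * Hs (a k) (a l) (S (rem a k l) ε) := by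
    funext ε
    rw [S_rem a hkl ε, S_rem a hkl (flip k ε), S_rem a hkl (flip l ε),
      S_rem a hkl (flip k (flip l ε))]
    rw [S_rem_flip_left, S_rem_flip_right, S_rem_flip_left, S_rem_flip_right]
    rw [flip_same, flip_same, flip_same, flip_ne hkl.symm, flip_ne hkl, flip_ne hkl.symm,
      flip_same]
    generalize S (rem a k l) ε = Y
    generalize a k = x
    generalize a l = y
    have e1 : sg true = 1 := by simp [sg]
    have e2 : sg false = -1 := by simp [sg]
    unfold Hs
    rcases ε k with _ | _ <;> rcases ε l with _ | _ <;>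
      simp only [Bool.not_true, Bool.not_false, e1, e2]
    · have a1 : x * -1 + y * -1 + Y = -x - y + Y := by ring
      have a2 : x * 1 + y * -1 + Y = x - y + Y := by ring
      have a3 : x * -1 + y * 1 + Y = -x + y + Y := by ring
      have a4 : x * 1 + y * 1 + Y = x + y + Y := by ring
      rw [a1, a2, a3, a4]; ring
    · have a1 : x * -1 + y * -1 + Y = -x - y + Y := by ring
      have a2 : x * 1 + y * -1 + Y = x - y + Y := by ring
      have a3 : x * -1 + y * 1 + Y = -x + y + Y := by ring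
      have a4 : x * 1 + y * 1 + Y = x + y + Y := by ring
      rw [a1, a2, a3, a4]; ring
    · have a1 : x * -1 + y * -1 + Y = -x - y + Y := by ring
      have a2 : x * 1 + y * -1 + Y = x - y + Y := by ring
      have a3 : x * -1 + y * 1 + Y = -x + y + Y := by ring
      have a4 : x * 1 + y * 1 + Y = x + y + Y := by ring
      rw [a1, a2, a3, a4]; ring
    · have a1 : x * -1 + y * -1 + Y = -x - y + Y := by ring
      have a2 : x * 1 + y * -1 + Y = x - y + Y := by ring
      have a3 : x * -1 + y * 1 + Y = -x + y + Y := by ring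
      have a4 : x * 1 + y * 1 + Y = x + y + Y := by ring
      rw [a1, a2, a3, a4]; ring
  rw [this, E_mul]
  ring

/-- the gradient component `E (S|S| ε_k) / a_k` -/
noncomputable def A {n : ℕ} (a : Fin n → ℝ) (k : Fin n) : ℝ :=
  E (fun ε => hh (S a ε) * sg (ε k)) / a k

lemma A_sub {n : ℕ} (a : Fin n → ℝ) (k l : Fin n) :
    A a k - A a l = E (fun ε => hh (S a ε) * (sg (ε k) / a k - sg (ε l) / a l)) := by
  unfold A
  have : (fun ε : Fin n → Bool => hh (S a ε) * (sg (ε k) / a k - sg (ε l) / a l)) =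
      fun ε => (1 / a k) * (hh (S a ε) * sg (ε k)) - (1 / a l) * (hh (S a ε) * sg (ε l)) := by
    funext ε; ring
  rw [this, E_sub, E_mul, E_mul]
  ring

/-- the pair inequality for the gradient -/
lemma grad_pair {n : ℕ} (a : Fin n → ℝ) (k l : Fin n) (hkl : k ≠ l) (hk : 0 < a k)
    (hl : 0 < a l) {m : ℝ}
    (hm : m * (a k + a l) ≤ E (fun ε => uu (a k + a l) (S (rem a k l) ε) ^ 2)) :
    (a l ^ 2 - a k ^ 2) ^ 2 * m ≤ (a l ^ 2 - a k ^ 2) * (A a k - A a l) := by
  have hp : 0 < a k + a l := by linarith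
  rw [A_sub, E_pair a hkl]
  have h1 : E (fun ε => (a l ^ 2 - a k ^ 2) ^ 2 * (4 / (a k + a l)) *
      uu (a k + a l) (S (rem a k l) ε) ^ 2) ≤
      E (fun ε => (a l ^ 2 - a k ^ 2) * Hs (a k) (a l) (S (rem a k l) ε)) :=
    E_mono fun ε => pair_ineq _ hk hl
  rw [E_mul, E_mul] at h1
  have h2 : (a l ^ 2 - a k ^ 2) ^ 2 * (4 / (a k + a l)) * (m * (a k + a l)) ≤
      (a l ^ 2 - a k ^ 2) ^ 2 * (4 / (a k + a l)) *
        E (fun ε => uu (a k + a l) (S (rem a k l) ε) ^ 2) :=
    mul_le_mul_of_nonneg_left hm (by positivity)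
  have h3 : (a l ^ 2 - a k ^ 2) ^ 2 * (4 / (a k + a l)) * (m * (a k + a l)) =
      4 * ((a l ^ 2 - a k ^ 2) ^ 2 * m) := by
    field_simp
  linarith

end Q65.KH
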