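import Pool.Agent.Q65.KHb

/-!
Small ball estimates for weighted sign sums.
-/

set_option autoImplicit false

namespace Q65.KH

open Finset

/-- the ramp function -/
noncomputable def ramp (h y : ℝ) : ℝ := max (-1) (min 1 (y / h))

lemma ramp_abs_le (h y : ℝ) : |ramp h y| ≤ 1 := by
  unfold ramp
  rw [abs_le]
  exact ⟨le_max_left _ _, max_le (by norm_num) (min_le_left _ _)⟩

lemma ramp_of_ge {h y : ℝ} (hh : 0 < h) (hy : h ≤ y) : ramp h y = 1 := by
  unfold ramp
  have : 1 ≤ y / h := (one_le_div hh).2 hy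
  rw [min_eq_left this]
  norm_num

lemma ramp_of_le {h y : ℝ} (hh : 0 < h) (hy : y ≤ -h) : ramp h y = -1 := by
  unfold ramp
  have : y / h ≤ -1 := by
    rw [div_le_iff₀ hh]; linarith
  rw [min_eq_right (by linarith), max_eq_left this]

lemma ramp_mul_self {h : ℝ} (hh : 0 < h) (y : ℝ) : |y| - h ≤ ramp h y * y := by
  by_cases h1 : h ≤ y
  · rw [ramp_of_ge hh h1, abs_of_nonneg (by linarith)]; linarith
  · by_cases h2 : y ≤ -h
    · rw [ramp_of_le hh h2, abs_of_nonpos (by linarith)]; linarith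
    · push Not at h1 h2
      have h3 : |y| < h := abs_lt.2 ⟨h2, h1⟩
      have h4 : ramp h y = y / h := by
        unfold ramp
        have a1 : y / h ≤ 1 := (div_le_one hh).2 h1.le
        have a2 : -1 ≤ y / h := by rw [le_div_iff₀ hh]; linarith
        rw [min_eq_right a1, max_eq_right a2]
      rw [h4]
      have h5 : 0 ≤ y / h * y := by
        rw [div_mul_eq_mul_div]; exact div_nonneg (mul_self_nonneg y) hh.le
      linarith

lemma ramp_lip {h y c : ℝ} (hh : 0 < h) (hc : 0 ≤ c) :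
    ramp h (y + 2 * c) - ramp h y ≤ 2 * c / h := by
  unfold ramp
  have e : (y + 2 * c) / h = y / h + 2 * c / h := by ring
  have h0 : 0 ≤ 2 * c / h := by positivity
  rw [e]
  have h1 : min 1 (y / h + 2 * c / h) ≤ min 1 (y / h) + 2 * c / h := by
    rcases le_total 1 (y / h) with h2 | h2
    · rw [min_eq_left h2]
      exact (min_le_left _ _).trans (by linarith)
    · rw [min_eq_right h2]
      exact min_le_right _ _
  have h3 : max (-1) (min 1 (y / h + 2 * c / h)) ≤ max (-1) (min 1 (y / h)) + 2 * c / h := by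
    apply max_le
    · have := le_max_left (-1 : ℝ) (min 1 (y / h))
      linarith
    · have := le_max_right (-1 : ℝ) (min 1 (y / h))
      linarith
  linarith

lemma uu_sq_ge {p y : ℝ} (hp : 0 < p) (hy : |y| ≤ 77 / 100 * p) :
    529 / 10000 ≤ uu p y ^ 2 := by
  unfold uu
  have h1 : |y| / p ≤ 77 / 100 := by rw [div_le_iff₀ hp]; exact hy
  have h2 : 23 / 100 ≤ max 0 (1 - |y| / p) := le_trans (by linarith) (le_max_right _ _)
  nlinarith

lemma ramp_pair {p β y c : ℝ} (hp : 0 < p) (hc : 0 ≤ c) (hcβ : c ≤ β) (hβ : β ≤ 52 / 100 * p) :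
    ramp (p / 4) (y + 2 * c) - ramp (p / 4) y ≤
      160 * β / p * (uu p (y + 2 * c) ^ 2 + uu p y ^ 2) := by
  have hβ0 : 0 ≤ β := hc.trans hcβ
  have hh : 0 < p / 4 := by linarith
  have hB : 0 ≤ 160 * β / p := by positivity
  have hl : ramp (p / 4) (y + 2 * c) - ramp (p / 4) y ≤ 2 * β / (p / 4) :=
    (ramp_lip hh hc).trans (by gcongr)
  have hl2 : 2 * β / (p / 4) = 160 * β / p * (1 / 20) := by
    field_simp; ring
  by_cases h1 : |y| ≤ 77 / 100 * p
  · have h2 := uu_sq_ge hp h1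
    have h3 : 160 * β / p * (1 / 20) ≤
        160 * β / p * (uu p (y + 2 * c) ^ 2 + uu p y ^ 2) :=
      mul_le_mul_of_nonneg_left (by nlinarith [sq_nonneg (uu p (y + 2 * c))]) hB
    linarith
  · by_cases h2 : |y + 2 * c| ≤ 77 / 100 * p
    · have h2 := uu_sq_ge hp h2
      have h3 : 160 * β / p * (1 / 20) ≤
          160 * β / p * (uu p (y + 2 * c) ^ 2 + uu p y ^ 2) :=
        mul_le_mul_of_nonneg_left (by nlinarith [sq_nonneg (uu p y)]) hB
      linarith
    · push Not at h1 h2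
      have h0 : 0 ≤ 160 * β / p * (uu p (y + 2 * c) ^ 2 + uu p y ^ 2) := by positivity
      refine le_trans (le_of_eq ?_) h0
      rcases lt_abs.1 h1 with h3 | h3
      · rw [ramp_of_ge hh (by linarith), ramp_of_ge hh (by linarith)]; ring
      · rcases lt_abs.1 h2 with h4 | h4
        · exfalso; linarith
        · rw [ramp_of_le hh (by linarith), ramp_of_le hh (by linarith)]; ring

lemma E_ramp_le {n : ℕ} (c : Fin n → ℝ) {p β : ℝ} (hp : 0 < p) (hβ : β ≤ 52 / 100 * p)
    {i : Fin n} (h0 : 0 ≤ c i) (h1 : c i ≤ β) :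
    E (fun ε => ramp (p / 4) (S c ε) * sg (ε i)) ≤
      160 * β / p * E (fun ε => uu p (S c ε) ^ 2) := by
  rw [← E_mul]
  apply E_mono_flip i
  intro ε
  rw [S_flip, flip_same, sg_not]
  have e1 : sg true = 1 := by simp [sg]
  have e2 : sg false = -1 := by simp [sg]
  rcases hb : ε i with _ | _
  · rw [e2]
    have h := ramp_pair (y := S c ε) hp h0 h1 hβ
    have e3 : S c ε - 2 * c i * -1 = S c ε + 2 * c i := by ring
    rw [e3]
    linarith
  · rw [e1]
    have h := ramp_pair (y := S c ε - 2 * c i) hp h0 h1 hβ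
    have e3 : S c ε - 2 * c i + 2 * c i = S c ε := by ring
    have e4 : S c ε - 2 * c i * 1 = S c ε - 2 * c i := by ring
    rw [e3] at h
    rw [e4]
    linarith

/-- the small ball estimate -/
lemma small_ball {n : ℕ} (c : Fin n → ℝ) (K : Finset (Fin n)) {δ p β : ℝ} (hδ : 0 < δ)
    (hp : 0 < p) (hβ : β ≤ 52 / 100 * p) (h0 : ∀ i ∈ K, 0 ≤ c i) (h1 : ∀ i ∈ K, c i ≤ β) :
    E (fun ε => |S c ε|) - p / 4 - E (fun ε => |S (fun i => c i - if i ∈ K then δ else 0) ε|) ≤
      δ * (K.card * (160 * β / p * E (fun ε => uu p (S c ε) ^ 2))) := by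
  classical
  have hh : 0 < p / 4 := by linarith
  set w : Fin n → ℝ := fun i => c i - if i ∈ K then δ else 0 with hw
  have e1 : ∑ i ∈ K, E (fun ε => ramp (p / 4) (S c ε) * sg (ε i)) ≤
      K.card * (160 * β / p * E (fun ε => uu p (S c ε) ^ 2)) := by
    calc ∑ i ∈ K, E (fun ε => ramp (p / 4) (S c ε) * sg (ε i))
        ≤ ∑ _i ∈ K, 160 * β / p * E (fun ε => uu p (S c ε) ^ 2) :=
          sum_le_sum fun i hi => E_ramp_le c hp hβ (h0 i hi) (h1 i hi)
      _ = _ := by rw [sum_const, nsmul_eq_mul]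
  have e2 : δ * ∑ i ∈ K, E (fun ε => ramp (p / 4) (S c ε) * sg (ε i)) =
      E (fun ε => ramp (p / 4) (S c ε) * S c ε - ramp (p / 4) (S c ε) * S w ε) := by
    rw [← E_sum, ← E_mul]
    congr 1
    funext ε
    have e3 : S w ε = S c ε - δ * ∑ i ∈ K, sg (ε i) := by
      unfold S
      rw [hw]
      have : ∑ i, (c i - if i ∈ K then δ else 0) * sg (ε i) =
          ∑ i, c i * sg (ε i) - ∑ i, (if i ∈ K then δ * sg (ε i) else 0) := by
        rw [← sum_sub_distrib]
        refine sum_congr rfl fun i _ => ?_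
        split_ifs <;> ring
      rw [this]
      congr 1
      rw [Finset.sum_ite_mem, univ_inter, mul_sum]
    rw [e3, ← mul_sum]
    ring
  have e4 : E (fun ε => |S c ε|) - p / 4 - E (fun ε => |S w ε|) ≤
      E (fun ε => ramp (p / 4) (S c ε) * S c ε - ramp (p / 4) (S c ε) * S w ε) := by
    have e5 : E (fun ε => |S c ε|) - p / 4 - E (fun ε => |S w ε|) =
        E (fun ε => |S c ε| - p / 4 - |S w ε|) := by
      rw [E_sub, E_sub, E_const]
    rw [e5]
    apply E_mono
    intro ε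
    have h2 := ramp_mul_self hh (S c ε)
    have h3 : ramp (p / 4) (S c ε) * S w ε ≤ |S w ε| := by
      calc ramp (p / 4) (S c ε) * S w ε ≤ |ramp (p / 4) (S c ε) * S w ε| := le_abs_self _
        _ = |ramp (p / 4) (S c ε)| * |S w ε| := abs_mul _ _
        _ ≤ 1 * |S w ε| := mul_le_mul_of_nonneg_right (ramp_abs_le _ _) (abs_nonneg _)
        _ = _ := one_mul _
    linarith
  calc E (fun ε => |S c ε|) - p / 4 - E (fun ε => |S w ε|)
      ≤ δ * ∑ i ∈ K, E (fun ε => ramp (p / 4) (S c ε) * sg (ε i)) := by rw [e2]; exact e4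
    _ ≤ _ := mul_le_mul_of_nonneg_left e1 hδ.le

end Q65.KH
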