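import Pool.Agent.Q65.KHc

/-!
The lower bound for the kernel average along the segment to the flat vector.
-/

set_option autoImplicit false

namespace Q65.KH

open Finset

/-- squared weights on the segment -/
noncomputable def bt {n : ℕ} (b : Fin n → ℝ) (t : ℝ) (i : Fin n) : ℝ := (1 - t) * b i + t / n

/-- weights on the segment -/
noncomputable def at' {n : ℕ} (b : Fin n → ℝ) (t : ℝ) (i : Fin n) : ℝ := Real.sqrt (bt b t i)

section

variable {n : ℕ} {b : Fin n → ℝ} {t : ℝ}

lemma bt_nonneg (hb : ∀ i, 0 ≤ b i) (h0 : 0 ≤ t) (h1 : t ≤ 1) (i : Fin n) : 0 ≤ bt b t i := by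
  unfold bt
  have := mul_nonneg (sub_nonneg.2 h1) (hb i)
  positivity

lemma bt_pos (hn : 0 < n) (hb : ∀ i, 0 ≤ b i) (h0 : 0 < t) (h1 : t ≤ 1) (i : Fin n) :
    0 < bt b t i := by
  unfold bt
  have := mul_nonneg (sub_nonneg.2 h1) (hb i)
  have hn' : (0:ℝ) < n := by exact_mod_cast hn
  positivity

lemma at_sq (hb : ∀ i, 0 ≤ b i) (h0 : 0 ≤ t) (h1 : t ≤ 1) (i : Fin n) :
    at' b t i ^ 2 = bt b t i := Real.sq_sqrt (bt_nonneg hb h0 h1 i)

lemma at_pos (hn : 0 < n) (hb : ∀ i, 0 ≤ b i) (h0 : 0 < t) (h1 : t ≤ 1) (i : Fin n) :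
    0 < at' b t i := Real.sqrt_pos.2 (bt_pos hn hb h0 h1 i)

lemma b_le_one (hb : ∀ i, 0 ≤ b i) (hs : ∑ i, b i = 1) (i : Fin n) : b i ≤ 1 := by
  rw [← hs]
  exact single_le_sum (fun j _ => hb j) (mem_univ i)

lemma sum_bt (hn : 0 < n) (hs : ∑ i, b i = 1) : ∑ i, bt b t i = 1 := by
  have hn' : (n : ℝ) ≠ 0 := by exact_mod_cast hn.ne'
  unfold bt
  rw [sum_add_distrib, ← mul_sum, hs, sum_const, card_univ, Fintype.card_fin, nsmul_eq_mul]
  field_simp
  ring

/-- the bound for a fixed number of coordinates -/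
lemma kernel_small (hn : 0 < n) (hb : ∀ i, 0 ≤ b i) (hs : ∑ i, b i = 1) (h1 : t ≤ 1)
    (ht : 1 - t ≤ 1 / (10 * n)) {k l : Fin n} (_hkl : k ≠ l) :
    9 / 100 / 2 ^ n * (at' b t k + at' b t l) ≤
      E (fun ε => uu (at' b t k + at' b t l) (S (rem (at' b t) k l) ε) ^ 2) := by
  have hn' : (0:ℝ) < n := by exact_mod_cast hn
  have hn1 : (1:ℝ) ≤ n := by exact_mod_cast hn
  have ht2 : 1 / (10 * (n:ℝ)) ≤ 1 / 10 := by
    apply one_div_le_one_div_of_le (by norm_num)
    linarith
  have h0 : 0 < t := by linarith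
  set δ : ℝ := 1 / Real.sqrt n with hδ
  have hsn : 0 < Real.sqrt n := Real.sqrt_pos.2 hn'
  have hδ0 : 0 < δ := by positivity
  have hδ2 : δ ^ 2 = 1 / n := by
    rw [hδ, div_pow, Real.sq_sqrt hn'.le]; norm_num
  have hδ1 : δ ≤ 1 := by
    rw [hδ, div_le_one hsn]
    exact Real.one_le_sqrt.2 hn1
  have up : ∀ i, at' b t i ≤ 105 / 100 * δ := by
    intro i
    apply Real.sqrt_le_iff.2
    refine ⟨by positivity, ?_⟩
    rw [mul_pow, hδ2]
    unfold bt
    have h2 : (1 - t) * b i ≤ 1 / (10 * n) * 1 :=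
      mul_le_mul ht (b_le_one hb hs i) (hb i) (by positivity)
    have h3 : t / n ≤ 1 / n := div_le_div_of_nonneg_right h1 hn'.le
    have h4 : 1 / (10 * (n:ℝ)) * 1 = 1 / 10 * (1 / n) := by field_simp
    have h5 : 0 < 1 / (n:ℝ) := by positivity
    nlinarith
  have lo : ∀ i, 94 / 100 * δ ≤ at' b t i := by
    intro i
    apply Real.le_sqrt_of_sq_le
    rw [mul_pow, hδ2]
    unfold bt
    have h2 : 0 ≤ (1 - t) * b i := mul_nonneg (by linarith) (hb i)
    have h3 : t / n = t * (1 / n) := by ring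
    have h5 : 0 < 1 / (n:ℝ) := by positivity
    rw [h3]
    nlinarith
  set p := at' b t k + at' b t l with hp
  have hp1 : 188 / 100 * δ ≤ p := by
    have := lo k; have := lo l; rw [hp]; linarith
  have hp2 : p ≤ 210 / 100 * δ := by
    have := up k; have := up l; rw [hp]; linarith
  have hp0 : 0 < p := by linarith
  obtain ⟨ε₀, hε⟩ := exists_small (rem (at' b t) k l) (β := 105 / 100 * δ) (by positivity)
    (fun i => by
      unfold rem
      split_ifs
      · exact le_rfl
      · exact Real.sqrt_nonneg _)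
    (fun i => by
      unfold rem
      split_ifs
      · positivity
      · exact up i)
  refine le_trans ?_ (single_le (fun ε => sq_nonneg _) ε₀)
  have h2 : 44 / 100 ≤ uu p (S (rem (at' b t) k l) ε₀) := by
    unfold uu
    refine le_trans ?_ (le_max_right _ _)
    have : |S (rem (at' b t) k l) ε₀| / p ≤ 56 / 100 := by
      rw [div_le_iff₀ hp0]
      linarith
    linarith
  have h3 : 19 / 100 ≤ uu p (S (rem (at' b t) k l) ε₀) ^ 2 := by nlinarith
  have h4 : 9 / 100 * p ≤ uu p (S (rem (at' b t) k l) ε₀) ^ 2 := by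
    have : p ≤ 21 / 10 := by linarith
    linarith
  calc 9 / 100 / 2 ^ n * p = 9 / 100 * p / 2 ^ n := by ring
    _ ≤ _ := div_le_div_of_nonneg_right h4 (by positivity)

/-- the uniform bound for many coordinates -/
lemma kernel_large (hn : 1000 ≤ n) (hb : ∀ i, 0 ≤ b i) (hs : ∑ i, b i = 1) (h1 : t ≤ 1)
    (ht : 1 - t ≤ 1 / 10000) {k l : Fin n} (hkl : k ≠ l) :
    1 / 400 * (at' b t k + at' b t l) ≤
      E (fun ε => uu (at' b t k + at' b t l) (S (rem (at' b t) k l) ε) ^ 2) := by
  classical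
  have hn0 : 0 < n := by omega
  have hn' : (0:ℝ) < n := by exact_mod_cast hn0
  have hn1 : (1000:ℝ) ≤ n := by exact_mod_cast hn
  have hin : 1 / (n:ℝ) ≤ 1 / 1000 := one_div_le_one_div_of_le (by norm_num) hn1
  have h0 : 0 < t := by linarith
  set δ : ℝ := 1 / Real.sqrt n with hδ
  have hsn : 0 < Real.sqrt n := Real.sqrt_pos.2 hn'
  have hδ0 : 0 < δ := by positivity
  have hδ2 : δ ^ 2 = 1 / n := by
    rw [hδ, div_pow, Real.sq_sqrt hn'.le]; norm_num
  have hin0 : 0 < 1 / (n:ℝ) := by positivity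
  have hδ3 : δ ≤ 4 / 100 := by
    by_contra hcon
    push Not at hcon
    nlinarith
  have bsmall : ∀ i, (1 - t) * b i ≤ 1 / 10000 * b i := fun i =>
    mul_le_mul_of_nonneg_right ht (hb i)
  have bt_le : ∀ i, bt b t i ≤ 1 / 10000 * b i + 1 / n := by
    intro i
    unfold bt
    have h3 : t / n ≤ 1 / n := div_le_div_of_nonneg_right h1 hn'.le
    linarith [bsmall i]
  have bt_ge : ∀ i, 9999 / 10000 * (1 / n) ≤ bt b t i := by
    intro i
    unfold bt
    have h2 : 0 ≤ (1 - t) * b i := mul_nonneg (by linarith) (hb i)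
    have h3 : t / n = t * (1 / n) := by ring
    rw [h3]
    nlinarith
  have lo : ∀ i, 9999 / 10000 * δ ≤ at' b t i := by
    intro i
    apply Real.le_sqrt_of_sq_le
    rw [mul_pow, hδ2]
    have := bt_ge i
    nlinarith
  set K : Finset (Fin n) := univ.filter (fun i => i ≠ k ∧ i ≠ l ∧ b i ≤ 100 / n) with hK
  have memK : ∀ i, i ∈ K ↔ (i ≠ k ∧ i ≠ l ∧ b i ≤ 100 / n) := by
    intro i; rw [hK, mem_filter]; simp
  have upK : ∀ i ∈ K, at' b t i ≤ 1005 / 1000 * δ := by
    intro i hi
    have hi2 := ((memK i).1 hi).2.2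
    apply Real.sqrt_le_iff.2
    refine ⟨by positivity, ?_⟩
    rw [mul_pow, hδ2]
    have h2 := bt_le i
    have h3 : (100:ℝ) / n = 100 * (1 / n) := by ring
    rw [h3] at hi2
    nlinarith
  set c := rem (at' b t) k l with hc
  have cK : ∀ i ∈ K, c i = at' b t i := by
    intro i hi
    have h := (memK i).1 hi
    rw [hc]; simp [rem, h.1, h.2.1]
  set p := at' b t k + at' b t l with hp
  have hp1 : 19998 / 10000 * δ ≤ p := by
    have := lo k; have := lo l; rw [hp]; linarith
  have hp0 : 0 < p := by linarith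
  have up : ∀ i, at' b t i ≤ 4 / 100 := by
    intro i
    apply Real.sqrt_le_iff.2
    refine ⟨by positivity, ?_⟩
    have h2 := bt_le i
    have h3 := b_le_one hb hs i
    linarith
  have hp2 : p ≤ 8 / 100 := by
    have := up k; have := up l; rw [hp]; linarith
  have hsb := small_ball c K (δ := δ) (p := p) (β := 1005 / 1000 * δ) hδ0 hp0 (by linarith)
    (fun i hi => by rw [cK i hi]; exact Real.sqrt_nonneg _)
    (fun i hi => by rw [cK i hi]; exact upK i hi)
  set Eu := E (fun ε => uu p (S c ε) ^ 2) with hEu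
  have hEu0 : 0 ≤ Eu := E_nonneg fun ε => sq_nonneg _
  -- variance of the sum
  have hvar : ∑ i, c i ^ 2 = 1 - bt b t k - bt b t l := by
    have h2 : ∀ i, c i ^ 2 = bt b t i - (if i = k then bt b t k else 0) -
        (if i = l then bt b t l else 0) := by
      intro i
      rw [hc]
      unfold rem
      by_cases hik : i = k
      · subst hik; simp [hkl]
      · by_cases hil : i = l
        · subst hil; simp [hik]
        · simp only [hik, hil, or_self, if_false]
          rw [at_sq hb h0.le h1]; ring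
    rw [sum_congr rfl fun i _ => h2 i, sum_sub_distrib, sum_sub_distrib, sum_bt hn0 hs]
    simp
  have hv1 : ∑ i, c i ^ 2 ≤ 1 := by
    rw [hvar]
    have := bt_nonneg hb h0.le h1 k
    have := bt_nonneg hb h0.le h1 l
    linarith
  have hv2 : 99 / 100 ≤ ∑ i, c i ^ 2 := by
    rw [hvar]
    have := bt_le k
    have := bt_le l
    have := b_le_one hb hs k
    have := b_le_one hb hs l
    linarith
  have hY : 558 / 1000 ≤ E (fun ε => |S c ε|) := by
    refine le_trans ?_ (moment_one_lower c)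
    nlinarith
  -- the error term
  have hw : ∑ i, (c i - if i ∈ K then δ else 0) ^ 2 ≤ 102 / 10000 := by
    have h2 : ∀ i, (c i - if i ∈ K then δ else 0) ^ 2 ≤ 25 / 1000000 * (1 / n) + 101 / 10000 * b i := by
      intro i
      by_cases hi : i ∈ K
      · rw [if_pos hi, cK i hi]
        have a1 := lo i
        have a2 := upK i hi
        have a3 : |at' b t i - δ| ≤ 5 / 1000 * δ := by
          rw [abs_le]; constructor <;> linarith
        have a4 : (at' b t i - δ) ^ 2 ≤ (5 / 1000 * δ) ^ 2 := by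
          rw [← sq_abs]
          exact pow_le_pow_left₀ (abs_nonneg _) a3 2
        have a5 : (5 / 1000 * δ) ^ 2 = 25 / 1000000 * (1 / n) := by
          rw [mul_pow, hδ2]; norm_num
        have := hb i
        linarith
      · rw [if_neg hi, sub_zero]
        have a0 : 0 ≤ 25 / 1000000 * (1 / n) + 101 / 10000 * b i := by
          have := hb i
          positivity
        rw [hc]
        unfold rem
        by_cases hkl2 : i = k ∨ i = l
        · rw [if_pos hkl2]; simpa using a0
        · rw [if_neg hkl2, at_sq hb h0.le h1]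
          have a1 : 100 / (n:ℝ) < b i := by
            by_contra hcon
            push Not at hcon
            push Not at hkl2
            exact hi ((memK i).2 ⟨hkl2.1, hkl2.2, hcon⟩)
          have a2 : (100:ℝ) / n = 100 * (1 / n) := by ring
          have := bt_le i
          linarith
    calc ∑ i, (c i - if i ∈ K then δ else 0) ^ 2
        ≤ ∑ i, (25 / 1000000 * (1 / n) + 101 / 10000 * b i) := sum_le_sum fun i _ => h2 i
      _ = 25 / 1000000 + 101 / 10000 := by
          rw [sum_add_distrib, ← mul_sum, ← mul_sum, hs, sum_const, card_univ, Fintype.card_fin,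
            nsmul_eq_mul]
          field_simp
      _ ≤ _ := by norm_num
  have hW : E (fun ε => |S (fun i => c i - if i ∈ K then δ else 0) ε|) ≤ 102 / 1000 := by
    refine le_trans (moment_one_upper _ (l := 1 / 10) (by norm_num)) ?_
    have : (∑ i, (c i - if i ∈ K then δ else 0) ^ 2) / (1 / 10) =
      10 * ∑ i, (c i - if i ∈ K then δ else 0) ^ 2 := by ring
    rw [this]
    linarith
  have hcard : (K.card : ℝ) ≤ n := by
    have : K.card ≤ n := by
      calc K.card ≤ (univ : Finset (Fin n)).card := card_le_card (filter_subset _ _)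
        _ = n := by simp
    exact_mod_cast this
  have hfin : δ * (K.card * (160 * (1005 / 1000 * δ) / p * Eu)) ≤ 1608 / 10 * (Eu / p) := by
    have e1 : δ * (K.card * (160 * (1005 / 1000 * δ) / p * Eu)) =
        (δ ^ 2 * K.card) * (1608 / 10 * (Eu / p)) := by ring
    rw [e1]
    have e2 : δ ^ 2 * K.card ≤ 1 := by
      rw [hδ2, one_div, inv_mul_le_iff₀ hn']; linarith
    have e3 : 0 ≤ 1608 / 10 * (Eu / p) := by positivity
    nlinarith
  have h9 : 43 / 100 ≤ 1608 / 10 * (Eu / p) := by linarith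
  have h10 : 43 / 100 * (10 / 1608) ≤ Eu / p := by linarith
  rw [le_div_iff₀ hp0] at h10
  linarith

end

end Q65.KH
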