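import Pool.Agent.Q65.KHd

/-!
Differentiation along the segment to the flat vector and the stability inequality for the third
absolute moment.
-/

set_option autoImplicit false

namespace Q65.KH

open Finset

lemma hasDerivAt_abs_cube (s : ℝ) : HasDerivAt (fun x : ℝ => |x| ^ 3) (3 * hh s) s := by
  have h := hasDerivAt_abs_rpow s (p := 3) (by norm_num)
  have e1 : (fun x : ℝ => |x| ^ (3 : ℝ)) = fun x : ℝ => |x| ^ 3 := by
    funext x
    exact Real.rpow_natCast |x| 3
  rw [e1] at h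
  convert h using 1
  have : (3 : ℝ) - 2 = ((1 : ℕ) : ℝ) := by norm_num
  rw [this, Real.rpow_natCast]
  unfold hh
  ring

/-- the third absolute moment along the segment -/
noncomputable def Φ {n : ℕ} (b : Fin n → ℝ) (t : ℝ) : ℝ := E (fun ε => |S (at' b t) ε| ^ 3)

section

variable {n : ℕ} {b : Fin n → ℝ}

lemma hasDerivAt_at (hn : 0 < n) (hb : ∀ i, 0 ≤ b i) {t : ℝ} (h0 : 0 < t) (h1 : t ≤ 1)
    (i : Fin n) : HasDerivAt (fun t => at' b t i) ((1 / n - b i) / (2 * at' b t i)) t := by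
  have hpos := bt_pos hn hb h0 h1 i
  have hd : HasDerivAt (fun t => bt b t i) (1 / n - b i) t := by
    unfold bt
    have h2 : HasDerivAt (fun t : ℝ => (1 - t) * b i + t / n) ((0 - 1) * b i + 1 / n) t :=
      (((hasDerivAt_const t (1:ℝ)).sub (hasDerivAt_id t)).mul_const (b i)).add
        ((hasDerivAt_id t).div_const (n:ℝ))
    convert h2 using 1
    ring
  exact hd.sqrt hpos.ne'

lemma hasDerivAt_Φ (hn : 0 < n) (hb : ∀ i, 0 ≤ b i) {t : ℝ} (h0 : 0 < t) (h1 : t ≤ 1) :
    HasDerivAt (Φ b) (3 / 2 * ∑ i, (1 / n - b i) * A (at' b t) i) t := by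
  have hS : ∀ ε : Fin n → Bool, HasDerivAt (fun t => S (at' b t) ε)
      (∑ i, (1 / n - b i) / (2 * at' b t i) * sg (ε i)) t := by
    intro ε
    unfold S
    exact HasDerivAt.fun_sum fun i _ => (hasDerivAt_at hn hb h0 h1 i).mul_const (sg (ε i))
  have hC : ∀ ε : Fin n → Bool, HasDerivAt (fun t => |S (at' b t) ε| ^ 3)
      (3 * hh (S (at' b t) ε) * ∑ i, (1 / n - b i) / (2 * at' b t i) * sg (ε i)) t := by
    intro ε
    exact (hasDerivAt_abs_cube (S (at' b t) ε)).comp t (hS ε)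
  have hE : HasDerivAt (Φ b) ((∑ ε : Fin n → Bool, 3 * hh (S (at' b t) ε) *
      ∑ i, (1 / n - b i) / (2 * at' b t i) * sg (ε i)) / 2 ^ n) t := by
    unfold Φ E
    exact (HasDerivAt.fun_sum fun ε _ => hC ε).div_const _
  convert hE using 1
  have e1 : (∑ ε : Fin n → Bool, 3 * hh (S (at' b t) ε) *
      ∑ i, (1 / n - b i) / (2 * at' b t i) * sg (ε i)) / 2 ^ n =
      E (fun ε => ∑ i, 3 / 2 * ((1 / n - b i) / at' b t i) *
        (hh (S (at' b t) ε) * sg (ε i))) := by
    unfold E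
    congr 1
    refine sum_congr rfl fun ε _ => ?_
    rw [mul_sum]
    refine sum_congr rfl fun i _ => ?_
    have : at' b t i ≠ 0 := (at_pos hn hb h0 h1 i).ne'
    field_simp
  rw [e1, E_sum, mul_sum]
  refine sum_congr rfl fun i _ => ?_
  rw [E_mul]
  unfold A
  ring

lemma continuous_Φ : Continuous (Φ b) := by
  unfold Φ E
  apply Continuous.div_const
  apply continuous_finsetSum
  intro ε _
  apply Continuous.pow
  apply Continuous.abs
  unfold S
  apply continuous_finsetSum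
  intro i _
  apply Continuous.mul_const
  unfold at' bt
  fun_prop

lemma double_sum (hn : 0 < n) (hs : ∑ i, b i = 1) (G : Fin n → ℝ) :
    ∑ k, ∑ l, (b l - b k) * (G k - G l) = 2 * n * ∑ i, (1 / n - b i) * G i := by
  have hn' : (n : ℝ) ≠ 0 := by exact_mod_cast hn.ne'
  have h1 : ∑ k, ∑ l, (b l - b k) * (G k - G l) =
      ∑ k, ∑ l, (b l * G k - b l * G l - b k * G k + b k * G l) :=
    sum_congr rfl fun k _ => sum_congr rfl fun l _ => by ring
  rw [h1]
  simp only [sum_add_distrib, sum_sub_distrib, ← mul_sum, ← sum_mul, hs, sum_const, card_univ,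
    Fintype.card_fin, nsmul_eq_mul, one_mul]
  have h2 : ∑ i, (1 / n - b i) * G i = 1 / n * ∑ i, G i - ∑ i, b i * G i := by
    rw [mul_sum, ← sum_sub_distrib]
    exact sum_congr rfl fun i _ => by ring
  have h3 : 2 * (n:ℝ) * (1 / n * ∑ i, G i - ∑ i, b i * G i) =
      2 * ∑ i, G i - 2 * n * ∑ i, b i * G i := by
    generalize ∑ i, G i = X
    generalize ∑ i, b i * G i = Y
    field_simp
  have h4 : ∑ x, b x * (n * G x) = n * ∑ x, b x * G x := by
    rw [mul_sum]
    exact sum_congr rfl fun x _ => by ring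
  rw [h2, h3, h4]
  ring

lemma grad_lower (hn : 0 < n) (hb : ∀ i, 0 ≤ b i) (hs : ∑ i, b i = 1) {t m : ℝ} (h0 : 0 < t)
    (h1 : t < 1) (hm : ∀ k l : Fin n, k ≠ l → m * (at' b t k + at' b t l) ≤
      E (fun ε => uu (at' b t k + at' b t l) (S (rem (at' b t) k l) ε) ^ 2)) :
    (1 - t) * m * ∑ i, (b i - 1 / n) ^ 2 ≤ ∑ i, (1 / n - b i) * A (at' b t) i := by
  have hn' : (0:ℝ) < n := by exact_mod_cast hn
  have h2 := double_sum hn hs (A (at' b t))
  have h3 := double_sum hn hs (fun i => -b i)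
  have h4 : ∑ i, (1 / n - b i) * -b i = ∑ i, (b i - 1 / n) ^ 2 := by
    have e1 : ∑ i, (b i - 1 / n) ^ 2 = ∑ i, ((1 / n - b i) * -b i + (1 / n * (1 / n) - 1 / n * b i)) :=
      sum_congr rfl fun i _ => by ring
    rw [e1, sum_add_distrib]
    have e2 : ∑ i, (1 / (n:ℝ) * (1 / n) - 1 / n * b i) = 0 := by
      rw [sum_sub_distrib, ← mul_sum, ← mul_sum, hs, sum_const, card_univ, Fintype.card_fin,
        nsmul_eq_mul]
      field_simp
      ring
    rw [e2, add_zero]
  rw [h4] at h3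
  have h5 : (1 - t) * m * ∑ k, ∑ l, (b l - b k) * (-b k - -b l) ≤
      ∑ k, ∑ l, (b l - b k) * (A (at' b t) k - A (at' b t) l) := by
    rw [mul_sum]
    refine sum_le_sum fun k _ => ?_
    rw [mul_sum]
    refine sum_le_sum fun l _ => ?_
    by_cases hkl : k = l
    · subst hkl; simp
    · have h6 := grad_pair (at' b t) k l hkl (at_pos hn hb h0 h1.le k)
        (at_pos hn hb h0 h1.le l) (hm k l hkl)
      rw [at_sq hb h0.le h1.le, at_sq hb h0.le h1.le] at h6
      have h7 : bt b t l - bt b t k = (1 - t) * (b l - b k) := by unfold bt; ring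
      rw [h7] at h6
      have h8 : 0 < 1 - t := by linarith
      have h9 : (1 - t) * ((1 - t) * m * ((b l - b k) * (-b k - -b l))) ≤
          (1 - t) * ((b l - b k) * (A (at' b t) k - A (at' b t) l)) := by
        calc (1 - t) * ((1 - t) * m * ((b l - b k) * (-b k - -b l)))
            = ((1 - t) * (b l - b k)) ^ 2 * m := by ring
          _ ≤ (1 - t) * (b l - b k) * (A (at' b t) k - A (at' b t) l) := h6
          _ = _ := by ring
      exact le_of_mul_le_mul_left h9 h8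
  rw [h2, h3] at h5
  have h10 : (2 * n : ℝ) * ((1 - t) * m * ∑ i, (b i - 1 / n) ^ 2) ≤
      2 * n * ∑ i, (1 / n - b i) * A (at' b t) i := by
    calc (2 * n : ℝ) * ((1 - t) * m * ∑ i, (b i - 1 / n) ^ 2)
        = (1 - t) * m * (2 * n * ∑ i, (b i - 1 / n) ^ 2) := by ring
      _ ≤ _ := h5
  exact le_of_mul_le_mul_left h10 (by positivity)

lemma grad_nonneg (hn : 0 < n) (hb : ∀ i, 0 ≤ b i) (hs : ∑ i, b i = 1) {t : ℝ} (h0 : 0 < t)
    (h1 : t < 1) : 0 ≤ ∑ i, (1 / n - b i) * A (at' b t) i := by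
  have h := grad_lower hn hb hs h0 h1 (m := 0) (fun k l _ => by
    rw [zero_mul]; exact E_nonneg fun ε => sq_nonneg _)
  simpa using h

lemma Φ_mono (hn : 0 < n) (hb : ∀ i, 0 ≤ b i) (hs : ∑ i, b i = 1) :
    MonotoneOn (Φ b) (Set.Icc 0 1) := by
  apply monotoneOn_of_deriv_nonneg (convex_Icc 0 1) continuous_Φ.continuousOn
  · rw [interior_Icc]
    intro t ht
    exact (hasDerivAt_Φ hn hb ht.1 ht.2.le).differentiableAt.differentiableWithinAt
  · rw [interior_Icc]
    intro t ht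
    rw [(hasDerivAt_Φ hn hb ht.1 ht.2.le).deriv]
    have := grad_nonneg hn hb hs ht.1 ht.2
    positivity

lemma main_step (hn : 0 < n) (hb : ∀ i, 0 ≤ b i) (hs : ∑ i, b i = 1) {m w : ℝ}
    (hw0 : 0 < w) (hw1 : w ≤ 1)
    (H : ∀ t : ℝ, t ≤ 1 → 1 - t ≤ w → ∀ k l : Fin n, k ≠ l → m * (at' b t k + at' b t l) ≤
      E (fun ε => uu (at' b t k + at' b t l) (S (rem (at' b t) k l) ε) ^ 2)) :
    Φ b 0 + 3 / 4 * m * w ^ 2 * ∑ i, (b i - 1 / n) ^ 2 ≤ Φ b 1 := by
  set D := ∑ i, (b i - 1 / n) ^ 2 with hD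
  have h1 : MonotoneOn (fun t => Φ b t + 3 / 4 * m * D * (1 - t) ^ 2) (Set.Icc (1 - w) 1) := by
    apply monotoneOn_of_deriv_nonneg (convex_Icc _ _)
    · exact (continuous_Φ.add (by fun_prop)).continuousOn
    · rw [interior_Icc]
      intro t ht
      have ht0 : 0 < t := by linarith [ht.1]
      exact ((hasDerivAt_Φ hn hb ht0 ht.2.le).differentiableAt.add
        (by fun_prop)).differentiableWithinAt
    · rw [interior_Icc]
      intro t ht
      have ht0 : 0 < t := by linarith [ht.1]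
      have hd : HasDerivAt (fun t => Φ b t + 3 / 4 * m * D * (1 - t) ^ 2)
          (3 / 2 * ∑ i, (1 / n - b i) * A (at' b t) i +
            3 / 4 * m * D * (2 * (1 - t) * (0 - 1))) t := by
        refine (hasDerivAt_Φ hn hb ht0 ht.2.le).add ?_
        have h2 : HasDerivAt (fun t : ℝ => (1 - t) ^ 2) (2 * (1 - t) * (0 - 1)) t := by
          have h5 : HasDerivAt (fun t : ℝ => 1 - t) (0 - 1) t := by
            simpa using (hasDerivAt_id t).const_sub (1:ℝ)
          have h6 := h5.fun_pow 2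
          exact h6.congr_deriv (by norm_num)
        exact h2.const_mul _
      rw [hd.deriv]
      have h3 := grad_lower hn hb hs ht0 ht.2 (m := m) (fun k l hkl =>
        H t ht.2.le (by linarith [ht.1]) k l hkl)
      rw [← hD] at h3
      nlinarith [h3]
  have h2 : Φ b 0 ≤ Φ b (1 - w) :=
    Φ_mono hn hb hs ⟨le_rfl, by norm_num⟩ ⟨by linarith, by linarith⟩ (by linarith)
  have h3 := h1 (⟨le_rfl, by linarith⟩ : (1 - w) ∈ Set.Icc (1 - w) 1)
    (⟨by linarith, le_rfl⟩ : (1:ℝ) ∈ Set.Icc (1 - w) 1) (by linarith)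
  simp only [sub_self, sub_sub_cancel] at h3
  nlinarith [h3, h2]

/-- replacing the weights by their absolute values -/
lemma E_abs (a : Fin n → ℝ) : E (fun ε => |S (fun i => |a i|) ε| ^ 3) =
    E (fun ε => |S a ε| ^ 3) := by
  classical
  unfold E
  congr 1
  refine Fintype.sum_equiv (Equiv.piCongrRight (fun i =>
    if a i < 0 then Equiv.boolNot else Equiv.refl Bool)) _ _ (fun ε => ?_)
  congr 2
  unfold S
  refine sum_congr rfl fun i _ => ?_
  simp only [Equiv.piCongrRight_apply, Pi.map_apply]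
  by_cases h : a i < 0
  · rw [if_pos h, abs_of_neg h]
    simp only [Equiv.boolNot_apply, sg_not]
    ring
  · rw [if_neg h, abs_of_nonneg (not_lt.1 h)]
    rfl

/-- the stability inequality -/
theorem stability : ∃ C : ℝ, 0 < C ∧ ∀ n : ℕ, 1 ≤ n → ∀ a : Fin n → ℝ, ∑ i, a i ^ 2 = 1 →
    E (fun ε => |S a ε| ^ 3) ≤ E (fun ε => |S (fun _ : Fin n => 1 / Real.sqrt n) ε| ^ 3) -
      C * ∑ i, (a i ^ 2 - 1 / n) ^ 2 := by
  refine ⟨3 / 4 * (9 / 100 / 2 ^ 1000) * (1 / 10000) ^ 2, by positivity, ?_⟩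
  intro n hn1 a ha
  have hn : 0 < n := hn1
  have hn' : (0:ℝ) < n := by exact_mod_cast hn
  have hb : ∀ i, 0 ≤ a i ^ 2 := fun i => sq_nonneg _
  have e0 : Φ (fun i => a i ^ 2) 0 = E (fun ε => |S a ε| ^ 3) := by
    rw [← E_abs]
    unfold Φ
    congr 1
    funext ε
    have : at' (fun i => a i ^ 2) 0 = fun i => |a i| := by
      funext i
      unfold at' bt
      simp [Real.sqrt_sq_eq_abs]
    rw [this]
  have e1 : Φ (fun i => a i ^ 2) 1 =
      E (fun ε => |S (fun _ : Fin n => 1 / Real.sqrt n) ε| ^ 3) := by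
    unfold Φ
    congr 1
    funext ε
    have : at' (fun i => a i ^ 2) 1 = fun _ => 1 / Real.sqrt n := by
      funext i
      unfold at' bt
      simp
    rw [this]
  have hD : 0 ≤ ∑ i, (a i ^ 2 - 1 / n) ^ 2 := sum_nonneg fun i _ => sq_nonneg _
  rcases le_or_gt 1000 n with hbig | hsmall
  · have h := main_step hn hb ha (m := 1 / 400) (w := 1 / 10000) (by norm_num) (by norm_num)
      (fun t h1 ht k l hkl => kernel_large hbig hb ha h1 ht hkl)
    rw [e0, e1] at h
    have h2 : 3 / 4 * (9 / 100 / 2 ^ 1000) * (1 / 10000) ^ 2 ≤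
        (3 / 4 * (1 / 400) * (1 / 10000) ^ 2 : ℝ) := by
      have : (9 / 100 / 2 ^ 1000 : ℝ) ≤ 1 / 400 := by
        have h6 : (2:ℝ) ^ 10 ≤ 2 ^ 1000 := pow_le_pow_right₀ (by norm_num) (by norm_num)
        rw [div_le_iff₀ (by positivity)]
        generalize (2:ℝ) ^ 1000 = X at h6 ⊢
        norm_num at h6 ⊢
        linarith
      gcongr
    have h3 := mul_le_mul_of_nonneg_right h2 hD
    linarith
  · have hn10 : (1:ℝ) ≤ n := by exact_mod_cast hn1
    have hn3 : (n:ℝ) ≤ 1000 := by exact_mod_cast hsmall.le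
    have h := main_step hn hb ha (m := 9 / 100 / 2 ^ n) (w := 1 / (10 * n)) (by positivity)
      (by rw [div_le_one (by positivity)]; linarith)
      (fun t h1 ht k l hkl => kernel_small hn hb ha h1 ht hkl)
    rw [e0, e1] at h
    have h2 : 3 / 4 * (9 / 100 / 2 ^ 1000) * (1 / 10000) ^ 2 ≤
        (3 / 4 * (9 / 100 / 2 ^ n) * (1 / (10 * n)) ^ 2 : ℝ) := by
      have h4 : (2:ℝ) ^ n ≤ 2 ^ 1000 := pow_le_pow_right₀ (by norm_num) hsmall.le
      have h5 : (9 / 100 / 2 ^ 1000 : ℝ) ≤ 9 / 100 / 2 ^ n :=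
        div_le_div_of_nonneg_left (by norm_num) (by positivity) h4
      have h6 : (1 / 10000 : ℝ) ≤ 1 / (10 * n) :=
        one_div_le_one_div_of_le (by positivity) (by linarith)
      have h7 : (1 / 10000 : ℝ) ^ 2 ≤ (1 / (10 * n)) ^ 2 :=
        pow_le_pow_left₀ (by norm_num) h6 2
      exact mul_le_mul (mul_le_mul_of_nonneg_left h5 (by norm_num)) h7 (by positivity)
        (by positivity)
    have h3 := mul_le_mul_of_nonneg_right h2 hD
    linarith

end

end Q65.KH
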