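import Mathlib

/-!
# One-dimensional profiles for the light-segment block

We build smooth compactly supported profiles `A`, `X` used for the block
`W(x) = A(x₀) X(x₁² + x₂²)`.
-/

namespace Q65.Light

open Set MeasureTheory Filter Topology
open scoped ContDiff

noncomputable section

/-- a bump function on the line, `1` on `[-1,1]`, `0` off `(-2,2)` -/
def bumpF : ContDiffBump (0:ℝ) := ⟨1, 2, one_pos, by norm_num⟩

/-- plateau profile -/
def P (t : ℝ) : ℝ := 1 - (1 - bumpF t) ^ 4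

/-- its derivative -/
def P' (t : ℝ) : ℝ := 4 * (1 - bumpF t) ^ 3 * deriv bumpF t

lemma bump_cd : ContDiff ℝ ∞ (fun t : ℝ => bumpF t) := bumpF.contDiff

lemma hasDerivAt_bump (t : ℝ) : HasDerivAt (fun t : ℝ => bumpF t) (deriv bumpF t) t :=
  ((bump_cd.differentiable (by simp)) t).hasDerivAt

lemma cont_dbump : Continuous (deriv bumpF) :=
  bump_cd.continuous_deriv (by exact_mod_cast le_top)

lemma hasDerivAt_P (t : ℝ) : HasDerivAt P (P' t) t := by
  have h1 : HasDerivAt (fun t : ℝ => 1 - bumpF t) (-(deriv bumpF t)) t := by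
    simpa using (hasDerivAt_bump t).const_sub 1
  have h2 := (h1.pow 4).const_sub 1
  refine (h2.congr_deriv ?_)
  simp only [P']
  ring

lemma cont_P : Continuous P :=
  continuous_iff_continuousAt.2 fun t => (hasDerivAt_P t).continuousAt

lemma cont_P' : Continuous P' := by
  unfold P'
  exact (continuous_const.mul ((continuous_const.sub bumpF.continuous).pow 3)).mul cont_dbump

lemma bump_mem (t : ℝ) : 0 ≤ bumpF t ∧ bumpF t ≤ 1 := ⟨bumpF.nonneg, bumpF.le_one⟩

lemma bump_one {t : ℝ} (h : |t| ≤ 1) : bumpF t = 1 := by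
  apply bumpF.one_of_mem_closedBall
  simpa [Metric.mem_closedBall, Real.dist_eq, bumpF] using h

lemma bump_zero {t : ℝ} (h : 2 ≤ |t|) : bumpF t = 0 := by
  apply bumpF.zero_of_le_dist
  simpa [Real.dist_eq, bumpF] using h

lemma P_mem (t : ℝ) : 0 ≤ P t ∧ P t ≤ 1 := by
  obtain ⟨h0, h1⟩ := bump_mem t
  unfold P
  constructor
  · have : (1 - bumpF t) ^ 4 ≤ 1 := pow_le_one₀ (by linarith) (by linarith)
    linarith
  · have : 0 ≤ (1 - bumpF t) ^ 4 := by positivity
    linarith

lemma P_one {t : ℝ} (h : |t| ≤ 1) : P t = 1 := by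
  simp [P, bump_one h]

lemma P_zero {t : ℝ} (h : 2 ≤ |t|) : P t = 0 := by
  simp [P, bump_zero h]

lemma dbump_zero {t : ℝ} (h : 2 ≤ |t|) : deriv bumpF t = 0 := by
  -- `t` is a minimum of the nonnegative function
  have : IsLocalMin (fun t : ℝ => bumpF t) t :=
    Filter.Eventually.of_forall fun s => by
      simp only [bump_zero h]
      exact (bump_mem s).1
  exact this.deriv_eq_zero

lemma P'_zero {t : ℝ} (h : 2 ≤ |t|) : P' t = 0 := by
  simp [P', dbump_zero h]

lemma P_neg (t : ℝ) : P (-t) = P t := by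
  simp [P, bumpF.neg]

lemma exists_dbump_bound : ∃ C : ℝ, 0 ≤ C ∧ ∀ t, |deriv bumpF t| ≤ C := by
  have hc : HasCompactSupport (deriv bumpF) := by
    apply HasCompactSupport.intro (isCompact_Icc (a := (-2:ℝ)) (b := 2))
    intro t ht
    apply dbump_zero
    by_contra hlt
    push Not at hlt
    exact ht ⟨by linarith [(abs_lt.1 hlt).1], by linarith [(abs_lt.1 hlt).2]⟩
  obtain ⟨C, hC⟩ := hc.exists_bound_of_continuous cont_dbump
  exact ⟨max C 0, le_max_right _ _, fun t => le_trans (by simpa using hC t) (le_max_left _ _)⟩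

lemma P'_bound_aux : ∃ C : ℝ, 0 ≤ C ∧ ∀ t, |P' t| ≤ C ∧ |P' t| ≤ C * (1 - (P t) ^ 2) ^ (3/4 : ℝ) := by
  obtain ⟨C, hC0, hC⟩ := exists_dbump_bound
  refine ⟨4 * C, by positivity, fun t => ?_⟩
  obtain ⟨h0, h1⟩ := bump_mem t
  set g := 1 - bumpF t with hg
  have hg0 : 0 ≤ g := by linarith
  have hg1 : g ≤ 1 := by linarith
  have e1 : |P' t| = 4 * g ^ 3 * |deriv bumpF t| := by
    simp only [P', ← hg, abs_mul, abs_pow, abs_of_nonneg hg0]
    norm_num
  have hg3 : g ^ 3 ≤ 1 := pow_le_one₀ hg0 hg1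
  have hg3' : 0 ≤ g ^ 3 := by positivity
  constructor
  · rw [e1]
    calc 4 * g ^ 3 * |deriv bumpF t| ≤ 4 * 1 * C := by
          gcongr
          exact hC t
      _ = 4 * C := by ring
  · rw [e1]
    have hP : P t = 1 - g ^ 4 := rfl
    have hge : g ^ 4 ≤ 1 - (P t) ^ 2 := by
      obtain ⟨p0, p1⟩ := P_mem t
      have : (P t) ^ 2 ≤ P t := by nlinarith
      linarith
    have h34 : g ^ 3 ≤ (1 - (P t) ^ 2) ^ (3/4 : ℝ) := by
      have : g ^ 3 = (g ^ 4) ^ (3/4 : ℝ) := by
        rw [← Real.rpow_natCast g 4, ← Real.rpow_mul hg0, ← Real.rpow_natCast g 3]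
        norm_num
      rw [this]
      exact Real.rpow_le_rpow (by positivity) hge (by norm_num)
    have hnn : 0 ≤ (1 - (P t) ^ 2) ^ (3/4 : ℝ) := hg3'.trans h34
    calc 4 * g ^ 3 * |deriv bumpF t| ≤ 4 * (1 - (P t) ^ 2) ^ (3/4 : ℝ) * C := by
          apply mul_le_mul (by linarith) (hC t) (abs_nonneg _) (by positivity)
      _ = 4 * C * (1 - (P t) ^ 2) ^ (3/4 : ℝ) := by ring

/-- primitive of the plateau -/
def B (t : ℝ) : ℝ := ∫ s in (0:ℝ)..t, P s

lemma hasDerivAt_B (t : ℝ) : HasDerivAt B (P t) t :=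
  (cont_P.integral_hasStrictDerivAt 0 t).hasDerivAt

lemma B_neg (t : ℝ) : B (-t) = - B t := by
  unfold B
  have h := intervalIntegral.integral_comp_neg (f := P) (a := 0) (b := t)
  simp only [P_neg, neg_zero] at h
  rw [h, intervalIntegral.integral_symm]

lemma B_small {t : ℝ} (h : |t| ≤ 1) : B t = t := by
  unfold B
  have : ∫ s in (0:ℝ)..t, P s = ∫ s in (0:ℝ)..t, (1:ℝ) := by
    apply intervalIntegral.integral_congr
    intro s hs
    simp only
    apply P_one
    have := abs_le.1 h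
    rcases le_total 0 t with h0 | h0
    · rw [uIcc_of_le h0] at hs
      rw [abs_le]; constructor <;> linarith [hs.1, hs.2]
    · rw [uIcc_of_ge h0] at hs
      rw [abs_le]; constructor <;> linarith [hs.1, hs.2]
  rw [this]; simp

lemma B_large {t : ℝ} (h : 2 ≤ t) : B t = B 2 := by
  unfold B
  have hi : ∀ a b : ℝ, IntervalIntegrable P volume a b := fun a b => cont_P.intervalIntegrable a b
  rw [← intervalIntegral.integral_add_adjacent_intervals (hi 0 2) (hi 2 t)]
  have : ∫ s in (2:ℝ)..t, P s = ∫ s in (2:ℝ)..t, (0:ℝ) := by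
    apply intervalIntegral.integral_congr
    intro s hs
    simp only
    apply P_zero
    rw [uIcc_of_le h] at hs
    rw [abs_of_nonneg (by linarith [hs.1])]; exact hs.1
  rw [this]; simp

lemma B_abs (t : ℝ) : |B t| ≤ 2 := by
  have key : ∀ t, 0 ≤ t → |B t| ≤ 2 := by
    intro t ht
    have h2 : ∀ s, 0 ≤ s → s ≤ 2 → |B s| ≤ 2 := by
      intro s hs hs2
      unfold B
      have := intervalIntegral.norm_integral_le_of_norm_le_const (f := P) (a := 0) (b := s) (C := 1)
        (fun x _ => by rw [Real.norm_eq_abs, abs_of_nonneg (P_mem x).1]; exact (P_mem x).2)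
      simp only [Real.norm_eq_abs, sub_zero, one_mul, abs_of_nonneg hs] at this
      linarith
    rcases le_total t 2 with h | h
    · exact h2 t ht h
    · rw [B_large h]; exact h2 2 (by norm_num) le_rfl
  rcases le_total 0 t with h | h
  · exact key t h
  · have := key (-t) (by linarith)
    rwa [B_neg, abs_neg] at this

/-- the unscaled longitudinal profile -/
def A0 (t : ℝ) : ℝ := B t - (B (t - 5) + B (t + 5)) / 2
def a0 (t : ℝ) : ℝ := P t - (P (t - 5) + P (t + 5)) / 2
def a0' (t : ℝ) : ℝ := P' t - (P' (t - 5) + P' (t + 5)) / 2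

lemma hasDerivAt_A0 (t : ℝ) : HasDerivAt A0 (a0 t) t := by
  have h1 : HasDerivAt (fun s => B (s - 5)) (P (t - 5)) t := (hasDerivAt_B (t-5)).comp_sub_const t 5
  have h2 : HasDerivAt (fun s => B (s + 5)) (P (t + 5)) t := (hasDerivAt_B (t+5)).comp_add_const t 5
  exact (hasDerivAt_B t).sub ((h1.add h2).div_const 2)

lemma hasDerivAt_a0 (t : ℝ) : HasDerivAt a0 (a0' t) t := by
  have h1 : HasDerivAt (fun s => P (s - 5)) (P' (t - 5)) t := (hasDerivAt_P (t-5)).comp_sub_const t 5
  have h2 : HasDerivAt (fun s => P (s + 5)) (P' (t + 5)) t := (hasDerivAt_P (t+5)).comp_add_const t 5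
  exact (hasDerivAt_P t).sub ((h1.add h2).div_const 2)

lemma A0_small {t : ℝ} (h : |t| ≤ 1) : A0 t = t := by
  obtain ⟨h1, h2⟩ := abs_le.1 h
  unfold A0
  rw [B_small h, B_large (t := t + 5) (by linarith)]
  have : B (t - 5) = - B 2 := by
    have : t - 5 = -(5 - t) := by ring
    rw [this, B_neg, B_large (by linarith)]
  rw [this]; ring

lemma A0_large {t : ℝ} (h : 7 ≤ |t|) : A0 t = 0 := by
  unfold A0
  rcases le_total 0 t with h0 | h0
  · rw [abs_of_nonneg h0] at h
    rw [B_large (t := t) (by linarith), B_large (t := t - 5) (by linarith), B_large (t := t + 5) (by linarith)]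
    ring
  · rw [abs_of_nonpos h0] at h
    have e : ∀ s, s ≤ -2 → B s = - B 2 := by
      intro s hs
      have : s = -(-s) := by ring
      rw [this, B_neg, B_large (by linarith)]
    rw [e t (by linarith), e (t-5) (by linarith), e (t+5) (by linarith)]
    ring

lemma A0_abs (t : ℝ) : |A0 t| ≤ 4 := by
  have h1 := abs_le.1 (B_abs t)
  have h2 := abs_le.1 (B_abs (t-5))
  have h3 := abs_le.1 (B_abs (t+5))
  unfold A0
  rw [abs_le]; constructor <;> linarith [h1.1, h1.2, h2.1, h2.2, h3.1, h3.2]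

lemma a0_facts : ∃ C : ℝ, 0 ≤ C ∧ ∀ t, |a0 t| ≤ 1 ∧ |a0' t| ≤ C ∧
    |a0' t| ≤ C * (1 - (a0 t) ^ 2) ^ (3/4 : ℝ) := by
  obtain ⟨C, hC0, hC⟩ := P'_bound_aux
  refine ⟨4 * C, by positivity, fun t => ?_⟩
  have hb : |a0' t| ≤ 2 * C := by
    have h1 := abs_le.1 (hC t).1
    have h2 := abs_le.1 (hC (t-5)).1
    have h3 := abs_le.1 (hC (t+5)).1
    unfold a0'
    rw [abs_le]; constructor <;> linarith [h1.1, h1.2, h2.1, h2.2, h3.1, h3.2]
  rcases le_or_gt (|t|) (5/2) with h | h
  · obtain ⟨h1, h2⟩ := abs_le.1 h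
    have e1 : P (t - 5) = 0 := P_zero (by rw [abs_of_nonpos (by linarith)]; linarith)
    have e2 : P (t + 5) = 0 := P_zero (by rw [abs_of_nonneg (by linarith)]; linarith)
    have e3 : P' (t - 5) = 0 := P'_zero (by rw [abs_of_nonpos (by linarith)]; linarith)
    have e4 : P' (t + 5) = 0 := P'_zero (by rw [abs_of_nonneg (by linarith)]; linarith)
    have ea : a0 t = P t := by simp [a0, e1, e2]
    have ea' : a0' t = P' t := by simp [a0', e3, e4]
    rw [ea, ea']
    obtain ⟨p0, p1⟩ := P_mem t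
    refine ⟨by rw [abs_of_nonneg p0]; exact p1, by linarith [(hC t).1], ?_⟩
    refine (hC t).2.trans ?_
    have : 0 ≤ (1 - (P t) ^ 2) ^ (3/4 : ℝ) := Real.rpow_nonneg (by nlinarith) _
    nlinarith
  · have e0 : P t = 0 := P_zero (by linarith)
    have hab : |a0 t| ≤ 1/2 := by
      have hdis : P (t - 5) = 0 ∨ P (t + 5) = 0 := by
        rcases le_total 0 t with h0 | h0
        · right; apply P_zero; rw [abs_of_nonneg (by linarith)]; linarith
        · left; apply P_zero; rw [abs_of_nonpos (by linarith)]; linarith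
      have q1 := P_mem (t-5)
      have q2 := P_mem (t+5)
      unfold a0
      rw [e0]
      rcases hdis with hd | hd <;> rw [hd] <;> rw [abs_le] <;> constructor <;> linarith [q1.1, q1.2, q2.1, q2.2]
    refine ⟨by linarith, by linarith, ?_⟩
    have hsq : (a0 t)^2 ≤ 1/4 := by
      have := abs_le.1 hab
      nlinarith [this.1, this.2]
    have h34 : (1/2 : ℝ) ≤ (1 - (a0 t) ^ 2) ^ (3/4 : ℝ) := by
      have h1 : (3/4 : ℝ) ≤ 1 - (a0 t) ^ 2 := by linarith
      have h2 : (1 - (a0 t) ^ 2) ≤ (1 - (a0 t) ^ 2) ^ (3/4 : ℝ) := by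
        have h3 : 0 < 1 - (a0 t) ^ 2 := by linarith
        have h4 : 1 - (a0 t) ^ 2 ≤ 1 := by nlinarith [sq_nonneg (a0 t)]
        calc (1 - (a0 t) ^ 2) = (1 - (a0 t) ^ 2) ^ (1:ℝ) := (Real.rpow_one _).symm
          _ ≤ (1 - (a0 t) ^ 2) ^ (3/4 : ℝ) := Real.rpow_le_rpow_of_exponent_ge h3 h4 (by norm_num)
      linarith
    nlinarith

/-- the data used for one block -/
structure Prof where
  A : ℝ → ℝ
  a : ℝ → ℝ
  a' : ℝ → ℝ
  X : ℝ → ℝ
  X1 : ℝ → ℝ
  X2 : ℝ → ℝ
  C : ℝ
  l : ℝ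
  C0 : 0 ≤ C
  l0 : 0 < l
  l1 : l < 1/2
  dA : ∀ t, HasDerivAt A (a t) t
  da : ∀ t, HasDerivAt a (a' t) t
  ca' : Continuous a'
  dX : ∀ t, HasDerivAt X (X1 t) t
  dX1 : ∀ t, HasDerivAt X1 (X2 t) t
  cX2 : Continuous X2
  A_le : ∀ t, |A t| ≤ 1
  a_le : ∀ t, |a t| ≤ 1
  a'_le : ∀ t, |a' t| ≤ C
  a'_le' : ∀ t, |a' t| ≤ C * (1 - (a t) ^ 2) ^ (3/4 : ℝ)
  A_zero : ∀ t, 1/2 ≤ |t| → A t = 0
  a_zero : ∀ t, 1/2 ≤ |t| → a t = 0
  a'_zero : ∀ t, 1/2 ≤ |t| → a' t = 0
  A_lin : ∀ t, |t| ≤ l → A t = t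
  X_zero : ∀ q, 1/2 ≤ q → X q = 0
  X1_zero : ∀ q, 1/2 ≤ q → X1 q = 0
  X2_zero : ∀ q, 1/2 ≤ q → X2 q = 0
  X_nn : ∀ q, 0 ≤ q → 0 ≤ X q
  X_le : ∀ q, 0 ≤ q → q ≤ 1 → X q ≤ 1 - q
  X_at0 : X 0 = 1
  X1_le : ∀ q, |X1 q| ≤ C
  X2_le : ∀ q, |X2 q| ≤ C
  small : ∀ t q, 4 * (A t) ^ 2 * (X1 q) ^ 2 ≤ 1/2

/-- bump for the transversal profile -/
def bumpG : ContDiffBump (0:ℝ) := ⟨1/8, 1/4, by norm_num, by norm_num⟩

def Xf (q : ℝ) : ℝ := (1 - q) * bumpG q

lemma Xf_cd : ContDiff ℝ ∞ Xf := by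
  unfold Xf
  exact (contDiff_const.sub contDiff_id).mul bumpG.contDiff

lemma bumpG_zero {q : ℝ} (h : 1/4 ≤ |q|) : bumpG q = 0 := by
  apply bumpG.zero_of_le_dist
  simpa [Real.dist_eq, bumpG] using h

lemma Xf_supp : HasCompactSupport Xf := by
  apply HasCompactSupport.intro (isCompact_Icc (a := (-1/4:ℝ)) (b := 1/4))
  intro t ht
  unfold Xf
  rw [bumpG_zero, mul_zero]
  by_contra hlt
  push Not at hlt
  exact ht ⟨by linarith [(abs_lt.1 hlt).1], by linarith [(abs_lt.1 hlt).2]⟩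

lemma Xf_far : ∀ q : ℝ, 1/2 ≤ q → Xf =ᶠ[𝓝 q] fun _ => 0 := by
  intro q hq
  have : Ioi (1/4 : ℝ) ∈ 𝓝 q := Ioi_mem_nhds (by linarith)
  filter_upwards [this] with s hs
  unfold Xf
  rw [bumpG_zero, mul_zero]
  rw [abs_of_nonneg (by have := mem_Ioi.1 hs; linarith)]
  exact (mem_Ioi.1 hs).le

lemma Xf_far1 : ∀ q : ℝ, 1/2 ≤ q → deriv Xf q = 0 := by
  intro q hq
  rw [(Xf_far q hq).deriv_eq]; simp

lemma Xf_far2 : ∀ q : ℝ, 1/2 ≤ q → deriv (deriv Xf) q = 0 := by
  intro q hq
  rw [((Xf_far q hq).deriv).deriv_eq]; simp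

theorem exists_prof : Nonempty Prof := by
  -- transversal profile bounds
  have cd1 : ContDiff ℝ ∞ (deriv Xf) := by
    have := (contDiff_infty_iff_deriv (f := Xf)).1 Xf_cd
    exact this.2
  have cd2 : ContDiff ℝ ∞ (deriv (deriv Xf)) := by
    have := (contDiff_infty_iff_deriv (f := deriv Xf)).1 cd1
    exact this.2
  obtain ⟨C1, hC1⟩ := (Xf_supp.deriv).exists_bound_of_continuous cd1.continuous
  obtain ⟨C2, hC2⟩ := (Xf_supp.deriv.deriv).exists_bound_of_continuous cd2.continuous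
  obtain ⟨Ca, hCa0, hCa⟩ := a0_facts
  have hC1' : ∀ q, |deriv Xf q| ≤ |C1| := fun q => le_trans (by simpa using hC1 q) (le_abs_self _)
  have hC2' : ∀ q, |deriv (deriv Xf) q| ≤ |C2| := fun q => le_trans (by simpa using hC2 q) (le_abs_self _)
  -- scale
  set lam : ℝ := 1 / (14 * (1 + |C1|)) with hlam
  have hlam0 : 0 < lam := by positivity
  have hlam1 : lam ≤ 1/14 := by
    rw [hlam]
    apply one_div_le_one_div_of_le (by norm_num)
    nlinarith [abs_nonneg C1]
  have hlamC : lam * |C1| ≤ 1/14 := by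
    rw [hlam, one_div_mul_eq_div, div_le_iff₀ (by positivity)]
    nlinarith [abs_nonneg C1]
  have hlarge : ∀ t, 1/2 ≤ |t| → 7 ≤ |t / lam| := by
    intro t ht
    rw [abs_div, abs_of_pos hlam0, le_div_iff₀ hlam0]
    nlinarith
  have ha0_zero : ∀ s, 7 ≤ |s| → a0 s = 0 ∧ a0' s = 0 := by
    intro s hs
    rcases le_total 0 s with h0 | h0
    · rw [abs_of_nonneg h0] at hs
      constructor
      · unfold a0
        rw [P_zero (t := s) (by rw [abs_of_nonneg (by linarith)]; linarith),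
          P_zero (t := s - 5) (by rw [abs_of_nonneg (by linarith)]; linarith),
          P_zero (t := s + 5) (by rw [abs_of_nonneg (by linarith)]; linarith)]
        ring
      · unfold a0'
        rw [P'_zero (t := s) (by rw [abs_of_nonneg (by linarith)]; linarith),
          P'_zero (t := s - 5) (by rw [abs_of_nonneg (by linarith)]; linarith),
          P'_zero (t := s + 5) (by rw [abs_of_nonneg (by linarith)]; linarith)]
        ring
    · rw [abs_of_nonpos h0] at hs
      constructor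
      · unfold a0
        rw [P_zero (t := s) (by rw [abs_of_nonpos (by linarith)]; linarith),
          P_zero (t := s - 5) (by rw [abs_of_nonpos (by linarith)]; linarith),
          P_zero (t := s + 5) (by rw [abs_of_nonpos (by linarith)]; linarith)]
        ring
      · unfold a0'
        rw [P'_zero (t := s) (by rw [abs_of_nonpos (by linarith)]; linarith),
          P'_zero (t := s - 5) (by rw [abs_of_nonpos (by linarith)]; linarith),
          P'_zero (t := s + 5) (by rw [abs_of_nonpos (by linarith)]; linarith)]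
        ring
  have habs : ∀ t, |lam * A0 (t / lam)| ≤ 4 * lam := by
    intro t
    rw [abs_mul, abs_of_pos hlam0]
    nlinarith [A0_abs (t/lam)]
  refine ⟨{
    A := fun t => lam * A0 (t / lam)
    a := fun t => a0 (t / lam)
    a' := fun t => a0' (t / lam) / lam
    X := Xf
    X1 := deriv Xf
    X2 := deriv (deriv Xf)
    C := max (max |C1| |C2|) (Ca / lam)
    l := lam
    C0 := le_max_of_le_right (by positivity)
    l0 := hlam0
    l1 := by linarith
    dA := ?_
    da := ?_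
    ca' := ?_
    dX := fun t => ((Xf_cd.differentiable (by simp)) t).hasDerivAt
    dX1 := fun t => ((cd1.differentiable (by simp)) t).hasDerivAt
    cX2 := cd2.continuous
    A_le := fun t => (habs t).trans (by linarith)
    a_le := fun t => (hCa _).1
    a'_le := ?_
    a'_le' := ?_
    A_zero := fun t ht => by rw [A0_large (hlarge t ht), mul_zero]
    a_zero := fun t ht => (ha0_zero _ (hlarge t ht)).1
    a'_zero := fun t ht => by rw [(ha0_zero _ (hlarge t ht)).2, zero_div]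
    A_lin := ?_
    X_zero := ?_
    X1_zero := ?_
    X2_zero := ?_
    X_nn := ?_
    X_le := ?_
    X_at0 := ?_
    X1_le := fun q => (hC1' q).trans ((le_max_left _ _).trans (le_max_left _ _))
    X2_le := fun q => (hC2' q).trans ((le_max_right _ _).trans (le_max_left _ _))
    small := ?_ }⟩
  · intro t
    have h1 : HasDerivAt (fun s : ℝ => s / lam) (1 / lam) t := (hasDerivAt_id t).div_const lam
    have h2 := ((hasDerivAt_A0 (t / lam)).comp t h1).const_mul lam
    refine h2.congr_deriv ?_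
    field_simp
  · intro t
    have h1 : HasDerivAt (fun s : ℝ => s / lam) (1 / lam) t := (hasDerivAt_id t).div_const lam
    have h2 := ((hasDerivAt_a0 (t / lam)).comp t h1)
    refine h2.congr_deriv ?_
    ring
  · apply Continuous.div_const
    have : Continuous a0' := by
      unfold a0'
      exact cont_P'.sub (((cont_P'.comp (continuous_id.sub continuous_const)).add
        (cont_P'.comp (continuous_id.add continuous_const))).div_const 2)
    exact this.comp (continuous_id.div_const lam)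
  · intro t
    refine le_trans ?_ (le_max_right _ _)
    rw [abs_div, abs_of_pos hlam0]
    gcongr
    exact (hCa _).2.1
  · intro t
    have h1 := (hCa (t / lam)).2.2
    have h2 : 0 ≤ (1 - (a0 (t/lam)) ^ 2) ^ (3/4 : ℝ) := by
      apply Real.rpow_nonneg
      have := abs_le.1 (hCa (t/lam)).1
      nlinarith [this.1, this.2]
    rw [abs_div, abs_of_pos hlam0]
    calc |a0' (t / lam)| / lam ≤ (Ca * (1 - (a0 (t/lam)) ^ 2) ^ (3/4 : ℝ)) / lam := by gcongr
      _ = (Ca / lam) * (1 - (a0 (t/lam)) ^ 2) ^ (3/4 : ℝ) := by ring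
      _ ≤ _ := by
        gcongr
        exact le_max_right _ _
  · intro t ht
    rw [A0_small]
    · field_simp
    · rw [abs_div, abs_of_pos hlam0, div_le_one hlam0]; exact ht
  · intro q hq
    exact (Xf_far q hq).self_of_nhds
  · exact Xf_far1
  · exact Xf_far2
  · intro q hq
    unfold Xf
    rcases le_or_gt (1/4) q with h | h
    · rw [bumpG_zero (by rw [abs_of_nonneg (by linarith)]; exact h), mul_zero]
    · exact mul_nonneg (by linarith) bumpG.nonneg
  · intro q hq hq1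
    unfold Xf
    have : bumpG q ≤ 1 := bumpG.le_one
    nlinarith
  · unfold Xf
    rw [bumpG.one_of_mem_closedBall (by simp [bumpG])]
    ring
  · intro t q
    have h1 := habs t
    have h2 := hC1' q
    have h3 : |lam * A0 (t / lam)| * |deriv Xf q| ≤ 4 * (lam * |C1|) := by
      calc |lam * A0 (t / lam)| * |deriv Xf q| ≤ (4 * lam) * |C1| := by gcongr
        _ = 4 * (lam * |C1|) := by ring
    have h4 : |lam * A0 (t / lam)| * |deriv Xf q| ≤ 4 / 14 := by linarith
    have h5 : (lam * A0 (t / lam)) ^ 2 * (deriv Xf q) ^ 2 =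
      (|lam * A0 (t / lam)| * |deriv Xf q|) ^ 2 := by
      rw [mul_pow (|lam * A0 (t / lam)|), sq_abs, sq_abs]
    have h6 : 0 ≤ |lam * A0 (t / lam)| * |deriv Xf q| := by positivity
    have h7 : (|lam * A0 (t / lam)| * |deriv Xf q|) ^ 2 ≤ (4/14)^2 := by gcongr
    calc 4 * (lam * A0 (t / lam)) ^ 2 * (deriv Xf q) ^ 2
        = 4 * ((lam * A0 (t / lam)) ^ 2 * (deriv Xf q) ^ 2) := by ring
      _ = 4 * (|lam * A0 (t / lam)| * |deriv Xf q|) ^ 2 := by rw [h5]
      _ ≤ 4 * (4/14)^2 := by linarith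
      _ ≤ 1/2 := by norm_num

end

end Q65.Light
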