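import Mathlib
import Pool.Agent.Q65.LightProf

/-!
# The light-segment block

`W(x) = A(x₀) X(x₁² + x₂²)`: a smooth compactly supported function on `ℝ³` with `|DW| < 1` off
the `x₀`-axis, `W(t,0,0) = t` for `|t| ≤ l`, such that the flux `DW/√(1-|DW|²)` is integrable and has
an integrable divergence (in the sense of integration by parts against Lipschitz functions).
-/

namespace Q65.Light

open Set MeasureTheory Filter Topology
open scoped ContDiff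

noncomputable section

abbrev E3 := EuclideanSpace ℝ (Fin 3)

/-- coordinate vectors -/
def ee (i : Fin 3) : E3 := EuclideanSpace.single i (1:ℝ)

lemma ee_apply (i j : Fin 3) : ee i j = if j = i then 1 else 0 := by
  simp [ee]

def qq (x : E3) : ℝ := x 1 ^ 2 + x 2 ^ 2

lemma qq_nonneg (x : E3) : 0 ≤ qq x := by unfold qq; positivity

variable (p : Prof)

/-- `1 - |DW|²` -/
def Dx (x : E3) : ℝ :=
  1 - (p.a (x 0)) ^ 2 * (p.X (qq x)) ^ 2 - 4 * qq x * (p.A (x 0)) ^ 2 * (p.X1 (qq x)) ^ 2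

def Nf : Fin 3 → E3 → ℝ
  | 0, x => p.a (x 0) * p.X (qq x)
  | 1, x => 2 * x 1 * p.A (x 0) * p.X1 (qq x)
  | 2, x => 2 * x 2 * p.A (x 0) * p.X1 (qq x)

def dNf : Fin 3 → E3 → ℝ
  | 0, x => p.a' (x 0) * p.X (qq x)
  | 1, x => 2 * p.A (x 0) * p.X1 (qq x) + 4 * x 1 ^ 2 * p.A (x 0) * p.X2 (qq x)
  | 2, x => 2 * p.A (x 0) * p.X1 (qq x) + 4 * x 2 ^ 2 * p.A (x 0) * p.X2 (qq x)

def Rq (x : E3) : ℝ :=
  -(2 * (p.a (x 0)) ^ 2 * p.X (qq x) * p.X1 (qq x) + 4 * (p.A (x 0)) ^ 2 * (p.X1 (qq x)) ^ 2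
    + 8 * qq x * (p.A (x 0)) ^ 2 * p.X1 (qq x) * p.X2 (qq x))

def dDf : Fin 3 → E3 → ℝ
  | 0, x => -(2 * p.a (x 0) * p.a' (x 0) * (p.X (qq x)) ^ 2
      + 8 * qq x * p.A (x 0) * p.a (x 0) * (p.X1 (qq x)) ^ 2)
  | 1, x => 2 * x 1 * Rq p x
  | 2, x => 2 * x 2 * Rq p x

lemma line_D0 (x : E3) : HasDerivAt (fun t : ℝ => Dx p (x + t • ee 0)) (dDf p 0 x) 0 := by
  have e : (fun t : ℝ => Dx p (x + t • ee 0)) = fun t : ℝ =>
      1 - (p.a (x 0 + t)) ^ 2 * (p.X (qq x)) ^ 2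
        - 4 * qq x * (p.A (x 0 + t)) ^ 2 * (p.X1 (qq x)) ^ 2 := by
    funext t
    simp [Dx, qq, ee_apply]
  rw [e]
  have hA : HasDerivAt (fun t => p.A (x 0 + t)) (p.a (x 0)) 0 :=
    HasDerivAt.comp_const_add (x 0) 0 (by simpa using p.dA (x 0))
  have ha : HasDerivAt (fun t => p.a (x 0 + t)) (p.a' (x 0)) 0 :=
    HasDerivAt.comp_const_add (x 0) 0 (by simpa using p.da (x 0))
  have h := (((ha.pow 2).mul_const ((p.X (qq x)) ^ 2)).const_sub 1).sub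
    (((hA.pow 2).const_mul (4 * qq x)).mul_const ((p.X1 (qq x)) ^ 2))
  refine h.congr_deriv ?_
  simp [dDf]
  ring

lemma line_N0 (x : E3) : HasDerivAt (fun t : ℝ => Nf p 0 (x + t • ee 0)) (dNf p 0 x) 0 := by
  have e : (fun t : ℝ => Nf p 0 (x + t • ee 0)) = fun t : ℝ =>
      p.a (x 0 + t) * p.X (qq x) := by
    funext t
    simp [Nf, qq, ee_apply]
  rw [e]
  have ha : HasDerivAt (fun t => p.a (x 0 + t)) (p.a' (x 0)) 0 :=
    HasDerivAt.comp_const_add (x 0) 0 (by simpa using p.da (x 0))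
  exact ha.mul_const _

lemma line_D1 (x : E3) : HasDerivAt (fun t : ℝ => Dx p (x + t • ee 1)) (dDf p 1 x) 0 := by
  have e : (fun t : ℝ => Dx p (x + t • ee 1)) = fun t : ℝ =>
      1 - (p.a (x 0)) ^ 2 * (p.X ((x 1 + t) ^ 2 + x 2 ^ 2)) ^ 2
        - 4 * ((x 1 + t) ^ 2 + x 2 ^ 2) * (p.A (x 0)) ^ 2 * (p.X1 ((x 1 + t) ^ 2 + x 2 ^ 2)) ^ 2 := by
    funext t
    simp [Dx, qq, ee_apply]
  rw [e]
  have hq : HasDerivAt (fun t : ℝ => (x 1 + t) ^ 2 + x 2 ^ 2) (2 * x 1) 0 := by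
    have h1 : HasDerivAt (fun t : ℝ => x 1 + t) 1 0 := (hasDerivAt_id (0:ℝ)).const_add (x 1)
    refine ((h1.pow 2).add_const _).congr_deriv ?_
    simp
  have q0 : (x 1 + (0:ℝ)) ^ 2 + x 2 ^ 2 = qq x := by simp [qq]
  have hX : HasDerivAt (fun t : ℝ => p.X ((x 1 + t) ^ 2 + x 2 ^ 2)) (p.X1 (qq x) * (2 * x 1)) 0 := by
    have := HasDerivAt.comp (h₂ := p.X) (h := fun t : ℝ => (x 1 + t) ^ 2 + x 2 ^ 2) (0:ℝ)
      (by rw [q0]; exact p.dX (qq x)) hq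
    exact this
  have hX1 : HasDerivAt (fun t : ℝ => p.X1 ((x 1 + t) ^ 2 + x 2 ^ 2)) (p.X2 (qq x) * (2 * x 1)) 0 := by
    have := HasDerivAt.comp (h₂ := p.X1) (h := fun t : ℝ => (x 1 + t) ^ 2 + x 2 ^ 2) (0:ℝ)
      (by rw [q0]; exact p.dX1 (qq x)) hq
    exact this
  have h := (((hX.pow 2).const_mul ((p.a (x 0)) ^ 2)).const_sub 1).sub
    (((hq.const_mul 4).mul_const ((p.A (x 0)) ^ 2)).mul (hX1.pow 2))
  refine h.congr_deriv ?_
  simp only [Pi.pow_apply, q0, dDf, Rq]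
  norm_num
  ring

lemma line_N1 (x : E3) : HasDerivAt (fun t : ℝ => Nf p 1 (x + t • ee 1)) (dNf p 1 x) 0 := by
  have e : (fun t : ℝ => Nf p 1 (x + t • ee 1)) = fun t : ℝ =>
      2 * (x 1 + t) * p.A (x 0) * p.X1 ((x 1 + t) ^ 2 + x 2 ^ 2) := by
    funext t
    simp [Nf, qq, ee_apply]
  rw [e]
  have h1 : HasDerivAt (fun t : ℝ => x 1 + t) 1 0 := (hasDerivAt_id (0:ℝ)).const_add (x 1)
  have hq : HasDerivAt (fun t : ℝ => (x 1 + t) ^ 2 + x 2 ^ 2) (2 * x 1) 0 := by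
    refine ((h1.pow 2).add_const _).congr_deriv ?_
    simp
  have q0 : (x 1 + (0:ℝ)) ^ 2 + x 2 ^ 2 = qq x := by simp [qq]
  have hX1 : HasDerivAt (fun t : ℝ => p.X1 ((x 1 + t) ^ 2 + x 2 ^ 2)) (p.X2 (qq x) * (2 * x 1)) 0 := by
    have := HasDerivAt.comp (h₂ := p.X1) (h := fun t : ℝ => (x 1 + t) ^ 2 + x 2 ^ 2) (0:ℝ)
      (by rw [q0]; exact p.dX1 (qq x)) hq
    exact this
  have h := ((h1.const_mul 2).mul_const (p.A (x 0))).mul hX1
  refine h.congr_deriv ?_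
  simp only [q0, dNf]
  simp
  ring

lemma line_D2 (x : E3) : HasDerivAt (fun t : ℝ => Dx p (x + t • ee 2)) (dDf p 2 x) 0 := by
  have e : (fun t : ℝ => Dx p (x + t • ee 2)) = fun t : ℝ =>
      1 - (p.a (x 0)) ^ 2 * (p.X (x 1 ^ 2 + (x 2 + t) ^ 2)) ^ 2
        - 4 * (x 1 ^ 2 + (x 2 + t) ^ 2) * (p.A (x 0)) ^ 2 * (p.X1 (x 1 ^ 2 + (x 2 + t) ^ 2)) ^ 2 := by
    funext t
    simp [Dx, qq, ee_apply]
  rw [e]
  have hq : HasDerivAt (fun t : ℝ => x 1 ^ 2 + (x 2 + t) ^ 2) (2 * x 2) 0 := by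
    have h1 : HasDerivAt (fun t : ℝ => x 2 + t) 1 0 := (hasDerivAt_id (0:ℝ)).const_add (x 2)
    refine ((h1.pow 2).const_add _).congr_deriv ?_
    simp
  have q0 : x 1 ^ 2 + (x 2 + (0:ℝ)) ^ 2 = qq x := by simp [qq]
  have hX : HasDerivAt (fun t : ℝ => p.X (x 1 ^ 2 + (x 2 + t) ^ 2)) (p.X1 (qq x) * (2 * x 2)) 0 := by
    have := HasDerivAt.comp (h₂ := p.X) (h := fun t : ℝ => x 1 ^ 2 + (x 2 + t) ^ 2) (0:ℝ)
      (by rw [q0]; exact p.dX (qq x)) hq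
    exact this
  have hX1 : HasDerivAt (fun t : ℝ => p.X1 (x 1 ^ 2 + (x 2 + t) ^ 2)) (p.X2 (qq x) * (2 * x 2)) 0 := by
    have := HasDerivAt.comp (h₂ := p.X1) (h := fun t : ℝ => x 1 ^ 2 + (x 2 + t) ^ 2) (0:ℝ)
      (by rw [q0]; exact p.dX1 (qq x)) hq
    exact this
  have h := (((hX.pow 2).const_mul ((p.a (x 0)) ^ 2)).const_sub 1).sub
    (((hq.const_mul 4).mul_const ((p.A (x 0)) ^ 2)).mul (hX1.pow 2))
  refine h.congr_deriv ?_
  simp only [Pi.pow_apply, q0, dDf, Rq]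
  norm_num
  ring

lemma line_N2 (x : E3) : HasDerivAt (fun t : ℝ => Nf p 2 (x + t • ee 2)) (dNf p 2 x) 0 := by
  have e : (fun t : ℝ => Nf p 2 (x + t • ee 2)) = fun t : ℝ =>
      2 * (x 2 + t) * p.A (x 0) * p.X1 (x 1 ^ 2 + (x 2 + t) ^ 2) := by
    funext t
    simp [Nf, qq, ee_apply]
  rw [e]
  have h1 : HasDerivAt (fun t : ℝ => x 2 + t) 1 0 := (hasDerivAt_id (0:ℝ)).const_add (x 2)
  have hq : HasDerivAt (fun t : ℝ => x 1 ^ 2 + (x 2 + t) ^ 2) (2 * x 2) 0 := by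
    refine ((h1.pow 2).const_add _).congr_deriv ?_
    simp
  have q0 : x 1 ^ 2 + (x 2 + (0:ℝ)) ^ 2 = qq x := by simp [qq]
  have hX1 : HasDerivAt (fun t : ℝ => p.X1 (x 1 ^ 2 + (x 2 + t) ^ 2)) (p.X2 (qq x) * (2 * x 2)) 0 := by
    have := HasDerivAt.comp (h₂ := p.X1) (h := fun t : ℝ => x 1 ^ 2 + (x 2 + t) ^ 2) (0:ℝ)
      (by rw [q0]; exact p.dX1 (qq x)) hq
    exact this
  have h := ((h1.const_mul 2).mul_const (p.A (x 0))).mul hX1
  refine h.congr_deriv ?_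
  simp only [q0, dNf]
  simp
  ring

lemma line_D (i : Fin 3) (x : E3) : HasDerivAt (fun t : ℝ => Dx p (x + t • ee i)) (dDf p i x) 0 := by
  fin_cases i
  · exact line_D0 p x
  · exact line_D1 p x
  · exact line_D2 p x

lemma line_N (i : Fin 3) (x : E3) : HasDerivAt (fun t : ℝ => Nf p i (x + t • ee i)) (dNf p i x) 0 := by
  fin_cases i
  · exact line_N0 p x
  · exact line_N1 p x
  · exact line_N2 p x

/-! ### bounds -/

/-- the support box -/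
def InBox (x : E3) : Prop := |x 0| ≤ 1/2 ∧ qq x ≤ 1/2

lemma N_zero {x : E3} (h : ¬ InBox x) (i : Fin 3) : Nf p i x = 0 := by
  rw [InBox, not_and_or] at h
  rcases h with h | h
  · have h' : 1/2 ≤ |x 0| := by linarith
    fin_cases i <;> simp [Nf, p.A_zero _ h', p.a_zero _ h']
  · have h' : 1/2 ≤ qq x := by linarith
    fin_cases i <;> simp [Nf, p.X_zero _ h', p.X1_zero _ h']

lemma dN_zero {x : E3} (h : ¬ InBox x) (i : Fin 3) : dNf p i x = 0 := by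
  rw [InBox, not_and_or] at h
  rcases h with h | h
  · have h' : 1/2 ≤ |x 0| := by linarith
    fin_cases i <;> simp [dNf, p.A_zero _ h', p.a'_zero _ h']
  · have h' : 1/2 ≤ qq x := by linarith
    fin_cases i <;> simp [dNf, p.X_zero _ h', p.X1_zero _ h', p.X2_zero _ h']

lemma D_lower {x : E3} (hq : qq x ≤ 1) :
    qq x / 2 + (p.X (qq x)) ^ 2 * (1 - (p.a (x 0)) ^ 2) ≤ Dx p x := by
  have h0 := qq_nonneg x
  have hX0 := p.X_nn _ h0
  have hX1 := p.X_le _ h0 hq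
  have hs := p.small (x 0) (qq x)
  unfold Dx
  have h1 : 4 * qq x * (p.A (x 0)) ^ 2 * (p.X1 (qq x)) ^ 2 ≤ qq x / 2 := by
    have := mul_le_mul_of_nonneg_left hs h0
    linarith
  have h2 : (p.X (qq x)) ^ 2 ≤ 1 - qq x := by nlinarith
  nlinarith

lemma a_sq (t : ℝ) : (p.a t) ^ 2 ≤ 1 := by
  have := abs_le.1 (p.a_le t)
  nlinarith [this.1, this.2]

lemma D_le_one (x : E3) : Dx p x ≤ 1 := by
  unfold Dx
  have h0 := qq_nonneg x
  have h1 : 0 ≤ (p.a (x 0)) ^ 2 * (p.X (qq x)) ^ 2 := by positivity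
  have h2 : 0 ≤ 4 * qq x * (p.A (x 0)) ^ 2 * (p.X1 (qq x)) ^ 2 := by positivity
  linarith

lemma D_one {x : E3} (h : 1/2 ≤ qq x) : Dx p x = 1 := by
  unfold Dx
  rw [p.X_zero _ h, p.X1_zero _ h]; ring

lemma D_nonneg (x : E3) : 0 ≤ Dx p x := by
  rcases le_or_gt (qq x) 1 with h | h
  · have := D_lower p h
    have h0 := qq_nonneg x
    have h1 := a_sq p (x 0)
    have : 0 ≤ (p.X (qq x)) ^ 2 * (1 - (p.a (x 0)) ^ 2) := mul_nonneg (by positivity) (by linarith)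
    linarith
  · rw [D_one p (by linarith)]; norm_num

lemma D_ge_half {x : E3} (hq : qq x ≤ 1) : qq x / 2 ≤ Dx p x := by
  have := D_lower p hq
  have h1 := a_sq p (x 0)
  have : 0 ≤ (p.X (qq x)) ^ 2 * (1 - (p.a (x 0)) ^ 2) := mul_nonneg (by positivity) (by linarith)
  linarith

lemma D_pos {x : E3} (hq : 0 < qq x) : 0 < Dx p x := by
  rcases le_or_gt (qq x) 1 with h | h
  · have := D_ge_half p h
    linarith
  · rw [D_one p (by linarith)]; norm_num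

lemma sum_sq (x : E3) : (Nf p 0 x) ^ 2 + (Nf p 1 x) ^ 2 + (Nf p 2 x) ^ 2 = 1 - Dx p x := by
  simp only [Nf, Dx, qq]
  ring

lemma N_abs_le (i : Fin 3) (x : E3) : |Nf p i x| ≤ 1 := by
  have h := sum_sq p x
  have hD := D_nonneg p x
  have : (Nf p i x) ^ 2 ≤ 1 := by
    have h0 := sq_nonneg (Nf p 0 x)
    have h1 := sq_nonneg (Nf p 1 x)
    have h2 := sq_nonneg (Nf p 2 x)
    fin_cases i <;> simp only [Fin.zero_eta, Fin.mk_one, Fin.reduceFinMk] <;> linarith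
  exact abs_le_one_iff_mul_self_le_one.2 (by nlinarith)

lemma X_abs_le (x : E3) (hq : qq x ≤ 1) : 0 ≤ p.X (qq x) ∧ p.X (qq x) ≤ 1 := by
  have h0 := qq_nonneg x
  exact ⟨p.X_nn _ h0, by have := p.X_le _ h0 hq; linarith⟩

/-- a constant for all bounds -/
def KK : ℝ := 10 + 40 * p.C + 80 * p.C ^ 2 + 100 * p.C ^ 3

lemma KK_pos : 0 < KK p := by
  have := p.C0
  unfold KK; positivity

lemma dN_abs_le (i : Fin 3) (x : E3) : |dNf p i x| ≤ KK p := by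
  by_cases h : InBox x
  swap
  · rw [dN_zero p h]; simp; exact (KK_pos p).le
  obtain ⟨-, hq⟩ := h
  have hC := p.C0
  have hX := X_abs_le p x (by linarith)
  have h0 := qq_nonneg x
  have hx1 : x 1 ^ 2 ≤ 1 := by unfold qq at hq; nlinarith [sq_nonneg (x 2)]
  have hx2 : x 2 ^ 2 ≤ 1 := by unfold qq at hq; nlinarith [sq_nonneg (x 1)]
  have hK : 6 * p.C ≤ KK p := by unfold KK; nlinarith [sq_nonneg p.C, pow_nonneg hC 3]
  have hA := p.A_le (x 0)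
  have gen : ∀ y : ℝ, 0 ≤ y → y ≤ 1 →
      |2 * p.A (x 0) * p.X1 (qq x) + 4 * y * p.A (x 0) * p.X2 (qq x)| ≤ KK p := by
    intro y hy0 hy1
    have e1 : |2 * p.A (x 0) * p.X1 (qq x)| ≤ 2 * p.C := by
      rw [abs_mul, abs_mul, abs_two]
      calc 2 * |p.A (x 0)| * |p.X1 (qq x)| ≤ 2 * 1 * p.C := by
            gcongr
            exact p.X1_le _
        _ = 2 * p.C := by ring
    have e2 : |4 * y * p.A (x 0) * p.X2 (qq x)| ≤ 4 * p.C := by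
      rw [abs_mul, abs_mul, abs_mul, abs_of_nonneg hy0, abs_of_pos (by norm_num : (0:ℝ) < 4)]
      calc 4 * y * |p.A (x 0)| * |p.X2 (qq x)| ≤ 4 * 1 * 1 * p.C := by
            gcongr
            exact p.X2_le _
        _ = 4 * p.C := by ring
    calc _ ≤ |2 * p.A (x 0) * p.X1 (qq x)| + |4 * y * p.A (x 0) * p.X2 (qq x)| := abs_add_le _ _
      _ ≤ KK p := by linarith
  fin_cases i
  · simp only [dNf, Fin.zero_eta]
    rw [abs_mul, abs_of_nonneg hX.1]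
    have : |p.a' (x 0)| * p.X (qq x) ≤ p.C * 1 :=
      mul_le_mul (p.a'_le _) hX.2 hX.1 hC
    linarith
  · exact gen (x 1 ^ 2) (by positivity) hx1
  · exact gen (x 2 ^ 2) (by positivity) hx2

lemma D34_ge {x : E3} (hq : qq x ≤ 1) : qq x ≤ 2 * (Dx p x) ^ (3/4 : ℝ) := by
  have h1 := D_ge_half p hq
  have h2 := D_le_one p x
  have h3 := D_nonneg p x
  rcases eq_or_lt_of_le h3 with h | h
  · rw [← h] at h1 ⊢
    have : (0:ℝ) ≤ (0:ℝ) ^ (3/4 : ℝ) := Real.rpow_nonneg le_rfl _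
    linarith
  · have : Dx p x ≤ (Dx p x) ^ (3/4 : ℝ) := by
      calc Dx p x = (Dx p x) ^ (1:ℝ) := (Real.rpow_one _).symm
        _ ≤ _ := Real.rpow_le_rpow_of_exponent_ge h h2 (by norm_num)
    linarith

lemma ND_abs_le (i : Fin 3) (x : E3) : |Nf p i x * dDf p i x| ≤ KK p * (Dx p x) ^ (3/4 : ℝ) := by
  have hDn : 0 ≤ (Dx p x) ^ (3/4 : ℝ) := Real.rpow_nonneg (D_nonneg p x) _
  by_cases h : InBox x
  swap
  · rw [N_zero p h]; simp; exact mul_nonneg (KK_pos p).le hDn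
  obtain ⟨-, hq⟩ := h
  have hC := p.C0
  have hX := X_abs_le p x (by linarith)
  have h0 := qq_nonneg x
  have hx1 : x 1 ^ 2 ≤ qq x := by unfold qq; nlinarith [sq_nonneg (x 2)]
  have hx2 : x 2 ^ 2 ≤ qq x := by unfold qq; nlinarith [sq_nonneg (x 1)]
  have hqD := D34_ge p (x := x) (by linarith)
  have hA := p.A_le (x 0)
  have ha := p.a_le (x 0)
  have hX1 := p.X1_le (qq x)
  have hX2 := p.X2_le (qq x)
  have hAs : (p.A (x 0)) ^ 2 ≤ 1 := by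
    have := abs_le.1 hA
    nlinarith [this.1, this.2]
  have has := a_sq p (x 0)
  have hX1s : (p.X1 (qq x)) ^ 2 ≤ p.C ^ 2 := by
    rw [← sq_abs]; exact pow_le_pow_left₀ (abs_nonneg _) hX1 2
  have gen : ∀ y : ℝ, y ^ 2 ≤ qq x →
      |(2 * y * p.A (x 0) * p.X1 (qq x)) * (2 * y * Rq p x)| ≤ KK p * (Dx p x) ^ (3/4 : ℝ) := by
    intro y hy
    have hR : |Rq p x| ≤ 2 * p.C + 12 * p.C ^ 2 := by
      unfold Rq
      rw [abs_neg]
      have e1 : |2 * (p.a (x 0)) ^ 2 * p.X (qq x) * p.X1 (qq x)| ≤ 2 * p.C := by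
        rw [abs_mul, abs_mul, abs_mul, abs_two, abs_of_nonneg hX.1, abs_of_nonneg (sq_nonneg (p.a (x 0)))]
        calc 2 * (p.a (x 0)) ^ 2 * p.X (qq x) * |p.X1 (qq x)| ≤ 2 * 1 * 1 * p.C := by
              have a1 : 2 * (p.a (x 0)) ^ 2 ≤ 2 * 1 := by linarith
              have a2 : 2 * (p.a (x 0)) ^ 2 * p.X (qq x) ≤ 2 * 1 * 1 :=
                mul_le_mul a1 hX.2 hX.1 (by norm_num)
              exact mul_le_mul a2 hX1 (abs_nonneg _) (by norm_num)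
          _ = 2 * p.C := by ring
      have e2 : |4 * (p.A (x 0)) ^ 2 * (p.X1 (qq x)) ^ 2| ≤ 4 * p.C ^ 2 := by
        rw [abs_of_nonneg (by positivity)]
        calc 4 * (p.A (x 0)) ^ 2 * (p.X1 (qq x)) ^ 2 ≤ 4 * 1 * p.C ^ 2 := by
              have a1 : 4 * (p.A (x 0)) ^ 2 ≤ 4 * 1 := by linarith
              exact mul_le_mul a1 hX1s (by positivity) (by norm_num)
          _ = 4 * p.C ^ 2 := by ring
      have e3 : |8 * qq x * (p.A (x 0)) ^ 2 * p.X1 (qq x) * p.X2 (qq x)| ≤ 8 * p.C ^ 2 := by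
        rw [abs_mul, abs_mul, abs_of_nonneg (by positivity : 0 ≤ 8 * qq x * (p.A (x 0)) ^ 2)]
        have a1 : 8 * qq x * (p.A (x 0)) ^ 2 ≤ 8 * 1 * 1 :=
          mul_le_mul (by linarith) hAs (by positivity) (by norm_num)
        have a2 : 8 * qq x * (p.A (x 0)) ^ 2 * |p.X1 (qq x)| ≤ 8 * 1 * 1 * p.C :=
          mul_le_mul a1 hX1 (abs_nonneg _) (by norm_num)
        have a3 := mul_le_mul a2 hX2 (abs_nonneg _) (by positivity)
        calc _ ≤ 8 * 1 * 1 * p.C * p.C := a3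
          _ = 8 * p.C ^ 2 := by ring
      calc _ ≤ |2 * (p.a (x 0)) ^ 2 * p.X (qq x) * p.X1 (qq x) + 4 * (p.A (x 0)) ^ 2 * (p.X1 (qq x)) ^ 2|
            + |8 * qq x * (p.A (x 0)) ^ 2 * p.X1 (qq x) * p.X2 (qq x)| := abs_add_le _ _
        _ ≤ |2 * (p.a (x 0)) ^ 2 * p.X (qq x) * p.X1 (qq x)| + |4 * (p.A (x 0)) ^ 2 * (p.X1 (qq x)) ^ 2|
            + |8 * qq x * (p.A (x 0)) ^ 2 * p.X1 (qq x) * p.X2 (qq x)| := by
              gcongr; exact abs_add_le _ _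
        _ ≤ _ := by linarith
    have e0 : (2 * y * p.A (x 0) * p.X1 (qq x)) * (2 * y * Rq p x)
        = 4 * y ^ 2 * (p.A (x 0)) * (p.X1 (qq x)) * Rq p x := by ring
    rw [e0, abs_mul, abs_mul, abs_mul, abs_of_nonneg (by positivity : 0 ≤ 4 * y ^ 2)]
    have b1 : 4 * y ^ 2 * |p.A (x 0)| ≤ (4 * qq x) * 1 :=
      mul_le_mul (by linarith) hA (abs_nonneg _) (by positivity)
    have b2 : 4 * y ^ 2 * |p.A (x 0)| * |p.X1 (qq x)| ≤ (4 * qq x) * 1 * p.C :=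
      mul_le_mul b1 hX1 (abs_nonneg _) (by positivity)
    have b3 : 4 * y ^ 2 * |p.A (x 0)| * |p.X1 (qq x)| * |Rq p x|
        ≤ (4 * qq x) * 1 * p.C * (2 * p.C + 12 * p.C ^ 2) :=
      mul_le_mul b2 hR (abs_nonneg _) (by positivity)
    refine b3.trans ?_
    calc (4 * qq x) * 1 * p.C * (2 * p.C + 12 * p.C ^ 2)
        = qq x * (8 * p.C ^ 2 + 48 * p.C ^ 3) := by ring
      _ ≤ (2 * (Dx p x) ^ (3/4 : ℝ)) * (8 * p.C ^ 2 + 48 * p.C ^ 3) := by gcongr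
      _ = (16 * p.C ^ 2 + 96 * p.C ^ 3) * (Dx p x) ^ (3/4 : ℝ) := by ring
      _ ≤ KK p * (Dx p x) ^ (3/4 : ℝ) := by
        apply mul_le_mul_of_nonneg_right _ hDn
        unfold KK
        nlinarith [sq_nonneg p.C, pow_nonneg hC 3]
  fin_cases i
  · simp only [Nf, dDf, Fin.zero_eta]
    -- two terms
    have e0 : p.a (x 0) * p.X (qq x) * -(2 * p.a (x 0) * p.a' (x 0) * p.X (qq x) ^ 2 +
        8 * qq x * p.A (x 0) * p.a (x 0) * p.X1 (qq x) ^ 2)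
        = -(2 * (p.a (x 0)) ^ 2 * (p.a' (x 0) * (p.X (qq x)) ^ 3) +
          8 * qq x * p.A (x 0) * (p.a (x 0)) ^ 2 * p.X (qq x) * (p.X1 (qq x)) ^ 2) := by ring
    rw [e0, abs_neg]
    have k1 : |p.a' (x 0) * (p.X (qq x)) ^ 3| ≤ p.C * (Dx p x) ^ (3/4 : ℝ) := by
      rw [abs_mul, abs_of_nonneg (by have := hX.1; positivity : 0 ≤ (p.X (qq x)) ^ 3)]
      have hX3 : (p.X (qq x)) ^ 3 ≤ ((p.X (qq x)) ^ 2) ^ (3/4 : ℝ) := by
        have e1 : ((p.X (qq x)) ^ 2) ^ (3/4 : ℝ) = (p.X (qq x)) ^ (3/2 : ℝ) := by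
          rw [← Real.rpow_natCast, ← Real.rpow_mul hX.1]; norm_num
        have e2 : (p.X (qq x)) ^ 3 = (p.X (qq x)) ^ (3 : ℝ) := by
          rw [← Real.rpow_natCast]; norm_num
        rw [e1, e2]
        rcases eq_or_lt_of_le hX.1 with h | h
        · rw [← h]; rw [Real.zero_rpow (by norm_num), Real.zero_rpow (by norm_num)]
        · exact Real.rpow_le_rpow_of_exponent_ge h hX.2 (by norm_num)
      have hpos : 0 ≤ (1 - (p.a (x 0)) ^ 2) ^ (3/4 : ℝ) := Real.rpow_nonneg (by linarith) _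
      calc |p.a' (x 0)| * (p.X (qq x)) ^ 3
          ≤ (p.C * (1 - (p.a (x 0)) ^ 2) ^ (3/4 : ℝ)) * ((p.X (qq x)) ^ 2) ^ (3/4 : ℝ) :=
            mul_le_mul (p.a'_le' _) hX3 (by have := hX.1; positivity) (by positivity)
        _ = p.C * ((p.X (qq x)) ^ 2 * (1 - (p.a (x 0)) ^ 2)) ^ (3/4 : ℝ) := by
            rw [Real.mul_rpow (by positivity) (by linarith)]; ring
        _ ≤ p.C * (Dx p x) ^ (3/4 : ℝ) := by
            apply mul_le_mul_of_nonneg_left _ hC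
            apply Real.rpow_le_rpow (mul_nonneg (by positivity) (by linarith)) _ (by norm_num)
            have := D_lower p (x := x) (by linarith)
            linarith
    have t1 : |2 * (p.a (x 0)) ^ 2 * (p.a' (x 0) * (p.X (qq x)) ^ 3)| ≤ 2 * (p.C * (Dx p x) ^ (3/4 : ℝ)) := by
      rw [abs_mul, abs_of_nonneg (by positivity : 0 ≤ 2 * (p.a (x 0)) ^ 2)]
      calc 2 * (p.a (x 0)) ^ 2 * |p.a' (x 0) * (p.X (qq x)) ^ 3|
          ≤ (2 * 1) * (p.C * (Dx p x) ^ (3/4 : ℝ)) :=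
            mul_le_mul (by linarith) k1 (abs_nonneg _) (by norm_num)
        _ = _ := by ring
    have t2 : |8 * qq x * p.A (x 0) * (p.a (x 0)) ^ 2 * p.X (qq x) * (p.X1 (qq x)) ^ 2|
        ≤ 8 * qq x * p.C ^ 2 := by
      rw [abs_mul, abs_mul, abs_mul, abs_mul, abs_of_nonneg (by positivity : 0 ≤ 8 * qq x),
        abs_of_nonneg hX.1, abs_of_nonneg (sq_nonneg (p.a (x 0))), abs_of_nonneg (sq_nonneg (p.X1 (qq x)))]
      have c1 : 8 * qq x * |p.A (x 0)| ≤ 8 * qq x * 1 :=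
        mul_le_mul_of_nonneg_left hA (by positivity)
      have c2 : 8 * qq x * |p.A (x 0)| * (p.a (x 0)) ^ 2 ≤ 8 * qq x * 1 * 1 :=
        mul_le_mul c1 has (by positivity) (by positivity)
      have c3 : 8 * qq x * |p.A (x 0)| * (p.a (x 0)) ^ 2 * p.X (qq x) ≤ 8 * qq x * 1 * 1 * 1 :=
        mul_le_mul c2 hX.2 hX.1 (by positivity)
      have c4 := mul_le_mul c3 hX1s (by positivity) (by positivity)
      calc _ ≤ 8 * qq x * 1 * 1 * 1 * p.C ^ 2 := c4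
        _ = _ := by ring
    calc _ ≤ |2 * (p.a (x 0)) ^ 2 * (p.a' (x 0) * (p.X (qq x)) ^ 3)|
          + |8 * qq x * p.A (x 0) * (p.a (x 0)) ^ 2 * p.X (qq x) * (p.X1 (qq x)) ^ 2| := abs_add_le _ _
      _ ≤ 2 * (p.C * (Dx p x) ^ (3/4 : ℝ)) + 8 * qq x * p.C ^ 2 := add_le_add t1 t2
      _ ≤ 2 * (p.C * (Dx p x) ^ (3/4 : ℝ)) + 8 * (2 * (Dx p x) ^ (3/4 : ℝ)) * p.C ^ 2 := by gcongr
      _ = (2 * p.C + 16 * p.C ^ 2) * (Dx p x) ^ (3/4 : ℝ) := by ring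
      _ ≤ KK p * (Dx p x) ^ (3/4 : ℝ) := by
        apply mul_le_mul_of_nonneg_right _ hDn
        unfold KK
        nlinarith [sq_nonneg p.C, pow_nonneg hC 3]
  · exact gen (x 1) hx1
  · exact gen (x 2) hx2

end

end Q65.Light
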