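import Mathlib
import Pool.Agent.Q65.LightBlock

/-!
# Integration by parts for the flux of the block
-/

namespace Q65.Light

open Set MeasureTheory Filter Topology
open scoped ContDiff NNReal

noncomputable section

variable (p : Prof)

/-- regularised flux component -/
def Fe (ε : ℝ) (i : Fin 3) (x : E3) : ℝ := Nf p i x / √(ε + Dx p x)

/-- its `i`-th partial derivative -/
def dFe (ε : ℝ) (i : Fin 3) (x : E3) : ℝ :=
  dNf p i x / √(ε + Dx p x) - Nf p i x * dDf p i x / (2 * ((ε + Dx p x) * √(ε + Dx p x)))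

lemma line_F {ε : ℝ} (hε : 0 < ε) (i : Fin 3) (x : E3) :
    HasLineDerivAt ℝ (Fe p ε i) (dFe p ε i x) x (ee i) := by
  unfold HasLineDerivAt
  have hD := D_nonneg p x
  have hpos : 0 < ε + Dx p x := by linarith
  have h1 := line_N p i x
  have h2 := (line_D p i x).const_add ε
  have e0 : x + (0:ℝ) • ee i = x := by simp
  have h3 := h2.sqrt (by simp only [e0]; exact hpos.ne')
  have h4 := h1.div h3 (by simp only [e0]; exact (Real.sqrt_pos.2 hpos).ne')
  simp only [e0] at h4
  refine h4.congr_deriv ?_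
  have hs : 0 < √(ε + Dx p x) := Real.sqrt_pos.2 hpos
  have hss : √(ε + Dx p x) ^ 2 = ε + Dx p x := Real.sq_sqrt hpos.le
  unfold dFe
  rw [← hss, Real.sqrt_sq hs.le]
  field_simp

/-! ### regularity of the regularised flux -/

lemma cd_a : ContDiff ℝ 1 p.a := by
  rw [contDiff_one_iff_deriv]
  refine ⟨fun t => (p.da t).differentiableAt, ?_⟩
  have : deriv p.a = p.a' := funext fun t => (p.da t).deriv
  rw [this]; exact p.ca'

lemma cd_A : ContDiff ℝ 1 p.A := by
  rw [contDiff_one_iff_deriv]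
  refine ⟨fun t => (p.dA t).differentiableAt, ?_⟩
  have : deriv p.A = p.a := funext fun t => (p.dA t).deriv
  rw [this]; exact (cd_a p).continuous

lemma cd_X1 : ContDiff ℝ 1 p.X1 := by
  rw [contDiff_one_iff_deriv]
  refine ⟨fun t => (p.dX1 t).differentiableAt, ?_⟩
  have : deriv p.X1 = p.X2 := funext fun t => (p.dX1 t).deriv
  rw [this]; exact p.cX2

lemma cd_X : ContDiff ℝ 1 p.X := by
  rw [contDiff_one_iff_deriv]
  refine ⟨fun t => (p.dX t).differentiableAt, ?_⟩
  have : deriv p.X = p.X1 := funext fun t => (p.dX t).deriv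
  rw [this]; exact (cd_X1 p).continuous

lemma cd_coord (i : Fin 3) : ContDiff ℝ 1 (fun x : E3 => x i) :=
  (EuclideanSpace.proj (𝕜 := ℝ) i : E3 →L[ℝ] ℝ).contDiff

lemma cd_q : ContDiff ℝ 1 qq := by
  unfold qq
  exact ((cd_coord 1).pow 2).add ((cd_coord 2).pow 2)

lemma cd_D : ContDiff ℝ 1 (Dx p) := by
  unfold Dx
  exact (contDiff_const.sub ((((cd_a p).comp (cd_coord 0)).pow 2).mul (((cd_X p).comp cd_q).pow 2))).sub
    (((contDiff_const.mul cd_q).mul (((cd_A p).comp (cd_coord 0)).pow 2)).mul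
      (((cd_X1 p).comp cd_q).pow 2))

lemma cd_N (i : Fin 3) : ContDiff ℝ 1 (Nf p i) := by
  fin_cases i
  · exact ((cd_a p).comp (cd_coord 0)).mul ((cd_X p).comp cd_q)
  · exact ((contDiff_const.mul (cd_coord 1)).mul ((cd_A p).comp (cd_coord 0))).mul
      ((cd_X1 p).comp cd_q)
  · exact ((contDiff_const.mul (cd_coord 2)).mul ((cd_A p).comp (cd_coord 0))).mul
      ((cd_X1 p).comp cd_q)

lemma cd_F {ε : ℝ} (hε : 0 < ε) (i : Fin 3) : ContDiff ℝ 1 (Fe p ε i) := by
  unfold Fe
  have hpos : ∀ x, 0 < ε + Dx p x := fun x => by linarith [D_nonneg p x]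
  exact (cd_N p i).div ((contDiff_const.add (cd_D p)).sqrt (fun x => (hpos x).ne'))
    (fun x => (Real.sqrt_pos.2 (hpos x)).ne')

lemma norm_sq_E3 (x : E3) : ‖x‖ ^ 2 = x 0 ^ 2 + x 1 ^ 2 + x 2 ^ 2 := by
  rw [EuclideanSpace.norm_sq_eq]
  simp [Fin.sum_univ_three]

lemma inBox_norm {x : E3} (h : InBox x) : ‖x‖ < 1 := by
  have h1 := norm_sq_E3 x
  obtain ⟨h2, h3⟩ := h
  have h4 : x 0 ^ 2 ≤ 1/4 := by
    have := abs_le.1 h2
    nlinarith [this.1, this.2]
  unfold qq at h3
  have : ‖x‖ ^ 2 < 1 := by linarith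
  nlinarith [norm_nonneg x]

lemma supp_F (ε : ℝ) (i : Fin 3) : HasCompactSupport (Fe p ε i) := by
  apply HasCompactSupport.intro (isCompact_closedBall (0:E3) 1)
  intro x hx
  have : ¬ InBox x := fun h => hx (by simpa [Metric.mem_closedBall] using (inBox_norm h).le)
  unfold Fe
  rw [N_zero p this, zero_div]

/-! ### the dominating function -/

def hh : Fin 3 → ℝ → ℝ
  | 0, t => indicator (Icc (-1) 1) (fun _ => 1) t
  | 1, t => indicator (Icc (-1) 1) (fun s => |s| ^ (-(3/4) : ℝ)) t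
  | 2, t => indicator (Icc (-1) 1) (fun s => |s| ^ (-(3/4) : ℝ)) t

lemma integrable_hh (i : Fin 3) : Integrable (hh i) := by
  have h1 : Integrable (indicator (Icc (-1:ℝ) 1) (fun s => |s| ^ (-(3/4) : ℝ))) := by
    rw [integrable_indicator_iff measurableSet_Icc]
    have hpos : IntervalIntegrable (fun s : ℝ => |s| ^ (-(3/4) : ℝ)) volume 0 1 := by
      have := intervalIntegral.intervalIntegrable_rpow' (a := 0) (b := 1) (r := (-(3/4) : ℝ)) (by norm_num)
      refine this.congr ?_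
      intro s hs
      rw [uIoc_of_le (by norm_num)] at hs
      simp only
      rw [abs_of_pos hs.1]
    have hneg : IntervalIntegrable (fun s : ℝ => |s| ^ (-(3/4) : ℝ)) volume (-1) 0 := by
      rw [IntervalIntegrable.iff_comp_neg]
      simp only [abs_neg, neg_neg, neg_zero]
      exact hpos.symm
    have := hneg.trans hpos
    rw [intervalIntegrable_iff_integrableOn_Icc_of_le (by norm_num)] at this
    exact this
  fin_cases i
  · change Integrable (indicator (Icc (-1:ℝ) 1) (fun _ => (1:ℝ)))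
    rw [integrable_indicator_iff measurableSet_Icc]
    exact integrableOn_const (by simp) (by simp)
  · exact h1
  · exact h1

def GG (x : E3) : ℝ := ∏ i, hh i (x i)

lemma integrable_GG : Integrable GG := by
  have h1 : Integrable (fun x : Fin 3 → ℝ => ∏ i, hh i (x i)) := by
    exact Integrable.fintype_prod (f := hh) (fun i => integrable_hh i)
  have h2 := (EuclideanSpace.volume_preserving_symm_measurableEquiv_toLp (Fin 3))
  have h3 := h2.integrable_comp_of_integrable (g := (fun x : Fin 3 → ℝ => ∏ i, hh i (x i))) h1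
  exact h3

lemma GG_nonneg (x : E3) : 0 ≤ GG x := by
  unfold GG
  apply Finset.prod_nonneg
  intro i _
  fin_cases i
  · change 0 ≤ indicator (Icc (-1:ℝ) 1) (fun _ => (1:ℝ)) _
    exact indicator_nonneg (fun _ _ => by norm_num) _
  · exact indicator_nonneg (fun _ _ => Real.rpow_nonneg (abs_nonneg _) _) _
  · exact indicator_nonneg (fun _ _ => Real.rpow_nonneg (abs_nonneg _) _) _

lemma D_le_GG {x : E3} (h : InBox x) (h1 : x 1 ≠ 0) (h2 : x 2 ≠ 0) :
    (Dx p x) ^ (-(3/4) : ℝ) ≤ GG x := by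
  have hb0 : |x 0| ≤ 1 := by linarith [h.1]
  have hq : x 1 ^ 2 + x 2 ^ 2 ≤ 1/2 := h.2
  have hb1 : |x 1| ≤ 1 := abs_le_one_iff_mul_self_le_one.2 (by nlinarith [sq_nonneg (x 2)])
  have hb2 : |x 2| ≤ 1 := abs_le_one_iff_mul_self_le_one.2 (by nlinarith [sq_nonneg (x 1)])
  have e : GG x = |x 1| ^ (-(3/4) : ℝ) * |x 2| ^ (-(3/4) : ℝ) := by
    unfold GG
    rw [Fin.prod_univ_three]
    simp only [hh]
    rw [indicator_of_mem (by exact abs_le.1 hb0), indicator_of_mem (by exact abs_le.1 hb1),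
      indicator_of_mem (by exact abs_le.1 hb2), one_mul]
  rw [e, ← Real.mul_rpow (abs_nonneg _) (abs_nonneg _)]
  have hp : 0 < |x 1| * |x 2| := mul_pos (abs_pos.2 h1) (abs_pos.2 h2)
  apply Real.rpow_le_rpow_of_nonpos hp _ (by norm_num)
  have hD := D_ge_half p (x := x) (by unfold qq; linarith)
  unfold qq at hD
  have : 2 * (|x 1| * |x 2|) ≤ x 1 ^ 2 + x 2 ^ 2 := by
    rw [← sq_abs (x 1), ← sq_abs (x 2)]
    nlinarith [sq_nonneg (|x 1| - |x 2|)]
  linarith

lemma ae_ne (i : Fin 3) : ∀ᵐ x : E3, x i ≠ 0 := by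
  have h := (PiLp.volume_preserving_ofLp (Fin 3))
  have h0 : ∀ᵐ y : Fin 3 → ℝ, y i ≠ 0 := by
    have := MeasureTheory.Measure.ae_eval_ne (μ := fun _ : Fin 3 => (volume : Measure ℝ)) i 0
    exact this
  exact h.quasiMeasurePreserving.ae h0

lemma inv_sqrt_le {D ε : ℝ} (hD : 0 < D) (hD1 : D ≤ 1) (hε : 0 ≤ ε) :
    1 / √(ε + D) ≤ D ^ (-(3/4) : ℝ) := by
  have h1 : 1 / √(ε + D) ≤ 1 / √D := by
    apply one_div_le_one_div_of_le (Real.sqrt_pos.2 hD)
    exact Real.sqrt_le_sqrt (by linarith)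
  have h2 : 1 / √D = D ^ (-(1/2) : ℝ) := by
    rw [Real.rpow_neg hD.le, Real.sqrt_eq_rpow, one_div]
  rw [h2] at h1
  exact h1.trans (Real.rpow_le_rpow_of_exponent_ge hD hD1 (by norm_num))

lemma inv_threehalf_le {D ε : ℝ} (hD : 0 < D) (hε : 0 ≤ ε) :
    D ^ (3/4 : ℝ) / ((ε + D) * √(ε + D)) ≤ D ^ (-(3/4) : ℝ) := by
  have h1 : D * √D ≤ (ε + D) * √(ε + D) := by
    apply mul_le_mul (by linarith) (Real.sqrt_le_sqrt (by linarith)) (Real.sqrt_nonneg _) (by linarith)
  have h0 : 0 < D * √D := mul_pos hD (Real.sqrt_pos.2 hD)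
  have h2 : D ^ (3/4 : ℝ) / ((ε + D) * √(ε + D)) ≤ D ^ (3/4 : ℝ) / (D * √D) := by
    apply div_le_div_of_nonneg_left (Real.rpow_nonneg hD.le _) h0 h1
  refine h2.trans (le_of_eq ?_)
  have e1 : D * √D = D ^ (3/2 : ℝ) := by
    rw [Real.sqrt_eq_rpow]
    nth_rw 1 [← Real.rpow_one D]
    rw [← Real.rpow_add hD]; norm_num
  rw [e1, ← Real.rpow_sub hD]; norm_num

lemma F_bound {ε : ℝ} (hε : 0 ≤ ε) (i : Fin 3) {x : E3} (h1 : x 1 ≠ 0) (h2 : x 2 ≠ 0) :
    |Fe p ε i x| ≤ GG x := by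
  by_cases hb : InBox x
  swap
  · unfold Fe; rw [N_zero p hb, zero_div, abs_zero]; exact GG_nonneg x
  have hq : 0 < qq x := by unfold qq; positivity
  have hD := D_pos p hq
  have hD1 := D_le_one p x
  unfold Fe
  rw [abs_div, abs_of_nonneg (Real.sqrt_nonneg _)]
  calc |Nf p i x| / √(ε + Dx p x) ≤ 1 / √(ε + Dx p x) := by
        gcongr
        exact N_abs_le p i x
    _ ≤ (Dx p x) ^ (-(3/4) : ℝ) := inv_sqrt_le hD hD1 hε
    _ ≤ GG x := D_le_GG p hb h1 h2

lemma dF_bound {ε : ℝ} (hε : 0 ≤ ε) (i : Fin 3) {x : E3} (h1 : x 1 ≠ 0) (h2 : x 2 ≠ 0) :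
    |dFe p ε i x| ≤ 2 * KK p * GG x := by
  have hK := (KK_pos p).le
  by_cases hb : InBox x
  swap
  · unfold dFe; rw [N_zero p hb, dN_zero p hb]; simp
    have := GG_nonneg x
    positivity
  have hq : 0 < qq x := by unfold qq; positivity
  have hD := D_pos p hq
  have hD1 := D_le_one p x
  have t1 : |dNf p i x / √(ε + Dx p x)| ≤ KK p * (Dx p x) ^ (-(3/4) : ℝ) := by
    rw [abs_div, abs_of_nonneg (Real.sqrt_nonneg _), div_eq_mul_one_div]
    exact mul_le_mul (dN_abs_le p i x) (inv_sqrt_le hD hD1 hε) (by positivity) hK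
  have t2 : |Nf p i x * dDf p i x / (2 * ((ε + Dx p x) * √(ε + Dx p x)))|
      ≤ KK p * (Dx p x) ^ (-(3/4) : ℝ) := by
    have hpos : 0 ≤ (ε + Dx p x) * √(ε + Dx p x) := by positivity
    rw [abs_div, abs_of_nonneg (by linarith : 0 ≤ 2 * ((ε + Dx p x) * √(ε + Dx p x)))]
    calc |Nf p i x * dDf p i x| / (2 * ((ε + Dx p x) * √(ε + Dx p x)))
        ≤ (KK p * (Dx p x) ^ (3/4 : ℝ)) / (2 * ((ε + Dx p x) * √(ε + Dx p x))) := by
          gcongr
          exact ND_abs_le p i x
      _ = (KK p / 2) * ((Dx p x) ^ (3/4 : ℝ) / ((ε + Dx p x) * √(ε + Dx p x))) := by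
          rw [mul_div_mul_comm]
      _ ≤ (KK p / 2) * (Dx p x) ^ (-(3/4) : ℝ) := by
          apply mul_le_mul_of_nonneg_left (inv_threehalf_le hD hε) (by linarith)
      _ ≤ KK p * (Dx p x) ^ (-(3/4) : ℝ) := by
          apply mul_le_mul_of_nonneg_right _ (Real.rpow_nonneg hD.le _)
          linarith
  have hG := D_le_GG p hb h1 h2
  calc |dFe p ε i x| ≤ |dNf p i x / √(ε + Dx p x)|
        + |Nf p i x * dDf p i x / (2 * ((ε + Dx p x) * √(ε + Dx p x)))| := abs_sub _ _
    _ ≤ 2 * KK p * (Dx p x) ^ (-(3/4) : ℝ) := by linarith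
    _ ≤ 2 * KK p * GG x := by gcongr

/-- the limit `ε → 0` -/
lemma F_tendsto (i : Fin 3) {x : E3} (h1 : x 1 ≠ 0) {e : ℕ → ℝ} (he : Tendsto e atTop (𝓝 0)) :
    Tendsto (fun n => Fe p (e n) i x) atTop (𝓝 (Fe p 0 i x)) := by
  have hq : 0 < qq x := by unfold qq; positivity
  have hD := D_pos p hq
  unfold Fe
  apply Tendsto.div tendsto_const_nhds
  · exact (Real.continuous_sqrt.tendsto _).comp (he.add_const _)
  · simpa using (Real.sqrt_pos.2 hD).ne'

lemma dF_tendsto (i : Fin 3) {x : E3} (h1 : x 1 ≠ 0) {e : ℕ → ℝ} (he : Tendsto e atTop (𝓝 0)) :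
    Tendsto (fun n => dFe p (e n) i x) atTop (𝓝 (dFe p 0 i x)) := by
  have hq : 0 < qq x := by unfold qq; positivity
  have hD := D_pos p hq
  have hs : Tendsto (fun n => √(e n + Dx p x)) atTop (𝓝 √(0 + Dx p x)) :=
    (Real.continuous_sqrt.tendsto _).comp (he.add_const _)
  have hne : √(0 + Dx p x) ≠ 0 := by simpa using (Real.sqrt_pos.2 hD).ne'
  unfold dFe
  apply Tendsto.sub
  · exact Tendsto.div tendsto_const_nhds hs hne
  · apply Tendsto.div tendsto_const_nhds
    · exact ((he.add_const _).mul hs).const_mul 2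
    · exact mul_ne_zero two_ne_zero (mul_ne_zero (by simpa using hD.ne') hne)

lemma aesm_line {g : E3 → ℝ} (hg : Continuous g) (v : E3) :
    AEStronglyMeasurable (fun x => lineDeriv ℝ g x v) volume :=
  (measurable_lineDeriv hg).aestronglyMeasurable

theorem ibp_comp (i : Fin 3) {w : E3 → ℝ} {Cw : ℝ≥0} (hw : LipschitzWith Cw w) {M : ℝ}
    (hM : ∀ x, |w x| ≤ M) :
    Integrable (fun x => Fe p 0 i x) ∧ Integrable (fun x => dFe p 0 i x) ∧
    ∫ x, Fe p 0 i x * lineDeriv ℝ w x (ee i) = - ∫ x, dFe p 0 i x * w x := by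
  set e : ℕ → ℝ := fun n => 1 / ((n:ℝ) + 1) with hedef
  have he : Tendsto e atTop (𝓝 0) := tendsto_one_div_add_atTop_nhds_zero_nat
  have hepos : ∀ n, 0 < e n := fun n => by simp only [hedef]; positivity
  have hM0 : 0 ≤ M := (abs_nonneg _).trans (hM 0)
  have hlw : ∀ x, |lineDeriv ℝ w x (ee i)| ≤ Cw := by
    intro x
    have := norm_lineDeriv_le_of_lipschitz ℝ hw (x₀ := x) (v := ee i)
    simpa [ee] using this
  have hae : ∀ᵐ x : E3, x 1 ≠ 0 ∧ x 2 ≠ 0 := (ae_ne 1).and (ae_ne 2)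
  -- measurability of the limits
  have mF : ∀ n, AEStronglyMeasurable (Fe p (e n) i) volume :=
    fun n => (cd_F p (hepos n) i).continuous.aestronglyMeasurable
  have mdF : ∀ n, AEStronglyMeasurable (dFe p (e n) i) volume := by
    intro n
    have h := aesm_line (cd_F p (hepos n) i).continuous (ee i)
    refine h.congr (Eventually.of_forall fun x => ?_)
    exact (line_F p (hepos n) i x).lineDeriv
  have mF0 : AEStronglyMeasurable (Fe p 0 i) volume :=
    aestronglyMeasurable_of_tendsto_ae atTop mF (hae.mono fun x hx => F_tendsto p i hx.1 he)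
  have mdF0 : AEStronglyMeasurable (dFe p 0 i) volume :=
    aestronglyMeasurable_of_tendsto_ae atTop mdF (hae.mono fun x hx => dF_tendsto p i hx.1 he)
  have mlw : AEStronglyMeasurable (fun x => lineDeriv ℝ w x (ee i)) volume :=
    aesm_line hw.continuous _
  refine ⟨?_, ?_, ?_⟩
  · refine integrable_GG.mono' mF0 (hae.mono fun x hx => ?_)
    exact F_bound p le_rfl i hx.1 hx.2
  · refine (integrable_GG.const_mul (2 * KK p)).mono' mdF0 (hae.mono fun x hx => ?_)
    exact dF_bound p le_rfl i hx.1 hx.2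
  · have key : ∀ n, ∫ x, Fe p (e n) i x * lineDeriv ℝ w x (ee i) = - ∫ x, dFe p (e n) i x * w x := by
      intro n
      obtain ⟨C, hC⟩ := (cd_F p (hepos n) i).lipschitzWith_of_hasCompactSupport (supp_F p _ i)
        (by norm_num)
      have h := LipschitzWith.integral_lineDeriv_mul_eq (μ := volume) hw hC (supp_F p _ i) (ee i)
      have e1 : ∫ x, Fe p (e n) i x * lineDeriv ℝ w x (ee i)
          = ∫ x, lineDeriv ℝ w x (ee i) * Fe p (e n) i x := by
        congr 1; ext x; ring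
      rw [e1, h, ← integral_neg]
      congr 1
      ext x
      rw [lineDeriv_neg, (line_F p (hepos n) i x).lineDeriv]
      ring
    have l1 : Tendsto (fun n => ∫ x, Fe p (e n) i x * lineDeriv ℝ w x (ee i)) atTop
        (𝓝 (∫ x, Fe p 0 i x * lineDeriv ℝ w x (ee i))) := by
      apply tendsto_integral_of_dominated_convergence (fun x => GG x * Cw)
      · intro n; exact (mF n).mul mlw
      · exact integrable_GG.mul_const _
      · intro n
        filter_upwards [hae] with x hx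
        rw [norm_mul]
        exact mul_le_mul (F_bound p (hepos n).le i hx.1 hx.2) (hlw x) (norm_nonneg _) (GG_nonneg x)
      · filter_upwards [hae] with x hx
        exact (F_tendsto p i hx.1 he).mul_const _
    have l2 : Tendsto (fun n => - ∫ x, dFe p (e n) i x * w x) atTop
        (𝓝 (- ∫ x, dFe p 0 i x * w x)) := by
      apply Tendsto.neg
      apply tendsto_integral_of_dominated_convergence (fun x => (2 * KK p * GG x) * M)
      · intro n; exact (mdF n).mul hw.continuous.aestronglyMeasurable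
      · exact (integrable_GG.const_mul _).mul_const _
      · intro n
        filter_upwards [hae] with x hx
        rw [norm_mul]
        exact mul_le_mul (dF_bound p (hepos n).le i hx.1 hx.2) (hM x) (norm_nonneg _)
          (mul_nonneg (mul_nonneg (by norm_num) (KK_pos p).le) (GG_nonneg x))
      · filter_upwards [hae] with x hx
        exact (dF_tendsto p i hx.1 he).mul_const _
    exact tendsto_nhds_unique l1 (by simpa only [key] using l2)

end

end Q65.Light
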