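import Mathlib
import Pool.Agent.Q65.LightBlock2

/-!
# The block, its gradient, and its rescaled copies
-/

namespace Q65.Light

open Set MeasureTheory Filter Topology
open scoped ContDiff NNReal Gradient

noncomputable section

variable (p : Prof)

def Wf (x : E3) : ℝ := p.A (x 0) * p.X (qq x)

def Gv (x : E3) : E3 := !₂[Nf p 0 x, Nf p 1 x, Nf p 2 x]

lemma inner_E3 (x y : E3) : inner ℝ x y = x 0 * y 0 + x 1 * y 1 + x 2 * y 2 := by
  rw [PiLp.inner_apply]
  simp [Fin.sum_univ_three]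
  ring

lemma Gv_apply (i : Fin 3) (x : E3) : Gv p x i = Nf p i x := by
  fin_cases i <;> rfl

lemma hasGradientAt_W (x : E3) : HasGradientAt (Wf p) (Gv p x) x := by
  rw [hasGradientAt_iff_hasFDerivAt]
  have hc : ∀ i : Fin 3, HasFDerivAt (fun y : E3 => y i) (EuclideanSpace.proj (𝕜 := ℝ) i : E3 →L[ℝ] ℝ) x :=
    fun i => (EuclideanSpace.proj (𝕜 := ℝ) i : E3 →L[ℝ] ℝ).hasFDerivAt
  have hq : HasFDerivAt qq _ x := ((hc 1).pow 2).add ((hc 2).pow 2)
  have hA : HasFDerivAt (fun y : E3 => p.A (y 0)) _ x := (p.dA (x 0)).comp_hasFDerivAt x (hc 0)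
  have hX : HasFDerivAt (fun y : E3 => p.X (qq y)) _ x := (p.dX (qq x)).comp_hasFDerivAt x hq
  have h := hA.mul hX
  have h' : HasFDerivAt (Wf p) _ x := h
  refine h'.congr_fderiv ?_
  ext y
  simp only [InnerProductSpace.toDual_apply_apply]
  rw [inner_E3, Gv_apply, Gv_apply, Gv_apply]
  simp [Nf]
  ring

lemma gradient_W (x : E3) : ∇ (Wf p) x = Gv p x := (hasGradientAt_W p x).gradient

lemma norm_Gv_sq (x : E3) : ‖Gv p x‖ ^ 2 = 1 - Dx p x := by
  rw [norm_sq_E3, Gv_apply, Gv_apply, Gv_apply, sum_sq]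

lemma norm_Gv_le (x : E3) : ‖Gv p x‖ ≤ 1 := by
  have h := norm_Gv_sq p x
  have h2 := D_nonneg p x
  nlinarith [norm_nonneg (Gv p x)]

lemma Gv_zero {x : E3} (h : ¬ InBox x) : Gv p x = 0 := by
  ext i
  rw [Gv_apply, N_zero p h]; rfl

lemma W_zero {x : E3} (h : ¬ InBox x) : Wf p x = 0 := by
  rw [InBox, not_and_or] at h
  unfold Wf
  rcases h with h | h
  · rw [p.A_zero _ (by linarith), zero_mul]
  · rw [p.X_zero _ (by linarith), mul_zero]

lemma notInBox {x : E3} (h : 1 ≤ ‖x‖) : ¬ InBox x := fun hb => by linarith [inBox_norm hb]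

lemma W_light (t : ℝ) (ht : |t| ≤ p.l) : Wf p (t • ee 0) = t := by
  unfold Wf qq
  simp [ee_apply, p.A_lin t ht, p.X_at0]

lemma lip_W : LipschitzWith 1 (Wf p) := by
  apply lipschitzWith_of_nnnorm_fderiv_le (𝕜 := ℝ)
  · intro x
    exact (hasGradientAt_W p x).hasFDerivAt.differentiableAt
  · intro x
    rw [(hasGradientAt_W p x).hasFDerivAt.fderiv]
    rw [← NNReal.coe_le_coe]
    simp only [coe_nnnorm, NNReal.coe_one]
    rw [LinearIsometryEquiv.norm_map]
    exact norm_Gv_le p x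

/-! ### rescaled copies -/

variable (c : E3) (r : ℝ)

/-- normalised coordinate -/
def yy (x : E3) : E3 := (1 / r) • (x - c)

def Wn (x : E3) : ℝ := r * Wf p (yy c r x)

def Gn (x : E3) : E3 := Gv p (yy c r x)

/-- the flux -/
def Fn (x : E3) : E3 := (1 / √(1 - ‖Gn p c r x‖ ^ 2)) • Gn p c r x

/-- minus the divergence of the flux -/
def fn (x : E3) : ℝ := - (1 / r) * (dFe p 0 0 (yy c r x) + dFe p 0 1 (yy c r x) + dFe p 0 2 (yy c r x))

variable {c r}

lemma hasGradientAt_Wn (hr : 0 < r) (x : E3) : HasGradientAt (Wn p c r) (Gn p c r x) x := by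
  rw [hasGradientAt_iff_hasFDerivAt]
  have h1 : HasFDerivAt (yy c r) ((1 / r) • ContinuousLinearMap.id ℝ E3) x := by
    unfold yy
    exact ((hasFDerivAt_id x).sub_const c).const_smul (1 / r)
  have h2 := ((hasGradientAt_W p (yy c r x)).hasFDerivAt.comp x h1).const_mul r
  have h3 : HasFDerivAt (Wn p c r) _ x := h2
  refine h3.congr_fderiv ?_
  ext y
  simp [Gn, real_inner_smul_right]
  field_simp

lemma norm_Gn_le (x : E3) : ‖Gn p c r x‖ ≤ 1 := norm_Gv_le p _

lemma lip_Wn (hr : 0 < r) : LipschitzWith 1 (Wn p c r) := by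
  apply lipschitzWith_of_nnnorm_fderiv_le (𝕜 := ℝ)
  · intro x
    exact (hasGradientAt_Wn p hr x).hasFDerivAt.differentiableAt
  · intro x
    rw [(hasGradientAt_Wn p hr x).hasFDerivAt.fderiv]
    rw [← NNReal.coe_le_coe]
    simp only [coe_nnnorm, NNReal.coe_one]
    rw [LinearIsometryEquiv.norm_map]
    exact norm_Gn_le p x

lemma yy_norm (hr : 0 < r) (x : E3) : ‖yy c r x‖ = ‖x - c‖ / r := by
  unfold yy
  rw [norm_smul, Real.norm_eq_abs, abs_of_pos (by positivity)]
  ring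

lemma notInBox_yy (hr : 0 < r) {x : E3} (h : r ≤ ‖x - c‖) : ¬ InBox (yy c r x) := by
  apply notInBox
  rw [yy_norm hr, le_div_iff₀ hr]; linarith

lemma Wn_zero (hr : 0 < r) {x : E3} (h : r ≤ ‖x - c‖) : Wn p c r x = 0 := by
  unfold Wn; rw [W_zero p (notInBox_yy hr h), mul_zero]

lemma Gn_zero (hr : 0 < r) {x : E3} (h : r ≤ ‖x - c‖) : Gn p c r x = 0 := by
  unfold Gn; rw [Gv_zero p (notInBox_yy hr h)]

lemma Fn_zero (hr : 0 < r) {x : E3} (h : r ≤ ‖x - c‖) : Fn p c r x = 0 := by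
  unfold Fn; rw [Gn_zero p hr h, smul_zero]

lemma fn_zero (hr : 0 < r) {x : E3} (h : r ≤ ‖x - c‖) : fn p c r x = 0 := by
  have hb := notInBox_yy hr h
  unfold fn dFe
  rw [N_zero p hb, N_zero p hb, N_zero p hb, dN_zero p hb, dN_zero p hb, dN_zero p hb]
  simp

lemma Wn_light (hr : 0 < r) (t : ℝ) (ht : |t| ≤ r * p.l) : Wn p c r (c + t • ee 0) = t := by
  unfold Wn yy
  have e : (1 / r) • (c + t • ee 0 - c) = (t / r) • ee 0 := by
    rw [add_sub_cancel_left, smul_smul]; congr 1; ring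
  rw [e, W_light]
  · field_simp
  · rw [abs_div, abs_of_pos hr, div_le_iff₀ hr]; linarith

lemma scale_int (hr : 0 < r) (g : E3 → ℝ) : ∫ x, g (yy c r x) = r ^ 3 * ∫ y, g y := by
  unfold yy
  rw [integral_sub_right_eq_self (fun x => g ((1 / r) • x)) c]
  rw [Measure.integral_comp_smul]
  simp only [finrank_euclideanSpace, Fintype.card_fin, smul_eq_mul]
  congr 1
  rw [abs_of_pos (by positivity)]
  field_simp

lemma scale_integrable (hr : 0 < r) {F : Type*} [NormedAddCommGroup F] {g : E3 → F} (hg : Integrable g) :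
    Integrable (fun x => g (yy c r x)) := by
  have h1 : Integrable (fun x => g ((1 / r) • x)) :=
    (integrable_comp_smul_iff volume g (by positivity)).2 hg
  exact h1.comp_sub_right c

/-- `f`-part is integrable with an `L¹` norm of order `r²` -/
lemma fn_int (hr : 0 < r) : Integrable (fn p c r) ∧ ∫ x, |fn p c r x| =
    r ^ 2 * ∫ y, |dFe p 0 0 y + dFe p 0 1 y + dFe p 0 2 y| := by
  have hw : LipschitzWith 0 (fun _ : E3 => (0:ℝ)) := LipschitzWith.const 0
  have h0 := (ibp_comp p 0 hw (M := 0) (by simp)).2.1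
  have h1 := (ibp_comp p 1 hw (M := 0) (by simp)).2.1
  have h2 := (ibp_comp p 2 hw (M := 0) (by simp)).2.1
  have hs : Integrable (fun y => dFe p 0 0 y + dFe p 0 1 y + dFe p 0 2 y) := (h0.add h1).add h2
  refine ⟨(scale_integrable hr hs).const_mul _, ?_⟩
  unfold fn
  simp_rw [abs_mul, abs_neg, abs_of_pos (one_div_pos.2 hr)]
  rw [integral_const_mul, scale_int hr (fun y => |dFe p 0 0 y + dFe p 0 1 y + dFe p 0 2 y|)]
  field_simp

lemma Gv_fin (x : E3) (i : Fin 3) : ((1 / √(1 - ‖Gv p x‖ ^ 2)) • Gv p x) i = Fe p 0 i x := by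
  rw [norm_Gv_sq]
  simp only [PiLp.smul_apply, Gv_apply, smul_eq_mul, Fe]
  rw [sub_sub_cancel, zero_add]
  ring

lemma gradient_apply {w : E3 → ℝ} {x : E3} (h : DifferentiableAt ℝ w x) (i : Fin 3) :
    (∇ w x) i = lineDeriv ℝ w x (ee i) := by
  rw [h.lineDeriv_eq_fderiv]
  have := InnerProductSpace.toDual_symm_apply (𝕜 := ℝ) (x := ee i) (y := fderiv ℝ w x)
  unfold gradient
  rw [← this, inner_E3]
  simp only [ee_apply]
  fin_cases i <;> simp

lemma int3 {f g h : E3 → ℝ} (hf : Integrable f) (hg : Integrable g) (hh : Integrable h) :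
    ∫ x, (f x + g x + h x) = (∫ x, f x) + (∫ x, g x) + ∫ x, h x := by
  have h1 : ∫ x, (f x + g x + h x) = (∫ x, (f x + g x)) + ∫ x, h x :=
    integral_add (f := fun x => f x + g x) (hf.add hg) hh
  rw [h1, integral_add hf hg]

theorem block_ibp (hr : 0 < r) {w : E3 → ℝ} {Cw : ℝ≥0} (hw : LipschitzWith Cw w) {M : ℝ}
    (hM : ∀ x, |w x| ≤ M) :
    Integrable (Fn p c r) ∧
    ∫ x, inner ℝ (Fn p c r x) (∇ w x) = ∫ x, fn p c r x * w x := by
  -- the pulled back test function
  set w' : E3 → ℝ := fun y => w (c + r • y) with hw'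
  have hw'L : LipschitzWith (Cw * ⟨r, hr.le⟩) w' := by
    apply hw.comp
    apply LipschitzWith.of_dist_le_mul
    intro a b
    rw [dist_add_left, dist_smul₀, Real.norm_eq_abs, abs_of_pos hr]
    rfl
  have hM' : ∀ y, |w' y| ≤ M := fun y => hM _
  have hI := fun i => ibp_comp p i hw'L hM'
  -- line derivatives
  have hyy : ∀ x, c + r • yy c r x = x := by
    intro x; unfold yy
    rw [smul_smul, mul_one_div_cancel hr.ne', one_smul]; abel
  have hld : ∀ (i : Fin 3) (y : E3), lineDeriv ℝ w' y (ee i) = r * lineDeriv ℝ w (c + r • y) (ee i) := by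
    intro i y
    unfold lineDeriv
    have e : (fun t : ℝ => w' (y + t • ee i)) = fun t => (fun s => w (c + r • y + s • ee i)) (r * t) := by
      funext t
      simp only [hw']
      congr 1
      rw [smul_add, smul_smul]; abel
    rw [e, deriv_comp_mul_left r (fun s => w (c + r • y + s • ee i)) 0]
    simp
  have hFint : Integrable (fun y => (1 / √(1 - ‖Gv p y‖ ^ 2)) • Gv p y) := by
    have hcomp : ∀ i : Fin 3, Integrable (fun y => ((1 / √(1 - ‖Gv p y‖ ^ 2)) • Gv p y) i) := by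
      intro i
      simp only [Gv_fin]
      exact (hI i).1
    have : (fun y => (1 / √(1 - ‖Gv p y‖ ^ 2)) • Gv p y) =
        fun y => ∑ i : Fin 3, (((1 / √(1 - ‖Gv p y‖ ^ 2)) • Gv p y) i) • ee i := by
      funext y
      ext j
      rw [Fin.sum_univ_three]
      simp only [PiLp.add_apply, PiLp.smul_apply, ee_apply]
      fin_cases j <;> simp
    rw [this]
    exact integrable_finsetSum _ fun i _ => (hcomp i).smul_const (ee i)
  have hFnI : Integrable (Fn p c r) := scale_integrable hr hFint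
  refine ⟨hFnI, ?_⟩
  have hcompI : ∀ i : Fin 3, Integrable (fun x => Fe p 0 i (yy c r x) * lineDeriv ℝ w x (ee i)) := by
    intro i
    refine (scale_integrable hr (hI i).1).mul_bdd (c := Cw) ?_ ?_
    · exact aesm_line hw.continuous _
    · filter_upwards with x
      have := norm_lineDeriv_le_of_lipschitz ℝ hw (x₀ := x) (v := ee i)
      simpa [ee] using this
  have hdI : ∀ i : Fin 3, Integrable (fun x => dFe p 0 i (yy c r x) * w x) := by
    intro i
    refine (scale_integrable hr (hI i).2.1).mul_bdd (c := M) ?_ ?_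
    · exact hw.continuous.aestronglyMeasurable
    · filter_upwards with x
      exact hM x
  have hcomp : ∀ i : Fin 3, ∫ x, Fe p 0 i (yy c r x) * lineDeriv ℝ w x (ee i)
      = - (1 / r) * ∫ x, dFe p 0 i (yy c r x) * w x := by
    intro i
    have e1 : ∫ x, Fe p 0 i (yy c r x) * lineDeriv ℝ w x (ee i)
        = ∫ x, (fun y => Fe p 0 i y * lineDeriv ℝ w (c + r • y) (ee i)) (yy c r x) := by
      congr 1; ext x; simp only [hyy]
    have e2 : ∫ x, dFe p 0 i (yy c r x) * w x
        = ∫ x, (fun y => dFe p 0 i y * w' y) (yy c r x) := by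
      congr 1; ext x; simp only [hw', hyy]
    rw [e1, e2, scale_int hr (fun y => Fe p 0 i y * lineDeriv ℝ w (c + r • y) (ee i)),
      scale_int hr (fun y => dFe p 0 i y * w' y)]
    have h3 := (hI i).2.2
    simp only [hld] at h3
    have e4 : ∫ y, Fe p 0 i y * (r * lineDeriv ℝ w (c + r • y) (ee i))
        = r * ∫ y, Fe p 0 i y * lineDeriv ℝ w (c + r • y) (ee i) := by
      rw [← integral_const_mul]; congr 1; ext y; ring
    rw [e4] at h3
    have h5 : ∫ y, Fe p 0 i y * lineDeriv ℝ w (c + r • y) (ee i) = - (1/r) * ∫ y, dFe p 0 i y * w' y := by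
      have : r * ∫ y, Fe p 0 i y * lineDeriv ℝ w (c + r • y) (ee i)
          = r * (- (1/r) * ∫ y, dFe p 0 i y * w' y) := by
        rw [h3]; field_simp
      exact mul_left_cancel₀ hr.ne' this
    rw [h5]; ring
  have hae : ∀ᵐ x, inner ℝ (Fn p c r x) (∇ w x) =
      Fe p 0 0 (yy c r x) * lineDeriv ℝ w x (ee 0) + Fe p 0 1 (yy c r x) * lineDeriv ℝ w x (ee 1)
      + Fe p 0 2 (yy c r x) * lineDeriv ℝ w x (ee 2) := by
    filter_upwards [hw.ae_differentiableAt] with x hx
    rw [inner_E3, gradient_apply hx, gradient_apply hx, gradient_apply hx]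
    unfold Fn Gn
    rw [Gv_fin, Gv_fin, Gv_fin]
  rw [integral_congr_ae hae, int3 (hcompI 0) (hcompI 1) (hcompI 2), hcomp, hcomp, hcomp]
  unfold fn
  have e6 : ∫ x, -(1 / r) * (dFe p 0 0 (yy c r x) + dFe p 0 1 (yy c r x) + dFe p 0 2 (yy c r x)) * w x
      = -(1/r) * ∫ x, (dFe p 0 0 (yy c r x) * w x + dFe p 0 1 (yy c r x) * w x + dFe p 0 2 (yy c r x) * w x) := by
    rw [← integral_const_mul]; congr 1; ext x; ring
  rw [e6, int3 (hdI 0) (hdI 1) (hdI 2)]
  ring

end

end Q65.Light
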