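import Mathlib
import Pool.Agent.Q65.LightBlock3

/-!
# The sum of the rescaled blocks
-/

namespace Q65.Light

open Set MeasureTheory Filter Topology Metric
open scoped ContDiff NNReal Gradient

noncomputable section

abbrev E2 := EuclideanSpace ℝ (Fin 2)

/-- unit disc -/
def disc : Set E2 := Metric.ball 0 1

instance : Nonempty disc := ⟨⟨0, by simp [disc]⟩⟩

/-- a sequence in the disc which visits every member of a dense sequence infinitely often -/
def aseq (n : ℕ) : E2 := (TopologicalSpace.denseSeq disc n.unpair.1 : disc)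

lemma aseq_norm (n : ℕ) : ‖aseq n‖ < 1 := by
  have h : (TopologicalSpace.denseSeq disc n.unpair.1 : E2) ∈ Metric.ball (0:E2) 1 :=
    (TopologicalSpace.denseSeq disc n.unpair.1 : disc).2
  rwa [mem_ball_zero_iff] at h

/-- embedding of the plane -/
def iota (a : E2) : E3 := !₂[a 0, a 1, 0]

def rr (n : ℕ) : ℝ := (1/8) * (1/2) ^ n

def cc (n : ℕ) : E3 := !₂[aseq n 0, aseq n 1, (3/4) * (1/2) ^ n]

lemma rr_pos (n : ℕ) : 0 < rr n := by unfold rr; positivity

def slab (n : ℕ) : Set E3 := {x | (1/2 : ℝ) ^ (n+1) < x 2 ∧ x 2 < (1/2 : ℝ) ^ n}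

lemma isOpen_slab (n : ℕ) : IsOpen (slab n) := by
  have h : Continuous (fun x : E3 => x 2) := (cd_coord 2).continuous
  exact (isOpen_lt continuous_const h).inter (isOpen_lt h continuous_const)

lemma abs_coord_le (x : E3) (i : Fin 3) : |x i| ≤ ‖x‖ := by
  have := PiLp.norm_apply_le x i
  simpa using this

lemma ball_slab {n : ℕ} {x : E3} (h : ‖x - cc n‖ < rr n) : x ∈ slab n := by
  have h1 := abs_coord_le (x - cc n) 2
  have h2 : (x - cc n) 2 = x 2 - (3/4) * (1/2) ^ n := rfl
  rw [h2] at h1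
  have h3 := abs_le.1 (h1.trans h.le)
  unfold rr at h3
  have h4 : (0:ℝ) < (1/2) ^ n := by positivity
  constructor
  · rw [pow_succ]; linarith [h3.1]
  · linarith [h3.2]

lemma slab_disj {n m : ℕ} {x : E3} (hn : x ∈ slab n) (hm : x ∈ slab m) : n = m := by
  by_contra hne
  have key : ∀ a b : ℕ, a < b → x ∈ slab a → x ∈ slab b → False := by
    intro a b hab ha hb
    have : (1/2 : ℝ) ^ b ≤ (1/2 : ℝ) ^ (a+1) :=
      pow_le_pow_of_le_one (by norm_num) (by norm_num) (by omega)
    linarith [ha.1, hb.2]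
  rcases lt_or_gt_of_ne hne with h | h
  · exact key n m h hn hm
  · exact key m n h hm hn

lemma far_of_slab {n k : ℕ} {x : E3} (hn : x ∈ slab n) (h : k ≠ n) : rr k ≤ ‖x - cc k‖ := by
  by_contra hlt
  push Not at hlt
  exact h (slab_disj (ball_slab hlt) hn)

lemma far_of_noslab {x : E3} (hx : ∀ n, x ∉ slab n) (k : ℕ) : rr k ≤ ‖x - cc k‖ := by
  by_contra hlt
  push Not at hlt
  exact hx k (ball_slab hlt)

variable (p : Prof)

/-- the function `u` -/
def uu (x : E3) : ℝ := ∑' n, Wn p (cc n) (rr n) x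

/-- the density `f` -/
def ff (x : E3) : ℝ := ∑' n, fn p (cc n) (rr n) x

lemma uu_slab {n : ℕ} {x : E3} (hn : x ∈ slab n) : uu p x = Wn p (cc n) (rr n) x := by
  unfold uu
  exact tsum_eq_single n fun k hk => Wn_zero p (rr_pos k) (far_of_slab hn hk)

lemma uu_noslab {x : E3} (hx : ∀ n, x ∉ slab n) : uu p x = 0 := by
  unfold uu
  rw [tsum_congr fun k => Wn_zero p (rr_pos k) (far_of_noslab hx k)]
  exact tsum_zero

lemma ff_slab {n : ℕ} {x : E3} (hn : x ∈ slab n) : ff p x = fn p (cc n) (rr n) x := by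
  unfold ff
  exact tsum_eq_single n fun k hk => fn_zero p (rr_pos k) (far_of_slab hn hk)

lemma ff_noslab {x : E3} (hx : ∀ n, x ∉ slab n) : ff p x = 0 := by
  unfold ff
  rw [tsum_congr fun k => fn_zero p (rr_pos k) (far_of_noslab hx k)]
  exact tsum_zero

/-- partial sums -/
def sN (N : ℕ) (x : E3) : ℝ := ∑ n ∈ Finset.range N, Wn p (cc n) (rr n) x

lemma lip_sN (N : ℕ) : LipschitzWith 1 (sN p N) := by
  have hd : ∀ x, HasGradientAt (sN p N) (∑ n ∈ Finset.range N, Gn p (cc n) (rr n) x) x := by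
    intro x
    rw [hasGradientAt_iff_hasFDerivAt, map_sum]
    unfold sN
    exact HasFDerivAt.fun_sum fun n _ => (hasGradientAt_Wn p (rr_pos n) x).hasFDerivAt
  apply lipschitzWith_of_nnnorm_fderiv_le (𝕜 := ℝ)
  · intro x
    exact (hd x).hasFDerivAt.differentiableAt
  · intro x
    rw [(hd x).hasFDerivAt.fderiv]
    rw [← NNReal.coe_le_coe]
    simp only [coe_nnnorm, NNReal.coe_one]
    rw [LinearIsometryEquiv.norm_map]
    by_cases hx : ∃ m, x ∈ slab m
    · obtain ⟨m, hm⟩ := hx
      by_cases hmN : m ∈ Finset.range N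
      · rw [Finset.sum_eq_single m (fun k _ hk => Gn_zero p (rr_pos k) (far_of_slab hm hk))
          (fun h => absurd hmN h)]
        exact norm_Gn_le p x
      · rw [Finset.sum_eq_zero fun k hk => ?_]
        · simp
        · have : k ≠ m := fun h => hmN (h ▸ hk)
          exact Gn_zero p (rr_pos k) (far_of_slab hm this)
    · push Not at hx
      rw [Finset.sum_eq_zero fun k _ => Gn_zero p (rr_pos k) (far_of_noslab hx k)]
      simp

lemma sN_eventually (x : E3) : ∀ᶠ N in atTop, sN p N x = uu p x := by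
  by_cases hx : ∃ m, x ∈ slab m
  · obtain ⟨m, hm⟩ := hx
    filter_upwards [eventually_gt_atTop m] with N hN
    rw [uu_slab p hm]
    unfold sN
    exact Finset.sum_eq_single m (fun k _ hk => Wn_zero p (rr_pos k) (far_of_slab hm hk))
          (fun h => absurd (Finset.mem_range.2 hN) h)
  · push Not at hx
    filter_upwards with N
    rw [uu_noslab p hx]
    unfold sN
    exact Finset.sum_eq_zero fun k _ => Wn_zero p (rr_pos k) (far_of_noslab hx k)

lemma lip_uu : LipschitzWith 1 (uu p) := by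
  apply LipschitzWith.of_dist_le_mul
  intro x y
  obtain ⟨N, h1, h2⟩ := ((sN_eventually p x).and (sN_eventually p y)).exists
  rw [← h1, ← h2]
  exact (lip_sN p N).dist_le_mul x y

/-! ### gradient of `u` almost everywhere -/

lemma grad_uu_slab {n : ℕ} {x : E3} (hn : x ∈ slab n) :
    HasGradientAt (uu p) (Gn p (cc n) (rr n) x) x := by
  have h := hasGradientAt_Wn p (c := cc n) (rr_pos n) x
  rw [hasGradientAt_iff_hasFDerivAt] at h ⊢
  apply h.congr_of_eventuallyEq
  filter_upwards [(isOpen_slab n).mem_nhds hn] with y hy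
  exact uu_slab p hy

lemma noslab_of {x : E3} (h : x 2 < 0 ∨ 1 < x 2) : ∀ n, x ∉ slab n := by
  intro n hn
  have h1 : (0:ℝ) < (1/2) ^ (n+1) := by positivity
  have h2 : (1/2 : ℝ) ^ n ≤ 1 := pow_le_one₀ (by norm_num) (by norm_num)
  rcases h with h | h
  · linarith [hn.1]
  · linarith [hn.2]

lemma grad_uu_noslab {x : E3} (hx : x 2 < 0 ∨ 1 < x 2) : HasGradientAt (uu p) 0 x := by
  rw [hasGradientAt_iff_hasFDerivAt, map_zero]
  have h0 : HasFDerivAt (fun _ : E3 => (0:ℝ)) (0 : E3 →L[ℝ] ℝ) x := hasFDerivAt_const 0 x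
  apply h0.congr_of_eventuallyEq
  have hc : Continuous (fun x : E3 => x 2) := (cd_coord 2).continuous
  have ho : IsOpen {y : E3 | y 2 < 0 ∨ 1 < y 2} :=
    (isOpen_lt hc continuous_const).union (isOpen_lt continuous_const hc)
  have : {y : E3 | y 2 < 0 ∨ 1 < y 2} ∈ 𝓝 x := ho.mem_nhds hx
  filter_upwards [this] with y hy
  exact uu_noslab p (noslab_of hy)

lemma ae_coord_ne (i : Fin 3) (b : ℝ) : ∀ᵐ x : E3, x i ≠ b := by
  have h := (PiLp.volume_preserving_ofLp (Fin 3))
  have h0 : ∀ᵐ y : Fin 3 → ℝ, y i ≠ b := by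
    have := MeasureTheory.Measure.ae_eval_ne (μ := fun _ : Fin 3 => (volume : Measure ℝ)) i b
    exact this
  exact h.quasiMeasurePreserving.ae h0

lemma ae_cases : ∀ᵐ x : E3, (∃ n, x ∈ slab n) ∨ (x 2 < 0 ∨ 1 < x 2) := by
  have h1 : ∀ᵐ x : E3, ∀ n : ℕ, x 2 ≠ (1/2) ^ n := by
    rw [ae_all_iff]; intro n; exact ae_coord_ne 2 _
  filter_upwards [h1, ae_coord_ne 2 0] with x hx h0
  rcases lt_trichotomy (x 2) 0 with h | h | h
  · right; left; exact h
  · exact absurd h h0
  rcases lt_or_ge 1 (x 2) with h1 | h1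
  · right; right; exact h1
  left
  obtain ⟨n, hn1, hn2⟩ := exists_nat_pow_near_of_lt_one h h1 (by norm_num : (0:ℝ) < 1/2) (by norm_num)
  exact ⟨n, hn1, lt_of_le_of_ne hn2 (hx n)⟩

/-- nondegeneracy almost everywhere -/
lemma ae_nondeg : ∀ᵐ x : E3, ∀ n, 0 < Dx p (yy (cc n) (rr n) x) := by
  rw [ae_all_iff]
  intro n
  filter_upwards [ae_coord_ne 1 ((cc n) 1)] with x hx
  apply D_pos
  unfold qq yy
  have : ((1 / rr n) • (x - cc n)) 1 ≠ 0 := by
    simp only [PiLp.smul_apply, PiLp.sub_apply, smul_eq_mul]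
    exact mul_ne_zero (one_div_pos.2 (rr_pos n)).ne' (sub_ne_zero.2 hx)
  positivity

/-! ### the total integration by parts -/

lemma Fn_norm_int (c : E3) {r : ℝ} (hr : 0 < r) :
    ∫ x, ‖Fn p c r x‖ = r ^ 3 * ∫ y, ‖(1 / √(1 - ‖Gv p y‖ ^ 2)) • Gv p y‖ := by
  rw [← scale_int (c := c) hr (fun y => ‖(1 / √(1 - ‖Gv p y‖ ^ 2)) • Gv p y‖)]
  rfl

lemma summable_rr2 : Summable (fun n => rr n ^ 2) := by
  unfold rr
  have : Summable (fun n : ℕ => ((1/8:ℝ)^2) * ((1/4:ℝ)) ^ n) :=
    (summable_geometric_of_lt_one (by norm_num) (by norm_num)).mul_left _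
  refine this.congr fun n => ?_
  rw [mul_pow, ← pow_mul, mul_comm n 2, pow_mul]; norm_num

lemma rr_le_one (n : ℕ) : rr n ≤ 1 := by
  unfold rr
  have : (1/2 : ℝ) ^ n ≤ 1 := pow_le_one₀ (by norm_num) (by norm_num)
  linarith

lemma summable_rr3 : Summable (fun n => rr n ^ 3) := by
  refine Summable.of_nonneg_of_le (fun n => by have := rr_pos n; positivity) (fun n => ?_) summable_rr2
  have h1 := rr_pos n
  have h2 := rr_le_one n
  calc rr n ^ 3 = rr n ^ 2 * rr n := by ring
    _ ≤ rr n ^ 2 * 1 := by gcongr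
    _ = _ := by ring

lemma zero_lip : LipschitzWith 0 (fun _ : E3 => (0:ℝ)) := LipschitzWith.const 0

lemma Fn_integrable (n : ℕ) : Integrable (Fn p (cc n) (rr n)) :=
  (block_ibp p (c := cc n) (rr_pos n) zero_lip (M := 0) (by simp)).1

lemma summable_fn_norm : Summable fun n => ∫ x, ‖fn p (cc n) (rr n) x‖ := by
  simp only [Real.norm_eq_abs]
  simp only [(fn_int p (c := cc _) (rr_pos _)).2]
  exact summable_rr2.mul_right _

lemma ff_integrable : Integrable (ff p) := by
  have hint : ∀ n, Integrable (fn p (cc n) (rr n)) := fun n => (fn_int p (rr_pos n)).1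
  have hm : ∀ n, AEStronglyMeasurable (fn p (cc n) (rr n)) volume := fun n => (hint n).1
  have hs := summable_fn_norm p
  have hfin : ∑' n, ∫⁻ x, ‖fn p (cc n) (rr n) x‖ₑ ≠ ⊤ := by
    have e : ∀ n, ∫⁻ x, ‖fn p (cc n) (rr n) x‖ₑ = ENNReal.ofReal (∫ x, ‖fn p (cc n) (rr n) x‖) := by
      intro n
      rw [ofReal_integral_norm_eq_lintegral_enorm (hint n)]
    simp only [e]
    rw [← ENNReal.ofReal_tsum_of_nonneg (fun n => integral_nonneg fun x => norm_nonneg _) hs]
    exact ENNReal.ofReal_ne_top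
  have hmeas : AEStronglyMeasurable (ff p) volume := by
    refine aestronglyMeasurable_of_tendsto_ae (u := atTop)
      (f := fun N x => ∑ n ∈ Finset.range N, fn p (cc n) (rr n) x) ?_ ?_
    · intro N
      exact Finset.aestronglyMeasurable_fun_sum _ fun n _ => hm n
    · filter_upwards with x
      apply tendsto_const_nhds.congr'
      by_cases hx : ∃ m, x ∈ slab m
      · obtain ⟨m, hm⟩ := hx
        filter_upwards [eventually_gt_atTop m] with N hN
        rw [ff_slab p hm]
        exact (Finset.sum_eq_single m (fun k _ hk => fn_zero p (rr_pos k) (far_of_slab hm hk))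
              (fun h => absurd (Finset.mem_range.2 hN) h)).symm
      · push Not at hx
        filter_upwards with N
        rw [ff_noslab p hx]
        exact (Finset.sum_eq_zero fun k _ => fn_zero p (rr_pos k) (far_of_noslab hx k)).symm
  refine ⟨hmeas, ?_⟩
  have hle : ∀ x, ‖ff p x‖ₑ ≤ ∑' n, ‖fn p (cc n) (rr n) x‖ₑ := by
    intro x
    by_cases hx : ∃ m, x ∈ slab m
    · obtain ⟨m, hm⟩ := hx
      rw [ff_slab p hm]
      exact ENNReal.le_tsum m
    · push Not at hx
      rw [ff_noslab p hx]; simp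
  refine lt_of_le_of_lt (lintegral_mono hle) ?_
  rw [lintegral_tsum fun n => (hm n).enorm]
  exact lt_top_iff_ne_top.2 hfin

theorem total_ibp {w : E3 → ℝ} {Cw : ℝ≥0} (hw : LipschitzWith Cw w) {M : ℝ}
    (hM : ∀ x, |w x| ≤ M) :
    Integrable (fun x => ∑' n, inner ℝ (Fn p (cc n) (rr n) x) (∇ w x)) ∧
    ∫ x, ∑' n, inner ℝ (Fn p (cc n) (rr n) x) (∇ w x) = ∫ x, ff p x * w x := by
  have hM0 : 0 ≤ M := (abs_nonneg _).trans (hM 0)
  have hgn : ∀ x, ‖∇ w x‖ ≤ Cw := by
    intro x
    unfold gradient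
    rw [LinearIsometryEquiv.norm_map]
    exact norm_fderiv_le_of_lipschitz ℝ hw
  have hgm : Measurable (fun x => ∇ w x) := by
    unfold gradient
    exact (LinearIsometryEquiv.continuous _).measurable.comp (measurable_fderiv ℝ w)
  have hint : ∀ n, Integrable (fun x => inner ℝ (Fn p (cc n) (rr n) x) (∇ w x)) := by
    intro n
    refine ((Fn_integrable p n).norm.mul_const (Cw:ℝ)).mono' ?_ ?_
    · exact (Fn_integrable p n).1.inner hgm.aestronglyMeasurable
    · filter_upwards with x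
      exact (norm_inner_le_norm _ _).trans (mul_le_mul_of_nonneg_left (hgn x) (norm_nonneg _))
  have hle : ∀ n, ∫ x, ‖inner ℝ (Fn p (cc n) (rr n) x) (∇ w x)‖ ≤
      rr n ^ 3 * ((∫ y, ‖(1 / √(1 - ‖Gv p y‖ ^ 2)) • Gv p y‖) * Cw) := by
    intro n
    rw [← mul_assoc, ← Fn_norm_int p (cc n) (rr_pos n), ← integral_mul_const]
    apply integral_mono (hint n).norm ((Fn_integrable p n).norm.mul_const (Cw:ℝ))
    intro x
    exact (norm_inner_le_norm _ _).trans (mul_le_mul_of_nonneg_left (hgn x) (norm_nonneg _))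
  have hsum : Summable fun n => ∫ x, ‖inner ℝ (Fn p (cc n) (rr n) x) (∇ w x)‖ := by
    refine Summable.of_nonneg_of_le (fun n => integral_nonneg fun x => norm_nonneg _) hle ?_
    exact summable_rr3.mul_right _
  have h1 := hasSum_integral_of_summable_integral_norm hint hsum
  have hint2 : ∀ n, Integrable (fun x => fn p (cc n) (rr n) x * w x) := by
    intro n
    refine (fn_int p (rr_pos n)).1.mul_bdd (c := M) hw.continuous.aestronglyMeasurable ?_
    filter_upwards with x
    exact hM x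
  have hle2 : ∀ n, ∫ x, ‖fn p (cc n) (rr n) x * w x‖ ≤ (∫ x, ‖fn p (cc n) (rr n) x‖) * M := by
    intro n
    rw [← integral_mul_const]
    apply integral_mono (hint2 n).norm ((fn_int p (rr_pos n)).1.norm.mul_const _)
    intro x
    simp only [norm_mul]
    exact mul_le_mul_of_nonneg_left (hM x) (norm_nonneg _)
  have hsum2 : Summable fun n => ∫ x, ‖fn p (cc n) (rr n) x * w x‖ := by
    refine Summable.of_nonneg_of_le (fun n => integral_nonneg fun x => norm_nonneg _) hle2 ?_
    exact (summable_fn_norm p).mul_right _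
  have h2 := hasSum_integral_of_summable_integral_norm hint2 hsum2
  have heq : ∀ n, ∫ x, inner ℝ (Fn p (cc n) (rr n) x) (∇ w x) = ∫ x, fn p (cc n) (rr n) x * w x :=
    fun n => (block_ibp p (rr_pos n) hw hM).2
  refine ⟨?_, ?_⟩
  · -- integrability of the sum
    have hval : ∀ x, (∑' n, inner ℝ (Fn p (cc n) (rr n) x) (∇ w x)) =
        inner ℝ (∑' n, Fn p (cc n) (rr n) x) (∇ w x) := by
      intro x
      by_cases hx : ∃ m, x ∈ slab m
      · obtain ⟨m, hm⟩ := hx
        rw [tsum_eq_single m fun k hk => by rw [Fn_zero p (rr_pos k) (far_of_slab hm hk), inner_zero_left],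
          tsum_eq_single m fun k hk => Fn_zero p (rr_pos k) (far_of_slab hm hk)]
      · push Not at hx
        have e0 : ∀ k, Fn p (cc k) (rr k) x = 0 := fun k => Fn_zero p (rr_pos k) (far_of_noslab hx k)
        simp only [e0, inner_zero_left, tsum_zero]
    have hm : ∀ n, AEStronglyMeasurable (fun x => inner ℝ (Fn p (cc n) (rr n) x) (∇ w x)) volume :=
      fun n => (hint n).1
    have hmeas : AEStronglyMeasurable
        (fun x => ∑' n, inner ℝ (Fn p (cc n) (rr n) x) (∇ w x)) volume := by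
      refine aestronglyMeasurable_of_tendsto_ae (u := atTop)
        (f := fun N x => ∑ n ∈ Finset.range N, inner ℝ (Fn p (cc n) (rr n) x) (∇ w x)) ?_ ?_
      · intro N
        exact Finset.aestronglyMeasurable_fun_sum _ fun n _ => hm n
      · filter_upwards with x
        apply tendsto_const_nhds.congr'
        by_cases hx : ∃ m, x ∈ slab m
        · obtain ⟨m, hm⟩ := hx
          have e : ∀ k, k ≠ m → inner ℝ (Fn p (cc k) (rr k) x) (∇ w x) = 0 := fun k hk => by
            rw [Fn_zero p (rr_pos k) (far_of_slab hm hk), inner_zero_left]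
          filter_upwards [eventually_gt_atTop m] with N hN
          rw [tsum_eq_single m e]
          exact (Finset.sum_eq_single m (fun k _ hk => e k hk)
                (fun h => absurd (Finset.mem_range.2 hN) h)).symm
        · push Not at hx
          have e : ∀ k, inner ℝ (Fn p (cc k) (rr k) x) (∇ w x) = 0 := fun k => by
            rw [Fn_zero p (rr_pos k) (far_of_noslab hx k), inner_zero_left]
          filter_upwards with N
          simp only [e, tsum_zero, Finset.sum_const_zero]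
    refine ⟨hmeas, ?_⟩
    have hle : ∀ x, ‖∑' n, inner ℝ (Fn p (cc n) (rr n) x) (∇ w x)‖ₑ ≤
        ∑' n, ‖inner ℝ (Fn p (cc n) (rr n) x) (∇ w x)‖ₑ := by
      intro x
      by_cases hx : ∃ m, x ∈ slab m
      · obtain ⟨m, hm⟩ := hx
        rw [tsum_eq_single m fun k hk => by
          rw [Fn_zero p (rr_pos k) (far_of_slab hm hk), inner_zero_left]]
        exact ENNReal.le_tsum (f := fun n => ‖inner ℝ (Fn p (cc n) (rr n) x) (∇ w x)‖ₑ) m
      · push Not at hx
        have e : ∀ k, inner ℝ (Fn p (cc k) (rr k) x) (∇ w x) = 0 := fun k => by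
            rw [Fn_zero p (rr_pos k) (far_of_noslab hx k), inner_zero_left]
        simp [e]
    have hfin : ∑' n, ∫⁻ x, ‖inner ℝ (Fn p (cc n) (rr n) x) (∇ w x)‖ₑ ≠ ⊤ := by
      have e : ∀ n, ∫⁻ x, ‖inner ℝ (Fn p (cc n) (rr n) x) (∇ w x)‖ₑ
          = ENNReal.ofReal (∫ x, ‖inner ℝ (Fn p (cc n) (rr n) x) (∇ w x)‖) := by
        intro n
        rw [ofReal_integral_norm_eq_lintegral_enorm (hint n)]
      simp only [e]
      rw [← ENNReal.ofReal_tsum_of_nonneg (fun n => integral_nonneg fun x => norm_nonneg _) hsum]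
      exact ENNReal.ofReal_ne_top
    refine lt_of_le_of_lt (lintegral_mono hle) ?_
    rw [lintegral_tsum fun n => (hm n).enorm]
    exact lt_top_iff_ne_top.2 hfin
  · rw [← h1.tsum_eq, tsum_congr heq, h2.tsum_eq]
    congr 1
    ext x
    unfold ff
    exact tsum_mul_right

end

end Q65.Light
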