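import Mathlib
import Pool.Agent.Q65.LightSum

/-!
# Minimality and uniqueness
-/

namespace Q65.Light

open Set MeasureTheory Filter Topology Metric
open scoped ContDiff NNReal Gradient

noncomputable section

lemma convex_ineq {M G : E3} (hM : ‖M‖ ≤ 1) (hG : ‖G‖ < 1) :
    inner ℝ ((1 / √(1 - ‖G‖ ^ 2)) • G) (M - G) + ‖M - G‖ ^ 2 / 2 ≤
      (1 - √(1 - ‖M‖ ^ 2)) - (1 - √(1 - ‖G‖ ^ 2)) := by
  have hG0 := norm_nonneg G
  have hM0 := norm_nonneg M
  have hs2 : 0 < 1 - ‖G‖ ^ 2 := by nlinarith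
  have ht2 : 0 ≤ 1 - ‖M‖ ^ 2 := by nlinarith
  set s := √(1 - ‖G‖ ^ 2) with hs
  set t := √(1 - ‖M‖ ^ 2) with ht
  have hspos : 0 < s := Real.sqrt_pos.2 hs2
  have htnn : 0 ≤ t := Real.sqrt_nonneg _
  have hss : s ^ 2 = 1 - ‖G‖ ^ 2 := Real.sq_sqrt hs2.le
  have htt : t ^ 2 = 1 - ‖M‖ ^ 2 := Real.sq_sqrt ht2
  have hs1 : s ≤ 1 := by nlinarith [sq_nonneg ‖G‖]
  rw [real_inner_smul_left, inner_sub_right, real_inner_self_eq_norm_sq]
  have hn : ‖M - G‖ ^ 2 = ‖M‖ ^ 2 - 2 * inner ℝ G M + ‖G‖ ^ 2 := by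
    rw [norm_sub_sq_real, real_inner_comm]
  rw [hn]
  set I := inner ℝ G M with hI
  have hcs : I ≤ ‖G‖ * ‖M‖ := real_inner_le_norm G M
  have hkey : (‖M‖ ^ 2 - 2 * I + ‖G‖ ^ 2) / 2 ≤ 1 - t * s - I := by nlinarith [sq_nonneg (t - s)]
  have hnn : 0 ≤ ‖M‖ ^ 2 - 2 * I + ‖G‖ ^ 2 := by rw [← hn]; positivity
  have h2 : 1 - t * s - I ≤ (1 - t * s - I) / s := by
    rw [le_div_iff₀ hspos]
    nlinarith
  have e : (1 - t) - (1 - s) - 1 / s * (I - ‖G‖ ^ 2) = (1 - t * s - I) / s := by
    field_simp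
    nlinarith
  linarith

def Om : Set E3 := Metric.ball 0 2

variable (p : Prof)

lemma uu_zero_off {x : E3} (hx : x ∉ Om) : uu p x = 0 := by
  have hx2 : 2 ≤ ‖x‖ := by
    unfold Om at hx
    rw [mem_ball_zero_iff] at hx
    linarith
  unfold uu
  rw [tsum_congr fun k => Wn_zero p (rr_pos k) ?_]
  · exact tsum_zero
  · -- ‖x - cc k‖ ≥ rr k
    have h1 : ‖cc k‖ ^ 2 ≤ 1 + 9/16 := by
      rw [norm_sq_E3]
      have h2 : ‖aseq k‖ ^ 2 = (aseq k 0) ^ 2 + (aseq k 1) ^ 2 := by
        rw [EuclideanSpace.norm_sq_eq]; simp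
      have h3 : ‖aseq k‖ ^ 2 < 1 := by nlinarith [aseq_norm k, norm_nonneg (aseq k)]
      have h4 : ((3/4 : ℝ) * (1/2) ^ k) ^ 2 ≤ 9/16 := by
        have h5 : (1/2 : ℝ) ^ k ≤ 1 := pow_le_one₀ (by norm_num) (by norm_num)
        have h6 : (0:ℝ) ≤ (1/2 : ℝ) ^ k := by positivity
        nlinarith
      have e0 : (cc k) 0 = aseq k 0 := rfl
      have e1 : (cc k) 1 = aseq k 1 := rfl
      have e2 : (cc k) 2 = (3/4 : ℝ) * (1/2) ^ k := rfl
      rw [e0, e1, e2]; linarith
    have h7 : ‖cc k‖ ≤ 5/4 := by nlinarith [norm_nonneg (cc k)]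
    have h8 : rr k ≤ 1/8 := by
      unfold rr
      have : (1/2 : ℝ) ^ k ≤ 1 := pow_le_one₀ (by norm_num) (by norm_num)
      linarith
    have h9 := norm_sub_norm_le x (cc k)
    linarith

lemma ff_zero_off {x : E3} (hx : x ∉ Om) : ff p x = 0 := by
  have hx2 : 2 ≤ ‖x‖ := by
    unfold Om at hx
    rw [mem_ball_zero_iff] at hx
    linarith
  unfold ff
  rw [tsum_congr fun k => fn_zero p (rr_pos k) ?_]
  · exact tsum_zero
  · have h1 : ‖cc k‖ ^ 2 ≤ 1 + 9/16 := by
      rw [norm_sq_E3]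
      have h2 : ‖aseq k‖ ^ 2 = (aseq k 0) ^ 2 + (aseq k 1) ^ 2 := by
        rw [EuclideanSpace.norm_sq_eq]; simp
      have h3 : ‖aseq k‖ ^ 2 < 1 := by nlinarith [aseq_norm k, norm_nonneg (aseq k)]
      have h4 : ((3/4 : ℝ) * (1/2) ^ k) ^ 2 ≤ 9/16 := by
        have h5 : (1/2 : ℝ) ^ k ≤ 1 := pow_le_one₀ (by norm_num) (by norm_num)
        have h6 : (0:ℝ) ≤ (1/2 : ℝ) ^ k := by positivity
        nlinarith
      have e0 : (cc k) 0 = aseq k 0 := rfl
      have e1 : (cc k) 1 = aseq k 1 := rfl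
      have e2 : (cc k) 2 = (3/4 : ℝ) * (1/2) ^ k := rfl
      rw [e0, e1, e2]; linarith
    have h7 : ‖cc k‖ ≤ 5/4 := by nlinarith [norm_nonneg (cc k)]
    have h8 : rr k ≤ 1/8 := by
      unfold rr
      have : (1/2 : ℝ) ^ k ≤ 1 := pow_le_one₀ (by norm_num) (by norm_num)
      linarith
    have h9 := norm_sub_norm_le x (cc k)
    linarith

lemma norm_ee (i : Fin 3) : ‖ee i‖ = 1 := by simp [ee]

lemma bound_of_lip {w : E3 → ℝ} {C : ℝ≥0} (hw : LipschitzWith C w) (h0 : ∀ x ∉ Om, w x = 0) (x : E3) :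
    |w x| ≤ C * 4 := by
  by_cases hx : x ∈ Om
  · have hz : (2:ℝ) • ee 0 ∉ Om := by
      unfold Om
      rw [mem_ball_zero_iff, norm_smul, norm_ee]; norm_num
    have h := hw.dist_le_mul x ((2:ℝ) • ee 0)
    rw [h0 _ hz, Real.dist_eq, sub_zero] at h
    refine h.trans ?_
    gcongr
    rw [dist_eq_norm]
    have h1 : ‖x‖ < 2 := by simpa [Om] using hx
    have h2 : ‖(2:ℝ) • ee 0‖ = 2 := by rw [norm_smul, norm_ee]; norm_num
    linarith [norm_sub_le x ((2:ℝ) • ee 0)]
  · rw [h0 x hx, abs_zero]; positivity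

lemma grad_zero_off {w : E3 → ℝ} (h0 : ∀ x ∉ Om, w x = 0) : ∀ᵐ x : E3, x ∉ Om → ∇ w x = 0 := by
  have hs : ∀ᵐ x : E3, x ∉ sphere (0:E3) 2 := by
    have := Measure.addHaar_sphere_of_ne_zero (volume : Measure E3) 0 (r := 2) (by norm_num)
    exact measure_eq_zero_iff_ae_notMem.1 this
  filter_upwards [hs] with x hx hxO
  have : x ∉ closedBall (0:E3) 2 := by
    intro h
    rw [mem_closedBall_zero_iff] at h
    unfold Om at hxO
    rw [mem_ball_zero_iff] at hxO
    apply hx
    rw [mem_sphere_zero_iff_norm]; linarith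
  have hev : w =ᶠ[𝓝 x] fun _ => 0 := by
    filter_upwards [isClosed_closedBall.isOpen_compl.mem_nhds this] with y hy
    apply h0
    intro hy2
    exact hy (ball_subset_closedBall hy2)
  unfold gradient
  rw [hev.fderiv_eq]
  simp

lemma meas_grad (w : E3 → ℝ) : Measurable (fun x => ∇ w x) := by
  unfold gradient
  exact (LinearIsometryEquiv.continuous _).measurable.comp (measurable_fderiv ℝ w)

lemma norm_grad_le {w : E3 → ℝ} {C : ℝ≥0} (hw : LipschitzWith C w) (x : E3) : ‖∇ w x‖ ≤ C := by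
  unfold gradient
  rw [LinearIsometryEquiv.norm_map]
  exact norm_fderiv_le_of_lipschitz ℝ hw

/-- the Born-Infeld energy density -/
def jj (v : E3 → ℝ) (x : E3) : ℝ := 1 - √(1 - ‖∇ v x‖ ^ 2)

lemma jj_mem {v : E3 → ℝ} (x : E3) : 0 ≤ jj v x ∧ jj v x ≤ 1 := by
  unfold jj
  constructor
  · have : √(1 - ‖∇ v x‖ ^ 2) ≤ 1 := by
      apply Real.sqrt_le_one.2
      nlinarith [sq_nonneg ‖∇ v x‖]
    linarith
  · have := Real.sqrt_nonneg (1 - ‖∇ v x‖ ^ 2)
    linarith

lemma jj_int (v : E3 → ℝ) : IntegrableOn (jj v) Om := by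
  have hfin : volume Om < ⊤ := measure_ball_lt_top
  have hm : Measurable (jj v) := by
    unfold jj
    exact measurable_const.sub (((measurable_const.sub ((meas_grad v).norm.pow_const 2))).sqrt)
  refine Measure.integrableOn_of_bounded (M := 1) hfin.ne hm.aestronglyMeasurable ?_
  filter_upwards with x
  rw [Real.norm_eq_abs, abs_of_nonneg (jj_mem x).1]
  exact (jj_mem x).2

theorem min_ineq {v : E3 → ℝ} (hv : LipschitzWith 1 v) (hv0 : ∀ x ∉ Om, v x = 0) :
    (∫ x in Om, jj (uu p) x) - (∫ x in Om, ff p x * uu p x)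
      + (∫ x in Om, ‖∇ (fun y => v y - uu p y) x‖ ^ 2 / 2)
    ≤ (∫ x in Om, jj v x) - (∫ x in Om, ff p x * v x) := by
  set w : E3 → ℝ := fun y => v y - uu p y with hwdef
  have hu := lip_uu p
  have hw : LipschitzWith (1 + 1) w := hv.sub hu
  have hw0 : ∀ x ∉ Om, w x = 0 := fun x hx => by
    simp only [hwdef]; rw [hv0 x hx, uu_zero_off p hx, sub_zero]
  have hwM := bound_of_lip hw hw0
  have hT := total_ibp p hw hwM
  have hvM := bound_of_lip hv hv0
  have huM := bound_of_lip hu (fun x hx => uu_zero_off p hx)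
  have hgae : ∀ᵐ x, ∇ w x = ∇ v x - ∇ (uu p) x := by
    filter_upwards [hv.ae_differentiableAt, hu.ae_differentiableAt] with x h1 h2
    unfold gradient
    rw [← map_sub, ← fderiv_sub h1 h2]
    rfl
  -- pointwise inequality
  have hpt : ∀ᵐ x, (∑' n, inner ℝ (Fn p (cc n) (rr n) x) (∇ w x)) + ‖∇ w x‖ ^ 2 / 2
      ≤ jj v x - jj (uu p) x := by
    filter_upwards [hgae, ae_cases, ae_nondeg p] with x hg hc hd
    have hv1 : ‖∇ v x‖ ≤ 1 := by simpa using norm_grad_le hv x
    rcases hc with ⟨n, hn⟩ | hc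
    · have hG : ∇ (uu p) x = Gn p (cc n) (rr n) x := (grad_uu_slab p hn).gradient
      rw [tsum_eq_single n fun k hk => by
          rw [Fn_zero p (rr_pos k) (far_of_slab hn hk), inner_zero_left]]
      have hlt : ‖Gn p (cc n) (rr n) x‖ < 1 := by
        have h1 := norm_Gv_sq p (yy (cc n) (rr n) x)
        have h2 := hd n
        unfold Gn
        nlinarith [norm_nonneg (Gv p (yy (cc n) (rr n) x))]
      have := convex_ineq hv1 hlt
      rw [← hG] at this
      rw [hg]
      unfold Fn jj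
      rw [← hG]
      exact this
    · have hG : ∇ (uu p) x = 0 := (grad_uu_noslab p hc).gradient
      have e0 : ∀ k, inner ℝ (Fn p (cc k) (rr k) x) (∇ w x) = 0 := fun k => by
        rw [Fn_zero p (rr_pos k) (far_of_noslab (noslab_of hc) k), inner_zero_left]
      simp only [e0, tsum_zero]
      have := convex_ineq (G := 0) hv1 (by simp)
      rw [hg, hG]
      unfold jj
      rw [hG]
      simpa using this
  have hgw : ∀ x, ‖∇ w x‖ ^ 2 / 2 ≤ 2 := by
    intro x
    have := norm_grad_le hw x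
    have h2 : ((1 + 1 : ℝ≥0) : ℝ) = 2 := by norm_num
    rw [h2] at this
    nlinarith [norm_nonneg (∇ w x)]
  have hfin : volume Om < ⊤ := measure_ball_lt_top
  have hgi : IntegrableOn (fun x => ‖∇ w x‖ ^ 2 / 2) Om := by
    refine Measure.integrableOn_of_bounded (M := 2) hfin.ne
      (((meas_grad w).norm.pow_const 2).div_const 2).aestronglyMeasurable ?_
    filter_upwards with x
    rw [Real.norm_eq_abs, abs_of_nonneg (by positivity)]
    exact hgw x
  have hmono : ∫ x in Om, ((∑' n, inner ℝ (Fn p (cc n) (rr n) x) (∇ w x)) + ‖∇ w x‖ ^ 2 / 2)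
      ≤ ∫ x in Om, (jj v x - jj (uu p) x) := by
    apply integral_mono_ae (hT.1.integrableOn.add hgi) ((jj_int v).sub (jj_int (uu p)))
    exact ae_restrict_of_ae hpt
  rw [integral_add hT.1.integrableOn hgi, integral_sub (jj_int v) (jj_int (uu p))] at hmono
  have e1 : ∫ x in Om, (∑' n, inner ℝ (Fn p (cc n) (rr n) x) (∇ w x))
      = ∫ x, (∑' n, inner ℝ (Fn p (cc n) (rr n) x) (∇ w x)) := by
    apply setIntegral_eq_integral_of_ae_compl_eq_zero
    filter_upwards [grad_zero_off hw0] with x hx hxO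
    simp [hx hxO]
  have e2 : ∫ x, ff p x * w x = ∫ x in Om, ff p x * w x := by
    symm
    apply setIntegral_eq_integral_of_forall_compl_eq_zero
    intro x hx
    rw [hw0 x hx, mul_zero]
  have hfv : IntegrableOn (fun x => ff p x * v x) Om := by
    refine ((ff_integrable p).mul_bdd (c := (1:ℝ≥0) * 4) hv.continuous.aestronglyMeasurable ?_).integrableOn
    filter_upwards with x
    exact hvM x
  have hfu : IntegrableOn (fun x => ff p x * uu p x) Om := by
    refine ((ff_integrable p).mul_bdd (c := (1:ℝ≥0) * 4) hu.continuous.aestronglyMeasurable ?_).integrableOn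
    filter_upwards with x
    exact huM x
  have e3 : ∫ x in Om, ff p x * w x = (∫ x in Om, ff p x * v x) - ∫ x in Om, ff p x * uu p x := by
    rw [← integral_sub hfv hfu]
    congr 1; ext x; simp only [hwdef]; ring
  rw [e1, hT.2, e2, e3] at hmono
  linarith

/-! ### rigidity -/

lemma coord_lip : LipschitzWith 1 (fun x : E3 => x 0) := by
  apply LipschitzWith.of_dist_le_mul
  intro x y
  rw [Real.dist_eq, dist_eq_norm]
  simpa using abs_coord_le (x - y) 0

theorem rigid {w : E3 → ℝ} {C : ℝ≥0} (hw : LipschitzWith C w) (h0 : ∀ x ∉ Om, w x = 0)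
    (hg : ∀ᵐ x, ∇ w x = 0) : ∀ x, w x = 0 := by
  have hM := bound_of_lip hw h0
  set g : E3 → ℝ := fun x => w x ^ 2 with hgdef
  have hgl : LipschitzWith (C * (2 * (C * 4))) g := by
    apply LipschitzWith.of_dist_le_mul
    intro x y
    rw [Real.dist_eq]
    have e : g x - g y = (w x - w y) * (w x + w y) := by simp only [hgdef]; ring
    rw [e, abs_mul]
    have h1 : |w x - w y| ≤ C * dist x y := by
      have := hw.dist_le_mul x y
      rwa [Real.dist_eq] at this
    have h2 : |w x + w y| ≤ 2 * (C * 4) := by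
      linarith [abs_add_le (w x) (w y), hM x, hM y]
    push_cast
    calc |w x - w y| * |w x + w y| ≤ (C * dist x y) * (2 * (C * 4)) :=
          mul_le_mul h1 h2 (abs_nonneg _) (by positivity)
      _ = _ := by ring
  have hgs : HasCompactSupport g := by
    apply HasCompactSupport.intro (isCompact_closedBall (0:E3) 2)
    intro x hx
    have : x ∉ Om := fun h => hx (ball_subset_closedBall h)
    simp only [hgdef]; rw [h0 x this]; norm_num
  have h := LipschitzWith.integral_lineDeriv_mul_eq (μ := volume) coord_lip hgl hgs (ee 0)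
  have e1 : ∀ x : E3, lineDeriv ℝ (fun x : E3 => x 0) x (ee 0) = 1 := by
    intro x
    unfold lineDeriv
    simp [ee_apply]
  have e2 : ∀ᵐ x : E3, lineDeriv ℝ g x (- ee 0) * x 0 = 0 := by
    filter_upwards [hg, hw.ae_differentiableAt] with x hx hd
    have hf0 : fderiv ℝ w x = 0 := by
      unfold gradient at hx
      simpa using hx
    have hgd : HasFDerivAt g (0 : E3 →L[ℝ] ℝ) x := by
      have h1 := (hd.hasFDerivAt).pow 2
      rw [hf0] at h1
      refine h1.congr_fderiv ?_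
      simp
    rw [(hgd.differentiableAt).lineDeriv_eq_fderiv, hgd.fderiv]
    simp
  simp only [e1, one_mul] at h
  rw [integral_congr_ae e2, integral_zero] at h
  have hgc : Continuous g := hgl.continuous
  have hgi : Integrable g := hgc.integrable_of_hasCompactSupport hgs
  have h3 : g =ᵐ[volume] 0 :=
    (integral_eq_zero_iff_of_nonneg (fun x => by simp only [hgdef]; positivity) hgi).1 h
  have h4 : g = fun _ => 0 := by
    have := Continuous.ae_eq_iff_eq (μ := (volume : Measure E3)) hgc continuous_const (g := fun _ => (0:ℝ))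
    exact this.1 h3
  intro x
  have := congrFun h4 x
  simp only [hgdef] at this
  exact pow_eq_zero_iff (two_ne_zero) |>.1 this

theorem unique_min {v : E3 → ℝ} (hv : LipschitzWith 1 v) (hv0 : ∀ x ∉ Om, v x = 0)
    (h : (∫ x in Om, jj v x) - (∫ x in Om, ff p x * v x) ≤
      (∫ x in Om, jj (uu p) x) - (∫ x in Om, ff p x * uu p x)) : ∀ x, v x = uu p x := by
  have h1 := min_ineq p hv hv0
  set w : E3 → ℝ := fun y => v y - uu p y with hwdef
  have hw : LipschitzWith (1 + 1) w := hv.sub (lip_uu p)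
  have hw0 : ∀ x ∉ Om, w x = 0 := fun x hx => by
    simp only [hwdef]; rw [hv0 x hx, uu_zero_off p hx, sub_zero]
  have h2 : ∫ x in Om, ‖∇ w x‖ ^ 2 / 2 = 0 := by
    apply le_antisymm
    · linarith
    · exact integral_nonneg fun x => by positivity
  have hfin : volume Om < ⊤ := measure_ball_lt_top
  have hgi : IntegrableOn (fun x => ‖∇ w x‖ ^ 2 / 2) Om := by
    refine Measure.integrableOn_of_bounded (M := 2) hfin.ne
      (((meas_grad w).norm.pow_const 2).div_const 2).aestronglyMeasurable ?_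
    filter_upwards with x
    rw [Real.norm_eq_abs, abs_of_nonneg (by positivity)]
    have := norm_grad_le hw x
    have h2 : ((1 + 1 : ℝ≥0) : ℝ) = 2 := by norm_num
    rw [h2] at this
    nlinarith [norm_nonneg (∇ w x)]
  have h3 := (integral_eq_zero_iff_of_nonneg (fun x => by positivity) hgi).1 h2
  have h4 : ∀ᵐ x, ∇ w x = 0 := by
    have h5 := (ae_restrict_iff' (measurableSet_ball (x := (0:E3)) (ε := 2))).1 h3
    filter_upwards [h5, grad_zero_off hw0] with x hx1 hx2
    by_cases hxO : x ∈ Om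
    · have := hx1 hxO
      simp only [Pi.zero_apply] at this
      have h6 : ‖∇ w x‖ ^ 2 = 0 := by linarith
      simpa using h6
    · exact hx2 hxO
  intro x
  have := rigid hw hw0 h4 x
  simp only [hwdef] at this
  linarith

end

end Q65.Light
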