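import Mathlib
import Pool.Agent.Q65.LightMin

/-!
# Definitions of the problem and final assembly
-/

namespace Q65.Light

open Set MeasureTheory Filter Topology Metric
open scoped ContDiff NNReal Gradient ENNReal

noncomputable section

/-- Euclidean space -/
abbrev Eu (m : ℕ) := EuclideanSpace ℝ (Fin m)

variable {m : ℕ}

/-- The distance `d_{Ω̄}(x,y)`: the infimum of the lengths of the polygonal paths
`z 0 = x, z 1, …, z n = y` whose open edges and inner vertices lie in `Ω`. -/
def pathDist (Ω : Set (Eu m)) (x y : Eu m) : ℝ≥0∞ :=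
  ⨅ (n : ℕ) (z : ℕ → Eu m) (_ : z 0 = x ∧ z n = y ∧
      (∀ i < n, openSegment ℝ (z i) (z (i + 1)) ⊆ Ω) ∧ ∀ i, 0 < i → i < n → z i ∈ Ω),
    ENNReal.ofReal (∑ i ∈ Finset.range n, dist (z i) (z (i + 1)))

/-- The admissible boundary data `𝒮(∂Ω)`. -/
def AdmBdry (Ω : Set (Eu m)) (φ : Eu m → ℝ) : Prop :=
  ContinuousOn φ (frontier Ω) ∧ ∀ x ∈ frontier Ω, ∀ y ∈ frontier Ω, x ≠ y →
    ENNReal.ofReal |φ x - φ y| < pathDist Ω x y

/-- The class `𝒴_φ`: bounded functions on `Ω` which are `1`-Lipschitz along every segment contained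
in `Ω` (i.e. `u ∈ W^{1,∞}(Ω)`, `|Du| ≤ 1` a.e., for the continuous representative) and which tend to
`φ(x)` along every straight segment in `Ω` ending at `x ∈ ∂Ω`. -/
def YY (Ω : Set (Eu m)) (φ : Eu m → ℝ) : Set (Eu m → ℝ) :=
  {u | (∃ M : ℝ, ∀ x ∈ Ω, |u x| ≤ M) ∧
    (∀ x ∈ Ω, ∀ y ∈ Ω, segment ℝ x y ⊆ Ω → |u x - u y| ≤ dist x y) ∧
    ∀ x ∈ frontier Ω, ∀ e : Eu m, (∀ t ∈ Ioo (0:ℝ) 1, x + t • e ∈ Ω) →
      Tendsto (fun t : ℝ => u (x + t • e)) (𝓝[>] 0) (𝓝 (φ x))}

/-- `⟨ρ, v⟩ = ∫_Ω v dρ` -/
def pairing (Ω : Set (Eu m)) (ρ : SignedMeasure (Eu m)) (v : Eu m → ℝ) : ℝ :=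
  (∫ x in Ω, v x ∂ρ.toJordanDecomposition.posPart) -
    ∫ x in Ω, v x ∂ρ.toJordanDecomposition.negPart

/-- the action `I_ρ` -/
def action (Ω : Set (Eu m)) (ρ : SignedMeasure (Eu m)) (v : Eu m → ℝ) : ℝ :=
  (∫ x in Ω, (1 - √(1 - ‖∇ v x‖ ^ 2))) - pairing Ω ρ v

/-- the light-segment set -/
def lightSet (Ω : Set (Eu m)) (u : Eu m → ℝ) : Set (Eu m) :=
  closure {z | ∃ x ∈ Ω, ∃ y ∈ Ω, x ≠ y ∧ segment ℝ x y ⊆ Ω ∧ |u x - u y| = dist x y ∧
    z ∈ segment ℝ x y}

lemma isOpen_Om : IsOpen Om := isOpen_ball
lemma convex_Om : Convex ℝ Om := convex_ball _ _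

/-- the extension by zero of a competitor -/
lemma ext_lip {v : E3 → ℝ} (hv : v ∈ YY (m := 3) Om (fun _ => 0)) :
    LipschitzWith 1 (Om.indicator v) := by
  obtain ⟨-, h1, h2⟩ := hv
  have key : ∀ x ∈ Om, ∀ y ∉ Om, |v x| ≤ dist x y := by
    intro x hx y hy
    -- a boundary point on the segment
    have hconn : IsPreconnected (segment ℝ x y) := (convex_segment x y).isPreconnected
    obtain ⟨z, hzs, hzf⟩ : ∃ z ∈ segment ℝ x y, z ∈ frontier Om := by
      by_contra hcon
      push Not at hcon
      have hcov : segment ℝ x y ⊆ Om ∪ (closure Om)ᶜ := by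
        intro z hz
        by_cases hzO : z ∈ Om
        · left; exact hzO
        · right
          intro hzc
          exact hcon z hz ⟨hzc, by rwa [isOpen_Om.interior_eq]⟩
      have := hconn.subset_left_of_subset_union isOpen_Om isClosed_closure.isOpen_compl
        (by
          rw [Set.disjoint_left]
          intro z hz hz2
          exact hz2 (subset_closure hz)) hcov ⟨x, left_mem_segment ℝ x y, hx⟩
      exact hy (this (right_mem_segment ℝ x y))
    have hseg : ∀ t ∈ Ioo (0:ℝ) 1, z + t • (x - z) ∈ Om := by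
      intro t ht
      have := convex_Om.openSegment_interior_closure_subset_interior (x := x) (y := z)
        (by rwa [isOpen_Om.interior_eq]) hzf.1
      rw [isOpen_Om.interior_eq] at this
      apply this
      refine ⟨t, 1 - t, ht.1, by linarith [ht.2], by ring, ?_⟩
      rw [sub_smul, one_smul, smul_sub]; abel
    have hlim := h2 z hzf (x - z) hseg
    have hb : ∀ᶠ t : ℝ in 𝓝[>] 0, |v x| - |v (z + t • (x - z))| ≤ dist x z := by
      have : Ioo (0:ℝ) 1 ∈ 𝓝[>] (0:ℝ) := Ioo_mem_nhdsGT (by norm_num)
      filter_upwards [this] with t ht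
      have h3 := h1 x hx _ (hseg t ht) (convex_Om.segment_subset hx (hseg t ht))
      have h4 : dist x (z + t • (x - z)) ≤ dist x z := by
        have : x - (z + t • (x - z)) = (1 - t) • (x - z) := by
          rw [sub_smul, one_smul]; abel
        rw [dist_eq_norm, this, norm_smul, dist_eq_norm, Real.norm_eq_abs,
          abs_of_nonneg (by linarith [ht.2])]
        have := norm_nonneg (x - z)
        nlinarith [ht.1]
      have h5 := abs_sub_abs_le_abs_sub (v x) (v (z + t • (x - z)))
      linarith
    have hlim2 : Tendsto (fun t : ℝ => |v x| - |v (z + t • (x - z))|) (𝓝[>] 0) (𝓝 (|v x| - |(0:ℝ)|)) :=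
      tendsto_const_nhds.sub hlim.abs
    have h6 := le_of_tendsto hlim2 hb
    rw [abs_zero, sub_zero] at h6
    have h7 := dist_add_dist_of_mem_segment hzs
    linarith [dist_nonneg (x := z) (y := y)]
  apply LipschitzWith.of_dist_le_mul
  intro x y
  rw [NNReal.coe_one, one_mul, Real.dist_eq]
  by_cases hx : x ∈ Om <;> by_cases hy : y ∈ Om
  · rw [indicator_of_mem hx, indicator_of_mem hy]
    exact h1 x hx y hy (convex_Om.segment_subset hx hy)
  · rw [indicator_of_mem hx, indicator_of_notMem hy, sub_zero]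
    exact key x hx y hy
  · rw [indicator_of_notMem hx, indicator_of_mem hy, zero_sub, abs_neg, dist_comm]
    exact key y hy x hx
  · rw [indicator_of_notMem hx, indicator_of_notMem hy]; simp

lemma pairing_density {f : E3 → ℝ} (hf : Measurable f) (hfi : Integrable f) {v : E3 → ℝ}
    (hv : Continuous v) {M : ℝ} (hM : ∀ x, |v x| ≤ M) :
    pairing (m := 3) Om (volume.withDensityᵥ f) v = ∫ x in Om, f x * v x := by
  have hJ := SignedMeasure.toJordanDecomposition_eq_of_eq_add_withDensity (μ := (volume : Measure E3))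
    (s := volume.withDensityᵥ f) (t := 0) hf hfi (VectorMeasure.MutuallySingular.zero_left) (by simp)
  unfold pairing
  rw [hJ]
  simp only [SignedMeasure.toJordanDecomposition_zero, JordanDecomposition.zero_posPart,
    JordanDecomposition.zero_negPart, zero_add]
  have hmO : MeasurableSet Om := measurableSet_ball
  rw [restrict_withDensity hmO, restrict_withDensity hmO,
    integral_withDensity_eq_integral_toReal_smul (hf.ennreal_ofReal) (by simp),
    integral_withDensity_eq_integral_toReal_smul (f := fun x => ENNReal.ofReal (- f x))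
      (hf.neg.ennreal_ofReal) (by simp)]
  have hbdd : ∀ g : E3 → ℝ, Measurable g → (∀ x, |g x| ≤ |f x|) → IntegrableOn (fun x => g x * v x) Om := by
    intro g hg hgf
    have hgi : Integrable g := hfi.mono hg.aestronglyMeasurable (by
      filter_upwards with x
      exact hgf x)
    exact (hgi.mul_bdd (c := M) hv.aestronglyMeasurable (by filter_upwards with x; exact hM x)).integrableOn
  have e1 : ∀ y : ℝ, (ENNReal.ofReal y).toReal = max y 0 := fun y => ENNReal.toReal_ofReal'
  simp only [e1, smul_eq_mul]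
  rw [← integral_sub (hbdd (fun x => max (f x) 0) (hf.max measurable_const) ?_)
    (hbdd (fun x => max (- f x) 0) (hf.neg.max measurable_const) ?_)]
  · congr 1; ext x
    rcases le_total 0 (f x) with h | h
    · rw [max_eq_left h, max_eq_right (by linarith)]; ring
    · rw [max_eq_right h, max_eq_left (by linarith)]; ring
  · intro x
    rcases le_total 0 (f x) with h | h
    · rw [max_eq_left h]
    · rw [max_eq_right h]; simp
  · intro x
    rcases le_total 0 (f x) with h | h
    · rw [max_eq_right (by linarith)]; simp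
    · rw [max_eq_left (by linarith), abs_neg]

lemma iota_isometry : Isometry iota := by
  apply Isometry.of_dist_eq
  intro a b
  rw [dist_eq_norm, dist_eq_norm]
  have h1 : ‖iota a - iota b‖ ^ 2 = ‖a - b‖ ^ 2 := by
    rw [norm_sq_E3, EuclideanSpace.norm_sq_eq]
    simp [iota]
  exact (sq_eq_sq₀ (norm_nonneg _) (norm_nonneg _)).1 h1

theorem main : ∃ (Ω : Set (Eu 3)) (φ f u : Eu 3 → ℝ),
    IsOpen Ω ∧ IsConnected Ω ∧ Bornology.IsBounded Ω ∧ AdmBdry Ω φ ∧
    Integrable f ∧ u ∈ YY Ω φ ∧
    (∀ v ∈ YY Ω φ, action Ω (volume.withDensityᵥ f) u ≤ action Ω (volume.withDensityᵥ f) v) ∧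
    (∀ v ∈ YY Ω φ, action Ω (volume.withDensityᵥ f) v ≤ action Ω (volume.withDensityᵥ f) u →
      ∀ x ∈ Ω, v x = u x) ∧
    0 < μH[2] (lightSet Ω u) := by
  obtain ⟨p⟩ := exists_prof
  set f : E3 → ℝ := (ff_integrable p).1.mk with hfdef
  have hfm : Measurable f := (ff_integrable p).1.measurable_mk
  have hfe : ff p =ᵐ[volume] f := (ff_integrable p).1.ae_eq_mk
  have hfi : Integrable f := (ff_integrable p).congr hfe
  have hu0 : ∀ x ∉ Om, uu p x = 0 := fun x hx => uu_zero_off p hx
  -- the action of the competitors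
  have hact : ∀ v ∈ YY (m := 3) Om (fun _ => 0), action Om (volume.withDensityᵥ f) v =
      (∫ x in Om, jj (Om.indicator v) x) - ∫ x in Om, ff p x * Om.indicator v x := by
    intro v hv
    have hL := ext_lip hv
    have hb := bound_of_lip hL (fun x hx => indicator_of_notMem hx v)
    unfold action
    congr 1
    · apply setIntegral_congr_fun measurableSet_ball
      intro x hx
      unfold jj
      have : v =ᶠ[𝓝 x] Om.indicator v := by
        filter_upwards [isOpen_Om.mem_nhds hx] with y hy
        rw [indicator_of_mem hy]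
      simp only
      unfold gradient
      rw [this.fderiv_eq]
    · have e1 : pairing (m := 3) Om (volume.withDensityᵥ f) v
          = pairing (m := 3) Om (volume.withDensityᵥ f) (Om.indicator v) := by
        unfold pairing
        congr 1 <;>
        · apply setIntegral_congr_fun measurableSet_ball
          intro x hx
          exact (indicator_of_mem (s := Om) hx v).symm
      rw [e1, pairing_density hfm hfi hL.continuous hb]
      apply integral_congr_ae
      apply ae_restrict_of_ae
      filter_upwards [hfe] with x hx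
      rw [hx]
  have hu : uu p ∈ YY (m := 3) Om (fun _ => 0) := by
    refine ⟨⟨_, fun x _ => bound_of_lip (lip_uu p) hu0 x⟩, ?_, ?_⟩
    · intro x _ y _ _
      have := (lip_uu p).dist_le_mul x y
      rwa [Real.dist_eq, NNReal.coe_one, one_mul] at this
    · intro x hx e _
      have hxO : x ∉ Om := by
        have := hx.2
        rwa [isOpen_Om.interior_eq] at this
      have hc : Tendsto (fun t : ℝ => uu p (x + t • e)) (𝓝 0) (𝓝 (uu p (x + (0:ℝ) • e))) := by
        have : Continuous (fun t : ℝ => uu p (x + t • e)) :=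
          (lip_uu p).continuous.comp (by fun_prop)
        exact this.tendsto 0
      rw [zero_smul, add_zero, hu0 x hxO] at hc
      exact hc.mono_left nhdsWithin_le_nhds
  have hui : Om.indicator (uu p) = uu p := by
    ext x
    by_cases hx : x ∈ Om
    · rw [indicator_of_mem hx]
    · rw [indicator_of_notMem hx, hu0 x hx]
  refine ⟨Om, fun _ => 0, f, uu p, isOpen_Om, ?_, isBounded_ball, ?_, hfi, hu, ?_, ?_, ?_⟩
  · exact ⟨⟨0, by simp [Om]⟩, convex_Om.isPreconnected⟩
  · refine ⟨continuousOn_const, ?_⟩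
    intro x _ y _ hxy
    simp only [sub_self, abs_zero, ENNReal.ofReal_zero]
    have hd : 0 < dist x y := dist_pos.2 hxy
    refine lt_of_lt_of_le (ENNReal.ofReal_pos.2 hd) ?_
    unfold pathDist
    refine le_iInf fun n => le_iInf fun z => le_iInf fun hz => ?_
    apply ENNReal.ofReal_le_ofReal
    rw [← hz.1, ← hz.2.1]
    exact dist_le_range_sum_dist z n
  · intro v hv
    rw [hact v hv, hact _ hu, hui]
    have h := min_ineq p (ext_lip hv) (fun x hx => indicator_of_notMem hx v)
    have h2 : 0 ≤ ∫ x in Om, ‖∇ (fun y => Om.indicator v y - uu p y) x‖ ^ 2 / 2 :=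
      integral_nonneg fun x => by positivity
    linarith
  · intro v hv hle x hx
    rw [hact v hv, hact _ hu, hui] at hle
    have := unique_min p (ext_lip hv) (fun x hx => indicator_of_notMem hx v) hle x
    rwa [indicator_of_mem hx] at this
  · -- the light set
    have hccO : ∀ (n : ℕ) (t : ℝ), |t| ≤ rr n * p.l → cc n + t • ee 0 ∈ Om := by
      intro n t ht
      by_contra hcon
      have h1 := uu_zero_off p hcon
      have hr := rr_pos n
      -- direct norm estimate
      have hfar : 2 ≤ ‖cc n + t • ee 0‖ := by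
        unfold Om at hcon
        rw [mem_ball_zero_iff] at hcon
        linarith
      have h2 : ‖cc n‖ ^ 2 ≤ 1 + 9/16 := by
        rw [norm_sq_E3]
        have h2 : ‖aseq n‖ ^ 2 = (aseq n 0) ^ 2 + (aseq n 1) ^ 2 := by
          rw [EuclideanSpace.norm_sq_eq]; simp
        have h3 : ‖aseq n‖ ^ 2 < 1 := by nlinarith [aseq_norm n, norm_nonneg (aseq n)]
        have h4 : ((3/4 : ℝ) * (1/2) ^ n) ^ 2 ≤ 9/16 := by
          have h5 : (1/2 : ℝ) ^ n ≤ 1 := pow_le_one₀ (by norm_num) (by norm_num)
          have h6 : (0:ℝ) ≤ (1/2 : ℝ) ^ n := by positivity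
          nlinarith
        have e0 : (cc n) 0 = aseq n 0 := rfl
        have e1 : (cc n) 1 = aseq n 1 := rfl
        have e2 : (cc n) 2 = (3/4 : ℝ) * (1/2) ^ n := rfl
        rw [e0, e1, e2]; linarith
      have h7 : ‖cc n‖ ≤ 5/4 := by nlinarith [norm_nonneg (cc n)]
      have h8 := rr_le_one n
      have h9 : |t| ≤ 1/2 := by
        have := p.l1
        have := p.l0
        nlinarith
      have h10 := norm_add_le (cc n) (t • ee 0)
      rw [norm_smul, norm_ee, Real.norm_eq_abs] at h10
      linarith
    have hval : ∀ (n : ℕ) (t : ℝ), |t| ≤ rr n * p.l → uu p (cc n + t • ee 0) = t := by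
      intro n t ht
      have hr := rr_pos n
      have hsl : cc n + t • ee 0 ∈ slab n := by
        apply ball_slab
        rw [add_sub_cancel_left, norm_smul, norm_ee, mul_one, Real.norm_eq_abs]
        have := p.l1
        nlinarith
      rw [uu_slab p hsl, Wn_light p hr t ht]
    have hcc : ∀ n, cc n ∈ {z | ∃ x ∈ Om, ∃ y ∈ Om, x ≠ y ∧ segment ℝ x y ⊆ Om ∧
        |uu p x - uu p y| = dist x y ∧ z ∈ segment ℝ x y} := by
      intro n
      have hr := rr_pos n
      have hl := p.l0
      have hpos : 0 < rr n * p.l := by positivity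
      set T := rr n * p.l with hT
      have hx := hccO n T (by rw [abs_of_pos hpos])
      have hy := hccO n (-T) (by rw [abs_neg, abs_of_pos hpos])
      have hdist : dist (cc n + T • ee 0) (cc n + (-T) • ee 0) = 2 * T := by
        rw [dist_add_left, dist_eq_norm, ← sub_smul, norm_smul, norm_ee, mul_one, Real.norm_eq_abs,
          abs_of_pos (by linarith)]
        ring
      refine ⟨cc n + T • ee 0, hx, cc n + (-T) • ee 0, hy, ?_, convex_Om.segment_subset hx hy, ?_, ?_⟩
      · intro h
        have := hdist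
        rw [h, dist_self] at this
        linarith
      · rw [hval n T (by rw [abs_of_pos hpos]), hval n (-T) (by rw [abs_neg, abs_of_pos hpos]), hdist,
          abs_of_pos (by linarith)]
        ring
      · refine ⟨1/2, 1/2, by norm_num, by norm_num, by norm_num, ?_⟩
        rw [smul_add, smul_add, neg_smul, smul_neg]
        have : (1/2 : ℝ) • cc n + (1/2 : ℝ) • cc n = cc n := by
          rw [← add_smul]; norm_num
        calc _ = (1/2 : ℝ) • cc n + (1/2 : ℝ) • cc n := by abel
          _ = cc n := this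
    have hsub : iota '' disc ⊆ lightSet (m := 3) Om (uu p) := by
      rintro _ ⟨a, ha, rfl⟩
      unfold lightSet
      rw [Metric.mem_closure_iff]
      intro ε hε
      have hdense := TopologicalSpace.denseRange_denseSeq disc
      obtain ⟨k, hk⟩ := hdense.exists_dist_lt (⟨a, ha⟩ : disc) (half_pos hε)
      obtain ⟨j, hj⟩ := exists_pow_lt_of_lt_one (half_pos hε) (by norm_num : (1/2:ℝ) < 1)
      set n := Nat.pair k j with hn
      have hnj : j ≤ n := Nat.right_le_pair k j
      have haseq : aseq n = (TopologicalSpace.denseSeq disc k : disc) := by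
        unfold aseq
        rw [hn, Nat.unpair_pair]
      refine ⟨cc n, hcc n, ?_⟩
      have hd1 : ‖a - aseq n‖ < ε / 2 := by
        rw [haseq, ← dist_eq_norm]
        exact hk
      have hh : (3/4 : ℝ) * (1/2) ^ n < ε / 2 := by
        have : (1/2 : ℝ) ^ n ≤ (1/2 : ℝ) ^ j := pow_le_pow_of_le_one (by norm_num) (by norm_num) hnj
        have h0 : (0:ℝ) < (1/2) ^ n := by positivity
        linarith
      have hh0 : 0 < (3/4 : ℝ) * (1/2) ^ n := by positivity
      rw [dist_eq_norm]
      have hsq : ‖iota a - cc n‖ ^ 2 = ‖a - aseq n‖ ^ 2 + ((3/4 : ℝ) * (1/2) ^ n) ^ 2 := by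
        rw [norm_sq_E3, EuclideanSpace.norm_sq_eq]
        simp [iota, cc]
      have h0 := norm_nonneg (a - aseq n)
      have h1 := norm_nonneg (iota a - cc n)
      nlinarith
    refine lt_of_lt_of_le ?_ (measure_mono hsub)
    rw [iota_isometry.hausdorffMeasure_image (Or.inl (by norm_num))]
    have hfr : (μH[2] : Measure E2) = μH[Module.finrank ℝ E2] := by simp
    rw [hfr]
    exact isOpen_ball.measure_pos _ ⟨0, by simp⟩

end

end Q65.Light
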