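import Mathlib

/-!
Limiting orbits of bounded real sequences: along a subsequence which tends to the upper (or lower)
limit all the preceding terms converge.
-/

set_option autoImplicit false

namespace Q65.LimOrbit

open Set Filter Topology

variable {x : ℕ → ℝ} {m M : ℝ}

lemma isBoundedUnder_le (hx : ∀ n, x n ∈ Icc m M) : IsBoundedUnder (· ≤ ·) atTop x :=
  isBoundedUnder_of ⟨M, fun n => (hx n).2⟩

lemma isBoundedUnder_ge (hx : ∀ n, x n ∈ Icc m M) : IsBoundedUnder (· ≥ ·) atTop x :=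
  isBoundedUnder_of ⟨m, fun n => (hx n).1⟩

lemma exists_subseq_limsup (hx : ∀ n, x n ∈ Icc m M) :
    ∃ φ : ℕ → ℕ, StrictMono φ ∧ Tendsto (x ∘ φ) atTop (𝓝 (limsup x atTop)) := by
  have hle := isBoundedUnder_le hx
  have hge := isBoundedUnder_ge hx
  have h : ∀ n : ℕ, ∃ᶠ k in atTop, |x k - limsup x atTop| < 1 / ((n : ℝ) + 1) := by
    intro n
    have hpos : (0 : ℝ) < 1 / ((n : ℝ) + 1) := by positivity
    have h1 : ∃ᶠ k in atTop, limsup x atTop - 1 / ((n : ℝ) + 1) < x k :=
      frequently_lt_of_lt_limsup hge.isCoboundedUnder_le (by linarith)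
    have h2 : ∀ᶠ k in atTop, x k < limsup x atTop + 1 / ((n : ℝ) + 1) :=
      eventually_lt_of_limsup_lt (by linarith) hle
    refine (h1.and_eventually h2).mono ?_
    rintro k ⟨h3, h4⟩
    rw [abs_lt]
    constructor <;> linarith
  obtain ⟨φ, hφ, hφ'⟩ := extraction_forall_of_frequently h
  refine ⟨φ, hφ, ?_⟩
  rw [tendsto_iff_norm_sub_tendsto_zero]
  refine squeeze_zero (fun _ => norm_nonneg _) (fun n => (hφ' n).le)
    tendsto_one_div_add_atTop_nhds_zero_nat

lemma exists_limit_orbit (hx : ∀ n, x n ∈ Icc m M) {φ : ℕ → ℕ} (hφ : Tendsto φ atTop atTop) :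
    ∃ (ψ : ℕ → ℕ) (L : ℕ → ℝ), StrictMono ψ ∧
      ∀ j, Tendsto (fun k => x (φ (ψ k) - j)) atTop (𝓝 (L j)) := by
  have hcomp : IsCompact (Set.pi univ (fun _ : ℕ => Icc m M)) :=
    isCompact_univ_pi fun _ => isCompact_Icc
  obtain ⟨L, -, ψ, hψ, hlim⟩ := hcomp.tendsto_subseq (x := fun n j => x (φ n - j))
    (fun n => fun j _ => hx _)
  refine ⟨ψ, L, hψ, fun j => ?_⟩
  exact (tendsto_pi_nhds.1 hlim) j

lemma le_limsup_of_tendsto (hx : ∀ n, x n ∈ Icc m M) {φ : ℕ → ℕ} (hφ : Tendsto φ atTop atTop)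
    {l : ℝ} (h : Tendsto (fun k => x (φ k)) atTop (𝓝 l)) :
    liminf x atTop ≤ l ∧ l ≤ limsup x atTop := by
  have hle := isBoundedUnder_le hx
  have hge := isBoundedUnder_ge hx
  constructor
  · refine le_of_forall_pos_le_add fun e he => ?_
    have h1 : ∀ᶠ k in atTop, liminf x atTop - e < x k :=
      eventually_lt_of_lt_liminf (by linarith) hge
    have h2 : liminf x atTop - e ≤ l := by
      refine ge_of_tendsto h ?_
      filter_upwards [hφ.eventually h1] with k hk
      exact hk.le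
    linarith
  · refine le_of_forall_pos_le_add fun e he => ?_
    have h1 : ∀ᶠ k in atTop, x k < limsup x atTop + e :=
      eventually_lt_of_limsup_lt (by linarith) hle
    refine le_of_tendsto h ?_
    filter_upwards [hφ.eventually h1] with k hk
    exact hk.le

/-- **a limiting orbit through the upper limit** -/
theorem limsup_orbit (hx : ∀ n, x n ∈ Icc m M) :
    ∃ (φ : ℕ → ℕ) (L : ℕ → ℝ), Tendsto φ atTop atTop ∧
      (∀ j, Tendsto (fun k => x (φ k - j)) atTop (𝓝 (L j))) ∧ L 0 = limsup x atTop ∧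
      ∀ j, liminf x atTop ≤ L j ∧ L j ≤ limsup x atTop := by
  obtain ⟨φ, hφ, hlim⟩ := exists_subseq_limsup hx
  obtain ⟨ψ, L, hψ, hL⟩ := exists_limit_orbit hx hφ.tendsto_atTop
  refine ⟨fun k => φ (ψ k), L, hφ.tendsto_atTop.comp hψ.tendsto_atTop, hL, ?_, fun j => ?_⟩
  · exact tendsto_nhds_unique (hL 0) (hlim.comp hψ.tendsto_atTop)
  · refine le_limsup_of_tendsto hx (φ := fun k => φ (ψ k) - j) ?_ (hL j)
    exact (tendsto_sub_atTop_nat j).comp (hφ.tendsto_atTop.comp hψ.tendsto_atTop)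

/-- **a limiting orbit through the lower limit** -/
theorem liminf_orbit (hx : ∀ n, x n ∈ Icc m M) :
    ∃ (φ : ℕ → ℕ) (L : ℕ → ℝ), Tendsto φ atTop atTop ∧
      (∀ j, Tendsto (fun k => x (φ k - j)) atTop (𝓝 (L j))) ∧ L 0 = liminf x atTop ∧
      ∀ j, liminf x atTop ≤ L j ∧ L j ≤ limsup x atTop := by
  have hx' : ∀ n, (fun n => - x n) n ∈ Icc (-M) (-m) := fun n =>
    ⟨neg_le_neg (hx n).2, neg_le_neg (hx n).1⟩
  obtain ⟨φ, L, h1, h2, h3, h4⟩ := limsup_orbit hx'
  have e1 : limsup (fun n => - x n) atTop = - liminf x atTop := by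
    have hle := isBoundedUnder_le hx
    have hge := isBoundedUnder_ge hx
    refine le_antisymm ?_ ?_
    · refine le_of_forall_pos_le_add fun e he => ?_
      have h5 : ∀ᶠ k in atTop, liminf x atTop - e < x k :=
        eventually_lt_of_lt_liminf (by linarith) hge
      refine limsup_le_of_le (isBoundedUnder_ge hx').isCoboundedUnder_le ?_
      filter_upwards [h5] with k hk
      linarith
    · refine le_of_forall_pos_le_add fun e he => ?_
      have h5 : ∀ᶠ k in atTop, - x k < limsup (fun n => - x n) atTop + e :=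
        eventually_lt_of_limsup_lt (by linarith) (isBoundedUnder_le hx')
      have h6 : -(limsup (fun n => - x n) atTop + e) ≤ liminf x atTop := by
        refine le_liminf_of_le (isBoundedUnder_le hx).isCoboundedUnder_ge ?_
        filter_upwards [h5] with k hk
        linarith
      linarith
  have key : ∀ j, Tendsto (fun k => x (φ k - j)) atTop (𝓝 (- L j)) := by
    intro j
    have := (h2 j).neg
    simpa using this
  refine ⟨φ, fun j => - L j, h1, key, ?_, fun j => ?_⟩
  · show - L 0 = _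
    rw [h3, e1, neg_neg]
  · refine le_limsup_of_tendsto hx (φ := fun k => φ k - j) ?_ (key j)
    exact (tendsto_sub_atTop_nat j).comp h1

lemma tendsto_of_eq (hx : ∀ n, x n ∈ Icc m M) (h : limsup x atTop ≤ liminf x atTop) :
    Tendsto x atTop (𝓝 (limsup x atTop)) := by
  have hle := isBoundedUnder_le hx
  have hge := isBoundedUnder_ge hx
  exact tendsto_of_le_liminf_of_limsup_le h le_rfl hle hge

end Q65.LimOrbit
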