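import Mathlib

/-!
Helper for MP_e65cda_an: the recursion `x_{n+1} = (α_n + x_n) / x_{n-1}` with periodic coefficients.

* period two: an invariant, hence boundedness;
* blocks of five coefficients `1` or of six coefficients `0` act trivially;
* all other periods: explicit unbounded solutions.
-/

set_option autoImplicit false

namespace Q65.Lyness

/-- `x` is a positive solution (index shifted by one) -/
def Sol (α : ℕ → ℝ) (x : ℕ → ℝ) : Prop :=
  (∀ n, 0 < x n) ∧ ∀ n, x (n + 2) = (α n + x (n + 1)) / x n

/-- `p` is the least period of `α` -/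
def Least {β : Type*} (α : ℕ → β) (p : ℕ) : Prop :=
  (∀ n, α (n + p) = α n) ∧ ∀ q, 0 < q → (∀ n, α (n + q) = α n) → p ≤ q

/-- `p` is bad: some nonnegative coefficients of least period `p` have an unbounded solution -/
def Bad (p : ℕ) : Prop :=
  ∃ α : ℕ → ℝ, (∀ n, 0 ≤ α n) ∧ Least α p ∧ ∃ x, Sol α x ∧ ¬ BddAbove (Set.range x)

/-! ### period two -/

noncomputable def V (a b x y : ℝ) : ℝ :=
  a * b / (x * y) + (a + b ^ 2) / y + (b + a ^ 2) / x + b * x / y + a * y / x + a * x + b * y

lemma V_step {a b x y : ℝ} (ha : 0 ≤ a) (hx : 0 < x) (hy : 0 < y) :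
    V b a y ((a + y) / x) = V a b x y := by
  have : 0 < a + y := by linarith
  unfold V
  field_simp
  ring

lemma two_bdd {α x : ℕ → ℝ} (hα : ∀ n, 0 ≤ α n) (hp : ∀ n, α (n + 2) = α n)
    (hne : α 0 ≠ α 1) (hx : Sol α x) : BddAbove (Set.range x) := by
  have hV : ∀ n, V (α n) (α (n + 1)) (x n) (x (n + 1)) = V (α 0) (α 1) (x 0) (x 1) := by
    intro n
    induction n with
    | zero => rfl
    | succ n ih =>
      rw [← ih, hp n, hx.2 n]
      exact V_step (hα n) (hx.1 n) (hx.1 (n + 1))
  set K : ℝ := V (α 0) (α 1) (x 0) (x 1) with hK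
  have hKp : 0 ≤ K := by
    rw [hK]
    unfold V
    have := hα 0
    have := hα 1
    have := hx.1 0
    have := hx.1 1
    positivity
  have h1 : ∀ n, α n * x n ≤ K := by
    intro n
    rw [← hV n]
    unfold V
    have h1 := hα n
    have h2 := hα (n + 1)
    have h3 := hx.1 n
    have h4 := hx.1 (n + 1)
    have : 0 ≤ α n * α (n + 1) / (x n * x (n + 1)) + (α n + α (n + 1) ^ 2) / x (n + 1) +
      (α (n + 1) + α n ^ 2) / x n + α (n + 1) * x n / x (n + 1) + α n * x (n + 1) / x n +
      α (n + 1) * x (n + 1) := by positivity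
    linarith
  have h2 : ∀ n, α n * x (n + 1) ≤ K * x n := by
    intro n
    rw [← hV n, ← div_le_iff₀ (hx.1 n)]
    unfold V
    have h1 := hα n
    have h2 := hα (n + 1)
    have h3 := hx.1 n
    have h4 := hx.1 (n + 1)
    have : 0 ≤ α n * α (n + 1) / (x n * x (n + 1)) + (α n + α (n + 1) ^ 2) / x (n + 1) +
      (α (n + 1) + α n ^ 2) / x n + α (n + 1) * x n / x (n + 1) + α n * x n +
      α (n + 1) * x (n + 1) := by positivity
    linarith
  have hper : ∀ n k, α (n + 2 * k) = α n := by
    intro n k
    induction k with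
    | zero => rfl
    | succ k ih => rw [show n + 2 * (k + 1) = n + 2 * k + 2 by ring, hp, ih]
  -- an index with positive coefficient
  obtain ⟨m, hm, hmp⟩ : ∃ m, m ≤ 1 ∧ 0 < α m := by
    by_contra hcon
    push Not at hcon
    have e0 := le_antisymm (hcon 0 (by norm_num)) (hα 0)
    have e1 := le_antisymm (hcon 1 (by norm_num)) (hα 1)
    exact hne (e0.trans e1.symm)
  refine ⟨max (x 0) (max (K / α m) (K * (K / α m) / α m)), ?_⟩
  rintro _ ⟨n, rfl⟩
  by_cases hn : n < m
  · have : n = 0 := by omega
    subst this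
    exact le_max_left _ _
  · refine le_trans ?_ (le_max_right _ _)
    obtain ⟨k, hk | hk⟩ : ∃ k, n = m + 2 * k ∨ n = m + 2 * k + 1 := ⟨(n - m) / 2, by omega⟩
    · refine le_trans ?_ (le_max_left _ _)
      rw [le_div_iff₀ hmp, hk, mul_comm, ← hper m k]
      exact h1 _
    · refine le_trans ?_ (le_max_right _ _)
      have e1 : x (m + 2 * k) ≤ K / α m := by
        rw [le_div_iff₀ hmp, mul_comm]
        have := h1 (m + 2 * k)
        rwa [hper] at this
      have e2 := h2 (m + 2 * k)
      rw [hper] at e2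
      rw [le_div_iff₀ hmp, hk, mul_comm]
      exact e2.trans (mul_le_mul_of_nonneg_left e1 hKp)

/-! ### words of coefficients -/

/-- one step of the recursion with coefficient `c` -/
noncomputable def step (c : ℝ) (s : ℝ × ℝ) : ℝ × ℝ := (s.2, (c + s.2) / s.1)

/-- the steps of a word of coefficients -/
noncomputable def run (w : List ℝ) (s : ℝ × ℝ) : ℝ × ℝ := w.foldl (fun s c => step c s) s

lemma run_append (w v : List ℝ) (s : ℝ × ℝ) : run (w ++ v) s = run v (run w s) := by
  unfold run
  rw [List.foldl_append]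

lemma run_cons (c : ℝ) (w : List ℝ) (s : ℝ × ℝ) : run (c :: w) s = run w (step c s) := rfl

lemma run_nil (s : ℝ × ℝ) : run [] s = s := rfl

/-- both components are positive -/
def P (s : ℝ × ℝ) : Prop := 0 < s.1 ∧ 0 < s.2

lemma step_pos {c : ℝ} {s : ℝ × ℝ} (hc : 0 ≤ c) (hs : P s) : P (step c s) :=
  ⟨hs.2, div_pos (by linarith [hs.2]) hs.1⟩

lemma run_pos {w : List ℝ} (hw : ∀ c ∈ w, 0 ≤ c) {s : ℝ × ℝ} (hs : P s) : P (run w s) := by
  induction w generalizing s with
  | nil => exact hs
  | cons c w ih =>
    rw [run_cons]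
    exact ih (fun d hd => hw d (List.mem_cons_of_mem _ hd)) (step_pos (hw c (by simp)) hs)

lemma ones5 {s : ℝ × ℝ} (hs : P s) : run (List.replicate 5 1) s = s := by
  obtain ⟨x, y⟩ := s
  obtain ⟨hx, hy⟩ := hs
  simp only at hx hy
  have h1 : (0 : ℝ) < 1 + y := by linarith
  have h2 : (0 : ℝ) < 1 + x := by linarith
  have h3 : (0 : ℝ) < 1 + x + y := by linarith
  simp only [List.replicate, run, List.foldl, step]
  ext
  · simp only
    field_simp
    ring_nf
  · simp only
    field_simp
    ring_nf

lemma zeros6 {s : ℝ × ℝ} (hs : P s) : run (List.replicate 6 0) s = s := by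
  obtain ⟨x, y⟩ := s
  obtain ⟨hx, hy⟩ := hs
  simp only at hx hy
  simp only [List.replicate, run, List.foldl, step, zero_add]
  ext
  · simp only
    field_simp
  · simp only
    field_simp

lemma ones {s : ℝ × ℝ} (hs : P s) (a : ℕ) : run (List.replicate (5 * a) 1) s = s := by
  induction a with
  | zero => rfl
  | succ a ih =>
    rw [show 5 * (a + 1) = 5 * a + 5 by ring, List.replicate_add, run_append, ih, ones5 hs]

lemma zeros {s : ℝ × ℝ} (hs : P s) (b : ℕ) : run (List.replicate (6 * b) 0) s = s := by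
  induction b with
  | zero => rfl
  | succ b ih =>
    rw [show 6 * (b + 1) = 6 * b + 6 by ring, List.replicate_add, run_append, ih, zeros6 hs]

/-! ### solutions from words -/

/-- the periodic coefficients with period word `L` -/
def coef {β : Type*} (L : List β) (d : β) (n : ℕ) : β := L.getD (n % L.length) d

/-- the states of the solution -/
noncomputable def St (α : ℕ → ℝ) (s : ℝ × ℝ) : ℕ → ℝ × ℝ
  | 0 => s
  | n + 1 => step (α n) (St α s n)

lemma St_pos {α : ℕ → ℝ} (hα : ∀ n, 0 ≤ α n) {s : ℝ × ℝ} (hs : P s) (n : ℕ) : P (St α s n) := by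
  induction n with
  | zero => exact hs
  | succ n ih => exact step_pos (hα n) ih

lemma St_sol {α : ℕ → ℝ} (hα : ∀ n, 0 ≤ α n) {s : ℝ × ℝ} (hs : P s) :
    Sol α (fun n => (St α s n).1) :=
  ⟨fun n => (St_pos hα hs n).1, fun _ => rfl⟩

lemma St_run (α : ℕ → ℝ) (s : ℝ × ℝ) (m j : ℕ) :
    St α s (m + j) = run ((List.range j).map (fun i => α (m + i))) (St α s m) := by
  induction j with
  | zero => rfl
  | succ j ih =>
    rw [List.range_succ, List.map_append, run_append, ← ih]
    rfl

lemma coef_nonneg {L : List ℝ} (hL : ∀ c ∈ L, 0 ≤ c) (n : ℕ) : 0 ≤ coef L 0 n := by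
  unfold coef
  rcases Nat.lt_or_ge (n % L.length) L.length with h | h
  · rw [List.getD_eq_getElem _ _ h]
    exact hL _ (List.getElem_mem h)
  · rw [List.getD_eq_default _ _ h]

lemma coef_word (L : List ℝ) (k : ℕ) :
    (List.range L.length).map (fun i => coef L 0 (L.length * k + i)) = L := by
  apply List.ext_getElem
  · simp
  · intro i h1 h2
    simp only [List.getElem_map, List.getElem_range]
    unfold coef
    rw [Nat.mul_add_mod, Nat.mod_eq_of_lt h2, List.getD_eq_getElem _ _ h2]

lemma St_iter (L : List ℝ) (s : ℝ × ℝ) (k : ℕ) :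
    St (coef L 0) s (L.length * k) = (run L)^[k] s := by
  induction k with
  | zero => rfl
  | succ k ih =>
    rw [Nat.mul_succ, St_run, coef_word, ih, Function.iterate_succ_apply']

lemma coef_period {β : Type*} (L : List β) (d : β) (n : ℕ) :
    coef L d (n + L.length) = coef L d n := by
  unfold coef
  rw [Nat.add_mod_right]

/-- the criterion for a period to be bad -/
lemma bad_of {L : List ℝ} (hL : ∀ c ∈ L, 0 ≤ c)
    (hleast : ∀ q, 0 < q → (∀ n, coef L 0 (n + q) = coef L 0 n) → L.length ≤ q) {s : ℝ × ℝ}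
    (hs : P s) (hun : ∀ B : ℝ, ∃ k : ℕ, B < ((run L)^[k] s).1 ∨ B < ((run L)^[k] s).2) :
    Bad L.length := by
  refine ⟨coef L 0, coef_nonneg hL, ⟨coef_period L 0, hleast⟩, fun n => (St (coef L 0) s n).1,
    St_sol (coef_nonneg hL) hs, ?_⟩
  rintro ⟨B, hB⟩
  obtain ⟨k, hk⟩ := hun B
  rw [← St_iter] at hk
  rcases hk with hk | hk
  · exact absurd (hB ⟨L.length * k, rfl⟩) (not_le.2 hk)
  · have : (St (coef L 0) s (L.length * k + 1)).1 ≤ B := hB ⟨L.length * k + 1, rfl⟩
    exact absurd this (not_le.2 hk)

/-- a letter which occurs only once gives the least period -/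
lemma least_unique {L : List ℝ} {i : ℕ} (hi : i < L.length)
    (hu : ∀ j, j < L.length → L.getD j 0 = L.getD i 0 → j = i) :
    ∀ q, 0 < q → (∀ n, coef L 0 (n + q) = coef L 0 n) → L.length ≤ q := by
  intro q hq h
  have hp : 0 < L.length := lt_of_le_of_lt (Nat.zero_le _) hi
  have h1 := h i
  unfold coef at h1
  rw [Nat.mod_eq_of_lt hi] at h1
  have h2 := hu _ (Nat.mod_lt _ hp) h1
  have h3 : (i + q) % L.length = (i + 0) % L.length := by
    rw [h2, add_zero, Nat.mod_eq_of_lt hi]
  have h4 : q % L.length = 0 % L.length := Nat.ModEq.add_left_cancel' i h3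
  rw [Nat.zero_mod] at h4
  exact Nat.le_of_dvd hq (Nat.dvd_of_mod_eq_zero h4)

/-- words of natural numbers whose least period is found by inspection -/
lemma least_nat {L : List ℕ} (hp : 0 < L.length)
    (hu : ∀ r < L.length, 0 < r → ∃ n < L.length, coef L 0 (n + r) ≠ coef L 0 n) :
    ∀ q, 0 < q → (∀ n, coef L 0 (n + q) = coef L 0 n) → L.length ≤ q := by
  intro q hq h
  by_contra hlt
  push Not at hlt
  obtain ⟨n, -, h2⟩ := hu q hlt hq
  exact h2 (h n)

/-! ### identity words with the last letter changed -/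

lemma bad_modified {w : List ℝ} {l : ℝ} (hl0 : 0 ≤ l) (hl2 : l < 2) (hw : ∀ c ∈ w, 0 ≤ c ∧ c < 2)
    (hid : ∀ s, P s → run (w ++ [l]) s = s) : Bad (w.length + 1) := by
  have hlen : (w ++ [(2 : ℝ)]).length = w.length + 1 := by simp
  rw [← hlen]
  have hrun : ∀ u v : ℝ, 0 < u → 0 < v → run (w ++ [2]) (u, v) = (u, (2 + u) / (l + u) * v) := by
    intro u v hu hv
    have hp : P (run w (u, v)) := run_pos (fun c hc => (hw c hc).1) ⟨hu, hv⟩
    have h1 := hid (u, v) ⟨hu, hv⟩
    rw [run_append, run_cons, run_nil] at h1 ⊢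
    set a := (run w (u, v)).1 with ha
    set b := (run w (u, v)).2 with hb
    have h2 : step l (run w (u, v)) = (b, (l + b) / a) := rfl
    have h3 : step 2 (run w (u, v)) = (b, (2 + b) / a) := rfl
    rw [h2] at h1
    rw [h3]
    obtain ⟨h4, h5⟩ := Prod.mk.inj h1
    have ha' : 0 < a := hp.1
    rw [h4] at h5 ⊢
    rw [← h5]
    have : 0 < l + u := by linarith
    congr 1
    field_simp
  refine bad_of (s := (1, 1)) ?_ (least_unique (i := w.length) (by simp) ?_) ⟨one_pos, one_pos⟩ ?_
  · intro c hc
    rcases List.mem_append.1 hc with h | h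
    · exact (hw c h).1
    · rw [List.mem_singleton.1 h]
      norm_num
  · intro j hj h
    rw [List.getD_append_right _ _ _ _ le_rfl, Nat.sub_self] at h
    by_contra hne
    rw [hlen] at hj
    have hj2 : j < w.length := by omega
    rw [List.getD_append _ _ _ _ hj2, List.getD_eq_getElem _ _ hj2] at h
    have := (hw _ (List.getElem_mem hj2)).2
    rw [h] at this
    simp at this
  · have hit : ∀ k : ℕ, (run (w ++ [2]))^[k] ((1 : ℝ), (1 : ℝ)) = (1, ((2 + 1) / (l + 1)) ^ k) := by
      intro k
      induction k with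
      | zero => simp
      | succ k ih =>
        have : 0 < (2 + 1) / (l + 1) := by positivity
        rw [Function.iterate_succ_apply', ih, hrun _ _ one_pos (by positivity), pow_succ]
        congr 1
        ring
    intro B
    have hgt : 1 < (2 + 1) / (l + 1) := by
      rw [one_lt_div (by linarith)]
      linarith
    obtain ⟨k, hk⟩ := pow_unbounded_of_one_lt B hgt
    exact ⟨k, Or.inr (by rw [hit]; exact hk)⟩

/-- all `p = 5 a + 6 b ≥ 1` are bad -/
lemma bad_fivesix (a b : ℕ) (h : 0 < 5 * a + 6 * b) : Bad (5 * a + 6 * b) := by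
  rcases Nat.eq_zero_or_pos b with rfl | hb
  · have h1 := bad_modified (w := List.replicate (5 * a - 1) 1) (l := 1) zero_le_one (by norm_num)
      (fun c hc => by rw [List.eq_of_mem_replicate hc]; norm_num) (fun s hs => by
        have h2 : List.replicate (5 * a - 1) (1 : ℝ) ++ [1] = List.replicate (5 * a) 1 := by
          rw [← List.replicate_succ', Nat.sub_add_cancel (by omega)]
        rw [h2]
        exact ones hs a)
    rw [List.length_replicate, Nat.sub_add_cancel (by omega)] at h1
    simpa using h1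
  · have h1 := bad_modified (w := List.replicate (5 * a) 1 ++ List.replicate (6 * b - 1) 0)
      (l := 0) le_rfl (by norm_num) (fun c hc => by
        rcases List.mem_append.1 hc with h | h
        · rw [List.eq_of_mem_replicate h]; norm_num
        · rw [List.eq_of_mem_replicate h]; norm_num) (fun s hs => by
        have h2 : List.replicate (6 * b - 1) (0 : ℝ) ++ [0] = List.replicate (6 * b) 0 := by
          rw [← List.replicate_succ', Nat.sub_add_cancel (by omega)]
        rw [List.append_assoc, h2, run_append, ones hs a, zeros hs b])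
    rw [List.length_append, List.length_replicate, List.length_replicate] at h1
    rwa [show 5 * a + (6 * b - 1) + 1 = 5 * a + 6 * b by omega] at h1

/-! ### words `0 0 1` followed by an identity word -/

lemma run001 {x y : ℝ} (hx : 0 < x) (hy : 0 < y) :
    run [0, 0, 1] (x, y) = (1 / x, (x + 1) / y) := by
  simp only [run, List.foldl, step, zero_add]
  ext
  · simp only
    field_simp
  · simp only
    field_simp

/-- the words `0 0 1 1^(5a) 0^(6b)` -/
def word (a b : ℕ) : List ℕ := [0, 0, 1] ++ List.replicate (5 * a) 1 ++ List.replicate (6 * b) 0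

lemma bad_word (a b : ℕ)
    (hu : ∀ r < (word a b).length, 0 < r →
      ∃ n < (word a b).length, coef (word a b) 0 (n + r) ≠ coef (word a b) 0 n) :
    Bad (word a b).length := by
  set L : List ℝ := (word a b).map (fun n : ℕ => (n : ℝ)) with hL
  have hlen : L.length = (word a b).length := by rw [hL, List.length_map]
  have hcoef : ∀ n, coef L 0 n = ((coef (word a b) 0 n : ℕ) : ℝ) := by
    intro n
    unfold coef
    rw [hlen, hL]
    rw [← Nat.cast_zero, List.getD_map]
  have hpos : 0 < (word a b).length := by simp [word]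
  have hrun : ∀ s, P s → run L s = run [0, 0, 1] s := by
    intro s hs
    have : L = [0, 0, 1] ++ List.replicate (5 * a) 1 ++ List.replicate (6 * b) 0 := by
      rw [hL]
      simp [word]
    rw [this, run_append, run_append]
    have h1 : P (run [0, 0, 1] s) := run_pos (by simp) hs
    rw [ones h1, zeros h1]
  rw [← hlen]
  refine bad_of (s := (1 / 2, 1)) ?_ ?_ ⟨by norm_num, by norm_num⟩ ?_
  · intro c hc
    rw [hL] at hc
    obtain ⟨m, -, rfl⟩ := List.mem_map.1 hc
    positivity
  · intro q hq h
    rw [hlen]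
    refine least_nat hpos hu q hq (fun n => ?_)
    have := h n
    rw [hcoef, hcoef] at this
    exact_mod_cast this
  · have hit : ∀ k : ℕ, (run L)^[2 * k] ((1 / 2 : ℝ), (1 : ℝ)) = (1 / 2, 2 ^ k) := by
      intro k
      induction k with
      | zero => simp
      | succ k ih =>
        have hk : (0 : ℝ) < 2 ^ k := by positivity
        rw [show 2 * (k + 1) = (2 * k + 1) + 1 by ring, Function.iterate_succ_apply',
          Function.iterate_succ_apply', ih, hrun (1 / 2, 2 ^ k) ⟨by norm_num, hk⟩,
          run001 (by norm_num) hk, hrun _ ⟨by norm_num, by positivity⟩,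
          run001 (by norm_num) (by positivity)]
        ext
        · norm_num
        · simp only
          field_simp
          ring
    intro B
    obtain ⟨k, hk⟩ := pow_unbounded_of_one_lt B (by norm_num : (1 : ℝ) < 2)
    exact ⟨2 * k, Or.inr (by rw [hit]; exact hk)⟩

lemma bad3 : Bad 3 := bad_word 0 0 (by decide)
lemma bad8 : Bad 8 := bad_word 1 0 (by decide)
lemma bad9 : Bad 9 := bad_word 0 1 (by decide)
lemma bad13 : Bad 13 := bad_word 2 0 (by decide)
lemma bad14 : Bad 14 := bad_word 1 1 (by decide)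
lemma bad19 : Bad 19 := bad_word 2 1 (by decide)

end Q65.Lyness
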