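import Pool.Agent.Q65.Lyness

/-!
Helper for MP_e65cda_an, second part: the periods `4` and `7`, and the conclusion.
-/

set_option autoImplicit false

namespace Q65.Lyness

/-- the dominant term of a sum of exponentials -/
lemma logsum {u v T e : ℝ} (h : v ≤ u - T) (he : Real.exp (-T) ≤ e) :
    u ≤ Real.log (Real.exp u + Real.exp v) ∧ Real.log (Real.exp u + Real.exp v) ≤ u + e := by
  have h1 : Real.exp u + Real.exp v = Real.exp u * (1 + Real.exp (v - u)) := by
    rw [mul_add, mul_one, ← Real.exp_add]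
    congr 2
    ring
  have h2 : 0 < Real.exp (v - u) := Real.exp_pos _
  rw [h1, Real.log_mul (Real.exp_pos _).ne' (by positivity), Real.log_exp]
  have h3 : 0 ≤ Real.log (1 + Real.exp (v - u)) := Real.log_nonneg (by linarith)
  have h4 : Real.log (1 + Real.exp (v - u)) ≤ Real.exp (v - u) := by
    have := Real.log_le_sub_one_of_pos (x := 1 + Real.exp (v - u)) (by positivity)
    linarith
  have h5 : Real.exp (v - u) ≤ Real.exp (-T) := Real.exp_le_exp.2 (by linarith)
  constructor <;> linarith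

lemma stepL {u v T e s t : ℝ} (r : s = Real.log (Real.exp u + Real.exp v) - t)
    (he : Real.exp (-T) ≤ e) (h : v ≤ u - T) : u - t ≤ s ∧ s ≤ u - t + e := by
  have := logsum h he
  constructor <;> linarith [this.1, this.2]

lemma stepR {u v T e s t : ℝ} (r : s = Real.log (Real.exp u + Real.exp v) - t)
    (he : Real.exp (-T) ≤ e) (h : u ≤ v - T) : v - t ≤ s ∧ s ≤ v - t + e :=
  stepL (by rw [r, add_comm]) he h

lemma exp7 : Real.exp (-7) ≤ 1 / 1000 := by
  rw [Real.exp_neg, inv_eq_one_div]
  apply div_le_div_of_nonneg_left zero_le_one (by norm_num)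
  have h1 := Real.exp_one_gt_d9
  have h2 : Real.exp 7 = Real.exp 1 ^ 7 := by
    rw [← Real.exp_nat_mul]
    norm_num
  rw [h2]
  calc (1000 : ℝ) ≤ (27 / 10) ^ 7 := by norm_num
    _ ≤ Real.exp 1 ^ 7 := pow_le_pow_left₀ (by norm_num) (by linarith) 7

set_option maxHeartbeats 4000000 in
lemma four {y : ℕ → ℝ} {n : ℕ}
    (r2 : y (n + 2) = y (n + 1) - y (n + 0))
    (r3 : y (n + 3) = Real.log (Real.exp 1 + Real.exp (y (n + 2))) - y (n + 1))
    (r4 : y (n + 4) = y (n + 3) - y (n + 2))
    (r5 : y (n + 5) = Real.log (Real.exp (-1) + Real.exp (y (n + 4))) - y (n + 3))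
    (r6 : y (n + 6) = y (n + 5) - y (n + 4))
    (r7 : y (n + 7) = Real.log (Real.exp 1 + Real.exp (y (n + 6))) - y (n + 5))
    (r8 : y (n + 8) = y (n + 7) - y (n + 6))
    (r9 : y (n + 9) = Real.log (Real.exp (-1) + Real.exp (y (n + 8))) - y (n + 7))
    (r10 : y (n + 10) = y (n + 9) - y (n + 8))
    (r11 : y (n + 11) = Real.log (Real.exp 1 + Real.exp (y (n + 10))) - y (n + 9))
    (r12 : y (n + 12) = y (n + 11) - y (n + 10))
    (r13 : y (n + 13) = Real.log (Real.exp (-1) + Real.exp (y (n + 12))) - y (n + 11))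
    (r14 : y (n + 14) = y (n + 13) - y (n + 12))
    (r15 : y (n + 15) = Real.log (Real.exp 1 + Real.exp (y (n + 14))) - y (n + 13))
    (r16 : y (n + 16) = y (n + 15) - y (n + 14))
    (r17 : y (n + 17) = Real.log (Real.exp (-1) + Real.exp (y (n + 16))) - y (n + 15))
    (h0 : 20 ≤ y (n + 0)) (h1 : 20 ≤ y (n + 1) - y (n + 0)) :
    y (n + 0) + 1 / 2 ≤ y (n + 16) ∧ y (n + 1) - y (n + 0) + 1 / 2 ≤ y (n + 17) - y (n + 16) := by
  have he := exp7
  obtain ⟨a3, b3⟩ := stepR r3 he (by linarith)
  obtain ⟨a5, b5⟩ := stepL r5 he (by linarith)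
  obtain ⟨a7, b7⟩ := stepR r7 he (by linarith)
  obtain ⟨a9, b9⟩ := stepL r9 he (by linarith)
  obtain ⟨a11, b11⟩ := stepL r11 he (by linarith)
  obtain ⟨a13, b13⟩ := stepR r13 he (by linarith)
  obtain ⟨a15, b15⟩ := stepL r15 he (by linarith)
  obtain ⟨a17, b17⟩ := stepR r17 he (by linarith)
  constructor <;> linarith

set_option maxHeartbeats 4000000 in
lemma seven {y : ℕ → ℝ} {n : ℕ}
    (r2 : y (n + 2) = y (n + 1) - y (n + 0))
    (r3 : y (n + 3) = Real.log (Real.exp 0 + Real.exp (y (n + 2))) - y (n + 1))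
    (r4 : y (n + 4) = y (n + 3) - y (n + 2))
    (r5 : y (n + 5) = Real.log (Real.exp 0 + Real.exp (y (n + 4))) - y (n + 3))
    (r6 : y (n + 6) = y (n + 5) - y (n + 4))
    (r7 : y (n + 7) = Real.log (Real.exp 0 + Real.exp (y (n + 6))) - y (n + 5))
    (r8 : y (n + 8) = Real.log (Real.exp 0 + Real.exp (y (n + 7))) - y (n + 6))
    (r9 : y (n + 9) = y (n + 8) - y (n + 7))
    (r10 : y (n + 10) = Real.log (Real.exp 0 + Real.exp (y (n + 9))) - y (n + 8))
    (r11 : y (n + 11) = y (n + 10) - y (n + 9))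
    (r12 : y (n + 12) = Real.log (Real.exp 0 + Real.exp (y (n + 11))) - y (n + 10))
    (r13 : y (n + 13) = y (n + 12) - y (n + 11))
    (r14 : y (n + 14) = Real.log (Real.exp 0 + Real.exp (y (n + 13))) - y (n + 12))
    (r15 : y (n + 15) = Real.log (Real.exp 0 + Real.exp (y (n + 14))) - y (n + 13))
    (r16 : y (n + 16) = y (n + 15) - y (n + 14))
    (r17 : y (n + 17) = Real.log (Real.exp 0 + Real.exp (y (n + 16))) - y (n + 15))
    (r18 : y (n + 18) = y (n + 17) - y (n + 16))
    (r19 : y (n + 19) = Real.log (Real.exp 0 + Real.exp (y (n + 18))) - y (n + 17))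
    (r20 : y (n + 20) = y (n + 19) - y (n + 18))
    (r21 : y (n + 21) = Real.log (Real.exp 0 + Real.exp (y (n + 20))) - y (n + 19))
    (r22 : y (n + 22) = Real.log (Real.exp 0 + Real.exp (y (n + 21))) - y (n + 20))
    (h0 : 20 ≤ y (n + 0)) (h1 : 20 ≤ y (n + 1) - y (n + 0)) :
    y (n + 0) + 1 ≤ y (n + 21) ∧ y (n + 1) - y (n + 0) + 1 ≤ y (n + 22) - y (n + 21) := by
  have he := exp7
  obtain ⟨a3, b3⟩ := stepR r3 he (by linarith)
  obtain ⟨a5, b5⟩ := stepL r5 he (by linarith)
  obtain ⟨a7, b7⟩ := stepR r7 he (by linarith)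
  obtain ⟨a8, b8⟩ := stepR r8 he (by linarith)
  obtain ⟨a10, b10⟩ := stepL r10 he (by linarith)
  obtain ⟨a12, b12⟩ := stepR r12 he (by linarith)
  obtain ⟨a14, b14⟩ := stepL r14 he (by linarith)
  obtain ⟨a15, b15⟩ := stepL r15 he (by linarith)
  obtain ⟨a17, b17⟩ := stepR r17 he (by linarith)
  obtain ⟨a19, b19⟩ := stepL r19 he (by linarith)
  obtain ⟨a21, b21⟩ := stepL r21 he (by linarith)
  obtain ⟨a22, b22⟩ := stepR r22 he (by linarith)
  constructor <;> linarith

lemma log_step {α x : ℕ → ℝ} (hx : Sol α x) (n : ℕ) :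
    Real.log (x (n + 2)) = Real.log (α n + Real.exp (Real.log (x (n + 1)))) - Real.log (x n) := by
  by_cases h : α n + x (n + 1) = 0
  · exfalso
    have h1 := hx.1 (n + 2)
    rw [hx.2 n, h, zero_div] at h1
    exact lt_irrefl _ h1
  · rw [Real.exp_log (hx.1 (n + 1)), hx.2 n, Real.log_div h (hx.1 n).ne']

lemma log_step0 {α x : ℕ → ℝ} (hx : Sol α x) {n : ℕ} (h : α n = 0) :
    Real.log (x (n + 2)) = Real.log (x (n + 1)) - Real.log (x n) := by
  rw [log_step hx, h, zero_add, Real.log_exp]

lemma unbdd_of_growth {x : ℕ → ℝ} (hx : ∀ n, 0 < x n) {g : ℕ → ℕ}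
    (h : ∀ k : ℕ, (k : ℝ) / 2 ≤ Real.log (x (g k))) : ¬ BddAbove (Set.range x) := by
  rintro ⟨B, hB⟩
  obtain ⟨k, hk⟩ := exists_nat_gt (2 * Real.log (max B 1))
  have h1 := h k
  have h2 : Real.log (x (g k)) ≤ Real.log (max B 1) :=
    Real.log_le_log (hx _) ((hB ⟨_, rfl⟩).trans (le_max_left _ _))
  linarith

lemma bad4 : Bad 4 := by
  set L : List ℝ := [0, Real.exp 1, 0, Real.exp (-1)] with hL
  have hL0 : ∀ c ∈ L, 0 ≤ c := by
    intro c hc
    simp only [hL, List.mem_cons, List.not_mem_nil, or_false] at hc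
    rcases hc with rfl | rfl | rfl | rfl
    · exact le_rfl
    · positivity
    · exact le_rfl
    · positivity
  have hs : P (Real.exp 20, Real.exp 40) := ⟨Real.exp_pos _, Real.exp_pos _⟩
  have hsol := St_sol (coef_nonneg hL0) hs
  refine ⟨coef L 0, coef_nonneg hL0, ⟨coef_period L 0, ?_⟩, _, hsol, ?_⟩
  · refine least_unique (L := L) (i := 1) (by simp [hL]) ?_
    intro j hj h
    have hj' : j < 4 := hj
    interval_cases j
    · simp [hL] at h
      exact absurd h.symm (Real.exp_pos 1).ne'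
    · rfl
    · simp [hL] at h
      exact absurd h.symm (Real.exp_pos 1).ne'
    · simp [hL] at h
      norm_num at h
  set x : ℕ → ℝ := fun n => (St (coef L 0) (Real.exp 20, Real.exp 40) n).1 with hx
  have c0 : ∀ n, n % 4 = 0 → coef L 0 n = 0 := by
    intro n hn
    show L.getD (n % 4) 0 = 0
    rw [hn]; rfl
  have c1 : ∀ n, n % 4 = 1 → coef L 0 n = Real.exp 1 := by
    intro n hn
    show L.getD (n % 4) 0 = _
    rw [hn]; rfl
  have c2 : ∀ n, n % 4 = 2 → coef L 0 n = 0 := by
    intro n hn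
    show L.getD (n % 4) 0 = 0
    rw [hn]; rfl
  have c3 : ∀ n, n % 4 = 3 → coef L 0 n = Real.exp (-1) := by
    intro n hn
    show L.getD (n % 4) 0 = _
    rw [hn]; rfl
  have s0 : ∀ n, n % 4 = 0 → Real.log (x (n + 2)) = Real.log (x (n + 1)) - Real.log (x n) :=
    fun n hn => log_step0 hsol (c0 n hn)
  have s1 : ∀ n, n % 4 = 1 → Real.log (x (n + 2)) =
      Real.log (Real.exp 1 + Real.exp (Real.log (x (n + 1)))) - Real.log (x n) :=
    fun n hn => by rw [log_step hsol, c1 n hn]
  have s2 : ∀ n, n % 4 = 2 → Real.log (x (n + 2)) = Real.log (x (n + 1)) - Real.log (x n) :=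
    fun n hn => log_step0 hsol (c2 n hn)
  have s3 : ∀ n, n % 4 = 3 → Real.log (x (n + 2)) =
      Real.log (Real.exp (-1) + Real.exp (Real.log (x (n + 1)))) - Real.log (x n) :=
    fun n hn => by rw [log_step hsol, c3 n hn]
  have key : ∀ k : ℕ, 20 + (k : ℝ) / 2 ≤ Real.log (x (16 * k)) ∧
      20 + (k : ℝ) / 2 ≤ Real.log (x (16 * k + 1)) - Real.log (x (16 * k)) := by
    intro k
    induction k with
    | zero =>
      simp only [mul_zero, CharP.cast_eq_zero, zero_div, add_zero]
      have e0 : x 0 = Real.exp 20 := rfl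
      have e1 : x (0 + 1) = Real.exp 40 := rfl
      rw [e1, e0, Real.log_exp, Real.log_exp]
      norm_num
    | succ k ih =>
      have h := four (y := fun n => Real.log (x n)) (n := 16 * k)
        (s0 (16 * k) (by omega)) (s1 (16 * k + 1) (by omega)) (s2 (16 * k + 2) (by omega))
        (s3 (16 * k + 3) (by omega)) (s0 (16 * k + 4) (by omega)) (s1 (16 * k + 5) (by omega))
        (s2 (16 * k + 6) (by omega)) (s3 (16 * k + 7) (by omega)) (s0 (16 * k + 8) (by omega))
        (s1 (16 * k + 9) (by omega)) (s2 (16 * k + 10) (by omega)) (s3 (16 * k + 11) (by omega))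
        (s0 (16 * k + 12) (by omega)) (s1 (16 * k + 13) (by omega)) (s2 (16 * k + 14) (by omega))
        (s3 (16 * k + 15) (by omega))
        (by
          have : (0 : ℝ) ≤ (k : ℝ) / 2 := by positivity
          have := ih.1
          simp only [add_zero]
          linarith)
        (by
          have : (0 : ℝ) ≤ (k : ℝ) / 2 := by positivity
          have := ih.2
          simp only [add_zero]
          linarith)
      simp only [add_zero] at h
      rw [show 16 * (k + 1) = 16 * k + 16 by ring]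
      rw [show 16 * k + 16 + 1 = 16 * k + 17 by ring]
      push_cast
      constructor
      · linarith [h.1, ih.1]
      · linarith [h.2, ih.2]
  exact unbdd_of_growth hsol.1 (g := fun k => 16 * k) (fun k => by
    have := (key k).1
    linarith)

lemma bad7 : Bad 7 := by
  set L : List ℕ := [0, 1, 0, 1, 0, 1, 1] with hL
  set α : ℕ → ℝ := fun n => ((coef L 0 n : ℕ) : ℝ) with hα
  have hα0 : ∀ n, 0 ≤ α n := fun n => Nat.cast_nonneg _
  have hs : P (Real.exp 20, Real.exp 40) := ⟨Real.exp_pos _, Real.exp_pos _⟩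
  have hsol := St_sol hα0 hs
  refine ⟨α, hα0, ⟨fun n => ?_, fun q hq h => ?_⟩, _, hsol, ?_⟩
  · simp only [hα]
    exact congrArg _ (coef_period L 0 n)
  · refine least_nat (L := L) (by decide) (by decide) q hq (fun n => ?_)
    have := h n
    simp only [hα] at this
    exact_mod_cast this
  set x : ℕ → ℝ := fun n => (St α (Real.exp 20, Real.exp 40) n).1 with hx
  have z : ∀ n, coef L 0 n = 0 →
      Real.log (x (n + 2)) = Real.log (x (n + 1)) - Real.log (x n) := by
    intro n hn
    exact log_step0 hsol (by simp only [hα, hn, Nat.cast_zero])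
  have o : ∀ n, coef L 0 n = 1 → Real.log (x (n + 2)) =
      Real.log (Real.exp 0 + Real.exp (Real.log (x (n + 1)))) - Real.log (x n) := by
    intro n hn
    rw [log_step hsol, Real.exp_zero]
    simp only [hα, hn, Nat.cast_one]
  have cc : ∀ k j v : ℕ, coef [0, 1, 0, 1, 0, 1, 1] 0 j = v → coef L 0 (21 * k + j) = v := by
    intro k j v hv
    rw [← hv]
    unfold coef
    have : (21 * k + j) % L.length = j % L.length := by
      show (21 * k + j) % 7 = j % 7
      omega
    rw [this]
  have key : ∀ k : ℕ, 20 + (k : ℝ) / 2 ≤ Real.log (x (21 * k)) ∧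
      20 + (k : ℝ) / 2 ≤ Real.log (x (21 * k + 1)) - Real.log (x (21 * k)) := by
    intro k
    induction k with
    | zero =>
      simp only [mul_zero, CharP.cast_eq_zero, zero_div, add_zero]
      have e0 : x 0 = Real.exp 20 := rfl
      have e1 : x (0 + 1) = Real.exp 40 := rfl
      rw [e1, e0, Real.log_exp, Real.log_exp]
      norm_num
    | succ k ih =>
      have h := seven (y := fun n => Real.log (x n)) (n := 21 * k)
        (z (21 * k) (cc k 0 _ (by decide))) (o (21 * k + 1) (cc k 1 _ (by decide))) (z (21 * k + 2) (cc k 2 _ (by decide)))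
        (o (21 * k + 3) (cc k 3 _ (by decide))) (z (21 * k + 4) (cc k 4 _ (by decide))) (o (21 * k + 5) (cc k 5 _ (by decide)))
        (o (21 * k + 6) (cc k 6 _ (by decide))) (z (21 * k + 7) (cc k 7 _ (by decide))) (o (21 * k + 8) (cc k 8 _ (by decide)))
        (z (21 * k + 9) (cc k 9 _ (by decide))) (o (21 * k + 10) (cc k 10 _ (by decide))) (z (21 * k + 11) (cc k 11 _ (by decide)))
        (o (21 * k + 12) (cc k 12 _ (by decide))) (o (21 * k + 13) (cc k 13 _ (by decide))) (z (21 * k + 14) (cc k 14 _ (by decide)))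
        (o (21 * k + 15) (cc k 15 _ (by decide))) (z (21 * k + 16) (cc k 16 _ (by decide))) (o (21 * k + 17) (cc k 17 _ (by decide)))
        (z (21 * k + 18) (cc k 18 _ (by decide))) (o (21 * k + 19) (cc k 19 _ (by decide))) (o (21 * k + 20) (cc k 20 _ (by decide)))
        (by
          have : (0 : ℝ) ≤ (k : ℝ) / 2 := by positivity
          have := ih.1
          simp only [add_zero]
          linarith)
        (by
          have : (0 : ℝ) ≤ (k : ℝ) / 2 := by positivity
          have := ih.2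
          simp only [add_zero]
          linarith)
      simp only [add_zero] at h
      rw [show 21 * (k + 1) = 21 * k + 21 by ring]
      rw [show 21 * k + 21 + 1 = 21 * k + 22 by ring]
      push_cast
      constructor
      · linarith [h.1, ih.1]
      · linarith [h.2, ih.2]
  exact unbdd_of_growth hsol.1 (g := fun k => 21 * k) (fun k => by
    have := (key k).1
    linarith)

/-- all periods from three on are bad -/
theorem bad_all {p : ℕ} (hp : 3 ≤ p) : Bad p := by
  by_cases h24 : 24 ≤ p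
  · have h1 : p = 5 * ((p - 6 * (p % 5)) / 5) + 6 * (p % 5) := by omega
    rw [h1]
    exact bad_fivesix _ _ (by omega)
  · push Not at h24
    interval_cases p
    · exact bad3
    · exact bad4
    · exact bad_fivesix 1 0 (by norm_num)
    · exact bad_fivesix 0 1 (by norm_num)
    · exact bad7
    · exact bad8
    · exact bad9
    · exact bad_fivesix 2 0 (by norm_num)
    · exact bad_fivesix 1 1 (by norm_num)
    · exact bad_fivesix 0 2 (by norm_num)
    · exact bad13
    · exact bad14
    · exact bad_fivesix 3 0 (by norm_num)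
    · exact bad_fivesix 2 1 (by norm_num)
    · exact bad_fivesix 1 2 (by norm_num)
    · exact bad_fivesix 0 3 (by norm_num)
    · exact bad19
    · exact bad_fivesix 4 0 (by norm_num)
    · exact bad_fivesix 3 1 (by norm_num)
    · exact bad_fivesix 2 2 (by norm_num)
    · exact bad_fivesix 1 3 (by norm_num)

end Q65.Lyness
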