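import Mathlib

/-! Sections of lists of steps and piecewise linear interpolation. -/

set_option autoImplicit false

open Set

namespace Q65.PMC

variable {α : Type*}

/-- `l` splits into at most `k` consecutive blocks on each of which `f` has constant sign -/
inductive Sec (f : α → ℤ) : ℕ → List α → Prop
  | nil (k : ℕ) : Sec f k []
  | pos (k : ℕ) (S l : List α) (hS : ∀ x ∈ S, 0 ≤ f x) (hl : Sec f k l) : Sec f (k+1) (S ++ l)
  | neg (k : ℕ) (S l : List α) (hS : ∀ x ∈ S, f x ≤ 0) (hl : Sec f k l) : Sec f (k+1) (S ++ l)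

lemma Sec.zero {f : α → ℤ} {l : List α} (h : Sec f 0 l) : l = [] := by
  cases h; rfl

lemma Sec.mono {f : α → ℤ} {k : ℕ} {l : List α} (h : Sec f k l) :
    ∀ {k' : ℕ}, k ≤ k' → Sec f k' l := by
  induction h with
  | nil k => intro k' _; exact Sec.nil k'
  | pos k S l hS hl ih =>
    intro k' hk
    obtain ⟨m, rfl⟩ : ∃ m, k' = m + 1 := ⟨k' - 1, by omega⟩
    exact Sec.pos m S l hS (ih (by omega))
  | neg k S l hS hl ih =>
    intro k' hk
    obtain ⟨m, rfl⟩ : ∃ m, k' = m + 1 := ⟨k' - 1, by omega⟩
    exact Sec.neg m S l hS (ih (by omega))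

lemma Sec.ins2 {f : α → ℤ} {k : ℕ} {l : List α} (h : Sec f k l) (hk : 1 ≤ k) :
    ∀ l1 l2 : List α, l = l1 ++ l2 → ∃ σ : ℤ, (σ = 1 ∨ σ = -1) ∧
      ∀ X1 X2 X3 : List α, (∀ x ∈ X1, 0 ≤ σ * f x) → (∀ x ∈ X2, σ * f x ≤ 0) →
        (∀ x ∈ X3, 0 ≤ σ * f x) → Sec f (k+2) (l1 ++ (X1 ++ (X2 ++ (X3 ++ l2)))) := by
  induction h with
  | nil k =>
    intro l1 l2 h12
    have h1 : l1 = [] := by
      have := congrArg List.length h12; simp at this; exact List.eq_nil_of_length_eq_zero (by omega)
    have h2 : l2 = [] := by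
      have := congrArg List.length h12; simp at this; exact List.eq_nil_of_length_eq_zero (by omega)
    subst h1; subst h2
    refine ⟨1, Or.inl rfl, ?_⟩
    intro X1 X2 X3 h1 h2 h3
    simp only [one_mul] at h1 h2 h3
    simp only [List.nil_append]
    refine Sec.mono (k := 3) ?_ (by omega)
    exact Sec.pos 2 X1 _ h1 (Sec.neg 1 X2 _ h2 (Sec.pos 0 X3 _ h3 (Sec.nil 0)))
  | pos k S l hS hl ih =>
    intro l1 l2 h12
    rcases List.append_eq_append_iff.mp h12 with ⟨c, hc1, hc2⟩ | ⟨c, hc1, hc2⟩
    · -- l1 = S ++ c, l = c ++ l2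
      rcases Nat.eq_zero_or_pos k with hk0 | hk0
      · subst hk0
        have hl0 := hl.zero
        rw [hl0] at hc2
        have hc : c = [] ∧ l2 = [] := by simpa using hc2.symm
        refine ⟨1, Or.inl rfl, ?_⟩
        intro X1 X2 X3 h1 h2 h3
        simp only [one_mul] at h1 h2 h3
        rw [hc1, hc.1, hc.2]
        simp only [List.append_nil]
        rw [← List.append_assoc]
        refine Sec.pos 2 (S ++ X1) _ ?_ (Sec.neg 1 X2 _ h2 ?_)
        · intro x hx
          rcases List.mem_append.mp hx with h | h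
          · exact hS x h
          · exact h1 x h
        · have := Sec.pos 0 X3 [] h3 (Sec.nil 0)
          simpa using this
      · obtain ⟨σ, hσ, hX⟩ := ih hk0 c l2 hc2
        refine ⟨σ, hσ, ?_⟩
        intro X1 X2 X3 h1 h2 h3
        rw [hc1, List.append_assoc]
        exact Sec.pos (k+2) S _ hS (hX X1 X2 X3 h1 h2 h3)
    · -- S = l1 ++ c, l2 = c ++ l
      refine ⟨1, Or.inl rfl, ?_⟩
      intro X1 X2 X3 h1 h2 h3
      simp only [one_mul] at h1 h2 h3
      rw [hc2]
      rw [← List.append_assoc, ← List.append_assoc X3]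
      refine Sec.pos (k+2) (l1 ++ X1) _ ?_ (Sec.neg (k+1) X2 _ h2 (Sec.pos k (X3 ++ c) _ ?_ hl))
      · intro x hx
        rcases List.mem_append.mp hx with h | h
        · exact hS x (by rw [hc1]; exact List.mem_append_left _ h)
        · exact h1 x h
      · intro x hx
        rcases List.mem_append.mp hx with h | h
        · exact h3 x h
        · exact hS x (by rw [hc1]; exact List.mem_append_right _ h)
  | neg k S l hS hl ih =>
    intro l1 l2 h12
    rcases List.append_eq_append_iff.mp h12 with ⟨c, hc1, hc2⟩ | ⟨c, hc1, hc2⟩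
    · rcases Nat.eq_zero_or_pos k with hk0 | hk0
      · subst hk0
        have hl0 := hl.zero
        rw [hl0] at hc2
        have hc : c = [] ∧ l2 = [] := by simpa using hc2.symm
        refine ⟨-1, Or.inr rfl, ?_⟩
        intro X1 X2 X3 h1 h2 h3
        rw [hc1, hc.1, hc.2]
        simp only [List.append_nil]
        rw [← List.append_assoc]
        refine Sec.neg 2 (S ++ X1) _ ?_ (Sec.pos 1 X2 _ (fun x hx => by have := h2 x hx; linarith) ?_)
        · intro x hx
          rcases List.mem_append.mp hx with h | h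
          · exact hS x h
          · have := h1 x h; linarith
        · have := Sec.neg 0 X3 [] (fun x hx => by have := h3 x hx; linarith) (Sec.nil 0)
          simpa using this
      · obtain ⟨σ, hσ, hX⟩ := ih hk0 c l2 hc2
        refine ⟨σ, hσ, ?_⟩
        intro X1 X2 X3 h1 h2 h3
        rw [hc1, List.append_assoc]
        exact Sec.neg (k+2) S _ hS (hX X1 X2 X3 h1 h2 h3)
    · refine ⟨-1, Or.inr rfl, ?_⟩
      intro X1 X2 X3 h1 h2 h3
      rw [hc2]
      rw [← List.append_assoc, ← List.append_assoc X3]
      refine Sec.neg (k+2) (l1 ++ X1) _ ?_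
        (Sec.pos (k+1) X2 _ (fun x hx => by have := h2 x hx; linarith) (Sec.neg k (X3 ++ c) _ ?_ hl))
      · intro x hx
        rcases List.mem_append.mp hx with h | h
        · exact hS x (by rw [hc1]; exact List.mem_append_left _ h)
        · have := h1 x h; linarith
      · intro x hx
        rcases List.mem_append.mp hx with h | h
        · have := h3 x h; linarith
        · exact hS x (by rw [hc1]; exact List.mem_append_right _ h)

lemma Sec.ins0 {f : α → ℤ} {k : ℕ} {l : List α} (h : Sec f k l) (hk : 1 ≤ k) (X : List α)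
    (hX : ∀ x ∈ X, f x = 0) :
    ∀ l1 l2 : List α, l = l1 ++ l2 → Sec f k (l1 ++ (X ++ l2)) := by
  induction h with
  | nil k =>
    intro l1 l2 h12
    have h1 : l1 = [] := by
      have := congrArg List.length h12; simp at this; exact List.eq_nil_of_length_eq_zero (by omega)
    have h2 : l2 = [] := by
      have := congrArg List.length h12; simp at this; exact List.eq_nil_of_length_eq_zero (by omega)
    subst h1; subst h2
    obtain ⟨m, rfl⟩ : ∃ m, k = m + 1 := ⟨k - 1, by omega⟩
    simp only [List.nil_append]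
    exact Sec.pos m X [] (fun x hx => (hX x hx).ge) (Sec.nil m)
  | pos k S l hS hl ih =>
    intro l1 l2 h12
    rcases List.append_eq_append_iff.mp h12 with ⟨c, hc1, hc2⟩ | ⟨c, hc1, hc2⟩
    · rcases Nat.eq_zero_or_pos k with hk0 | hk0
      · subst hk0
        have hl0 := hl.zero
        rw [hl0] at hc2
        have hc : c = [] ∧ l2 = [] := by simpa using hc2.symm
        rw [hc1, hc.1, hc.2]
        simp only [List.append_nil]
        have := Sec.pos 0 (S ++ X) [] ?_ (Sec.nil (f := f) 0)
        · simpa using this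
        · intro x hx
          rcases List.mem_append.mp hx with h | h
          · exact hS x h
          · exact (hX x h).ge
      · rw [hc1, List.append_assoc]
        exact Sec.pos k S _ hS (ih hk0 c l2 hc2)
    · rw [hc2, ← List.append_assoc, ← List.append_assoc, List.append_assoc l1]
      refine Sec.pos k (l1 ++ (X ++ c)) _ ?_ hl
      intro x hx
      rcases List.mem_append.mp hx with h | h
      · exact hS x (by rw [hc1]; exact List.mem_append_left _ h)
      · rcases List.mem_append.mp h with h | h
        · exact (hX x h).ge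
        · exact hS x (by rw [hc1]; exact List.mem_append_right _ h)
  | neg k S l hS hl ih =>
    intro l1 l2 h12
    rcases List.append_eq_append_iff.mp h12 with ⟨c, hc1, hc2⟩ | ⟨c, hc1, hc2⟩
    · rcases Nat.eq_zero_or_pos k with hk0 | hk0
      · subst hk0
        have hl0 := hl.zero
        rw [hl0] at hc2
        have hc : c = [] ∧ l2 = [] := by simpa using hc2.symm
        rw [hc1, hc.1, hc.2]
        simp only [List.append_nil]
        have := Sec.neg 0 (S ++ X) [] ?_ (Sec.nil (f := f) 0)
        · simpa using this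
        · intro x hx
          rcases List.mem_append.mp hx with h | h
          · exact hS x h
          · exact (hX x h).le
      · rw [hc1, List.append_assoc]
        exact Sec.neg k S _ hS (ih hk0 c l2 hc2)
    · rw [hc2, ← List.append_assoc, ← List.append_assoc, List.append_assoc l1]
      refine Sec.neg k (l1 ++ (X ++ c)) _ ?_ hl
      intro x hx
      rcases List.mem_append.mp hx with h | h
      · exact hS x (by rw [hc1]; exact List.mem_append_left _ h)
      · rcases List.mem_append.mp h with h | h
        · exact (hX x h).le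
        · exact hS x (by rw [hc1]; exact List.mem_append_right _ h)

/-! ### piecewise linear interpolation -/

/-- piecewise linear interpolation of the partial sums of a list -/
noncomputable def G : List ℝ → ℝ → ℝ
  | [], _ => 0
  | (a :: l), t => a * max 0 (min t 1) + G l (t - 1)

lemma G_cont (l : List ℝ) : Continuous (G l) := by
  induction l with
  | nil => exact continuous_const
  | cons a l ih =>
    show Continuous (fun t => a * max 0 (min t 1) + G l (t - 1))
    have := ih.comp (continuous_id.sub (continuous_const (y := (1:ℝ))))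
    refine Continuous.add (by fun_prop) ?_
    exact this

lemma G_nonpos (l : List ℝ) {t : ℝ} (ht : t ≤ 0) : G l t = 0 := by
  induction l generalizing t with
  | nil => rfl
  | cons a l ih =>
    show a * max 0 (min t 1) + G l (t - 1) = 0
    rw [ih (by linarith), min_eq_left (by linarith), max_eq_left ht]; simp

lemma G_ge (l : List ℝ) {t : ℝ} (ht : (l.length : ℝ) ≤ t) : G l t = l.sum := by
  induction l generalizing t with
  | nil => simp [G]
  | cons a l ih =>
    show a * max 0 (min t 1) + G l (t - 1) = _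
    have h1 : ((l.length : ℝ)) + 1 ≤ t := by simpa using ht
    have h0 : (0:ℝ) ≤ l.length := by positivity
    rw [ih (by linarith), min_eq_right (by linarith), max_eq_right (by norm_num)]
    simp

lemma G_append (l l' : List ℝ) (t : ℝ) : G (l ++ l') t = G l t + G l' (t - l.length) := by
  induction l generalizing t with
  | nil => simp [G]
  | cons a l ih =>
    show a * max 0 (min t 1) + G (l ++ l') (t - 1) = (a * max 0 (min t 1) + G l (t-1)) + _
    rw [ih]
    have : t - 1 - (l.length : ℝ) = t - ((a :: l).length : ℝ) := by simp; ring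
    rw [this]; ring

lemma G_mono (l : List ℝ) (h : ∀ x ∈ l, 0 ≤ x) : Monotone (G l) := by
  induction l with
  | nil => exact monotone_const
  | cons a l ih =>
    intro s t hst
    show a * max 0 (min s 1) + G l (s - 1) ≤ a * max 0 (min t 1) + G l (t - 1)
    have h1 := ih (fun x hx => h x (List.mem_cons_of_mem _ hx)) (show s - 1 ≤ t - 1 by linarith)
    have h2 : max 0 (min s 1) ≤ max 0 (min t 1) := max_le_max le_rfl (min_le_min hst le_rfl)
    have h3 := h a List.mem_cons_self
    nlinarith [mul_le_mul_of_nonneg_left h2 h3]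

lemma G_anti (l : List ℝ) (h : ∀ x ∈ l, x ≤ 0) : Antitone (G l) := by
  induction l with
  | nil => exact antitone_const
  | cons a l ih =>
    intro s t hst
    show a * max 0 (min t 1) + G l (t - 1) ≤ a * max 0 (min s 1) + G l (s - 1)
    have h1 := ih (fun x hx => h x (List.mem_cons_of_mem _ hx)) (show s - 1 ≤ t - 1 by linarith)
    have h2 : max 0 (min s 1) ≤ max 0 (min t 1) := max_le_max le_rfl (min_le_min hst le_rfl)
    have h3 := h a List.mem_cons_self
    nlinarith [mul_le_mul_of_nonpos_left h2 h3]

/-- weak partition into `k` intervals of monotonicity -/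
def PW (Φ : ℝ → ℝ) (k : ℕ) (u v : ℝ) : Prop :=
  ∃ t : ℕ → ℝ, t 0 = u ∧ t k = v ∧ ∀ i < k, t i ≤ t (i+1) ∧
    (MonotoneOn Φ (Icc (t i) (t (i+1))) ∨ AntitoneOn Φ (Icc (t i) (t (i+1))))

/-- strict partition into exactly `k` intervals of monotonicity -/
def PS (Φ : ℝ → ℝ) (k : ℕ) (u v : ℝ) : Prop :=
  ∃ t : ℕ → ℝ, t 0 = u ∧ t k = v ∧ ∀ i < k, t i < t (i+1) ∧
    (MonotoneOn Φ (Icc (t i) (t (i+1))) ∨ AntitoneOn Φ (Icc (t i) (t (i+1))))

lemma PW.cons {Φ : ℝ → ℝ} {k : ℕ} {u w v : ℝ} (huw : u ≤ w)
    (h0 : MonotoneOn Φ (Icc u w) ∨ AntitoneOn Φ (Icc u w)) (h : PW Φ k w v) :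
    PW Φ (k+1) u v := by
  obtain ⟨t, ht0, htk, ht⟩ := h
  refine ⟨fun i => if i = 0 then u else t (i - 1), by simp, by simpa using htk, ?_⟩
  intro i hi
  rcases Nat.eq_zero_or_pos i with h | h
  · subst h
    simp only [if_true, zero_add, one_ne_zero, if_false, Nat.sub_self, ht0]
    exact ⟨huw, h0⟩
  · have h1 : i ≠ 0 := by omega
    have h2 : i + 1 ≠ 0 := by omega
    simp only [h1, h2, if_false]
    have e : i + 1 - 1 = (i - 1) + 1 := by omega
    rw [e]
    exact ht (i-1) (by omega)

lemma Sec.pw {f : α → ℤ} {k : ℕ} {l : List α} (h : Sec f k l) :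
    ∀ (Φ : ℝ → ℝ) (u c : ℝ) (κ : ℝ), 0 ≤ κ →
      (∀ t, u ≤ t → Φ t = c + κ * G (l.map (fun x => (f x : ℝ))) (t - u)) →
      ∃ v, PW Φ k u v ∧ v = u + l.length := by
  induction h with
  | nil k =>
    intro Φ u c κ hκ hΦ
    refine ⟨u, ⟨fun _ => u, rfl, rfl, ?_⟩, by simp⟩
    intro i _
    refine ⟨le_rfl, Or.inl ?_⟩
    rw [Icc_self]
    exact (subsingleton_singleton).monotoneOn _
  | pos k S l hS hl ih =>
    intro Φ u c κ hκ hΦ
    have hlen : (0:ℝ) ≤ S.length := by positivity
    obtain ⟨v, hv, hv'⟩ := ih Φ (u + S.length) (c + κ * (S.map (fun x => (f x : ℝ))).sum) κ hκ (by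
      intro t ht
      rw [hΦ t (by linarith), List.map_append, G_append, List.length_map,
        G_ge _ (by rw [List.length_map]; linarith)]
      have : t - u - (S.length : ℝ) = t - (u + S.length) := by ring
      rw [this]; ring)
    refine ⟨v, PW.cons (by linarith) (Or.inl ?_) hv, by rw [hv']; simp; ring⟩
    intro s hs t ht hst
    rw [hΦ s hs.1, hΦ t ht.1, List.map_append, G_append, G_append, List.length_map,
      G_nonpos _ (by linarith [hs.2] : s - u - (S.length : ℝ) ≤ 0),
      G_nonpos _ (by linarith [ht.2] : t - u - (S.length : ℝ) ≤ 0)]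
    have := G_mono (S.map (fun x => (f x : ℝ))) (by
      intro y hy
      obtain ⟨x, hx, rfl⟩ := List.mem_map.mp hy
      exact_mod_cast hS x hx) (show s - u ≤ t - u by linarith)
    nlinarith [mul_le_mul_of_nonneg_left this hκ]
  | neg k S l hS hl ih =>
    intro Φ u c κ hκ hΦ
    have hlen : (0:ℝ) ≤ S.length := by positivity
    obtain ⟨v, hv, hv'⟩ := ih Φ (u + S.length) (c + κ * (S.map (fun x => (f x : ℝ))).sum) κ hκ (by
      intro t ht
      rw [hΦ t (by linarith), List.map_append, G_append, List.length_map,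
        G_ge _ (by rw [List.length_map]; linarith)]
      have : t - u - (S.length : ℝ) = t - (u + S.length) := by ring
      rw [this]; ring)
    refine ⟨v, PW.cons (by linarith) (Or.inr ?_) hv, by rw [hv']; simp; ring⟩
    intro s hs t ht hst
    rw [hΦ s hs.1, hΦ t ht.1, List.map_append, G_append, G_append, List.length_map,
      G_nonpos _ (by linarith [hs.2] : s - u - (S.length : ℝ) ≤ 0),
      G_nonpos _ (by linarith [ht.2] : t - u - (S.length : ℝ) ≤ 0)]
    have := G_anti (S.map (fun x => (f x : ℝ))) (by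
      intro y hy
      obtain ⟨x, hx, rfl⟩ := List.mem_map.mp hy
      exact_mod_cast hS x hx) (show s - u ≤ t - u by linarith)
    nlinarith [mul_le_mul_of_nonneg_left this hκ]

lemma PW.scale {Φ : ℝ → ℝ} {k : ℕ} {L : ℝ} (hL : 0 < L) (h : PW Φ k 0 L) :
    PW (fun t => Φ (L * t)) k 0 1 := by
  obtain ⟨t, ht0, htk, ht⟩ := h
  refine ⟨fun i => t i / L, by simp [ht0], by simp [htk, hL.ne'], ?_⟩
  intro i hi
  obtain ⟨h1, h2⟩ := ht i hi
  have hm : ∀ x ∈ Icc (t i / L) (t (i+1) / L), L * x ∈ Icc (t i) (t (i+1)) := by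
    intro x hx
    refine ⟨?_, ?_⟩
    · have := hx.1; rw [div_le_iff₀ hL] at this; linarith
    · have := hx.2; rw [le_div_iff₀ hL] at this; linarith
  refine ⟨div_le_div_of_nonneg_right h1 hL.le, ?_⟩
  rcases h2 with h2 | h2
  · left
    intro x hx y hy hxy
    exact h2 (hm x hx) (hm y hy) (mul_le_mul_of_nonneg_left hxy hL.le)
  · right
    intro x hx y hy hxy
    exact h2 (hm x hx) (hm y hy) (mul_le_mul_of_nonneg_left hxy hL.le)

lemma PW.strict {Φ : ℝ → ℝ} {k : ℕ} : ∀ {u v : ℝ}, u < v → PW Φ k u v →
    ∃ k', k' ≤ k ∧ PS Φ k' u v := by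
  induction k with
  | zero =>
    intro u v huv h
    obtain ⟨t, h0, h1, -⟩ := h
    rw [h0] at h1
    exact absurd h1 huv.ne
  | succ k ih =>
    intro u v huv h
    obtain ⟨t, h0, h1, ht⟩ := h
    have hk := ht k (by omega)
    rw [h1] at hk
    have hPWk : PW Φ k u (t k) := ⟨t, h0, rfl, fun i hi => ht i (by omega)⟩
    have hmon : ∀ j, j ≤ k → u ≤ t j := by
      intro j
      induction j with
      | zero => intro _; rw [h0]
      | succ j ihj => intro hj; exact (ihj (by omega)).trans (ht j (by omega)).1
    rcases hk.1.lt_or_eq with hc | hc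
    · rcases (hmon k le_rfl).lt_or_eq with hu | hu
      · obtain ⟨k', hk', t', h0', h1', ht'⟩ := ih hu hPWk
        refine ⟨k'+1, by omega, fun i => if i ≤ k' then t' i else v, by simp [h0'], by simp, ?_⟩
        intro i hi
        rcases Nat.lt_or_ge i k' with hik | hik
        · have e1 : i ≤ k' := hik.le
          have e2 : i + 1 ≤ k' := hik
          simp only [e1, e2, if_true]
          exact ht' i hik
        · have e : i = k' := by omega
          subst e
          simp only [le_refl, if_true, h1', Nat.succ_le_iff, lt_irrefl, if_false]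
          exact ⟨hc, hk.2⟩
      · refine ⟨1, by omega, fun i => if i = 0 then u else v, by simp, by simp, ?_⟩
        intro i hi
        have e : i = 0 := by omega
        subst e
        simp only [if_true, zero_add, one_ne_zero, if_false]
        refine ⟨huv, ?_⟩
        rw [← hu] at hk
        exact hk.2
    · rw [hc] at hPWk
      obtain ⟨k', hk', h'⟩ := ih huv hPWk
      exact ⟨k', by omega, h'⟩

end Q65.PMC
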