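import Pool.Agent.Q65.PMCa

/-! Walks through the cells of a grid, built by sweeping maximal runs. -/

set_option autoImplicit false

open Set

namespace Q65.PMC

abbrev Cell := ℤ × ℤ

/-- validity of a walk -/
def Pth (Ed : Cell → Cell → Prop) : List Cell → Cell → Prop
  | [], _ => True
  | (x :: l), u => Ed u (u + x) ∧ Pth Ed l (u + x)

lemma Pth_append (Ed : Cell → Cell → Prop) (l l' : List Cell) (u : Cell) :
    Pth Ed (l ++ l') u ↔ Pth Ed l u ∧ Pth Ed l' (u + l.sum) := by
  induction l generalizing u with
  | nil => simp [Pth]
  | cons x l ih =>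
    simp only [List.cons_append, Pth, List.sum_cons]
    rw [ih]
    rw [and_assoc, add_assoc]

/-- visited cells -/
def Vis (l : List Cell) (u : Cell) : Set Cell := {w | ∃ l1 l2, l = l1 ++ l2 ∧ w = u + l1.sum}

lemma Vis_self (l : List Cell) (u : Cell) : u ∈ Vis l u := ⟨[], l, rfl, by simp⟩

/-- unit vectors -/
def e : Bool → Cell
  | true => (1, 0)
  | false => (0, 1)

/-- coordinates -/
def f : Bool → Cell → ℤ
  | true => fun x => x.1
  | false => fun x => x.2

lemma f_e (d : Bool) : f d (e d) = 1 := by cases d <;> rfl
lemma f_ne {d d' : Bool} (h : d' ≠ d) : f d' (e d) = 0 := by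
  cases d <;> cases d' <;> simp_all [f, e]
lemma f_neg (d : Bool) (x : Cell) : f d (-x) = - f d x := by cases d <;> rfl
lemma f_add (d : Bool) (x y : Cell) : f d (x + y) = f d x + f d y := by cases d <;> rfl
lemma f_smul (d : Bool) (n : ℕ) (x : Cell) : f d (n • x) = n * f d x := by
  cases d <;> simp [f]

section
variable (E : Bool → Cell → Prop)

/-- admissible steps -/
def Ed (u w : Cell) : Prop := ∃ d, (w = u + e d ∧ E d u) ∨ (w = u - e d ∧ E d w)

variable {E}

lemma Pth_rep_pos {d : Bool} {n : ℕ} : ∀ {u : Cell}, (∀ k : ℕ, k < n → E d (u + k • e d)) →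
    Pth (Ed E) (List.replicate n (e d)) u := by
  induction n with
  | zero => intro u _; simp [Pth]
  | succ n ih =>
    intro u h
    rw [List.replicate_succ]
    refine ⟨⟨d, Or.inl ⟨rfl, by simpa using h 0 (by omega)⟩⟩, ih ?_⟩
    intro k hk
    have := h (k+1) (by omega)
    rwa [add_smul, one_smul, add_comm (k • e d), ← add_assoc] at this

lemma Pth_rep_neg {d : Bool} {n : ℕ} : ∀ {u : Cell}, (∀ k : ℕ, k < n → E d (u - (k+1) • e d)) →
    Pth (Ed E) (List.replicate n (-(e d))) u := by
  induction n with
  | zero => intro u _; simp [Pth]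
  | succ n ih =>
    intro u h
    rw [List.replicate_succ]
    refine ⟨⟨d, Or.inr ⟨by rw [sub_eq_add_neg], by simpa [sub_eq_add_neg] using h 0 (by omega)⟩⟩, ih ?_⟩
    intro k hk
    have := h (k+1) (by omega)
    have e1 : u + -e d - (k+1) • e d = u - (k+1+1) • e d := by
      rw [add_smul (k+1), one_smul]; abel
    rw [e1]; exact this

lemma Vis_ins {l1 l2 X : List Cell} (hX : X.sum = 0) (u : Cell) :
    Vis (l1 ++ l2) u ⊆ Vis (l1 ++ (X ++ l2)) u := by
  rintro w ⟨a, b, hab, rfl⟩
  rcases List.append_eq_append_iff.mp hab with ⟨c, hc1, hc2⟩ | ⟨c, hc1, hc2⟩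
  · refine ⟨l1 ++ (X ++ c), b, ?_, ?_⟩
    · rw [hc2]; simp
    · rw [hc1]; simp [hX]
  · refine ⟨a, c ++ (X ++ l2), ?_, rfl⟩
    rw [hc1]; simp

lemma Vis_pre {l1 l2 X : List Cell} {u : Cell} {w : Cell} (h : w ∈ Vis X (u + l1.sum)) :
    w ∈ Vis (l1 ++ (X ++ l2)) u := by
  obtain ⟨a, b, hab, rfl⟩ := h
  refine ⟨l1 ++ a, b ++ l2, ?_, ?_⟩
  · rw [hab]; simp
  · simp [add_assoc]

variable {Q : Finset Cell} (hE : ∀ d u, E d u → u ∈ Q ∧ u + e d ∈ Q)

lemma smul_e_inj (d : Bool) : Function.Injective (fun n : ℕ => n • e d) := by
  intro m n h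
  have := congrArg (f d) h
  simp only [f_smul, f_e, mul_one] at this
  exact_mod_cast this

include hE in
lemma runR (d : Bool) (u : Cell) : ∃ n : ℕ, (∀ k : ℕ, k < n → E d (u + k • e d)) ∧
    ¬ E d (u + n • e d) := by
  classical
  have hex : ∃ n : ℕ, ¬ E d (u + n • e d) := by
    by_contra hcon
    push Not at hcon
    have hinf : (Q : Set Cell).Infinite :=
      Set.infinite_of_injective_forall_mem (f := fun n : ℕ => u + n • e d)
        (fun m n h => smul_e_inj d (add_left_cancel h)) (fun n => (hE _ _ (hcon n)).1)
    exact hinf Q.finite_toSet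
  refine ⟨Nat.find hex, ?_, Nat.find_spec hex⟩
  intro k hk
  have := Nat.find_min hex hk
  simpa using this

include hE in
lemma runL (d : Bool) (u : Cell) : ∃ n : ℕ, (∀ k : ℕ, k < n → E d (u - (k+1) • e d)) ∧
    ¬ E d (u - (n+1) • e d) := by
  classical
  have hex : ∃ n : ℕ, ¬ E d (u - (n+1) • e d) := by
    by_contra hcon
    push Not at hcon
    have hinf : (Q : Set Cell).Infinite :=
      Set.infinite_of_injective_forall_mem (f := fun n : ℕ => u - (n+1) • e d)
        (fun m n h => by
          have h' : (m+1) • e d = (n+1) • e d := by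
            have := h
            simpa using this
          have := smul_e_inj d h'
          omega) (fun n => (hE _ _ (hcon n)).1)
    exact hinf Q.finite_toSet
  refine ⟨Nat.find hex, ?_, Nat.find_spec hex⟩
  intro k hk
  have := Nat.find_min hex hk
  simpa using this

variable (E Q) in
/-- left ends of maximal runs -/
def Starts [∀ d, DecidablePred (E d)] (d : Bool) : Finset Cell :=
  Q.filter (fun u => E d u ∧ ¬ E d (u - e d))

include hE in
lemma starts_card [∀ d, DecidablePred (E d)] (d : Bool) : 2 * (Starts E Q d).card ≤ Q.card := by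
  classical
  set S := Starts E Q d with hS
  have h1 : (S.image (fun u => u + e d)).card = S.card :=
    Finset.card_image_of_injective _ (fun a b h => add_right_cancel h)
  have h2 : Disjoint S (S.image (fun u => u + e d)) := by
    rw [Finset.disjoint_left]
    intro u hu hu'
    obtain ⟨v, hv, hvu⟩ := Finset.mem_image.mp hu'
    have a1 := (Finset.mem_filter.mp hu).2.2
    have a2 := (Finset.mem_filter.mp hv).2.1
    apply a1
    rw [← hvu, add_sub_cancel_right]
    exact a2
  have h3 : S ∪ S.image (fun u => u + e d) ⊆ Q := by
    intro u hu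
    rcases Finset.mem_union.mp hu with h | h
    · exact (Finset.mem_filter.mp h).1
    · obtain ⟨v, hv, rfl⟩ := Finset.mem_image.mp h
      exact (hE d v (Finset.mem_filter.mp hv).2.1).2
  have h4 := Finset.card_le_card h3
  rw [Finset.card_union_of_disjoint h2, h1] at h4
  omega

variable (E Q) in
/-- state of the construction -/
structure St [∀ d, DecidablePred (E d)] (u0 : Cell) (P : Bool → Finset Cell) (l : List Cell) : Prop where
  pth : Pth (Ed E) l u0
  sec : ∀ d, Sec (f d) (2 * (P d).card + 1) l
  vis : ∀ d, ∀ s ∈ P d, ∀ n : ℕ, (∀ k : ℕ, k < n → E d (s + k • e d)) → s + n • e d ∈ Vis l u0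
  sub : ∀ d, P d ⊆ Starts E Q d

include hE in
lemma St.step [∀ d, DecidablePred (E d)] {u0 : Cell} {P : Bool → Finset Cell} {l : List Cell}
    (h : St E Q u0 P l) {u w : Cell} (hu : u ∈ Vis l u0) (hw : w ∉ Vis l u0) (huw : Ed E u w) :
    ∃ P' l', St E Q u0 P' l' ∧
      (P' true).card + (P' false).card = (P true).card + (P false).card + 1 := by
  classical
  obtain ⟨d, hd⟩ := huw
  obtain ⟨n1, hn1, hn1'⟩ := runR hE d u
  obtain ⟨n2, hn2, hn2'⟩ := runL hE d u
  set s := u - n2 • e d with hs
  have hus : u = s + n2 • e d := by rw [hs]; abel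
  -- edges of the run
  have hrun : ∀ k : ℕ, k < n1 + n2 → E d (s + k • e d) := by
    intro k hk
    rcases Nat.lt_or_ge k n2 with h1 | h1
    · have := hn2 (n2 - 1 - k) (by omega)
      have e1 : u - (n2 - 1 - k + 1) • e d = s + k • e d := by
        have e2 : n2 = (n2 - 1 - k + 1) + k := by omega
        rw [hs]
        conv_rhs => rw [e2, add_smul]
        abel
      rwa [e1] at this
    · have := hn1 (k - n2) (by omega)
      have e1 : u + (k - n2) • e d = s + k • e d := by
        have e2 : k = n2 + (k - n2) := by omega
        conv_rhs => rw [e2, add_smul]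
        rw [hus]; abel
      rwa [e1] at this
  have hend : ¬ E d (s + (n1 + n2) • e d) := by
    have e1 : s + (n1 + n2) • e d = u + n1 • e d := by rw [hus, add_smul]; abel
    rw [e1]; exact hn1'
  have hstart : ¬ E d (s - e d) := by
    have e1 : s - e d = u - (n2 + 1) • e d := by rw [hs, add_smul, one_smul]; abel
    rw [e1]; exact hn2'
  have hEs : E d s := by
    have hpos : 0 < n1 + n2 := by
      rcases hd with ⟨h1, h2⟩ | ⟨h1, h2⟩
      · by_contra hcon
        have : n1 = 0 := by omega
        subst this
        apply hn1'; simpa using h2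
      · by_contra hcon
        have : n2 = 0 := by omega
        subst this
        apply hn2'
        rw [h1] at h2
        simpa using h2
    simpa using hrun 0 hpos
  have hsS : s ∈ Starts E Q d := Finset.mem_filter.mpr ⟨(hE d s hEs).1, hEs, hstart⟩
  have hsP : s ∉ P d := by
    intro hsP
    apply hw
    rcases hd with ⟨h1, h2⟩ | ⟨h1, h2⟩
    · have hn1pos : 0 < n1 := by
        by_contra hcon
        have : n1 = 0 := by omega
        subst this
        apply hn1'; simpa using h2
      have := h.vis d s hsP (n2 + 1) (fun k hk => hrun k (by omega))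
      rw [h1, hus, add_assoc, ← succ_nsmul]
      exact this
    · have hn2pos : 0 < n2 := by
        by_contra hcon
        have : n2 = 0 := by omega
        subst this
        apply hn2'
        rw [h1] at h2
        simpa using h2
      have := h.vis d s hsP (n2 - 1) (fun k hk => hrun k (by omega))
      have e1 : w = s + (n2 - 1) • e d := by
        rw [h1, hus]
        conv_lhs => rw [show n2 = (n2 - 1) + 1 by omega, add_smul, one_smul]
        abel
      rw [e1]; exact this
  obtain ⟨l1, l2, hl, hul⟩ := hu
  obtain ⟨σ, hσ, hins⟩ := Sec.ins2 (h.sec d) (by omega) l1 l2 hl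
  -- key claim: there is a suitable insertion
  obtain ⟨X, hXsum, hXpth, hXvis, hXsec, hXne⟩ : ∃ X : List Cell, X.sum = 0 ∧ Pth (Ed E) X u ∧
      (∀ m : ℕ, m ≤ n1 + n2 → s + m • e d ∈ Vis X u) ∧
      Sec (f d) (2 * (P d).card + 1 + 2) (l1 ++ (X ++ l2)) ∧
      (∀ d', d' ≠ d → ∀ x ∈ X, f d' x = 0) := by
    have hpos : ∀ n : ℕ, ∀ x ∈ List.replicate n (e d), f d x = 1 := by
      intro n x hx; rw [List.eq_of_mem_replicate hx, f_e]
    have hneg : ∀ n : ℕ, ∀ x ∈ List.replicate n (-(e d)), f d x = -1 := by
      intro n x hx; rw [List.eq_of_mem_replicate hx, f_neg, f_e]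
    have hpos' : ∀ d', d' ≠ d → ∀ n : ℕ, ∀ x ∈ List.replicate n (e d), f d' x = 0 := by
      intro d' hd' n x hx; rw [List.eq_of_mem_replicate hx, f_ne hd']
    have hneg' : ∀ d', d' ≠ d → ∀ n : ℕ, ∀ x ∈ List.replicate n (-(e d)), f d' x = 0 := by
      intro d' hd' n x hx; rw [List.eq_of_mem_replicate hx, f_neg, f_ne hd', neg_zero]
    rcases hσ with rfl | rfl
    · refine ⟨List.replicate n1 (e d) ++ (List.replicate (n1+n2) (-(e d)) ++
        List.replicate n2 (e d)), ?_, ?_, ?_, ?_, ?_⟩
      · simp only [List.sum_append, List.sum_replicate, add_smul, smul_neg]; abel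
      · rw [Pth_append, Pth_append]
        refine ⟨Pth_rep_pos hn1, Pth_rep_neg ?_, Pth_rep_pos ?_⟩
        · intro k hk
          have := hrun (n1 + n2 - (k+1)) (by omega)
          have e1 : u + (List.replicate n1 (e d)).sum - (k+1) • e d
              = s + (n1 + n2 - (k+1)) • e d := by
            rw [List.sum_replicate, hus]
            have e2 : n1 + n2 = (n1 + n2 - (k+1)) + (k+1) := by omega
            have e3 : s + n2 • e d + n1 • e d = s + (n1 + n2) • e d := by rw [add_smul]; abel
            rw [e3]
            conv_lhs => rw [e2, add_smul]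
            abel
          rw [e1]; exact this
        · intro k hk
          have := hrun k (by omega)
          have e1 : u + (List.replicate n1 (e d)).sum + (List.replicate (n1+n2) (-(e d))).sum
              + k • e d = s + k • e d := by
            rw [List.sum_replicate, List.sum_replicate, hus, smul_neg, add_smul]; abel
          rw [e1]; exact this
      · intro m hm
        refine ⟨List.replicate n1 (e d) ++ List.replicate (n1 + n2 - m) (-(e d)),
          List.replicate m (-(e d)) ++ List.replicate n2 (e d), ?_, ?_⟩
        · have : List.replicate (n1+n2) (-(e d)) = List.replicate (n1+n2-m) (-(e d)) ++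
              List.replicate m (-(e d)) := by
            rw [← List.replicate_add]; congr 1; omega
          rw [this]; simp only [List.append_assoc]
        · simp only [List.sum_append, List.sum_replicate, smul_neg]
          rw [hus]
          have e3 : s + n2 • e d + (n1 • e d + -((n1 + n2 - m) • e d))
              = s + (n1 + n2) • e d - (n1 + n2 - m) • e d := by rw [add_smul]; abel
          rw [e3]
          have e2 : n1 + n2 = (n1 + n2 - m) + m := by omega
          conv_rhs => rw [e2, add_smul]
          simp only [Nat.add_sub_cancel]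
          abel
      · have := hins (List.replicate n1 (e d)) (List.replicate (n1+n2) (-(e d)))
          (List.replicate n2 (e d)) (fun x hx => by rw [hpos _ x hx]; norm_num)
          (fun x hx => by rw [hneg _ x hx]; norm_num) (fun x hx => by rw [hpos _ x hx]; norm_num)
        simpa [List.append_assoc] using this
      · intro d' hd' x hx
        rcases List.mem_append.mp hx with h | h
        · exact hpos' d' hd' _ x h
        · rcases List.mem_append.mp h with h | h
          · exact hneg' d' hd' _ x h
          · exact hpos' d' hd' _ x h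
    · refine ⟨List.replicate n2 (-(e d)) ++ (List.replicate (n1+n2) (e d) ++
        List.replicate n1 (-(e d))), ?_, ?_, ?_, ?_, ?_⟩
      · simp only [List.sum_append, List.sum_replicate, add_smul, smul_neg]; abel
      · rw [Pth_append, Pth_append]
        refine ⟨Pth_rep_neg hn2, Pth_rep_pos ?_, Pth_rep_neg ?_⟩
        · intro k hk
          have := hrun k (by omega)
          have e1 : u + (List.replicate n2 (-(e d))).sum + k • e d = s + k • e d := by
            rw [List.sum_replicate, hus, smul_neg]; abel
          rw [e1]; exact this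
        · intro k hk
          have := hrun (n1 + n2 - (k+1)) (by omega)
          have e1 : u + (List.replicate n2 (-(e d))).sum + (List.replicate (n1+n2) (e d)).sum
              - (k+1) • e d = s + (n1 + n2 - (k+1)) • e d := by
            rw [List.sum_replicate, List.sum_replicate, hus, smul_neg]
            have e2 : n1 + n2 = (n1 + n2 - (k+1)) + (k+1) := by omega
            have e3 : s + n2 • e d + -(n2 • e d) + (n1 + n2) • e d = s + (n1 + n2) • e d := by abel
            rw [e3]
            conv_lhs => rw [e2, add_smul]
            abel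
          rw [e1]; exact this
      · intro m hm
        refine ⟨List.replicate n2 (-(e d)) ++ List.replicate m (e d),
          List.replicate (n1 + n2 - m) (e d) ++ List.replicate n1 (-(e d)), ?_, ?_⟩
        · have : List.replicate (n1+n2) (e d) = List.replicate m (e d) ++
              List.replicate (n1+n2-m) (e d) := by
            rw [← List.replicate_add]; congr 1; omega
          rw [this]; simp only [List.append_assoc]
        · simp only [List.sum_append, List.sum_replicate, smul_neg]
          rw [hus]; abel
      · have := hins (List.replicate n2 (-(e d))) (List.replicate (n1+n2) (e d))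
          (List.replicate n1 (-(e d))) (fun x hx => by rw [hneg _ x hx]; norm_num)
          (fun x hx => by rw [hpos _ x hx]; norm_num) (fun x hx => by rw [hneg _ x hx]; norm_num)
        simpa [List.append_assoc] using this
      · intro d' hd' x hx
        rcases List.mem_append.mp hx with h | h
        · exact hneg' d' hd' _ x h
        · rcases List.mem_append.mp h with h | h
          · exact hpos' d' hd' _ x h
          · exact hneg' d' hd' _ x h
  refine ⟨Function.update P d (insert s (P d)), l1 ++ (X ++ l2), ⟨?_, ?_, ?_, ?_⟩, ?_⟩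
  · have hp := h.pth
    rw [hl, Pth_append] at hp
    rw [Pth_append, Pth_append, ← hul]
    refine ⟨hp.1, hXpth, ?_⟩
    rw [hXsum, add_zero, hul]; exact hp.2
  · intro d'
    by_cases hdd : d' = d
    · subst hdd
      rw [Function.update_self, Finset.card_insert_of_notMem hsP]
      have : 2 * ((P d').card + 1) + 1 = 2 * (P d').card + 1 + 2 := by ring
      rw [this]; exact hXsec
    · rw [Function.update_of_ne hdd]
      exact Sec.ins0 (h.sec d') (by omega) X (hXne d' hdd) l1 l2 hl
  · intro d' s' hs' n hn
    have hold : ∀ v ∈ Vis l u0, v ∈ Vis (l1 ++ (X ++ l2)) u0 := by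
      intro v hv; rw [hl] at hv; exact Vis_ins hXsum u0 hv
    by_cases hdd : d' = d
    · subst hdd
      rw [Function.update_self] at hs'
      rcases Finset.mem_insert.mp hs' with h1 | h1
      · subst h1
        have hle : n ≤ n1 + n2 := by
          by_contra hcon
          exact hend (hn (n1 + n2) (by omega))
        apply Vis_pre
        rw [← hul]
        exact hXvis n hle
      · exact hold _ (h.vis d' s' h1 n hn)
    · rw [Function.update_of_ne hdd] at hs'
      exact hold _ (h.vis d' s' hs' n hn)
  · intro d'
    by_cases hdd : d' = d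
    · subst hdd
      rw [Function.update_self]
      exact Finset.insert_subset hsS (h.sub d')
    · rw [Function.update_of_ne hdd]; exact h.sub d'
  · cases d with
    | true =>
      rw [Function.update_self, Function.update_of_ne (by simp), Finset.card_insert_of_notMem hsP]
      ring
    | false =>
      rw [Function.update_self, Function.update_of_ne (by simp), Finset.card_insert_of_notMem hsP]
      ring

include hE in
/-- there is a walk whose visited set is closed under admissible steps -/
theorem exists_walk [∀ d, DecidablePred (E d)] (u0 : Cell) : ∃ l : List Cell,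
    Pth (Ed E) l u0 ∧ (∀ d, Sec (f d) (Q.card + 1) l) ∧
    ∀ u ∈ Vis l u0, ∀ w, Ed E u w → w ∈ Vis l u0 := by
  classical
  by_contra hcon
  push Not at hcon
  have key : ∀ N : ℕ, ∃ P l, St E Q u0 P l ∧ (P true).card + (P false).card = N := by
    intro N
    induction N with
    | zero =>
      refine ⟨fun _ => ∅, [], ⟨trivial, fun d => Sec.nil _, fun d s hs => by simp at hs,
        fun d => by simp⟩, by simp⟩
    | succ N ih =>
      obtain ⟨P, l, hSt, hN⟩ := ih
      obtain ⟨u, hu, w, huw, hw⟩ := hcon l hSt.pth (fun d => (hSt.sec d).mono (by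
        have h1 := Finset.card_le_card (hSt.sub d)
        have h2 := starts_card hE d
        omega))
      obtain ⟨P', l', hSt', hN'⟩ := hSt.step hE hu hw huw
      exact ⟨P', l', hSt', by omega⟩
  obtain ⟨P, l, hSt, hN⟩ := key (Q.card + 1)
  have h1 := Finset.card_le_card (hSt.sub true)
  have h2 := starts_card hE true
  have h3 := Finset.card_le_card (hSt.sub false)
  have h4 := starts_card hE false
  omega

end

end Q65.PMC
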