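import Pool.Agent.Q65.PMCb

/-! Upper bound: approximation of plane continua by piecewise monotone curves. -/

set_option autoImplicit false

open Set Metric

namespace Q65.PMC

/-- closed grid cell of side `2s` -/
def C (a s : ℝ) (u : Cell) : Set (ℝ × ℝ) :=
  {p | a + 2 * s * u.1 ≤ p.1 ∧ p.1 ≤ a + 2 * s * (u.1 + 1) ∧
    a + 2 * s * u.2 ≤ p.2 ∧ p.2 ≤ a + 2 * s * (u.2 + 1)}

lemma C_closed (a s : ℝ) (u : Cell) : IsClosed (C a s u) := by
  have : C a s u = ((fun p : ℝ × ℝ => p.1) ⁻¹' Icc (a + 2 * s * u.1) (a + 2 * s * (u.1 + 1))) ∩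
      ((fun p : ℝ × ℝ => p.2) ⁻¹' Icc (a + 2 * s * u.2) (a + 2 * s * (u.2 + 1))) := by
    ext p; simp [C, and_assoc]
  rw [this]
  exact (isClosed_Icc.preimage continuous_fst).inter (isClosed_Icc.preimage continuous_snd)

lemma exists_idx {a b s : ℝ} {q : ℕ} (hs : 0 < s) (hq : 1 ≤ q) (hsq : 2 * s * q = b - a) {x : ℝ}
    (hx : x ∈ Icc a b) : ∃ i : ℤ, 0 ≤ i ∧ i < q ∧ a + 2 * s * i ≤ x ∧ x ≤ a + 2 * s * (i + 1) := by
  rcases hx.2.lt_or_eq with h | h
  · refine ⟨⌊(x - a) / (2 * s)⌋, Int.floor_nonneg.mpr (div_nonneg (by linarith [hx.1]) (by positivity)),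
      ?_, ?_, ?_⟩
    · rw [Int.floor_lt, div_lt_iff₀ (by positivity)]
      push_cast; nlinarith
    · have := Int.floor_le ((x - a) / (2 * s))
      rw [le_div_iff₀ (by positivity)] at this
      linarith
    · have := (Int.lt_floor_add_one ((x - a) / (2 * s))).le
      rw [div_le_iff₀ (by positivity)] at this
      linarith
  · refine ⟨(q:ℤ) - 1, by omega, by omega, ?_, ?_⟩
    · push_cast; nlinarith
    · push_cast; nlinarith

lemma map_sum (d : Bool) (l : List Cell) :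
    (l.map (fun x => ((f d x : ℤ) : ℝ))).sum = ((f d l.sum : ℤ) : ℝ) := by
  induction l with
  | nil => cases d <;> simp [f]
  | cons x l ih => rw [List.map_cons, List.sum_cons, List.sum_cons, f_add, ih]; push_cast; rfl

/-- position after time `t` -/
noncomputable def pos (a s : ℝ) (l : List Cell) (u : Cell) (d : Bool) (t : ℝ) : ℝ :=
  (a + 2 * s * (f d u : ℤ) + s) + 2 * s * G (l.map (fun x => ((f d x : ℤ) : ℝ))) t

lemma pos_cons (a s : ℝ) (x : Cell) (l : List Cell) (u : Cell) (d : Bool) {t : ℝ} (ht : 1 ≤ t) :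
    pos a s (x :: l) u d t = pos a s l (u + x) d (t - 1) := by
  unfold pos
  rw [List.map_cons, f_add]
  show _ + 2 * s * (((f d x : ℤ) : ℝ) * max 0 (min t 1) + _) = _
  rw [min_eq_right ht, max_eq_right (by norm_num)]
  push_cast; ring

lemma pos_cons' (a s : ℝ) (x : Cell) (l : List Cell) (u : Cell) (d : Bool) {t : ℝ} (h0 : 0 ≤ t)
    (ht : t ≤ 1) :
    pos a s (x :: l) u d t = (a + 2 * s * (f d u : ℤ) + s) + 2 * s * t * ((f d x : ℤ) : ℝ) := by
  unfold pos
  rw [List.map_cons]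
  show _ + 2 * s * (((f d x : ℤ) : ℝ) * max 0 (min t 1) + _) = _
  rw [min_eq_left ht, max_eq_right h0, G_nonpos _ (by linarith)]
  ring

lemma pos_vis (a s : ℝ) (l1 l2 : List Cell) (u : Cell) (d : Bool) :
    pos a s (l1 ++ l2) u d (l1.length : ℝ) = a + 2 * s * (f d (u + l1.sum) : ℤ) + s := by
  unfold pos
  rw [List.map_append, G_append, List.length_map, sub_self, G_nonpos _ le_rfl, add_zero,
    G_ge _ (by rw [List.length_map]), map_sum, f_add]
  push_cast; ring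

section
variable {a s : ℝ} {F : Set (ℝ × ℝ)}

lemma track {E : Bool → Cell → Prop}
    (hE : ∀ d u, E d u → ∃ p ∈ F, p ∈ C a s u ∧ p ∈ C a s (u + e d)) (hs : 0 < s) :
    ∀ (l : List Cell) (u : Cell), Pth (Ed E) l u →
      (∃ p ∈ F, dist p (a + 2 * s * (u.1:ℝ) + s, a + 2 * s * (u.2:ℝ) + s) ≤ s) →
      ∀ t : ℝ, 0 ≤ t → t ≤ l.length → ∃ p ∈ F, dist p (pos a s l u true t, pos a s l u false t) ≤ s := by
  intro l
  induction l with
  | nil =>
    intro u _ h t _ _
    obtain ⟨p, hp, hp'⟩ := h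
    refine ⟨p, hp, ?_⟩
    have e1 : pos a s [] u true t = a + 2 * s * (u.1:ℝ) + s := by simp [pos, G, f]
    have e2 : pos a s [] u false t = a + 2 * s * (u.2:ℝ) + s := by simp [pos, G, f]
    rw [e1, e2]; exact hp'
  | cons x l ih =>
    intro u hP h t h0 ht
    obtain ⟨hed, hP'⟩ := hP
    -- points along the first edge
    have hedge : ∀ τ : ℝ, 0 ≤ τ → τ ≤ 1 → ∃ p ∈ F, dist p (a + 2 * s * (u.1:ℝ) + s + 2 * s * τ * (x.1:ℝ),
        a + 2 * s * (u.2:ℝ) + s + 2 * s * τ * (x.2:ℝ)) ≤ s := by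
      intro τ h0 h1
      obtain ⟨d, hd⟩ := hed
      rcases hd with ⟨hx, hEd⟩ | ⟨hx, hEd⟩
      · have hx' : x = e d := add_left_cancel hx
        obtain ⟨p, hp, hp1, hp2⟩ := hE d u hEd
        refine ⟨p, hp, ?_⟩
        obtain ⟨c1, c2, c3, c4⟩ := hp1
        obtain ⟨c5, c6, c7, c8⟩ := hp2
        rw [Prod.dist_eq, max_le_iff, Real.dist_eq, Real.dist_eq, abs_le, abs_le, hx']
        cases d with
        | true =>
          simp only [e, Prod.fst_add, Prod.snd_add] at c5 c6 c7 c8 ⊢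
          push_cast at c5 c6 c7 c8 ⊢
          refine ⟨⟨by nlinarith, by nlinarith⟩, ⟨by nlinarith, by nlinarith⟩⟩
        | false =>
          simp only [e, Prod.fst_add, Prod.snd_add] at c5 c6 c7 c8 ⊢
          push_cast at c5 c6 c7 c8 ⊢
          refine ⟨⟨by nlinarith, by nlinarith⟩, ⟨by nlinarith, by nlinarith⟩⟩
      · have hx' : x = - e d := by
          have : u + x = u + - e d := by rw [hx, sub_eq_add_neg]
          exact add_left_cancel this
        obtain ⟨p, hp, hp1, hp2⟩ := hE d _ hEd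
        rw [hx, sub_add_cancel] at hp2
        rw [hx] at hp1
        refine ⟨p, hp, ?_⟩
        obtain ⟨c1, c2, c3, c4⟩ := hp1
        obtain ⟨c5, c6, c7, c8⟩ := hp2
        rw [Prod.dist_eq, max_le_iff, Real.dist_eq, Real.dist_eq, abs_le, abs_le, hx']
        cases d with
        | true =>
          simp only [e, Prod.fst_sub, Prod.snd_sub, Prod.fst_neg, Prod.snd_neg] at c1 c2 c3 c4 ⊢
          push_cast at c1 c2 c3 c4 ⊢
          refine ⟨⟨by nlinarith, by nlinarith⟩, ⟨by nlinarith, by nlinarith⟩⟩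
        | false =>
          simp only [e, Prod.fst_sub, Prod.snd_sub, Prod.fst_neg, Prod.snd_neg] at c1 c2 c3 c4 ⊢
          push_cast at c1 c2 c3 c4 ⊢
          refine ⟨⟨by nlinarith, by nlinarith⟩, ⟨by nlinarith, by nlinarith⟩⟩
    rcases le_total t 1 with h1 | h1
    · obtain ⟨p, hp, hp'⟩ := hedge t h0 h1
      refine ⟨p, hp, ?_⟩
      rw [pos_cons' a s x l u true h0 h1, pos_cons' a s x l u false h0 h1]
      exact hp'
    · rw [pos_cons a s x l u true h1, pos_cons a s x l u false h1]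
      refine ih (u + x) hP' ?_ (t - 1) (by linarith) (by
        have : ((x :: l).length : ℝ) = l.length + 1 := by simp
        rw [this] at ht; linarith)
      obtain ⟨p, hp, hp'⟩ := hedge 1 (by norm_num) le_rfl
      refine ⟨p, hp, ?_⟩
      have e1 : a + 2 * s * ((u + x).1:ℝ) + s = a + 2 * s * (u.1:ℝ) + s + 2 * s * 1 * (x.1:ℝ) := by
        simp only [Prod.fst_add]; push_cast; ring
      have e2 : a + 2 * s * ((u + x).2:ℝ) + s = a + 2 * s * (u.2:ℝ) + s + 2 * s * 1 * (x.2:ℝ) := by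
        simp only [Prod.snd_add]; push_cast; ring
      rw [e1, e2]; exact hp'

lemma cell_dist {u : Cell} {p : ℝ × ℝ} (hp : p ∈ C a s u) :
    dist p (a + 2 * s * (u.1:ℝ) + s, a + 2 * s * (u.2:ℝ) + s) ≤ s := by
  obtain ⟨c1, c2, c3, c4⟩ := hp
  rw [Prod.dist_eq, max_le_iff, Real.dist_eq, Real.dist_eq, abs_le, abs_le]
  refine ⟨⟨?_, ?_⟩, ⟨?_, ?_⟩⟩ <;> linarith

end

/-- upper bound -/
theorem upper {a b : ℝ} (hab : a < b) {q : ℕ} (hq : 1 ≤ q) {F : Set (ℝ × ℝ)}
    (hF : F ⊆ Icc a b ×ˢ Icc a b) (hconn : IsConnected F) :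
    ∃ φ ψ : ℝ → ℝ, Continuous φ ∧ Continuous ψ ∧ (∃ k ≤ q ^ 2 + 1, PS φ k 0 1) ∧
      (∃ k ≤ q ^ 2 + 1, PS ψ k 0 1) ∧
      hausdorffDist F ((fun t => (φ t, ψ t)) '' Icc 0 1) ≤ (b - a) / (2 * q) := by
  classical
  set s : ℝ := (b - a) / (2 * q) with hsdef
  have hq0 : (0:ℝ) < q := by exact_mod_cast hq
  have hs : 0 < s := div_pos (by linarith) (by positivity)
  have hsq : 2 * s * q = b - a := by rw [hsdef]; field_simp
  set Q : Finset Cell := Finset.Ico (0:ℤ) q ×ˢ Finset.Ico (0:ℤ) q with hQ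
  have hQcard : Q.card = q ^ 2 := by
    rw [hQ, Finset.card_product, Int.card_Ico]; simp [sq]
  have hQmem : ∀ u : Cell, u ∈ Q ↔ (0 ≤ u.1 ∧ u.1 < q) ∧ (0 ≤ u.2 ∧ u.2 < q) := by
    intro u; rw [hQ, Finset.mem_product, Finset.mem_Ico, Finset.mem_Ico]
  let E : Bool → Cell → Prop := fun d u => u ∈ Q ∧ u + e d ∈ Q ∧
    ∃ p ∈ F, p ∈ C a s u ∧ p ∈ C a s (u + e d)
  have hE : ∀ d u, E d u → u ∈ Q ∧ u + e d ∈ Q := fun d u h => ⟨h.1, h.2.1⟩
  have hcell : ∀ p ∈ F, ∃ u ∈ Q, p ∈ C a s u := by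
    intro p hp
    obtain ⟨h1, h2⟩ := hF hp
    obtain ⟨i, i0, i1, i2, i3⟩ := exists_idx hs hq hsq h1
    obtain ⟨j, j0, j1, j2, j3⟩ := exists_idx hs hq hsq h2
    exact ⟨(i, j), (hQmem _).mpr ⟨⟨i0, i1⟩, ⟨j0, j1⟩⟩, i2, i3, j2, j3⟩
  obtain ⟨p0, hp0⟩ := hconn.nonempty
  obtain ⟨u0, hu0, hpu0⟩ := hcell p0 hp0
  obtain ⟨l, hPth, hSec, hclosed⟩ := exists_walk (E := E) hE u0
  set U := Vis l u0 with hU
  -- local step
  have hloc : ∀ p ∈ F, ∀ u ∈ Q, ∀ v ∈ Q, u ∈ U → p ∈ C a s u → p ∈ C a s v → v ∈ U := by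
    intro p hp u hu v hv huU hpu hpv
    have hdiff : ∀ x y z : ℤ, ∀ t : ℝ, a + 2 * s * x ≤ t → t ≤ a + 2 * s * (y + 1) → x ≤ y + 1 := by
      intro x y _ t h1 h2
      have h3 : 2 * s * (x:ℝ) ≤ 2 * s * (y + 1) := by linarith
      have h4 : (x:ℝ) ≤ y + 1 := le_of_mul_le_mul_left h3 (by positivity)
      exact_mod_cast h4
    obtain ⟨a1, a2, a3, a4⟩ := hpu
    obtain ⟨b1, b2, b3, b4⟩ := hpv
    have d1 := hdiff v.1 u.1 0 p.1 b1 a2
    have d2 := hdiff u.1 v.1 0 p.1 a1 b2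
    have d3 := hdiff v.2 u.2 0 p.2 b3 a4
    have d4 := hdiff u.2 v.2 0 p.2 a3 b4
    set w : Cell := (v.1, u.2) with hw
    have hwQ : w ∈ Q := (hQmem _).mpr ⟨((hQmem _).mp hv).1, ((hQmem _).mp hu).2⟩
    have hpw : p ∈ C a s w := ⟨b1, b2, a3, a4⟩
    have hpu : p ∈ C a s u := ⟨a1, a2, a3, a4⟩
    have hpv : p ∈ C a s v := ⟨b1, b2, b3, b4⟩
    have hwU : w ∈ U := by
      rcases (show v.1 = u.1 ∨ v.1 = u.1 + 1 ∨ u.1 = v.1 + 1 by omega) with h | h | h
      · have : w = u := by rw [hw, h]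
        rw [this]; exact huU
      · have hwe : w = u + e true := by
          rw [hw, h]; ext <;> simp [e]
        refine hclosed u huU w ⟨true, Or.inl ⟨hwe, hu, by rw [← hwe]; exact hwQ, p, hp, hpu, ?_⟩⟩
        rw [← hwe]; exact hpw
      · have hwe : u = w + e true := by
          ext
          · simp [hw, e, h]
          · simp [hw, e]
        refine hclosed u huU w ⟨true, Or.inr ⟨by rw [hwe]; abel, hwQ, by rw [← hwe]; exact hu,
          p, hp, hpw, ?_⟩⟩
        rw [← hwe]; exact hpu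
    rcases (show v.2 = u.2 ∨ v.2 = u.2 + 1 ∨ u.2 = v.2 + 1 by omega) with h | h | h
    · have : v = w := by rw [hw, ← h]
      rw [this]; exact hwU
    · have hwe : v = w + e false := by
        ext
        · simp [hw, e]
        · simp [hw, e, h]
      refine hclosed w hwU v ⟨false, Or.inl ⟨hwe, hwQ, by rw [← hwe]; exact hv, p, hp, hpw, ?_⟩⟩
      rw [← hwe]; exact hpv
    · have hwe : w = v + e false := by
        ext
        · simp [hw, e]
        · simp [hw, e, h]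
      refine hclosed w hwU v ⟨false, Or.inr ⟨by rw [hwe]; abel, hv, by rw [← hwe]; exact hwQ,
        p, hp, hpv, ?_⟩⟩
      rw [← hwe]; exact hpw
  -- every point of F is in a visited cell
  have hall : ∀ p ∈ F, ∃ u ∈ U, p ∈ C a s u := by
    set A : Set (ℝ × ℝ) := ⋃ u ∈ {u : Cell | u ∈ Q ∧ u ∈ U}, C a s u with hA
    set B : Set (ℝ × ℝ) := ⋃ u ∈ {u : Cell | u ∈ Q ∧ u ∉ U}, C a s u with hB
    have hAc : IsClosed A := by
      refine Set.Finite.isClosed_biUnion ?_ (fun u _ => C_closed a s u)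
      exact Q.finite_toSet.subset (fun u hu => hu.1)
    have hBc : IsClosed B := by
      refine Set.Finite.isClosed_biUnion ?_ (fun u _ => C_closed a s u)
      exact Q.finite_toSet.subset (fun u hu => hu.1)
    have hAB : F ⊆ A ∪ B := by
      intro p hp
      obtain ⟨u, hu, hpu⟩ := hcell p hp
      by_cases h : u ∈ U
      · left; exact mem_biUnion (show u ∈ {u : Cell | u ∈ Q ∧ u ∈ U} from ⟨hu, h⟩) hpu
      · right; exact mem_biUnion (show u ∈ {u : Cell | u ∈ Q ∧ u ∉ U} from ⟨hu, h⟩) hpu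
    have hFA : (F ∩ A).Nonempty := ⟨p0, hp0, mem_biUnion
      (show u0 ∈ {u : Cell | u ∈ Q ∧ u ∈ U} from ⟨hu0, Vis_self l u0⟩) hpu0⟩
    intro p hp
    rcases hAB hp with h | h
    · obtain ⟨u, hu, hpu⟩ := mem_iUnion₂.mp h
      exact ⟨u, hu.2, hpu⟩
    · exfalso
      obtain ⟨p', hp', hpA, hpB⟩ := isPreconnected_closed_iff.mp hconn.isPreconnected A B hAc hBc hAB
        hFA ⟨p, hp, h⟩
      obtain ⟨u, hu, hpu⟩ := mem_iUnion₂.mp hpA
      obtain ⟨v, hv, hpv⟩ := mem_iUnion₂.mp hpB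
      exact hv.2 (hloc p' hp' u hu.1 v hv.1 hu.2 hpu hpv)
  -- the curve
  set L : ℝ := (l.length : ℝ) with hL
  have hL0 : 0 ≤ L := by positivity
  have hcont : ∀ d, Continuous (fun t => pos a s l u0 d (L * t)) := by
    intro d
    unfold pos
    have := (G_cont (l.map (fun x => ((f d x : ℤ) : ℝ)))).comp (continuous_const.mul continuous_id :
      Continuous (fun t : ℝ => L * t))
    exact (continuous_const).add (continuous_const.mul this)
  have hPS : ∀ d, ∃ k ≤ q ^ 2 + 1, PS (fun t => pos a s l u0 d (L * t)) k 0 1 := by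
    intro d
    obtain ⟨v, hv, hv'⟩ := (hSec d).pw (pos a s l u0 d) 0 (a + 2 * s * (f d u0 : ℤ) + s) (2 * s)
      (by positivity) (fun t _ => by rw [sub_zero]; rfl)
    rw [zero_add] at hv'
    rw [hv'] at hv
    rcases hL0.lt_or_eq with h | h
    · obtain ⟨k', hk', hk''⟩ := (hv.scale h).strict one_pos
      exact ⟨k', by rw [hQcard] at hk'; exact hk', hk''⟩
    · refine ⟨1, by omega, fun i => if i = 0 then 0 else 1, by simp, by simp, ?_⟩
      intro i hi
      have e : i = 0 := by omega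
      subst e
      simp only [if_true, zero_add, one_ne_zero, if_false]
      refine ⟨one_pos, Or.inl ?_⟩
      intro x _ y _ _
      simp only [← h, zero_mul]
      exact le_rfl
  refine ⟨fun t => pos a s l u0 true (L * t), fun t => pos a s l u0 false (L * t), hcont true,
    hcont false, hPS true, hPS false, ?_⟩
  refine hausdorffDist_le_of_mem_dist hs.le ?_ ?_
  · intro p hp
    obtain ⟨u, hu, hpu⟩ := hall p hp
    obtain ⟨l1, l2, hl, hul⟩ := hu
    have hlen : (l1.length : ℝ) ≤ L := by rw [hL, hl]; simp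
    have hLt : L * ((l1.length : ℝ) / L) = l1.length := by
      rcases hL0.lt_or_eq with h | h
      · field_simp
      · rw [← h] at hlen ⊢
        have : (l1.length : ℝ) = 0 := le_antisymm hlen (by positivity)
        rw [this]; simp
    refine ⟨_, ⟨(l1.length : ℝ) / L, ⟨by positivity, div_le_one_of_le₀ hlen hL0⟩, rfl⟩, ?_⟩
    simp only [hLt]
    have e1 : pos a s l u0 true (l1.length : ℝ) = a + 2 * s * (u.1:ℝ) + s := by
      rw [hl, pos_vis, ← hul]; rfl
    have e2 : pos a s l u0 false (l1.length : ℝ) = a + 2 * s * (u.2:ℝ) + s := by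
      rw [hl, pos_vis, ← hul]; rfl
    rw [e1, e2]
    exact cell_dist hpu
  · rintro _ ⟨t, ht, rfl⟩
    obtain ⟨p, hp, hp'⟩ := track (E := E) (F := F) (a := a) (s := s) (fun d u h => h.2.2) hs l u0 hPth
      ⟨p0, hp0, cell_dist hpu0⟩ (L * t) (mul_nonneg hL0 ht.1) (by
        calc L * t ≤ L * 1 := mul_le_mul_of_nonneg_left ht.2 hL0
          _ = L := mul_one L)
    refine ⟨p, hp, ?_⟩
    rw [dist_comm]; exact hp'

end Q65.PMC
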