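import Pool.Agent.Q65.PMCc

/-! Lower bound: combs. -/

set_option autoImplicit false

open Set Metric

namespace Q65.PMC

lemma step_mono {p : ℕ → ℝ} {L : ℕ} (hp : ∀ i < L, p i < p (i+1)) :
    ∀ {i j : ℕ}, i ≤ j → j ≤ L → p i ≤ p j := by
  intro i j hij hj
  induction j, hij using Nat.le_induction with
  | base => exact le_rfl
  | succ j hij ih => exact (ih (by omega)).trans (hp j (by omega)).le

/-- a function with `k` intervals of monotonicity has no longer alternating sequence -/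
lemma alt_count (φ : ℝ → ℝ) : ∀ (k : ℕ) (u v : ℝ), PW φ k u v → ∀ (L : ℕ) (p : ℕ → ℝ) (σ : ℝ),
    (σ = 1 ∨ σ = -1) → (∀ i < L, p i < p (i+1)) → u ≤ p 0 → p L ≤ v →
    (∀ i < L, 0 < σ * (-1) ^ i * (φ (p (i+1)) - φ (p i))) → L ≤ k := by
  intro k
  induction k with
  | zero =>
    intro u v h L p σ _ hp h0 hL _
    obtain ⟨t, ht0, ht1, -⟩ := h
    have huv : u = v := by rw [← ht0, ← ht1]
    by_contra hcon
    have h1 : 0 < L := by omega
    have h2 := hp 0 h1
    have h3 := step_mono hp (show 0 + 1 ≤ L by omega) le_rfl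
    linarith
  | succ k ih =>
    intro u v h L p σ hσ hp h0 hL hsg
    obtain ⟨t, ht0, ht1, ht⟩ := h
    have hk := ht k (by omega)
    rw [ht1] at hk
    have hPWk : PW φ k u (t k) := ⟨t, ht0, rfl, fun i hi => ht i (by omega)⟩
    set w := t k with hw
    rcases le_or_gt (p L) w with h1 | h1
    · have := ih u w hPWk L p σ hσ hp h0 h1 hsg
      omega
    rcases Nat.eq_zero_or_pos L with hL0 | hL0
    · omega
    rcases le_or_gt (p (L-1)) w with h2 | h2
    · have := ih u w hPWk (L-1) p σ hσ (fun i hi => hp i (by omega)) h0 h2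
        (fun i hi => hsg i (by omega))
      omega
    rcases Nat.lt_or_ge L 2 with hL2 | hL2
    · omega
    obtain ⟨m, rfl⟩ : ∃ m, L = m + 2 := ⟨L - 2, by omega⟩
    have e1 : m + 2 - 1 = m + 1 := by omega
    rw [e1] at h2
    have hm0 := hp m (by omega)
    have hm1 := hp (m+1) (by omega)
    have s0 := hsg m (by omega)
    have s1 := hsg (m+1) (by omega)
    set τ : ℝ := σ * (-1) ^ m with hτ
    have hτ' : τ = 1 ∨ τ = -1 := by
      rw [hτ]
      rcases hσ with rfl | rfl <;> rcases neg_one_pow_eq_or ℝ m with h | h <;> rw [h] <;> simp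
    have s1' : 0 < - τ * (φ (p (m+1+1)) - φ (p (m+1))) := by
      have : σ * (-1) ^ (m+1) = - τ := by rw [hτ, pow_succ]; ring
      rw [this] at s1; exact s1
    have hv : p (m+1+1) ≤ v := hL
    rcases le_or_gt w (p m) with h3 | h3
    · exfalso
      have i0 : p m ∈ Icc w v := ⟨h3, by linarith⟩
      have i1 : p (m+1) ∈ Icc w v := ⟨h2.le, by linarith⟩
      have i2 : p (m+1+1) ∈ Icc w v := ⟨by linarith, hv⟩
      rcases hk.2 with hm | hm
      · have a1 := hm i0 i1 hm0.le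
        have a2 := hm i1 i2 hm1.le
        rcases hτ' with h | h <;> rw [h] at s0 s1' <;> linarith
      · have a1 := hm i0 i1 hm0.le
        have a2 := hm i1 i2 hm1.le
        rcases hτ' with h | h <;> rw [h] at s0 s1' <;> linarith
    · have iw : w ∈ Icc w v := ⟨le_rfl, hk.1⟩
      have i1 : p (m+1) ∈ Icc w v := ⟨h2.le, by linarith⟩
      have i2 : p (m+1+1) ∈ Icc w v := ⟨by linarith, hv⟩
      have key : 0 < τ * (φ w - φ (p m)) := by
        rcases hk.2 with hm | hm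
        · have a1 := hm iw i1 h2.le
          have a2 := hm i1 i2 hm1.le
          rcases hτ' with h | h <;> rw [h] at s0 s1' ⊢ <;> linarith
        · have a1 := hm iw i1 h2.le
          have a2 := hm i1 i2 hm1.le
          rcases hτ' with h | h <;> rw [h] at s0 s1' ⊢ <;> linarith
      have := ih u w hPWk (m+1) (fun i => if i ≤ m then p i else w) σ hσ ?_ ?_ ?_ ?_
      · omega
      · intro i hi
        rcases Nat.lt_or_ge i m with h | h
        · have e1 : i ≤ m := h.le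
          have e2 : i + 1 ≤ m := h
          simp only [e1, e2, if_true]; exact hp i (by omega)
        · have e1 : i = m := by omega
          subst e1
          simp only [le_refl, if_true, Nat.succ_le_iff, lt_irrefl, if_false]; exact h3
      · simpa using h0
      · simp
      · intro i hi
        rcases Nat.lt_or_ge i m with h | h
        · have e1 : i ≤ m := h.le
          have e2 : i + 1 ≤ m := h
          simp only [e1, e2, if_true]; exact hsg i (by omega)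
        · have e1 : i = m := by omega
          subst e1
          simp only [le_refl, if_true, Nat.succ_le_iff, lt_irrefl, if_false]; exact key

lemma count_valleys {φ : ℝ → ℝ} {k : ℕ} (h : PW φ k 0 1) (S : Finset ℝ) (hS0 : S.Nonempty)
    (hS : ∀ s ∈ S, s ∈ Icc (0:ℝ) 1)
    (hv : ∀ s ∈ S, ∀ t ∈ S, s < t → ∃ τ ∈ Icc s t, φ τ < φ s ∧ φ τ < φ t) :
    2 * (S.card - 1) ≤ k := by
  classical
  set M := S.card with hM
  have hMpos : 0 < M := Finset.card_pos.mpr hS0
  let s : Fin M ↪o ℝ := S.orderEmbOfFin rfl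
  have hsmem : ∀ i, s i ∈ S := fun i => Finset.orderEmbOfFin_mem S rfl i
  let c : ℕ → Fin M := fun i => ⟨min i (M-1), by omega⟩
  have hc : ∀ i, i + 1 < M → s (c i) < s (c (i+1)) := by
    intro i hi
    apply s.strictMono
    show (⟨min i (M-1), _⟩ : Fin M) < ⟨min (i+1) (M-1), _⟩
    rw [Fin.mk_lt_mk]; omega
  have hval : ∀ i, ∃ τ : ℝ, i + 1 < M → (s (c i) < τ ∧ τ < s (c (i+1)) ∧ φ τ < φ (s (c i)) ∧
      φ τ < φ (s (c (i+1)))) := by
    intro i
    by_cases hi : i + 1 < M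
    · obtain ⟨τ, hτ, h1, h2⟩ := hv _ (hsmem (c i)) _ (hsmem (c (i+1))) (hc i hi)
      refine ⟨τ, fun _ => ⟨lt_of_le_of_ne hτ.1 ?_, lt_of_le_of_ne hτ.2 ?_, h1, h2⟩⟩
      · intro he; rw [← he] at h1; exact lt_irrefl _ h1
      · intro he; rw [he] at h2; exact lt_irrefl _ h2
    · exact ⟨0, fun h => absurd h hi⟩
  choose τ hτ using hval
  let p : ℕ → ℝ := fun n => if n % 2 = 0 then s (c (n/2)) else τ (n/2)
  have pe : ∀ i, p (2*i) = s (c i) := by
    intro i
    show (if (2*i) % 2 = 0 then s (c ((2*i)/2)) else _) = _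
    rw [if_pos (by omega)]; congr 2; omega
  have po : ∀ i, p (2*i+1) = τ i := by
    intro i
    show (if (2*i+1) % 2 = 0 then _ else τ ((2*i+1)/2)) = _
    rw [if_neg (by omega)]; congr 1; omega
  refine alt_count φ k 0 1 h (2*(M-1)) p (-1) (Or.inr rfl) ?_ ?_ ?_ ?_
  · intro n hn
    rcases Nat.even_or_odd' n with ⟨i, hi | hi⟩
    · subst hi; rw [pe, po]; exact (hτ i (by omega)).1
    · subst hi
      have e1 : 2*i+1+1 = 2*(i+1) := by ring
      rw [e1, pe, po]; exact (hτ i (by omega)).2.1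
  · have := pe 0; rw [mul_zero] at this; rw [this]; exact (hS _ (hsmem _)).1
  · rw [pe]; exact (hS _ (hsmem _)).2
  · intro n hn
    rcases Nat.even_or_odd' n with ⟨i, hi | hi⟩
    · subst hi; rw [pe, po, pow_mul]
      have := (hτ i (by omega)).2.2.1
      norm_num; linarith
    · subst hi
      have e1 : 2*i+1+1 = 2*(i+1) := by ring
      rw [e1, pe, po, pow_succ, pow_mul]
      have := (hτ i (by omega)).2.2.2
      norm_num; linarith

/-! ### the comb -/

/-- the comb -/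
def comb (a h : ℝ) (p : ℕ) : Set (ℝ × ℝ) :=
  (Icc a (a + 4 * p * h) ×ˢ {a}) ∪
  ((⋃ k ∈ Finset.range p, ({a + 4 * (k:ℝ) * h} ×ˢ Icc a (a + 4 * p * h))) ∪
    (⋃ kj ∈ Finset.range p ×ˢ Finset.Icc 1 (2 * p),
      (Icc (a + 4 * (kj.1:ℝ) * h) (a + (4 * (kj.1:ℝ) + 2) * h) ×ˢ {a + 2 * (kj.2:ℝ) * h})))

lemma comb_compact (a h : ℝ) (p : ℕ) : IsCompact (comb a h p) := by
  unfold comb
  refine (isCompact_Icc.prod isCompact_singleton).union (IsCompact.union ?_ ?_)
  · exact Finset.isCompact_biUnion _ (fun k _ => isCompact_singleton.prod isCompact_Icc)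
  · exact Finset.isCompact_biUnion _ (fun k _ => isCompact_Icc.prod isCompact_singleton)

lemma comb_sub {a h : ℝ} (hh : 0 < h) (p : ℕ) :
    comb a h p ⊆ Icc a (a + 4 * p * h) ×ˢ Icc a (a + 4 * p * h) := by
  have hp0 : 0 ≤ 4 * (p:ℝ) * h := by positivity
  rintro ⟨x, y⟩ hxy
  rcases hxy with hxy | hxy | hxy
  · obtain ⟨h1, h2⟩ := hxy
    simp only [mem_singleton_iff] at h2
    exact ⟨h1, by rw [show (x, y).2 = y from rfl, h2]; exact ⟨le_rfl, by linarith⟩⟩
  · obtain ⟨k, hk, h1, h2⟩ := mem_iUnion₂.mp hxy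
    simp only [mem_singleton_iff] at h1
    have hk' : (k:ℝ) < p := by exact_mod_cast Finset.mem_range.mp hk
    have hk0 : (0:ℝ) ≤ k := by positivity
    refine ⟨?_, h2⟩
    rw [show (x, y).1 = x from rfl, h1]
    exact ⟨by nlinarith [mul_nonneg hk0 hh.le], by nlinarith⟩
  · obtain ⟨⟨k, j⟩, hkj, h1, h2⟩ := mem_iUnion₂.mp hxy
    simp only [mem_singleton_iff] at h2
    obtain ⟨hk, hj⟩ := Finset.mem_product.mp hkj
    have hk' : (k:ℝ) + 1 ≤ p := by exact_mod_cast Finset.mem_range.mp hk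
    have hj' : (j:ℝ) ≤ 2 * p := by exact_mod_cast (Finset.mem_Icc.mp hj).2
    have hk0 : (0:ℝ) ≤ k := by positivity
    have hj0 : (0:ℝ) ≤ j := by positivity
    simp only at h1 h2
    refine ⟨⟨?_, ?_⟩, ?_⟩
    · exact le_trans (by nlinarith [mul_nonneg hk0 hh.le]) h1.1
    · exact h1.2.trans (by nlinarith)
    · rw [show (x, y).2 = y from rfl, h2]
      exact ⟨by nlinarith [mul_nonneg hj0 hh.le], by nlinarith⟩

lemma comb_conn {a h : ℝ} (hh : 0 < h) (p : ℕ) : IsConnected (comb a h p) := by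
  have hp0 : 0 ≤ 4 * (p:ℝ) * h := by positivity
  have hbot : IsPreconnected (Icc a (a + 4 * (p:ℝ) * h) ×ˢ ({a} : Set ℝ)) :=
    isPreconnected_Icc.prod isPreconnected_singleton
  have hO : ((a, a) : ℝ × ℝ) ∈ Icc a (a + 4 * (p:ℝ) * h) ×ˢ ({a} : Set ℝ) :=
    ⟨⟨le_rfl, by linarith⟩, rfl⟩
  have hbb : ∀ k ∈ Finset.range p, IsPreconnected
      ((Icc a (a + 4 * (p:ℝ) * h) ×ˢ ({a} : Set ℝ)) ∪
        ({a + 4 * (k:ℝ) * h} ×ˢ Icc a (a + 4 * p * h))) := by
    intro k hk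
    have hk' : (k:ℝ) < p := by exact_mod_cast Finset.mem_range.mp hk
    have hk0 : (0:ℝ) ≤ k := by positivity
    refine IsPreconnected.union (a + 4 * (k:ℝ) * h, a) ?_ ?_ hbot
      (isPreconnected_singleton.prod isPreconnected_Icc)
    · exact ⟨⟨by show a ≤ _; nlinarith [mul_nonneg hk0 hh.le], by show _ ≤ _; nlinarith⟩, rfl⟩
    · exact ⟨rfl, le_rfl, by show a ≤ _; linarith⟩
  refine ⟨⟨(a, a), Or.inl hO⟩, ?_⟩
  refine isPreconnected_of_forall (a, a) ?_
  intro y hy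
  rcases hy with hy | hy | hy
  · exact ⟨_, subset_union_left, hO, hy, hbot⟩
  · obtain ⟨k, hk, hyk⟩ := mem_iUnion₂.mp hy
    refine ⟨_, ?_, Or.inl hO, Or.inr hyk, hbb k hk⟩
    refine union_subset subset_union_left ?_
    intro z hz
    exact Or.inr (Or.inl (mem_iUnion₂.mpr ⟨k, hk, hz⟩))
  · obtain ⟨⟨k, j⟩, hkj, hyk⟩ := mem_iUnion₂.mp hy
    obtain ⟨hk, hj⟩ := Finset.mem_product.mp hkj
    have hj' : (j:ℝ) ≤ 2 * p := by exact_mod_cast (Finset.mem_Icc.mp hj).2
    have hj0 : (0:ℝ) ≤ j := by positivity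
    refine ⟨((Icc a (a + 4 * (p:ℝ) * h) ×ˢ ({a} : Set ℝ)) ∪
        ({a + 4 * (k:ℝ) * h} ×ˢ Icc a (a + 4 * p * h))) ∪
        (Icc (a + 4 * (k:ℝ) * h) (a + (4 * (k:ℝ) + 2) * h) ×ˢ {a + 2 * (j:ℝ) * h}), ?_,
        Or.inl (Or.inl hO), Or.inr hyk, ?_⟩
    · refine union_subset (union_subset subset_union_left ?_) ?_
      · intro z hz
        exact Or.inr (Or.inl (mem_iUnion₂.mpr ⟨k, hk, hz⟩))
      · intro z hz
        exact Or.inr (Or.inr (mem_iUnion₂.mpr ⟨(k, j), hkj, hz⟩))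
    · refine IsPreconnected.union (a + 4 * (k:ℝ) * h, a + 2 * (j:ℝ) * h) ?_ ?_ (hbb k hk)
        (isPreconnected_Icc.prod isPreconnected_singleton)
      · refine Or.inr ⟨rfl, ?_, ?_⟩
        · show a ≤ _; nlinarith [mul_nonneg hj0 hh.le]
        · show _ ≤ _; nlinarith
      · exact ⟨⟨le_rfl, by show _ ≤ _; nlinarith⟩, rfl⟩

/-- lower bound -/
theorem lower {a h : ℝ} (hh : 0 < h) {p : ℕ} (hp : 1 ≤ p) {φ ψ : ℝ → ℝ}
    (hφ : ContinuousOn φ (Icc 0 1)) (hψ : ContinuousOn ψ (Icc 0 1)) {k : ℕ} (hk : PW φ k 0 1)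
    (hd : hausdorffDist (comb a h p) ((fun t => (φ t, ψ t)) '' Icc 0 1) < h) :
    4 * p ^ 2 - 2 ≤ k := by
  classical
  set γ : Set (ℝ × ℝ) := (fun t => (φ t, ψ t)) '' Icc 0 1 with hγ
  have hcont : ContinuousOn (fun t => (φ t, ψ t)) (Icc (0:ℝ) 1) := hφ.prodMk hψ
  have hγc : IsCompact γ := isCompact_Icc.image_of_continuousOn hcont
  have hγn : γ.Nonempty := ⟨_, 0, ⟨le_rfl, zero_le_one⟩, rfl⟩
  have hfin : hausdorffEDist (comb a h p) γ ≠ ⊤ :=
    hausdorffEDist_ne_top_of_nonempty_of_bounded (comb_conn hh p).nonempty hγn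
      (comb_compact a h p).isBounded hγc.isBounded
  have hnear1 : ∀ z ∈ comb a h p, ∃ t ∈ Icc (0:ℝ) 1, |z.1 - φ t| < h ∧ |z.2 - ψ t| < h := by
    intro z hz
    obtain ⟨y, hy, hzy⟩ := exists_dist_lt_of_hausdorffDist_lt hz hd hfin
    obtain ⟨t, ht, rfl⟩ := hy
    rw [Prod.dist_eq, max_lt_iff, Real.dist_eq, Real.dist_eq] at hzy
    exact ⟨t, ht, hzy⟩
  have hnear2 : ∀ t ∈ Icc (0:ℝ) 1, ∃ z ∈ comb a h p, |φ t - z.1| < h ∧ |ψ t - z.2| < h := by
    intro t ht
    obtain ⟨z, hz, hzy⟩ := exists_dist_lt_of_hausdorffDist_lt' (mem_image_of_mem _ ht) hd hfin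
    refine ⟨z, hz, ?_⟩
    rw [Prod.dist_eq, max_lt_iff, Real.dist_eq, Real.dist_eq] at hzy
    rw [abs_sub_comm (φ t), abs_sub_comm (ψ t)]
    exact hzy
  -- valleys between tips
  have hval : ∀ k j k' j' : ℕ, 1 ≤ j → k ≤ k' → (k, j) ≠ (k', j') → ∀ t t' : ℝ,
      t ∈ Icc (0:ℝ) 1 → t' ∈ Icc (0:ℝ) 1 →
      |a + (4 * (k:ℝ) + 2) * h - φ t| < h → |a + 2 * (j:ℝ) * h - ψ t| < h →
      |a + (4 * (k':ℝ) + 2) * h - φ t'| < h → |a + 2 * (j':ℝ) * h - ψ t'| < h →
      ∃ τ ∈ uIcc t t', φ τ < φ t ∧ φ τ < φ t' := by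
    intro k j k' j' hj1 hkk hne t t' ht ht' h1 h2 h3 h4
    rw [abs_lt] at h1 h2 h3 h4
    have hkkR : (k:ℝ) ≤ k' := by exact_mod_cast hkk
    have hkkh : 4 * (k:ℝ) * h ≤ 4 * (k':ℝ) * h := by nlinarith
    suffices hs : ∃ τ ∈ uIcc t t', φ τ ≤ a + (4 * (k:ℝ) + 1) * h by
      obtain ⟨τ, hτ, hτ'⟩ := hs
      exact ⟨τ, hτ, by linarith, by linarith⟩
    by_contra hcon
    push Not at hcon
    have hsub : uIcc t t' ⊆ Icc (0:ℝ) 1 := uIcc_subset_Icc ht ht'
    have hI : IsPreconnected ((fun t => (φ t, ψ t)) '' uIcc t t') :=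
      isPreconnected_uIcc.image _ (hcont.mono hsub)
    set O1 : Set (ℝ × ℝ) := {z | |z.2 - (a + 2 * (j:ℝ) * h)| < h ∧ z.1 < a + (4 * (k:ℝ) + 3) * h}
      with hO1
    set O2 : Set (ℝ × ℝ) := {z | h < |z.2 - (a + 2 * (j:ℝ) * h)| ∨ a + (4 * (k:ℝ) + 3) * h < z.1}
      with hO2
    have c1 : Continuous (fun z : ℝ × ℝ => |z.2 - (a + 2 * (j:ℝ) * h)|) := by fun_prop
    have hO1o : IsOpen O1 :=
      (isOpen_lt c1 continuous_const).inter (isOpen_lt continuous_fst continuous_const)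
    have hO2o : IsOpen O2 :=
      (isOpen_lt continuous_const c1).union (isOpen_lt continuous_const continuous_fst)
    have hcov : (fun t => (φ t, ψ t)) '' uIcc t t' ⊆ O1 ∪ O2 := by
      rintro _ ⟨τ, hτ, rfl⟩
      by_cases hτ2 : (φ τ, ψ τ) ∈ O2
      · exact Or.inr hτ2
      · left
        have hτ3 : |ψ τ - (a + 2 * (j:ℝ) * h)| ≤ h ∧ φ τ ≤ a + (4 * (k:ℝ) + 3) * h := by
          rw [hO2, mem_ofPred_eq] at hτ2
          push Not at hτ2; exact hτ2
        have hτ4 := hcon τ hτ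
        obtain ⟨z, hz, hz1, hz2⟩ := hnear2 τ (hsub hτ)
        rw [abs_lt] at hz1 hz2
        have hτ3' := abs_le.mp hτ3.1
        have hjR : (1:ℝ) ≤ j := by exact_mod_cast hj1
        rcases hz with hz | hz | hz
        · exfalso
          have hz2' : z.2 = a := hz.2
          rw [hz2'] at hz2
          nlinarith
        · exfalso
          obtain ⟨k2, -, hk2, -⟩ := mem_iUnion₂.mp hz
          have hk2' : z.1 = a + 4 * (k2:ℝ) * h := hk2
          rw [hk2'] at hz1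
          have b1 : 4 * (k:ℝ) * h < 4 * (k2:ℝ) * h := by linarith
          have b2 : 4 * (k2:ℝ) * h < 4 * ((k:ℝ) + 1) * h := by linarith
          have b3 : (k:ℝ) < k2 := by nlinarith
          have b4 : (k2:ℝ) < k + 1 := by nlinarith
          have b5 : k < k2 := by exact_mod_cast b3
          have b6 : k2 < k + 1 := by exact_mod_cast b4
          omega
        · obtain ⟨⟨k2, j2⟩, -, hk2, hj2⟩ := mem_iUnion₂.mp hz
          have hj2' : z.2 = a + 2 * (j2:ℝ) * h := hj2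
          have hk2' : a + 4 * (k2:ℝ) * h ≤ z.1 ∧ z.1 ≤ a + (4 * (k2:ℝ) + 2) * h := hk2
          rw [hj2'] at hz2
          have hjj : j2 = j := by
            have b1 : 2 * (j2:ℝ) * h < 2 * ((j:ℝ) + 1) * h := by linarith
            have b2 : 2 * (j:ℝ) * h < 2 * ((j2:ℝ) + 1) * h := by linarith
            have b3 : (j2:ℝ) < j + 1 := by nlinarith
            have b4 : (j:ℝ) < j2 + 1 := by nlinarith
            have b5 : j2 < j + 1 := by exact_mod_cast b3
            have b6 : j < j2 + 1 := by exact_mod_cast b4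
            omega
          have hkk2 : k2 ≤ k := by
            have b1 : 4 * (k2:ℝ) * h < 4 * ((k:ℝ) + 1) * h := by linarith
            have b3 : (k2:ℝ) < k + 1 := by nlinarith
            have b5 : k2 < k + 1 := by exact_mod_cast b3
            omega
          have hkk2R : (k2:ℝ) ≤ k := by exact_mod_cast hkk2
          rw [hjj] at hz2
          refine ⟨?_, ?_⟩
          · show |ψ τ - (a + 2 * (j:ℝ) * h)| < h
            rw [abs_lt]; exact hz2
          · show φ τ < a + (4 * (k:ℝ) + 3) * h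
            nlinarith [mul_le_mul_of_nonneg_right hkk2R hh.le]
    have ht1 : (φ t, ψ t) ∈ O1 := by
      refine ⟨?_, ?_⟩
      · show |ψ t - _| < h
        rw [abs_lt]; constructor <;> linarith
      · show φ t < _; linarith
    by_cases ht2 : (φ t', ψ t') ∈ O2
    · obtain ⟨z, -, hz1, hz2⟩ := hI O1 O2 hO1o hO2o hcov
        ⟨_, mem_image_of_mem _ left_mem_uIcc, ht1⟩ ⟨_, mem_image_of_mem _ right_mem_uIcc, ht2⟩
      rcases hz2 with h | h
      · exact absurd hz1.1 (not_lt.mpr h.le)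
      · exact absurd hz1.2 (not_lt.mpr h.le)
    · have ht3 : |ψ t' - (a + 2 * (j:ℝ) * h)| ≤ h ∧ φ t' ≤ a + (4 * (k:ℝ) + 3) * h := by
        rw [hO2, mem_ofPred_eq] at ht2
        push Not at ht2; exact ht2
      have ht3' := abs_le.mp ht3.1
      have b1 : 4 * (k':ℝ) * h < 4 * ((k:ℝ) + 1) * h := by linarith
      have b2 : (k':ℝ) < k + 1 := by nlinarith
      have b3 : k' < k + 1 := by exact_mod_cast b2
      have b4 : k' = k := by omega
      have b5 : 2 * (j':ℝ) * h < 2 * ((j:ℝ) + 1) * h := by linarith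
      have b6 : 2 * (j:ℝ) * h < 2 * ((j':ℝ) + 1) * h := by linarith
      have b7 : (j':ℝ) < j + 1 := by nlinarith
      have b8 : (j:ℝ) < j' + 1 := by nlinarith
      have b9 : j' < j + 1 := by exact_mod_cast b7
      have b10 : j < j' + 1 := by exact_mod_cast b8
      apply hne
      rw [b4, show j' = j by omega]
  -- times of the tips
  set I : Finset (ℕ × ℕ) := Finset.range p ×ˢ Finset.Icc 1 (2 * p) with hI
  have hIcard : I.card = 2 * p ^ 2 := by
    rw [hI, Finset.card_product, Finset.card_range, Nat.card_Icc]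
    have : 2 * p + 1 - 1 = 2 * p := by omega
    rw [this]; ring
  have htip : ∀ kj : ℕ × ℕ, ∃ t : ℝ, kj ∈ I → t ∈ Icc (0:ℝ) 1 ∧
      |a + (4 * (kj.1:ℝ) + 2) * h - φ t| < h ∧ |a + 2 * (kj.2:ℝ) * h - ψ t| < h := by
    intro kj
    by_cases hkj : kj ∈ I
    · have hmem : (a + (4 * (kj.1:ℝ) + 2) * h, a + 2 * (kj.2:ℝ) * h) ∈ comb a h p := by
        refine Or.inr (Or.inr (mem_iUnion₂.mpr ⟨kj, hkj, ⟨?_, le_rfl⟩, rfl⟩))
        show a + 4 * (kj.1:ℝ) * h ≤ a + (4 * (kj.1:ℝ) + 2) * h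
        nlinarith
      obtain ⟨t, ht, h1, h2⟩ := hnear1 _ hmem
      exact ⟨t, fun _ => ⟨ht, h1, h2⟩⟩
    · exact ⟨0, fun h => absurd h hkj⟩
  choose T hT using htip
  have hval2 : ∀ x ∈ I, ∀ y ∈ I, x ≠ y → ∃ τ ∈ uIcc (T x) (T y), φ τ < φ (T x) ∧ φ τ < φ (T y) := by
    intro x hx y hy hxy
    obtain ⟨hx0, hx1, hx2⟩ := hT x hx
    obtain ⟨hy0, hy1, hy2⟩ := hT y hy
    have hxj : 1 ≤ x.2 := (Finset.mem_Icc.mp (Finset.mem_product.mp hx).2).1
    have hyj : 1 ≤ y.2 := (Finset.mem_Icc.mp (Finset.mem_product.mp hy).2).1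
    rcases le_total x.1 y.1 with hle | hle
    · exact hval x.1 x.2 y.1 y.2 hxj hle hxy _ _ hx0 hy0 hx1 hx2 hy1 hy2
    · obtain ⟨τ, hτ, g1, g2⟩ := hval y.1 y.2 x.1 x.2 hyj hle (fun h => hxy h.symm) _ _ hy0 hx0
        hy1 hy2 hx1 hx2
      exact ⟨τ, by rw [uIcc_comm]; exact hτ, g2, g1⟩
  have hinj : Set.InjOn T I := by
    intro x hx y hy hxy
    by_contra hne
    obtain ⟨τ, hτ, g1, -⟩ := hval2 x hx y hy hne
    rw [hxy, uIcc_self, mem_singleton_iff] at hτ
    rw [hτ, hxy] at g1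
    exact lt_irrefl _ g1
  have hcard : (I.image T).card = 2 * p ^ 2 := by
    rw [Finset.card_image_of_injOn hinj, hIcard]
  have hpos : 0 < p ^ 2 := by positivity
  have := count_valleys hk (I.image T) (by
    rw [← Finset.card_pos, hcard]; omega) (by
    intro s hs
    obtain ⟨x, hx, rfl⟩ := Finset.mem_image.mp hs
    exact (hT x hx).1) (by
    intro s hs t ht hst
    obtain ⟨x, hx, rfl⟩ := Finset.mem_image.mp hs
    obtain ⟨y, hy, rfl⟩ := Finset.mem_image.mp ht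
    have hxy : x ≠ y := by rintro rfl; exact lt_irrefl _ hst
    obtain ⟨τ, hτ, g⟩ := hval2 x hx y hy hxy
    rw [uIcc_of_le hst.le] at hτ
    exact ⟨τ, hτ, g⟩)
  rw [hcard] at this
  omega

end Q65.PMC
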