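import Pool.Agent.Q65.PMCb

/-! Walks through the cells of a grid, given as lists of straight blocks, built by depth first
search going straight on first; at most as many horizontal (vertical) blocks as cells. -/

set_option autoImplicit false

open Set

namespace Q65.PMC

abbrev Blk := Bool × ℤ

/-- displacement of a block -/
def mv (b : Blk) : Cell := b.2 • e b.1

/-- total displacement -/
def tot (l : List Blk) : Cell := (l.map mv).sum

lemma tot_nil : tot [] = 0 := rfl
lemma tot_cons (b : Blk) (l : List Blk) : tot (b :: l) = mv b + tot l := by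
  simp [tot]
lemma tot_append (l l' : List Blk) : tot (l ++ l') = tot l + tot l' := by
  simp [tot]

/-- visited cells -/
def VB : List Blk → Cell → Set Cell
  | [], u => {u}
  | (b :: l), u =>
    {w | ∃ j : ℤ, min 0 b.2 ≤ j ∧ j ≤ max 0 b.2 ∧ w = u + j • e b.1} ∪ VB l (u + mv b)

lemma VB_self (l : List Blk) (u : Cell) : u ∈ VB l u := by
  cases l with
  | nil => exact rfl
  | cons b l => exact Or.inl ⟨0, min_le_left _ _, le_max_left _ _, by simp⟩

lemma VB_left (l l' : List Blk) (u : Cell) : VB l u ⊆ VB (l ++ l') u := by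
  induction l generalizing u with
  | nil =>
    intro w hw
    have : w = u := hw
    subst this
    exact VB_self _ _
  | cons b l ih =>
    intro w hw
    rcases hw with h | h
    · exact Or.inl h
    · exact Or.inr (ih _ h)

lemma VB_right (l l' : List Blk) (u : Cell) : VB l' (u + tot l) ⊆ VB (l ++ l') u := by
  induction l generalizing u with
  | nil => intro w hw; simpa [tot_nil] using hw
  | cons b l ih =>
    intro w hw
    rw [tot_cons, ← add_assoc] at hw
    exact Or.inr (ih _ hw)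

section
variable (E : Bool → Cell → Prop)

/-- validity of a block walk -/
def Ok : List Blk → Cell → Prop
  | [], _ => True
  | (b :: l), u => (∀ j : ℤ, min 0 b.2 ≤ j → j < max 0 b.2 → E b.1 (u + j • e b.1)) ∧ Ok l (u + mv b)

lemma Ok_append (l l' : List Blk) (u : Cell) :
    Ok E (l ++ l') u ↔ Ok E l u ∧ Ok E l' (u + tot l) := by
  induction l generalizing u with
  | nil => simp [Ok, tot_nil]
  | cons b l ih =>
    simp only [List.cons_append, Ok, tot_cons]
    rw [ih, and_assoc, add_assoc]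

lemma mv_add (d : Bool) (m n : ℤ) : mv (d, m) + mv (d, n) = mv (d, m + n) := by
  simp [mv, add_smul]

lemma Ok_merge {d : Bool} {m n : ℤ} (hmn : (0 ≤ m ∧ 0 ≤ n) ∨ (m ≤ 0 ∧ n ≤ 0)) {l1 l2 : List Blk}
    {u : Cell} (h : Ok E (l1 ++ (d, m) :: (d, n) :: l2) u) : Ok E (l1 ++ (d, m + n) :: l2) u := by
  rw [Ok_append] at h ⊢
  obtain ⟨h1, h2, h3, h4⟩ := h
  refine ⟨h1, ?_, ?_⟩
  · intro j hj1 hj2
    simp only at h2 h3 hj1 hj2 ⊢
    rcases hmn with ⟨hm, hn⟩ | ⟨hm, hn⟩
    · rw [min_eq_left (by omega)] at hj1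
      rw [max_eq_right (by omega)] at hj2
      rcases lt_or_ge j m with hjm | hjm
      · exact h2 j (by rw [min_eq_left hm]; exact hj1) (by rw [max_eq_right hm]; exact hjm)
      · have := h3 (j - m) (by rw [min_eq_left hn]; omega) (by rw [max_eq_right hn]; omega)
        have e1 : u + tot l1 + mv (d, m) + (j - m) • e d = u + tot l1 + j • e d := by
          simp only [mv, sub_smul]; abel
        rw [e1] at this; exact this
    · rw [min_eq_right (by omega)] at hj1
      rw [max_eq_left (by omega)] at hj2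
      rcases lt_or_ge j m with hjm | hjm
      · have := h3 (j - m) (by rw [min_eq_right hn]; omega) (by rw [max_eq_left hn]; omega)
        have e1 : u + tot l1 + mv (d, m) + (j - m) • e d = u + tot l1 + j • e d := by
          simp only [mv, sub_smul]; abel
        rw [e1] at this; exact this
      · exact h2 j (by rw [min_eq_right hm]; exact hjm) (by rw [max_eq_left hm]; exact hj2)
  · rw [← mv_add, ← add_assoc]; exact h4

variable {E}

lemma VB_merge0 {d : Bool} {m n : ℤ} (hmn : (0 ≤ m ∧ 0 ≤ n) ∨ (m ≤ 0 ∧ n ≤ 0)) (l2 : List Blk)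
    (u : Cell) : VB ((d, m) :: (d, n) :: l2) u ⊆ VB ((d, m + n) :: l2) u := by
  rintro w (⟨j, h1, h2, rfl⟩ | ⟨j, h1, h2, rfl⟩ | h)
  · left
    refine ⟨j, ?_, ?_, rfl⟩ <;> simp only at h1 h2 ⊢ <;> omega
  · left
    refine ⟨m + j, ?_, ?_, ?_⟩
    · simp only at h1 h2 ⊢; omega
    · simp only at h1 h2 ⊢; omega
    · simp only [mv, add_smul]; abel
  · right
    rw [← mv_add, ← add_assoc]; exact h

lemma VB_mono_right {l l' : List Blk} (h : ∀ u, VB l u ⊆ VB l' u) (l1 : List Blk) (u : Cell) :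
    VB (l1 ++ l) u ⊆ VB (l1 ++ l') u := by
  induction l1 generalizing u with
  | nil => exact h u
  | cons b l1 ih =>
    rintro w (hw | hw)
    · exact Or.inl hw
    · exact Or.inr (ih _ hw)

lemma VB_merge {d : Bool} {m n : ℤ} (hmn : (0 ≤ m ∧ 0 ≤ n) ∨ (m ≤ 0 ∧ n ≤ 0)) (l1 l2 : List Blk)
    (u : Cell) : VB (l1 ++ (d, m) :: (d, n) :: l2) u ⊆ VB (l1 ++ (d, m + n) :: l2) u :=
  VB_mono_right (fun v => VB_merge0 hmn l2 v) l1 u

lemma tot_merge (d : Bool) (m n : ℤ) (l1 l2 : List Blk) :
    tot (l1 ++ (d, m) :: (d, n) :: l2) = tot (l1 ++ (d, m + n) :: l2) := by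
  rw [tot_append, tot_append, tot_cons, tot_cons, tot_cons, ← mv_add, add_assoc]

/-- number of blocks in a direction -/
def cnt (d : Bool) (l : List Blk) : ℕ := l.countP (fun b => b.1 == d)

lemma cnt_nil (d : Bool) : cnt d [] = 0 := rfl
lemma cnt_append (d : Bool) (l l' : List Blk) : cnt d (l ++ l') = cnt d l + cnt d l' :=
  List.countP_append
lemma cnt_cons_self (d : Bool) (m : ℤ) (l : List Blk) : cnt d ((d, m) :: l) = cnt d l + 1 := by
  simp [cnt]
lemma cnt_cons_not (d : Bool) (m : ℤ) (l : List Blk) : cnt (!d) ((d, m) :: l) = cnt (!d) l := by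
  cases d <;> simp [cnt]
lemma cnt_cons_not' (d : Bool) (m : ℤ) (l : List Blk) : cnt d ((!d, m) :: l) = cnt d l := by
  cases d <;> simp [cnt]

variable (E) in
/-- a closed tour at `u` exploring `V ⊆ S` -/
structure Tr (u : Cell) (S V : Finset Cell) (l : List Blk) : Prop where
  ok : Ok E l u
  cl : tot l = 0
  vis : ∀ w ∈ V, w ∈ VB l u
  sub : V ⊆ S
  clo : ∀ w ∈ V, ∀ w' ∈ S, Ed E w w' → w' ∈ V

lemma Tr.nil (u : Cell) (S : Finset Cell) : Tr E u S ∅ [] :=
  ⟨trivial, rfl, fun w hw => by simp at hw, by simp, fun w hw => by simp at hw⟩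

lemma Tr.comb {u : Cell} {S V V' : Finset Cell} {l l' : List Blk} (h : Tr E u S V l)
    (h' : Tr E u (S \ V) V' l') : Tr E u S (V ∪ V') (l ++ l') := by
  refine ⟨?_, ?_, ?_, ?_, ?_⟩
  · rw [Ok_append, h.cl, add_zero]; exact ⟨h.ok, h'.ok⟩
  · rw [tot_append, h.cl, h'.cl, add_zero]
  · intro w hw
    rcases Finset.mem_union.mp hw with hw | hw
    · exact VB_left _ _ _ (h.vis w hw)
    · refine VB_right _ _ _ ?_
      rw [h.cl, add_zero]; exact h'.vis w hw
  · exact Finset.union_subset h.sub (h'.sub.trans Finset.sdiff_subset)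
  · intro w hw w' hw' hE
    by_cases hV : w' ∈ V
    · exact Finset.mem_union_left _ hV
    rcases Finset.mem_union.mp hw with hw | hw
    · exact Finset.mem_union_left _ (h.clo w hw w' hw' hE)
    · exact Finset.mem_union_right _ (h'.clo w hw w' (Finset.mem_sdiff.mpr ⟨hw', hV⟩) hE)

/-- an admissible step to a neighbour is a block of length one -/
lemma Ed_iff {u w : Cell} : Ed E u w ↔ ∃ d : Bool, ∃ σ : ℤ, (σ = 1 ∨ σ = -1) ∧ w = u + σ • e d ∧
    Ok E [(d, σ)] u := by
  constructor
  · rintro ⟨d, ⟨rfl, h⟩ | ⟨rfl, h⟩⟩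
    · refine ⟨d, 1, Or.inl rfl, by simp, ?_, trivial⟩
      intro j h1 h2
      have : j = 0 := by simp at h1 h2; omega
      subst this; simpa using h
    · refine ⟨d, -1, Or.inr rfl, by simp [sub_eq_add_neg], ?_, trivial⟩
      intro j h1 h2
      have : j = -1 := by simp at h1 h2; omega
      subst this; simpa [sub_eq_add_neg] using h
  · rintro ⟨d, σ, rfl | rfl, rfl, h, -⟩
    · exact ⟨d, Or.inl ⟨by simp, by simpa using h 0 (by simp) (by simp)⟩⟩
    · exact ⟨d, Or.inr ⟨by simp [sub_eq_add_neg], by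
        simpa using h (-1) (by simp) (by simp)⟩⟩

lemma Ok_back {u : Cell} {d : Bool} {σ : ℤ} (h : Ok E [(d, σ)] u) :
    Ok E [(d, -σ)] (u + σ • e d) := by
  refine ⟨?_, trivial⟩
  intro j h1 h2
  simp only at h1 h2 ⊢
  have := h.1 (σ + j) (by simp only; omega) (by simp only; omega)
  simp only at this
  rw [add_smul, ← add_assoc] at this
  exact this

variable (E) in
/-- the exploration statement for sets of at most `n` cells -/
def Exp (n : ℕ) : Prop :=
  ∀ S : Finset Cell, S.card ≤ n → ∀ (p : Cell) (d : Bool) (σ : ℤ), (σ = 1 ∨ σ = -1) →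
    Ok E [(d, σ)] p → p + σ • e d ∈ S → p ∉ S →
    ∃ (V : Finset Cell) (M : List Blk) (a b : ℤ), 1 ≤ a ∧ 1 ≤ b ∧
      Tr E p S V ((d, σ * a) :: (M ++ [(d, -(σ * b))])) ∧ p + σ • e d ∈ V ∧
      cnt d M + 1 ≤ V.card ∧ cnt (!d) M ≤ V.card

lemma side {n : ℕ} (hn : Exp E n) (u : Cell) (d : Bool) (S : Finset Cell) (hS : S.card ≤ n)
    (hu : u ∉ S) : ∃ (V : Finset Cell) (X : List Blk), Tr E u S V X ∧
      (∀ σ : ℤ, (σ = 1 ∨ σ = -1) → Ok E [(d, σ)] u → u + σ • e d ∈ S → u + σ • e d ∈ V) ∧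
      cnt d X ≤ V.card + 1 ∧ cnt (!d) X ≤ V.card := by
  classical
  by_cases h1 : Ok E [(d, 1)] u ∧ u + (1:ℤ) • e d ∈ S
  · obtain ⟨V, M, a, b, ha, hb, hT, hV, hc, hc'⟩ := hn S hS u d 1 (Or.inl rfl) h1.1 h1.2 hu
    by_cases h2 : Ok E [(d, -1)] u ∧ u + (-1:ℤ) • e d ∈ S \ V
    · obtain ⟨V', M', a', b', ha', hb', hT', hV', hd, hd'⟩ := hn (S \ V)
        ((Finset.card_le_card Finset.sdiff_subset).trans hS) u d (-1) (Or.inr rfl) h2.1 h2.2
        (fun h => hu (Finset.mem_sdiff.mp h).1)
      have hC := hT.comb hT'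
      have hdis : Disjoint V V' := by
        rw [Finset.disjoint_left]
        intro w hw hw'
        exact (Finset.mem_sdiff.mp (hT'.sub hw')).2 hw
      have hcard : (V ∪ V').card = V.card + V'.card := Finset.card_union_of_disjoint hdis
      have e1 : ((d, (1:ℤ) * a) :: (M ++ [(d, -((1:ℤ) * b))])) ++
          ((d, (-1:ℤ) * a') :: (M' ++ [(d, -((-1:ℤ) * b'))])) =
          ((d, a) :: M) ++ (d, -b) :: (d, -a') :: (M' ++ [(d, b')]) := by
        simp
      rw [e1] at hC
      have hs : (0 ≤ -b ∧ 0 ≤ -a') ∨ (-b ≤ 0 ∧ -a' ≤ 0) := Or.inr ⟨by omega, by omega⟩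
      refine ⟨V ∪ V', ((d, a) :: M) ++ (d, -b + -a') :: (M' ++ [(d, b')]), ⟨Ok_merge E hs hC.ok, ?_,
        fun w hw => VB_merge hs _ _ _ (hC.vis w hw), hC.sub, hC.clo⟩, ?_, ?_, ?_⟩
      · rw [← tot_merge]; exact hC.cl
      · rintro σ (rfl | rfl) - -
        · exact Finset.mem_union_left _ hV
        · exact Finset.mem_union_right _ hV'
      · rw [cnt_append, cnt_cons_self, cnt_cons_self, cnt_append, cnt_cons_self, cnt_nil, hcard]
        omega
      · rw [cnt_append, cnt_cons_not, cnt_cons_not, cnt_append, cnt_cons_not, cnt_nil, hcard]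
        omega
    · refine ⟨V, _, hT, ?_, ?_, ?_⟩
      · rintro σ (rfl | rfl) hO hS'
        · exact hV
        · by_contra hcon
          exact h2 ⟨hO, Finset.mem_sdiff.mpr ⟨hS', hcon⟩⟩
      · rw [cnt_cons_self, cnt_append, cnt_cons_self, cnt_nil]; omega
      · rw [cnt_cons_not, cnt_append, cnt_cons_not, cnt_nil]; omega
  · by_cases h2 : Ok E [(d, -1)] u ∧ u + (-1:ℤ) • e d ∈ S
    · obtain ⟨V, M, a, b, ha, hb, hT, hV, hc, hc'⟩ := hn S hS u d (-1) (Or.inr rfl) h2.1 h2.2 hu
      refine ⟨V, _, hT, ?_, ?_, ?_⟩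
      · rintro σ (rfl | rfl) hO hS'
        · exact absurd ⟨hO, hS'⟩ h1
        · exact hV
      · rw [cnt_cons_self, cnt_append, cnt_cons_self, cnt_nil]; omega
      · rw [cnt_cons_not, cnt_append, cnt_cons_not, cnt_nil]; omega
    · refine ⟨∅, [], Tr.nil u S, ?_, by simp [cnt_nil], by simp [cnt_nil]⟩
      rintro σ (rfl | rfl) hO hS'
      · exact absurd ⟨hO, hS'⟩ h1
      · exact absurd ⟨hO, hS'⟩ h2

lemma Tr.wrap {p : Cell} {d : Bool} {σ : ℤ} {S V : Finset Cell} {l : List Blk}
    (hp : Ok E [(d, σ)] p) (hpS : p ∉ S) (huS : p + σ • e d ∈ S) (hσ : σ = 1 ∨ σ = -1)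
    (h : Tr E (p + σ • e d) (S.erase (p + σ • e d)) V l)
    (hnb : ∀ w, w ∈ S.erase (p + σ • e d) → Ed E (p + σ • e d) w → w ∈ V) :
    Tr E p S (insert (p + σ • e d) V) ((d, σ) :: (l ++ [(d, -σ)])) := by
  classical
  set u := p + σ • e d with hu
  have hmv : p + mv (d, σ) = u := rfl
  refine ⟨?_, ?_, ?_, ?_, ?_⟩
  · refine ⟨hp.1, ?_⟩
    rw [hmv, Ok_append, h.cl, add_zero]
    exact ⟨h.ok, Ok_back hp⟩
  · rw [tot_cons, tot_append, h.cl, zero_add, tot_cons, tot_nil, add_zero]
    simp [mv]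
  · intro w hw
    rcases Finset.mem_insert.mp hw with rfl | hw
    · right; rw [hmv]; exact VB_self _ _
    · right; rw [hmv]; exact VB_left _ _ _ (h.vis w hw)
  · exact Finset.insert_subset huS (h.sub.trans (Finset.erase_subset _ _))
  · intro w hw w' hw' hE
    by_cases hw'u : w' = u
    · rw [hw'u]; exact Finset.mem_insert_self _ _
    have hw'' : w' ∈ S.erase u := Finset.mem_erase.mpr ⟨hw'u, hw'⟩
    rcases Finset.mem_insert.mp hw with rfl | hw
    · exact Finset.mem_insert_of_mem (hnb w' hw'' hE)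
    · exact Finset.mem_insert_of_mem (h.clo w hw w' hw'' hE)

lemma exp_all : ∀ n : ℕ, Exp E n := by
  classical
  intro n
  induction n with
  | zero =>
    intro S hS p d σ _ _ hm _
    have : S = ∅ := Finset.card_eq_zero.mp (by omega)
    rw [this] at hm; simp at hm
  | succ n ih =>
    intro S hS p d σ hσ hp hm hpS
    set u := p + σ • e d with hu
    have hcardE : (S.erase u).card ≤ n := by
      have := Finset.card_erase_of_mem hm; omega
    have huE : u ∉ S.erase u := Finset.notMem_erase u S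
    -- neighbours of `u`
    have hnbr : ∀ V : Finset Cell, (Ok E [(d, σ)] u → u + σ • e d ∈ S.erase u → u + σ • e d ∈ V) →
        (∀ τ : ℤ, (τ = 1 ∨ τ = -1) → Ok E [(!d, τ)] u → u + τ • e (!d) ∈ S.erase u →
          u + τ • e (!d) ∈ V) → ∀ w, w ∈ S.erase u → Ed E u w → w ∈ V := by
      intro V hV1 hV2 w hw hE
      obtain ⟨d', τ, hτ, rfl, hO⟩ := Ed_iff.mp hE
      by_cases hdd : d' = d
      · subst hdd
        by_cases hτσ : τ = σ
        · subst hτσ; exact hV1 hO hw
        · exfalso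
          have e1 : τ = -σ := by omega
          rw [e1] at hw
          have e2 : u + (-σ) • e d' = p := by rw [hu, neg_smul]; abel
          rw [e2] at hw
          exact hpS (Finset.mem_of_mem_erase hw)
      · have hd' : d' = !d := by cases d <;> cases d' <;> simp_all
        subst hd'
        exact hV2 τ hτ hO hw
    by_cases h1 : Ok E [(d, σ)] u ∧ u + σ • e d ∈ S.erase u
    · obtain ⟨V1, M1, a1, b1, ha1, hb1, hT1, hV1, hc1, hc1'⟩ := ih (S.erase u) hcardE u d σ hσ h1.1 h1.2
        huE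
      obtain ⟨Vx, X, hTx, hnx, hcx, hcx'⟩ := side ih u (!d) (S.erase u \ V1)
        ((Finset.card_le_card Finset.sdiff_subset).trans hcardE)
        (fun h => huE (Finset.mem_sdiff.mp h).1)
      rw [Bool.not_not] at hcx'
      have hC := hT1.comb hTx
      have hW := hC.wrap hp hpS hm hσ (hnbr _ (fun _ _ => Finset.mem_union_left _ hV1)
        (fun τ hτ hO hw => by
          by_cases hin : u + τ • e (!d) ∈ V1
          · exact Finset.mem_union_left _ hin
          · exact Finset.mem_union_right _ (hnx τ hτ hO (Finset.mem_sdiff.mpr ⟨hw, hin⟩))))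
      have hdis : Disjoint V1 Vx := by
        rw [Finset.disjoint_left]
        intro w hw hw'
        exact (Finset.mem_sdiff.mp (hTx.sub hw')).2 hw
      have hnot : u ∉ V1 ∪ Vx := by
        intro h
        exact huE (hC.sub h)
      have hcard : (insert u (V1 ∪ Vx)).card = V1.card + Vx.card + 1 := by
        rw [Finset.card_insert_of_notMem hnot, Finset.card_union_of_disjoint hdis]
      have e1 : ((d, σ) :: ((((d, σ * a1) :: (M1 ++ [(d, -(σ * b1))])) ++ X) ++ [(d, -σ)]) : List Blk)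
          = [] ++ (d, σ) :: (d, σ * a1) :: ((M1 ++ (d, -(σ * b1)) :: X) ++ [(d, -σ)]) := by
        simp
      rw [e1] at hW
      have hs : (0 ≤ σ ∧ 0 ≤ σ * a1) ∨ (σ ≤ 0 ∧ σ * a1 ≤ 0) := by
        rcases hσ with rfl | rfl
        · left; omega
        · right; omega
      refine ⟨insert u (V1 ∪ Vx), M1 ++ (d, -(σ * b1)) :: X, a1 + 1, 1, by omega, le_rfl, ?_,
        Finset.mem_insert_self _ _, ?_, ?_⟩
      · have e2 : σ + σ * a1 = σ * (a1 + 1) := by ring
        refine ⟨?_, ?_, ?_, hW.sub, hW.clo⟩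
        · have := Ok_merge E hs hW.ok
          rw [e2, List.nil_append] at this
          rw [mul_one]; exact this
        · have := hW.cl
          rw [tot_merge, e2, List.nil_append] at this
          rw [mul_one]; exact this
        · intro w hw
          have := VB_merge hs _ _ _ (hW.vis w hw)
          rw [e2, List.nil_append] at this
          rw [mul_one]; exact this
      · rw [cnt_append, cnt_cons_self, hcard]; omega
      · rw [cnt_append, cnt_cons_not, hcard]; omega
    · obtain ⟨Vx, X, hTx, hnx, hcx, hcx'⟩ := side ih u (!d) (S.erase u) hcardE huE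
      rw [Bool.not_not] at hcx'
      have hW := hTx.wrap hp hpS hm hσ (hnbr _ (fun hO hw => absurd ⟨hO, hw⟩ h1)
        (fun τ hτ hO hw => hnx τ hτ hO hw))
      have hnot : u ∉ Vx := fun h => huE (hTx.sub h)
      have hcard : (insert u Vx).card = Vx.card + 1 := Finset.card_insert_of_notMem hnot
      refine ⟨insert u Vx, X, 1, 1, le_rfl, le_rfl, ?_, Finset.mem_insert_self _ _, ?_, ?_⟩
      · rw [mul_one]; exact hW
      · rw [hcard]; omega
      · rw [hcard]; omega

/-- the walk: few blocks in each direction, closed visited set -/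
theorem exists_blocks (Q : Finset Cell) (hE : ∀ d u, E d u → u ∈ Q ∧ u + e d ∈ Q) {u0 : Cell}
    (hu0 : u0 ∈ Q) : ∃ (l : List Blk) (U : Finset Cell), Ok E l u0 ∧ u0 ∈ U ∧ U ⊆ Q ∧
      (∀ w ∈ U, w ∈ VB l u0) ∧ (∀ w ∈ U, ∀ w', Ed E w w' → w' ∈ U) ∧ ∀ d, cnt d l ≤ Q.card := by
  classical
  have hn : u0 ∉ Q.erase u0 := Finset.notMem_erase u0 Q
  obtain ⟨V1, X1, hT1, hn1, hc1, hc1'⟩ := side (exp_all (E := E) (Q.erase u0).card) u0 true
    (Q.erase u0) le_rfl hn
  obtain ⟨V2, X2, hT2, hn2, hc2, hc2'⟩ := side (exp_all (E := E) (Q.erase u0).card) u0 false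
    (Q.erase u0 \ V1) (Finset.card_le_card Finset.sdiff_subset)
    (fun h => hn (Finset.mem_sdiff.mp h).1)
  simp only [Bool.not_true] at hc1'
  simp only [Bool.not_false] at hc2'
  have hC := hT1.comb hT2
  have hdis : Disjoint V1 V2 := by
    rw [Finset.disjoint_left]
    intro w hw hw'
    exact (Finset.mem_sdiff.mp (hT2.sub hw')).2 hw
  have hcardU : (V1 ∪ V2).card = V1.card + V2.card := Finset.card_union_of_disjoint hdis
  have hcard : V1.card + V2.card + 1 ≤ Q.card := by
    have h1 := Finset.card_le_card hC.sub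
    have h2 := Finset.card_erase_of_mem hu0
    have h3 : 0 < Q.card := Finset.card_pos.mpr ⟨u0, hu0⟩
    omega
  refine ⟨X1 ++ X2, insert u0 (V1 ∪ V2), hC.ok, Finset.mem_insert_self _ _, ?_, ?_, ?_, ?_⟩
  · exact Finset.insert_subset hu0 (hC.sub.trans (Finset.erase_subset _ _))
  · intro w hw
    rcases Finset.mem_insert.mp hw with rfl | hw
    · exact VB_self _ _
    · exact hC.vis w hw
  · intro w hw w' hEd
    by_cases hw' : w' = u0
    · rw [hw']; exact Finset.mem_insert_self _ _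
    have hw'Q : w' ∈ Q := by
      obtain ⟨d, ⟨rfl, h⟩ | ⟨rfl, h⟩⟩ := hEd
      · exact (hE d _ h).2
      · exact (hE d _ h).1
    have hw'' : w' ∈ Q.erase u0 := Finset.mem_erase.mpr ⟨hw', hw'Q⟩
    rcases Finset.mem_insert.mp hw with rfl | hw
    · refine Finset.mem_insert_of_mem ?_
      obtain ⟨d, τ, hτ, rfl, hO⟩ := Ed_iff.mp hEd
      cases d with
      | true => exact Finset.mem_union_left _ (hn1 τ hτ hO hw'')
      | false =>
        by_cases hin : w + τ • e false ∈ V1
        · exact Finset.mem_union_left _ hin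
        · exact Finset.mem_union_right _ (hn2 τ hτ hO (Finset.mem_sdiff.mpr ⟨hw'', hin⟩))
    · exact Finset.mem_insert_of_mem (hC.clo w hw w' hw'' hEd)
  · intro d
    rw [cnt_append]
    cases d with
    | true => omega
    | false => omega

end

end Q65.PMC
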