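import Mathlib

/-! Sums of scaled truncated powers: smoothness and the spline property. -/

set_option autoImplicit false

open Set

namespace Q65.PMC

lemma hasDerivAt_tp (n : ℕ) (t : ℝ) :
    HasDerivAt (fun x : ℝ => (max 0 x) ^ (n + 2)) (((n:ℝ) + 2) * (max 0 t) ^ (n + 1)) t := by
  have hR : ∀ t : ℝ, 0 ≤ t → HasDerivWithinAt (fun x : ℝ => (max 0 x) ^ (n + 2))
      (((n:ℝ) + 2) * (max 0 t) ^ (n + 1)) (Ici 0) t := by
    intro t ht
    have h1 : HasDerivWithinAt (fun x : ℝ => x ^ (n + 2)) (((n:ℝ) + 2) * (max 0 t) ^ (n + 1))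
        (Ici 0) t := by
      have := (hasDerivAt_pow (n + 2) t).hasDerivWithinAt (s := Ici 0)
      rw [max_eq_right ht]
      have e : ((n + 2 : ℕ) : ℝ) * t ^ (n + 2 - 1) = ((n:ℝ) + 2) * t ^ (n + 1) := by
        push_cast; rfl
      rw [e] at this
      exact this
    refine h1.congr (fun x hx => ?_) ?_
    · rw [max_eq_right (show (0:ℝ) ≤ x from hx)]
    · rw [max_eq_right ht]
  have hL : ∀ t : ℝ, t ≤ 0 → HasDerivWithinAt (fun x : ℝ => (max 0 x) ^ (n + 2))
      (((n:ℝ) + 2) * (max 0 t) ^ (n + 1)) (Iic 0) t := by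
    intro t ht
    have h1 : HasDerivWithinAt (fun _ : ℝ => (0:ℝ)) (((n:ℝ) + 2) * (max 0 t) ^ (n + 1))
        (Iic 0) t := by
      rw [max_eq_left ht]
      simpa using hasDerivWithinAt_const t (Iic 0) (0:ℝ)
    refine h1.congr (fun x hx => ?_) ?_
    · rw [max_eq_left (show x ≤ (0:ℝ) from hx)]; simp
    · rw [max_eq_left ht]; simp
  rcases lt_trichotomy t 0 with h | h | h
  · exact (hL t h.le).hasDerivAt (Iic_mem_nhds h)
  · have h1 := (hL t h.le).union (hR t h.ge)
    rw [Iic_union_Ici] at h1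
    exact hasDerivWithinAt_univ.mp h1
  · exact (hR t h.le).hasDerivAt (Ici_mem_nhds h)

lemma contDiff_tp (n : ℕ) : ContDiff ℝ n (fun x : ℝ => (max 0 x) ^ (n + 1)) := by
  induction n with
  | zero =>
    simp only [Nat.cast_zero, zero_add, pow_one]
    exact contDiff_zero.mpr (continuous_const.max continuous_id)
  | succ n ih =>
    have h := hasDerivAt_tp n
    push_cast
    rw [contDiff_succ_iff_deriv]
    refine ⟨fun t => (h t).differentiableAt, ?_, ?_⟩
    · intro hn
      exact absurd hn (by simp)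
    · have : deriv (fun x : ℝ => (max 0 x) ^ (n + 1 + 1)) =
          fun t => ((n:ℝ) + 2) * (max 0 t) ^ (n + 1) := by
        funext t; exact (h t).deriv
      rw [this]
      exact contDiff_const.mul ih

/-- `f` is a polynomial of degree at most `k` on every closed interval whose interior avoids `Z` -/
def PPS (k : ℕ) (f : ℝ → ℝ) (Z : Finset ℝ) : Prop :=
  ∀ u v : ℝ, u ≤ v → (∀ z ∈ Z, z ≤ u ∨ v ≤ z) →
    ∃ p : Polynomial ℝ, p.natDegree ≤ k ∧ ∀ x ∈ Icc u v, f x = p.eval x

lemma PPS.add {k : ℕ} {f g : ℝ → ℝ} {Z W : Finset ℝ} [DecidableEq ℝ] (hf : PPS k f Z)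
    (hg : PPS k g W) : PPS k (fun x => f x + g x) (Z ∪ W) := by
  intro u v huv h
  obtain ⟨p, hp, hp'⟩ := hf u v huv (fun z hz => h z (Finset.mem_union_left _ hz))
  obtain ⟨r, hr, hr'⟩ := hg u v huv (fun z hz => h z (Finset.mem_union_right _ hz))
  refine ⟨p + r, (Polynomial.natDegree_add_le _ _).trans (max_le hp hr), ?_⟩
  intro x hx
  show f x + g x = _
  rw [Polynomial.eval_add, hp' x hx, hr' x hx]

lemma PPS.smul {k : ℕ} {f : ℝ → ℝ} {Z : Finset ℝ} (c : ℝ) (hf : PPS k f Z) :
    PPS k (fun x => c * f x) Z := by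
  intro u v huv h
  obtain ⟨p, hp, hp'⟩ := hf u v huv h
  refine ⟨Polynomial.C c * p, (Polynomial.natDegree_C_mul_le c p).trans hp, ?_⟩
  intro x hx
  simp [hp' x hx]

lemma PPS.const {k : ℕ} (c : ℝ) (Z : Finset ℝ) : PPS k (fun _ => c) Z :=
  fun _ _ _ _ => ⟨Polynomial.C c, by simp, by simp⟩

lemma PPS.tp {k : ℕ} (hk : 1 ≤ k) (c : ℝ) : PPS k (fun t => (max 0 t / c) ^ k) {0} := by
  intro u v huv h
  rcases h 0 (Finset.mem_singleton_self 0) with h | h
  · refine ⟨(Polynomial.C (1 / c) * Polynomial.X) ^ k, ?_, ?_⟩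
    · refine (Polynomial.natDegree_pow_le).trans ?_
      have : (Polynomial.C (1 / c) * Polynomial.X).natDegree ≤ 1 :=
        (Polynomial.natDegree_C_mul_le _ _).trans (by simp)
      nlinarith
    · intro x hx
      show (max 0 x / c) ^ k = _
      rw [max_eq_right (h.trans hx.1)]
      simp only [Polynomial.eval_pow, Polynomial.eval_mul, Polynomial.eval_C, Polynomial.eval_X]
      congr 1; ring
  · refine ⟨0, by simp, ?_⟩
    intro x hx
    show (max 0 x / c) ^ k = _
    rw [max_eq_left (hx.2.trans h), zero_div, zero_pow (by omega)]; simp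

lemma PPS.comp {k : ℕ} {f : ℝ → ℝ} {Z : Finset ℝ} [DecidableEq ℝ] (hf : PPS k f Z) {r : ℝ}
    (hr : 0 < r) : PPS k (fun t => f (1 - (1 - t) / r)) (Z.image (fun z => 1 - r * (1 - z))) := by
  intro u v huv h
  have hmono : ∀ x y : ℝ, x ≤ y → 1 - (1 - x) / r ≤ 1 - (1 - y) / r := by
    intro x y hxy
    have : (1 - y) / r ≤ (1 - x) / r := div_le_div_of_nonneg_right (by linarith) hr.le
    linarith
  obtain ⟨p, hp, hp'⟩ := hf (1 - (1 - u) / r) (1 - (1 - v) / r) (hmono _ _ huv) (by
    intro z hz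
    rcases h _ (Finset.mem_image_of_mem _ hz) with h | h
    · left
      have h1 : (1 - u) / r ≤ 1 - z := by
        rw [div_le_iff₀ hr]; linarith
      linarith
    · right
      have h1 : 1 - z ≤ (1 - v) / r := by
        rw [le_div_iff₀ hr]; linarith
      linarith)
  refine ⟨p.comp (Polynomial.C (1 - 1 / r) + Polynomial.C (1 / r) * Polynomial.X), ?_, ?_⟩
  · refine Polynomial.natDegree_comp_le.trans ?_
    have : (Polynomial.C (1 - 1 / r) + Polynomial.C (1 / r) * Polynomial.X).natDegree ≤ 1 := by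
      refine (Polynomial.natDegree_add_le _ _).trans (max_le (by simp) ?_)
      exact (Polynomial.natDegree_C_mul_le _ _).trans (by simp)
    calc _ ≤ p.natDegree * 1 := Nat.mul_le_mul_left _ this
      _ ≤ k := by omega
  · intro x hx
    show f (1 - (1 - x) / r) = _
    rw [hp' _ ⟨hmono _ _ hx.1, hmono _ _ hx.2⟩, Polynomial.eval_comp]
    congr 1
    simp only [Polynomial.eval_add, Polynomial.eval_mul, Polynomial.eval_C, Polynomial.eval_X]
    ring

/-- superposition of truncated powers with geometrically shrinking knots `1 - r ^ i` -/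
noncomputable def pk (k : ℕ) (r : ℝ) : List ℝ → ℝ → ℝ
  | [], _ => 0
  | x :: l, t => x * (max 0 t / (1 - r)) ^ k + pk k r l (1 - (1 - t) / r)

lemma pk_nonpos {k : ℕ} (hk : 1 ≤ k) {r : ℝ} (hr : 0 < r) (hr1 : r < 1) :
    ∀ (l : List ℝ) (t : ℝ), t ≤ 0 → pk k r l t = 0 := by
  intro l
  induction l with
  | nil => intro t _; rfl
  | cons x l ih =>
    intro t ht
    have h1 : 1 - (1 - t) / r ≤ 0 := by
      have : 1 ≤ (1 - t) / r := by rw [le_div_iff₀ hr]; linarith
      linarith
    show x * (max 0 t / (1 - r)) ^ k + pk k r l (1 - (1 - t) / r) = 0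
    rw [ih _ h1, max_eq_left ht, zero_div, zero_pow (by omega)]; ring

lemma pk_contDiff (n : ℕ) {r : ℝ} : ∀ l : List ℝ, ContDiff ℝ n (pk (n + 1) r l) := by
  intro l
  induction l with
  | nil => exact contDiff_const
  | cons x l ih =>
    have h1 : ContDiff ℝ n (fun t : ℝ => x * (max 0 t / (1 - r)) ^ (n + 1)) := by
      have e : (fun t : ℝ => x * (max 0 t / (1 - r)) ^ (n + 1)) =
          fun t : ℝ => (x * (1 / (1 - r)) ^ (n + 1)) * (max 0 t) ^ (n + 1) := by
        funext t; rw [div_eq_mul_one_div, mul_pow]; ring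
      rw [e]
      exact contDiff_const.mul (contDiff_tp n)
    have h2 : ContDiff ℝ n (fun t : ℝ => pk (n + 1) r l (1 - (1 - t) / r)) := by
      refine ih.comp ?_
      exact contDiff_const.sub ((contDiff_const.sub contDiff_id).div_const r)
    exact h1.add h2

lemma pk_PPS {k : ℕ} (hk : 1 ≤ k) {r : ℝ} (hr : 0 < r) : ∀ l : List ℝ,
    ∃ Z : Finset ℝ, Z.card ≤ (l.filter (fun x => x ≠ 0)).length ∧ PPS k (pk k r l) Z := by
  classical
  intro l
  induction l with
  | nil => exact ⟨∅, by simp, PPS.const 0 ∅⟩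
  | cons x l ih =>
    obtain ⟨Z, hZ, hP⟩ := ih
    have h2 := hP.comp hr
    by_cases hx : x = 0
    · refine ⟨Z.image (fun z => 1 - r * (1 - z)), ?_, ?_⟩
      · refine Finset.card_image_le.trans (hZ.trans ?_)
        rw [List.filter_cons]; simp [hx]
      · have e : pk k r (x :: l) = fun t => pk k r l (1 - (1 - t) / r) := by
          funext t
          show x * (max 0 t / (1 - r)) ^ k + _ = _
          rw [hx]; ring
        rw [e]; exact h2
    · refine ⟨{0} ∪ Z.image (fun z => 1 - r * (1 - z)), ?_, ?_⟩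
      · refine (Finset.card_union_le _ _).trans ?_
        rw [List.filter_cons]
        simp only [ne_eq, hx, not_false_eq_true, decide_true, if_true, List.length_cons,
          Finset.card_singleton]
        have := Finset.card_image_le (s := Z) (f := fun z => 1 - r * (1 - z))
        simp only [ne_eq] at hZ
        omega
      · exact ((PPS.tp hk (1 - r)).smul x).add h2

/-- knots -/
lemma PPS.partition {k : ℕ} {f : ℝ → ℝ} {Z : Finset ℝ} (hf : PPS k f Z) {n : ℕ}
    (hn : Z.card + 1 ≤ n) : ∃ t : ℕ → ℝ, t 0 = 0 ∧ t n = 1 ∧ (∀ i < n, t i < t (i + 1)) ∧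
      ∀ i < n, ∃ p : Polynomial ℝ, p.natDegree ≤ k ∧ ∀ x ∈ Icc (t i) (t (i + 1)), f x = p.eval x := by
  classical
  obtain ⟨m, rfl⟩ : ∃ m, n = m + 1 := ⟨n - 1, by omega⟩
  -- enlarge the set of knots
  set Z0 := Z.filter (fun z => z ∈ Ioo (0:ℝ) 1) with hZ0
  have hZ0c : Z0.card ≤ m := (Finset.card_filter_le _ _).trans (by omega)
  obtain ⟨W, hW1, hW2, hW3⟩ : ∃ W : Finset ℝ, Z0 ⊆ W ∧ (∀ z ∈ W, z ∈ Ioo (0:ℝ) 1) ∧ W.card = m := by
    have hinf : (Ioo (0:ℝ) 1 \ (Z0 : Set ℝ)).Infinite :=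
      (Ioo_infinite one_pos).sdiff Z0.finite_toSet
    obtain ⟨A, hA1, hA2⟩ := hinf.exists_subset_card_eq (m - Z0.card)
    refine ⟨Z0 ∪ A, Finset.subset_union_left, ?_, ?_⟩
    · intro z hz
      rcases Finset.mem_union.mp hz with hz | hz
      · exact (Finset.mem_filter.mp hz).2
      · exact (hA1 hz).1
    · rw [Finset.card_union_of_disjoint, hA2]
      · omega
      · rw [Finset.disjoint_left]
        intro z hz hz'
        exact (hA1 hz').2 hz
  have h1W : (1:ℝ) ∉ W := fun h => lt_irrefl _ (hW2 1 h).2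
  have h0W : (0:ℝ) ∉ insert (1:ℝ) W := by
    intro h
    rcases Finset.mem_insert.mp h with h | h
    · norm_num at h
    · exact lt_irrefl _ (hW2 0 h).1
  set T : Finset ℝ := insert 0 (insert 1 W) with hT
  have hTc : T.card = m + 2 := by
    rw [hT, Finset.card_insert_of_notMem h0W, Finset.card_insert_of_notMem h1W, hW3]
  have hT01 : ∀ z ∈ T, 0 ≤ z ∧ z ≤ 1 := by
    intro z hz
    rcases Finset.mem_insert.mp hz with rfl | hz
    · exact ⟨le_rfl, zero_le_one⟩
    rcases Finset.mem_insert.mp hz with rfl | hz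
    · exact ⟨zero_le_one, le_rfl⟩
    · exact ⟨(hW2 z hz).1.le, (hW2 z hz).2.le⟩
  set em := T.orderEmbOfFin hTc with hem
  have hrange : ∀ z ∈ T, ∃ j, em j = z := by
    intro z hz
    have : z ∈ Set.range em := by rw [hem, Finset.range_orderEmbOfFin]; exact hz
    exact this
  have hemT : ∀ j, em j ∈ T := fun j => Finset.orderEmbOfFin_mem T hTc j
  refine ⟨fun i => if h : i < m + 2 then em ⟨i, h⟩ else 0, ?_, ?_, ?_, ?_⟩
  · simp only [show 0 < m + 2 by omega, dif_pos]
    obtain ⟨j, hj⟩ := hrange 0 (Finset.mem_insert_self _ _)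
    refine le_antisymm ?_ (hT01 _ (hemT _)).1
    rw [← hj]
    exact em.monotone (Fin.mk_le_of_le_val (Nat.zero_le _))
  · simp only [show m + 1 < m + 2 by omega, dif_pos]
    obtain ⟨j, hj⟩ := hrange 1 (Finset.mem_insert_of_mem (Finset.mem_insert_self _ _))
    refine le_antisymm (hT01 _ (hemT _)).2 ?_
    rw [← hj]
    refine em.monotone ?_
    rw [Fin.le_def]
    have := j.2
    simp only; omega
  · intro i hi
    simp only [show i < m + 2 by omega, show i + 1 < m + 2 by omega, dif_pos]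
    exact em.strictMono (by rw [Fin.lt_def]; simp)
  · intro i hi
    simp only [show i < m + 2 by omega, show i + 1 < m + 2 by omega, dif_pos]
    refine hf _ _ (em.monotone (by rw [Fin.le_def]; simp)) ?_
    intro z hz
    by_cases hz01 : z ∈ Ioo (0:ℝ) 1
    · have hzT : z ∈ T := Finset.mem_insert_of_mem (Finset.mem_insert_of_mem
        (hW1 (Finset.mem_filter.mpr ⟨hz, hz01⟩)))
      obtain ⟨j, hj⟩ := hrange z hzT
      rcases Nat.lt_or_ge i j.1 with h | h
      · right; rw [← hj]; exact em.monotone (by rw [Fin.le_def]; simp only; omega)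
      · left; rw [← hj]; exact em.monotone (by rw [Fin.le_def]; simp only; omega)
    · rcases le_or_gt z 0 with h | h
      · left; exact h.trans (hT01 _ (hemT _)).1
      · right
        refine (hT01 _ (hemT _)).2.trans ?_
        by_contra hcon
        push Not at hcon
        exact hz01 ⟨h, hcon⟩

end Q65.PMC
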