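import Pool.Agent.Q65.PMCc
import Pool.Agent.Q65.PMCe
import Pool.Agent.Q65.PMCf

/-! Upper bound: approximation of plane continua by spline curves with free knots. -/

set_option autoImplicit false

open Set Metric Filter Topology

namespace Q65.PMC

/-- free knot splines of degree `k` with `n` pieces on `[0,1]`, globally `C^{k-1}` -/
def Spl (k n : ℕ) (f : ℝ → ℝ) : Prop :=
  ContDiff ℝ ((k - 1 : ℕ) : ℕ∞) f ∧ ∃ t : ℕ → ℝ, t 0 = 0 ∧ t n = 1 ∧ (∀ i < n, t i < t (i + 1)) ∧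
    ∀ i < n, ∃ p : Polynomial ℝ, p.natDegree ≤ k ∧ ∀ x ∈ Icc (t i) (t (i + 1)), f x = p.eval x

/-- signed lengths of the blocks in direction `d` -/
def xs (d : Bool) (l : List Blk) : List ℝ := l.map (fun b => if b.1 = d then (b.2:ℝ) else 0)

lemma xs_cnt (d : Bool) (l : List Blk) :
    ((xs d l).filter (fun x => x ≠ 0)).length ≤ cnt d l := by
  induction l with
  | nil => simp [xs, cnt]
  | cons b l ih =>
    obtain ⟨d', m⟩ := b
    by_cases h : d' = d
    · subst h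
      rw [cnt_cons_self]
      have e : xs d' ((d', m) :: l) = (m:ℝ) :: xs d' l := by simp [xs]
      rw [e, List.filter_cons]
      split_ifs
      · rw [List.length_cons]; omega
      · omega
    · have h' : d' = !d := by cases d <;> cases d' <;> simp_all
      have e : xs d ((d', m) :: l) = (0:ℝ) :: xs d l := by simp [xs, h]
      rw [e, h', cnt_cons_not', List.filter_cons]
      simpa using ih

/-- total length -/
def wt (l : List Blk) : ℝ := (l.map (fun b => |(b.2:ℝ)|)).sum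

lemma wt_cons (b : Blk) (l : List Blk) : wt (b :: l) = |(b.2:ℝ)| + wt l := by simp [wt]
lemma wt_nonneg (l : List Blk) : 0 ≤ wt l := by
  induction l with
  | nil => simp [wt]
  | cons b l ih => rw [wt_cons]; positivity

section
variable (a s : ℝ) (k : ℕ) (r : ℝ)

/-- centre of a cell -/
noncomputable def ctr (u : Cell) : ℝ × ℝ := (a + 2 * s * (u.1:ℝ) + s, a + 2 * s * (u.2:ℝ) + s)

/-- centre of a cell, displaced -/
noncomputable def dsp (u : Cell) (d : Bool) (x : ℝ) : ℝ × ℝ :=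
  (a + 2 * s * (u.1:ℝ) + s + 2 * s * (if d = true then x else 0),
    a + 2 * s * (u.2:ℝ) + s + 2 * s * (if d = false then x else 0))

/-- the curve -/
noncomputable def cv (l : List Blk) (u : Cell) (t : ℝ) : ℝ × ℝ :=
  (a + 2 * s * (u.1:ℝ) + s + 2 * s * pk k r (xs true l) t,
    a + 2 * s * (u.2:ℝ) + s + 2 * s * pk k r (xs false l) t)

variable {a s k r}

lemma cv_cons_le (hk : 1 ≤ k) (hr : 0 < r) (hr1 : r < 1) (b : Blk) (l : List Blk) (u : Cell)
    {t : ℝ} (h0 : 0 ≤ t) (ht : t ≤ 1 - r) :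
    cv a s k r (b :: l) u t = dsp a s u b.1 ((b.2:ℝ) * (t / (1 - r)) ^ k) := by
  have h1 : 1 - (1 - t) / r ≤ 0 := by
    have : 1 ≤ (1 - t) / r := by rw [le_div_iff₀ hr]; linarith
    linarith
  have key : ∀ d : Bool, pk k r (xs d (b :: l)) t =
      if b.1 = d then (b.2:ℝ) * (t / (1 - r)) ^ k else 0 := by
    intro d
    show (if b.1 = d then (b.2:ℝ) else 0) * (max 0 t / (1 - r)) ^ k +
      pk k r (xs d l) (1 - (1 - t) / r) = _
    rw [pk_nonpos hk hr hr1 _ _ h1, max_eq_right h0]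
    split_ifs <;> simp
  unfold cv dsp
  rw [key true, key false]

lemma cv_cons_ge (b : Blk) (l : List Blk) (u : Cell)
    {t : ℝ} (hr1 : r < 1) (ht : 1 - r ≤ t) :
    cv a s k r (b :: l) u t = cv a s k r l (u + mv b) (1 - (1 - t) / r) +
      (2 * s * (if b.1 = true then (b.2:ℝ) * ((t / (1 - r)) ^ k - 1) else 0),
        2 * s * (if b.1 = false then (b.2:ℝ) * ((t / (1 - r)) ^ k - 1) else 0)) := by
  have h0 : 0 ≤ t := by linarith
  have key : ∀ d : Bool, pk k r (xs d (b :: l)) t =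
      (if b.1 = d then (b.2:ℝ) * (t / (1 - r)) ^ k else 0) + pk k r (xs d l) (1 - (1 - t) / r) := by
    intro d
    show (if b.1 = d then (b.2:ℝ) else 0) * (max 0 t / (1 - r)) ^ k +
      pk k r (xs d l) (1 - (1 - t) / r) = _
    rw [max_eq_right h0]
    split_ifs <;> simp
  unfold cv
  rw [key true, key false]
  obtain ⟨d, m⟩ := b
  ext
  · cases d <;> simp [mv, e] <;> ring
  · cases d <;> simp [mv, e] <;> ring

lemma dsp_end (b : Blk) (u : Cell) : dsp a s u b.1 (b.2:ℝ) = ctr a s (u + mv b) := by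
  obtain ⟨d, m⟩ := b
  unfold dsp ctr
  ext
  · cases d <;> simp [mv, e] ; ring
  · cases d <;> simp [mv, e] ; ring

lemma dsp_int (d : Bool) (j : ℤ) (u : Cell) : dsp a s u d (j:ℝ) = ctr a s (u + j • e d) :=
  dsp_end (d, j) u

lemma ratio_le (hr : 0 < r) (hr1 : r < 1) {t : ℝ} (h0 : 1 - r ≤ t) (h1 : t ≤ 1) :
    0 ≤ (t / (1 - r)) ^ k - 1 ∧ (t / (1 - r)) ^ k - 1 ≤ (1 / (1 - r)) ^ k - 1 := by
  have hr' : 0 < 1 - r := by linarith
  constructor
  · have : 1 ≤ t / (1 - r) := by rw [le_div_iff₀ hr']; linarith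
    have := one_le_pow₀ this (n := k)
    linarith
  · have h2 : t / (1 - r) ≤ 1 / (1 - r) := div_le_div_of_nonneg_right h1 hr'.le
    have h3 : 0 ≤ t / (1 - r) := div_nonneg (by linarith) hr'.le
    have := pow_le_pow_left₀ h3 h2 k
    linarith

lemma cv_cons_dist (hs : 0 < s) (hr : 0 < r) (hr1 : r < 1) (b : Blk) (l : List Blk) (u : Cell)
    {t : ℝ} (ht : 1 - r ≤ t) (h1 : t ≤ 1) :
    dist (cv a s k r (b :: l) u t) (cv a s k r l (u + mv b) (1 - (1 - t) / r)) ≤
      2 * s * ((1 / (1 - r)) ^ k - 1) * |(b.2:ℝ)| := by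
  obtain ⟨h2, h3⟩ := ratio_le (k := k) hr hr1 ht h1
  have hb := abs_nonneg (b.2:ℝ)
  have h4 : |(b.2:ℝ) * ((t / (1 - r)) ^ k - 1)| ≤ |(b.2:ℝ)| * ((1 / (1 - r)) ^ k - 1) := by
    rw [abs_mul, abs_of_nonneg h2]
    exact mul_le_mul_of_nonneg_left h3 hb
  have h5 : 0 ≤ 2 * s * ((1 / (1 - r)) ^ k - 1) * |(b.2:ℝ)| := by
    have : 0 ≤ (1 / (1 - r)) ^ k - 1 := h2.trans h3
    positivity
  rw [cv_cons_ge b l u hr1 ht, dist_eq_norm, add_sub_cancel_left, Prod.norm_def, max_le_iff]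
  constructor
  · simp only [Real.norm_eq_abs]
    rw [abs_mul, abs_of_pos (by positivity : (0:ℝ) < 2 * s)]
    split_ifs
    · calc 2 * s * |(b.2:ℝ) * ((t / (1 - r)) ^ k - 1)| ≤
            2 * s * (|(b.2:ℝ)| * ((1 / (1 - r)) ^ k - 1)) :=
            mul_le_mul_of_nonneg_left h4 (by positivity)
        _ = _ := by ring
    · rw [abs_zero, mul_zero]; exact h5
  · simp only [Real.norm_eq_abs]
    rw [abs_mul, abs_of_pos (by positivity : (0:ℝ) < 2 * s)]
    split_ifs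
    · calc 2 * s * |(b.2:ℝ) * ((t / (1 - r)) ^ k - 1)| ≤
            2 * s * (|(b.2:ℝ)| * ((1 / (1 - r)) ^ k - 1)) :=
            mul_le_mul_of_nonneg_left h4 (by positivity)
        _ = _ := by ring
    · rw [abs_zero, mul_zero]; exact h5

variable {F : Set (ℝ × ℝ)} {E : Bool → Cell → Prop}

lemma block_near (hE : ∀ d u, E d u → ∃ p ∈ F, p ∈ C a s u ∧ p ∈ C a s (u + e d)) (hs : 0 < s)
    {d : Bool} {m : ℤ} {u : Cell}
    (hO : ∀ j : ℤ, min 0 m ≤ j → j < max 0 m → E d (u + j • e d))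
    (h0 : ∃ p ∈ F, dist p (ctr a s u) ≤ s) {x : ℝ} (hx1 : ((min 0 m : ℤ) : ℝ) ≤ x)
    (hx2 : x ≤ ((max 0 m : ℤ) : ℝ)) : ∃ p ∈ F, dist p (dsp a s u d x) ≤ s := by
  by_cases hm : m = 0
  · subst hm
    simp only [min_self, max_self, Int.cast_zero] at hx1 hx2
    have : x = 0 := le_antisymm hx2 hx1
    subst this
    obtain ⟨p, hp, hp'⟩ := h0
    refine ⟨p, hp, ?_⟩
    have : dsp a s u d 0 = ctr a s u := by
      unfold dsp ctr; simp
    rw [this]; exact hp'
  obtain ⟨j, hj1, hj2, hj3, hj4⟩ : ∃ j : ℤ, min 0 m ≤ j ∧ j < max 0 m ∧ (j:ℝ) ≤ x ∧ x ≤ j + 1 := by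
    rcases hx2.lt_or_eq with h | h
    · refine ⟨⌊x⌋, Int.le_floor.mpr hx1, Int.floor_lt.mpr h, Int.floor_le x,
        (Int.lt_floor_add_one x).le⟩
    · refine ⟨max 0 m - 1, by omega, by omega, ?_, ?_⟩
      · rw [h]; push_cast; linarith
      · rw [h]; push_cast; linarith
  obtain ⟨p, hp, ⟨c1, c2, c3, c4⟩, ⟨c5, c6, c7, c8⟩⟩ := hE d _ (hO j hj1 hj2)
  refine ⟨p, hp, ?_⟩
  unfold dsp
  rw [Prod.dist_eq, max_le_iff, Real.dist_eq, Real.dist_eq, abs_le, abs_le]
  have m1 : 2 * s * (j:ℝ) ≤ 2 * s * x := mul_le_mul_of_nonneg_left hj3 (by positivity)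
  have m2 : 2 * s * x ≤ 2 * s * ((j:ℝ) + 1) := mul_le_mul_of_nonneg_left hj4 (by positivity)
  cases d with
  | true =>
    simp only [e, Prod.fst_add, Prod.snd_add, Prod.smul_fst, Prod.smul_snd, smul_eq_mul, mul_one,
      mul_zero, add_zero] at c1 c2 c3 c4 c5 c6 c7 c8
    push_cast at c1 c2 c3 c4 c5 c6 c7 c8
    simp only [if_true, Bool.true_eq_false, if_false, mul_zero, add_zero]
    refine ⟨⟨by linarith, by linarith⟩, ⟨by linarith, by linarith⟩⟩
  | false =>
    simp only [e, Prod.fst_add, Prod.snd_add, Prod.smul_fst, Prod.smul_snd, smul_eq_mul, mul_one,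
      mul_zero, add_zero] at c1 c2 c3 c4 c5 c6 c7 c8
    push_cast at c1 c2 c3 c4 c5 c6 c7 c8
    simp only [if_true, Bool.false_eq_true, if_false, mul_zero, add_zero]
    refine ⟨⟨by linarith, by linarith⟩, ⟨by linarith, by linarith⟩⟩

lemma mul_mem_range (m : ℤ) {θ : ℝ} (h0 : 0 ≤ θ) (h1 : θ ≤ 1) :
    ((min 0 m : ℤ) : ℝ) ≤ (m:ℝ) * θ ∧ (m:ℝ) * θ ≤ ((max 0 m : ℤ) : ℝ) := by
  rcases le_total 0 m with h | h
  · have h' : (0:ℝ) ≤ m := by exact_mod_cast h
    rw [min_eq_left h, max_eq_right h]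
    constructor
    · push_cast; positivity
    · nlinarith
  · have h' : (m:ℝ) ≤ 0 := by exact_mod_cast h
    rw [min_eq_right h, max_eq_left h]
    constructor
    · nlinarith
    · push_cast; nlinarith

lemma trackB (hE : ∀ d u, E d u → ∃ p ∈ F, p ∈ C a s u ∧ p ∈ C a s (u + e d)) (hs : 0 < s)
    (hk : 1 ≤ k) (hr : 0 < r) (hr1 : r < 1) :
    ∀ (l : List Blk) (u : Cell), Ok E l u → (∃ p ∈ F, dist p (ctr a s u) ≤ s) →
      ∀ t : ℝ, 0 ≤ t → t ≤ 1 →
        ∃ p ∈ F, dist p (cv a s k r l u t) ≤ s + 2 * s * ((1 / (1 - r)) ^ k - 1) * wt l := by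
  have hr' : 0 < 1 - r := by linarith
  have hη : 0 ≤ (1 / (1 - r)) ^ k - 1 := by
    have : 1 ≤ 1 / (1 - r) := by rw [le_div_iff₀ hr']; linarith
    have := one_le_pow₀ this (n := k)
    linarith
  intro l
  induction l with
  | nil =>
    intro u _ h t _ _
    obtain ⟨p, hp, hp'⟩ := h
    refine ⟨p, hp, ?_⟩
    have e1 : cv a s k r [] u t = ctr a s u := by
      unfold cv ctr; simp [xs, pk]
    rw [e1]
    simpa [wt] using hp'
  | cons b l ih =>
    intro u hO h t h0 h1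
    obtain ⟨hO1, hO2⟩ := hO
    have hblk : ∀ θ : ℝ, 0 ≤ θ → θ ≤ 1 → ∃ p ∈ F, dist p (dsp a s u b.1 ((b.2:ℝ) * θ)) ≤ s := by
      intro θ h0 h1
      obtain ⟨h2, h3⟩ := mul_mem_range b.2 h0 h1
      exact block_near hE hs hO1 h h2 h3
    rw [wt_cons]
    rcases le_total t (1 - r) with ht | ht
    · rw [cv_cons_le hk hr hr1 b l u h0 ht]
      have h2 : 0 ≤ t / (1 - r) := div_nonneg h0 hr'.le
      have h3 : t / (1 - r) ≤ 1 := by rw [div_le_one hr']; exact ht
      obtain ⟨p, hp, hp'⟩ := hblk ((t / (1 - r)) ^ k) (pow_nonneg h2 k) (pow_le_one₀ h2 h3)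
      refine ⟨p, hp, hp'.trans ?_⟩
      have := wt_nonneg l
      have : 0 ≤ 2 * s * ((1 / (1 - r)) ^ k - 1) * (|(b.2:ℝ)| + wt l) := by positivity
      linarith
    · have hend : ∃ p ∈ F, dist p (ctr a s (u + mv b)) ≤ s := by
        obtain ⟨p, hp, hp'⟩ := hblk 1 zero_le_one le_rfl
        rw [mul_one, dsp_end] at hp'
        exact ⟨p, hp, hp'⟩
      have h2 : 0 ≤ 1 - (1 - t) / r := by
        have : (1 - t) / r ≤ 1 := by rw [div_le_one hr]; linarith
        linarith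
      have h3 : 1 - (1 - t) / r ≤ 1 := by
        have : 0 ≤ (1 - t) / r := div_nonneg (by linarith) hr.le
        linarith
      obtain ⟨p, hp, hp'⟩ := ih (u + mv b) hO2 hend _ h2 h3
      refine ⟨p, hp, ?_⟩
      have h4 := cv_cons_dist (a := a) (k := k) hs hr hr1 b l u ht h1
      rw [dist_comm] at h4
      calc dist p (cv a s k r (b :: l) u t) ≤ dist p (cv a s k r l (u + mv b) (1 - (1 - t) / r)) +
            dist (cv a s k r l (u + mv b) (1 - (1 - t) / r)) (cv a s k r (b :: l) u t) :=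
            dist_triangle _ _ _
        _ ≤ _ := by linarith

lemma reachB (hs : 0 < s) (hk : 1 ≤ k) (hr : 0 < r) (hr1 : r < 1) :
    ∀ (l : List Blk) (u w : Cell), w ∈ VB l u → ∃ t : ℝ, 0 ≤ t ∧ t ≤ 1 ∧
      dist (ctr a s w) (cv a s k r l u t) ≤ 2 * s * ((1 / (1 - r)) ^ k - 1) * wt l := by
  have hr' : 0 < 1 - r := by linarith
  have hη : 0 ≤ (1 / (1 - r)) ^ k - 1 := by
    have : 1 ≤ 1 / (1 - r) := by rw [le_div_iff₀ hr']; linarith
    have := one_le_pow₀ this (n := k)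
    linarith
  intro l
  induction l with
  | nil =>
    intro u w hw
    have hw' : w = u := hw
    subst hw'
    refine ⟨0, le_rfl, zero_le_one, ?_⟩
    have e1 : cv a s k r [] w 0 = ctr a s w := by
      unfold cv ctr; simp [xs, pk]
    rw [e1]; simp [wt]
  | cons b l ih =>
    intro u w hw
    rcases hw with ⟨j, hj1, hj2, rfl⟩ | hw
    · -- a cell of the first block
      obtain ⟨θ, hθ0, hθ1, hθ⟩ : ∃ θ : ℝ, 0 ≤ θ ∧ θ ≤ 1 ∧ (b.2:ℝ) * θ = j := by
        by_cases hb : b.2 = 0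
        · refine ⟨0, le_rfl, zero_le_one, ?_⟩
          have : j = 0 := by rw [hb] at hj1 hj2; simp at hj1 hj2; omega
          rw [this]; simp
        · have hb' : (b.2:ℝ) ≠ 0 := by exact_mod_cast hb
          refine ⟨(j:ℝ) / b.2, ?_, ?_, by field_simp⟩
          · rcases lt_or_gt_of_ne hb with h | h
            · have h1 : (j:ℝ) ≤ 0 := by exact_mod_cast (by omega : j ≤ 0)
              exact div_nonneg_of_nonpos h1 (by exact_mod_cast h.le)
            · have h1 : (0:ℝ) ≤ j := by exact_mod_cast (by omega : 0 ≤ j)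
              exact div_nonneg h1 (by exact_mod_cast h.le)
          · rcases lt_or_gt_of_ne hb with h | h
            · rw [div_le_one_of_neg (by exact_mod_cast h)]
              exact_mod_cast (by omega : b.2 ≤ j)
            · rw [div_le_one (by exact_mod_cast h)]
              exact_mod_cast (by omega : j ≤ b.2)
      obtain ⟨τ, hτ0, hτ1, hτ⟩ : ∃ τ : ℝ, 0 ≤ τ ∧ τ ≤ 1 ∧ τ ^ k = θ := by
        refine ⟨θ ^ ((k:ℝ)⁻¹), Real.rpow_nonneg hθ0 _, Real.rpow_le_one hθ0 hθ1 (by positivity), ?_⟩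
        exact Real.rpow_inv_natCast_pow hθ0 (by omega)
      refine ⟨(1 - r) * τ, by positivity, by nlinarith, ?_⟩
      rw [cv_cons_le hk hr hr1 b l u (by positivity) (by nlinarith)]
      have e1 : (1 - r) * τ / (1 - r) = τ := by field_simp
      rw [e1, hτ, hθ, dsp_int, dist_self]
      have := wt_nonneg (b :: l)
      positivity
    · obtain ⟨t, h0, h1, hd⟩ := ih _ _ hw
      have ht : 1 - r ≤ 1 - r * (1 - t) := by nlinarith
      have ht1 : 1 - r * (1 - t) ≤ 1 := by nlinarith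
      refine ⟨1 - r * (1 - t), by linarith, ht1, ?_⟩
      have h4 := cv_cons_dist (a := a) (k := k) hs hr hr1 b l u ht ht1
      have e1 : 1 - (1 - (1 - r * (1 - t))) / r = t := by field_simp; ring
      rw [e1, dist_comm] at h4
      rw [wt_cons]
      calc dist (ctr a s w) (cv a s k r (b :: l) u (1 - r * (1 - t))) ≤
            dist (ctr a s w) (cv a s k r l (u + mv b) t) +
            dist (cv a s k r l (u + mv b) t) (cv a s k r (b :: l) u (1 - r * (1 - t))) :=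
            dist_triangle _ _ _
        _ ≤ _ := by linarith

end

end Q65.PMC
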