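import Pool.Agent.Q65.PMCg

/-! Upper bound: approximation of plane continua by spline curves with free knots. -/

set_option autoImplicit false

open Set Metric Filter Topology

namespace Q65.PMC

lemma cells_of_conn {a b : ℝ} {q : ℕ} (hq : 1 ≤ q) {s : ℝ} (hs : 0 < s)
    (hsq : 2 * s * q = b - a) {F : Set (ℝ × ℝ)}
    (hF : F ⊆ Icc a b ×ˢ Icc a b) (hconn : IsConnected F) :
    ∃ (E : Bool → Cell → Prop) (u0 : Cell) (l : List Blk) (U : Finset Cell),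
      (∀ d u, E d u → ∃ p ∈ F, p ∈ C a s u ∧ p ∈ C a s (u + e d)) ∧
      (∃ p ∈ F, p ∈ C a s u0) ∧ Ok E l u0 ∧ (∀ w ∈ U, w ∈ VB l u0) ∧
      (∀ p ∈ F, ∃ u ∈ U, p ∈ C a s u) ∧ ∀ d, cnt d l ≤ q ^ 2 := by
  classical
  set Q : Finset Cell := Finset.Ico (0:ℤ) q ×ˢ Finset.Ico (0:ℤ) q with hQ
  have hQcard : Q.card = q ^ 2 := by
    rw [hQ, Finset.card_product, Int.card_Ico]; simp [sq]
  have hQmem : ∀ u : Cell, u ∈ Q ↔ (0 ≤ u.1 ∧ u.1 < q) ∧ (0 ≤ u.2 ∧ u.2 < q) := by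
    intro u; rw [hQ, Finset.mem_product, Finset.mem_Ico, Finset.mem_Ico]
  let E : Bool → Cell → Prop := fun d u => u ∈ Q ∧ u + e d ∈ Q ∧
    ∃ p ∈ F, p ∈ C a s u ∧ p ∈ C a s (u + e d)
  have hE : ∀ d u, E d u → u ∈ Q ∧ u + e d ∈ Q := fun d u h => ⟨h.1, h.2.1⟩
  have hcell : ∀ p ∈ F, ∃ u ∈ Q, p ∈ C a s u := by
    intro p hp
    obtain ⟨h1, h2⟩ := hF hp
    obtain ⟨i, i0, i1, i2, i3⟩ := exists_idx hs hq hsq h1
    obtain ⟨j, j0, j1, j2, j3⟩ := exists_idx hs hq hsq h2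
    exact ⟨(i, j), (hQmem _).mpr ⟨⟨i0, i1⟩, ⟨j0, j1⟩⟩, i2, i3, j2, j3⟩
  obtain ⟨p0, hp0⟩ := hconn.nonempty
  obtain ⟨u0, hu0, hpu0⟩ := hcell p0 hp0
  obtain ⟨l, U, hOk, hu0U, hUQ, hVis, hclosed, hcnt⟩ := exists_blocks (E := E) Q hE hu0
  -- local step
  have hloc : ∀ p ∈ F, ∀ u ∈ Q, ∀ v ∈ Q, u ∈ U → p ∈ C a s u → p ∈ C a s v → v ∈ U := by
    intro p hp u hu v hv huU hpu hpv
    have hdiff : ∀ x y z : ℤ, ∀ t : ℝ, a + 2 * s * x ≤ t → t ≤ a + 2 * s * (y + 1) → x ≤ y + 1 := by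
      intro x y _ t h1 h2
      have h3 : 2 * s * (x:ℝ) ≤ 2 * s * (y + 1) := by linarith
      have h4 : (x:ℝ) ≤ y + 1 := le_of_mul_le_mul_left h3 (by positivity)
      exact_mod_cast h4
    obtain ⟨a1, a2, a3, a4⟩ := hpu
    obtain ⟨b1, b2, b3, b4⟩ := hpv
    have d1 := hdiff v.1 u.1 0 p.1 b1 a2
    have d2 := hdiff u.1 v.1 0 p.1 a1 b2
    have d3 := hdiff v.2 u.2 0 p.2 b3 a4
    have d4 := hdiff u.2 v.2 0 p.2 a3 b4
    set w : Cell := (v.1, u.2) with hw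
    have hwQ : w ∈ Q := (hQmem _).mpr ⟨((hQmem _).mp hv).1, ((hQmem _).mp hu).2⟩
    have hpw : p ∈ C a s w := ⟨b1, b2, a3, a4⟩
    have hpu : p ∈ C a s u := ⟨a1, a2, a3, a4⟩
    have hpv : p ∈ C a s v := ⟨b1, b2, b3, b4⟩
    have hwU : w ∈ U := by
      rcases (show v.1 = u.1 ∨ v.1 = u.1 + 1 ∨ u.1 = v.1 + 1 by omega) with h | h | h
      · have : w = u := by rw [hw, h]
        rw [this]; exact huU
      · have hwe : w = u + e true := by
          rw [hw, h]; ext <;> simp [e]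
        refine hclosed u huU w ⟨true, Or.inl ⟨hwe, hu, by rw [← hwe]; exact hwQ, p, hp, hpu, ?_⟩⟩
        rw [← hwe]; exact hpw
      · have hwe : u = w + e true := by
          ext
          · simp [hw, e, h]
          · simp [hw, e]
        refine hclosed u huU w ⟨true, Or.inr ⟨by rw [hwe]; abel, hwQ, by rw [← hwe]; exact hu,
          p, hp, hpw, ?_⟩⟩
        rw [← hwe]; exact hpu
    rcases (show v.2 = u.2 ∨ v.2 = u.2 + 1 ∨ u.2 = v.2 + 1 by omega) with h | h | h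
    · have : v = w := by rw [hw, ← h]
      rw [this]; exact hwU
    · have hwe : v = w + e false := by
        ext
        · simp [hw, e]
        · simp [hw, e, h]
      refine hclosed w hwU v ⟨false, Or.inl ⟨hwe, hwQ, by rw [← hwe]; exact hv, p, hp, hpw, ?_⟩⟩
      rw [← hwe]; exact hpv
    · have hwe : w = v + e false := by
        ext
        · simp [hw, e]
        · simp [hw, e, h]
      refine hclosed w hwU v ⟨false, Or.inr ⟨by rw [hwe]; abel, hv, by rw [← hwe]; exact hwQ,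
        p, hp, hpv, ?_⟩⟩
      rw [← hwe]; exact hpw
  -- every point of F is in a visited cell
  have hall : ∀ p ∈ F, ∃ u ∈ U, p ∈ C a s u := by
    set A : Set (ℝ × ℝ) := ⋃ u ∈ {u : Cell | u ∈ Q ∧ u ∈ U}, C a s u with hA
    set B : Set (ℝ × ℝ) := ⋃ u ∈ {u : Cell | u ∈ Q ∧ u ∉ U}, C a s u with hB
    have hAc : IsClosed A := by
      refine Set.Finite.isClosed_biUnion ?_ (fun u _ => C_closed a s u)
      exact Q.finite_toSet.subset (fun u hu => hu.1)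
    have hBc : IsClosed B := by
      refine Set.Finite.isClosed_biUnion ?_ (fun u _ => C_closed a s u)
      exact Q.finite_toSet.subset (fun u hu => hu.1)
    have hAB : F ⊆ A ∪ B := by
      intro p hp
      obtain ⟨u, hu, hpu⟩ := hcell p hp
      by_cases h : u ∈ U
      · left; exact mem_biUnion (show u ∈ {u : Cell | u ∈ Q ∧ u ∈ U} from ⟨hu, h⟩) hpu
      · right; exact mem_biUnion (show u ∈ {u : Cell | u ∈ Q ∧ u ∉ U} from ⟨hu, h⟩) hpu
    have hFA : (F ∩ A).Nonempty := ⟨p0, hp0, mem_biUnion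
      (show u0 ∈ {u : Cell | u ∈ Q ∧ u ∈ U} from ⟨hu0, hu0U⟩) hpu0⟩
    intro p hp
    rcases hAB hp with h | h
    · obtain ⟨u, hu, hpu⟩ := mem_iUnion₂.mp h
      exact ⟨u, hu.2, hpu⟩
    · exfalso
      obtain ⟨p', hp', hpA, hpB⟩ := isPreconnected_closed_iff.mp hconn.isPreconnected A B hAc hBc hAB
        hFA ⟨p, hp, h⟩
      obtain ⟨u, hu, hpu⟩ := mem_iUnion₂.mp hpA
      obtain ⟨v, hv, hpv⟩ := mem_iUnion₂.mp hpB
      exact hv.2 (hloc p' hp' u hu.1 v hv.1 hu.2 hpu hpv)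
  exact ⟨E, u0, l, U, fun d u h => h.2.2, ⟨p0, hp0, hpu0⟩, hOk, hVis, hall, fun d => by
    rw [← hQcard]; exact hcnt d⟩

/-- upper bound for splines -/
theorem upperS {a b : ℝ} (hab : a < b) {q k n : ℕ} (hq : 1 ≤ q) (hk : 1 ≤ k)
    (hn : q ^ 2 + 1 ≤ n) {F : Set (ℝ × ℝ)}
    (hF : F ⊆ Icc a b ×ˢ Icc a b) (hconn : IsConnected F) {δ : ℝ} (hδ : 0 < δ) :
    ∃ φ ψ : ℝ → ℝ, Spl k n φ ∧ Spl k n ψ ∧
      hausdorffDist F ((fun t => (φ t, ψ t)) '' Icc 0 1) ≤ (b - a) / (2 * q) + δ := by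
  classical
  set s : ℝ := (b - a) / (2 * q) with hsdef
  have hq0 : (0:ℝ) < q := by exact_mod_cast hq
  have hs : 0 < s := div_pos (by linarith) (by positivity)
  have hsq : 2 * s * q = b - a := by rw [hsdef]; field_simp
  obtain ⟨E, u0, l, U, hE, ⟨p0, hp0, hpu0⟩, hOk, hVis, hall, hcnt⟩ :=
    cells_of_conn hq hs hsq hF hconn
  -- choice of the ratio
  obtain ⟨r, hr, hr1, hrδ⟩ : ∃ r : ℝ, 0 < r ∧ r < 1 ∧
      2 * s * ((1 / (1 - r)) ^ k - 1) * wt l ≤ δ := by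
    have hc : ContinuousAt (fun r : ℝ => 2 * s * ((1 / (1 - r)) ^ k - 1) * wt l) 0 := by
      refine ContinuousAt.mul (ContinuousAt.mul continuousAt_const (ContinuousAt.sub
        (ContinuousAt.pow (ContinuousAt.div continuousAt_const
          (continuousAt_const.sub continuousAt_id) ?_) k) continuousAt_const)) continuousAt_const
      simp
    have h0 : (fun r : ℝ => 2 * s * ((1 / (1 - r)) ^ k - 1) * wt l) 0 < δ := by
      simp only [sub_zero, div_one, one_pow, sub_self, mul_zero, zero_mul]; exact hδ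
    have h1 : ∀ᶠ r in 𝓝 (0:ℝ), 2 * s * ((1 / (1 - r)) ^ k - 1) * wt l < δ :=
      hc.eventually (Iio_mem_nhds h0)
    have h2 : ∀ᶠ r in 𝓝[>] (0:ℝ), 2 * s * ((1 / (1 - r)) ^ k - 1) * wt l < δ ∧
        r ∈ Ioo (0:ℝ) 1 :=
      (h1.filter_mono nhdsWithin_le_nhds).and (Ioo_mem_nhdsGT one_pos)
    obtain ⟨r, hr1, hr2⟩ := h2.exists
    exact ⟨r, hr2.1, hr2.2, hr1.le⟩
  have hcv : ∀ t, cv a s k r l u0 t =
      ((a + 2 * s * (u0.1:ℝ) + s) + (2 * s) * pk k r (xs true l) t,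
        (a + 2 * s * (u0.2:ℝ) + s) + (2 * s) * pk k r (xs false l) t) := fun t => rfl
  have hspl : ∀ (d : Bool) (c : ℝ), Spl k n (fun t => c + (2 * s) * pk k r (xs d l) t) := by
    intro d c
    obtain ⟨m, rfl⟩ : ∃ m, k = m + 1 := ⟨k - 1, by omega⟩
    obtain ⟨Z, hZ, hP⟩ := pk_PPS hk hr (xs d l)
    refine ⟨?_, ?_⟩
    · simp only [Nat.add_sub_cancel]
      exact contDiff_const.add (contDiff_const.mul (pk_contDiff m (xs d l)))
    · have h1 := (PPS.const (k := m + 1) c ∅).add (hP.smul (2 * s))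
      refine h1.partition ?_
      rw [Finset.empty_union]
      have h2 := xs_cnt d l
      have h3 := hcnt d
      omega
  refine ⟨fun t => (a + 2 * s * (u0.1:ℝ) + s) + (2 * s) * pk k r (xs true l) t,
    fun t => (a + 2 * s * (u0.2:ℝ) + s) + (2 * s) * pk k r (xs false l) t,
    hspl true _, hspl false _, ?_⟩
  refine hausdorffDist_le_of_mem_dist (by positivity) ?_ ?_
  · intro p hp
    obtain ⟨u, hu, hpu⟩ := hall p hp
    obtain ⟨t, h0, h1, hd⟩ := reachB (a := a) hs hk hr hr1 l u0 u (hVis u hu)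
    refine ⟨_, ⟨t, ⟨h0, h1⟩, rfl⟩, ?_⟩
    have h2 : dist p (ctr a s u) ≤ s := cell_dist hpu
    calc dist p (cv a s k r l u0 t) ≤ dist p (ctr a s u) + dist (ctr a s u) (cv a s k r l u0 t) :=
          dist_triangle _ _ _
      _ ≤ s + δ := by linarith
  · rintro _ ⟨t, ht, rfl⟩
    obtain ⟨p, hp, hp'⟩ := trackB (a := a) hE hs hk hr hr1 l u0 hOk ⟨p0, hp0, cell_dist hpu0⟩ t
      ht.1 ht.2
    refine ⟨p, hp, ?_⟩
    rw [dist_comm]
    exact hp'.trans (by linarith)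

end Q65.PMC
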