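import Pool.Agent.Q65.PMCa

/-! Splines of degree `m+1` with `n` pieces, of class `C^m`, have at most `n+m` intervals of
monotonicity. -/

set_option autoImplicit false

open Set

namespace Q65.PMC

/-- `C^m` piecewise polynomials of degree at most `k`, with `n` pieces on `[0,1]` -/
def Sp (m k n : ℕ) (f : ℝ → ℝ) : Prop :=
  ContDiffOn ℝ (m : ℕ∞) f (Icc 0 1) ∧
  ∃ t : ℕ → ℝ, t 0 = 0 ∧ t n = 1 ∧ (∀ i < n, t i < t (i + 1)) ∧
    ∀ i < n, ∃ p : Polynomial ℝ, p.natDegree ≤ k ∧ ∀ x ∈ Icc (t i) (t (i + 1)), f x = p.eval x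

/-- weak partition into intervals of constant sign -/
def SW (g : ℝ → ℝ) (k : ℕ) (u v : ℝ) : Prop :=
  ∃ t : ℕ → ℝ, t 0 = u ∧ t k = v ∧ ∀ i < k, t i ≤ t (i + 1) ∧
    ((∀ x ∈ Icc (t i) (t (i + 1)), 0 ≤ g x) ∨ (∀ x ∈ Icc (t i) (t (i + 1)), g x ≤ 0))

lemma SW.neg {g : ℝ → ℝ} {k : ℕ} {u v : ℝ} (h : SW g k u v) : SW (fun x => - g x) k u v := by
  obtain ⟨t, h0, h1, ht⟩ := h
  refine ⟨t, h0, h1, fun i hi => ⟨(ht i hi).1, ?_⟩⟩
  rcases (ht i hi).2 with h | h
  · right; intro x hx; linarith [h x hx]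
  · left; intro x hx; linarith [h x hx]

lemma SW.snoc {g : ℝ → ℝ} {k : ℕ} {u w v : ℝ} (h : SW g k u w) (hwv : w ≤ v)
    (hs : (∀ x ∈ Icc w v, 0 ≤ g x) ∨ (∀ x ∈ Icc w v, g x ≤ 0)) : SW g (k + 1) u v := by
  obtain ⟨t, h0, h1, ht⟩ := h
  refine ⟨fun i => if i ≤ k then t i else v, by simp [h0], by simp, ?_⟩
  intro i hi
  rcases Nat.lt_or_ge i k with hik | hik
  · simp only [hik.le, (show i + 1 ≤ k from hik), if_true]
    exact ht i hik
  · have e : i = k := by omega
    subst e
    simp only [le_refl, if_true, h1, Nat.succ_le_iff, lt_irrefl, if_false]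
    exact ⟨hwv, hs⟩

lemma SW.stepm {g : ℝ → ℝ} {m : ℕ} {u w v : ℝ} (h : SW g (m + 1) u w) (hwv : w ≤ v)
    (hm : MonotoneOn g (Icc w v)) (hc : ContinuousOn g (Icc w v)) : SW g (m + 2) u v := by
  by_cases h1 : 0 ≤ g w
  · refine h.snoc hwv (Or.inl fun x hx => ?_)
    exact h1.trans (hm ⟨le_rfl, hwv⟩ hx hx.1)
  by_cases h2 : g v ≤ 0
  · refine h.snoc hwv (Or.inr fun x hx => ?_)
    exact (hm hx ⟨hwv, le_rfl⟩ hx.2).trans h2
  push Not at h1 h2
  obtain ⟨c, hcI, hc0⟩ := intermediate_value_Icc hwv hc ⟨h1.le, h2.le⟩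
  obtain ⟨s, hs0, hs1, hs⟩ := h
  refine ⟨fun i => if i ≤ m then s i else if i = m + 1 then c else v, by simp [hs0], by simp, ?_⟩
  intro i hi
  rcases Nat.lt_or_ge i m with him | him
  · simp only [him.le, (show i + 1 ≤ m from him), if_true]
    exact hs i (by omega)
  rcases Nat.lt_or_ge m i with him' | him'
  · have e : i = m + 1 := by omega
    subst e
    simp only [show ¬ (m + 1 ≤ m) by omega, show ¬ (m + 1 + 1 ≤ m) by omega,
      show ¬ (m + 1 + 1 = m + 1) by omega, if_true, if_false]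
    refine ⟨hcI.2, Or.inl fun x hx => ?_⟩
    rw [← hc0]; exact hm hcI ⟨hcI.1.trans hx.1, hx.2⟩ hx.1
  · have e : i = m := by omega
    subst e
    simp only [le_refl, if_true, show ¬ (i + 1 ≤ i) by omega, if_false]
    obtain ⟨h3, h4⟩ := hs i (by omega)
    rw [hs1] at h3 h4
    refine ⟨h3.trans hcI.1, Or.inr fun x hx => ?_⟩
    rcases le_total x w with hxw | hxw
    · rcases h4 with h4 | h4
      · exact absurd (h4 w ⟨h3, le_rfl⟩) (by linarith)
      · exact h4 x ⟨hx.1, hxw⟩
    · rw [← hc0]; exact hm ⟨hxw, hx.2.trans hcI.2⟩ hcI hx.2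

lemma PW.sign {g : ℝ → ℝ} {m : ℕ} : ∀ {u v : ℝ}, u ≤ v → PW g m u v → ContinuousOn g (Icc u v) →
    SW g (m + 1) u v := by
  induction m with
  | zero =>
    intro u v huv h _
    obtain ⟨t, h0, h1, -⟩ := h
    rw [h0] at h1
    subst h1
    refine ⟨fun _ => u, rfl, rfl, ?_⟩
    intro i _
    refine ⟨le_rfl, ?_⟩
    rcases le_total 0 (g u) with h | h
    · left; intro x hx; rw [le_antisymm hx.2 hx.1]; exact h
    · right; intro x hx; rw [le_antisymm hx.2 hx.1]; exact h
  | succ m ih =>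
    intro u v huv h hc
    obtain ⟨t, h0, h1, ht⟩ := h
    have hm := ht m (by omega)
    rw [h1] at hm
    have hmon : ∀ j, j ≤ m → u ≤ t j := by
      intro j
      induction j with
      | zero => intro _; rw [h0]
      | succ j ihj => intro hj; exact (ihj (by omega)).trans (ht j (by omega)).1
    have hum := hmon m le_rfl
    have hPWm : PW g m u (t m) := ⟨t, h0, rfl, fun i hi => ht i (by omega)⟩
    have hS := ih hum hPWm (hc.mono (Icc_subset_Icc_right hm.1))
    have hc' : ContinuousOn g (Icc (t m) v) := hc.mono (Icc_subset_Icc_left hum)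
    rcases hm.2 with h | h
    · exact hS.stepm hm.1 h hc'
    · have := hS.neg.stepm hm.1 (fun x hx y hy hxy => neg_le_neg (h hx hy hxy)) hc'.neg
      have := this.neg
      simpa using this

lemma SW.pw {g f : ℝ → ℝ} {m : ℕ} (h : SW g m 0 1) (hc : ContinuousOn f (Icc 0 1))
    (hd : ∀ x ∈ Ioo (0:ℝ) 1, HasDerivAt f (g x) x) : PW f m 0 1 := by
  obtain ⟨t, h0, h1, ht⟩ := h
  have hmon : ∀ j, j ≤ m → 0 ≤ t j := by
    intro j
    induction j with
    | zero => intro _; rw [h0]
    | succ j ihj => intro hj; exact (ihj (by omega)).trans (ht j (by omega)).1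
  have hmon' : ∀ j, j ≤ m → t (m - j) ≤ 1 := by
    intro j
    induction j with
    | zero => intro _; rw [Nat.sub_zero, h1]
    | succ j ihj =>
      intro hj
      have h2 := (ht (m - (j + 1)) (by omega)).1
      have e : m - (j + 1) + 1 = m - j := by omega
      rw [e] at h2
      exact h2.trans (ihj (by omega))
  refine ⟨t, h0, h1, fun i hi => ⟨(ht i hi).1, ?_⟩⟩
  have hl := hmon i hi.le
  have hr : t (i + 1) ≤ 1 := by
    have := hmon' (m - (i + 1)) (by omega)
    rwa [show m - (m - (i + 1)) = i + 1 by omega] at this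
  have hsub : Icc (t i) (t (i + 1)) ⊆ Icc 0 1 := Icc_subset_Icc hl hr
  have hc' := hc.mono hsub
  have hd' : ∀ x ∈ interior (Icc (t i) (t (i + 1))), HasDerivAt f (g x) x := by
    intro x hx
    rw [interior_Icc] at hx
    exact hd x ⟨hl.trans_lt hx.1, hx.2.trans_le hr⟩
  have hI : ∀ x ∈ interior (Icc (t i) (t (i + 1))), x ∈ Icc (t i) (t (i + 1)) := fun x hx =>
    interior_subset hx
  rcases (ht i hi).2 with h | h
  · left
    refine monotoneOn_of_deriv_nonneg (convex_Icc _ _) hc'
      (fun x hx => (hd' x hx).differentiableAt.differentiableWithinAt) ?_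
    intro x hx
    rw [(hd' x hx).deriv]; exact h x (hI x hx)
  · right
    refine antitoneOn_of_deriv_nonpos (convex_Icc _ _) hc'
      (fun x hx => (hd' x hx).differentiableAt.differentiableWithinAt) ?_
    intro x hx
    rw [(hd' x hx).deriv]; exact h x (hI x hx)

theorem Sp.pw {n : ℕ} : ∀ {m : ℕ} {f : ℝ → ℝ}, Sp m (m + 1) n f → PW f (n + m) 0 1 := by
  intro m
  induction m with
  | zero =>
    intro f h
    obtain ⟨_, t, h0, h1, ht, hp⟩ := h
    refine ⟨t, h0, by simpa using h1, fun i hi => ⟨(ht i (by omega)).le, ?_⟩⟩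
    obtain ⟨p, hpd, hp'⟩ := hp i (by omega)
    obtain ⟨c, d, hcd⟩ : ∃ c d : ℝ, ∀ x, p.eval x = c * x + d := by
      refine ⟨p.coeff 1, p.coeff 0, fun x => ?_⟩
      conv_lhs => rw [Polynomial.eq_X_add_C_of_natDegree_le_one hpd]
      simp
    rcases le_total 0 c with hc | hc
    · left
      intro x hx y hy hxy
      rw [hp' x hx, hp' y hy, hcd, hcd]
      nlinarith [mul_le_mul_of_nonneg_left hxy hc]
    · right
      intro x hx y hy hxy
      rw [hp' x hx, hp' y hy, hcd, hcd]
      nlinarith [mul_le_mul_of_nonpos_left hxy hc]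
  | succ m ih =>
    intro f h
    obtain ⟨hC, t, h0, h1, ht, hp⟩ := h
    have hU : UniqueDiffOn ℝ (Icc (0:ℝ) 1) := uniqueDiffOn_Icc one_pos
    have hC' : ContDiffOn ℝ ((m : ℕ∞) + 1) f (Icc 0 1) := by exact_mod_cast hC
    rw [contDiffOn_succ_iff_derivWithin hU] at hC'
    obtain ⟨hdiff, -, hg⟩ := hC'
    set g := derivWithin f (Icc (0:ℝ) 1) with hgdef
    have hgc : ContinuousOn g (Icc 0 1) := hg.continuousOn
    have hmon : ∀ j, j ≤ n → 0 ≤ t j := by
      intro j
      induction j with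
      | zero => intro _; rw [h0]
      | succ j ihj => intro hj; exact (ihj (by omega)).trans (ht j (by omega)).le
    have hmon' : ∀ j, j ≤ n → t (n - j) ≤ 1 := by
      intro j
      induction j with
      | zero => intro _; rw [Nat.sub_zero, h1]
      | succ j ihj =>
        intro hj
        have h2 := (ht (n - (j + 1)) (by omega)).le
        have e : n - (j + 1) + 1 = n - j := by omega
        rw [e] at h2
        exact h2.trans (ihj (by omega))
    have hSp : Sp m (m + 1) n g := by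
      refine ⟨hg, t, h0, h1, ht, fun i hi => ?_⟩
      obtain ⟨p, hpd, hp'⟩ := hp i hi
      have hl := hmon i hi.le
      have hr : t (i + 1) ≤ 1 := by
        have := hmon' (n - (i + 1)) (by omega)
        rwa [show n - (n - (i + 1)) = i + 1 by omega] at this
      refine ⟨p.derivative, ?_, ?_⟩
      · have := Polynomial.natDegree_derivative_le p
        omega
      · have hopen : EqOn g (fun x => p.derivative.eval x) (Ioo (t i) (t (i + 1))) := by
          intro x hx
          have hx01 : x ∈ Ioo (0:ℝ) 1 := ⟨hl.trans_lt hx.1, hx.2.trans_le hr⟩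
          have h2 : f =ᶠ[nhds x] fun y => p.eval y := by
            filter_upwards [Ioo_mem_nhds hx.1 hx.2] with y hy
            exact hp' y ⟨hy.1.le, hy.2.le⟩
          show derivWithin f (Icc 0 1) x = p.derivative.eval x
          rw [derivWithin_of_mem_nhds (Icc_mem_nhds hx01.1 hx01.2), h2.deriv_eq]
          exact p.deriv
        have hcl : EqOn g (fun x => p.derivative.eval x) (Icc (t i) (t (i + 1))) := by
          refine hopen.of_subset_closure (hgc.mono (Icc_subset_Icc hl hr))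
            (p.derivative.continuous.continuousOn) Ioo_subset_Icc_self ?_
          rw [closure_Ioo (ht i hi).ne]
        exact fun x hx => hcl hx
    have h2 := (ih hSp).sign zero_le_one hgc
    have h3 := h2.pw hC.continuousOn (fun x hx => by
      have h4 : DifferentiableAt ℝ f x :=
        (hdiff x ⟨hx.1.le, hx.2.le⟩).differentiableAt (Icc_mem_nhds hx.1 hx.2)
      have h5 : g x = deriv f x := derivWithin_of_mem_nhds (Icc_mem_nhds hx.1 hx.2)
      rw [h5]; exact h4.hasDerivAt)
    have e : n + (m + 1) = n + m + 1 := by omega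
    rw [e]; exact h3

end Q65.PMC
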