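import Mathlib

/-!
# Projective rectangles: definitions
-/

set_option autoImplicit false

universe u

namespace Q65.PR

/-- `a, b, c, d` are four distinct points, no three of them on a line of `B` -/
def Quad {P : Type u} (B : Set (Set P)) (a b c d : P) : Prop :=
  a ≠ b ∧ a ≠ c ∧ a ≠ d ∧ b ≠ c ∧ b ≠ d ∧ c ≠ d ∧
    ∀ l ∈ B, ¬ (a ∈ l ∧ b ∈ l ∧ c ∈ l) ∧ ¬ (a ∈ l ∧ b ∈ l ∧ d ∈ l) ∧
      ¬ (a ∈ l ∧ c ∈ l ∧ d ∈ l) ∧ ¬ (b ∈ l ∧ c ∈ l ∧ d ∈ l)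

/-- A projective rectangle with set of lines `L` and distinguished point `D` (axioms (A1)-(A6)). -/
structure IsRect {P : Type u} (L : Set (Set P)) (D : P) : Prop where
  /-- (A1) any two distinct points lie on exactly one common line -/
  A1 : ∀ x y : P, x ≠ y → ∃! l, l ∈ L ∧ x ∈ l ∧ y ∈ l
  /-- (A2) some four points have no three collinear -/
  A2 : ∃ a b c d : P, Quad L a b c d
  /-- (A3) every line has at least three points -/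
  A3 : ∀ l ∈ L, ∃ x y z : P, x ∈ l ∧ y ∈ l ∧ z ∈ l ∧ x ≠ y ∧ x ≠ z ∧ y ≠ z
  /-- (A5) every line through `D` meets every other line in exactly one point -/
  A5 : ∀ s ∈ L, D ∈ s → ∀ l ∈ L, l ≠ s → ∃! x, x ∈ s ∧ x ∈ l
  /-- (A6) if `l₁, l₂` are lines not through `D` which meet in a point, and `l₃, l₄` are distinct
  lines meeting them in four distinct points, then `l₃` and `l₄` meet -/
  A6 : ∀ l₁ ∈ L, ∀ l₂ ∈ L, D ∉ l₁ → D ∉ l₂ → l₁ ≠ l₂ → (∃ x, x ∈ l₁ ∧ x ∈ l₂) →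
    ∀ l₃ ∈ L, ∀ l₄ ∈ L, l₃ ≠ l₄ → ∀ a b c d : P, a ∈ l₁ → a ∈ l₃ → b ∈ l₂ → b ∈ l₃ →
      c ∈ l₁ → c ∈ l₄ → d ∈ l₂ → d ∈ l₄ →
      a ≠ b → a ≠ c → a ≠ d → b ≠ c → b ≠ d → c ≠ d → ∃ x, x ∈ l₃ ∧ x ∈ l₄

/-- the points of `S` with the set of lines `B` form a projective plane -/
def IsProjPlane {P : Type u} (S : Set P) (B : Set (Set P)) : Prop :=
  (∀ b ∈ B, b ⊆ S) ∧
  (∀ x ∈ S, ∀ y ∈ S, x ≠ y → ∃! b, b ∈ B ∧ x ∈ b ∧ y ∈ b) ∧
  (∀ b ∈ B, ∀ c ∈ B, b ≠ c → ∃! x, x ∈ b ∧ x ∈ c) ∧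
  ∃ a b c d : P, a ∈ S ∧ b ∈ S ∧ c ∈ S ∧ d ∈ S ∧ Quad B a b c d

/-- the lines of a set `S` of points: the sets `l ∩ S`, `l` a line, with at least two points -/
def linesOf {P : Type u} (L : Set (Set P)) (S : Set P) : Set (Set P) :=
  {t | ∃ l ∈ L, t = l ∩ S ∧ (l ∩ S).Nontrivial}

/-- a plane: a projective subplane which is maximal under inclusion -/
def IsPlane {P : Type u} (L : Set (Set P)) (S : Set P) : Prop :=
  Maximal (fun T => IsProjPlane T (linesOf L T)) S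

end Q65.PR
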