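import Pool.Agent.Q65.PRDefs

/-!
# Projective rectangles: planes and special sections
-/

set_option autoImplicit false

universe u

namespace Q65.PR

variable {P : Type u} {L : Set (Set P)} {D : P}

namespace IsRect

theorem uniq (H : IsRect L D) {l l' : Set P} {x y : P} (hl : l ∈ L) (hl' : l' ∈ L) (hxy : x ≠ y)
    (h1 : x ∈ l) (h2 : y ∈ l) (h3 : x ∈ l') (h4 : y ∈ l') : l = l' :=
  (H.A1 x y hxy).unique ⟨hl, h1, h2⟩ ⟨hl', h3, h4⟩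

theorem pt_eq (H : IsRect L D) {l l' : Set P} {x y : P} (hl : l ∈ L) (hl' : l' ∈ L) (hne : l ≠ l')
    (h1 : x ∈ l) (h2 : x ∈ l') (h3 : y ∈ l) (h4 : y ∈ l') : x = y := by
  by_contra h
  exact hne (H.uniq hl hl' h h1 h3 h2 h4)

/-- Veblen's axiom without the distinctness conditions -/
theorem veb (H : IsRect L D) {l₁ l₂ l₃ l₄ : Set P} {o a b c d : P} (h1 : l₁ ∈ L) (h2 : l₂ ∈ L)
    (hD1 : D ∉ l₁) (hD2 : D ∉ l₂) (ho1 : o ∈ l₁) (ho2 : o ∈ l₂) (h3 : l₃ ∈ L) (h4 : l₄ ∈ L)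
    (a1 : a ∈ l₁) (a3 : a ∈ l₃) (b2 : b ∈ l₂) (b3 : b ∈ l₃) (c1 : c ∈ l₁) (c4 : c ∈ l₄)
    (d2 : d ∈ l₂) (d4 : d ∈ l₄) (hab : a ≠ b) (hcd : c ≠ d) : ∃ x, x ∈ l₃ ∧ x ∈ l₄ := by
  by_cases h12 : l₁ = l₂
  · subst h12
    have e1 := H.uniq h1 h3 hab a1 b2 a3 b3
    exact ⟨c, e1 ▸ c1, c4⟩
  by_cases h34 : l₃ = l₄
  · exact ⟨a, a3, h34 ▸ a3⟩
  by_cases hac : a = c
  · exact ⟨a, a3, hac ▸ c4⟩
  by_cases had : a = d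
  · exact ⟨a, a3, had ▸ d4⟩
  by_cases hbc : b = c
  · exact ⟨b, b3, hbc ▸ c4⟩
  by_cases hbd : b = d
  · exact ⟨b, b3, hbd ▸ d4⟩
  exact H.A6 l₁ h1 l₂ h2 hD1 hD2 h12 ⟨o, ho1, ho2⟩ l₃ h3 l₄ h4 h34 a b c d a1 a3 b2 b3 c1 c4 d2 d4
    hab hac had hbc hbd hcd

/-- the line through `D` and `x` -/
theorem spec (H : IsRect L D) (x : P) : ∃ s ∈ L, D ∈ s ∧ x ∈ s := by
  by_cases h : D = x
  · obtain ⟨a, b, c, d, hq⟩ := H.A2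
    have : ∃ y, y ≠ D := by
      by_cases ha : a = D
      · exact ⟨b, fun hb => hq.1 (ha.trans hb.symm)⟩
      · exact ⟨a, ha⟩
    obtain ⟨y, hy⟩ := this
    obtain ⟨l, ⟨h1, h2, h3⟩, -⟩ := H.A1 D y (Ne.symm hy)
    exact ⟨l, h1, h2, h ▸ h2⟩
  · obtain ⟨l, ⟨h1, h2, h3⟩, -⟩ := H.A1 D x h
    exact ⟨l, h1, h2, h3⟩

end IsRect

/-- `x` and `y` lie on a common special line -/
def Sim (L : Set (Set P)) (D x y : P) : Prop := ∃ s ∈ L, D ∈ s ∧ x ∈ s ∧ y ∈ s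

theorem Sim.symm {x y : P} (h : Sim L D x y) : Sim L D y x := by
  obtain ⟨s, h1, h2, h3, h4⟩ := h
  exact ⟨s, h1, h2, h4, h3⟩

/-- ordinary lines -/
def Blk (L : Set (Set P)) (D : P) (b : Set P) : Prop := b ∈ L ∧ D ∉ b

theorem neD {b : Set P} {x : P} (hb : Blk L D b) (hx : x ∈ b) : x ≠ D := by
  rintro rfl
  exact hb.2 hx

namespace IsRect

theorem sim_mem (H : IsRect L D) {x y : P} {s : Set P} (h : Sim L D x y) (hs : s ∈ L) (hD : D ∈ s)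
    (hx : x ∈ s) (hxD : x ≠ D) : y ∈ s := by
  obtain ⟨t, h1, h2, h3, h4⟩ := h
  have := H.uniq hs h1 hxD hx hD h3 h2
  rw [this]
  exact h4

theorem not_sim (H : IsRect L D) {x y : P} {b : Set P} (hb : Blk L D b) (hx : x ∈ b) (hy : y ∈ b)
    (hxy : x ≠ y) : ¬ Sim L D x y := by
  rintro ⟨s, h1, h2, h3, h4⟩
  have := H.uniq hb.1 h1 hxy hx hy h3 h4
  exact hb.2 (this ▸ h2)

theorem ne_of_not_sim (H : IsRect L D) {x y : P} (h : ¬ Sim L D x y) : x ≠ y := by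
  rintro rfl
  obtain ⟨s, h1, h2, h3⟩ := H.spec x
  exact h ⟨s, h1, h2, h3, h3⟩

theorem join (H : IsRect L D) {x y : P} (h : ¬ Sim L D x y) : ∃ b, Blk L D b ∧ x ∈ b ∧ y ∈ b := by
  obtain ⟨l, ⟨h1, h2, h3⟩, -⟩ := H.A1 x y (H.ne_of_not_sim h)
  exact ⟨l, ⟨h1, fun hD => h ⟨l, h1, hD, h2, h3⟩⟩, h2, h3⟩

theorem trans (H : IsRect L D) {x y z : P} (h : Sim L D x y) (h' : Sim L D y z) (hy : y ≠ D) :
    Sim L D x z := by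
  obtain ⟨s, h1, h2, h3, h4⟩ := h
  exact ⟨s, h1, h2, h3, H.sim_mem h' h1 h2 h4 hy⟩

/-- a block has a point different from `o` and not on the special line of `x` -/
theorem pick (H : IsRect L D) {b : Set P} (hb : Blk L D b) (o x : P) (hx : x ≠ D) :
    ∃ a ∈ b, a ≠ o ∧ ¬ Sim L D a x := by
  obtain ⟨u, v, w, hu, hv, hw, huv, huw, hvw⟩ := H.A3 b hb.1
  by_contra hcon
  push Not at hcon
  have key : ∀ p ∈ b, ∀ q ∈ b, p ≠ q → p ≠ o → q ≠ o → False := by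
    intro p hp q hq hpq hpo hqo
    have h1 := hcon p hp hpo
    have h2 := hcon q hq hqo
    exact H.not_sim hb hp hq hpq (H.trans h1 h2.symm hx)
  by_cases h1 : u = o
  · exact key v hv w hw hvw (fun h => huv (h1.trans h.symm)) (fun h => huw (h1.trans h.symm))
  · by_cases h2 : v = o
    · exact key u hu w hw huw h1 (fun h => hvw (h2.trans h.symm))
    · exact key u hu v hv huv h1 h2

/-- a block meets every special line -/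
theorem meet_spec (H : IsRect L D) {b s : Set P} (hb : Blk L D b) (hs : s ∈ L) (hD : D ∈ s) :
    ∃ x, x ∈ b ∧ x ∈ s := by
  obtain ⟨x, ⟨h1, h2⟩, -⟩ := H.A5 s hs hD b hb.1 (fun h => hb.2 (h ▸ hD))
  exact ⟨x, h2, h1⟩

theorem blk_spec_eq (H : IsRect L D) {b s : Set P} {x y : P} (hb : Blk L D b) (hs : s ∈ L)
    (hD : D ∈ s) (h1 : x ∈ b) (h2 : x ∈ s) (h3 : y ∈ b) (h4 : y ∈ s) : x = y :=
  H.pt_eq hb.1 hs (fun h => hb.2 (h ▸ hD)) h1 h2 h3 h4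

end IsRect

/-- `x` lies on an ordinary line which meets `l₁` and `l₂` outside their common point -/
def G (L : Set (Set P)) (D : P) (l₁ l₂ : Set P) (x : P) : Prop :=
  ∃ h, Blk L D h ∧ x ∈ h ∧ ∃ a b, a ∈ h ∧ a ∈ l₁ ∧ a ∉ l₂ ∧ b ∈ h ∧ b ∈ l₂ ∧ b ∉ l₁

theorem G.symm {l₁ l₂ : Set P} {x : P} (h : G L D l₁ l₂ x) : G L D l₂ l₁ x := by
  obtain ⟨h, h1, h2, a, b, h3, h4, h5, h6, h7, h8⟩ := h
  exact ⟨h, h1, h2, b, a, h6, h7, h8, h3, h4, h5⟩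

/-- the plane of two meeting ordinary lines -/
def PL (L : Set (Set P)) (D : P) (l₁ l₂ : Set P) : Set P :=
  {x | x = D ∨ x ∈ l₁ ∨ x ∈ l₂ ∨ G L D l₁ l₂ x}

theorem PL_symm (l₁ l₂ : Set P) : PL L D l₁ l₂ = PL L D l₂ l₁ := by
  ext x
  unfold PL
  simp only [Set.mem_ofPred_eq]
  constructor
  · rintro (h | h | h | h)
    · exact Or.inl h
    · exact Or.inr (Or.inr (Or.inl h))
    · exact Or.inr (Or.inl h)
    · exact Or.inr (Or.inr (Or.inr h.symm))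
  · rintro (h | h | h | h)
    · exact Or.inl h
    · exact Or.inr (Or.inr (Or.inl h))
    · exact Or.inr (Or.inl h)
    · exact Or.inr (Or.inr (Or.inr h.symm))


section plane

variable {l₁ l₂ : Set P} {o : P}

theorem C1 (H : IsRect L D) (hl1 : Blk L D l₁) (hl2 : Blk L D l₂) (ho1 : o ∈ l₁) (ho2 : o ∈ l₂)
    (hne : l₁ ≠ l₂) {x a' : P} {h' : Set P} (hx : x ∈ l₂ ∨ G L D l₁ l₂ x) (hx1 : x ∉ l₁)
    (hh' : Blk L D h') (hxh : x ∈ h') (ha' : a' ∈ h') (ha1 : a' ∈ l₁) (ha2 : a' ∉ l₂) :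
    ∃ b', b' ∈ h' ∧ b' ∈ l₂ ∧ b' ∉ l₁ := by
  by_cases hx2 : x ∈ l₂
  · exact ⟨x, hxh, hx2, hx1⟩
  obtain ⟨h, hh, hxh2, a, b, a3, a1, a2, b3, b2, b1⟩ := hx.resolve_left hx2
  obtain ⟨y, hy1, hy2⟩ := H.veb hh.1 hl1.1 hh.2 hl1.2 a3 a1 hh'.1 hl2.1 hxh2 hxh ha1 ha'
    b3 b2 ho1 ho2 (fun e => hx1 (e ▸ ha1)) (fun e => b1 (e ▸ ho1))
  refine ⟨y, hy1, hy2, fun hy3 => ?_⟩
  have e1 : y = o := H.pt_eq hl1.1 hl2.1 hne hy3 hy2 ho1 ho2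
  have e2 : h' = l₁ := H.uniq hh'.1 hl1.1 (fun e : a' = y => ha2 (e ▸ hy2)) ha' hy1 ha1 hy3
  exact hx1 (e2 ▸ hxh)

theorem J1 (H : IsRect L D) (hl1 : Blk L D l₁) (hl2 : Blk L D l₂) (ho1 : o ∈ l₁) (ho2 : o ∈ l₂)
    (hne : l₁ ≠ l₂) {x z : P} {k : Set P} (hx : G L D l₁ l₂ x) (hx1 : x ∉ l₁) (hx2 : x ∉ l₂)
    (hk : Blk L D k) (hok : o ∈ k) (hxk : x ∈ k) (hzk : z ∈ k) (hzo : z ≠ o) :
    G L D l₁ l₂ z := by
  obtain ⟨h, hh, hxh, a, b, a3, a1, a2, b3, b2, b1⟩ := hx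
  have hGh : ∀ w ∈ h, G L D l₁ l₂ w := fun w hw => ⟨h, hh, hw, a, b, a3, a1, a2, b3, b2, b1⟩
  have hkl1 : k ≠ l₁ := fun e => hx1 (e ▸ hxk)
  have hz1 : z ∉ l₁ := fun hz => hzo (H.pt_eq hk.1 hl1.1 hkl1 hzk hz hok ho1)
  have hhl1 : h ≠ l₁ := fun e => b1 (e ▸ b3)
  have hhl2 : h ≠ l₂ := fun e => a2 (e ▸ a3)
  have hxo : x ≠ o := fun e => hx1 (e ▸ ho1)
  have hab : a ≠ b := fun e => a2 (e ▸ b2)
  have hxa : x ≠ a := fun e => hx1 (e ▸ a1)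
  have hxb : x ≠ b := fun e => hx2 (e ▸ b2)
  have hao : a ≠ o := fun e => a2 (e ▸ ho2)
  have hbo : b ≠ o := fun e => b1 (e ▸ ho1)
  -- a point `a'` of `l₁`
  obtain ⟨sb, sb1, sb2, sb3⟩ := H.spec b
  obtain ⟨sx, sx1, sx2, sx3⟩ := H.spec x
  obtain ⟨u, hu1, hu2⟩ := H.meet_spec hl1 sb1 sb2
  obtain ⟨v, hv1, hv2⟩ := H.meet_spec hl1 sx1 sx2
  have hub : Sim L D u b := ⟨sb, sb1, sb2, hu2, sb3⟩
  have hvx : Sim L D v x := ⟨sx, sx1, sx2, hv2, sx3⟩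
  have huo : u ≠ o := by
    rintro rfl
    exact H.not_sim hl2 ho2 b2 hbo.symm hub
  have hua : u ≠ a := by
    rintro rfl
    exact H.not_sim hh a3 b3 hab hub
  have hvo : v ≠ o := by
    rintro rfl
    exact H.not_sim hk hok hxk hxo.symm hvx
  have hva : v ≠ a := by
    rintro rfl
    exact H.not_sim hh a3 hxh hxa.symm hvx
  have huv : u ≠ v := by
    rintro rfl
    exact H.not_sim hh hxh b3 hxb (H.trans hvx.symm hub (neD hl1 hu1))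
  have hzD : z ≠ D := neD hk hzk
  have hpick : ∃ a' ∈ l₁, a' ≠ o ∧ a' ≠ a ∧ ¬ Sim L D a' z := by
    by_cases hs : Sim L D u z
    · refine ⟨v, hv1, hvo, hva, fun hs2 => ?_⟩
      exact H.not_sim hl1 hu1 hv1 huv (H.trans hs hs2.symm hzD)
    · exact ⟨u, hu1, huo, hua, hs⟩
  obtain ⟨a', ha'1, ha'o, ha'a, ha'z⟩ := hpick
  have ha'2 : a' ∉ l₂ := fun e => ha'o (H.pt_eq hl1.1 hl2.1 hne ha'1 e ho1 ho2)
  obtain ⟨g, hg, ha'g, hzg⟩ := H.join ha'z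
  obtain ⟨w, hw1, hw2⟩ := H.veb hk.1 hl1.1 hk.2 hl1.2 hok ho1 hh.1 hg.1 hxk hxh a1 a3 hzk hzg
    ha'1 ha'g hxa (fun e => hz1 (e ▸ ha'1))
  have hw3 : w ∉ l₁ := by
    intro hw3
    have e1 : w = a := H.pt_eq hh.1 hl1.1 hhl1 hw1 hw3 a3 a1
    have e2 : g = l₁ := H.uniq hg.1 hl1.1 (fun e => ha'a (e.trans e1)) ha'g hw2 ha'1 hw3
    exact hz1 (e2 ▸ hzg)
  obtain ⟨b', hb'1, hb'2, hb'3⟩ := C1 H hl1 hl2 ho1 ho2 hne (Or.inr (hGh w hw1)) hw3 hg hw2 ha'g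
    ha'1 ha'2
  exact ⟨g, hg, hzg, a', b', ha'g, ha'1, ha'2, hb'1, hb'2, hb'3⟩

theorem J2 (H : IsRect L D) (hl1 : Blk L D l₁) (hl2 : Blk L D l₂) (ho1 : o ∈ l₁) (ho2 : o ∈ l₂)
    {x y : P} {k : Set P} (hx : G L D l₁ l₂ x) (hy : G L D l₁ l₂ y)
    (hk : Blk L D k) (hxk : x ∈ k) (hyk : y ∈ k) (hxy : x ≠ y) :
    ∃ p ∈ k, p ∈ l₁ ∨ p ∈ l₂ := by
  obtain ⟨h, hh, hxh, a, b, a3, a1, a2, b3, b2, b1⟩ := hx
  obtain ⟨h', hh', hyh, a', b', a3', a1', a2', b3', b2', b1'⟩ := hy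
  by_cases hhh : h = h'
  · subst hhh
    have : k = h := H.uniq hk.1 hh.1 hxy hxk hyk hxh hyh
    exact ⟨a, this ▸ a3, Or.inl a1⟩
  have hab : a ≠ b := fun e => a2 (e ▸ b2)
  have hab' : a' ≠ b' := fun e => a2' (e ▸ b2')
  obtain ⟨v, hv1, hv2⟩ := H.veb hl1.1 hl2.1 hl1.2 hl2.2 ho1 ho2 hh.1 hh'.1 a1 a3 b2 b3 a1' a3' b2'
    b3' hab hab'
  by_cases haa : a = a'
  · have hbb : b ≠ b' := by
      intro e
      exact hhh (H.uniq hh.1 hh'.1 hab a3 b3 (haa ▸ a3') (e ▸ b3'))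
    obtain ⟨p, hp1, hp2⟩ := H.veb hh.1 hh'.1 hh.2 hh'.2 hv1 hv2 hk.1 hl2.1 hxh hxk hyh hyk b3 b2
      b3' b2' hxy hbb
    exact ⟨p, hp1, Or.inr hp2⟩
  · obtain ⟨p, hp1, hp2⟩ := H.veb hh.1 hh'.1 hh.2 hh'.2 hv1 hv2 hk.1 hl1.1 hxh hxk hyh hyk a3 a1
      a3' a1' hxy haa
    exact ⟨p, hp1, Or.inl hp2⟩

theorem K1 (H : IsRect L D) (hl1 : Blk L D l₁) (hl2 : Blk L D l₂) (ho1 : o ∈ l₁) (ho2 : o ∈ l₂)
    (hne : l₁ ≠ l₂) {x p : P} {k : Set P} (hx : G L D l₁ l₂ x) (hx1 : x ∉ l₁) (hx2 : x ∉ l₂)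
    (hk : Blk L D k) (hxk : x ∈ k) (hpk : p ∈ k) (hp : p ∈ l₁) : k ⊆ PL L D l₁ l₂ := by
  intro z hz
  by_cases hp2 : p ∈ l₂
  · have e : p = o := H.pt_eq hl1.1 hl2.1 hne hp hp2 ho1 ho2
    by_cases hzo : z = o
    · exact Or.inr (Or.inl (hzo ▸ ho1))
    · exact Or.inr (Or.inr (Or.inr
        (J1 H hl1 hl2 ho1 ho2 hne hx hx1 hx2 hk (e ▸ hpk) hxk hz hzo)))
  · obtain ⟨b', hb'1, hb'2, hb'3⟩ := C1 H hl1 hl2 ho1 ho2 hne (Or.inr hx) hx1 hk hxk hpk hp hp2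
    exact Or.inr (Or.inr (Or.inr ⟨k, hk, hz, p, b', hpk, hp, hp2, hb'1, hb'2, hb'3⟩))

theorem K2 (H : IsRect L D) (hl1 : Blk L D l₁) (hl2 : Blk L D l₂) (ho1 : o ∈ l₁) (ho2 : o ∈ l₂)
    (hne : l₁ ≠ l₂) {x p : P} {k : Set P} (hx : G L D l₁ l₂ x) (hx1 : x ∉ l₁) (hx2 : x ∉ l₂)
    (hk : Blk L D k) (hxk : x ∈ k) (hpk : p ∈ k) (hp : p ∈ l₁ ∨ p ∈ l₂) : k ⊆ PL L D l₁ l₂ := by
  rcases hp with hp | hp
  · exact K1 H hl1 hl2 ho1 ho2 hne hx hx1 hx2 hk hxk hpk hp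
  · rw [PL_symm]
    exact K1 H hl2 hl1 ho2 ho1 hne.symm hx.symm hx2 hx1 hk hxk hpk hp

theorem joinPL (H : IsRect L D) (hl1 : Blk L D l₁) (hl2 : Blk L D l₂) (ho1 : o ∈ l₁) (ho2 : o ∈ l₂)
    (hne : l₁ ≠ l₂) {x y : P} {k : Set P} (hx : x ∈ PL L D l₁ l₂) (hy : y ∈ PL L D l₁ l₂)
    (hk : Blk L D k) (hxk : x ∈ k) (hyk : y ∈ k) (hxy : x ≠ y) : k ⊆ PL L D l₁ l₂ := by
  have hxD : x ≠ D := neD hk hxk
  have hyD : y ≠ D := neD hk hyk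
  have hx' := hx.resolve_left hxD
  have hy' := hy.resolve_left hyD
  by_cases x1 : x ∈ l₁
  · by_cases y1 : y ∈ l₁
    · have e : k = l₁ := H.uniq hk.1 hl1.1 hxy hxk hyk x1 y1
      intro z hz
      exact Or.inr (Or.inl (e ▸ hz))
    · by_cases y2 : y ∈ l₂
      · by_cases x2 : x ∈ l₂
        · have e : k = l₂ := H.uniq hk.1 hl2.1 hxy hxk hyk x2 y2
          intro z hz
          exact Or.inr (Or.inr (Or.inl (e ▸ hz)))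
        · intro z hz
          exact Or.inr (Or.inr (Or.inr ⟨k, hk, hz, x, y, hxk, x1, x2, hyk, y2, y1⟩))
      · exact K2 H hl1 hl2 ho1 ho2 hne ((hy'.resolve_left y1).resolve_left y2) y1 y2 hk hyk hxk
          (Or.inl x1)
  · by_cases x2 : x ∈ l₂
    · by_cases y2 : y ∈ l₂
      · have e : k = l₂ := H.uniq hk.1 hl2.1 hxy hxk hyk x2 y2
        intro z hz
        exact Or.inr (Or.inr (Or.inl (e ▸ hz)))
      · by_cases y1 : y ∈ l₁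
        · intro z hz
          exact Or.inr (Or.inr (Or.inr ⟨k, hk, hz, y, x, hyk, y1, y2, hxk, x2, x1⟩))
        · exact K2 H hl1 hl2 ho1 ho2 hne ((hy'.resolve_left y1).resolve_left y2) y1 y2 hk hyk hxk
            (Or.inr x2)
    · have hxG := (hx'.resolve_left x1).resolve_left x2
      by_cases hy12 : y ∈ l₁ ∨ y ∈ l₂
      · exact K2 H hl1 hl2 ho1 ho2 hne hxG x1 x2 hk hxk hyk hy12
      · push Not at hy12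
        have hyG := (hy'.resolve_left hy12.1).resolve_left hy12.2
        obtain ⟨p, hp, hp'⟩ := J2 H hl1 hl2 ho1 ho2 hxG hyG hk hxk hyk hxy
        exact K2 H hl1 hl2 ho1 ho2 hne hxG x1 x2 hk hxk hp hp'

theorem classify1 (H : IsRect L D) (hl1 : Blk L D l₁) (hl2 : Blk L D l₂) (ho1 : o ∈ l₁)
    (ho2 : o ∈ l₂) (hne : l₁ ≠ l₂) {p : P} {k : Set P} (hk : Blk L D k) (hkS : k ⊆ PL L D l₁ l₂)
    (hpk : p ∈ k) (hp : p ∈ l₁) :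
    o ∈ k ∨ ∃ a b, a ∈ k ∧ a ∈ l₁ ∧ a ∉ l₂ ∧ b ∈ k ∧ b ∈ l₂ ∧ b ∉ l₁ := by
  by_cases hp2 : p ∈ l₂
  · left
    have e : p = o := H.pt_eq hl1.1 hl2.1 hne hp hp2 ho1 ho2
    exact e ▸ hpk
  obtain ⟨x, hx, hxp, -⟩ := H.pick hk p p (neD hk hpk)
  by_cases x1 : x ∈ l₁
  · left
    have e : k = l₁ := H.uniq hk.1 hl1.1 hxp hx hpk x1 hp
    exact e ▸ ho1
  right
  have hx' := ((hkS hx).resolve_left (neD hk hx)).resolve_left x1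
  obtain ⟨b', hb'1, hb'2, hb'3⟩ := C1 H hl1 hl2 ho1 ho2 hne hx' x1 hk hx hpk hp hp2
  exact ⟨p, b', hpk, hp, hp2, hb'1, hb'2, hb'3⟩

theorem classify (H : IsRect L D) (hl1 : Blk L D l₁) (hl2 : Blk L D l₂) (ho1 : o ∈ l₁)
    (ho2 : o ∈ l₂) (hne : l₁ ≠ l₂) {k : Set P} (hk : Blk L D k) (hkS : k ⊆ PL L D l₁ l₂) :
    o ∈ k ∨ ∃ a b, a ∈ k ∧ a ∈ l₁ ∧ a ∉ l₂ ∧ b ∈ k ∧ b ∈ l₂ ∧ b ∉ l₁ := by
  have hp : ∃ p ∈ k, p ∈ l₁ ∨ p ∈ l₂ := by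
    by_contra hcon
    push Not at hcon
    obtain ⟨x, y, -, hx, hy, -, hxy, -, -⟩ := H.A3 k hk.1
    have hxG := (((hkS hx).resolve_left (neD hk hx)).resolve_left (hcon x hx).1).resolve_left
      (hcon x hx).2
    have hyG := (((hkS hy).resolve_left (neD hk hy)).resolve_left (hcon y hy).1).resolve_left
      (hcon y hy).2
    obtain ⟨p, hp, hp'⟩ := J2 H hl1 hl2 ho1 ho2 hxG hyG hk hx hy hxy
    rcases hp' with h | h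
    · exact (hcon p hp).1 h
    · exact (hcon p hp).2 h
  obtain ⟨p, hpk, hp | hp⟩ := hp
  · exact classify1 H hl1 hl2 ho1 ho2 hne hk hkS hpk hp
  · have hkS' : k ⊆ PL L D l₂ l₁ := by rwa [PL_symm]
    rcases classify1 H hl2 hl1 ho2 ho1 hne.symm hk hkS' hpk hp with h | h
    · exact Or.inl h
    · obtain ⟨a, b, h1, h2, h3, h4, h5, h6⟩ := h
      exact Or.inr ⟨b, a, h4, h5, h6, h1, h2, h3⟩

theorem M1 (H : IsRect L D) (hl1 : Blk L D l₁) (hl2 : Blk L D l₂) (ho1 : o ∈ l₁)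
    (ho2 : o ∈ l₂) (hne : l₁ ≠ l₂) {k k' : Set P} (hk : Blk L D k) (hk' : Blk L D k')
    (hkS : k ⊆ PL L D l₁ l₂) (hok : o ∈ k) {a' b' : P} (a3' : a' ∈ k') (a1' : a' ∈ l₁)
    (a2' : a' ∉ l₂) (b3' : b' ∈ k') (b2' : b' ∈ l₂) (b1' : b' ∉ l₁) : ∃ x, x ∈ k ∧ x ∈ k' := by
  obtain ⟨x, hx, hxo, -⟩ := H.pick hk o o (neD hk hok)
  by_cases x1 : x ∈ l₁
  · have e : k = l₁ := H.uniq hk.1 hl1.1 hxo hx hok x1 ho1
    exact ⟨a', e ▸ a1', a3'⟩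
  by_cases x2 : x ∈ l₂
  · have e : k = l₂ := H.uniq hk.1 hl2.1 hxo hx hok x2 ho2
    exact ⟨b', e ▸ b2', b3'⟩
  by_cases hxk' : x ∈ k'
  · exact ⟨x, hx, hxk'⟩
  obtain ⟨h, hh, hxh, a, b, a3, a1, a2, b3, b2, b1⟩ :=
    (((hkS hx).resolve_left (neD hk hx)).resolve_left x1).resolve_left x2
  have hhk' : h ≠ k' := fun e => hxk' (e ▸ hxh)
  have hab : a ≠ b := fun e => a2 (e ▸ b2)
  have hab' : a' ≠ b' := fun e => a2' (e ▸ b2')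
  have hhl1 : h ≠ l₁ := fun e => b1 (e ▸ b3)
  have hhl2 : h ≠ l₂ := fun e => a2 (e ▸ a3)
  obtain ⟨v, hv1, hv2⟩ := H.veb hl1.1 hl2.1 hl1.2 hl2.2 ho1 ho2 hh.1 hk'.1 a1 a3 b2 b3 a1' a3' b2'
    b3' hab hab'
  by_cases haa : a = a'
  · have hbb : b ≠ b' := by
      intro e
      exact hhk' (H.uniq hh.1 hk'.1 hab a3 b3 (haa ▸ a3') (e ▸ b3'))
    obtain ⟨y, hy1, hy2⟩ := H.veb hh.1 hl2.1 hh.2 hl2.2 b3 b2 hk'.1 hk.1 hv1 hv2 b2' b3' hxh hx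
      ho2 hok (fun e => hbb (H.pt_eq hh.1 hl2.1 hhl2 b3 b2 (e ▸ hv1) b2')) hxo
    exact ⟨y, hy2, hy1⟩
  · obtain ⟨y, hy1, hy2⟩ := H.veb hh.1 hl1.1 hh.2 hl1.2 a3 a1 hk'.1 hk.1 hv1 hv2 a1' a3' hxh hx
      ho1 hok (fun e => haa (H.pt_eq hh.1 hl1.1 hhl1 a3 a1 (e ▸ hv1) a1')) hxo
    exact ⟨y, hy2, hy1⟩

theorem meetPL (H : IsRect L D) (hl1 : Blk L D l₁) (hl2 : Blk L D l₂) (ho1 : o ∈ l₁)
    (ho2 : o ∈ l₂) (hne : l₁ ≠ l₂) {k k' : Set P} (hk : Blk L D k) (hk' : Blk L D k')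
    (hkS : k ⊆ PL L D l₁ l₂) (hkS' : k' ⊆ PL L D l₁ l₂) : ∃ x, x ∈ k ∧ x ∈ k' := by
  rcases classify H hl1 hl2 ho1 ho2 hne hk hkS with h1 | ⟨a, b, a3, a1, a2, b3, b2, b1⟩
  · rcases classify H hl1 hl2 ho1 ho2 hne hk' hkS' with h2 | ⟨a', b', a3', a1', a2', b3', b2', b1'⟩
    · exact ⟨o, h1, h2⟩
    · exact M1 H hl1 hl2 ho1 ho2 hne hk hk' hkS h1 a3' a1' a2' b3' b2' b1'
  · rcases classify H hl1 hl2 ho1 ho2 hne hk' hkS' with h2 | ⟨a', b', a3', a1', a2', b3', b2', b1'⟩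
    · obtain ⟨x, h3, h4⟩ := M1 H hl1 hl2 ho1 ho2 hne hk' hk hkS' h2 a3 a1 a2 b3 b2 b1
      exact ⟨x, h4, h3⟩
    · exact H.veb hl1.1 hl2.1 hl1.2 hl2.2 ho1 ho2 hk.1 hk'.1 a1 a3 b2 b3 a1' a3' b2' b3'
        (fun e => a2 (e ▸ b2)) (fun e => a2' (e ▸ b2'))

end plane

/-- `π` is closed, with two ordinary lines -/
structure Full (L : Set (Set P)) (D : P) (π : Set P) : Prop where
  memD : D ∈ π
  join : ∀ b, Blk L D b → ∀ x ∈ b, ∀ y ∈ b, x ∈ π → y ∈ π → x ≠ y → b ⊆ π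
  meet : ∀ b c, Blk L D b → Blk L D c → b ⊆ π → c ⊆ π → ∃ x, x ∈ b ∧ x ∈ c
  two : ∃ l₁ l₂, Blk L D l₁ ∧ Blk L D l₂ ∧ l₁ ≠ l₂ ∧ l₁ ⊆ π ∧ l₂ ⊆ π

theorem full_PL (H : IsRect L D) {l₁ l₂ : Set P} {o : P} (hl1 : Blk L D l₁) (hl2 : Blk L D l₂)
    (ho1 : o ∈ l₁) (ho2 : o ∈ l₂) (hne : l₁ ≠ l₂) : Full L D (PL L D l₁ l₂) where
  memD := Or.inl rfl
  join := fun b hb x hx y hy h1 h2 hxy => joinPL H hl1 hl2 ho1 ho2 hne h1 h2 hb hx hy hxy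
  meet := fun b c hb hc h1 h2 => meetPL H hl1 hl2 ho1 ho2 hne hb hc h1 h2
  two := ⟨l₁, l₂, hl1, hl2, hne, fun z hz => Or.inr (Or.inl hz),
    fun z hz => Or.inr (Or.inr (Or.inl hz))⟩

end Q65.PR
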