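import Pool.Agent.Q65.PRMain

/-!
# Projective rectangles: the planes
-/

set_option autoImplicit false

universe u

namespace Q65.PR

variable {P : Type u} {L : Set (Set P)} {D : P}

theorem meet_point (H : IsRect L D) {S : Set P} (hS : IsProjPlane S (linesOf L S))
    {l l' : Set P} (hl : l ∈ L) (hl' : l' ∈ L) (h1 : (l ∩ S).Nontrivial)
    (h2 : (l' ∩ S).Nontrivial) : ∃ x, x ∈ S ∧ x ∈ l ∧ x ∈ l' := by
  by_cases e : l = l'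
  · subst e
    obtain ⟨x, hx, -⟩ := h1
    exact ⟨x, hx.2, hx.1, hx.1⟩
  have hne : l ∩ S ≠ l' ∩ S := by
    intro e2
    obtain ⟨x, hx, y, hy, hxy⟩ := h1
    have hx' : x ∈ l' ∩ S := e2 ▸ hx
    have hy' : y ∈ l' ∩ S := e2 ▸ hy
    exact e (H.uniq hl hl' hxy hx.1 hy.1 hx'.1 hy'.1)
  obtain ⟨x, ⟨h3, h4⟩, -⟩ := hS.2.2.1 _ ⟨l, hl, rfl, h1⟩ _ ⟨l', hl', rfl, h2⟩ hne
  exact ⟨x, h3.2, h3.1, h4.1⟩

theorem full_max (H : IsRect L D) {π S : Set P} (hπ : Full L D π) (hπS : π ⊆ S)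
    (hS : IsProjPlane S (linesOf L S)) : S ⊆ π := by
  intro x hx
  by_cases hxD : x = D
  · exact hxD ▸ hπ.memD
  obtain ⟨l₁, l₂, hl1, hl2, hne, h1, h2⟩ := hπ.two
  obtain ⟨o, ho1, ho2⟩ := hπ.meet l₁ l₂ hl1 hl2 h1 h2
  obtain ⟨a, ha, hao, has⟩ := H.pick hl1 o x hxD
  obtain ⟨g, hg, hag, hxg⟩ := H.join has
  have hax := H.ne_of_not_sim has
  have hn1 : (g ∩ S).Nontrivial := ⟨a, ⟨hag, hπS (h1 ha)⟩, x, ⟨hxg, hx⟩, hax⟩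
  obtain ⟨c, hc, hco, -⟩ := H.pick hl2 o x hxD
  have hn2 : (l₂ ∩ S).Nontrivial := ⟨c, ⟨hc, hπS (h2 hc)⟩, o, ⟨ho2, hπS (h2 ho2)⟩, hco⟩
  obtain ⟨b, -, hb1, hb2⟩ := meet_point H hS hg.1 hl2.1 hn1 hn2
  have hab : a ≠ b := by
    intro e
    exact hao (H.pt_eq hl1.1 hl2.1 hne ha (e ▸ hb2) ho1 ho2)
  exact hπ.join g hg a hag b hb1 (h1 ha) (h2 hb2) hab hxg

theorem full_eq (H : IsRect L D) {π π' l₁ l₂ : Set P} (hπ : Full L D π) (hπ' : Full L D π')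
    (hl1 : Blk L D l₁) (hl2 : Blk L D l₂) (hne : l₁ ≠ l₂) (h1 : l₁ ⊆ π) (h2 : l₂ ⊆ π)
    (h1' : l₁ ⊆ π') (h2' : l₂ ⊆ π') : π' ⊆ π := by
  intro x hx
  by_cases hxD : x = D
  · exact hxD ▸ hπ.memD
  obtain ⟨o, ho1, ho2⟩ := hπ.meet l₁ l₂ hl1 hl2 h1 h2
  obtain ⟨a, ha, hao, has⟩ := H.pick hl1 o x hxD
  obtain ⟨g, hg, hag, hxg⟩ := H.join has
  have hax := H.ne_of_not_sim has
  have hgS := hπ'.join g hg a hag x hxg (h1' ha) hx hax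
  obtain ⟨b, hb1, hb2⟩ := hπ'.meet g l₂ hg hl2 hgS h2'
  have hab : a ≠ b := by
    intro e
    exact hao (H.pt_eq hl1.1 hl2.1 hne ha (e ▸ hb2) ho1 ho2)
  exact hπ.join g hg a hag b hb1 (h1 ha) (h2 hb2) hab hxg

theorem full_sub (H : IsRect L D) {π : Set P} (hπ : Full L D π) :
    IsProjPlane π (linesOf L π) := by
  refine ⟨?_, ?_, ?_, ?_⟩
  · rintro b ⟨l, -, rfl, -⟩
    exact Set.inter_subset_right
  · intro x hx y hy hxy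
    obtain ⟨l, ⟨h1, h2, h3⟩, -⟩ := H.A1 x y hxy
    refine ⟨l ∩ π, ⟨⟨l, h1, rfl, ⟨x, ⟨h2, hx⟩, y, ⟨h3, hy⟩, hxy⟩⟩, ⟨h2, hx⟩, ⟨h3, hy⟩⟩, ?_⟩
    rintro t ⟨⟨l', h1', rfl, -⟩, h2', h3'⟩
    rw [H.uniq h1' h1 hxy h2'.1 h3'.1 h2 h3]
  · rintro b ⟨l, hl, rfl, hn⟩ c ⟨l', hl', rfl, hn'⟩ hne
    have hll : l ≠ l' := fun e => hne (by rw [e])
    have hex : ∃ x, x ∈ π ∧ x ∈ l ∧ x ∈ l' := by
      by_cases h1 : D ∈ l
      · by_cases h2 : D ∈ l'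
        · exact ⟨D, hπ.memD, h1, h2⟩
        · obtain ⟨x, hx1, hx2⟩ := H.meet_spec ⟨hl', h2⟩ hl h1
          obtain ⟨y, hy, z, hz, hyz⟩ := hn'
          exact ⟨x, hπ.join l' ⟨hl', h2⟩ y hy.1 z hz.1 hy.2 hz.2 hyz hx1, hx2, hx1⟩
      · obtain ⟨y, hy, z, hz, hyz⟩ := hn
        have hlS := hπ.join l ⟨hl, h1⟩ y hy.1 z hz.1 hy.2 hz.2 hyz
        by_cases h2 : D ∈ l'
        · obtain ⟨x, hx1, hx2⟩ := H.meet_spec ⟨hl, h1⟩ hl' h2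
          exact ⟨x, hlS hx1, hx1, hx2⟩
        · obtain ⟨y', hy', z', hz', hyz'⟩ := hn'
          have hlS' := hπ.join l' ⟨hl', h2⟩ y' hy'.1 z' hz'.1 hy'.2 hz'.2 hyz'
          obtain ⟨x, hx1, hx2⟩ := hπ.meet l l' ⟨hl, h1⟩ ⟨hl', h2⟩ hlS hlS'
          exact ⟨x, hlS hx1, hx1, hx2⟩
    obtain ⟨x, hx, hx1, hx2⟩ := hex
    refine ⟨x, ⟨⟨hx1, hx⟩, ⟨hx2, hx⟩⟩, ?_⟩
    rintro y ⟨hy1, hy2⟩
    exact H.pt_eq hl hl' hll hy1.1 hy2.1 hx1 hx2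
  · obtain ⟨l₁, l₂, hl1, hl2, hne, h1, h2⟩ := hπ.two
    obtain ⟨o, ho1, ho2⟩ := hπ.meet l₁ l₂ hl1 hl2 h1 h2
    have two : ∀ l : Set P, Blk L D l → o ∈ l → ∃ a ∈ l, ∃ b ∈ l, a ≠ o ∧ b ≠ o ∧ a ≠ b := by
      intro l hl hol
      obtain ⟨a, ha, hao, -⟩ := H.pick hl o o (neD hl hol)
      obtain ⟨b, hb, hbo, hbs⟩ := H.pick hl o a (neD hl ha)
      exact ⟨a, ha, b, hb, hao, hbo, (H.ne_of_not_sim hbs).symm⟩
    obtain ⟨a, ha, b, hb, hao, hbo, hab⟩ := two l₁ hl1 ho1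
    obtain ⟨c, hc, d, hd, hco, hdo, hcd⟩ := two l₂ hl2 ho2
    have ha2 : a ∉ l₂ := fun h => hao (H.pt_eq hl1.1 hl2.1 hne ha h ho1 ho2)
    have hb2 : b ∉ l₂ := fun h => hbo (H.pt_eq hl1.1 hl2.1 hne hb h ho1 ho2)
    have hc1 : c ∉ l₁ := fun h => hco (H.pt_eq hl1.1 hl2.1 hne h hc ho1 ho2)
    have hd1 : d ∉ l₁ := fun h => hdo (H.pt_eq hl1.1 hl2.1 hne h hd ho1 ho2)
    refine ⟨a, b, c, d, h1 ha, h1 hb, h2 hc, h2 hd, hab, fun e => ha2 (e ▸ hc),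
      fun e => ha2 (e ▸ hd), fun e => hb2 (e ▸ hc), fun e => hb2 (e ▸ hd), hcd, ?_⟩
    rintro t ⟨l, hl, rfl, -⟩
    refine ⟨?_, ?_, ?_, ?_⟩
    · rintro ⟨p1, p2, p3⟩
      exact hc1 (H.uniq hl hl1.1 hab p1.1 p2.1 ha hb ▸ p3.1)
    · rintro ⟨p1, p2, p3⟩
      exact hd1 (H.uniq hl hl1.1 hab p1.1 p2.1 ha hb ▸ p3.1)
    · rintro ⟨p1, p2, p3⟩
      exact ha2 (H.uniq hl hl2.1 hcd p2.1 p3.1 hc hd ▸ p1.1)
    · rintro ⟨p1, p2, p3⟩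
      exact hb2 (H.uniq hl hl2.1 hcd p2.1 p3.1 hc hd ▸ p1.1)

/-- a subplane with two of its lines ordinary lies in the plane of these lines -/
theorem sub_PL (H : IsRect L D) {S : Set P} (hS : IsProjPlane S (linesOf L S)) {o a b e : P}
    (hoS : o ∈ S) (haS : a ∈ S) (hbS : b ∈ S) (heS : e ∈ S) (hq : Quad (linesOf L S) o a b e)
    {l₁ l₂ : Set P} (hl1 : Blk L D l₁) (hl2 : Blk L D l₂) (ho1 : o ∈ l₁) (ho2 : o ∈ l₂)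
    (ha1 : a ∈ l₁) (hb2 : b ∈ l₂) : l₁ ≠ l₂ ∧ S ⊆ PL L D l₁ l₂ := by
  obtain ⟨hoa, hob, hoe, hab, hae, hbe, hq⟩ := hq
  have hn1 : (l₁ ∩ S).Nontrivial := ⟨o, ⟨ho1, hoS⟩, a, ⟨ha1, haS⟩, hoa⟩
  have hn2 : (l₂ ∩ S).Nontrivial := ⟨o, ⟨ho2, hoS⟩, b, ⟨hb2, hbS⟩, hob⟩
  have hne : l₁ ≠ l₂ := by
    rintro rfl
    exact (hq _ ⟨l₁, hl1.1, rfl, hn1⟩).1 ⟨⟨ho1, hoS⟩, ⟨ha1, haS⟩, ⟨hb2, hbS⟩⟩
  refine ⟨hne, ?_⟩
  have ha2 : a ∉ l₂ := fun h => hoa (H.pt_eq hl1.1 hl2.1 hne ho1 ho2 ha1 h)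
  have hb1 : b ∉ l₁ := fun h => hob (H.pt_eq hl1.1 hl2.1 hne ho1 ho2 h hb2)
  intro x hx
  by_cases hxD : x = D
  · exact Or.inl hxD
  by_cases x1 : x ∈ l₁
  · exact Or.inr (Or.inl x1)
  by_cases x2 : x ∈ l₂
  · exact Or.inr (Or.inr (Or.inl x2))
  right; right; right
  -- a point of `l₁ ∩ S` resp. `l₂ ∩ S` which is not on the special line of `x`
  have key1 : ∀ c ∈ l₁, c ∈ S → c ∉ l₂ → ¬ Sim L D c x → G L D l₁ l₂ x := by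
    intro c hc hcS hc2 hcx
    obtain ⟨g, hg, hcg, hxg⟩ := H.join hcx
    have hng : (g ∩ S).Nontrivial := ⟨c, ⟨hcg, hcS⟩, x, ⟨hxg, hx⟩, H.ne_of_not_sim hcx⟩
    obtain ⟨y, -, hy1, hy2⟩ := meet_point H hS hg.1 hl2.1 hng hn2
    refine ⟨g, hg, hxg, c, y, hcg, hc, hc2, hy1, hy2, fun hy3 => ?_⟩
    have hgl : g ≠ l₁ := fun e => x1 (e ▸ hxg)
    exact hc2 (H.pt_eq hg.1 hl1.1 hgl hcg hc hy1 hy3 ▸ hy2)
  have key2 : ∀ c ∈ l₂, c ∈ S → c ∉ l₁ → ¬ Sim L D c x → G L D l₁ l₂ x := by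
    intro c hc hcS hc1 hcx
    obtain ⟨g, hg, hcg, hxg⟩ := H.join hcx
    have hng : (g ∩ S).Nontrivial := ⟨c, ⟨hcg, hcS⟩, x, ⟨hxg, hx⟩, H.ne_of_not_sim hcx⟩
    obtain ⟨y, -, hy1, hy2⟩ := meet_point H hS hg.1 hl1.1 hng hn1
    refine ⟨g, hg, hxg, y, c, hy1, hy2, fun hy3 => ?_, hcg, hc, hc1⟩
    have hgl : g ≠ l₂ := fun e => x2 (e ▸ hxg)
    exact hc1 (H.pt_eq hg.1 hl2.1 hgl hcg hc hy1 hy3 ▸ hy2)
  by_cases hax : Sim L D a x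
  · by_cases hbx : Sim L D b x
    · -- the line of `b` and `e` meets `l₁` in a third point
      obtain ⟨m, ⟨hm, hbm, hem⟩, -⟩ := H.A1 b e hbe
      have hnm : (m ∩ S).Nontrivial := ⟨b, ⟨hbm, hbS⟩, e, ⟨hem, heS⟩, hbe⟩
      obtain ⟨c, hcS, hc1, hc2⟩ := meet_point H hS hl1.1 hm hn1 hnm
      have hmL : m ∩ S ∈ linesOf L S := ⟨m, hm, rfl, hnm⟩
      have hco : c ≠ o := by
        rintro rfl
        exact (hq _ hmL).2.2.1 ⟨⟨hc2, hcS⟩, ⟨hbm, hbS⟩, ⟨hem, heS⟩⟩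
      have hca : c ≠ a := by
        rintro rfl
        exact (hq _ hmL).2.2.2 ⟨⟨hc2, hcS⟩, ⟨hbm, hbS⟩, ⟨hem, heS⟩⟩
      have hcl2 : c ∉ l₂ := fun h => hco (H.pt_eq hl1.1 hl2.1 hne hc1 h ho1 ho2)
      refine key1 c hc1 hcS hcl2 fun hcx => ?_
      exact H.not_sim hl1 hc1 ha1 hca (H.trans hcx hax.symm hxD)
    · exact key2 b hb2 hbS hb1 hbx
  · exact key1 a ha1 haS ha2 hax

theorem quad_perm {B : Set (Set P)} {a b c d : P} (h : Quad B a b c d) :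
    Quad B a b d c ∧ Quad B a c b d ∧ Quad B b a c d := by
  obtain ⟨h1, h2, h3, h4, h5, h6, h7⟩ := h
  refine ⟨⟨h1, h3, h2, h5, h4, h6.symm, fun l hl => ?_⟩,
    ⟨h2, h1, h3, h4.symm, h6, h5, fun l hl => ?_⟩,
    ⟨h1.symm, h4, h5, h2, h3, h6, fun l hl => ?_⟩⟩ <;>
  · obtain ⟨p1, p2, p3, p4⟩ := h7 l hl
    tauto

theorem sub_of_pairs (H : IsRect L D) {S : Set P} (hS : IsProjPlane S (linesOf L S)) {o a b e : P}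
    (hoS : o ∈ S) (haS : a ∈ S) (hbS : b ∈ S) (heS : e ∈ S) (hq : Quad (linesOf L S) o a b e)
    (h1 : ¬ Sim L D o a) (h2 : ¬ Sim L D o b) : ∃ l₁ l₂ o, Blk L D l₁ ∧ Blk L D l₂ ∧ l₁ ≠ l₂ ∧
      o ∈ l₁ ∧ o ∈ l₂ ∧ S ⊆ PL L D l₁ l₂ := by
  obtain ⟨l₁, hl1, ho1, ha1⟩ := H.join h1
  obtain ⟨l₂, hl2, ho2, hb2⟩ := H.join h2
  obtain ⟨h3, h4⟩ := sub_PL H hS hoS haS hbS heS hq hl1 hl2 ho1 ho2 ha1 hb2
  exact ⟨l₁, l₂, o, hl1, hl2, h3, ho1, ho2, h4⟩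

theorem exists_PL_of (H : IsRect L D) {S : Set P} (hS : IsProjPlane S (linesOf L S)) {o a b e : P}
    (hoS : o ∈ S) (haS : a ∈ S) (hbS : b ∈ S) (heS : e ∈ S) (hq : Quad (linesOf L S) o a b e)
    (hoD : o ≠ D) : ∃ l₁ l₂ o, Blk L D l₁ ∧ Blk L D l₂ ∧ l₁ ≠ l₂ ∧
      o ∈ l₁ ∧ o ∈ l₂ ∧ S ⊆ PL L D l₁ l₂ := by
  have three : ∀ y z : P, y ∈ S → z ∈ S → o ≠ y → Sim L D o y → Sim L D o z →
      (∀ t ∈ linesOf L S, ¬ (o ∈ t ∧ y ∈ t ∧ z ∈ t)) → False := by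
    intro y z hy hz hxy h1 h2 h3
    obtain ⟨s, hs, hD, hxs, hys⟩ := h1
    have hzs := H.sim_mem h2 hs hD hxs hoD
    exact h3 _ ⟨s, hs, rfl, ⟨o, ⟨hxs, hoS⟩, y, ⟨hys, hy⟩, hxy⟩⟩
      ⟨⟨hxs, hoS⟩, ⟨hys, hy⟩, ⟨hzs, hz⟩⟩
  by_cases h1 : Sim L D o a
  · have h2 : ¬ Sim L D o b := fun h =>
      three a b haS hbS hq.1 h1 h (fun t ht => (hq.2.2.2.2.2.2 t ht).1)
    have h3 : ¬ Sim L D o e := fun h =>
      three a e haS heS hq.1 h1 h (fun t ht => (hq.2.2.2.2.2.2 t ht).2.1)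
    exact sub_of_pairs H hS hoS hbS heS haS (quad_perm (quad_perm hq).2.1).1 h2 h3
  · by_cases h2 : Sim L D o b
    · have h3 : ¬ Sim L D o e := fun h =>
        three b e hbS heS hq.2.1 h2 h (fun t ht => (hq.2.2.2.2.2.2 t ht).2.2.1)
      exact sub_of_pairs H hS hoS haS heS hbS (quad_perm hq).1 h1 h3
    · exact sub_of_pairs H hS hoS haS hbS heS hq h1 h2

theorem exists_PL (H : IsRect L D) {S : Set P} (hS : IsProjPlane S (linesOf L S)) :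
    ∃ l₁ l₂ o, Blk L D l₁ ∧ Blk L D l₂ ∧ l₁ ≠ l₂ ∧ o ∈ l₁ ∧ o ∈ l₂ ∧ S ⊆ PL L D l₁ l₂ := by
  obtain ⟨a, b, c, d, haS, hbS, hcS, hdS, hq⟩ := hS.2.2.2
  by_cases haD : a = D
  · exact exists_PL_of H hS hbS haS hcS hdS (quad_perm hq).2.2
      (fun h => hq.1 (haD.trans h.symm))
  · exact exists_PL_of H hS haS hbS hcS hdS hq haD

theorem plane_iff (H : IsRect L D) {S : Set P} : IsPlane L S ↔ Full L D S := by
  constructor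
  · intro h
    obtain ⟨l₁, l₂, o, hl1, hl2, hne, ho1, ho2, hS⟩ := exists_PL H h.prop
    have hf := full_PL H hl1 hl2 ho1 ho2 hne
    have h2 : PL L D l₁ l₂ ⊆ S := h.le_of_ge (full_sub H hf) hS
    rw [Set.Subset.antisymm hS h2]
    exact hf
  · intro h
    refine ⟨full_sub H h, fun T hT hST => ?_⟩
    exact full_max H h hST hT

/-- The main step: planes with two common ordinary points on a special line `s` have the same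
section with `s`. -/
theorem section_subset (H : IsRect L D) {π₁ π₂ s : Set P} (h₁ : Full L D π₁) (h₂ : Full L D π₂)
    (hs : s ∈ L) (hD : D ∈ s) {p p' : P} (hps : p ∈ s) (hps' : p' ∈ s) (hpp : p ≠ p')
    (hpD : p ≠ D) (hpD' : p' ≠ D) (hp1 : p ∈ π₁) (hp2 : p ∈ π₂) (hp1' : p' ∈ π₁)
    (hp2' : p' ∈ π₂) : s ∩ π₁ ⊆ s ∩ π₂ := by
  by_cases heq : π₁ = π₂
  · rw [heq]
  rintro x ⟨hxs, hx1⟩
  refine ⟨hxs, ?_⟩
  by_contra hx2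
  have hxD : x ≠ D := fun e => hx2 (e ▸ h₂.memD)
  have hxp : x ≠ p := fun e => hx2 (e ▸ hp2)
  have hxp' : x ≠ p' := fun e => hx2 (e ▸ hp2')
  -- points not on `s`
  have hns : ∀ q z : P, q ∈ s → q ≠ D → z ∉ s → ¬ Sim L D q z := fun q z hq hqD hz h =>
    hz (H.sim_mem h hs hD hq hqD)
  -- the planes are disjoint outside `s`
  have hdis : ∀ z, z ∈ π₁ → z ∈ π₂ → z ∈ s := by
    intro z hz1 hz2
    by_contra hzs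
    obtain ⟨g, hg, hpg, hzg⟩ := H.join (hns p z hps hpD hzs)
    obtain ⟨g', hg', hpg', hzg'⟩ := H.join (hns p' z hps' hpD' hzs)
    have hzp : p ≠ z := fun e => hzs (e ▸ hps)
    have hzp' : p' ≠ z := fun e => hzs (e ▸ hps')
    have hgg : g ≠ g' := by
      intro e
      exact hpp (H.blk_spec_eq hg hs hD hpg hps (e ▸ hpg') hps')
    have k1 := h₁.join g hg p hpg z hzg hp1 hz1 hzp
    have k2 := h₂.join g hg p hpg z hzg hp2 hz2 hzp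
    have k3 := h₁.join g' hg' p' hpg' z hzg' hp1' hz1 hzp'
    have k4 := h₂.join g' hg' p' hpg' z hzg' hp2' hz2 hzp'
    exact heq (Set.Subset.antisymm (full_eq H h₂ h₁ hg hg' hgg k2 k4 k1 k3)
      (full_eq H h₁ h₂ hg hg' hgg k1 k3 k2 k4))
  -- points `a₁`, `a₂`
  have hex : ∀ π : Set P, Full L D π → ∀ u : P, u ≠ D → ∃ a ∈ π, a ∉ s ∧ ¬ Sim L D a u := by
    intro π hπ u hu
    obtain ⟨l₁, l₂, hl1, hl2, hne, k1, k2⟩ := hπ.two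
    obtain ⟨o, ho, hos⟩ := H.meet_spec hl1 hs hD
    obtain ⟨a, ha, hao, hau⟩ := H.pick hl1 o u hu
    exact ⟨a, k1 ha, fun h => hao (H.blk_spec_eq hl1 hs hD ha h ho hos), hau⟩
  obtain ⟨a₁, ha1, ha1s, -⟩ := hex π₁ h₁ p hpD
  have ha1D : a₁ ≠ D := fun e => ha1s (e ▸ hD)
  obtain ⟨a₂, ha2, ha2s, ha12⟩ := hex π₂ h₂ a₁ ha1D
  obtain ⟨m, hm, ha2m, ha1m⟩ := H.join ha12
  obtain ⟨O, hOm, hOs⟩ := H.meet_spec hm hs hD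
  have hOD : O ≠ D := neD hm hOm
  have hOa1 : O ≠ a₁ := fun e => ha1s (e ▸ hOs)
  have hOa2 : O ≠ a₂ := fun e => ha2s (e ▸ hOs)
  have hO1 : O ∉ π₁ := fun h =>
    ha2s (hdis a₂ (h₁.join m hm O hOm a₁ ha1m h ha1 hOa1 ha2m) ha2)
  have hO2 : O ∉ π₂ := fun h =>
    ha1s (hdis a₁ ha1 (h₂.join m hm O hOm a₂ ha2m h ha2 hOa2 ha1m))
  have ha12ne : a₂ ≠ a₁ := H.ne_of_not_sim ha12
  -- the projection from `O`
  let pr : P → P → P → Prop := fun q c c' =>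
    (∃ t, Blk L D t ∧ O ∈ t ∧ c ∈ t ∧ c' ∈ t) ∧
    (∃ g', Blk L D g' ∧ q ∈ g' ∧ a₂ ∈ g' ∧ c' ∈ g') ∧ c' ∈ π₂ ∧ c' ∉ s ∧ c' ≠ c ∧ c ∈ π₁ ∧ c ∉ s
  have proj : ∀ q, q ∈ s → q ≠ D → q ∈ π₁ → q ∈ π₂ → ∀ c g, Blk L D g → q ∈ g → a₁ ∈ g →
      c ∈ g → c ≠ q → c ≠ a₁ → ∃ c', pr q c c' := by
    intro q hqs hqD hq1 hq2 c g hg hqg hag hcg hcq hca
    have hqa1 : q ≠ a₁ := fun e => ha1s (e ▸ hqs)
    have hqa2 : q ≠ a₂ := fun e => ha2s (e ▸ hqs)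
    have hgπ := h₁.join g hg q hqg a₁ hag hq1 ha1 hqa1
    have hcs : c ∉ s := fun h => hcq (H.blk_spec_eq hg hs hD hcg h hqg hqs)
    obtain ⟨t, ht, hOt, hct⟩ := H.join (hns O c hOs hOD hcs)
    obtain ⟨g', hg', hqg', hag'⟩ := H.join (hns q a₂ hqs hqD ha2s)
    have hOc : O ≠ c := fun e => hcs (e ▸ hOs)
    obtain ⟨c', hc1, hc2⟩ := H.veb hm.1 hg.1 hm.2 hg.2 ha1m hag ht.1 hg'.1 hOm hOt hcg hct ha2m
      hag' hqg hqg' hOc hqa2.symm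
    have hg'π := h₂.join g' hg' q hqg' a₂ hag' hq2 ha2 hqa2
    have hc's : c' ∉ s := by
      intro h
      have e1 := H.blk_spec_eq ht hs hD hc1 h hOt hOs
      have e2 := H.blk_spec_eq hg' hs hD hc2 h hqg' hqs
      exact hO1 (e1 ▸ e2 ▸ hq1)
    refine ⟨c', ⟨t, ht, hOt, hct, hc1⟩, ⟨g', hg', hqg', hag', hc2⟩, hg'π hc2, hc's, ?_, hgπ hcg,
      hcs⟩
    rintro rfl
    exact hcs (hdis _ (hgπ hcg) (hg'π hc2))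
  have inj : ∀ q g c d c', Blk L D g → g ⊆ π₁ → c ∈ g → d ∈ g → pr q c c' → pr q d c' →
      c = d := by
    intro q g c d c' hg hgπ hcg hdg h1 h2
    obtain ⟨⟨t, ht, hOt, hct, hc't⟩, -, -, hc's, -⟩ := h1
    obtain ⟨⟨t', ht', hOt', hdt', hc't'⟩, -⟩ := h2
    have hOc' : O ≠ c' := fun e => hc's (e ▸ hOs)
    have e1 : t = t' := H.uniq ht.1 ht'.1 hOc' hOt hc't hOt' hc't'
    have hne : t ≠ g := fun e => hO1 (hgπ (e ▸ hOt))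
    exact H.pt_eq ht.1 hg.1 hne hct hcg (e1 ▸ hdt') hdg
  have cls : ∀ q c d c' d', q ∈ s → pr q c c' → pr q d d' → Sim L D c' d' → c' = d' := by
    intro q c d c' d' hqs h1 h2 h3
    obtain ⟨-, ⟨g', hg', hqg', hag', hc'g'⟩, -⟩ := h1
    obtain ⟨-, ⟨g, hg, hqg, hag, hd'g⟩, -⟩ := h2
    have hqa2 : q ≠ a₂ := fun e => ha2s (e ▸ hqs)
    have e1 : g = g' := H.uniq hg.1 hg'.1 hqa2 hqg hag hqg' hag'
    by_contra hne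
    exact H.not_sim hg' hc'g' (e1 ▸ hd'g) hne h3
  have des : ∀ x₀, x₀ ∈ s → x₀ ∈ π₁ → x₀ ∉ π₂ → ∀ q r c d c' d' k, Blk L D k → x₀ ∈ k → c ∈ k →
      d ∈ k → c ≠ d → pr q c c' → pr r d d' → Sim L D c' d' := by
    intro x₀ h0s h01 h02 q r c d c' d' k hk hxk hck hdk hcd h1 h2
    by_contra hsim
    obtain ⟨⟨t, ht, hOt, hct, hc't⟩, -, hc'π, hc's, -, hcπ, hcs⟩ := h1
    obtain ⟨⟨t', ht', hOt', hdt', hd't'⟩, -, hd'π, hd's, -⟩ := h2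
    obtain ⟨n, hn, hc'n, hd'n⟩ := H.join hsim
    have hne := H.ne_of_not_sim hsim
    obtain ⟨y, hy1, hy2⟩ := H.veb ht.1 ht'.1 ht.2 ht'.2 hOt hOt' hk.1 hn.1 hct hck hdt' hdk hc't
      hc'n hd't' hd'n hcd hne
    have hx0c : x₀ ≠ c := fun e => hcs (e ▸ h0s)
    have hy1π := h₁.join k hk x₀ hxk c hck h01 hcπ hx0c hy1
    have hy2π := h₂.join n hn c' hc'n d' hd'n hc'π hd'π hne hy2
    have hys := hdis y hy1π hy2π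
    exact h02 (H.blk_spec_eq hk hs hD hy1 hys hxk h0s ▸ hy2π)
  -- the lines `p a₁` and `p' a₁`
  obtain ⟨g, hg, hpg, hag⟩ := H.join (hns p a₁ hps hpD ha1s)
  obtain ⟨g', hg', hpg', hag'⟩ := H.join (hns p' a₁ hps' hpD' ha1s)
  have hpa1 : p ≠ a₁ := fun e => ha1s (e ▸ hps)
  have hpa1' : p' ≠ a₁ := fun e => ha1s (e ▸ hps')
  have hgπ := h₁.join g hg p hpg a₁ hag hp1 ha1 hpa1
  have hgπ' := h₁.join g' hg' p' hpg' a₁ hag' hp1' ha1 hpa1'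
  have hgg : g ≠ g' := fun e => hpp (H.blk_spec_eq hg hs hD hpg hps (e ▸ hpg') hps')
  -- the line through an exceptional point and a point of `p a₁`
  have lin : ∀ x₀, x₀ ∈ s → x₀ ∈ π₁ → x₀ ∉ π₂ → ∀ c ∈ g, c ≠ p → c ≠ a₁ → ∃ k d, Blk L D k ∧
      x₀ ∈ k ∧ c ∈ k ∧ k ⊆ π₁ ∧ d ∈ k ∧ d ∈ g' ∧ d ≠ p' ∧ d ≠ a₁ ∧ c ≠ d ∧ k ≠ g := by
    intro x₀ h0s h01 h02 c hc hcp hca
    have h0D : x₀ ≠ D := fun e => h02 (e ▸ h₂.memD)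
    have hcs : c ∉ s := fun h => hcp (H.blk_spec_eq hg hs hD hc h hpg hps)
    obtain ⟨k, hk, hxk, hck⟩ := H.join (hns x₀ c h0s h0D hcs)
    have hx0c : x₀ ≠ c := fun e => hcs (e ▸ h0s)
    have hkπ := h₁.join k hk x₀ hxk c hck h01 (hgπ hc) hx0c
    obtain ⟨d, hd1, hd2⟩ := h₁.meet k g' hk hg' hkπ hgπ'
    have hkg : k ≠ g := by
      rintro rfl
      exact h02 (H.blk_spec_eq hk hs hD hxk h0s hpg hps ▸ hp2)
    refine ⟨k, d, hk, hxk, hck, hkπ, hd1, hd2, ?_, ?_, ?_, hkg⟩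
    · rintro rfl
      exact h02 (H.blk_spec_eq hk hs hD hxk h0s hd1 hps' ▸ hp2')
    · rintro rfl
      exact hkg (H.uniq hk.1 hg.1 hca hck hd1 hc hag)
    · rintro rfl
      exact hgg (H.uniq hg.1 hg'.1 hca hc hag hd2 hag')
  obtain ⟨c₁, hc₁, hc₁p, hc₁s⟩ := H.pick hg p a₁ ha1D
  have hc₁a : c₁ ≠ a₁ := H.ne_of_not_sim hc₁s
  obtain ⟨c₁', hpr₁⟩ := proj p hps hpD hp1 hp2 c₁ g hg hpg hag hc₁ hc₁p hc₁a
  -- all other points of `s ∩ π₁` are in `π₂`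
  have one : ∀ z ∈ s, z ∈ π₁ → z ≠ x → z ∈ π₂ := by
    intro z hzs hz1 hzx
    by_contra hz2
    obtain ⟨k, d, hk, hxk, hck, hkπ, hdk, hdg, hdp, hda, hcd, hkg⟩ :=
      lin x hxs hx1 hx2 c₁ hc₁ hc₁p hc₁a
    obtain ⟨k', e, hk', hzk', hck', hkπ', hek', heg, hep, hea, hce, hkg'⟩ :=
      lin z hzs hz1 hz2 c₁ hc₁ hc₁p hc₁a
    obtain ⟨d', hd'⟩ := proj p' hps' hpD' hp1' hp2' d g' hg' hpg' hag' hdg hdp hda
    obtain ⟨e', he'⟩ := proj p' hps' hpD' hp1' hp2' e g' hg' hpg' hag' heg hep hea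
    have s1 := des x hxs hx1 hx2 p p' c₁ d c₁' d' k hk hxk hck hdk hcd hpr₁ hd'
    have s2 := des z hzs hz1 hz2 p p' c₁ e c₁' e' k' hk' hzk' hck' hek' hce hpr₁ he'
    have hc₁'D : c₁' ≠ D := fun h => hpr₁.2.2.2.1 (h ▸ hD)
    have s3 := H.trans s1.symm s2 hc₁'D
    have e1 := cls p' d e d' e' hps' hd' he' s3
    subst e1
    have e2 := inj p' g' d e d' hg' hgπ' hdg heg hd' he'
    subst e2
    have e3 := H.uniq hk.1 hk'.1 hcd hck hdk hck' hek'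
    subst e3
    exact hzx (H.blk_spec_eq hk hs hD hzk' hzs hxk hxs)
  -- the image of a point of `p a₁` is on the special line of `a₁`
  have fin : ∀ c ∈ g, c ≠ p → c ≠ a₁ → ∀ c', pr p c c' → Sim L D c' a₁ := by
    intro c hc hcp hca c' hpr
    by_contra hsim
    obtain ⟨k, d, hk, hxk, hck, hkπ, hdk, hdg, hdp, hda, hcd, hkg⟩ := lin x hxs hx1 hx2 c hc hcp hca
    obtain ⟨⟨t, ht, hOt, hct, hc't⟩, -, hc'π, hc's, hc'c, hcπ, hcs⟩ := id hpr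
    have hc'D : c' ≠ D := fun h => hc's (h ▸ hD)
    obtain ⟨u, hu, hDu, hc'u⟩ := H.spec c'
    obtain ⟨w, hwk, hwu⟩ := H.meet_spec hk hu hDu
    have hwc' : Sim L D w c' := ⟨u, hu, hDu, hwu, hc'u⟩
    have hwD : w ≠ D := neD hk hwk
    have hws : w ∉ s := fun h => hc's (H.sim_mem hwc' hs hD h hwD)
    have hwc : w ≠ c := by
      rintro rfl
      exact H.not_sim ht hct hc't hc'c.symm hwc'
    have hwa : ¬ Sim L D w a₁ := fun h => hsim (H.trans hwc'.symm h hwD)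
    have hwa1 : w ≠ a₁ := H.ne_of_not_sim hwa
    obtain ⟨b, hb, hwb, hab⟩ := H.join hwa
    have hbπ := h₁.join b hb w hwb a₁ hab (hkπ hwk) ha1 hwa1
    obtain ⟨q, hqb, hqs⟩ := H.meet_spec hb hs hD
    have hqD : q ≠ D := neD hb hqb
    have hwq : w ≠ q := fun e => hws (e ▸ hqs)
    have hqx : q ≠ x := by
      rintro rfl
      have e1 : b = k := H.uniq hb.1 hk.1 hwq hwb hqb hwk hxk
      exact hkg (H.uniq hk.1 hg.1 hca hck (e1 ▸ hab) hc hag)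
    have hq2 := one q hqs (hbπ hqb) hqx
    obtain ⟨w', hw'⟩ := proj q hqs hqD (hbπ hqb) hq2 w b hb hqb hab hwb hwq hwa1
    have s1 := des x hxs hx1 hx2 q p w c w' c' k hk hxk hwk hck hwc hw' hpr
    have s2 : Sim L D w w' := H.trans hwc' s1.symm hc'D
    obtain ⟨⟨t₂, ht₂, -, hwt₂, hw't₂⟩, -, -, -, hw'w, -⟩ := hw'
    exact H.not_sim ht₂ hwt₂ hw't₂ hw'w.symm s2
  -- a second point
  obtain ⟨k, d, hk, hxk, hck, hkπ, hdk, hdg, hdp, hda, hcd, hkg⟩ :=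
    lin x hxs hx1 hx2 c₁ hc₁ hc₁p hc₁a
  obtain ⟨u, hu, hDu, hdu⟩ := H.spec d
  obtain ⟨c₂, hc₂, hc₂u⟩ := H.meet_spec hg hu hDu
  have hc₂d : Sim L D c₂ d := ⟨u, hu, hDu, hc₂u, hdu⟩
  have hc₂p : c₂ ≠ p := by
    rintro rfl
    have hds := H.sim_mem hc₂d hs hD hps hpD
    exact hdp (H.blk_spec_eq hg' hs hD hdg hds hpg' hps')
  have hc₂a : c₂ ≠ a₁ := by
    rintro rfl
    exact H.not_sim hg' hag' hdg hda.symm hc₂d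
  have hc₁₂ : c₁ ≠ c₂ := by
    rintro rfl
    exact H.not_sim hk hck hdk hcd hc₂d
  obtain ⟨c₂', hpr₂⟩ := proj p hps hpD hp1 hp2 c₂ g hg hpg hag hc₂ hc₂p hc₂a
  have t1 := fin c₁ hc₁ hc₁p hc₁a c₁' hpr₁
  have t2 := fin c₂ hc₂ hc₂p hc₂a c₂' hpr₂
  have e1 := cls p c₁ c₂ c₁' c₂' hps hpr₁ hpr₂ (H.trans t1 t2.symm ha1D)
  subst e1
  exact hc₁₂ (inj p g c₁ c₂ c₁' hg hgπ hc₁ hc₂ hpr₁ hpr₂)

end Q65.PR
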