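import Mathlib

/-!
The recursion `x_{n+1} = 1 / (B_n x_n + x_{n-1})` with periodic coefficients: itineraries of large
values, lower bounds along them.
-/

set_option autoImplicit false

namespace Q65.PerRec

open Filter Topology Set

/-- positive solutions, index shifted by one -/
def Sol (B : ℕ → ℝ) (x : ℕ → ℝ) : Prop :=
  (∀ n, 0 < x n) ∧ ∀ n, x (n + 2) = 1 / (B n * x (n + 1) + x n)

/-- one step along the itinerary of large values -/
noncomputable def step (B : ℕ → ℝ) (s : ℕ × ℝ × ℝ) : ℕ × ℝ × ℝ :=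
  if 0 < B s.1 then (s.1 + 3, s.2.2, s.2.2 * (B s.1 / (1 + B s.1 * B (s.1 + 2))))
  else (s.1 + 4, s.2.1, s.2.1 * (B (s.1 + 1) * s.2.1 + s.2.2) /
    (s.2.1 + B (s.1 + 3) * (B (s.1 + 1) * s.2.1 + s.2.2)))

lemma step_pos {B : ℕ → ℝ} {n : ℕ} (Q q : ℝ) (h : 0 < B n) :
    step B (n, Q, q) = (n + 3, q, q * (B n / (1 + B n * B (n + 2)))) := if_pos h

lemma step_zero {B : ℕ → ℝ} {n : ℕ} (Q q : ℝ) (h : ¬ 0 < B n) :
    step B (n, Q, q) = (n + 4, Q, Q * (B (n + 1) * Q + q) / (Q + B (n + 3) * (B (n + 1) * Q + q))) :=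
  if_neg h

variable {B x : ℕ → ℝ}

/-- positivity is preserved -/
lemma step_positive (hB : ∀ n, 0 ≤ B n) {s : ℕ × ℝ × ℝ} (h1 : 0 < s.2.1) (h2 : 0 < s.2.2) :
    0 < (step B s).2.1 ∧ 0 < (step B s).2.2 := by
  obtain ⟨n, Q, q⟩ := s
  simp only at h1 h2
  have e1 := hB (n + 1)
  have e2 := hB (n + 2)
  have e3 := hB (n + 3)
  by_cases h : 0 < B n
  · rw [step_pos _ _ h]
    exact ⟨h2, by positivity⟩
  · rw [step_zero _ _ h]
    exact ⟨h1, by positivity⟩

lemma iterate_positive (hB : ∀ n, 0 ≤ B n) {s : ℕ × ℝ × ℝ} (h1 : 0 < s.2.1) (h2 : 0 < s.2.2)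
    (m : ℕ) : 0 < ((step B)^[m] s).2.1 ∧ 0 < ((step B)^[m] s).2.2 := by
  induction m with
  | zero => exact ⟨h1, h2⟩
  | succ m ih =>
    rw [Function.iterate_succ_apply']
    exact step_positive hB ih.1 ih.2

/-- homogeneity -/
lemma step_smul {c : ℝ} (hc : 0 < c) (n : ℕ) (Q q : ℝ) :
    step B (n, c * Q, c * q) =
      ((step B (n, Q, q)).1, c * (step B (n, Q, q)).2.1, c * (step B (n, Q, q)).2.2) := by
  by_cases h : 0 < B n
  · rw [step_pos _ _ h, step_pos _ _ h]
    ext1
    · rfl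
    · ext1
      · rfl
      · show c * q * _ = c * (q * _)
        ring
  · rw [step_zero _ _ h, step_zero _ _ h]
    ext1
    · rfl
    · ext1
      · rfl
      · show c * Q * (B (n + 1) * (c * Q) + c * q) /
          (c * Q + B (n + 3) * (B (n + 1) * (c * Q) + c * q)) =
          c * (Q * (B (n + 1) * Q + q) / (Q + B (n + 3) * (B (n + 1) * Q + q)))
        rw [show c * Q * (B (n + 1) * (c * Q) + c * q) =
          c * (c * (Q * (B (n + 1) * Q + q))) by ring,
          show c * Q + B (n + 3) * (B (n + 1) * (c * Q) + c * q) =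
          c * (Q + B (n + 3) * (B (n + 1) * Q + q)) by ring, mul_div_mul_left _ _ hc.ne',
          mul_div_assoc]

lemma iterate_smul {c : ℝ} (hc : 0 < c) (n : ℕ) (Q q : ℝ) (m : ℕ) :
    (step B)^[m] (n, c * Q, c * q) = (((step B)^[m] (n, Q, q)).1,
      c * ((step B)^[m] (n, Q, q)).2.1, c * ((step B)^[m] (n, Q, q)).2.2) := by
  induction m with
  | zero => rfl
  | succ m ih =>
    rw [Function.iterate_succ_apply', Function.iterate_succ_apply', ih, step_smul hc]

/-- shift of the index -/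
lemma step_shift (N n : ℕ) (Q q : ℝ) :
    step B (N + n, Q, q) = (N + (step (fun i => B (N + i)) (n, Q, q)).1,
      (step (fun i => B (N + i)) (n, Q, q)).2.1, (step (fun i => B (N + i)) (n, Q, q)).2.2) := by
  by_cases h : 0 < B (N + n)
  · rw [step_pos _ _ h, step_pos (B := fun i => B (N + i)) _ _ h]
    rfl
  · rw [step_zero _ _ h, step_zero (B := fun i => B (N + i)) _ _ h]
    rfl

lemma iterate_shift (N n : ℕ) (Q q : ℝ) (m : ℕ) :
    (step B)^[m] (N + n, Q, q) = (N + ((step (fun i => B (N + i)))^[m] (n, Q, q)).1,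
      ((step (fun i => B (N + i)))^[m] (n, Q, q)).2.1,
      ((step (fun i => B (N + i)))^[m] (n, Q, q)).2.2) := by
  induction m with
  | zero => rfl
  | succ m ih =>
    rw [Function.iterate_succ_apply', Function.iterate_succ_apply', ih, step_shift]

/-- the index increases -/
lemma le_iterate (s : ℕ × ℝ × ℝ) (m : ℕ) : s.1 + 3 * m ≤ ((step B)^[m] s).1 ∧
    ((step B)^[m] s).1 ≤ s.1 + 4 * m := by
  induction m with
  | zero => exact ⟨le_rfl, le_rfl⟩
  | succ m ih =>
    rw [Function.iterate_succ_apply']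
    by_cases h : 0 < B ((step B)^[m] s).1
    · have e := step_pos ((step B)^[m] s).2.1 ((step B)^[m] s).2.2 h
      have e' : step B ((step B)^[m] s) = step B (((step B)^[m] s).1, ((step B)^[m] s).2.1,
        ((step B)^[m] s).2.2) := rfl
      rw [e', e]
      exact ⟨by simp only; omega, by simp only; omega⟩
    · have e := step_zero ((step B)^[m] s).2.1 ((step B)^[m] s).2.2 h
      have e' : step B ((step B)^[m] s) = step B (((step B)^[m] s).1, ((step B)^[m] s).2.1,
        ((step B)^[m] s).2.2) := rfl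
      rw [e', e]
      exact ⟨by simp only; omega, by simp only; omega⟩

/-- lower bounds along one step, strict form -/
lemma step_lower (hB : ∀ n, 0 ≤ B n) (hx : Sol B x) {s : ℕ × ℝ × ℝ} (hQ : 0 < s.2.1)
    (hq : 0 < s.2.2) (h1 : x s.1 ≤ 1 / s.2.1) (h2 : s.2.2 < x (s.1 + 1)) :
    x (step B s).1 ≤ 1 / (step B s).2.1 ∧ (step B s).2.2 < x ((step B s).1 + 1) := by
  obtain ⟨n, Q, q⟩ := s
  simp only at hQ hq h1 h2
  obtain ⟨hpos, hrec⟩ := hx
  have b1 := hB (n + 1)
  have b2 := hB (n + 2)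
  have b3 := hB (n + 3)
  have p0 := hpos n
  have p1 := hpos (n + 1)
  have p2 := hpos (n + 2)
  have p3 := hpos (n + 3)
  have p4 := hpos (n + 4)
  by_cases h : 0 < B n
  · rw [step_pos _ _ h]
    show x (n + 3) ≤ 1 / q ∧ q * (B n / (1 + B n * B (n + 2))) < x (n + 3 + 1)
    have r2 := hrec n
    have r3 : x (n + 3) = 1 / (B (n + 1) * x (n + 2) + x (n + 1)) := hrec (n + 1)
    have r4 : x (n + 4) = 1 / (B (n + 2) * x (n + 3) + x (n + 2)) := hrec (n + 2)
    have i3 : x (n + 3) ≤ 1 / q := by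
      rw [r3]
      exact one_div_le_one_div_of_le hq (by nlinarith [mul_nonneg b1 p2.le])
    refine ⟨i3, ?_⟩
    have i2 : x (n + 2) < 1 / (B n * q) := by
      rw [r2]
      exact one_div_lt_one_div_of_lt (by positivity) (by nlinarith)
    have i4 : B (n + 2) * x (n + 3) + x (n + 2) < B (n + 2) * (1 / q) + 1 / (B n * q) :=
      add_lt_add_of_le_of_lt (mul_le_mul_of_nonneg_left i3 b2) i2
    have e4 : q * (B n / (1 + B n * B (n + 2))) = 1 / (B (n + 2) * (1 / q) + 1 / (B n * q)) := by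
      field_simp
      ring
    rw [e4, show n + 3 + 1 = n + 4 by ring, r4]
    exact one_div_lt_one_div_of_lt (by positivity) i4
  · have h0 : B n = 0 := le_antisymm (not_lt.1 h) (hB n)
    rw [step_zero _ _ h]
    show x (n + 4) ≤ 1 / Q ∧ Q * (B (n + 1) * Q + q) / (Q + B (n + 3) * (B (n + 1) * Q + q)) <
      x (n + 4 + 1)
    have r2 : x (n + 2) = 1 / x n := by rw [hrec n, h0, zero_mul, zero_add]
    have r3 : x (n + 3) = 1 / (B (n + 1) * x (n + 2) + x (n + 1)) := hrec (n + 1)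
    have r4 : x (n + 4) = 1 / (B (n + 2) * x (n + 3) + x (n + 2)) := hrec (n + 2)
    have r5 : x (n + 5) = 1 / (B (n + 3) * x (n + 4) + x (n + 3)) := hrec (n + 3)
    have i2 : Q ≤ x (n + 2) := by
      rw [r2, le_div_iff₀ p0]
      rw [le_div_iff₀ hQ] at h1
      linarith
    have i3 : x (n + 3) < 1 / (B (n + 1) * Q + q) := by
      rw [r3]
      refine one_div_lt_one_div_of_lt (by positivity) ?_
      exact add_lt_add_of_le_of_lt (mul_le_mul_of_nonneg_left i2 b1) h2
    have i4 : x (n + 4) ≤ 1 / Q := by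
      rw [r4]
      exact one_div_le_one_div_of_le hQ (by nlinarith [mul_nonneg b2 p3.le])
    refine ⟨i4, ?_⟩
    have i5 : B (n + 3) * x (n + 4) + x (n + 3) < B (n + 3) * (1 / Q) + 1 / (B (n + 1) * Q + q) :=
      add_lt_add_of_le_of_lt (mul_le_mul_of_nonneg_left i4 b3) i3
    have hd : 0 < B (n + 1) * Q + q := by positivity
    have e5 : Q * (B (n + 1) * Q + q) / (Q + B (n + 3) * (B (n + 1) * Q + q)) =
        1 / (B (n + 3) * (1 / Q) + 1 / (B (n + 1) * Q + q)) := by
      have hd' : 0 < Q + B (n + 3) * (B (n + 1) * Q + q) := by positivity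
      rw [show B (n + 3) * (1 / Q) + 1 / (B (n + 1) * Q + q) =
        (Q + B (n + 3) * (B (n + 1) * Q + q)) / (Q * (B (n + 1) * Q + q)) by
          field_simp
          ring, one_div_div]
    rw [e5, show n + 4 + 1 = n + 5 by ring, r5]
    exact one_div_lt_one_div_of_lt (by positivity) i5

/-- the first step, from a positive coefficient -/
lemma step_first (hB : ∀ n, 0 ≤ B n) (hx : Sol B x) {n : ℕ} (h : 0 < B n) :
    x (step B (n, x (n + 1), x (n + 1))).1 ≤ 1 / (step B (n, x (n + 1), x (n + 1))).2.1 ∧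
    (step B (n, x (n + 1), x (n + 1))).2.2 < x ((step B (n, x (n + 1), x (n + 1))).1 + 1) := by
  obtain ⟨hpos, hrec⟩ := hx
  have b1 := hB (n + 1)
  have b2 := hB (n + 2)
  have p0 := hpos n
  have p1 := hpos (n + 1)
  have p2 := hpos (n + 2)
  have p3 := hpos (n + 3)
  rw [step_pos _ _ h]
  set q := x (n + 1) with hq
  show x (n + 3) ≤ 1 / q ∧ q * (B n / (1 + B n * B (n + 2))) < x (n + 3 + 1)
  have r2 := hrec n
  have r3 : x (n + 3) = 1 / (B (n + 1) * x (n + 2) + x (n + 1)) := hrec (n + 1)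
  have r4 : x (n + 4) = 1 / (B (n + 2) * x (n + 3) + x (n + 2)) := hrec (n + 2)
  have i3 : x (n + 3) ≤ 1 / q := by
    rw [r3]
    exact one_div_le_one_div_of_le p1 (by nlinarith [mul_nonneg b1 p2.le])
  refine ⟨i3, ?_⟩
  have i2 : x (n + 2) < 1 / (B n * q) := by
    rw [r2]
    exact one_div_lt_one_div_of_lt (by positivity) (by linarith)
  have i4 : B (n + 2) * x (n + 3) + x (n + 2) < B (n + 2) * (1 / q) + 1 / (B n * q) :=
    add_lt_add_of_le_of_lt (mul_le_mul_of_nonneg_left i3 b2) i2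
  have e4 : q * (B n / (1 + B n * B (n + 2))) = 1 / (B (n + 2) * (1 / q) + 1 / (B n * q)) := by
    field_simp
    ring
  rw [e4, show n + 3 + 1 = n + 4 by ring, r4]
  exact one_div_lt_one_div_of_lt (by positivity) i4

/-- lower bounds along the itinerary -/
lemma iterate_lower (hB : ∀ n, 0 ≤ B n) (hx : Sol B x) {n : ℕ} (h : 0 < B n) {m : ℕ} (hm : 1 ≤ m) :
    x (n + 1) * ((step B)^[m] (n, 1, 1)).2.2 < x (((step B)^[m] (n, 1, 1)).1 + 1) := by
  have hc := hx.1 (n + 1)
  have key : ∀ m, 1 ≤ m → x ((step B)^[m] (n, x (n + 1), x (n + 1))).1 ≤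
      1 / ((step B)^[m] (n, x (n + 1), x (n + 1))).2.1 ∧
      ((step B)^[m] (n, x (n + 1), x (n + 1))).2.2 <
        x (((step B)^[m] (n, x (n + 1), x (n + 1))).1 + 1) := by
    intro m hm
    induction m, hm using Nat.le_induction with
    | base => exact step_first hB hx h
    | succ m hm ih =>
      rw [Function.iterate_succ_apply']
      obtain ⟨h1, h2⟩ := iterate_positive hB (s := (n, x (n + 1), x (n + 1))) hc hc m
      exact step_lower hB hx h1 h2 ih.1 ih.2
  have h1 := (key m hm).2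
  have e := iterate_smul (B := B) hc n 1 1 m
  rw [mul_one] at e
  rw [e] at h1
  exact h1

end Q65.PerRec
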