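import Pool.Agent.Q65.PerRec

/-!
The recursion `x_{n+1} = 1 / (B_n x_n + x_{n-1})` with periodic coefficients: unbounded solutions.
-/

set_option autoImplicit false

namespace Q65.PerRec

open Filter Topology Set

variable {B x : ℕ → ℝ}

lemma forward_limit {x : ℕ → ℝ} {m M : ℝ} (hx : ∀ n, x n ∈ Icc m M) (φ : ℕ → ℕ) :
    ∃ (ψ : ℕ → ℕ) (z : ℕ → ℝ), StrictMono ψ ∧
      ∀ i, Tendsto (fun k => x (φ (ψ k) + i)) atTop (𝓝 (z i)) := by
  have hcomp : IsCompact (Set.pi univ (fun _ : ℕ => Icc m M)) :=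
    isCompact_univ_pi fun _ => isCompact_Icc
  obtain ⟨L, -, ψ, hψ, hlim⟩ := hcomp.tendsto_subseq (x := fun n j => x (φ n + j))
    (fun n => fun j _ => hx _)
  exact ⟨ψ, L, hψ, fun j => (tendsto_pi_nhds.1 hlim) j⟩

lemma exists_bound {k : ℕ} (hk : 0 < k) (hper : ∀ n, B (n + k) = B n) : ∃ b, ∀ n, B n ≤ b := by
  have hmod : ∀ n, B (n % k) = B n := by
    intro n
    have h1 : ∀ l, B (n % k + k * l) = B (n % k) := by
      intro l
      induction l with
      | zero => rfl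
      | succ l ih => rw [Nat.mul_succ, ← add_assoc, hper, ih]
    rw [← h1 (n / k), Nat.mod_add_div]
  obtain ⟨b, hb⟩ := (Finset.image B (Finset.range k)).bddAbove
  refine ⟨b, fun n => ?_⟩
  rw [← hmod]
  refine hb ?_
  rw [Finset.coe_image]
  exact ⟨n % k, by simpa using Nat.mod_lt _ hk, rfl⟩

lemma per_mul {k : ℕ} (hper : ∀ n, B (n + k) = B n) (n l : ℕ) : B (n + k * l) = B n := by
  induction l with
  | zero => rfl
  | succ l ih => rw [Nat.mul_succ, ← add_assoc, hper, ih]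

lemma per_of_modEq {k : ℕ} (hper : ∀ n, B (n + k) = B n) {i j : ℕ} (h : i ≡ j [MOD k]) :
    B i = B j := by
  rcases le_total i j with hij | hij
  · obtain ⟨l, hl⟩ := (Nat.modEq_iff_dvd' hij).1 h
    rw [show j = i + k * l by omega, per_mul hper]
  · obtain ⟨l, hl⟩ := (Nat.modEq_iff_dvd' hij).1 h.symm
    rw [show i = j + k * l by omega, per_mul hper]

/-- lower bound for bounded solutions -/
lemma lower_bound (hB : ∀ n, 0 ≤ B n) {b : ℝ} (hb : ∀ n, B n ≤ b) (hx : Sol B x) {M : ℝ}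
    (hM : ∀ n, x n ≤ M) : ∃ c, 0 < c ∧ ∀ n, c ≤ x n := by
  have hb0 : 0 ≤ b := (hB 0).trans (hb 0)
  have hM0 : 0 < M := (hx.1 0).trans_le (hM 0)
  refine ⟨min (min (x 0) (x 1)) (1 / (b * M + M)), ?_, fun n => ?_⟩
  · have h0 := hx.1 0
    have h1 := hx.1 1
    positivity
  · match n with
    | 0 => exact (min_le_left _ _).trans (min_le_left _ _)
    | 1 => exact (min_le_left _ _).trans (min_le_right _ _)
    | n + 2 =>
      refine (min_le_right _ _).trans ?_
      rw [hx.2 n]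
      have h0 := hx.1 n
      have h1 := hx.1 (n + 1)
      have h2 := hB n
      refine one_div_le_one_div_of_le (by positivity) ?_
      exact add_le_add (mul_le_mul (hb n) (hM _) h1.le hb0) (hM _)

/-- the limit of shifted solutions is a solution -/
lemma limit_sol {k : ℕ} (hB : ∀ n, 0 ≤ B n) {b : ℝ} (hb : ∀ n, B n ≤ b)
    (hper : ∀ n, B (n + k) = B n) (hx : Sol B x) {M : ℝ}
    (hM : ∀ n, x n ≤ M) {N : ℕ} {φ : ℕ → ℕ} (hφ : ∀ j, φ j ≡ N [MOD k]) {z : ℕ → ℝ}
    (hz : ∀ i, Tendsto (fun j => x (φ j + i)) atTop (𝓝 (z i))) :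
    Sol (fun i => B (N + i)) z := by
  obtain ⟨c, hc, hcx⟩ := lower_bound hB hb hx hM
  have hpos : ∀ i, 0 < z i := fun i => hc.trans_le (ge_of_tendsto' (hz i) fun j => hcx _)
  refine ⟨hpos, fun i => ?_⟩
  have t1 : Tendsto (fun j => 1 / (B (N + i) * x (φ j + (i + 1)) + x (φ j + i))) atTop
      (𝓝 (1 / (B (N + i) * z (i + 1) + z i))) := by
    have h0 := hpos i
    have h1 := hpos (i + 1)
    have h2 := hB (N + i)
    refine tendsto_const_nhds.div (((hz (i + 1)).const_mul _).add (hz i)) (by positivity)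
  refine tendsto_nhds_unique (hz (i + 2)) (t1.congr fun j => ?_)
  have h := hx.2 (φ j + i)
  rw [per_of_modEq hper ((hφ j).add_right i)] at h
  exact h.symm

/-- **unbounded solutions, first case** -/
theorem unbounded_of_G {k : ℕ} (hk : 0 < k) (hB : ∀ n, 0 ≤ B n) (hper : ∀ n, B (n + k) = B n)
    {n m : ℕ} (hn : 0 < B n) (hm : 1 ≤ m) (hmod : ((step B)^[m] (n, 1, 1)).1 ≡ n [MOD k])
    (hq : 1 ≤ ((step B)^[m] (n, 1, 1)).2.2) (hx : Sol B x) : ¬ BddAbove (range x) := by
  rintro ⟨M, hM'⟩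
  have hM : ∀ n, x n ≤ M := fun n => hM' ⟨n, rfl⟩
  obtain ⟨b, hb⟩ := exists_bound hk hper
  obtain ⟨c, hc, hcx⟩ := lower_bound hB hb hx hM
  have hle := (le_iterate (B := B) (n, 1, 1) m).1
  simp only at hle
  obtain ⟨l, hl⟩ := (Nat.modEq_iff_dvd' (show n ≤ ((step B)^[m] (n, 1, 1)).1 by omega)).1 hmod.symm
  set g := ((step B)^[m] (n, 1, 1)).2.2 with hg
  have hN : ((step B)^[m] (n, 1, 1)).1 = n + k * l := by omega
  -- the sequence along the itinerary increases
  have hmono : ∀ j, x (n + j * (k * l) + 1) < x (n + (j + 1) * (k * l) + 1) := by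
    intro j
    have hBn : 0 < B (n + j * (k * l)) := by
      rw [show n + j * (k * l) = n + k * (j * l) by ring, per_mul hper]
      exact hn
    have h1 := iterate_lower hB hx hBn hm
    have e1 := iterate_shift (B := B) (j * (k * l)) n 1 1 m
    have e2 : (fun i => B (j * (k * l) + i)) = B := by
      funext i
      rw [show j * (k * l) + i = i + k * (j * l) by ring, per_mul hper]
    rw [e2] at e1
    rw [show n + j * (k * l) = j * (k * l) + n by ring] at h1 ⊢
    rw [e1] at h1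
    simp only at h1
    rw [← hg, hN] at h1
    rw [show n + (j + 1) * (k * l) + 1 = j * (k * l) + (n + k * l) + 1 by ring]
    have hp := hx.1 (j * (k * l) + n + 1)
    nlinarith
  have hm' : StrictMono (fun j => x (n + j * (k * l) + 1)) := strictMono_nat_of_lt_succ hmono
  have hbdd : BddAbove (range (fun j => x (n + j * (k * l) + 1))) := by
    refine ⟨M, ?_⟩
    rintro _ ⟨j, rfl⟩
    exact hM _
  have hlim := tendsto_atTop_ciSup hm'.monotone hbdd
  set y := ⨆ j, x (n + j * (k * l) + 1) with hy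
  obtain ⟨ψ, z, hψ, hz⟩ := forward_limit (fun n => ⟨hcx n, hM n⟩) (fun j => n + j * (k * l))
  have hsol : Sol (fun i => B (n + i)) z := by
    refine limit_sol hB hb hper hx hM (N := n) (φ := fun j => n + ψ j * (k * l)) (fun j => ?_) hz
    have : n + ψ j * (k * l) = n + k * (ψ j * l) := by ring
    show n + ψ j * (k * l) ≡ n [MOD k]
    rw [this]
    exact (Nat.modEq_iff_dvd' (Nat.le_add_right _ _)).2 ⟨ψ j * l, by omega⟩ |>.symm
  have hz1 : z 1 = y := tendsto_nhds_unique (hz 1) (hlim.comp hψ.tendsto_atTop)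
  have hzN : z (k * l + 1) = y := by
    refine tendsto_nhds_unique (hz (k * l + 1)) ?_
    have t : Tendsto (fun j => ψ j + 1) atTop atTop :=
      tendsto_atTop_mono (fun j => Nat.le_succ _) hψ.tendsto_atTop
    refine (hlim.comp t).congr fun j => ?_
    show x (n + (ψ j + 1) * (k * l) + 1) = x (n + ψ j * (k * l) + (k * l + 1))
    congr 1
    ring
  -- contradiction
  have e1 := iterate_shift (B := B) n 0 1 1 m
  rw [add_zero] at e1
  have h1 : n + ((step fun i => B (n + i))^[m] (0, 1, 1)).1 = n + k * l := by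
    rw [← hN, e1]
  have h2 : ((step fun i => B (n + i))^[m] (0, 1, 1)).2.2 = g := by
    rw [hg, e1]
  have h3 := iterate_lower (fun i => hB (n + i)) hsol (n := 0) (by simpa using hn) hm
  rw [h2, show ((step fun i => B (n + i))^[m] (0, 1, 1)).1 = k * l by omega, zero_add, hz1,
    hzN] at h3
  have hy0 : 0 < y := by
    rw [← hz1]
    exact hsol.1 1
  nlinarith

/-- a sequence with increments bounded below infinitely often is unbounded -/
lemma unbounded_increments {s : ℕ → ℝ} (hs : ∀ j, s j ≤ s (j + 1)) {δ : ℝ} (hδ : 0 < δ) {j0 k : ℕ}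
    (hk : 0 < k) (hinc : ∀ i, s (j0 + k * i) + δ ≤ s (j0 + k * i + 1)) {M : ℝ}
    (hM : ∀ j, s j ≤ M) : False := by
  have hmono : Monotone s := monotone_nat_of_le_succ hs
  have h1 : ∀ i : ℕ, s j0 + i * δ ≤ s (j0 + k * i) := by
    intro i
    induction i with
    | zero => simp
    | succ i ih =>
      have h2 := hinc i
      have h3 : s (j0 + k * i + 1) ≤ s (j0 + k * (i + 1)) := hmono (by
        rw [Nat.mul_succ]
        omega)
      push_cast
      linarith
  obtain ⟨i, hi⟩ := exists_nat_gt ((M - s j0) / δ)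
  rw [div_lt_iff₀ hδ] at hi
  linarith [h1 i, hM (j0 + k * i)]

/-- **unbounded solutions, second case** -/
theorem unbounded_of_Z1 {k : ℕ} (hk : 0 < k) (hB : ∀ n, 0 ≤ B n) (hper : ∀ n, B (n + k) = B n)
    {n : ℕ} (h0 : ∀ j, B (n + 4 * j) = 0) {j0 : ℕ} (h2 : 0 < B (n + 4 * j0 + 2)) (hx : Sol B x) :
    ¬ BddAbove (range x) := by
  rintro ⟨M, hM'⟩
  have hM : ∀ n, x n ≤ M := fun n => hM' ⟨n, rfl⟩
  obtain ⟨b, hb⟩ := exists_bound hk hper
  obtain ⟨c, hc, hcx⟩ := lower_bound hB hb hx hM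
  have hstep : ∀ j, x (n + 4 * (j + 1) + 2) =
      x (n + 4 * j + 2) + B (n + 4 * j + 2) * x (n + 4 * j + 3) := by
    intro j
    have r1 := hx.2 (n + 4 * (j + 1))
    have r2 := hx.2 (n + 4 * j + 2)
    rw [h0, zero_mul, zero_add] at r1
    rw [show n + 4 * j + 2 + 2 = n + 4 * (j + 1) by ring,
      show n + 4 * j + 2 + 1 = n + 4 * j + 3 by ring] at r2
    rw [r1, r2, one_div_one_div]
    ring
  refine unbounded_increments (s := fun j => x (n + 4 * j + 2)) (fun j => ?_)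
    (mul_pos h2 hc) (j0 := j0) hk (fun i => ?_) (M := M) (fun j => hM _)
  · show x (n + 4 * j + 2) ≤ x (n + 4 * (j + 1) + 2)
    rw [hstep]
    have := mul_nonneg (hB (n + 4 * j + 2)) (hx.1 (n + 4 * j + 3)).le
    linarith
  · show x (n + 4 * (j0 + k * i) + 2) + B (n + 4 * j0 + 2) * c ≤ x (n + 4 * (j0 + k * i + 1) + 2)
    rw [hstep, show n + 4 * (j0 + k * i) + 2 = n + 4 * j0 + 2 + k * (4 * i) by ring, per_mul hper]
    have := mul_le_mul_of_nonneg_left (hcx (n + 4 * (j0 + k * i) + 3)) h2.le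
    linarith

/-- **unbounded solutions, third case** -/
theorem unbounded_of_Z2 {k : ℕ} (hk : 0 < k) (hB : ∀ n, 0 ≤ B n) (hper : ∀ n, B (n + k) = B n)
    {n : ℕ} (h3 : ∀ j, B (n + 4 * j + 3) = 0) {j0 : ℕ} (h1 : 0 < B (n + 4 * j0 + 1))
    (hx : Sol B x) :
    ¬ BddAbove (range x) := by
  rintro ⟨M, hM'⟩
  have hM : ∀ n, x n ≤ M := fun n => hM' ⟨n, rfl⟩
  obtain ⟨b, hb⟩ := exists_bound hk hper
  obtain ⟨c, hc, hcx⟩ := lower_bound hB hb hx hM
  have hstep : ∀ j, x (n + 4 * (j + 1) + 1) =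
      x (n + 4 * j + 1) + B (n + 4 * j + 1) * x (n + 4 * j + 2) := by
    intro j
    have r1 := hx.2 (n + 4 * j + 3)
    have r2 := hx.2 (n + 4 * j + 1)
    rw [h3, zero_mul, zero_add] at r1
    rw [show n + 4 * j + 3 + 2 = n + 4 * (j + 1) + 1 by ring] at r1
    rw [show n + 4 * j + 1 + 2 = n + 4 * j + 3 by ring,
      show n + 4 * j + 1 + 1 = n + 4 * j + 2 by ring] at r2
    rw [r1, r2, one_div_one_div]
    ring
  refine unbounded_increments (s := fun j => x (n + 4 * j + 1)) (fun j => ?_)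
    (mul_pos h1 hc) (j0 := j0) hk (fun i => ?_) (M := M) (fun j => hM _)
  · show x (n + 4 * j + 1) ≤ x (n + 4 * (j + 1) + 1)
    rw [hstep]
    have := mul_nonneg (hB (n + 4 * j + 1)) (hx.1 (n + 4 * j + 2)).le
    linarith
  · show x (n + 4 * (j0 + k * i) + 1) + B (n + 4 * j0 + 1) * c ≤ x (n + 4 * (j0 + k * i + 1) + 1)
    rw [hstep, show n + 4 * (j0 + k * i) + 1 = n + 4 * j0 + 1 + k * (4 * i) by ring, per_mul hper]
    have := mul_le_mul_of_nonneg_left (hcx (n + 4 * (j0 + k * i) + 2)) h1.le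
    linarith

end Q65.PerRec
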