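import Pool.Agent.Q65.PerRec2

/-!
The recursion `x_{n+1} = 1 / (B_n x_n + x_{n-1})` with periodic coefficients: boundedness when the
coefficients vanish on a residue class modulo 4.
-/

set_option autoImplicit false

namespace Q65.PerRec

open Filter Topology Set

variable {B x : ℕ → ℝ}

lemma bddAbove_of_eventually {x : ℕ → ℝ} {C : ℝ} {N : ℕ} (h : ∀ n, N ≤ n → x n ≤ C) :
    BddAbove (range x) := by
  have h1 : BddAbove (x '' (Set.Iio N)) := (Set.finite_Iio N).image x |>.bddAbove
  have h2 : BddAbove (x '' (Set.Ici N)) := by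
    refine ⟨C, ?_⟩
    rintro _ ⟨n, hn, rfl⟩
    exact h n hn
  have h3 := h1.union h2
  rw [← image_union, Iio_union_Ici, image_univ] at h3
  exact h3

/-- growth at most linear with resets -/
lemma resets {s : ℕ → ℝ} {K D : ℝ} (hD : 0 ≤ D) {k : ℕ} (hk : 0 < k) (h1 : ∀ t, s (k * t) ≤ K)
    (h2 : ∀ t, s (t + 1) ≤ s t + D) (t : ℕ) : s t ≤ K + k * D := by
  have h3 : ∀ r, s (k * (t / k) + r) ≤ K + r * D := by
    intro r
    induction r with
    | zero => simpa using h1 (t / k)
    | succ r ih =>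
      have := h2 (k * (t / k) + r)
      rw [← add_assoc]
      push_cast
      linarith
  have h4 := h3 (t % k)
  rw [Nat.div_add_mod] at h4
  have h5 : ((t % k : ℕ) : ℝ) ≤ k := by exact_mod_cast (Nat.mod_lt t hk).le
  have := mul_le_mul_of_nonneg_right h5 hD
  linarith

theorem bounded_of_class {k : ℕ} (hk : 0 < k) (hB : ∀ n, 0 ≤ B n) (hper : ∀ n, B (n + k) = B n)
    (hne : ∃ n, 0 < B n) (hZ : ∀ n, (∀ j, B (n + 4 * j) = 0) → ∀ j, B (n + 4 * j + 2) = 0)
    {n0 : ℕ} (h0 : ∀ j, B (n0 + 4 * j) = 0) (hx : Sol B x) : BddAbove (range x) := by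
  obtain ⟨b, hb⟩ := exists_bound hk hper
  have hb0 : 0 ≤ b := (hB 0).trans (hb 0)
  have h2 := hZ n0 h0
  -- `B` vanishes on a parity class
  have heven : ∀ i, B (n0 + 2 * i) = 0 := by
    intro i
    rcases Nat.even_or_odd' i with ⟨j, rfl | rfl⟩
    · rw [show n0 + 2 * (2 * j) = n0 + 4 * j by ring]
      exact h0 j
    · rw [show n0 + 2 * (2 * j + 1) = n0 + 4 * j + 2 by ring]
      exact h2 j
  -- each class of the other parity contains a positive coefficient
  have hodd : ∀ e, ∃ j, 0 < B (n0 + 2 * (e + 2 * j) + 1) := by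
    intro e
    by_contra hcon
    push Not at hcon
    have c1 : ∀ j, B (n0 + 2 * e + 1 + 4 * j) = 0 := by
      intro j
      refine le_antisymm ?_ (hB _)
      rw [show n0 + 2 * e + 1 + 4 * j = n0 + 2 * (e + 2 * j) + 1 by ring]
      exact hcon j
    have c2 := hZ _ c1
    obtain ⟨n, hn⟩ := hne
    -- a large representative of the class of `n`
    have hrep : B (n + k * (n0 + 2 * e + 1)) = B n := per_mul hper _ _
    have hge : n0 + 2 * e + 1 ≤ n + k * (n0 + 2 * e + 1) := by
      have := Nat.le_mul_of_pos_left (n0 + 2 * e + 1) hk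
      omega
    set N := n + k * (n0 + 2 * e + 1) with hN
    have hzero : B N = 0 := by
      rcases Nat.even_or_odd' (N - n0) with ⟨j, hj | hj⟩
      · rw [show N = n0 + 2 * j by omega]
        exact heven j
      · -- `N = n0 + 2 j + 1` with `j ≥ e`
        rcases Nat.even_or_odd' (j - e) with ⟨i, hi | hi⟩
        · rw [show N = n0 + 2 * e + 1 + 4 * i by omega]
          exact c1 i
        · rw [show N = n0 + 2 * e + 1 + 4 * i + 2 by omega]
          exact c2 i
    rw [← hrep, hzero] at hn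
    exact lt_irrefl _ hn
  -- the even subsequence
  have ha : ∀ i, x (n0 + 2 * (i + 1)) = 1 / x (n0 + 2 * i) := by
    intro i
    have := hx.2 (n0 + 2 * i)
    rw [heven, zero_mul, zero_add] at this
    exact this
  set A := max (x n0) (1 / x n0) with hA
  have hA0 : 0 < A := lt_max_of_lt_left (hx.1 n0)
  have haA : ∀ i, x (n0 + 2 * i) ≤ A ∧ 1 / x (n0 + 2 * i) ≤ A := by
    intro i
    induction i with
    | zero => exact ⟨le_max_left _ _, le_max_right _ _⟩
    | succ i ih =>
      rw [ha, one_div_one_div]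
      exact ⟨ih.2, ih.1⟩
  -- two steps in the odd subsequence
  have hy : ∀ i, x (n0 + 2 * (i + 2) + 1) ≤ x (n0 + 2 * i + 1) + b * A := by
    intro i
    have r1 := hx.2 (n0 + 2 * i + 1)
    have r2 := hx.2 (n0 + 2 * (i + 1) + 1)
    rw [show n0 + 2 * i + 1 + 2 = n0 + 2 * (i + 1) + 1 by ring,
      show n0 + 2 * i + 1 + 1 = n0 + 2 * (i + 1) by ring] at r1
    rw [show n0 + 2 * (i + 1) + 1 + 2 = n0 + 2 * (i + 2) + 1 by ring] at r2
    have p1 := hx.1 (n0 + 2 * (i + 1) + 1)
    have p2 := hx.1 (n0 + 2 * (i + 1) + 1 + 1)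
    have s1 : x (n0 + 2 * (i + 2) + 1) ≤ 1 / x (n0 + 2 * (i + 1) + 1) := by
      rw [r2]
      exact one_div_le_one_div_of_le p1 (by
        have := mul_nonneg (hB (n0 + 2 * (i + 1) + 1)) p2.le
        linarith)
    rw [r1, one_div_one_div] at s1
    have s2 : B (n0 + 2 * i + 1) * x (n0 + 2 * (i + 1)) ≤ b * A :=
      mul_le_mul (hb _) (haA _).1 (hx.1 _).le hb0
    linarith
  -- bound after a positive coefficient
  have hreset : ∀ i, 0 < B (n0 + 2 * i + 1) →
      x (n0 + 2 * (i + 1) + 1) ≤ A / B (n0 + 2 * i + 1) := by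
    intro i hi
    have r1 := hx.2 (n0 + 2 * i + 1)
    rw [show n0 + 2 * i + 1 + 2 = n0 + 2 * (i + 1) + 1 by ring,
      show n0 + 2 * i + 1 + 1 = n0 + 2 * (i + 1) by ring] at r1
    have p0 := hx.1 (n0 + 2 * i + 1)
    have p1 := hx.1 (n0 + 2 * (i + 1))
    rw [r1]
    have s1 : 1 / (B (n0 + 2 * i + 1) * x (n0 + 2 * (i + 1)) + x (n0 + 2 * i + 1)) ≤
        1 / (B (n0 + 2 * i + 1) * x (n0 + 2 * (i + 1))) :=
      one_div_le_one_div_of_le (by positivity) (by linarith)
    refine s1.trans ?_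
    rw [one_div, mul_inv, ← one_div (x _), mul_comm, div_eq_mul_inv]
    exact mul_le_mul_of_nonneg_right (haA _).2 (by positivity)
  -- each parity class of the odd subsequence is bounded
  have hclass : ∀ e, ∃ C N, ∀ i, N ≤ i → x (n0 + 2 * (e + 2 * i) + 1) ≤ C := by
    intro e
    obtain ⟨j, hj⟩ := hodd (e + 1)
    have hres := resets (s := fun t => x (n0 + 2 * (e + 2 + 2 * j + 2 * t) + 1))
      (K := A / B (n0 + 2 * (e + 1 + 2 * j) + 1)) (D := b * A) (by positivity) hk ?_ ?_
    · refine ⟨A / B (n0 + 2 * (e + 1 + 2 * j) + 1) + k * (b * A), j + 1, fun i hi => ?_⟩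
      have := hres (i - (j + 1))
      rw [show e + 2 + 2 * j + 2 * (i - (j + 1)) = e + 2 * i by omega] at this
      exact this
    · intro t
      have hBt : B (n0 + 2 * (e + 1 + 2 * j + 2 * (k * t)) + 1) =
          B (n0 + 2 * (e + 1 + 2 * j) + 1) := by
        rw [show n0 + 2 * (e + 1 + 2 * j + 2 * (k * t)) + 1 =
          n0 + 2 * (e + 1 + 2 * j) + 1 + k * (4 * t) by ring, per_mul hper]
      have := hreset (e + 1 + 2 * j + 2 * (k * t)) (by rw [hBt]; exact hj)
      rw [hBt] at this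
      show x (n0 + 2 * (e + 2 + 2 * j + 2 * (k * t)) + 1) ≤ _
      rw [show e + 2 + 2 * j + 2 * (k * t) = e + 1 + 2 * j + 2 * (k * t) + 1 by ring]
      exact this
    · intro t
      have := hy (e + 2 + 2 * j + 2 * t)
      show x (n0 + 2 * (e + 2 + 2 * j + 2 * (t + 1)) + 1) ≤ _
      rw [show e + 2 + 2 * j + 2 * (t + 1) = e + 2 + 2 * j + 2 * t + 2 by ring]
      exact this
  obtain ⟨C0, N0, hC0⟩ := hclass 0
  obtain ⟨C1, N1, hC1⟩ := hclass 1
  refine bddAbove_of_eventually (C := max A (max C0 C1)) (N := n0 + 4 * (N0 + N1) + 4)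
    fun n hn => ?_
  rcases Nat.even_or_odd' (n - n0) with ⟨i, hi | hi⟩
  · rw [show n = n0 + 2 * i by omega]
    exact (haA i).1.trans (le_max_left _ _)
  · rcases Nat.even_or_odd' i with ⟨l, hl | hl⟩
    · rw [show n = n0 + 2 * (0 + 2 * l) + 1 by omega]
      exact (hC0 l (by omega)).trans ((le_max_left _ _).trans (le_max_right _ _))
    · rw [show n = n0 + 2 * (1 + 2 * l) + 1 by omega]
      exact (hC1 l (by omega)).trans ((le_max_right _ _).trans (le_max_right _ _))

end Q65.PerRec
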