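import Pool.Agent.Q65.PerRec3

/-!
The recursion `x_{n+1} = 1 / (B_n x_n + x_{n-1})` with periodic coefficients: the rescaled limit of
an unbounded solution.
-/

set_option autoImplicit false

namespace Q65.PerRec

open Filter Topology Set

variable {B x : ℕ → ℝ}

/-- a window of length `J` of an orbit of the homogeneous limit system -/
structure Win (b : ℕ → ℝ) (J : ℕ) (u v : ℕ → ℝ) : Prop where
  u0 : ∀ i, i ≤ J → 0 ≤ u i
  v0 : ∀ i, i ≤ J → 0 ≤ v i
  u1 : ∀ i, i ≤ J → u i ≤ 1
  uv : ∀ i, i ≤ J → u i * v i = 0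
  rel1 : ∀ i, i + 2 ≤ J → v (i + 2) = b i * u (i + 1) + u i
  rel2 : ∀ i, i + 2 ≤ J → u (i + 2) * (b i * v i + v (i + 1)) = v (i + 1) * v i
  rel3 : ∀ i, i + 2 ≤ J → u (i + 2) ≤ v i
  rel4 : ∀ i, i + 2 ≤ J → b i * u (i + 2) ≤ v (i + 1)
  rel5 : ∀ i, i + 2 ≤ J → b i = 0 → u (i + 2) = v i
  fin : 0 < u J ∨ 0 < v J

/-- record values of a sequence -/
lemma exists_record {W : ℕ → ℝ} (h : ¬ BddAbove (range W)) (i : ℕ) :
    ∃ N, i ≤ N ∧ (i : ℝ) ≤ W N ∧ ∀ n, n ≤ N → W n ≤ W N := by
  classical
  obtain ⟨C, hC⟩ := ((Set.finite_Iic i).image W).bddAbove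
  set K := max C i + 1 with hK
  have hex : ∃ N, K ≤ W N := by
    by_contra hcon
    push Not at hcon
    exact h ⟨K, by rintro _ ⟨n, rfl⟩; exact (hcon n).le⟩
  have h1 := Nat.find_spec hex
  have h2 : ∀ n, n < Nat.find hex → W n < K := fun n hn => not_le.1 (Nat.find_min hex hn)
  refine ⟨Nat.find hex, ?_, ?_, fun n hn => ?_⟩
  · by_contra hcon
    push Not at hcon
    have h3 : W (Nat.find hex) ≤ C := hC ⟨_, hcon.le, rfl⟩
    have := le_max_left C (i : ℝ)
    linarith
  · have := le_max_right C (i : ℝ)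
    linarith
  · rcases hn.lt_or_eq with hn | hn
    · exact (h2 n hn).le.trans h1
    · rw [hn]

lemma exists_residue {k : ℕ} (hk : 0 < k) (N : ℕ → ℕ) : ∃ ρ, ∃ φ : ℕ → ℕ, StrictMono φ ∧
    ∀ i, N (φ i) % k = ρ := by
  have h : ∃ ρ ∈ Finset.range k, ∃ᶠ i in atTop, N i % k = ρ := by
    by_contra hcon
    push Not at hcon
    have h1 : ∀ᶠ i in atTop, ∀ ρ ∈ Finset.range k, ¬ (N i % k = ρ) := by
      rw [eventually_all_finset]
      intro ρ hρ
      exact hcon ρ hρ
    obtain ⟨i, hi⟩ := h1.exists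
    exact hi (N i % k) (Finset.mem_range.2 (Nat.mod_lt _ hk)) rfl
  obtain ⟨ρ, -, hρ⟩ := h
  obtain ⟨φ, hφ, hφ'⟩ := extraction_of_frequently_atTop hρ
  exact ⟨ρ, φ, hφ, hφ'⟩

/-- **the rescaled limit** -/
theorem exists_limit {k : ℕ} (hk : 0 < k) (hB : ∀ n, 0 ≤ B n) (hper : ∀ n, B (n + k) = B n)
    (hx : Sol B x) (hunb : ¬ BddAbove (range x)) :
    ∃ (ρ : ℕ) (U V : ℕ → ℝ), ∀ l, Win (fun i => B (ρ + i)) (k * l) (fun i => U (k * l - i))
      (fun i => V (k * l - i)) := by
  set W : ℕ → ℝ := fun n => max (x n) (1 / x n) with hW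
  have hWunb : ¬ BddAbove (range W) := by
    rintro ⟨M, hM⟩
    exact hunb ⟨M, by rintro _ ⟨n, rfl⟩; exact (le_max_left _ _).trans (hM ⟨n, rfl⟩)⟩
  choose N hN1 hN2 hN3 using exists_record hWunb
  obtain ⟨ρ, φ, hφ, hρ⟩ := exists_residue hk N
  have hWpos : ∀ n, 0 < W n := fun n => lt_max_of_lt_left (hx.1 n)
  -- compactness
  have hcomp : IsCompact (Set.pi univ (fun _ : ℕ => (Icc (0 : ℝ) 1) ×ˢ (Icc (0 : ℝ) 1))) :=
    isCompact_univ_pi fun _ => isCompact_Icc.prod isCompact_Icc
  obtain ⟨L, hL, ψ, hψ, hlim⟩ := hcomp.tendsto_subseq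
    (x := fun n j => (x (N (φ n) - j) / W (N (φ n)), 1 / (x (N (φ n) - j) * W (N (φ n)))))
    (fun n => fun j _ => by
      have h1 := hN3 (φ n) (N (φ n) - j) (Nat.sub_le _ _)
      have h2 := hWpos (N (φ n))
      have h3 := hx.1 (N (φ n) - j)
      refine ⟨⟨by positivity, ?_⟩, ⟨by positivity, ?_⟩⟩
      · rw [div_le_one h2]
        exact (le_max_left _ _).trans h1
      · show 1 / (x (N (φ n) - j) * W (N (φ n))) ≤ 1
        rw [div_le_one (by positivity)]
        have h4 : 1 / x (N (φ n) - j) ≤ W (N (φ n)) := (le_max_right _ _).trans h1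
        rw [div_le_iff₀ h3] at h4
        linarith)
  -- the records along the subsequence
  set R : ℕ → ℕ := fun n => N (φ (ψ n)) with hR
  have hRtop : Tendsto (fun n => W (R n)) atTop atTop := by
    refine tendsto_atTop_mono (fun n => hN2 (φ (ψ n))) ?_
    exact tendsto_natCast_atTop_atTop.comp (hφ.tendsto_atTop.comp hψ.tendsto_atTop)
  have hRtop' : Tendsto R atTop atTop :=
    tendsto_atTop_mono (fun n => hN1 (φ (ψ n))) (hφ.tendsto_atTop.comp hψ.tendsto_atTop)
  have hlim' := fun j => (tendsto_pi_nhds.1 hlim) j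
  have hU : ∀ j, Tendsto (fun n => x (R n - j) / W (R n)) atTop (𝓝 (L j).1) := fun j =>
    (continuous_fst.tendsto _).comp (hlim' j)
  have hV : ∀ j, Tendsto (fun n => 1 / (x (R n - j) * W (R n))) atTop (𝓝 (L j).2) := fun j =>
    (continuous_snd.tendsto _).comp (hlim' j)
  refine ⟨ρ, fun j => (L j).1, fun j => (L j).2, fun l => ?_⟩
  -- the recursion along the subsequence
  have hrec : ∀ i, i + 2 ≤ k * l → ∀ᶠ n in atTop,
      x (R n - (k * l - (i + 2))) = 1 / (B (ρ + i) * x (R n - (k * l - (i + 1))) +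
        x (R n - (k * l - i))) := by
    intro i hi
    filter_upwards [hRtop'.eventually_ge_atTop (k * l)] with n hn
    have h := hx.2 (R n - k * l + i)
    have e : B (R n - k * l + i) = B (ρ + i) := by
      refine per_of_modEq hper (Nat.ModEq.add_right i ?_)
      have h1 : R n - k * l ≡ R n [MOD k] := by
        have h2 : R n = R n - k * l + k * l := by omega
        conv_rhs => rw [h2]
        exact (Nat.modEq_iff_dvd' (Nat.le_add_right _ _)).2 ⟨l, by omega⟩
      refine h1.trans ?_
      have h3 : R n % k = ρ := hρ (ψ n)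
      have h4 : ρ < k := by rw [← h3]; exact Nat.mod_lt _ hk
      show R n % k = ρ % k
      rw [h3, Nat.mod_eq_of_lt h4]
    rw [e] at h
    rw [show R n - (k * l - (i + 2)) = R n - k * l + i + 2 by omega,
      show R n - (k * l - (i + 1)) = R n - k * l + i + 1 by omega,
      show R n - (k * l - i) = R n - k * l + i by omega]
    exact h
  have hpos : ∀ n j, 0 < x (R n - j) := fun n j => hx.1 _
  have hWR : ∀ n, 0 < W (R n) := fun n => hWpos _
  constructor
  · intro i _
    exact (hL (k * l - i) (mem_univ _)).1.1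
  · intro i _
    exact (hL (k * l - i) (mem_univ _)).2.1
  · intro i _
    exact (hL (k * l - i) (mem_univ _)).1.2
  · intro i _
    have t1 := (hU (k * l - i)).mul (hV (k * l - i))
    have t2 : Tendsto (fun n => 1 / W (R n) * (1 / W (R n))) atTop (𝓝 (0 * 0)) := by
      have : Tendsto (fun n => 1 / W (R n)) atTop (𝓝 0) := by
        simp only [one_div]
        exact tendsto_inv_atTop_zero.comp hRtop
      exact this.mul this
    rw [mul_zero] at t2
    refine tendsto_nhds_unique (t1.congr fun n => ?_) t2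
    have h1 := (hpos n (k * l - i)).ne'
    have h2 := (hWR n).ne'
    field_simp
  · intro i hi
    have t1 := ((hU (k * l - (i + 1))).const_mul (B (ρ + i))).add (hU (k * l - i))
    refine tendsto_nhds_unique (hV (k * l - (i + 2))) (t1.congr' ?_)
    filter_upwards [hrec i hi] with n hn
    have h1 := hpos n (k * l - (i + 2))
    have h2 := hWR n
    have h3 := hpos n (k * l - (i + 1))
    have h4 := hpos n (k * l - i)
    have h5 := hB (ρ + i)
    rw [hn]
    field_simp
  · intro i hi
    have t1 := (hU (k * l - (i + 2))).mul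
      (((hV (k * l - i)).const_mul (B (ρ + i))).add (hV (k * l - (i + 1))))
    have t2 := (hV (k * l - (i + 1))).mul (hV (k * l - i))
    refine tendsto_nhds_unique (t1.congr' ?_) t2
    filter_upwards [hrec i hi] with n hn
    have h1 := hpos n (k * l - (i + 2))
    have h2 := hWR n
    have h3 := hpos n (k * l - (i + 1))
    have h4 := hpos n (k * l - i)
    have h5 := hB (ρ + i)
    have h6 : 0 < B (ρ + i) * x (R n - (k * l - (i + 1))) + x (R n - (k * l - i)) := by positivity
    rw [hn]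
    field_simp
  · intro i hi
    refine le_of_tendsto_of_tendsto (hU (k * l - (i + 2))) (hV (k * l - i)) ?_
    filter_upwards [hrec i hi] with n hn
    have h2 := hWR n
    have h3 := hpos n (k * l - (i + 1))
    have h4 := hpos n (k * l - i)
    have h5 := hB (ρ + i)
    rw [hn, ← div_div]
    refine div_le_div_of_nonneg_right ?_ h2.le
    exact one_div_le_one_div_of_le h4 (by
      have := mul_nonneg h5 h3.le
      linarith)
  · intro i hi
    refine le_of_tendsto_of_tendsto ((hU (k * l - (i + 2))).const_mul _) (hV (k * l - (i + 1))) ?_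
    filter_upwards [hrec i hi] with n hn
    have h2 := hWR n
    have h3 := hpos n (k * l - (i + 1))
    have h4 := hpos n (k * l - i)
    have h5 := hB (ρ + i)
    have h6 : 0 < B (ρ + i) * x (R n - (k * l - (i + 1))) + x (R n - (k * l - i)) := by positivity
    rw [hn, ← div_div, ← mul_div_assoc]
    refine div_le_div_of_nonneg_right ?_ h2.le
    rw [mul_one_div, div_le_div_iff₀ h6 h3]
    linarith
  · intro i hi h0
    refine tendsto_nhds_unique (hU (k * l - (i + 2))) ((hV (k * l - i)).congr' ?_)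
    filter_upwards [hrec i hi] with n hn
    rw [hn, h0, zero_mul, zero_add, ← div_div]
  · -- at the record
    simp only [Nat.sub_self]
    by_contra hcon
    push Not at hcon
    have h1 : (L 0).1 = 0 := le_antisymm hcon.1 (hL 0 (mem_univ _)).1.1
    have h2 : (L 0).2 = 0 := le_antisymm hcon.2 (hL 0 (mem_univ _)).2.1
    have t1 := (hU 0).max (hV 0)
    rw [h1, h2, max_self] at t1
    have h3 : ∀ n, max (x (R n - 0) / W (R n)) (1 / (x (R n - 0) * W (R n))) = 1 := by
      intro n
      have h4 := hWR n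
      rw [Nat.sub_zero, ← div_div, max_div_div_right h4.le]
      exact div_self h4.ne'
    have t2 : Tendsto (fun _ : ℕ => (1 : ℝ)) atTop (𝓝 0) := t1.congr h3
    exact one_ne_zero (tendsto_nhds_unique tendsto_const_nhds t2)

end Q65.PerRec
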