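import Pool.Agent.Q65.PerRec4

/-!
The recursion `x_{n+1} = 1 / (B_n x_n + x_{n-1})` with periodic coefficients: analysis of the
homogeneous limit system and boundedness.
-/

set_option autoImplicit false

namespace Q65.PerRec

open Filter Topology Set

variable {B x b u v : ℕ → ℝ} {J : ℕ}

/-- no two consecutive zero entries -/
lemma Win.not_dead (h : Win b J u v) {i : ℕ} (hi : i + 1 ≤ J) (h1 : u i = 0) (h2 : v i = 0)
    (h3 : u (i + 1) = 0) (h4 : v (i + 1) = 0) : False := by
  have key : ∀ m, i + 1 + m ≤ J → u (i + m) = 0 ∧ v (i + m) = 0 ∧ u (i + m + 1) = 0 ∧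
      v (i + m + 1) = 0 := by
    intro m
    induction m with
    | zero => intro _; exact ⟨h1, h2, h3, h4⟩
    | succ m ih =>
      intro hm
      obtain ⟨a1, a2, a3, a4⟩ := ih (by omega)
      have r1 := h.rel1 (i + m) (by omega)
      have r3 := h.rel3 (i + m) (by omega)
      rw [a3, a1, mul_zero, zero_add] at r1
      rw [a2] at r3
      exact ⟨a3, a4, le_antisymm r3 (h.u0 _ (by omega)), r1⟩
  obtain ⟨-, -, h5, h6⟩ := key (J - i - 1) (by omega)
  rw [show i + (J - i - 1) + 1 = J by omega] at h5 h6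
  rcases h.fin with h | h <;> linarith

lemma Win.zero_back (h : Win b J u v) (hb : ∀ i, 0 ≤ b i) {i : ℕ} (hi : i + 2 ≤ J)
    (h1 : u (i + 2) = 0) (h2 : v (i + 2) = 0) : u i = 0 ∧ v i = 0 := by
  have r1 := h.rel1 i hi
  have r2 := h.rel2 i hi
  have r5 := h.rel5 i hi
  have u0 := h.u0 i (by omega)
  have u1 := h.u0 (i + 1) (by omega)
  have hbu : 0 ≤ b i * u (i + 1) := mul_nonneg (hb i) u1
  rw [h2] at r1
  have hu : u i = 0 := by linarith
  have hbu0 : b i * u (i + 1) = 0 := by linarith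
  refine ⟨hu, ?_⟩
  by_cases hb0 : b i = 0
  · rw [← r5 hb0, h1]
  · have hu1 : u (i + 1) = 0 := (mul_eq_zero.1 hbu0).resolve_left hb0
    rw [h1, zero_mul] at r2
    rcases mul_eq_zero.1 r2.symm with h3 | h3
    · exact (h.not_dead (i := i + 1) hi hu1 h3 h1 h2).elim
    · exact h3

lemma Win.chain_u (h : Win b J u v) {i : ℕ} (hi : i + 3 ≤ J) (h1 : u i = 0)
    (h3 : u (i + 2) = 0) (h4 : v (i + 2) = 0) (hp : 0 < u (i + 1)) : b i = 0 ∧ 0 < v (i + 3) := by
  have r1 := h.rel1 i (by omega)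
  have r1' : v (i + 3) = b (i + 1) * u (i + 2) + u (i + 1) := h.rel1 (i + 1) (by omega)
  rw [h4, h1, add_zero] at r1
  rw [h3, mul_zero, zero_add] at r1'
  exact ⟨(mul_eq_zero.1 r1.symm).resolve_right hp.ne', by rw [r1']; exact hp⟩

lemma Win.chain_v (h : Win b J u v) (hb : ∀ i, 0 ≤ b i) {i : ℕ} (hi : i + 3 ≤ J)
    (h3 : u (i + 2) = 0) (h4 : v (i + 2) = 0) (hp : 0 < v (i + 1)) :
    b (i + 1) = 0 ∧ 0 < u (i + 3) := by
  have hu1 : u (i + 1) = 0 := (mul_eq_zero.1 (h.uv (i + 1) (by omega))).resolve_right hp.ne'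
  have r1' : v (i + 3) = b (i + 1) * u (i + 2) + u (i + 1) := h.rel1 (i + 1) (by omega)
  rw [h3, mul_zero, zero_add, hu1] at r1'
  have r4 : b (i + 1) * u (i + 3) ≤ v (i + 2) := h.rel4 (i + 1) (by omega)
  rw [h4] at r4
  have hu3 := h.u0 (i + 3) hi
  have hb1 : b (i + 1) = 0 := by
    by_contra hcon
    have hbp : 0 < b (i + 1) := lt_of_le_of_ne (hb _) (Ne.symm hcon)
    have hu3' : u (i + 3) = 0 := by
      by_contra hc
      have : 0 < u (i + 3) := lt_of_le_of_ne hu3 (Ne.symm hc)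
      nlinarith
    exact h.not_dead (i := i + 2) hi h3 h4 hu3' r1'
  have r5 : u (i + 3) = v (i + 1) := h.rel5 (i + 1) (by omega) hb1
  exact ⟨hb1, by rw [r5]; exact hp⟩

/-- the coefficients vanish on two residue classes if an entry is zero -/
lemma Win.nonzero {k : ℕ} (hk : 0 < k) (hb : ∀ i, 0 ≤ b i) (hper : ∀ n, b (n + k) = b n)
    (hne : ∃ n, 0 < b n) (hZ : ∀ n, (∀ j, b (n + 4 * j) = 0) → ∀ j, b (n + 4 * j + 2) = 0)
    (h : Win b J u v) {i : ℕ} (hi : 4 * k + 8 ≤ i) (hiJ : i ≤ J) : 0 < u i ∨ 0 < v i := by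
  by_contra hcon
  push Not at hcon
  have hu : u i = 0 := le_antisymm hcon.1 (h.u0 i hiJ)
  have hv : v i = 0 := le_antisymm hcon.2 (h.v0 i hiJ)
  -- all entries of the same parity vanish
  have hz : ∀ t, 2 * t ≤ i → u (i - 2 * t) = 0 ∧ v (i - 2 * t) = 0 := by
    intro t
    induction t with
    | zero => intro _; exact ⟨hu, hv⟩
    | succ t ih =>
      intro ht
      obtain ⟨a1, a2⟩ := ih (by omega)
      refine h.zero_back hb (i := i - 2 * (t + 1)) (by omega) ?_ ?_
      · rw [show i - 2 * (t + 1) + 2 = i - 2 * t by omega]; exact a1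
      · rw [show i - 2 * (t + 1) + 2 = i - 2 * t by omega]; exact a2
  have hz' : ∀ s, s ≤ i → s % 2 = i % 2 → u s = 0 ∧ v s = 0 := by
    intro s hs hs2
    have := hz ((i - s) / 2) (by omega)
    rw [show i - 2 * ((i - s) / 2) = s by omega] at this
    exact this
  -- a positive entry of the other parity
  obtain ⟨p, hp1, hp2, hp3⟩ : ∃ p, p ≤ 4 ∧ p % 2 ≠ i % 2 ∧ 0 < p ∧ 0 < u p := by
    have h00 := hz' (i % 2) (by omega) (by omega)
    have h02 := hz' (i % 2 + 2) (by omega) (by omega)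
    have hnz : 0 < u (i % 2 + 1) ∨ 0 < v (i % 2 + 1) := by
      by_contra hc
      push Not at hc
      exact h.not_dead (i := i % 2) (by omega) h00.1 h00.2
        (le_antisymm hc.1 (h.u0 _ (by omega))) (le_antisymm hc.2 (h.v0 _ (by omega)))
    rcases hnz with hc | hc
    · exact ⟨i % 2 + 1, by omega, by omega, by omega, hc⟩
    · exact ⟨i % 2 + 3, by omega, by omega, by omega,
        (h.chain_v hb (i := i % 2) (by omega) h02.1 h02.2 hc).2⟩
  have hchain : ∀ t, p + 4 * t ≤ i → 0 < u (p + 4 * t) := by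
    intro t
    induction t with
    | zero => intro _; exact hp3.2
    | succ t ih =>
      intro ht
      have h1 := ih (by omega)
      have z0 := hz' (p + 4 * t - 1) (by omega) (by omega)
      have z1 := hz' (p + 4 * t + 1) (by omega) (by omega)
      have z2 := hz' (p + 4 * t + 3) (by omega) (by omega)
      have e0 : p + 4 * t - 1 + 1 = p + 4 * t := by omega
      have h2 := (h.chain_u (i := p + 4 * t - 1) (by omega) z0.1
        (by rw [show p + 4 * t - 1 + 2 = p + 4 * t + 1 by omega]; exact z1.1)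
        (by rw [show p + 4 * t - 1 + 2 = p + 4 * t + 1 by omega]; exact z1.2)
        (by rw [e0]; exact h1)).2
      rw [show p + 4 * t - 1 + 3 = p + 4 * t + 2 by omega] at h2
      have h3 := (h.chain_v hb (i := p + 4 * t + 1) (by omega) z2.1 z2.2 h2).2
      rw [show p + 4 * t + 1 + 3 = p + 4 * (t + 1) by ring] at h3
      exact h3
  have hcoef : ∀ t, p + 4 * t + 7 ≤ i → b (p + 4 * t + 2) = 0 ∧ b (p + 4 * t + 3) = 0 := by
    intro t ht
    have h1 := hchain t (by omega)
    have h1' := hchain (t + 1) (by omega)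
    have z0 := hz' (p + 4 * t - 1) (by omega) (by omega)
    have z1 := hz' (p + 4 * t + 1) (by omega) (by omega)
    have z2 := hz' (p + 4 * t + 3) (by omega) (by omega)
    have z3 : u (p + 4 * t + 5) = 0 ∧ v (p + 4 * t + 5) = 0 :=
      hz' (p + 4 * t + 5) (by omega) (by omega)
    have e0 : p + 4 * t - 1 + 1 = p + 4 * t := by omega
    have h2 := (h.chain_u (i := p + 4 * t - 1) (by omega) z0.1
      (by rw [show p + 4 * t - 1 + 2 = p + 4 * t + 1 by omega]; exact z1.1)
      (by rw [show p + 4 * t - 1 + 2 = p + 4 * t + 1 by omega]; exact z1.2)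
      (by rw [e0]; exact h1)).2
    rw [show p + 4 * t - 1 + 3 = p + 4 * t + 2 by omega] at h2
    have h3 := (h.chain_v hb (i := p + 4 * t + 1) (by omega) z2.1 z2.2 h2).1
    have h4 := (h.chain_u (i := p + 4 * t + 3) (by omega) z2.1 z3.1 z3.2 (by
      rw [show p + 4 * t + 3 + 1 = p + 4 * (t + 1) by ring]; exact h1')).1
    exact ⟨h3, h4⟩
  -- two residue classes vanish
  have hcl : ∀ c, (∀ t, t < k → b (c + 4 * t) = 0) → ∀ t, b (c + 4 * t) = 0 := by
    intro c hc t
    have h1 := hc (t % k) (Nat.mod_lt _ hk)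
    rw [show c + 4 * t = c + 4 * (t % k) + k * (4 * (t / k)) by
      have := Nat.mod_add_div t k
      calc c + 4 * t = c + 4 * (t % k + k * (t / k)) := by rw [this]
        _ = _ := by ring, per_mul hper]
    exact h1
  have c2 : ∀ t, b (p + 2 + 4 * t) = 0 := hcl _ fun t ht => by
    rw [show p + 2 + 4 * t = p + 4 * t + 2 by ring]
    exact (hcoef t (by omega)).1
  have c3 : ∀ t, b (p + 3 + 4 * t) = 0 := hcl _ fun t ht => by
    rw [show p + 3 + 4 * t = p + 4 * t + 3 by ring]
    exact (hcoef t (by omega)).2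
  have c4 := hZ _ c2
  have c5 := hZ _ c3
  obtain ⟨n, hn⟩ := hne
  have hrep : b (n + k * (p + 6)) = b n := per_mul hper _ _
  have hge : p + 6 ≤ n + k * (p + 6) := by
    have := Nat.le_mul_of_pos_left (p + 6) hk
    omega
  set N := n + k * (p + 6) with hN
  have hzero : b N = 0 := by
    obtain ⟨t, ht⟩ : ∃ t, N = p + 2 + 4 * t ∨ N = p + 3 + 4 * t ∨ N = p + 2 + 4 * t + 2 ∨
        N = p + 3 + 4 * t + 2 := ⟨(N - (p + 2)) / 4, by omega⟩
    rcases ht with ht | ht | ht | ht
    · rw [ht]; exact c2 t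
    · rw [ht]; exact c3 t
    · rw [ht]; exact c4 t
    · rw [ht]; exact c5 t
  rw [← hrep, hzero] at hn
  exact lt_irrefl _ hn

/-- one step along the itinerary inside a window -/
lemma Win.step_pos (hb : ∀ i, 0 ≤ b i) (h : Win b J u v) {i : ℕ} (hi : i + 4 ≤ J)
    (h1 : 0 < v i) (h2 : 0 < u (i + 1)) (hbi : 0 < b i) :
    step b (i, v i, u (i + 1)) = (i + 3, v (i + 3), u (i + 4)) ∧ 0 < v (i + 3) ∧
      0 < u (i + 4) := by
  have uz : ∀ j, j ≤ J → 0 < v j → u j = 0 := fun j hj hv =>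
    (mul_eq_zero.1 (h.uv j hj)).resolve_right hv.ne'
  have hui := uz i (by omega) h1
  have r2 : v (i + 2) = b i * u (i + 1) + u i := h.rel1 i (by omega)
  rw [hui, add_zero] at r2
  have hv2 : 0 < v (i + 2) := by rw [r2]; positivity
  have hu2 := uz (i + 2) (by omega) hv2
  have r3 : v (i + 3) = b (i + 1) * u (i + 2) + u (i + 1) := h.rel1 (i + 1) (by omega)
  rw [hu2, mul_zero, zero_add] at r3
  have r4 : u (i + 4) * (b (i + 2) * v (i + 2) + v (i + 3)) = v (i + 3) * v (i + 2) :=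
    h.rel2 (i + 2) (by omega)
  have hb2 := hb (i + 2)
  have e4 : u (i + 4) = u (i + 1) * (b i / (1 + b i * b (i + 2))) := by
    rw [r3, r2] at r4
    have hpos : 0 < b (i + 2) * (b i * u (i + 1)) + u (i + 1) := by positivity
    have hpos' : 0 < 1 + b i * b (i + 2) := by positivity
    rw [← mul_div_assoc, eq_div_iff hpos'.ne']
    have h3 : u (i + 1) * (u (i + 4) * (1 + b i * b (i + 2)) - u (i + 1) * b i) = 0 := by
      linear_combination r4
    have h4 := (mul_eq_zero.1 h3).resolve_left h2.ne'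
    linarith
  refine ⟨?_, by rw [r3]; exact h2, by rw [e4]; positivity⟩
  rw [PerRec.step_pos _ _ hbi, r3, e4]

lemma Win.step_zero (hb : ∀ i, 0 ≤ b i) (h : Win b J u v) {i : ℕ} (hi : i + 5 ≤ J)
    (h1 : 0 < v i) (h2 : 0 < u (i + 1)) (hbi : ¬ 0 < b i) :
    step b (i, v i, u (i + 1)) = (i + 4, v (i + 4), u (i + 5)) ∧ 0 < v (i + 4) ∧
      0 < u (i + 5) := by
  have uz : ∀ j, j ≤ J → 0 < v j → u j = 0 := fun j hj hv =>
    (mul_eq_zero.1 (h.uv j hj)).resolve_right hv.ne'
  have hb0 : b i = 0 := le_antisymm (not_lt.1 hbi) (hb i)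
  have b1 := hb (i + 1)
  have b3 := hb (i + 3)
  have r2 : u (i + 2) = v i := h.rel5 i (by omega) hb0
  have r3 : v (i + 3) = b (i + 1) * u (i + 2) + u (i + 1) := h.rel1 (i + 1) (by omega)
  rw [r2] at r3
  have hv3 : 0 < v (i + 3) := by rw [r3]; positivity
  have hu3 := uz (i + 3) (by omega) hv3
  have r4 : v (i + 4) = b (i + 2) * u (i + 3) + u (i + 2) := h.rel1 (i + 2) (by omega)
  rw [hu3, mul_zero, zero_add, r2] at r4
  have r5 : u (i + 5) * (b (i + 3) * v (i + 3) + v (i + 4)) = v (i + 4) * v (i + 3) :=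
    h.rel2 (i + 3) (by omega)
  rw [r3, r4] at r5
  have hpos : 0 < v i + b (i + 3) * (b (i + 1) * v i + u (i + 1)) := by positivity
  have e5 : u (i + 5) = v i * (b (i + 1) * v i + u (i + 1)) /
      (v i + b (i + 3) * (b (i + 1) * v i + u (i + 1))) := by
    rw [eq_div_iff hpos.ne']
    linear_combination r5
  refine ⟨?_, by rw [r4]; exact h1, by rw [e5]; positivity⟩
  rw [PerRec.step_zero _ _ hbi, r4, e5]

/-- the itinerary connects all large values -/
lemma Win.path (hb : ∀ i, 0 ≤ b i) (h : Win b J u v) : ∀ n i i' : ℕ, i' = i + n → i < i' →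
    i' + 1 ≤ J → 0 < v i → 0 < u (i + 1) → 0 < v i' → 0 < u (i' + 1) →
    ∃ m, 1 ≤ m ∧ (step b)^[m] (i, v i, u (i + 1)) = (i', v i', u (i' + 1)) := by
  have uz : ∀ j, j ≤ J → 0 < v j → u j = 0 := fun j hj hv =>
    (mul_eq_zero.1 (h.uv j hj)).resolve_right hv.ne'
  have vz : ∀ j, j ≤ J → 0 < u j → v j = 0 := fun j hj hu =>
    (mul_eq_zero.1 (h.uv j hj)).resolve_left hu.ne'
  intro n
  induction n using Nat.strong_induction_on with
  | _ n ih =>
    intro i i' hn hlt hJ h1 h2 h3 h4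
    have hne1 : i' ≠ i + 1 := by
      rintro rfl
      rw [vz (i + 1) (by omega) h2] at h3
      exact lt_irrefl _ h3
    by_cases hbi : 0 < b i
    · -- three steps
      have hne2 : i' ≠ i + 2 := by
        rintro rfl
        have r3 : v (i + 3) = b (i + 1) * u (i + 2) + u (i + 1) := h.rel1 (i + 1) (by omega)
        have h5 := mul_nonneg (hb (i + 1)) (h.u0 (i + 2) (by omega))
        have h6 := uz (i + 3) (by omega) (by rw [r3]; linarith)
        rw [show i + 2 + 1 = i + 3 by ring, h6] at h4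
        exact lt_irrefl _ h4
      obtain ⟨e, p1, p2⟩ := h.step_pos hb (by omega) h1 h2 hbi
      rcases Nat.lt_or_ge (i + 3) i' with hlt' | hge
      · obtain ⟨m, -, hm⟩ := ih (i' - (i + 3)) (by omega) (i + 3) i' (by omega) hlt' hJ p1 p2 h3 h4
        refine ⟨m + 1, by omega, ?_⟩
        rw [Function.iterate_succ_apply, e]
        exact hm
      · have : i' = i + 3 := by omega
        subst this
        exact ⟨1, le_rfl, e⟩
    · have hb0 : b i = 0 := le_antisymm (not_lt.1 hbi) (hb i)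
      have hne2 : i' ≠ i + 2 := by
        rintro rfl
        have r2 : u (i + 2) = v i := h.rel5 i (by omega) hb0
        rw [vz (i + 2) (by omega) (by rw [r2]; exact h1)] at h3
        exact lt_irrefl _ h3
      have hne3 : i' ≠ i + 3 := by
        rintro rfl
        have r2 : u (i + 2) = v i := h.rel5 i (by omega) hb0
        have r4 : v (i + 4) = b (i + 2) * u (i + 3) + u (i + 2) := h.rel1 (i + 2) (by omega)
        have h5 := mul_nonneg (hb (i + 2)) (h.u0 (i + 3) (by omega))
        have h6 := uz (i + 4) (by omega) (by rw [r4]; linarith)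
        rw [show i + 3 + 1 = i + 4 by ring, h6] at h4
        exact lt_irrefl _ h4
      obtain ⟨e, p1, p2⟩ := h.step_zero hb (by omega) h1 h2 hbi
      rcases Nat.lt_or_ge (i + 4) i' with hlt' | hge
      · obtain ⟨m, -, hm⟩ := ih (i' - (i + 4)) (by omega) (i + 4) i' (by omega) hlt' hJ p1 p2 h3 h4
        refine ⟨m + 1, by omega, ?_⟩
        rw [Function.iterate_succ_apply, e]
        exact hm
      · have : i' = i + 4 := by omega
        subst this
        exact ⟨1, le_rfl, e⟩

/-- there are many large values -/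
lemma Win.exists_large (hb : ∀ i, 0 ≤ b i) (h : Win b J u v)
    (hnz : ∀ i, i ≤ J → 0 < u i ∨ 0 < v i) {i : ℕ} (hi : i + 4 ≤ J) :
    ∃ s, i ≤ s ∧ s ≤ i + 3 ∧ 0 < v s ∧ 0 < u (s + 1) := by
  -- two consecutive small values are followed by a large one
  have hmm : ∀ i, i + 2 ≤ J → 0 < v i → 0 < v (i + 1) → 0 < u (i + 2) := by
    intro i hi h1 h2
    have r := h.rel2 i hi
    have hb' := hb i
    have hp : 0 < v (i + 1) * v i := mul_pos h2 h1
    rw [← r] at hp
    exact (pos_iff_pos_of_mul_pos hp).2 (by positivity)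
  have hpm : ∀ i, i + 2 ≤ J → 0 < u i → 0 < v (i + 2) := by
    intro i hi h1
    rw [h.rel1 i hi]
    have := mul_nonneg (hb i) (h.u0 (i + 1) (by omega))
    linarith
  rcases hnz i (by omega) with a0 | a0
  · have a2 := hpm i (by omega) a0
    rcases hnz (i + 1) (by omega) with a1 | a1
    · have a3 : 0 < v (i + 3) := hpm (i + 1) (by omega) a1
      exact ⟨i + 3, by omega, by omega, a3, hmm (i + 2) (by omega) a2 a3⟩
    · exact ⟨i + 2, by omega, by omega, a2, hmm (i + 1) (by omega) a1 a2⟩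
  · rcases hnz (i + 1) (by omega) with a1 | a1
    · exact ⟨i, by omega, by omega, a0, a1⟩
    · exact ⟨i + 1, by omega, by omega, a1, hmm i (by omega) a0 a1⟩

/-- there are many large values followed by a positive coefficient -/
lemma Win.exists_reset {k : ℕ} (hk : 0 < k) (hb : ∀ i, 0 ≤ b i) (hper : ∀ n, b (n + k) = b n)
    (hno : ∀ n, ∃ j, 0 < b (n + 4 * j)) (h : Win b J u v) {i : ℕ} (hi : i + 4 * k + 1 ≤ J)
    (h1 : 0 < v i) (h2 : 0 < u (i + 1)) :
    ∃ s, i ≤ s ∧ s ≤ i + 4 * k ∧ 0 < v s ∧ 0 < u (s + 1) ∧ 0 < b s := by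
  classical
  have hex : ∃ t, 0 < b (i + 4 * t) := hno i
  have ht := Nat.find_spec hex
  have hmin : ∀ t, t < Nat.find hex → ¬ 0 < b (i + 4 * t) := fun t ht => Nat.find_min hex ht
  have hlt : Nat.find hex < k := by
    by_contra hcon
    push Not at hcon
    refine hmin (Nat.find hex % k) (lt_of_lt_of_le (Nat.mod_lt _ hk) hcon) ?_
    have e : i + 4 * Nat.find hex = i + 4 * (Nat.find hex % k) + k * (4 * (Nat.find hex / k)) := by
      have := Nat.mod_add_div (Nat.find hex) k
      calc i + 4 * Nat.find hex = i + 4 * (Nat.find hex % k + k * (Nat.find hex / k)) := by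
            rw [this]
        _ = _ := by ring
    rw [e, per_mul hper] at ht
    exact ht
  have hind : ∀ t, t ≤ Nat.find hex → 0 < v (i + 4 * t) ∧ 0 < u (i + 4 * t + 1) := by
    intro t
    induction t with
    | zero => intro _; exact ⟨h1, h2⟩
    | succ t ih =>
      intro ht'
      obtain ⟨a1, a2⟩ := ih (by omega)
      obtain ⟨-, p1, p2⟩ := h.step_zero hb (i := i + 4 * t) (by omega) a1 a2 (hmin t (by omega))
      exact ⟨p1, p2⟩
  obtain ⟨a1, a2⟩ := hind _ le_rfl
  exact ⟨i + 4 * Nat.find hex, by omega, by omega, a1, a2, ht⟩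

end Q65.PerRec
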