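import Pool.Agent.Q65.PerRec5

/-!
The recursion `x_{n+1} = 1 / (B_n x_n + x_{n-1})` with periodic coefficients: boundedness.
-/

set_option autoImplicit false

namespace Q65.PerRec

open Filter Topology Set

variable {B x b u v : ℕ → ℝ} {J : ℕ}

/-- from a positive coefficient the first entry is irrelevant -/
lemma iterate_reset {n : ℕ} (hbn : 0 < b n) {q : ℝ} (hq : 0 < q) (Q : ℝ) {m : ℕ} (hm : 1 ≤ m) :
    (step b)^[m] (n, Q, q) = (((step b)^[m] (n, 1, 1)).1, q * ((step b)^[m] (n, 1, 1)).2.1,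
      q * ((step b)^[m] (n, 1, 1)).2.2) := by
  obtain ⟨m', rfl⟩ : ∃ m', m = m' + 1 := ⟨m - 1, by omega⟩
  rw [Function.iterate_succ_apply, Function.iterate_succ_apply, step_pos _ _ hbn, step_pos _ _ hbn]
  have := iterate_smul (B := b) hq (n + 3) 1 (1 * (b n / (1 + b n * b (n + 2)))) m'
  rw [← this, mul_one, one_mul]

lemma iterate_periodic {k : ℕ} (hper : ∀ n, b (n + k) = b n) (n t : ℕ) (Q q : ℝ) (m : ℕ) :
    (step b)^[m] (n + k * t, Q, q) = (((step b)^[m] (n, Q, q)).1 + k * t,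
      ((step b)^[m] (n, Q, q)).2.1, ((step b)^[m] (n, Q, q)).2.2) := by
  have h := iterate_shift (B := b) (k * t) n Q q m
  have e : (fun i => b (k * t + i)) = b := by
    funext i
    rw [add_comm, per_mul hper]
  rw [e, add_comm (k * t) n, add_comm (k * t)] at h
  exact h

lemma iterate_modEq {k : ℕ} (hper : ∀ n, b (n + k) = b n) {n n' : ℕ} (h : n ≡ n' [MOD k])
    (Q q : ℝ) (m : ℕ) : ((step b)^[m] (n, Q, q)).2.2 = ((step b)^[m] (n', Q, q)).2.2 ∧
      (((step b)^[m] (n, Q, q)).1 ≡ n [MOD k] → ((step b)^[m] (n', Q, q)).1 ≡ n' [MOD k]) := by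
  have key : ∀ n t, ((step b)^[m] (n + k * t, Q, q)).2.2 = ((step b)^[m] (n, Q, q)).2.2 ∧
      (((step b)^[m] (n + k * t, Q, q)).1 ≡ n + k * t [MOD k] ↔
        ((step b)^[m] (n, Q, q)).1 ≡ n [MOD k]) := by
    intro n t
    rw [iterate_periodic hper]
    refine ⟨rfl, ?_⟩
    simp only
    constructor
    · intro h
      exact Nat.ModEq.add_right_cancel' _ h
    · intro h
      exact Nat.ModEq.add_right _ h
  rcases le_total n n' with hle | hle
  · obtain ⟨t, ht⟩ := (Nat.modEq_iff_dvd' hle).1 h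
    have h1 := key n t
    rw [show n + k * t = n' by omega] at h1
    exact ⟨h1.1.symm, h1.2.2⟩
  · obtain ⟨t, ht⟩ := (Nat.modEq_iff_dvd' hle).1 h.symm
    have h1 := key n' t
    rw [show n' + k * t = n by omega] at h1
    exact ⟨h1.1, h1.2.1⟩

lemma g_add {k : ℕ} (hb : ∀ i, 0 ≤ b i) (hper : ∀ n, b (n + k) = b n) {n d : ℕ} (hbn : 0 < b n)
    (hd : ((step b)^[d] (n, 1, 1)).1 ≡ n [MOD k]) (m : ℕ) :
    ((step b)^[d + m] (n, 1, 1)).2.2 =
      ((step b)^[d] (n, 1, 1)).2.2 * ((step b)^[m] (n, 1, 1)).2.2 := by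
  rcases Nat.eq_zero_or_pos m with rfl | hm
  · simp
  · rw [add_comm d m, Function.iterate_add_apply]
    have hpos := (iterate_positive hb (s := (n, 1, 1)) one_pos one_pos d).2
    have hbN : 0 < b ((step b)^[d] (n, 1, 1)).1 := by
      rw [per_of_modEq hper hd]
      exact hbn
    have e := iterate_reset hbN hpos ((step b)^[d] (n, 1, 1)).2.1 hm
    have e' : (step b)^[d] (n, 1, 1) = (((step b)^[d] (n, 1, 1)).1, ((step b)^[d] (n, 1, 1)).2.1,
      ((step b)^[d] (n, 1, 1)).2.2) := rfl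
    rw [e', e]
    simp only
    rw [(iterate_modEq hper hd 1 1 m).1]

lemma g_small {k : ℕ} (hb : ∀ i, 0 ≤ b i) (hper : ∀ n, b (n + k) = b n) {n d : ℕ} (hbn : 0 < b n)
    (hd1 : 1 ≤ d) (hd : ((step b)^[d] (n, 1, 1)).1 ≡ n [MOD k])
    (hlt : ((step b)^[d] (n, 1, 1)).2.2 < 1) {ε : ℝ} (hε : 0 < ε) :
    ∃ M, ∀ m, M ≤ m → ((step b)^[m] (n, 1, 1)).2.2 < ε := by
  set G := ((step b)^[d] (n, 1, 1)).2.2 with hG
  have hpos : ∀ m, 0 < ((step b)^[m] (n, 1, 1)).2.2 := fun m =>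
    (iterate_positive hb (s := (n, 1, 1)) one_pos one_pos m).2
  have hG0 : 0 < G := hpos d
  set C := ∑ r ∈ Finset.range d, ((step b)^[r] (n, 1, 1)).2.2 with hC
  have hC' : ∀ r, r < d → ((step b)^[r] (n, 1, 1)).2.2 ≤ C := fun r hr =>
    Finset.single_le_sum (f := fun r => ((step b)^[r] (n, 1, 1)).2.2) (fun r _ => (hpos r).le)
      (Finset.mem_range.2 hr)
  have hC0 : 0 < C := (hpos 0).trans_le (hC' 0 (by omega))
  have hpow : ∀ t r, ((step b)^[d * t + r] (n, 1, 1)).2.2 = G ^ t * ((step b)^[r] (n, 1, 1)).2.2 := by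
    intro t r
    induction t with
    | zero => simp
    | succ t ih =>
      rw [show d * (t + 1) + r = d + (d * t + r) by ring, g_add hb hper hbn hd, ih, pow_succ]
      ring
  obtain ⟨T, hT⟩ := exists_pow_lt_of_lt_one (div_pos hε hC0) hlt
  refine ⟨d * T, fun m hm => ?_⟩
  have h1 := hpow (m / d) (m % d)
  rw [Nat.div_add_mod] at h1
  rw [h1]
  have h2 : T ≤ m / d := (Nat.le_div_iff_mul_le (by omega)).2 (by rw [mul_comm]; exact hm)
  have h3 : G ^ (m / d) ≤ G ^ T := pow_le_pow_of_le_one hG0.le hlt.le h2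
  have h4 := hC' (m % d) (Nat.mod_lt _ (by omega))
  have h5 : G ^ T * C < ε := (lt_div_iff₀ hC0).1 hT
  calc G ^ (m / d) * ((step b)^[m % d] (n, 1, 1)).2.2 ≤ G ^ T * C :=
        mul_le_mul h3 h4 (hpos _).le (by positivity)
    _ < ε := h5

/-- **boundedness** -/
theorem bounded_of_G {k : ℕ} (hk : 0 < k) (hB : ∀ n, 0 ≤ B n) (hper : ∀ n, B (n + k) = B n)
    (hne : ∃ n, 0 < B n) (hZ : ∀ n, (∀ j, B (n + 4 * j) = 0) → ∀ j, B (n + 4 * j + 2) = 0)
    (hno : ∀ n, ∃ j, 0 < B (n + 4 * j))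
    (hG : ∀ n, 0 < B n → ∀ m, 1 ≤ m → ((step B)^[m] (n, 1, 1)).1 ≡ n [MOD k] →
      ((step B)^[m] (n, 1, 1)).2.2 < 1) (hx : Sol B x) : BddAbove (range x) := by
  by_contra hunb
  obtain ⟨ρ, U, V, hwin⟩ := exists_limit hk hB hper hx hunb
  set b : ℕ → ℝ := fun i => B (ρ + i) with hb'
  have hb : ∀ i, 0 ≤ b i := fun i => hB _
  have hbper : ∀ n, b (n + k) = b n := fun n => by
    show B (ρ + (n + k)) = B (ρ + n)
    rw [← add_assoc, hper]
  have hbne : ∃ n, 0 < b n := by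
    obtain ⟨n, hn⟩ := hne
    refine ⟨n + (k * ρ - ρ), ?_⟩
    show 0 < B (ρ + (n + (k * ρ - ρ)))
    have := Nat.le_mul_of_pos_left ρ hk
    rw [show ρ + (n + (k * ρ - ρ)) = n + k * ρ by omega, per_mul hper]
    exact hn
  have hbZ : ∀ n, (∀ j, b (n + 4 * j) = 0) → ∀ j, b (n + 4 * j + 2) = 0 := by
    intro n hn j
    have := hZ (ρ + n) (fun j => by
      have := hn j
      show B (ρ + n + 4 * j) = 0
      rw [add_assoc]
      exact this) j
    show B (ρ + (n + 4 * j + 2)) = 0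
    rw [show ρ + (n + 4 * j + 2) = ρ + n + 4 * j + 2 by ring]
    exact this
  have hbno : ∀ n, ∃ j, 0 < b (n + 4 * j) := by
    intro n
    obtain ⟨j, hj⟩ := hno (ρ + n)
    refine ⟨j, ?_⟩
    show 0 < B (ρ + (n + 4 * j))
    rw [← add_assoc]
    exact hj
  have hbG : ∀ n, 0 < b n → ∀ m, 1 ≤ m → ((step b)^[m] (n, 1, 1)).1 ≡ n [MOD k] →
      ((step b)^[m] (n, 1, 1)).2.2 < 1 := by
    intro n hn m hm hmod
    have e := iterate_shift (B := B) ρ n 1 1 m
    have h1 := hG (ρ + n) hn m hm (by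
      rw [e]
      exact Nat.ModEq.add_left ρ hmod)
    rw [e] at h1
    exact h1
  have hsub : ∀ l j, j ≤ k * l → k * l - (k * l - j) = j := fun l j h => by omega
  -- all entries are nonzero
  have hnz : ∀ j, 0 < U j ∨ 0 < V j := by
    intro j
    have h1 : j ≤ k * j := Nat.le_mul_of_pos_left j hk
    have h2 := (hwin (j + 12)).nonzero hk hb hbper hbne hbZ (i := k * (j + 12) - j) (by
      rw [mul_add]
      omega) (Nat.sub_le _ _)
    rw [hsub _ _ (by rw [mul_add]; omega)] at h2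
    exact h2
  have hnz' : ∀ l i, i ≤ k * l → 0 < U (k * l - i) ∨ 0 < V (k * l - i) := fun l i _ => hnz _
  -- residues
  have hres : ∀ l j, j ≤ k * l → k * l - j ≡ k * j - j [MOD k] := by
    intro l j hj
    have h1 : j ≤ k * j := Nat.le_mul_of_pos_left j hk
    refine Nat.ModEq.add_right_cancel' j ?_
    rw [Nat.sub_add_cancel hj, Nat.sub_add_cancel h1]
    exact ((Nat.modEq_zero_iff_dvd.2 (dvd_mul_right k l))).trans
      (Nat.modEq_zero_iff_dvd.2 (dvd_mul_right k j)).symm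
  -- many large values followed by a positive coefficient
  have hP : ∀ J0 : ℕ, ∃ j, J0 ≤ j ∧ 0 < V (j + 1) ∧ 0 < U j ∧ 0 < b (k * (j + 1) - (j + 1)) := by
    intro J0
    have h1 : J0 ≤ k * J0 := Nat.le_mul_of_pos_left J0 hk
    have hl : k * (J0 + 12) = k * J0 + 12 * k := by ring
    obtain ⟨s, -, hs, a1, a2⟩ := (hwin (J0 + 12)).exists_large hb (hnz' (J0 + 12)) (i := 0)
      (by omega)
    obtain ⟨s', hs1, hs2, c1, c2, c3⟩ := (hwin (J0 + 12)).exists_reset hk hb hbper hbno (i := s)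
      (by omega) a1 a2
    refine ⟨k * (J0 + 12) - (s' + 1), by omega, ?_, c2, ?_⟩
    · rw [show k * (J0 + 12) - (s' + 1) + 1 = k * (J0 + 12) - s' by omega]
      exact c1
    · rw [show k * (J0 + 12) - (s' + 1) + 1 = k * (J0 + 12) - s' by omega,
        ← per_of_modEq hbper (hres (J0 + 12) (k * (J0 + 12) - s') (Nat.sub_le _ _)),
        show k * (J0 + 12) - (k * (J0 + 12) - s') = s' by omega]
      exact c3
  choose js hjs1 hjs2 hjs3 hjs4 using hP
  obtain ⟨r, φ, hφ, hr⟩ := exists_residue hk js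
  set j0 := js (φ 0) with hj0
  set n0 := k * (j0 + 1) - (j0 + 1) with hn0
  -- the connection
  have hconn : ∀ s, j0 < js (φ s) → ∃ m, 1 ≤ m ∧ js (φ s) ≤ j0 + 4 * m ∧
      ((step b)^[m] (n0, 1, 1)).1 ≡ n0 [MOD k] ∧
      U j0 = U (js (φ s)) * ((step b)^[m] (n0, 1, 1)).2.2 := by
    intro s hs
    set j1 := js (φ s) with hj1
    have h1 : j1 + 1 ≤ k * (j1 + 1) := Nat.le_mul_of_pos_left _ hk
    set i1 := k * (j1 + 1) - (j1 + 1) with hi1
    set i0 := k * (j1 + 1) - (j0 + 1) with hi0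
    have e1 : k * (j1 + 1) - i1 = j1 + 1 := by omega
    have e1' : k * (j1 + 1) - (i1 + 1) = j1 := by omega
    have e0 : k * (j1 + 1) - i0 = j0 + 1 := by omega
    have e0' : k * (j1 + 1) - (i0 + 1) = j0 := by omega
    obtain ⟨m, hm, hpath⟩ := (hwin (j1 + 1)).path hb (i0 - i1) i1 i0 (by omega) (by omega)
      (by omega) (by rw [e1]; exact hjs2 (φ s)) (by rw [e1']; exact hjs3 (φ s))
      (by rw [e0]; exact hjs2 (φ 0)) (by rw [e0']; exact hjs3 (φ 0))
    rw [e1, e1', e0, e0'] at hpath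
    have hbi1 : 0 < b i1 := hjs4 (φ s)
    rw [iterate_reset hbi1 (hjs3 (φ s)) _ hm] at hpath
    have p1 : ((step b)^[m] (i1, 1, 1)).1 = i0 := congrArg Prod.fst hpath
    have p2 : U j1 * ((step b)^[m] (i1, 1, 1)).2.2 = U j0 :=
      congrArg (fun s : ℕ × ℝ × ℝ => s.2.2) hpath
    have hle := (le_iterate (B := b) (i1, 1, 1) m).2
    rw [p1] at hle
    simp only at hle
    -- residues
    have hj01 : j1 ≡ j0 [MOD k] := by
      show j1 % k = j0 % k
      rw [hj1, hj0, hr, hr]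
    have hi01 : i0 ≡ i1 [MOD k] := by
      refine Nat.ModEq.add_right_cancel' (j0 + 1) ?_
      rw [show i0 + (j0 + 1) = k * (j1 + 1) by omega]
      have : i1 + (j1 + 1) ≡ i1 + (j0 + 1) [MOD k] :=
        Nat.ModEq.add_left _ (Nat.ModEq.add_right 1 hj01)
      rw [show i1 + (j1 + 1) = k * (j1 + 1) by omega] at this
      exact this
    have hi1n : i1 ≡ n0 [MOD k] := hi01.symm.trans (hres (j1 + 1) (j0 + 1) (by omega))
    obtain ⟨m1, m2⟩ := iterate_modEq hbper hi1n 1 1 m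
    refine ⟨m, hm, by omega, m2 ?_, ?_⟩
    · rw [p1]
      exact hi01
    · rw [← m1]
      exact p2.symm
  have hjs_ge : ∀ s, s ≤ js (φ s) := fun s => (hφ.id_le s).trans (hjs1 (φ s))
  have hbn0 : 0 < b n0 := hjs4 (φ 0)
  obtain ⟨d, hd1, -, hd, -⟩ := hconn (j0 + 1) (by have := hjs_ge (j0 + 1); omega)
  obtain ⟨M, hM⟩ := g_small hb hbper hbn0 hd1 hd (hbG n0 hbn0 d hd1 hd) (hjs3 (φ 0))
  have hge := hjs_ge (j0 + 4 * M + 1)
  obtain ⟨m, -, hm2, -, hm4⟩ := hconn (j0 + 4 * M + 1) (by omega)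
  have h1 := hM m (by omega)
  have h2 : U (js (φ (j0 + 4 * M + 1))) ≤ 1 := by
    have hle : js (φ (j0 + 4 * M + 1)) ≤ k * js (φ (j0 + 4 * M + 1)) :=
      Nat.le_mul_of_pos_left _ hk
    have := (hwin (js (φ (j0 + 4 * M + 1)))).u1
      (k * js (φ (j0 + 4 * M + 1)) - js (φ (j0 + 4 * M + 1))) (Nat.sub_le _ _)
    rw [hsub _ _ hle] at this
    exact this
  have h3 := (iterate_positive hb (s := (n0, 1, 1)) one_pos one_pos m).2
  rw [hm4] at h1
  nlinarith

end Q65.PerRec
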