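import Pool.Agent.Q65.PerRec6

/-!
The recursion `x_{n+1} = 1 / (B_n x_n + x_{n-1})` with positive periodic coefficients.
-/

set_option autoImplicit false

namespace Q65.PerRec

open Finset

variable {B : ℕ → ℝ}

/-- the factors along the itinerary for positive coefficients -/
noncomputable def lam (B : ℕ → ℝ) (n : ℕ) : ℝ := B n / (1 + B n * B (n + 2))

lemma iterate_pos (h : ∀ n, 0 < B n) (n m : ℕ) :
    ((step B)^[m] (n, 1, 1)).1 = n + 3 * m ∧
      ((step B)^[m] (n, 1, 1)).2.2 = ∏ j ∈ range m, lam B (n + 3 * j) := by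
  induction m with
  | zero => simp
  | succ m ih =>
    rw [Function.iterate_succ_apply']
    have e := step_pos (B := B) (n := ((step B)^[m] (n, 1, 1)).1) ((step B)^[m] (n, 1, 1)).2.1
      ((step B)^[m] (n, 1, 1)).2.2 (h _)
    have e' : step B ((step B)^[m] (n, 1, 1)) = step B (((step B)^[m] (n, 1, 1)).1,
      ((step B)^[m] (n, 1, 1)).2.1, ((step B)^[m] (n, 1, 1)).2.2) := rfl
    rw [e', e]
    simp only
    rw [ih.1, ih.2, Finset.prod_range_succ]
    exact ⟨by ring, rfl⟩

/-- products over a period are invariant under shifts -/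
lemma prod_shift {c : ℕ → ℝ} (hc : ∀ n, 0 < c n) {k : ℕ} (hper : ∀ n, c (n + k) = c n) (e : ℕ) :
    ∏ j ∈ range k, c (j + e) = ∏ j ∈ range k, c j := by
  induction e with
  | zero => rfl
  | succ e ih =>
    rw [← ih]
    have h1 : ∏ j ∈ range (k + 1), c (j + e) = (∏ j ∈ range k, c (j + e)) * c (k + e) :=
      Finset.prod_range_succ _ _
    have h2 : ∏ j ∈ range (k + 1), c (j + e) = (∏ j ∈ range k, c (j + 1 + e)) * c (0 + e) :=
      Finset.prod_range_succ' _ _
    rw [h1, show k + e = e + k by ring, hper, zero_add] at h2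
    have h3 := mul_right_cancel₀ (hc e).ne' h2
    rw [h3]
    refine Finset.prod_congr rfl fun j _ => ?_
    congr 1
    ring

lemma prod_pow {c : ℕ → ℝ} {k : ℕ} (hper : ∀ n, c (n + k) = c n) (t : ℕ) :
    ∏ j ∈ range (k * t), c j = (∏ j ∈ range k, c j) ^ t := by
  induction t with
  | zero => simp
  | succ t ih =>
    rw [Nat.mul_succ, Finset.prod_range_add, ih, pow_succ]
    congr 1
    refine Finset.prod_congr rfl fun j _ => ?_
    rw [add_comm, per_mul hper]

/-- the product over a full period is less than one -/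
lemma prod_lt_one {c : ℕ → ℝ} (hc : ∀ n, 0 < c n) {k : ℕ} (hk : 0 < k)
    (hper : ∀ n, c (n + k) = c n) (e : ℕ) :
    ∏ j ∈ range k, (c j / (1 + c j * c (j + e))) < 1 := by
  have hpos : ∀ j, 0 < 1 + c j * c (j + e) := fun j => by
    have := mul_pos (hc j) (hc (j + e))
    linarith
  rw [Finset.prod_div_distrib, div_lt_one (Finset.prod_pos fun j _ => hpos j)]
  set P := ∏ j ∈ range k, c j with hP
  set D := ∏ j ∈ range k, (1 + c j * c (j + e)) with hD
  have hP0 : 0 < P := Finset.prod_pos fun j _ => hc j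
  have hD0 : 0 < D := Finset.prod_pos fun j _ => hpos j
  have h1 : 4 ^ k * P ^ 2 ≤ D ^ 2 := by
    have e1 : 4 ^ k * P ^ 2 = ∏ j ∈ range k, (4 * (c j * c (j + e))) := by
      rw [Finset.prod_mul_distrib, Finset.prod_mul_distrib, prod_shift hc hper, Finset.prod_const,
        Finset.card_range]
      ring
    have e2 : D ^ 2 = ∏ j ∈ range k, (1 + c j * c (j + e)) ^ 2 := by
      rw [Finset.prod_pow]
    rw [e1, e2]
    refine Finset.prod_le_prod (fun j _ => ?_) (fun j _ => ?_)
    · have := mul_pos (hc j) (hc (j + e))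
      positivity
    · nlinarith [sq_nonneg (1 - c j * c (j + e))]
  have h2 : (4 : ℝ) ≤ 4 ^ k := by
    calc (4 : ℝ) = 4 ^ 1 := by norm_num
      _ ≤ 4 ^ k := pow_le_pow_right₀ (by norm_num) hk
  by_contra hcon
  push Not at hcon
  nlinarith [mul_pos hP0 hP0, mul_self_le_mul_self hD0.le hcon]

lemma lam_periodic {k : ℕ} (hper : ∀ n, B (n + k) = B n) (n : ℕ) : lam B (n + k) = lam B n := by
  unfold lam
  rw [hper, show n + k + 2 = n + 2 + k by ring, hper]

/-- **the condition for positive coefficients** -/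
theorem G_iff {k : ℕ} (hk : 0 < k) (hpos : ∀ n, 0 < B n) (hper : ∀ n, B (n + k) = B n) :
    (∀ n, 0 < B n → ∀ m, 1 ≤ m → ((step B)^[m] (n, 1, 1)).1 ≡ n [MOD k] →
      ((step B)^[m] (n, 1, 1)).2.2 < 1) ↔
    (3 ∣ k → ∀ r < 3, ∏ j ∈ range (k / 3), lam B (r + 3 * j) < 1) := by
  have hlam : ∀ n, 0 < lam B n := fun n => by
    unfold lam
    have h1 := hpos n
    have h2 := hpos (n + 2)
    positivity
  constructor
  · rintro h ⟨l, hl⟩ r -
    have hl0 : 1 ≤ l := by omega
    rw [show k / 3 = l by omega]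
    have := h r (hpos r) l hl0 (by
      rw [(iterate_pos hpos r l).1, ← hl]
      show (r + k) % k = r % k
      rw [Nat.add_mod_right])
    rw [(iterate_pos hpos r l).2] at this
    exact this
  · intro h n _ m hm hmod
    rw [(iterate_pos hpos n m).2]
    rw [(iterate_pos hpos n m).1] at hmod
    have hdvd : k ∣ 3 * m := by
      have := (Nat.modEq_iff_dvd' (Nat.le_add_right n (3 * m))).1 hmod.symm
      simpa using this
    by_cases h3 : 3 ∣ k
    · obtain ⟨l, hl⟩ := h3
      have hl0 : 0 < l := by omega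
      have hlm : l ∣ m := by
        rw [hl] at hdvd
        exact Nat.dvd_of_mul_dvd_mul_left (by norm_num) hdvd
      obtain ⟨t, rfl⟩ := hlm
      have ht : 1 ≤ t := Nat.one_le_iff_ne_zero.2 (by rintro rfl; omega)
      have hper' : ∀ j, lam B (n + 3 * (j + l)) = lam B (n + 3 * j) := by
        intro j
        rw [show n + 3 * (j + l) = n + 3 * j + k by rw [hl]; ring, lam_periodic hper]
      rw [prod_pow (c := fun j => lam B (n + 3 * j)) hper' t]
      -- the class of `n`
      have hper'' : ∀ j, lam B (n % 3 + 3 * (j + l)) = lam B (n % 3 + 3 * j) := by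
        intro j
        rw [show n % 3 + 3 * (j + l) = n % 3 + 3 * j + k by rw [hl]; ring, lam_periodic hper]
      have hcl : ∏ j ∈ range l, lam B (n + 3 * j) = ∏ j ∈ range l, lam B (n % 3 + 3 * j) := by
        rw [← prod_shift (c := fun j => lam B (n % 3 + 3 * j)) (fun j => hlam _) hper'' (n / 3)]
        refine Finset.prod_congr rfl fun j _ => ?_
        congr 1
        have := Nat.mod_add_div n 3
        omega
      have hlt := h ⟨l, hl⟩ (n % 3) (Nat.mod_lt _ (by norm_num))
      rw [show k / 3 = l by omega, ← hcl] at hlt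
      exact pow_lt_one₀ (Finset.prod_pos fun j _ => hlam _).le hlt (by omega)
    · have hcop : Nat.Coprime k 3 := ((Nat.Prime.coprime_iff_not_dvd Nat.prime_three).2 h3).symm
      obtain ⟨t, rfl⟩ := hcop.dvd_of_dvd_mul_left hdvd
      have ht : 1 ≤ t := Nat.one_le_iff_ne_zero.2 (by rintro rfl; omega)
      have hper' : ∀ j, lam B (n + 3 * (j + k)) = lam B (n + 3 * j) := by
        intro j
        rw [show n + 3 * (j + k) = n + 3 * j + k * 3 by ring, per_mul (lam_periodic hper)]
      rw [prod_pow (c := fun j => lam B (n + 3 * j)) hper' t]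
      have hperB : ∀ j, B (n + 3 * (j + k)) = B (n + 3 * j) := by
        intro j
        rw [show n + 3 * (j + k) = n + 3 * j + k * 3 by ring, per_mul hper]
      -- `3 e = 2` modulo `k`
      obtain ⟨e, he⟩ : ∃ e, ∀ j, B (n + 3 * j + 2) = B (n + 3 * (j + e)) := by
        obtain ⟨s, hs⟩ : ∃ s, k = 3 * s + 1 ∨ k = 3 * s + 2 := ⟨k / 3, by omega⟩
        rcases hs with hs | hs
        · refine ⟨2 * (2 * s + 1), fun j => ?_⟩
          rw [show n + 3 * (j + 2 * (2 * s + 1)) = n + 3 * j + 2 + k * 4 by rw [hs]; ring,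
            per_mul hper]
        · refine ⟨2 * (s + 1), fun j => ?_⟩
          rw [show n + 3 * (j + 2 * (s + 1)) = n + 3 * j + 2 + k * 2 by rw [hs]; ring,
            per_mul hper]
      have hlt := prod_lt_one (c := fun j => B (n + 3 * j)) (fun j => hpos _) hk hperB e
      have hlt' : ∏ j ∈ range k, lam B (n + 3 * j) < 1 := by
        refine lt_of_eq_of_lt (Finset.prod_congr rfl fun j _ => ?_) hlt
        unfold lam
        rw [he]
      exact pow_lt_one₀ (Finset.prod_pos fun j _ => hlam _).le hlt' (by omega)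

end Q65.PerRec
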