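import Pool.Agent.Q65.PerRec7

/-!
The recursion `x_{n+1} = 1 / (B_n x_n + x_{n-1})` with periodic coefficients: the first return of
the itinerary, main theorem.
-/

set_option autoImplicit false

namespace Q65.PerRec

variable {B : ℕ → ℝ}

/-- the index part of the itinerary -/
noncomputable def nxt (B : ℕ → ℝ) (n : ℕ) : ℕ := if 0 < B n then n + 3 else n + 4

lemma step_fst (s : ℕ × ℝ × ℝ) : (step B s).1 = nxt B s.1 := by
  unfold step nxt
  by_cases h : 0 < B s.1
  · rw [if_pos h, if_pos h]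
  · rw [if_neg h, if_neg h]

lemma iterate_fst (s : ℕ × ℝ × ℝ) (m : ℕ) : ((step B)^[m] s).1 = (nxt B)^[m] s.1 := by
  induction m with
  | zero => rfl
  | succ m ih => rw [Function.iterate_succ_apply', Function.iterate_succ_apply', step_fst, ih]

lemma nxt_modEq {k : ℕ} (hper : ∀ n, B (n + k) = B n) {n n' : ℕ} (h : n ≡ n' [MOD k]) :
    nxt B n ≡ nxt B n' [MOD k] := by
  unfold nxt
  rw [per_of_modEq hper h]
  by_cases h' : 0 < B n'
  · rw [if_pos h', if_pos h']
    exact h.add_right _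
  · rw [if_neg h', if_neg h']
    exact h.add_right _

lemma iterate_nxt_modEq {k : ℕ} (hper : ∀ n, B (n + k) = B n) {n n' : ℕ} (h : n ≡ n' [MOD k])
    (m : ℕ) : (nxt B)^[m] n ≡ (nxt B)^[m] n' [MOD k] := by
  induction m with
  | zero => exact h
  | succ m ih =>
    rw [Function.iterate_succ_apply', Function.iterate_succ_apply']
    exact nxt_modEq hper ih

/-- the first return occurs after at most `k` steps -/
lemma exists_return {k : ℕ} (hk : 0 < k) (hper : ∀ n, B (n + k) = B n) {n d : ℕ} (hd1 : 1 ≤ d)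
    (hd : (nxt B)^[d] n ≡ n [MOD k]) :
    ∃ d', 1 ≤ d' ∧ d' ≤ k ∧ (nxt B)^[d'] n ≡ n [MOD k] := by
  classical
  have hex : ∃ d, 1 ≤ d ∧ (nxt B)^[d] n ≡ n [MOD k] := ⟨d, hd1, hd⟩
  obtain ⟨h1, h2⟩ := Nat.find_spec hex
  have hmin : ∀ i, i < Nat.find hex → ¬ (1 ≤ i ∧ (nxt B)^[i] n ≡ n [MOD k]) := fun i hi =>
    Nat.find_min hex hi
  set D := Nat.find hex with hD
  refine ⟨D, h1, ?_, h2⟩
  by_contra hcon
  push Not at hcon
  have hinj : Function.Injective (fun i : Fin D => (⟨(nxt B)^[i] n % k, Nat.mod_lt _ hk⟩ : Fin k)) := by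
    have key : ∀ i j : ℕ, i < j → j < D → (nxt B)^[i] n % k ≠ (nxt B)^[j] n % k := by
      intro i j hij hj heq
      have h3 := iterate_nxt_modEq hper (n := (nxt B)^[i] n) (n' := (nxt B)^[j] n) heq (D - j)
      rw [← Function.iterate_add_apply, ← Function.iterate_add_apply,
        show D - j + j = D by omega] at h3
      exact hmin (D - j + i) (by omega) ⟨by omega, h3.trans h2⟩
    intro i j hij
    have hij' : (nxt B)^[i] n % k = (nxt B)^[j] n % k := congrArg Fin.val hij
    rcases lt_trichotomy (i : ℕ) j with h | h | h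
    · exact absurd hij' (key _ _ h j.2)
    · exact Fin.ext h
    · exact absurd hij'.symm (key _ _ h i.2)
  have := Fintype.card_le_of_injective _ hinj
  simp at this
  omega

/-- it suffices to look at the first return -/
lemma G_of_G {k : ℕ} (hk : 0 < k) (hB : ∀ n, 0 ≤ B n) (hper : ∀ n, B (n + k) = B n)
    (hG : ∀ n, 0 < B n → ∀ m, 1 ≤ m → m ≤ k → ((step B)^[m] (n, 1, 1)).1 ≡ n [MOD k] →
      ((step B)^[m] (n, 1, 1)).2.2 < 1) :
    ∀ n, 0 < B n → ∀ m, 1 ≤ m → ((step B)^[m] (n, 1, 1)).1 ≡ n [MOD k] →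
      ((step B)^[m] (n, 1, 1)).2.2 < 1 := by
  classical
  intro n hn m
  induction m using Nat.strong_induction_on with
  | _ m ih =>
    intro hm hmod
    rw [iterate_fst] at hmod
    -- the first return
    obtain ⟨d, hd1, hdk, hd⟩ := exists_return hk hper hm hmod
    have hex : ∃ d, 1 ≤ d ∧ (nxt B)^[d] n ≡ n [MOD k] := ⟨d, hd1, hd⟩
    obtain ⟨h1, h2⟩ := Nat.find_spec hex
    have hDd : Nat.find hex ≤ d := Nat.find_min' hex ⟨hd1, hd⟩
    have hDm : Nat.find hex ≤ m := Nat.find_min' hex ⟨hm, hmod⟩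
    set D := Nat.find hex with hD
    have hGD := hG n hn D h1 (hDd.trans hdk) (by rw [iterate_fst]; exact h2)
    rcases hDm.eq_or_lt with heq | hlt
    · rw [← heq]
      exact hGD
    · have h3 : (nxt B)^[m - D] n ≡ n [MOD k] := by
        have h4 := iterate_nxt_modEq hper h2 (m - D)
        rw [← Function.iterate_add_apply, show m - D + D = m by omega] at h4
        exact h4.symm.trans hmod
      have h5 := ih (m - D) (by omega) (by omega) (by rw [iterate_fst]; exact h3)
      have h6 := g_add hB hper hn (d := D) (by rw [iterate_fst]; exact h2) (m - D)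
      rw [show D + (m - D) = m by omega] at h6
      rw [h6]
      have p1 := (iterate_positive hB (s := (n, 1, 1)) one_pos one_pos (m - D)).2
      have p2 := (iterate_positive hB (s := (n, 1, 1)) one_pos one_pos D).2
      nlinarith

/-- **the dichotomy** -/
theorem main {k : ℕ} (hk : 0 < k) (hB : ∀ n, 0 ≤ B n) (hper : ∀ n, B (n + k) = B n)
    (hne : ∃ n, 0 < B n) :
    (((∀ n, (∀ j, B (n + 4 * j) = 0) → ∀ j, B (n + 4 * j + 2) = 0) ∧
      (∀ n, 0 < B n → ∀ m, 1 ≤ m → m ≤ k → ((step B)^[m] (n, 1, 1)).1 ≡ n [MOD k] →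
        ((step B)^[m] (n, 1, 1)).2.2 < 1)) →
      ∀ x, Sol B x → BddAbove (Set.range x)) ∧
    (¬ ((∀ n, (∀ j, B (n + 4 * j) = 0) → ∀ j, B (n + 4 * j + 2) = 0) ∧
      (∀ n, 0 < B n → ∀ m, 1 ≤ m → m ≤ k → ((step B)^[m] (n, 1, 1)).1 ≡ n [MOD k] →
        ((step B)^[m] (n, 1, 1)).2.2 < 1)) →
      ∀ x, Sol B x → ¬ BddAbove (Set.range x)) := by
  constructor
  · rintro ⟨hZ, hG⟩ x hx
    by_cases hno : ∀ n, ∃ j, 0 < B (n + 4 * j)
    · exact bounded_of_G hk hB hper hne hZ hno (G_of_G hk hB hper hG) hx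
    · push Not at hno
      obtain ⟨n0, h0⟩ := hno
      exact bounded_of_class hk hB hper hne hZ (fun j => le_antisymm (h0 j) (hB _)) hx
  · intro hcon x hx
    rw [not_and_or] at hcon
    rcases hcon with hcon | hcon
    · push Not at hcon
      obtain ⟨n, hn, j, hj⟩ := hcon
      exact unbounded_of_Z1 hk hB hper hn (lt_of_le_of_ne (hB _) (Ne.symm hj)) hx
    · push Not at hcon
      obtain ⟨n, hn, m, hm, -, hmod, hge⟩ := hcon
      exact unbounded_of_G hk hB hper hn hm hmod hge hx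

end Q65.PerRec
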