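import Pool.Agent.Q65.RVDefs

set_option autoImplicit false

namespace Q65.RV

theorem no_common {α : Type} {s t : Set α} (h : Disjoint s t) (a : α) (ha : a ∈ s)
    (hb : a ∈ t) : False := Set.disjoint_left.1 h ha hb

theorem disj_iff {A B : Rect} :
    Disjoint A.pts B.pts ↔ A.r < B.l ∨ B.r < A.l ∨ A.t < B.b ∨ B.t < A.b := by
  constructor
  · intro h
    by_contra hc
    push Not at hc
    obtain ⟨h1, h2, h3, h4⟩ := hc
    have h5 := A.hx
    have h6 := A.hy
    have h7 := B.hx
    have h8 := B.hy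
    apply no_common h (max A.l B.l, max A.b B.b)
    · exact ⟨⟨le_max_left _ _, max_le h5.le h1⟩, ⟨le_max_left _ _, max_le h6.le h3⟩⟩
    · exact ⟨⟨le_max_right _ _, max_le h2 h7.le⟩, ⟨le_max_right _ _, max_le h4 h8.le⟩⟩
  · intro h
    rw [Set.disjoint_left]
    rintro ⟨x, y⟩ ⟨⟨h1, h2⟩, ⟨h3, h4⟩⟩ ⟨⟨h5, h6⟩, ⟨h7, h8⟩⟩
    dsimp at *
    rcases h with h | h | h | h <;> linarith

/-- the data of a visible pair: the open interval `(a, x₂)` on which it is visible, going to the
left as far as possible -/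
def Data {V : Type} (R : V → Rect) (u v : V) (a x₂ : ℝ) : Prop :=
  a < x₂ ∧ (R u).l ≤ a ∧ (R v).l ≤ a ∧ x₂ ≤ (R u).r ∧ x₂ ≤ (R v).r ∧ (R u).t < (R v).b ∧
    ∀ w, ∀ x, a < x → x ≤ x₂ → (R w).l ≤ x → x ≤ (R w).r → (R u).t < (R w).b →
      (R w).t < (R v).b → False

/-- the charge of a visible pair -/
def Charge {V : Type} (R : V → Rect) (p : V × V) (c : V × Fin 3) : Prop :=
  ∃ a x₂, Data R p.1 p.2 a x₂ ∧ ((c.2 = 0 ∧ c.1 = p.1 ∧ a = (R p.1).l) ∨
    (c.2 = 1 ∧ c.1 = p.2 ∧ a = (R p.2).l) ∨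
    (c.2 = 2 ∧ a = (R c.1).r ∧ (R p.1).t < (R c.1).b ∧ (R c.1).t < (R p.2).b))

theorem exists_charge {V : Type} [Fintype V] {R : V → Rect}
    (hd : ∀ u v, u ≠ v → Disjoint (R u).pts (R v).pts) {u v : V} (huv : u ≠ v)
    (h : VSees R u v) : ∃ c, Charge R (u, v) c := by
  classical
  obtain ⟨x₁, x₂, y₁, y₂, hx, hy, hs, ho⟩ := h
  obtain ⟨h1, h2⟩ := hs x₁ ⟨le_refl _, hx.le⟩
  obtain ⟨h3, h4⟩ := hs x₂ ⟨hx.le, le_refl _⟩
  obtain ⟨⟨a1, a2⟩, ⟨a3, a4⟩⟩ := h1
  obtain ⟨⟨b1, b2⟩, ⟨b3, b4⟩⟩ := h2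
  obtain ⟨⟨c1, c2⟩, -⟩ := h3
  obtain ⟨⟨d1, d2⟩, -⟩ := h4
  dsimp at *
  have htb : (R u).t < (R v).b := by
    rcases disj_iff.1 (hd u v huv) with h | h | h | h
    · linarith
    · linarith
    · exact h
    · linarith
  let F : Finset ℝ := insert (R u).l (insert (R v).l
    ((Finset.univ.filter (fun k => (R u).t < (R k).b ∧ (R k).t < (R v).b ∧ (R k).r ≤ x₁)).image
      (fun k => (R k).r)))
  have hne : F.Nonempty := ⟨(R u).l, by simp [F]⟩
  have hle : ∀ z ∈ F, z ≤ x₁ := by
    intro z hz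
    simp only [F, Finset.mem_insert, Finset.mem_image, Finset.mem_filter, Finset.mem_univ,
      true_and] at hz
    rcases hz with rfl | rfl | ⟨k, hk, rfl⟩
    · exact a1
    · exact b1
    · exact hk.2.2
  have ha := F.max'_mem hne
  have ha1 := hle _ ha
  have hdata : Data R u v (F.max' hne) x₂ := by
    refine ⟨lt_of_le_of_lt ha1 hx, F.le_max' _ (by simp [F]), F.le_max' _ (by simp [F]), c2, d2,
      htb, ?_⟩
    intro w x hx1 hx2 hl hr hb ht
    have hwu : w ≠ u := by
      rintro rfl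
      have := (R w).hy
      linarith
    have hwv : w ≠ v := by
      rintro rfl
      have := (R w).hy
      linarith
    have hdis := ho w hwu hwv
    by_cases hxx : x₁ ≤ x
    · apply no_common hdis (x, (R w).b)
      · have := (R w).hy
        exact ⟨⟨hxx, hx2⟩, ⟨by dsimp; linarith, by dsimp; linarith⟩⟩
      · exact ⟨⟨hl, hr⟩, ⟨le_refl _, (R w).hy.le⟩⟩
    · push Not at hxx
      by_cases hr1 : x₁ ≤ (R w).r
      · apply no_common hdis (x₁, (R w).b)
        · have := (R w).hy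
          exact ⟨⟨le_refl _, hx.le⟩, ⟨by dsimp; linarith, by dsimp; linarith⟩⟩
        · exact ⟨⟨by dsimp; linarith, hr1⟩, ⟨le_refl _, (R w).hy.le⟩⟩
      · push Not at hr1
        have : (R w).r ≤ F.max' hne := by
          apply F.le_max'
          simp only [F, Finset.mem_insert, Finset.mem_image, Finset.mem_filter, Finset.mem_univ,
            true_and]
          exact Or.inr (Or.inr ⟨w, ⟨hb, ht, hr1.le⟩, rfl⟩)
        linarith
  simp only [F, Finset.mem_insert, Finset.mem_image, Finset.mem_filter, Finset.mem_univ,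
    true_and] at ha
  rcases ha with ha | ha | ⟨k, hk, ha⟩
  · exact ⟨(u, 0), _, _, hdata, Or.inl ⟨rfl, rfl, ha⟩⟩
  · exact ⟨(v, 1), _, _, hdata, Or.inr (Or.inl ⟨rfl, rfl, ha⟩)⟩
  · exact ⟨(k, 2), _, _, hdata, Or.inr (Or.inr ⟨rfl, ha.symm, hk.1, hk.2.1⟩)⟩

/-- two members over `x` are comparable -/
theorem comp {V : Type} {R : V → Rect} (hd : ∀ u v, u ≠ v → Disjoint (R u).pts (R v).pts)
    {w w' : V} {x : ℝ} (h1 : (R w).l ≤ x) (h2 : x ≤ (R w).r) (h3 : (R w').l ≤ x)
    (h4 : x ≤ (R w').r) (hne : w ≠ w') : (R w).t < (R w').b ∨ (R w').t < (R w).b := by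
  rcases disj_iff.1 (hd w w' hne) with h | h | h | h
  · linarith
  · linarith
  · exact Or.inl h
  · exact Or.inr h

theorem charge_inj {V : Type} {R : V → Rect}
    (hd : ∀ u v, u ≠ v → Disjoint (R u).pts (R v).pts) {p p' : V × V} {c : V × Fin 3}
    (h : Charge R p c) (h' : Charge R p' c) : p = p' := by
  obtain ⟨a, x₂, ⟨k1, k2, k3, k4, k5, k6, k7⟩, hc⟩ := h
  obtain ⟨a', x₂', ⟨k1', k2', k3', k4', k5', k6', k7'⟩, hc'⟩ := h'
  obtain ⟨u, v⟩ := p
  obtain ⟨u', v'⟩ := p'
  obtain ⟨k, s⟩ := c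
  dsimp at *
  have hyu := (R u).hy
  have hyv := (R v).hy
  have hyu' := (R u').hy
  have hyv' := (R v').hy
  have key : a = a' → ∃ x, a < x ∧ a' < x ∧ x ≤ x₂ ∧ x ≤ x₂' := by
    intro h
    refine ⟨min x₂ x₂', lt_min k1 (h ▸ k1'), lt_min (h ▸ k1) k1', min_le_left _ _,
      min_le_right _ _⟩
  rcases hc with ⟨rfl, rfl, e⟩ | ⟨rfl, rfl, e⟩ | ⟨rfl, e, e1, e2⟩
  · rcases hc' with ⟨-, rfl, e'⟩ | ⟨hh, -⟩ | ⟨hh, -⟩
    · obtain ⟨x, x1, x2, x3, x4⟩ := key (e.trans e'.symm)
      by_cases hv : v = v'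
      · rw [hv]
      · exfalso
        rcases comp hd (x := x) (by linarith) (by linarith) (by linarith) (by linarith) hv with
          h | h
        · exact k7' v x x2 x4 (by linarith) (by linarith) k6 h
        · exact k7 v' x x1 x3 (by linarith) (by linarith) k6' h
    · exact absurd hh (by decide)
    · exact absurd hh (by decide)
  · rcases hc' with ⟨hh, -⟩ | ⟨-, rfl, e'⟩ | ⟨hh, -⟩
    · exact absurd hh (by decide)
    · obtain ⟨x, x1, x2, x3, x4⟩ := key (e.trans e'.symm)
      by_cases hu : u = u'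
      · rw [hu]
      · exfalso
        rcases comp hd (x := x) (by linarith) (by linarith) (by linarith) (by linarith) hu with
          h | h
        · exact k7 u' x x1 x3 (by linarith) (by linarith) h k6'
        · exact k7' u x x2 x4 (by linarith) (by linarith) h k6
    · exact absurd hh (by decide)
  · rcases hc' with ⟨hh, -⟩ | ⟨hh, -⟩ | ⟨-, e', e1', e2'⟩
    · exact absurd hh (by decide)
    · exact absurd hh (by decide)
    · have hyk := (R k).hy
      obtain ⟨x, x1, x2, x3, x4⟩ := key (e.trans e'.symm)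
      have hu : u = u' := by
        by_contra hu
        rcases comp hd (x := x) (by linarith) (by linarith) (by linarith) (by linarith) hu with
          h | h
        · exact k7 u' x x1 x3 (by linarith) (by linarith) h (by linarith)
        · exact k7' u x x2 x4 (by linarith) (by linarith) h (by linarith)
      have hv : v = v' := by
        by_contra hv
        rcases comp hd (x := x) (by linarith) (by linarith) (by linarith) (by linarith) hv with
          h | h
        · exact k7' v x x2 x4 (by linarith) (by linarith) (by linarith) h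
        · exact k7 v' x x1 x3 (by linarith) (by linarith) (by linarith) h
      rw [hu, hv]

/-- interchange the coordinates -/
def Rect.swap (A : Rect) : Rect := ⟨A.b, A.t, A.l, A.r, A.hy, A.hx⟩

theorem mem_swap {A : Rect} {x y : ℝ} : (x, y) ∈ A.swap.pts ↔ (y, x) ∈ A.pts := by
  simp only [Rect.pts, Rect.swap, Set.mem_prod, Set.mem_Icc]
  tauto

theorem swap_disj {A B : Rect} (h : Disjoint A.pts B.pts) : Disjoint A.swap.pts B.swap.pts := by
  rw [disj_iff] at h ⊢
  simp only [Rect.swap]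
  tauto

theorem hsees_swap {V : Type} {R : V → Rect} {u v : V} (h : HSees R u v) :
    VSees (fun w => (R w).swap) u v := by
  obtain ⟨x₁, x₂, y₁, y₂, hx, hy, hs, ho⟩ := h
  refine ⟨y₁, y₂, x₁, x₂, hy, hx, ?_, ?_⟩
  · intro y hy'
    exact ⟨mem_swap.2 (hs y hy').1, mem_swap.2 (hs y hy').2⟩
  · intro w h1 h2
    rw [Set.disjoint_left]
    rintro ⟨x, y⟩ ⟨hx', hy'⟩ hw
    exact no_common (ho w h1 h2) (y, x) ⟨hy', hx'⟩ (mem_swap.1 hw)

/-- an RVG with `N` vertices has no complete bipartite subgraph with more than `6 N` edges -/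
theorem rvg_bound {V α β : Type} [Fintype V] [Fintype α] [Fintype β] {G : SimpleGraph V}
    (hG : IsRVG G) (f : α → V) (g : β → V) (hf : Function.Injective f)
    (hg : Function.Injective g) (hfg : ∀ a b, f a ≠ g b) (hadj : ∀ a b, G.Adj (f a) (g b)) :
    Fintype.card α * Fintype.card β ≤ 6 * Fintype.card V := by
  classical
  obtain ⟨R, hd, hR⟩ := hG
  have hd' : ∀ u v, u ≠ v → Disjoint (R u).swap.pts (R v).swap.pts :=
    fun u v h => swap_disj (hd u v h)
  -- the charge of a pair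
  have hch : ∀ ab : α × β, ∃ c : Bool × (V × Fin 3), ∃ p : V × V,
      (p = (f ab.1, g ab.2) ∨ p = (g ab.2, f ab.1)) ∧
      Charge (if c.1 then R else fun w => (R w).swap) p c.2 := by
    rintro ⟨a, b⟩
    have hne := hfg a b
    rcases (hR _ _ hne).1 (hadj a b) with h | h | h | h
    · obtain ⟨c, hc⟩ := exists_charge hd hne h
      exact ⟨(true, c), _, Or.inl rfl, by simpa using hc⟩
    · obtain ⟨c, hc⟩ := exists_charge hd hne.symm h
      exact ⟨(true, c), _, Or.inr rfl, by simpa using hc⟩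
    · obtain ⟨c, hc⟩ := exists_charge hd' hne (hsees_swap h)
      exact ⟨(false, c), _, Or.inl rfl, by simpa using hc⟩
    · obtain ⟨c, hc⟩ := exists_charge hd' hne.symm (hsees_swap h)
      exact ⟨(false, c), _, Or.inr rfl, by simpa using hc⟩
  choose c p hp hc using hch
  have hinj : Function.Injective c := by
    intro x y hxy
    have h1 := hc x
    have h2 := hc y
    rw [← hxy] at h2
    have hpp : p x = p y := by
      cases h : (c x).1
      · rw [h] at h1 h2
        exact charge_inj hd' (by simpa using h1) (by simpa using h2)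
      · rw [h] at h1 h2
        exact charge_inj hd (by simpa using h1) (by simpa using h2)
    rcases hp x with h3 | h3 <;> rcases hp y with h4 | h4 <;> rw [h3, h4] at hpp
    · exact Prod.ext (hf (Prod.ext_iff.1 hpp).1) (hg (Prod.ext_iff.1 hpp).2)
    · exact absurd (Prod.ext_iff.1 hpp).1 (hfg _ _)
    · exact absurd (Prod.ext_iff.1 hpp).1.symm (hfg _ _)
    · exact Prod.ext (hf (Prod.ext_iff.1 hpp).2) (hg (Prod.ext_iff.1 hpp).1)
  have := Fintype.card_le_of_injective c hinj
  simp only [Fintype.card_prod, Fintype.card_bool, Fintype.card_fin] at this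
  omega

end Q65.RV
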