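import Mathlib

/-!
# Rectangle visibility graphs, corner visibility graphs, open rectangle-of-influence graphs
-/

set_option autoImplicit false

namespace Q65.RV

/-- a closed axis-parallel rectangle `[l, r] × [b, t]` of positive width and height -/
structure Rect where
  l : ℝ
  r : ℝ
  b : ℝ
  t : ℝ
  hx : l < r
  hy : b < t

/-- the points of a rectangle -/
def Rect.pts (A : Rect) : Set (ℝ × ℝ) := Set.Icc A.l A.r ×ˢ Set.Icc A.b A.t

/-- the corner of a rectangle which is on the right iff `c.1`, and at the top iff `c.2` -/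
def Rect.corner (A : Rect) (c : Bool × Bool) : ℝ × ℝ :=
  (if c.1 then A.r else A.l, if c.2 then A.t else A.b)

/-- a vertical band of positive width meets no rectangle of the family except `R u` and `R v`,
and its lower side lies in `R u`, its upper side in `R v` -/
def VSees {V : Type} (R : V → Rect) (u v : V) : Prop :=
  ∃ x₁ x₂ y₁ y₂ : ℝ, x₁ < x₂ ∧ y₁ < y₂ ∧
    (∀ x ∈ Set.Icc x₁ x₂, (x, y₁) ∈ (R u).pts ∧ (x, y₂) ∈ (R v).pts) ∧
    ∀ w, w ≠ u → w ≠ v → Disjoint (Set.Icc x₁ x₂ ×ˢ Set.Icc y₁ y₂) (R w).pts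

/-- a horizontal band of positive width meets no rectangle of the family except `R u` and `R v`,
and its left side lies in `R u`, its right side in `R v` -/
def HSees {V : Type} (R : V → Rect) (u v : V) : Prop :=
  ∃ x₁ x₂ y₁ y₂ : ℝ, x₁ < x₂ ∧ y₁ < y₂ ∧
    (∀ y ∈ Set.Icc y₁ y₂, (x₁, y) ∈ (R u).pts ∧ (x₂, y) ∈ (R v).pts) ∧
    ∀ w, w ≠ u → w ≠ v → Disjoint (Set.Icc x₁ x₂ ×ˢ Set.Icc y₁ y₂) (R w).pts

/-- rectangle visibility graphs -/
def IsRVG {V : Type} (G : SimpleGraph V) : Prop :=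
  ∃ R : V → Rect, (∀ u v, u ≠ v → Disjoint (R u).pts (R v).pts) ∧
    ∀ u v, u ≠ v → (G.Adj u v ↔ VSees R u v ∨ VSees R v u ∨ HSees R u v ∨ HSees R v u)

/-- open rectangle-of-influence graphs -/
def IsOpenRIG {V : Type} (G : SimpleGraph V) : Prop :=
  ∃ p : V → ℝ × ℝ, Function.Injective p ∧ ∀ u v, u ≠ v → (G.Adj u v ↔
    ∀ w, p w ∉ interior (Set.uIcc (p u).1 (p v).1 ×ˢ Set.uIcc (p u).2 (p v).2))

/-- `R u` sees `R v`, when the eye of `R w` is its corner `e w` -/
def CSees {V : Type} (R : V → Rect) (e : V → Bool × Bool) (u v : V) : Prop :=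
  ∃ (Q : Rect) (c : Bool × Bool), Q.corner c = (R u).corner (e u) ∧
    Q.corner (!c.1, !c.2) ∈ frontier (R v).pts ∧
    Q.pts ∩ (R u).pts = {(R u).corner (e u)} ∧
    Q.pts ∩ (R v).pts ⊆ frontier (R v).pts ∧
    ∀ w, w ≠ u → w ≠ v → Disjoint Q.pts (R w).pts

/-- corner rectangle visibility graphs -/
def IsCRVG {V : Type} (G : SimpleGraph V) : Prop :=
  ∃ (R : V → Rect) (e : V → Bool × Bool), (∀ u v, u ≠ v → Disjoint (R u).pts (R v).pts) ∧
    ∀ u v, u ≠ v → (G.Adj u v ↔ CSees R e u v ∨ CSees R e v u)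

/-- the join of a path with `m` vertices and a path with `n` vertices -/
def pathJoin (m n : ℕ) : SimpleGraph (Fin m ⊕ Fin n) where
  Adj := fun u v => match u, v with
    | Sum.inl i, Sum.inl j => i.val + 1 = j.val ∨ j.val + 1 = i.val
    | Sum.inr i, Sum.inr j => i.val + 1 = j.val ∨ j.val + 1 = i.val
    | _, _ => True
  symm := ⟨by
    rintro (i | i) (j | j) h
    · exact h.symm
    · trivial
    · trivial
    · exact h.symm⟩
  loopless := ⟨by
    rintro (i | i) h
    · rcases h with h | h <;> omega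
    · rcases h with h | h <;> omega⟩

end Q65.RV
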