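import Pool.Agent.Q65.RVRep

set_option autoImplicit false

namespace Q65.RV

/-! ### the coordinates -/

/-- left side -/
def cl (m n : ℕ) : Fin m ⊕ Fin n → ℤ
  | Sum.inl i => (i.val : ℤ) - m
  | Sum.inr j => if j.val % 2 = 0 then -((m : ℤ) + 2 * (n - j.val)) - 1
      else (m : ℤ) + 2 * (n - j.val)

/-- right side -/
def cr (m n : ℕ) : Fin m ⊕ Fin n → ℤ
  | Sum.inl i => (m : ℤ) - i.val
  | Sum.inr j => if j.val % 2 = 0 then -((m : ℤ) + 2 * (n - j.val))
      else (m : ℤ) + 2 * (n - j.val) + 1

/-- bottom -/
def cb (m n : ℕ) : Fin m ⊕ Fin n → ℤ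
  | Sum.inl i => 2 * i.val
  | Sum.inr j => 2 * (m : ℤ) + 1 + 2 * j.val

/-- top -/
def ct (m n : ℕ) : Fin m ⊕ Fin n → ℤ
  | Sum.inl i => 2 * i.val + 1
  | Sum.inr j => 2 * (m : ℤ) + 4 + 2 * j.val

/-- the eyes -/
def ey (m n : ℕ) : Fin m ⊕ Fin n → Bool × Bool
  | Sum.inl _ => (true, false)
  | Sum.inr j => if j.val % 2 = 0 then (true, false) else (false, false)

theorem cl_lt_cr (m n : ℕ) (v : Fin m ⊕ Fin n) : cl m n v < cr m n v := by
  rcases v with i | j
  · have := i.2
    simp only [cl, cr]; omega
  · simp only [cl, cr]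
    split_ifs <;> omega

theorem cb_lt_ct (m n : ℕ) (v : Fin m ⊕ Fin n) : cb m n v < ct m n v := by
  rcases v with i | j
  · simp only [cb, ct]; omega
  · simp only [cb, ct]; omega

/-- the rectangles -/
noncomputable def RR (m n : ℕ) (v : Fin m ⊕ Fin n) : Rect :=
  ⟨cl m n v, cr m n v, cb m n v, ct m n v, by exact_mod_cast cl_lt_cr m n v,
    by exact_mod_cast cb_lt_ct m n v⟩

theorem RR_disj (m n : ℕ) (u v : Fin m ⊕ Fin n) (h : u ≠ v) :
    Disjoint (RR m n u).pts (RR m n v).pts := by
  rw [disj_iff]
  have key : cr m n u < cl m n v ∨ cr m n v < cl m n u ∨ ct m n u < cb m n v ∨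
      ct m n v < cb m n u := by
    rcases u with i | i <;> rcases v with j | j
    · have : i.val ≠ j.val := fun e => h (by rw [Fin.ext e])
      simp only [ct, cb]
      omega
    · have := i.2
      simp only [ct, cb]
      omega
    · have := j.2
      simp only [ct, cb]
      omega
    · have : i.val ≠ j.val := fun e => h (by rw [Fin.ext e])
      have h1 := i.2
      have h2 := j.2
      simp only [cl, cr]
      split_ifs <;> omega
  simp only [RR]
  rcases key with h | h | h | h
  · exact Or.inl (by exact_mod_cast h)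
  · exact Or.inr (Or.inl (by exact_mod_cast h))
  · exact Or.inr (Or.inr (Or.inl (by exact_mod_cast h)))
  · exact Or.inr (Or.inr (Or.inr (by exact_mod_cast h)))

/-- integer version of `see_SE` -/
theorem seeZ_SE {m n : ℕ} {u v : Fin m ⊕ Fin n} (he : ey m n u = (true, false)) (px py : ℤ)
    (h1 : cr m n u < px) (h2 : py < cb m n u)
    (hf : (cl m n v ≤ px ∧ px ≤ cr m n v) ∧ (cb m n v ≤ py ∧ py ≤ ct m n v))
    (hb : px = cl m n v ∨ py = ct m n v)
    (ho : ∀ w, w ≠ u → w ≠ v → px < cl m n w ∨ cr m n w < cr m n u ∨ ct m n w < py ∨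
      cb m n u < cb m n w) : CSees (RR m n) (ey m n) u v := by
  apply see_SE he (px : ℝ) (py : ℝ)
  · simp only [RR]; exact_mod_cast h1
  · simp only [RR]; exact_mod_cast h2
  · rw [mem_frontier]
    simp only [RR]
    refine ⟨by exact_mod_cast hf, ?_⟩
    rcases hb with h | h
    · left; exact_mod_cast h
    · right; right; right; exact_mod_cast h
  · simp only [RR]
    rcases hb with h | h
    · left; exact_mod_cast h.le
    · right; exact_mod_cast h.ge
  · intro w hw1 hw2
    simp only [RR]
    rcases ho w hw1 hw2 with h | h | h | h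
    · exact Or.inl (by exact_mod_cast h)
    · exact Or.inr (Or.inl (by exact_mod_cast h))
    · exact Or.inr (Or.inr (Or.inl (by exact_mod_cast h)))
    · exact Or.inr (Or.inr (Or.inr (by exact_mod_cast h)))

/-- integer version of `see_SW` -/
theorem seeZ_SW {m n : ℕ} {u v : Fin m ⊕ Fin n} (he : ey m n u = (false, false)) (px py : ℤ)
    (h1 : px < cl m n u) (h2 : py < cb m n u)
    (hf : (cl m n v ≤ px ∧ px ≤ cr m n v) ∧ (cb m n v ≤ py ∧ py ≤ ct m n v))
    (hb : px = cr m n v ∨ py = ct m n v)
    (ho : ∀ w, w ≠ u → w ≠ v → cr m n w < px ∨ cl m n u < cl m n w ∨ ct m n w < py ∨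
      cb m n u < cb m n w) : CSees (RR m n) (ey m n) u v := by
  apply see_SW he (px : ℝ) (py : ℝ)
  · simp only [RR]; exact_mod_cast h1
  · simp only [RR]; exact_mod_cast h2
  · rw [mem_frontier]
    simp only [RR]
    refine ⟨by exact_mod_cast hf, ?_⟩
    rcases hb with h | h
    · right; left; exact_mod_cast h
    · right; right; right; exact_mod_cast h
  · simp only [RR]
    rcases hb with h | h
    · left; exact_mod_cast h.ge
    · right; exact_mod_cast h.ge
  · intro w hw1 hw2
    simp only [RR]
    rcases ho w hw1 hw2 with h | h | h | h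
    · exact Or.inl (by exact_mod_cast h)
    · exact Or.inr (Or.inl (by exact_mod_cast h))
    · exact Or.inr (Or.inr (Or.inl (by exact_mod_cast h)))
    · exact Or.inr (Or.inr (Or.inr (by exact_mod_cast h)))

/-- a rectangle of the pyramid sees the one below it -/
theorem see_path_left {m n : ℕ} {i j : Fin m} (h : i.val + 1 = j.val) :
    CSees (RR m n) (ey m n) (Sum.inl j) (Sum.inl i) := by
  have hi := i.2
  have hj := j.2
  apply seeZ_SE rfl ((m : ℤ) - i.val) (2 * i.val + 1)
  · simp only [cr]; omega
  · simp only [cb]; omega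
  · simp only [cl, cr, cb, ct]; omega
  · right; simp only [ct]
  · intro w hw1 hw2
    rcases w with k | k
    · have h1 : k.val ≠ j.val := fun e => hw1 (by rw [Fin.ext e])
      have h2 : k.val ≠ i.val := fun e => hw2 (by rw [Fin.ext e])
      simp only [ct, cb]
      omega
    · simp only [ct, cb]
      omega

/-- the rectangles of the second path see those of the pyramid -/
theorem see_cross {m n : ℕ} (i : Fin m) (j : Fin n) :
    CSees (RR m n) (ey m n) (Sum.inr j) (Sum.inl i) := by
  have hi := i.2
  have hj := j.2
  by_cases hp : j.val % 2 = 0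
  · apply seeZ_SE (by simp [ey, hp]) ((i.val : ℤ) - m) (2 * i.val + 1)
    · simp only [cr, hp, if_true]; omega
    · simp only [cb]; omega
    · simp only [cl, cr, cb, ct]; omega
    · right; simp only [ct]
    · intro w hw1 hw2
      rcases w with k | k
      · have h2 : k.val ≠ i.val := fun e => hw2 (by rw [Fin.ext e])
        simp only [cl, ct]
        omega
      · have h1 : k.val ≠ j.val := fun e => hw1 (by rw [Fin.ext e])
        have hk := k.2
        simp only [cl, cr, cb, hp, if_true]
        split_ifs <;> omega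
  · apply seeZ_SW (by simp [ey, hp]) ((m : ℤ) - i.val) (2 * i.val + 1)
    · simp only [cl, hp, if_false]; omega
    · simp only [cb]; omega
    · simp only [cl, cr, cb, ct]; omega
    · right; simp only [ct]
    · intro w hw1 hw2
      rcases w with k | k
      · have h2 : k.val ≠ i.val := fun e => hw2 (by rw [Fin.ext e])
        simp only [cr, ct]
        omega
      · have h1 : k.val ≠ j.val := fun e => hw1 (by rw [Fin.ext e])
        have hk := k.2
        simp only [cl, cr, cb, hp, if_false]
        split_ifs <;> omega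

/-- consecutive rectangles of the second path -/
theorem see_path_right {m n : ℕ} {i j : Fin n} (h : i.val + 1 = j.val) :
    CSees (RR m n) (ey m n) (Sum.inr j) (Sum.inr i) := by
  have hi := i.2
  have hj := j.2
  by_cases hp : j.val % 2 = 0
  · have hq : ¬ i.val % 2 = 0 := by omega
    apply seeZ_SE (by simp [ey, hp]) ((m : ℤ) + 2 * (n - i.val)) (2 * m + 2 + 2 * i.val)
    · simp only [cr, hp, if_true]; omega
    · simp only [cb]; omega
    · simp only [cl, cr, cb, ct, hq, if_false]; omega
    · left; simp only [cl, hq, if_false]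
    · intro w hw1 hw2
      rcases w with k | k
      · have hk := k.2
        simp only [ct]
        omega
      · have h1 : k.val ≠ j.val := fun e => hw1 (by rw [Fin.ext e])
        have h2 : k.val ≠ i.val := fun e => hw2 (by rw [Fin.ext e])
        have hk := k.2
        simp only [cl, cr, cb, ct, hp, if_true]
        split_ifs <;> omega
  · have hq : i.val % 2 = 0 := by omega
    apply seeZ_SW (by simp [ey, hp]) (-((m : ℤ) + 2 * (n - i.val))) (2 * m + 2 + 2 * i.val)
    · simp only [cl, hp, if_false]; omega
    · simp only [cb]; omega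
    · simp only [cl, cr, cb, ct, hq, if_true]; omega
    · left; simp only [cr, hq, if_true]
    · intro w hw1 hw2
      rcases w with k | k
      · have hk := k.2
        simp only [ct]
        omega
      · have h1 : k.val ≠ j.val := fun e => hw1 (by rw [Fin.ext e])
        have h2 : k.val ≠ i.val := fun e => hw2 (by rw [Fin.ext e])
        have hk := k.2
        simp only [cl, cr, cb, ct, hp, if_false]
        split_ifs <;> omega

/-- real inequalities between integers through a real number -/
theorem zlt {a b : ℤ} {x : ℝ} (h1 : (a : ℝ) ≤ x) (h2 : x < (b : ℝ)) : a < b := by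
  exact_mod_cast lt_of_le_of_lt h1 h2

theorem zlt' {a b : ℤ} {x : ℝ} (h1 : (a : ℝ) < x) (h2 : x ≤ (b : ℝ)) : a < b := by
  exact_mod_cast lt_of_lt_of_le h1 h2

theorem mem_RR {m n : ℕ} {w : Fin m ⊕ Fin n} {a b : ℤ} (h : (cl m n w ≤ a ∧ a ≤ cr m n w) ∧
    (cb m n w ≤ b ∧ b ≤ ct m n w)) : ((a : ℝ), (b : ℝ)) ∈ (RR m n w).pts := by
  obtain ⟨⟨h1, h2⟩, ⟨h3, h4⟩⟩ := h
  exact ⟨⟨by simpa [RR] using h1, by simpa [RR] using h2⟩,
    ⟨by simpa [RR] using h3, by simpa [RR] using h4⟩⟩

theorem unsee_left {m n : ℕ} {i k : Fin m} (h : ¬ (k.val + 1 = i.val)) (hne : i ≠ k) :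
    ¬ CSees (RR m n) (ey m n) (Sum.inl i) (Sum.inl k) := by
  intro hs
  have hi := i.2
  have hk := k.2
  obtain ⟨px, py, h1, h2, ⟨⟨h3, h4⟩, ⟨h5, h6⟩⟩, h7⟩ := unsee_SE (e := ey m n) (by rfl) hs
  simp only [RR] at h1 h2 h3 h4 h5 h6
  have e1 := zlt h5 h2
  simp only [cb] at e1
  have hki : k.val + 2 ≤ i.val := by omega
  refine h7 (Sum.inl ⟨i.val - 1, by omega⟩) ?_ ?_ (((m : ℤ) - i.val : ℤ) : ℝ)
    ((2 * (i.val : ℤ) - 1 : ℤ) : ℝ) ?_ ?_ ?_ ?_ (mem_RR ?_)
  · intro e
    have := congrArg Fin.val (Sum.inl.inj e)
    dsimp at this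
    omega
  · intro e
    have := congrArg Fin.val (Sum.inl.inj e)
    dsimp at this
    omega
  · simp only [RR, cr]; exact le_refl _
  · simp only [cr] at h1; exact h1.le
  · have : ct m n (Sum.inl k) ≤ 2 * (i.val : ℤ) - 1 := by simp only [ct]; omega
    exact le_trans h6 (by exact_mod_cast this)
  · simp only [RR, cb]
    have : 2 * (i.val : ℤ) - 1 ≤ 2 * (i.val : ℤ) := by omega
    exact_mod_cast this
  · simp only [cl, cr, cb, ct]
    omega

theorem unsee_right {m n : ℕ} {i k : Fin n} (h : ¬ (k.val + 1 = i.val)) (hne : i ≠ k) :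
    ¬ CSees (RR m n) (ey m n) (Sum.inr i) (Sum.inr k) := by
  intro hs
  have hi := i.2
  have hk := k.2
  by_cases hp : i.val % 2 = 0
  · obtain ⟨px, py, h1, h2, ⟨⟨h3, h4⟩, ⟨h5, h6⟩⟩, h7⟩ := unsee_SE (by simp [ey, hp]) hs
    simp only [RR] at h1 h2 h3 h4 h5 h6
    have e1 := zlt h5 h2
    have e2 := zlt' h1 h4
    simp only [cb] at e1
    simp only [cr, hp, if_true] at e2
    by_cases hq : k.val % 2 = 0
    · simp only [hq, if_true] at e2
      omega
    · have hki : k.val + 3 ≤ i.val := by omega
      refine h7 (Sum.inr ⟨i.val - 1, by omega⟩) ?_ ?_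
        (((m : ℤ) + 2 * (n - (i.val - 1 : ℤ)) : ℤ) : ℝ)
        ((2 * (m : ℤ) + 1 + 2 * (i.val : ℤ) : ℤ) : ℝ) ?_ ?_ ?_ ?_ (mem_RR ?_)
      · intro e
        have := congrArg Fin.val (Sum.inr.inj e)
        dsimp at this
        omega
      · intro e
        have := congrArg Fin.val (Sum.inr.inj e)
        dsimp at this
        omega
      · have : cr m n (Sum.inr i) ≤ (m : ℤ) + 2 * (n - (i.val - 1 : ℤ)) := by
          simp only [cr, hp, if_true]; omega
        simp only [RR]; exact_mod_cast this
      · have : (m : ℤ) + 2 * (n - (i.val - 1 : ℤ)) ≤ cl m n (Sum.inr k) := by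
          simp only [cl, hq, if_false]; omega
        exact le_trans (by exact_mod_cast this) h3
      · have : ct m n (Sum.inr k) ≤ 2 * (m : ℤ) + 1 + 2 * (i.val : ℤ) := by
          simp only [ct]; omega
        exact le_trans h6 (by exact_mod_cast this)
      · simp only [RR, cb]; exact le_refl _
      · have hr : ¬ (i.val - 1) % 2 = 0 := by omega
        simp only [cl, cr, cb, ct, hr, if_false]
        omega
  · obtain ⟨px, py, h1, h2, ⟨⟨h3, h4⟩, ⟨h5, h6⟩⟩, h7⟩ := unsee_SW (by simp [ey, hp]) hs
    simp only [RR] at h1 h2 h3 h4 h5 h6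
    have e1 := zlt h5 h2
    have e2 := zlt h3 h1
    simp only [cb] at e1
    simp only [cl, hp, if_false] at e2
    by_cases hq : k.val % 2 = 0
    · have hki : k.val + 3 ≤ i.val := by omega
      refine h7 (Sum.inr ⟨i.val - 1, by omega⟩) ?_ ?_
        ((-((m : ℤ) + 2 * (n - (i.val - 1 : ℤ))) : ℤ) : ℝ)
        ((2 * (m : ℤ) + 1 + 2 * (i.val : ℤ) : ℤ) : ℝ) ?_ ?_ ?_ ?_ (mem_RR ?_)
      · intro e
        have := congrArg Fin.val (Sum.inr.inj e)
        dsimp at this
        omega
      · intro e
        have := congrArg Fin.val (Sum.inr.inj e)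
        dsimp at this
        omega
      · have : cr m n (Sum.inr k) ≤ -((m : ℤ) + 2 * (n - (i.val - 1 : ℤ))) := by
          simp only [cr, hq, if_true]; omega
        exact le_trans h4 (by exact_mod_cast this)
      · have : -((m : ℤ) + 2 * (n - (i.val - 1 : ℤ))) ≤ cl m n (Sum.inr i) := by
          simp only [cl, hp, if_false]; omega
        simp only [RR]; exact_mod_cast this
      · have : ct m n (Sum.inr k) ≤ 2 * (m : ℤ) + 1 + 2 * (i.val : ℤ) := by
          simp only [ct]; omega
        exact le_trans h6 (by exact_mod_cast this)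
      · simp only [RR, cb]; exact le_refl _
      · have hr : (i.val - 1) % 2 = 0 := by omega
        simp only [cl, cr, cb, ct, hr, if_true]
        omega
    · simp only [hq, if_false] at e2
      omega

/-- the join of two paths is a corner rectangle visibility graph -/
theorem join_crvg (m n : ℕ) : IsCRVG (pathJoin m n) := by
  refine ⟨RR m n, ey m n, RR_disj m n, ?_⟩
  intro u v huv
  rcases u with i | i <;> rcases v with j | j
  · have hij : i ≠ j := fun e => huv (by rw [e])
    show (i.val + 1 = j.val ∨ j.val + 1 = i.val) ↔ _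
    constructor
    · rintro (h | h)
      · exact Or.inr (see_path_left h)
      · exact Or.inl (see_path_left h)
    · rintro (h | h)
      · right
        by_contra hc
        exact unsee_left hc hij h
      · left
        by_contra hc
        exact unsee_left hc hij.symm h
  · exact ⟨fun _ => Or.inr (see_cross i j), fun _ => trivial⟩
  · exact ⟨fun _ => Or.inl (see_cross j i), fun _ => trivial⟩
  · have hij : i ≠ j := fun e => huv (by rw [e])
    show (i.val + 1 = j.val ∨ j.val + 1 = i.val) ↔ _
    constructor
    · rintro (h | h)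
      · exact Or.inr (see_path_right h)
      · exact Or.inl (see_path_right h)
    · rintro (h | h)
      · right
        by_contra hc
        exact unsee_right hc hij h
      · left
        by_contra hc
        exact unsee_right hc hij.symm h

/-! ### the points -/

/-- first coordinate -/
def px (m n : ℕ) : Fin m ⊕ Fin n → ℤ
  | Sum.inl i => i.val
  | Sum.inr j => m + j.val

/-- second coordinate -/
def py (m n : ℕ) : Fin m ⊕ Fin n → ℤ
  | Sum.inl i => n + i.val
  | Sum.inr j => j.val

theorem join_rig (m n : ℕ) : IsOpenRIG (pathJoin m n) := by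
  refine ⟨fun v => ((px m n v : ℝ), (py m n v : ℝ)), ?_, ?_⟩
  · intro u v h
    have h1 : px m n u = px m n v := by
      have h2 := (Prod.ext_iff.1 h).1
      dsimp at h2
      exact_mod_cast h2
    rcases u with i | i <;> rcases v with j | j <;> simp only [px] at h1
    · exact congrArg Sum.inl (Fin.ext (by omega))
    · have := i.2; omega
    · have := j.2; omega
    · exact congrArg Sum.inr (Fin.ext (by omega))
  · intro u v huv
    have hint : ∀ w, ((((px m n w : ℝ), (py m n w : ℝ)) : ℝ × ℝ) ∈
        interior (Set.uIcc (px m n u : ℝ) (px m n v : ℝ) ×ˢ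
          Set.uIcc (py m n u : ℝ) (py m n v : ℝ))) ↔
        ((min (px m n u) (px m n v) < px m n w ∧ px m n w < max (px m n u) (px m n v)) ∧
        (min (py m n u) (py m n v) < py m n w ∧ py m n w < max (py m n u) (py m n v))) := by
      intro w
      rw [interior_prod_eq, Set.uIcc, Set.uIcc, interior_Icc, interior_Icc]
      simp only [Set.mem_prod, Set.mem_Ioo]
      norm_cast
    simp only [hint]
    rcases u with i | i <;> rcases v with j | j
    · have hij : i.val ≠ j.val := fun e => huv (by rw [Fin.ext e])
      show (i.val + 1 = j.val ∨ j.val + 1 = i.val) ↔ _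
      constructor
      · intro h w
        rcases w with k | k
        · simp only [px, py]; omega
        · have := i.2
          have := j.2
          simp only [px, py]; omega
      · intro h
        by_contra hc
        have hi := i.2
        have hj := j.2
        rcases lt_or_gt_of_ne hij with hlt | hlt
        · apply h (Sum.inl ⟨i.val + 1, by omega⟩)
          simp only [px, py]
          push_cast
          omega
        · apply h (Sum.inl ⟨j.val + 1, by omega⟩)
          simp only [px, py]
          push_cast
          omega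
    · refine ⟨fun _ w => ?_, fun _ => trivial⟩
      have := i.2
      have := j.2
      rcases w with k | k
      · simp only [px, py]; omega
      · simp only [px, py]; omega
    · refine ⟨fun _ w => ?_, fun _ => trivial⟩
      have := i.2
      have := j.2
      rcases w with k | k
      · simp only [px, py]; omega
      · simp only [px, py]; omega
    · have hij : i.val ≠ j.val := fun e => huv (by rw [Fin.ext e])
      show (i.val + 1 = j.val ∨ j.val + 1 = i.val) ↔ _
      constructor
      · intro h w
        rcases w with k | k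
        · have := k.2
          simp only [px, py]; omega
        · simp only [px, py]; omega
      · intro h
        by_contra hc
        have hi := i.2
        have hj := j.2
        rcases lt_or_gt_of_ne hij with hlt | hlt
        · apply h (Sum.inr ⟨i.val + 1, by omega⟩)
          simp only [px, py]
          push_cast
          omega
        · apply h (Sum.inr ⟨j.val + 1, by omega⟩)
          simp only [px, py]
          push_cast
          omega

end Q65.RV
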