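import Pool.Agent.Q65.RVBound

set_option autoImplicit false

namespace Q65.RV

/-! ### boundary and interior of rectangles -/

theorem mem_frontier {A : Rect} {x y : ℝ} : (x, y) ∈ frontier A.pts ↔
    ((A.l ≤ x ∧ x ≤ A.r) ∧ (A.b ≤ y ∧ y ≤ A.t)) ∧ (x = A.l ∨ x = A.r ∨ y = A.b ∨ y = A.t) := by
  have hc : IsClosed A.pts := isClosed_Icc.prod isClosed_Icc
  rw [hc.frontier_eq, Rect.pts, interior_prod_eq, interior_Icc, interior_Icc, Set.mem_sdiff]
  simp only [Set.mem_prod, Set.mem_Icc, Set.mem_Ioo]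
  constructor
  · rintro ⟨h1, h2⟩
    refine ⟨h1, ?_⟩
    by_contra hc
    push Not at hc
    obtain ⟨c1, c2, c3, c4⟩ := hc
    exact h2 ⟨⟨lt_of_le_of_ne h1.1.1 (Ne.symm c1), lt_of_le_of_ne h1.1.2 c2⟩,
      ⟨lt_of_le_of_ne h1.2.1 (Ne.symm c3), lt_of_le_of_ne h1.2.2 c4⟩⟩
  · rintro ⟨h1, h2⟩
    refine ⟨h1, ?_⟩
    rintro ⟨⟨a, b⟩, ⟨c, d⟩⟩
    rcases h2 with h | h | h | h <;> linarith

theorem see_SE {V : Type} {R : V → Rect} {e : V → Bool × Bool} {u v : V}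
    (he : e u = (true, false)) (px py : ℝ) (h1 : (R u).r < px) (h2 : py < (R u).b)
    (hf : (px, py) ∈ frontier (R v).pts) (hi : px ≤ (R v).l ∨ (R v).t ≤ py)
    (ho : ∀ w, w ≠ u → w ≠ v → px < (R w).l ∨ (R w).r < (R u).r ∨ (R w).t < py ∨
      (R u).b < (R w).b) : CSees R e u v := by
  refine ⟨⟨(R u).r, px, py, (R u).b, h1, h2⟩, (false, true), ?_, ?_, ?_, ?_, ?_⟩
  · rw [he]; simp [Rect.corner]
  · simpa [Rect.corner] using hf
  · rw [he]
    ext ⟨x, y⟩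
    simp only [Rect.pts, Rect.corner, Set.mem_inter_iff, Set.mem_prod, Set.mem_Icc,
      Set.mem_singleton_iff, Prod.mk.injEq]
    have hx := (R u).hx
    have hy := (R u).hy
    constructor
    · rintro ⟨⟨⟨a1, a2⟩, ⟨a3, a4⟩⟩, ⟨⟨b1, b2⟩, ⟨b3, b4⟩⟩⟩
      refine ⟨?_, ?_⟩
      · simp only [if_true]; linarith
      · simp only [Bool.false_eq_true, if_false]; linarith
    · rintro ⟨rfl, rfl⟩
      simp only [if_true, Bool.false_eq_true, if_false]
      refine ⟨⟨⟨le_refl _, h1.le⟩, ⟨h2.le, le_refl _⟩⟩, ⟨⟨hx.le, le_refl _⟩, ⟨le_refl _, hy.le⟩⟩⟩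
  · rintro ⟨x, y⟩ ⟨⟨⟨a1, a2⟩, ⟨a3, a4⟩⟩, ⟨⟨b1, b2⟩, ⟨b3, b4⟩⟩⟩
    dsimp at *
    rw [mem_frontier]
    refine ⟨⟨⟨b1, b2⟩, ⟨b3, b4⟩⟩, ?_⟩
    rcases hi with h | h
    · left; linarith
    · right; right; right; linarith
  · intro w hw1 hw2
    rw [disj_iff]
    rcases ho w hw1 hw2 with h | h | h | h
    · exact Or.inl h
    · exact Or.inr (Or.inl h)
    · exact Or.inr (Or.inr (Or.inr h))
    · exact Or.inr (Or.inr (Or.inl h))

theorem see_SW {V : Type} {R : V → Rect} {e : V → Bool × Bool} {u v : V}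
    (he : e u = (false, false)) (px py : ℝ) (h1 : px < (R u).l) (h2 : py < (R u).b)
    (hf : (px, py) ∈ frontier (R v).pts) (hi : (R v).r ≤ px ∨ (R v).t ≤ py)
    (ho : ∀ w, w ≠ u → w ≠ v → (R w).r < px ∨ (R u).l < (R w).l ∨ (R w).t < py ∨
      (R u).b < (R w).b) : CSees R e u v := by
  refine ⟨⟨px, (R u).l, py, (R u).b, h1, h2⟩, (true, true), ?_, ?_, ?_, ?_, ?_⟩
  · rw [he]; simp [Rect.corner]
  · simpa [Rect.corner] using hf
  · rw [he]
    ext ⟨x, y⟩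
    simp only [Rect.pts, Rect.corner, Set.mem_inter_iff, Set.mem_prod, Set.mem_Icc,
      Set.mem_singleton_iff, Prod.mk.injEq]
    have hx := (R u).hx
    have hy := (R u).hy
    constructor
    · rintro ⟨⟨⟨a1, a2⟩, ⟨a3, a4⟩⟩, ⟨⟨b1, b2⟩, ⟨b3, b4⟩⟩⟩
      refine ⟨?_, ?_⟩
      · simp only [Bool.false_eq_true, if_false]; linarith
      · simp only [Bool.false_eq_true, if_false]; linarith
    · rintro ⟨rfl, rfl⟩
      simp only [Bool.false_eq_true, if_false]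
      refine ⟨⟨⟨h1.le, le_refl _⟩, ⟨h2.le, le_refl _⟩⟩, ⟨⟨le_refl _, hx.le⟩, ⟨le_refl _, hy.le⟩⟩⟩
  · rintro ⟨x, y⟩ ⟨⟨⟨a1, a2⟩, ⟨a3, a4⟩⟩, ⟨⟨b1, b2⟩, ⟨b3, b4⟩⟩⟩
    dsimp at *
    rw [mem_frontier]
    refine ⟨⟨⟨b1, b2⟩, ⟨b3, b4⟩⟩, ?_⟩
    rcases hi with h | h
    · right; left; linarith
    · right; right; right; linarith
  · intro w hw1 hw2
    rw [disj_iff]
    rcases ho w hw1 hw2 with h | h | h | h
    · exact Or.inr (Or.inl h)
    · exact Or.inl h
    · exact Or.inr (Or.inr (Or.inr h))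
    · exact Or.inr (Or.inr (Or.inl h))

theorem unsee_SE {V : Type} {R : V → Rect} {e : V → Bool × Bool} {u v : V}
    (he : e u = (true, false)) (h : CSees R e u v) : ∃ px py : ℝ, (R u).r < px ∧
      py < (R u).b ∧ (px, py) ∈ (R v).pts ∧
      ∀ w, w ≠ u → w ≠ v → ∀ x y, (R u).r ≤ x → x ≤ px → py ≤ y → y ≤ (R u).b →
        (x, y) ∈ (R w).pts → False := by
  obtain ⟨Q, c, hc, hf, hs, -, ho⟩ := h
  rw [he] at hc hs
  obtain ⟨c1, c2⟩ := c
  have hQx := Q.hx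
  have hQy := Q.hy
  have hx := (R u).hx
  have hy := (R u).hy
  simp only [Rect.corner, if_true, Bool.false_eq_true, if_false, Prod.mk.injEq] at hc hs hf
  have hclosed : IsClosed (R v).pts := isClosed_Icc.prod isClosed_Icc
  have hfv := hclosed.frontier_subset hf
  obtain ⟨hc1, hc2⟩ := hc
  have k2 : c2 = true := by
    by_contra hcon
    have hc2' : c2 = false := by simpa using hcon
    subst hc2'
    simp only [Bool.false_eq_true, if_false] at hc2
    have hm : ((R u).r, min Q.t (R u).t) ∈ Q.pts ∩ (R u).pts := by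
      refine ⟨⟨⟨?_, ?_⟩, ⟨?_, min_le_left _ _⟩⟩, ⟨⟨hx.le, le_refl _⟩, ⟨?_, min_le_right _ _⟩⟩⟩
      · dsimp; rw [← hc1]; cases c1 <;> simp [hQx.le]
      · dsimp; rw [← hc1]; cases c1 <;> simp [hQx.le]
      · exact le_min hQy.le (by rw [hc2]; exact hy.le)
      · exact le_min (by rw [← hc2]; exact hQy.le) hy.le
    rw [hs] at hm
    have h2 := (Prod.ext_iff.1 (Set.mem_singleton_iff.1 hm)).2
    dsimp at h2
    rcases min_choice Q.t (R u).t with h3 | h3 <;> rw [h3] at h2 <;> linarith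
  subst k2
  simp only [if_true] at hc2
  have k1 : c1 = false := by
    by_contra hcon
    have hc1' : c1 = true := by simpa using hcon
    subst hc1'
    simp only [if_true] at hc1
    have hm : (max Q.l (R u).l, (R u).b) ∈ Q.pts ∩ (R u).pts := by
      refine ⟨⟨⟨le_max_left _ _, ?_⟩, ⟨?_, ?_⟩⟩, ⟨⟨le_max_right _ _, ?_⟩, ⟨le_refl _, hy.le⟩⟩⟩
      · exact max_le hQx.le (by rw [hc1]; exact hx.le)
      · dsimp; rw [← hc2]; exact hQy.le
      · dsimp; rw [← hc2]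
      · exact max_le (by rw [← hc1]; exact hQx.le) hx.le
    rw [hs] at hm
    have h2 := (Prod.ext_iff.1 (Set.mem_singleton_iff.1 hm)).1
    dsimp at h2
    rcases max_choice Q.l (R u).l with h3 | h3 <;> rw [h3] at h2 <;> linarith
  subst k1
  simp only [Bool.false_eq_true, if_false] at hc1
  simp only [Bool.not_false, Bool.not_true, if_true, Bool.false_eq_true, if_false] at hfv
  refine ⟨Q.r, Q.b, by linarith, by linarith, hfv, ?_⟩
  intro w h1 h2 x y x1 x2 y1 y2 hw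
  exact no_common (ho w h1 h2) (x, y)
    ⟨⟨by dsimp; linarith, x2⟩, ⟨y1, by dsimp; linarith⟩⟩ hw

theorem unsee_SW {V : Type} {R : V → Rect} {e : V → Bool × Bool} {u v : V}
    (he : e u = (false, false)) (h : CSees R e u v) : ∃ px py : ℝ, px < (R u).l ∧
      py < (R u).b ∧ (px, py) ∈ (R v).pts ∧
      ∀ w, w ≠ u → w ≠ v → ∀ x y, px ≤ x → x ≤ (R u).l → py ≤ y → y ≤ (R u).b →
        (x, y) ∈ (R w).pts → False := by
  obtain ⟨Q, c, hc, hf, hs, -, ho⟩ := h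
  rw [he] at hc hs
  obtain ⟨c1, c2⟩ := c
  have hQx := Q.hx
  have hQy := Q.hy
  have hx := (R u).hx
  have hy := (R u).hy
  simp only [Rect.corner, Bool.false_eq_true, if_false, Prod.mk.injEq] at hc hs hf
  have hclosed : IsClosed (R v).pts := isClosed_Icc.prod isClosed_Icc
  have hfv := hclosed.frontier_subset hf
  obtain ⟨hc1, hc2⟩ := hc
  have k2 : c2 = true := by
    by_contra hcon
    have hc2' : c2 = false := by simpa using hcon
    subst hc2'
    simp only [Bool.false_eq_true, if_false] at hc2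
    have hm : ((R u).l, min Q.t (R u).t) ∈ Q.pts ∩ (R u).pts := by
      refine ⟨⟨⟨?_, ?_⟩, ⟨?_, min_le_left _ _⟩⟩, ⟨⟨le_refl _, hx.le⟩, ⟨?_, min_le_right _ _⟩⟩⟩
      · dsimp; rw [← hc1]; cases c1 <;> simp [hQx.le]
      · dsimp; rw [← hc1]; cases c1 <;> simp [hQx.le]
      · exact le_min hQy.le (by rw [hc2]; exact hy.le)
      · exact le_min (by rw [← hc2]; exact hQy.le) hy.le
    rw [hs] at hm
    have h2 := (Prod.ext_iff.1 (Set.mem_singleton_iff.1 hm)).2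
    dsimp at h2
    rcases min_choice Q.t (R u).t with h3 | h3 <;> rw [h3] at h2 <;> linarith
  subst k2
  simp only [if_true] at hc2
  have k1 : c1 = true := by
    by_contra hcon
    have hc1' : c1 = false := by simpa using hcon
    subst hc1'
    simp only [Bool.false_eq_true, if_false] at hc1
    have hm : (min Q.r (R u).r, (R u).b) ∈ Q.pts ∩ (R u).pts := by
      refine ⟨⟨⟨?_, min_le_left _ _⟩, ⟨?_, ?_⟩⟩, ⟨⟨?_, min_le_right _ _⟩, ⟨le_refl _, hy.le⟩⟩⟩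
      · exact le_min hQx.le (by rw [hc1]; exact hx.le)
      · dsimp; rw [← hc2]; exact hQy.le
      · dsimp; rw [← hc2]
      · exact le_min (by rw [← hc1]; exact hQx.le) hx.le
    rw [hs] at hm
    have h2 := (Prod.ext_iff.1 (Set.mem_singleton_iff.1 hm)).1
    dsimp at h2
    rcases min_choice Q.r (R u).r with h3 | h3 <;> rw [h3] at h2 <;> linarith
  subst k1
  simp only [if_true] at hc1
  simp only [Bool.not_true, Bool.false_eq_true, if_false] at hfv
  refine ⟨Q.l, Q.b, by linarith, by linarith, hfv, ?_⟩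
  intro w h1 h2 x y x1 x2 y1 y2 hw
  exact no_common (ho w h1 h2) (x, y)
    ⟨⟨x1, by dsimp; linarith⟩, ⟨y1, by dsimp; linarith⟩⟩ hw

end Q65.RV
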