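import Mathlib

/-!
Helper for MP_db9acb_an: the recursion `x_{n+1} = (α + x_n) / (C x_{n-1} + x_{n-2})` with
`α = 729/6400`, `C = 20/9`.

Far away from the origin the solution is close to a cycle of length six in logarithmic variables.
The function `W a b = (b + C a) (b / P + C a) / (P b + a / C)`, `P = α C ^ 2 = 9/16`, is almost
preserved by six steps of the recursion, the ratio `b / a` is multiplied by about `1 / P`, and after
the ratio has become large a shift of the index by one increases `W` by a factor of about `3.4`.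
-/

set_option autoImplicit false

namespace Q65.Rational3

/-- `a` and `b` agree up to the factor `exp δ` -/
def Near (δ a b : ℝ) : Prop := a ≤ Real.exp δ * b ∧ b ≤ Real.exp δ * a

lemma Near.symm {δ a b : ℝ} (h : Near δ a b) : Near δ b a := ⟨h.2, h.1⟩

lemma Near.mono {δ ε a b : ℝ} (h : Near δ a b) (hδ : δ ≤ ε) (ha : 0 ≤ a) (hb : 0 ≤ b) :
    Near ε a b := by
  have := Real.exp_le_exp.2 hδ
  exact ⟨h.1.trans (mul_le_mul_of_nonneg_right this hb),
    h.2.trans (mul_le_mul_of_nonneg_right this ha)⟩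

lemma Near.mul {δ ε a b c d : ℝ} (h : Near δ a b) (k : Near ε c d) (ha : 0 ≤ a) (hb : 0 ≤ b)
    (hc : 0 ≤ c) (hd : 0 ≤ d) : Near (δ + ε) (a * c) (b * d) := by
  unfold Near
  rw [Real.exp_add]
  have hδ := (Real.exp_pos δ).le
  have hε := (Real.exp_pos ε).le
  constructor
  · calc a * c ≤ (Real.exp δ * b) * (Real.exp ε * d) :=
        mul_le_mul h.1 k.1 hc (by positivity)
      _ = Real.exp δ * Real.exp ε * (b * d) := by ring
  · calc b * d ≤ (Real.exp δ * a) * (Real.exp ε * c) :=
        mul_le_mul h.2 k.2 hd (by positivity)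
      _ = Real.exp δ * Real.exp ε * (a * c) := by ring

lemma Near.inv {δ a b : ℝ} (h : Near δ a b) (ha : 0 < a) (hb : 0 < b) : Near δ a⁻¹ b⁻¹ := by
  have hδ := Real.exp_pos δ
  constructor
  · rw [inv_le_iff_one_le_mul₀ ha]
    have := h.2
    calc (1 : ℝ) = b⁻¹ * b := (inv_mul_cancel₀ hb.ne').symm
      _ ≤ b⁻¹ * (Real.exp δ * a) := mul_le_mul_of_nonneg_left h.2 (by positivity)
      _ = Real.exp δ * b⁻¹ * a := by ring
  · rw [inv_le_iff_one_le_mul₀ hb]
    calc (1 : ℝ) = a⁻¹ * a := (inv_mul_cancel₀ ha.ne').symm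
      _ ≤ a⁻¹ * (Real.exp δ * b) := mul_le_mul_of_nonneg_left h.1 (by positivity)
      _ = Real.exp δ * a⁻¹ * b := by ring

lemma Near.div {δ ε a b c d : ℝ} (h : Near δ a b) (k : Near ε c d) (ha : 0 ≤ a) (hb : 0 ≤ b)
    (hc : 0 < c) (hd : 0 < d) : Near (δ + ε) (a / c) (b / d) := by
  rw [div_eq_mul_inv, div_eq_mul_inv]
  exact h.mul (k.inv hc hd) ha hb (by positivity) (by positivity)

lemma Near.add {δ a b c d : ℝ} (h : Near δ a b) (k : Near δ c d) : Near δ (a + c) (b + d) := by
  constructor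
  · have := h.1; have := k.1; nlinarith
  · have := h.2; have := k.2; nlinarith

lemma Near.trans {δ ε a b c : ℝ} (h : Near δ a b) (k : Near ε b c) : Near (δ + ε) a c := by
  unfold Near
  rw [Real.exp_add]
  have hδ := (Real.exp_pos δ).le
  have hε := (Real.exp_pos ε).le
  constructor
  · calc a ≤ Real.exp δ * b := h.1
      _ ≤ Real.exp δ * (Real.exp ε * c) := mul_le_mul_of_nonneg_left k.1 hδ
      _ = _ := by ring
  · calc c ≤ Real.exp ε * b := k.2
      _ ≤ Real.exp ε * (Real.exp δ * a) := mul_le_mul_of_nonneg_left h.2 hε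
      _ = _ := by ring

lemma Near.refl {δ a : ℝ} (hδ : 0 ≤ δ) (ha : 0 ≤ a) : Near δ a a := by
  have := Real.one_le_exp hδ
  constructor <;> nlinarith

/-- a small additional term -/
lemma near_small {δ a b : ℝ} (ha : 0 ≤ a) (hb : 0 ≤ b) (h : b ≤ δ * a) : Near δ (b + a) a := by
  have h1 := Real.add_one_le_exp δ
  constructor
  · nlinarith
  · by_cases ha0 : a = 0
    · subst ha0
      have : 0 ≤ Real.exp δ * (b + 0) := by positivity
      simpa using this
    · have hpos : 0 < a := lt_of_le_of_ne ha (Ne.symm ha0)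
      have hδ : 0 ≤ δ := by
        by_contra hcon
        push Not at hcon
        nlinarith
      have := Real.one_le_exp hδ
      nlinarith

/-- the function which is almost preserved -/
noncomputable def W (a b : ℝ) : ℝ :=
  (b + 20 / 9 * a) * (16 / 9 * b + 20 / 9 * a) / (9 / 16 * b + 9 / 20 * a)

lemma W_pos {a b : ℝ} (ha : 0 < a) (hb : 0 < b) : 0 < W a b := by
  unfold W
  positivity

lemma W_near {δ a b a' b' : ℝ} (ha : 0 < a) (hb : 0 < b) (ha' : 0 < a') (hb' : 0 < b')
    (h : Near δ a a') (k : Near δ b b') : Near (3 * δ) (W a b) (W a' b') := by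
  have cst : ∀ c x y : ℝ, 0 < c → 0 < x → 0 < y → Near δ x y → Near δ (c * x) (c * y) := by
    intro c x y hc hx hy hxy
    have := (Near.refl (δ := 0) le_rfl hc.le).mul hxy hc.le hc.le hx.le hy.le
    simpa using this
  have h1 : Near δ (b + 20 / 9 * a) (b' + 20 / 9 * a') :=
    k.add (cst _ _ _ (by norm_num) ha ha' h)
  have h2 : Near δ (16 / 9 * b + 20 / 9 * a) (16 / 9 * b' + 20 / 9 * a') :=
    (cst _ _ _ (by norm_num) hb hb' k).add (cst _ _ _ (by norm_num) ha ha' h)
  have h3 : Near δ (9 / 16 * b + 9 / 20 * a) (9 / 16 * b' + 9 / 20 * a') :=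
    (cst _ _ _ (by norm_num) hb hb' k).add (cst _ _ _ (by norm_num) ha ha' h)
  have := (h1.mul h2 (by positivity) (by positivity) (by positivity) (by positivity)).div h3
    (by positivity) (by positivity) (by positivity) (by positivity)
  unfold W
  rw [show 3 * δ = δ + δ + δ by ring]
  exact this

/-- the exact invariance of `W` for the limit of the six-step map -/
lemma W_inv {a b : ℝ} (ha : 0 < a) (hb : 0 < b) :
    W (((729 / 6400 : ℝ) + 729 / 6400 * (20 / 9) / (b / a)) /
      (20 / 9 * (729 / 6400 / b) + (729 / 6400 + b / a * (9 / 20)) / (20 / 9 * b + a)))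
      (((729 / 6400 : ℝ) + 729 / 6400 * (20 / 9) / (b / a)) /
      (20 / 9 * (729 / 6400 / b) + (729 / 6400 + b / a * (9 / 20)) / (20 / 9 * b + a)) *
        (b / a * (16 / 9))) = W a b := by
  unfold W
  field_simp
  ring

lemma exp_small {t : ℝ} (h0 : 0 ≤ t) (h1 : t ≤ 1 / 2) : Real.exp t ≤ 1 + 2 * t := by
  have h2 : 0 < 1 - t := by linarith
  have h3 : Real.exp t ≤ 1 / (1 - t) := by
    rw [le_div_iff₀ h2]
    have h4 := Real.add_one_le_exp (-t)
    have h5 : Real.exp t * Real.exp (-t) = 1 := by rw [← Real.exp_add]; simp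
    have h6 : Real.exp t * (1 - t) ≤ Real.exp t * Real.exp (-t) :=
      mul_le_mul_of_nonneg_left (by linarith) (Real.exp_pos t).le
    linarith
  refine h3.trans ?_
  rw [div_le_iff₀ h2]
  nlinarith

/-- the first step -/
lemma first {x0 x1 x2 x3 η : ℝ} (p0 : 0 < x0) (p1 : 0 < x1) (p2 : 0 < x2)
    (h3 : x3 = (729 / 6400 + x2) / (20 / 9 * x1 + x0)) (h0 : x0 * x2 ≤ x1)
    (hη : 1 / x2 ≤ η) : Near η x3 (x2 / x1 * (9 / 20)) := by
  have hη2 : 1 ≤ η * x2 := by
    rwa [div_le_iff₀ p2] at hη
  have hηp : 0 < η := lt_of_lt_of_le (by positivity) hη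
  have n1 : Near (729 / 6400 * η) (729 / 6400 + x2) x2 :=
    near_small p2.le (by norm_num) (by nlinarith)
  have n2 : Near (9 / 20 * η) (x0 + 20 / 9 * x1) (20 / 9 * x1) := by
    refine near_small (by positivity) p0.le ?_
    have h5 : x0 * 1 ≤ x0 * (η * x2) := mul_le_mul_of_nonneg_left hη2 p0.le
    have h6 : x0 * x2 * η ≤ x1 * η := mul_le_mul_of_nonneg_right h0 hηp.le
    nlinarith
  rw [add_comm x0] at n2
  have n3 := n1.div n2 (by positivity) p2.le (by positivity) (by positivity)
  rw [← h3] at n3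
  have p3 : 0 < x3 := by rw [h3]; positivity
  have e : x2 / (20 / 9 * x1) = x2 / x1 * (9 / 20) := by field_simp
  rw [e] at n3
  exact n3.mono (by linarith) p3.le (by positivity)

set_option maxHeartbeats 4000000 in
/-- six steps of the recursion -/
lemma six {x0 x1 x2 x3 x4 x5 x6 x7 x8 η : ℝ} (p0 : 0 < x0) (p1 : 0 < x1) (p2 : 0 < x2)
    (h3 : x3 = (729 / 6400 + x2) / (20 / 9 * x1 + x0))
    (h4 : x4 = (729 / 6400 + x3) / (20 / 9 * x2 + x1))
    (h5 : x5 = (729 / 6400 + x4) / (20 / 9 * x3 + x2))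
    (h6 : x6 = (729 / 6400 + x5) / (20 / 9 * x4 + x3))
    (h7 : x7 = (729 / 6400 + x6) / (20 / 9 * x5 + x4))
    (h8 : x8 = (729 / 6400 + x7) / (20 / 9 * x6 + x5))
    (h0 : x0 * x2 ≤ x1) (hη1 : 1 / x1 + 1 / x2 ≤ η) (hη2 : η ≤ 1 / 1000) :
    Near (28 * η) (x8 / x7) (x2 / x1 * (16 / 9)) ∧ Near (51 * η) (W x7 x8) (W x1 x2) ∧
      x6 * x8 ≤ x7 := by
  have q1 : 0 < 1 / x1 := by positivity
  have q2 : 0 < 1 / x2 := by positivity
  have hηp : 0 < η := by linarith
  have p3 : 0 < x3 := by rw [h3]; positivity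
  have p4 : 0 < x4 := by rw [h4]; positivity
  have p5 : 0 < x5 := by rw [h5]; positivity
  have p6 : 0 < x6 := by rw [h6]; positivity
  have p7 : 0 < x7 := by rw [h7]; positivity
  have p8 : 0 < x8 := by rw [h8]; positivity
  have n3 : Near η x3 (x2 / x1 * (9 / 20)) := first p0 p1 p2 h3 h0 (by linarith)
  -- x4
  set m4 : ℝ := (729 / 6400 + x2 / x1 * (9 / 20)) / (20 / 9 * x2 + x1) with hm4
  have pm4 : 0 < m4 := by positivity
  have n4 : Near η x4 m4 := by
    have h := ((Near.refl hηp.le (by norm_num : (0 : ℝ) ≤ 729 / 6400)).add n3).div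
      (Near.refl (δ := 0) (a := 20 / 9 * x2 + x1) le_rfl (by positivity)) (by positivity)
      (by positivity) (by positivity) (by positivity)
    rw [← h4, add_zero] at h
    exact h
  have bm4 : m4 ≤ 1 / 3 * (1 / x1) := by
    rw [hm4, div_le_iff₀ (by positivity)]
    have e1 : 1 / 3 * (1 / x1) * (20 / 9 * x2 + x1) = 20 / 27 * (x2 / x1) + 1 / 3 := by
      field_simp
      ring
    rw [e1]
    have : 0 < x2 / x1 := by positivity
    nlinarith
  have ee : ∀ k : ℝ, 0 ≤ k → k ≤ 100 → Real.exp (k * η) ≤ 6 / 5 := by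
    intro k hk0 hk
    have := exp_small (t := k * η) (by positivity) (by nlinarith)
    nlinarith
  have ee1 : Real.exp η ≤ 501 / 500 := by
    have := exp_small (t := η) (by positivity) (by linarith)
    nlinarith
  have bx4 : x4 ≤ 7 / 20 * (1 / x1) := by
    have := n4.1
    nlinarith
  -- x5
  have n5 : Near (5 * (1 / x1)) x5 (729 / 6400 / x2) := by
    have h := (near_small (δ := 7 / 2 * (1 / x1)) (a := 729 / 6400) (b := x4) (by norm_num) p4.le
      (by nlinarith)).div
      (near_small (δ := 3 / 2 * (1 / x1)) (a := x2) (b := 20 / 9 * x3) p2.le (by positivity) (by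
        have h1 := n3.1
        have e : 3 / 2 * (1 / x1) * x2 = 3 / 2 * (x2 / x1) := by ring
        rw [e]
        have : 0 < x2 / x1 := by positivity
        nlinarith))
      (by positivity) (by norm_num) (by positivity) p2
    rw [add_comm x4, ← h5] at h
    refine h.mono (by linarith) p5.le (by positivity)
  have bx5 : x5 ≤ 6 / 5 * (729 / 6400 / x2) := by
    have h1 : Real.exp (5 * (1 / x1)) ≤ Real.exp (5 * η) := Real.exp_le_exp.2 (by linarith)
    have h2 := ee 5 (by norm_num) (by norm_num)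
    have h3 : 0 < 729 / 6400 / x2 := by positivity
    nlinarith [n5.1]
  -- x6
  set m6 : ℝ := 729 / 6400 * (20 / 9) / (x2 / x1) with hm6
  have pm6 : 0 < m6 := by positivity
  have n6 : Near (11 / 2 * η) x6 m6 := by
    have h1 := near_small (δ := 2 * (1 / x2)) (a := 729 / 6400) (b := x5) (by norm_num) p5.le (by
      have e : 6 / 5 * (729 / 6400 / x2) = 6 / 5 * (1 / x2) * (729 / 6400) := by ring
      nlinarith)
    have h2 : Near (9 / 4 * η) (20 / 9 * x4 + x3) x3 := by
      refine near_small p3.le (by positivity) ?_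
      have k1 := n3.2
      -- `x2 / x1 * (9/20) ≤ 501/500 * x3`
      have k2 : x2 / x1 * (9 / 20) ≤ 501 / 500 * x3 :=
        k1.trans (mul_le_mul_of_nonneg_right ee1 p3.le)
      have k3 : x2 * (9 / 20) ≤ 501 / 500 * x3 * x1 := by
        have := mul_le_mul_of_nonneg_right k2 p1.le
        have e : x2 / x1 * (9 / 20) * x1 = x2 * (9 / 20) := by field_simp
        linarith
      have k4 : 20 / 9 * x4 ≤ 20 / 9 * ((729 / 6400 + x3) / x1) := by
        rw [h4]
        refine mul_le_mul_of_nonneg_left ?_ (by norm_num)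
        exact div_le_div_of_nonneg_left (by positivity) p1 (by nlinarith)
      have k5 : 20 / 9 * ((729 / 6400 + x3) / x1) ≤ 9 / 4 * (1 / x1 + 1 / x2) * x3 := by
        have e1 : 20 / 9 * ((729 / 6400 + x3) / x1) =
            20 / 9 * (729 / 6400) * (1 / x1) + 20 / 9 * x3 * (1 / x1) := by ring
        have e2 : 20 / 9 * (729 / 6400) * (1 / x1) ≤ 9 / 4 * (1 / x2) * x3 := by
          have e3 : 20 / 9 * (729 / 6400) / x1 ≤ 9 / 4 * x3 / x2 := by
            rw [div_le_div_iff₀ p1 p2]
            nlinarith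
          calc 20 / 9 * (729 / 6400) * (1 / x1) = 20 / 9 * (729 / 6400) / x1 := by ring
            _ ≤ 9 / 4 * x3 / x2 := e3
            _ = 9 / 4 * (1 / x2) * x3 := by ring
        nlinarith
      exact k4.trans (k5.trans (mul_le_mul_of_nonneg_right
        (mul_le_mul_of_nonneg_left hη1 (by norm_num)) p3.le))
    have h3 := h1.div (h2.trans n3) (by positivity) (by norm_num) (by positivity) (by positivity)
    rw [add_comm x5, ← h6] at h3
    have e : 729 / 6400 / (x2 / x1 * (9 / 20)) = m6 := by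
      rw [hm6]
      field_simp
    rw [e] at h3
    exact h3.mono (by linarith) p6.le pm6.le
  -- x7
  set m7 : ℝ := (729 / 6400 + m6) / (20 / 9 * (729 / 6400 / x2) + m4) with hm7
  have pm7 : 0 < m7 := by positivity
  have cst : ∀ c x y δ : ℝ, 0 < c → 0 < x → 0 < y → Near δ x y → Near δ (c * x) (c * y) := by
    intro c x y δ hc hx hy hxy
    have := (Near.refl (δ := 0) le_rfl hc.le).mul hxy hc.le hc.le hx.le hy.le
    simpa using this
  have n7 : Near (21 / 2 * η) x7 m7 := by
    have h1 := (Near.refl (δ := 11 / 2 * η) (by positivity)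
      (by norm_num : (0 : ℝ) ≤ 729 / 6400)).add n6
    have h2 : Near (5 * η) (20 / 9 * x5 + x4) (20 / 9 * (729 / 6400 / x2) + m4) :=
      (cst _ _ _ _ (by norm_num) p5 (by positivity)
        (n5.mono (by linarith) p5.le (by positivity))).add (n4.mono (by linarith) p4.le pm4.le)
    have h3 := h1.div h2 (by positivity) (by positivity) (by positivity) (by positivity)
    rw [← h7, ← hm7] at h3
    exact h3.mono (by linarith) p7.le pm7.le
  -- x8
  have n8 : Near (17 * η) x8 (m7 * (x2 / x1 * (16 / 9))) := by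
    have h1 : Near (1 / 2 * η) (729 / 6400 + x7) x7 := by
      refine near_small p7.le (by norm_num) ?_
      have k1 : 20 / 9 * x5 + x4 ≤ 1 / 2 * η := by
        have : 6 / 5 * (729 / 6400 / x2) = 6 / 5 * (729 / 6400) * (1 / x2) := by ring
        nlinarith
      have k2 : 729 / 6400 ≤ (20 / 9 * x5 + x4) * x7 := by
        rw [h7, mul_div_assoc', le_div_iff₀ (by positivity)]
        nlinarith
      exact k2.trans (mul_le_mul_of_nonneg_right k1 p7.le)
    have h2 : Near (1 / 2 * η) (x5 + 20 / 9 * x6) (20 / 9 * x6) := by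
      refine near_small (by positivity) p5.le ?_
      have k1 : m6 ≤ 6 / 5 * x6 := by
        have := ee (11 / 2) (by norm_num) (by norm_num)
        exact n6.2.trans (mul_le_mul_of_nonneg_right this p6.le)
      have k2 : x5 ≤ 1 / 2 * (1 / x1) * (20 / 9 * m6 * (5 / 6)) := by
        refine bx5.trans ?_
        rw [hm6]
        have : 1 / 2 * (1 / x1) * (20 / 9 * (729 / 6400 * (20 / 9) / (x2 / x1)) * (5 / 6)) =
          1 / 2 * (20 / 9 * (729 / 6400) * (20 / 9)) * (5 / 6) / x2 := by
          field_simp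
        rw [this, ← mul_div_assoc]
        exact div_le_div_of_nonneg_right (by norm_num) p2.le
      have k3 : 1 / 2 * (1 / x1) * (20 / 9 * m6 * (5 / 6)) ≤ 1 / 2 * η * (20 / 9 * x6) := by
        refine mul_le_mul (by linarith) (by linarith) (by positivity) (by positivity)
      exact k2.trans k3
    rw [add_comm x5] at h2
    have h3 := (h1.trans n7).div (h2.trans (cst _ _ _ _ (by norm_num : (0 : ℝ) < 20 / 9) p6 pm6 n6))
      (by positivity) (by positivity) (by positivity) (by positivity)
    rw [← h8] at h3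
    have e : m7 / (20 / 9 * m6) = m7 * (x2 / x1 * (16 / 9)) := by
      rw [hm6]
      field_simp
      norm_num
    rw [e] at h3
    exact h3.mono (by linarith) p8.le (by positivity)
  have nq : Near (28 * η) (x8 / x7) (x2 / x1 * (16 / 9)) := by
    have h := n8.div n7 p8.le (by positivity) p7 pm7
    have e : m7 * (x2 / x1 * (16 / 9)) / m7 = x2 / x1 * (16 / 9) := by
      field_simp
    rw [e] at h
    exact h.mono (by linarith) (by positivity) (by positivity)
  refine ⟨nq, ?_, ?_⟩
  · have h := W_near (δ := 17 * η) p7 p8 pm7 (by positivity) (n7.mono (by linarith) p7.le pm7.le) n8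
    have e : W m7 (m7 * (x2 / x1 * (16 / 9))) = W x1 x2 := W_inv p1 p2
    rw [e] at h
    exact h.mono (by linarith) (W_pos p7 p8).le (W_pos p1 p2).le
  · have k1 : x6 ≤ 6 / 5 * m6 := by
      have := ee (11 / 2) (by norm_num) (by norm_num)
      exact n6.1.trans (mul_le_mul_of_nonneg_right this pm6.le)
    have k2 : x8 / x7 ≤ 6 / 5 * (x2 / x1 * (16 / 9)) := by
      have := ee 28 (by norm_num) (by norm_num)
      exact nq.1.trans (mul_le_mul_of_nonneg_right this (by positivity))
    have k3 : x6 * (x8 / x7) ≤ 6 / 5 * m6 * (6 / 5 * (x2 / x1 * (16 / 9))) :=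
      mul_le_mul k1 k2 (by positivity) (by positivity)
    have k4 : 6 / 5 * m6 * (6 / 5 * (x2 / x1 * (16 / 9))) ≤ 1 := by
      rw [hm6]
      have : 6 / 5 * (729 / 6400 * (20 / 9) / (x2 / x1)) * (6 / 5 * (x2 / x1 * (16 / 9))) =
        6 / 5 * (729 / 6400 * (20 / 9)) * (6 / 5 * (16 / 9)) := by
        field_simp
      rw [this]
      norm_num
    have k5 : x6 * x8 = x6 * (x8 / x7) * x7 := by field_simp
    rw [k5]
    nlinarith

end Q65.Rational3
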