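import Pool.Agent.Q65.Rational3

/-!
Helper for MP_db9acb_an, second part: along one arc the quantity `W` is almost constant while the
ratio of consecutive terms grows; at the end of the arc `W` is at least doubled by a shift.
-/

set_option autoImplicit false

namespace Q65.Rational3

lemma W_le {a b : ℝ} (ha : 0 < a) (hb : 0 < b) : W a b ≤ 11 * (a + b) := by
  unfold W
  rw [div_le_iff₀ (by positivity)]
  nlinarith [mul_pos ha hb, mul_pos ha ha, mul_pos hb hb]

/-- the state of the solution inside an arc of size `T` -/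
structure Arc (T x0 x1 x2 : ℝ) : Prop where
  p0 : 0 < x0
  p1 : 0 < x1
  p2 : 0 < x2
  hT : 1000000 ≤ T
  lo : 1 / (2 * T) ≤ x2 / x1
  hi : x2 / x1 ≤ 2 * T
  hW : |W x1 x2 - T ^ 2| ≤ 9000 * (2 * T - 1 / (x2 / x1) + x2 / x1)
  h0 : x0 * x2 ≤ x1

lemma Arc.W_bounds {T x0 x1 x2 : ℝ} (h : Arc T x0 x1 x2) :
    9 / 10 * T ^ 2 ≤ W x1 x2 ∧ W x1 x2 ≤ 11 / 10 * T ^ 2 := by
  have hT := h.hT
  have hu : 0 < x2 / x1 := div_pos h.p2 h.p1
  have h1 : 0 < 1 / (x2 / x1) := by positivity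
  have h2 := h.hW
  have h3 : 9000 * (2 * T - 1 / (x2 / x1) + x2 / x1) ≤ 1 / 10 * T ^ 2 := by
    have := h.hi
    nlinarith
  have h4 := abs_le.1 (h2.trans h3)
  constructor <;> linarith [h4.1, h4.2]

/-- the error term of a step -/
lemma Arc.eta {T x0 x1 x2 : ℝ} (h : Arc T x0 x1 x2) :
    1 / x1 + 1 / x2 ≤ 110 / 9 * (2 + x2 / x1 + 1 / (x2 / x1)) / T ^ 2 := by
  have hT := h.hT
  have p1 := h.p1
  have p2 := h.p2
  have hu : 0 < x2 / x1 := div_pos p2 p1
  have h1 := W_le p1 p2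
  have h2 := h.W_bounds.1
  have hT2 : 0 < T ^ 2 := by positivity
  have e1 : 1 / x1 + 1 / x2 = (2 + x2 / x1 + 1 / (x2 / x1)) / (x1 + x2) := by
    field_simp
    ring
  have hq : 0 < 2 + x2 / x1 + 1 / (x2 / x1) := by positivity
  rw [e1, div_le_div_iff₀ (by positivity) hT2]
  have h3 : T ^ 2 ≤ 110 / 9 * (x1 + x2) := by linarith
  calc (2 + x2 / x1 + 1 / (x2 / x1)) * T ^ 2
      ≤ (2 + x2 / x1 + 1 / (x2 / x1)) * (110 / 9 * (x1 + x2)) :=
        mul_le_mul_of_nonneg_left h3 hq.le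
    _ = _ := by ring

lemma Arc.eta_small {T x0 x1 x2 : ℝ} (h : Arc T x0 x1 x2) :
    110 / 9 * (2 + x2 / x1 + 1 / (x2 / x1)) / T ^ 2 ≤ 1 / 10000 := by
  have hT := h.hT
  have hu : 0 < x2 / x1 := div_pos h.p2 h.p1
  have h1 : 1 / (x2 / x1) ≤ 2 * T := by
    have h2 := h.lo
    rw [div_le_iff₀ (by positivity)] at h2 ⊢
    linarith
  have h3 := h.hi
  rw [div_le_iff₀ (by positivity)]
  nlinarith

/-- one round of six steps inside an arc -/
lemma Arc.step {T x0 x1 x2 x3 x4 x5 x6 x7 x8 : ℝ} (h : Arc T x0 x1 x2)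
    (h3 : x3 = (729 / 6400 + x2) / (20 / 9 * x1 + x0))
    (h4 : x4 = (729 / 6400 + x3) / (20 / 9 * x2 + x1))
    (h5 : x5 = (729 / 6400 + x4) / (20 / 9 * x3 + x2))
    (h6 : x6 = (729 / 6400 + x5) / (20 / 9 * x4 + x3))
    (h7 : x7 = (729 / 6400 + x6) / (20 / 9 * x5 + x4))
    (h8 : x8 = (729 / 6400 + x7) / (20 / 9 * x6 + x5)) (hu : x2 / x1 ≤ T) :
    Arc T x6 x7 x8 ∧ 3 / 2 * (x2 / x1) ≤ x8 / x7 := by
  have p0 := h.p0
  have p1 := h.p1
  have p2 := h.p2
  have p3 : 0 < x3 := by rw [h3]; positivity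
  have p4 : 0 < x4 := by rw [h4]; positivity
  have p5 : 0 < x5 := by rw [h5]; positivity
  have p6 : 0 < x6 := by rw [h6]; positivity
  have p7 : 0 < x7 := by rw [h7]; positivity
  have p8 : 0 < x8 := by rw [h8]; positivity
  have hT := h.hT
  have e1 := h.eta
  have e2 := h.eta_small
  have w1 := h.W_bounds
  have hW := h.hW
  have hlo := h.lo
  set η : ℝ := 110 / 9 * (2 + x2 / x1 + 1 / (x2 / x1)) / T ^ 2 with hη
  obtain ⟨nq, nW, n0⟩ := six p0 p1 p2 h3 h4 h5 h6 h7 h8 h.h0 e1 (by linarith)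
  set u : ℝ := x2 / x1 with hudef
  set v : ℝ := x8 / x7 with hvdef
  have hup : 0 < u := div_pos p2 p1
  have hvp : 0 < v := div_pos p8 p7
  have hηp : 0 < η := by positivity
  have f28 := exp_small (t := 28 * η) (by positivity) (by linarith)
  have f51 := exp_small (t := 51 * η) (by positivity) (by linarith)
  have v1 : v ≤ 2 * u := by
    have := nq.1
    have hb : Real.exp (28 * η) ≤ 9 / 8 := by linarith
    have : Real.exp (28 * η) * (u * (16 / 9)) ≤ 9 / 8 * (u * (16 / 9)) :=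
      mul_le_mul_of_nonneg_right hb (by positivity)
    linarith
  have v2 : 3 / 2 * u ≤ v := by
    have h9 := nq.2
    have hb : Real.exp (28 * η) ≤ 32 / 27 := by linarith
    have : Real.exp (28 * η) * v ≤ 32 / 27 * v := mul_le_mul_of_nonneg_right hb hvp.le
    linarith
  have wp := W_pos p7 p8
  have wq := W_pos p1 p2
  -- change of `W`
  have hηT : η * T ^ 2 = 110 / 9 * (2 + u + 1 / u) := by
    rw [hη]
    field_simp
  have c1 : W x7 x8 ≤ W x1 x2 + 103 * (11 / 10 * (η * T ^ 2)) := by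
    have h9 := nW.1
    have : Real.exp (51 * η) * W x1 x2 ≤ (1 + 2 * (51 * η)) * W x1 x2 :=
      mul_le_mul_of_nonneg_right f51 wq.le
    have h10 : η * W x1 x2 ≤ η * (11 / 10 * T ^ 2) := mul_le_mul_of_nonneg_left w1.2 hηp.le
    nlinarith
  have c2 : W x1 x2 - 103 * (11 / 10 * (η * T ^ 2)) ≤ W x7 x8 := by
    have h9 := nW.2
    have h10 : Real.exp (51 * η) * W x7 x8 ≤ (1 + 2 * (51 * η)) * W x7 x8 :=
      mul_le_mul_of_nonneg_right f51 wp.le
    have h11 : W x7 x8 ≤ 11 / 10 * T ^ 2 + 103 * (11 / 10 * (η * T ^ 2)) := by linarith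
    have h12 : η * W x7 x8 ≤ η * (11 / 10 * T ^ 2 + 103 * (11 / 10 * (η * T ^ 2))) :=
      mul_le_mul_of_nonneg_left h11 hηp.le
    have h13 : η * (103 * (11 / 10 * (η * T ^ 2))) ≤ 1 / 10000 * (103 * (11 / 10 * (η * T ^ 2))) :=
      mul_le_mul_of_nonneg_right e2 (by positivity)
    nlinarith
  -- change of the budget
  have g1 : 1 / v ≤ 2 / 3 * (1 / u) := by
    rw [div_le_iff₀ hvp]
    have : 2 / 3 * (1 / u) * (3 / 2 * u) = 1 := by field_simp
    nlinarith [mul_le_mul_of_nonneg_left v2 (show (0 : ℝ) ≤ 2 / 3 * (1 / u) by positivity)]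
  have hiu : 0 < 1 / u := by positivity
  have g2 : 2 ≤ u + 1 / u := by
    have : u + 1 / u - 2 = (u - 1) ^ 2 / u := by
      field_simp
      ring
    have : 0 ≤ (u - 1) ^ 2 / u := by positivity
    linarith
  have g3 : 103 * (11 / 10 * (η * T ^ 2)) ≤
      9000 * (2 * T - 1 / v + v) - 9000 * (2 * T - 1 / u + u) := by
    rw [hηT]
    linarith
  refine ⟨⟨p6, p7, p8, hT, ?_, ?_, ?_, n0⟩, v2⟩
  · show 1 / (2 * T) ≤ v
    linarith
  · show v ≤ 2 * T
    linarith
  · show |W x7 x8 - T ^ 2| ≤ 9000 * (2 * T - 1 / v + v)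
    have := abs_le.1 hW
    rw [abs_le]
    constructor <;> linarith [this.1, this.2]

/-- the end of an arc is the start of a larger one -/
lemma Arc.next {T x0 x1 x2 x3 : ℝ} (h : Arc T x0 x1 x2)
    (h3 : x3 = (729 / 6400 + x2) / (20 / 9 * x1 + x0)) (hu : T ≤ x2 / x1) :
    ∃ T' : ℝ, 2 * T ^ 2 ≤ T' ^ 2 ∧ 0 < T' ∧ x3 / x2 ≤ 1 ∧ Arc T' x1 x2 x3 := by
  have p0 := h.p0
  have p1 := h.p1
  have p2 := h.p2
  have p3 : 0 < x3 := by rw [h3]; positivity
  have hT := h.hT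
  have e1 := h.eta
  have e2 := h.eta_small
  have w1 := h.W_bounds
  have hhi := h.hi
  have q1 : 0 < 1 / x1 := by positivity
  have n3 := first p0 p1 p2 h3 h.h0 (η := 1 / 10000) (by linarith)
  have ex := exp_small (t := 1 / 10000) (by norm_num) (by norm_num)
  have hup : 0 < x2 / x1 := div_pos p2 p1
  have a1 : x3 ≤ 451 / 1000 * (x2 / x1) := by
    have h9 := n3.1
    have : Real.exp (1 / 10000) * (x2 / x1 * (9 / 20)) ≤ (1 + 2 * (1 / 10000)) * (x2 / x1 * (9 / 20)) :=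
      mul_le_mul_of_nonneg_right ex (by positivity)
    linarith
  have a2 : 449 / 1000 * (x2 / x1) ≤ x3 := by
    have h9 := n3.2
    have : Real.exp (1 / 10000) * x3 ≤ (1 + 2 * (1 / 10000)) * x3 :=
      mul_le_mul_of_nonneg_right ex p3.le
    linarith
  -- `x1` and `x2` in terms of `T`
  have b1 : T * x1 ≤ x2 := by rwa [le_div_iff₀ p1] at hu
  have b2 : x2 ≤ 2 * T * x1 := by rwa [div_le_iff₀ p1] at hhi
  have c1 : 1000 ≤ x1 := by
    have k1 := W_le p1 p2
    have k2 : 9 / 10 * T ^ 2 ≤ 11 * (x1 + 2 * T * x1) := by linarith [w1.1]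
    have k3 : 11 * (x1 + 2 * T * x1) ≤ 11 * (3 * T * x1) := by nlinarith
    have k4 : T * (9 / 10 * T) ≤ T * (33 * x1) := by nlinarith
    have k5 := le_of_mul_le_mul_left k4 (by linarith)
    linarith
  have c2 : x3 * 1000 ≤ x2 := by
    have : x2 / x1 ≤ x2 / 1000 := div_le_div_of_nonneg_left p2.le (by norm_num) c1
    nlinarith
  have c3 : x1 * 1000000 ≤ x2 := by nlinarith
  have d1 : W x1 x2 ≤ 32 / 10 * x2 := by
    unfold W
    rw [div_le_iff₀ (by positivity)]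
    nlinarith [mul_pos p1 p2]
  have d2 : 3 * x2 ≤ W x1 x2 := by
    unfold W
    rw [le_div_iff₀ (by positivity)]
    nlinarith [mul_pos p1 p2, mul_pos p1 p1, mul_pos p2 p2]
  have d3 : 10 * x2 ≤ W x2 x3 := by
    unfold W
    rw [le_div_iff₀ (by positivity)]
    nlinarith [mul_pos p2 p3, mul_pos p3 p3, mul_pos p2 p2]
  have wp := W_pos p2 p3
  have d4 : 2 * T ^ 2 ≤ W x2 x3 := by
    linarith [w1.1]
  refine ⟨Real.sqrt (W x2 x3), ?_, Real.sqrt_pos.2 wp, ?_, p1, p2, p3, ?_, ?_, ?_, ?_, ?_⟩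
  · rw [Real.sq_sqrt wp.le]
    exact d4
  · rw [div_le_one p2]
    linarith
  · refine Real.le_sqrt_of_sq_le ?_
    nlinarith
  · -- `1 / (2 T') ≤ x3 / x2`
    have k1 : T ≤ Real.sqrt (W x2 x3) := Real.le_sqrt_of_sq_le (by nlinarith)
    have k2 : 1 / (2 * Real.sqrt (W x2 x3)) ≤ 1 / (2 * T) :=
      div_le_div_of_nonneg_left zero_le_one (by positivity) (by linarith)
    refine k2.trans ?_
    have k3 : 449 / 1000 / x1 ≤ x3 / x2 := by
      rw [div_le_div_iff₀ p1 p2]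
      have : 449 / 1000 * (x2 / x1) * x1 ≤ x3 * x1 := mul_le_mul_of_nonneg_right a2 p1.le
      have e : 449 / 1000 * (x2 / x1) * x1 = 449 / 1000 * x2 := by field_simp
      linarith
    refine le_trans ?_ k3
    rw [div_le_div_iff₀ (by positivity) p1]
    have k4 : T * x1 ≤ T * (11 / 30 * T) := by nlinarith [w1.2]
    have k5 := le_of_mul_le_mul_left k4 (by linarith)
    linarith
  · have k0 : 1 ≤ Real.sqrt (W x2 x3) := Real.le_sqrt_of_sq_le (by nlinarith)
    have : x3 / x2 ≤ 1 := by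
      rw [div_le_one p2]
      linarith
    linarith
  · rw [Real.sq_sqrt wp.le, sub_self, abs_zero]
    have hv : 0 < x3 / x2 := by positivity
    have k1 : T ≤ Real.sqrt (W x2 x3) := Real.le_sqrt_of_sq_le (by nlinarith)
    have k2 : 1 / (x3 / x2) ≤ 2 * T := by
      rw [div_le_iff₀ hv]
      have k3 : 449 / 1000 / x1 ≤ x3 / x2 := by
        rw [div_le_div_iff₀ p1 p2]
        have : 449 / 1000 * (x2 / x1) * x1 ≤ x3 * x1 := mul_le_mul_of_nonneg_right a2 p1.le
        have e : 449 / 1000 * (x2 / x1) * x1 = 449 / 1000 * x2 := by field_simp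
        linarith
      have k4 : T * x1 ≤ T * (11 / 30 * T) := by nlinarith [w1.2]
      have k5 := le_of_mul_le_mul_left k4 (by linarith)
      have k6 : 1 ≤ 2 * T * (449 / 1000 / x1) := by
        rw [mul_div_assoc', le_div_iff₀ p1]
        linarith
      have : 2 * T * (449 / 1000 / x1) ≤ 2 * T * (x3 / x2) :=
        mul_le_mul_of_nonneg_left k3 (by linarith)
      linarith
    have : 0 ≤ 2 * Real.sqrt (W x2 x3) - 1 / (x3 / x2) + x3 / x2 := by linarith
    positivity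
  · have e : x2 * 1 = x2 := mul_one _
    have : x1 * x3 ≤ x1 * (451 / 1000 * (x2 / x1)) := mul_le_mul_of_nonneg_left a1 p1.le
    have e2 : x1 * (451 / 1000 * (x2 / x1)) = 451 / 1000 * x2 := by field_simp
    linarith

end Q65.Rational3
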