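import Mathlib

/-!
# The transport integral equation: general theory
-/

set_option linter.unusedSectionVars false

namespace Q65.Trans

open Set MeasureTheory Filter Topology Metric
open scoped NNReal ENNReal

noncomputable section

abbrev E3 := EuclideanSpace ℝ (Fin 3)
abbrev S2 := sphere (0:E3) 1

/-- surface measure on the unit sphere of `ℝ³` -/
def sig : Measure S2 := (volume : Measure E3).toSphere

instance : IsFiniteMeasure sig := by unfold sig; infer_instance

lemma sig_univ : sig.real univ = 4 * Real.pi := by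
  unfold sig
  rw [Measure.toSphere_real_apply_univ]
  rw [Measure.real, EuclideanSpace.volume_ball_fin_three]
  simp only [finrank_euclideanSpace, Fintype.card_fin, ENNReal.ofReal_one, one_pow, one_mul]
  rw [ENNReal.toReal_ofReal (by positivity)]
  push_cast
  ring

/-- first exit distance -/
def exitD (V : Set E3) (r : E3) (ω : S2) : ℝ := sInf {t : ℝ | 0 < t ∧ r + t • (ω:E3) ∉ V}

/-- `M` is a bounded measurable solution of the integral equation with parameter `lam` -/
structure IsSol (V : Set E3) (lam : ℝ) (M : E3 → S2 → ℝ) : Prop where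
  meas : Measurable (Function.uncurry M)
  bdd : ∃ C, ∀ r ω, |M r ω| ≤ C
  eq : ∀ r ∈ V, ∀ ω, M r ω = 1 - Real.exp (-(exitD V r ω)) +
    lam / (4 * Real.pi) * ∫ x in (0:ℝ)..(exitD V r ω),
      Real.exp (-(lam * x)) * ∫ ω', M (r + x • (ω:E3)) ω' ∂sig

/-- the segment from `r` of length `x` in direction `ω` lies in `V` -/
def Seg (V : Set E3) : Set ((E3 × S2) × ℝ) :=
  {q | ∀ s ∈ Icc (0:ℝ) 1, q.1.1 + (s * q.2) • (q.1.2 : E3) ∈ V}

lemma isOpen_seg {V : Set E3} (hV : IsOpen V) : IsOpen (Seg V) := by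
  rw [isOpen_iff_mem_nhds]
  intro q hq
  have hc : Continuous (fun z : ((E3 × S2) × ℝ) × ℝ => z.1.1.1 + (z.2 * z.1.2) • (z.1.1.2 : E3)) := by
    fun_prop
  exact isCompact_Icc.eventually_forall_of_forall_eventually
    (P := fun (q : (E3 × S2) × ℝ) (s : ℝ) => q.1.1 + (s * q.2) • (q.1.2 : E3) ∈ V)
    (fun s hs => hc.continuousAt.eventually (hV.mem_nhds (hq s hs)))

def ind (V : Set E3) (q : (E3 × S2) × ℝ) : ℝ := (Seg V).indicator (fun _ => 1) q

lemma ind_mem (V : Set E3) (q) : 0 ≤ ind V q ∧ ind V q ≤ 1 := by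
  unfold ind
  by_cases h : q ∈ Seg V
  · rw [indicator_of_mem h]; norm_num
  · rw [indicator_of_notMem h]; norm_num

lemma meas_ind {V : Set E3} (hV : IsOpen V) : Measurable (ind V) :=
  measurable_const.indicator (isOpen_seg hV).measurableSet

/-- standing hypotheses on the domain -/
structure Dom (V : Set E3) (R : ℝ) : Prop where
  op : IsOpen V
  one_le : 1 ≤ R
  far : ∀ r ∈ V, ∀ (ω : S2) (t : ℝ), R ≤ t → r + t • (ω:E3) ∉ V

variable {V : Set E3} {R : ℝ}

section exit

variable (hV : Dom V R)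
include hV

lemma exit_le {r : E3} (hr : r ∈ V) (ω : S2) : exitD V r ω ≤ R := by
  apply csInf_le ⟨0, fun t ht => ht.1.le⟩
  exact ⟨by linarith [hV.one_le], hV.far r hr ω R le_rfl⟩

lemma exit_nonneg (r : E3) (ω : S2) : 0 ≤ exitD V r ω := Real.sInf_nonneg fun t ht => ht.1.le

lemma lt_exit_iff {r : E3} (hr : r ∈ V) (ω : S2) {x : ℝ} (hx : 0 < x) :
    x < exitD V r ω ↔ ((r, ω), x) ∈ Seg V := by
  have hbdd : BddBelow {t : ℝ | 0 < t ∧ r + t • (ω:E3) ∉ V} := ⟨0, fun t ht => ht.1.le⟩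
  have hne : {t : ℝ | 0 < t ∧ r + t • (ω:E3) ∉ V}.Nonempty :=
    ⟨R, by linarith [hV.one_le], hV.far r hr ω R le_rfl⟩
  constructor
  · intro hlt s hs
    simp only
    by_contra hcon
    have hspos : 0 < s := by
      rcases eq_or_lt_of_le hs.1 with h | h
      · exfalso; apply hcon; rw [← h]; simpa using hr
      · exact h
    have h1 : exitD V r ω ≤ s * x := csInf_le hbdd ⟨by positivity, hcon⟩
    have : s * x ≤ x := by nlinarith [hs.2]
    linarith
  · intro hseg
    -- a neighbourhood of the end point is contained in `V`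
    have hend : r + x • (ω:E3) ∈ V := by
      have := hseg 1 (by simp)
      simpa using this
    have hc : Continuous (fun t : ℝ => r + t • (ω:E3)) := by fun_prop
    have hev : ∀ᶠ t in 𝓝 x, r + t • (ω:E3) ∈ V := hc.continuousAt.eventually (hV.op.mem_nhds hend)
    obtain ⟨δ, hδ, hball⟩ := Metric.eventually_nhds_iff.1 hev
    have : x + δ/2 ≤ exitD V r ω := by
      apply le_csInf hne
      rintro t ⟨ht0, htV⟩
      by_contra hlt
      push Not at hlt
      apply htV
      rcases le_or_gt t x with h | h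
      · have := hseg (t / x) ⟨by positivity, by rw [div_le_one hx]; exact h⟩
        simp only at this
        rwa [div_mul_cancel₀ _ hx.ne'] at this
      · apply hball
        rw [Real.dist_eq, abs_of_pos (by linarith)]; linarith
    linarith

lemma exit_pos {r : E3} (hr : r ∈ V) (ω : S2) : 0 < exitD V r ω := by
  have hc : Continuous (fun t : ℝ => r + t • (ω:E3)) := by fun_prop
  have hev : ∀ᶠ t in 𝓝 (0:ℝ), r + t • (ω:E3) ∈ V :=
    hc.continuousAt.eventually (hV.op.mem_nhds (by simpa using hr))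
  obtain ⟨δ, hδ, hball⟩ := Metric.eventually_nhds_iff.1 hev
  have : ((r, ω), δ/2) ∈ Seg V := by
    intro s hs
    apply hball
    simp only
    rw [Real.dist_eq, sub_zero, abs_of_nonneg (mul_nonneg hs.1 (by linarith))]
    nlinarith [hs.2]
  have := (lt_exit_iff hV hr ω (half_pos hδ)).2 this
  linarith

end exit

/-- bounded measurable functions -/
def BM (Φ : E3 → ℝ) : Prop := Measurable Φ ∧ ∃ C, ∀ x, |Φ x| ≤ C

/-- the integral along the ray -/
def LL (V : Set E3) (R : ℝ) (k : ℝ → ℝ) (Φ : E3 → ℝ) (q : E3 × S2) : ℝ :=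
  ∫ x in Ioc 0 R, k x * (ind V (q, x) * Φ (q.1 + x • (q.2:E3)))

/-- the average over directions -/
def AA (V : Set E3) (R : ℝ) (k : ℝ → ℝ) (Φ : E3 → ℝ) (r : E3) : ℝ :=
  (4 * Real.pi)⁻¹ * ∫ ω, LL V R k Φ (r, ω) ∂sig

section ops

variable (hV : Dom V R)
include hV

lemma meas_integrand {k : ℝ → ℝ} (hk : Measurable k) {Φ : E3 → ℝ} (hΦ : Measurable Φ) :
    Measurable (fun z : (E3 × S2) × ℝ => k z.2 * (ind V z * Φ (z.1.1 + z.2 • (z.1.2:E3)))) := by
  have h1 : Measurable (fun z : (E3 × S2) × ℝ => z.1.1 + z.2 • (z.1.2:E3)) := by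
    apply Continuous.measurable; fun_prop
  exact (hk.comp measurable_snd).mul ((meas_ind hV.op).mul (hΦ.comp h1))

lemma meas_LL {k : ℝ → ℝ} (hk : Measurable k) {Φ : E3 → ℝ} (hΦ : Measurable Φ) :
    Measurable (LL V R k Φ) := by
  have := (meas_integrand hV hk hΦ).stronglyMeasurable.integral_prod_right'
    (ν := volume.restrict (Ioc 0 R))
  exact this.measurable

lemma meas_AA {k : ℝ → ℝ} (hk : Measurable k) {Φ : E3 → ℝ} (hΦ : Measurable Φ) :
    Measurable (AA V R k Φ) := by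
  have := (meas_LL hV hk hΦ).stronglyMeasurable.integral_prod_right' (ν := sig)
  exact this.measurable.const_mul _

lemma int_integrand {k : ℝ → ℝ} (hk : Continuous k) {Φ : E3 → ℝ} (hΦ : BM Φ) (q : E3 × S2) :
    IntegrableOn (fun x => k x * (ind V (q, x) * Φ (q.1 + x • (q.2:E3)))) (Ioc 0 R) := by
  obtain ⟨hm, C, hC⟩ := hΦ
  have hkI : IntegrableOn k (Ioc 0 R) := (hk.integrableOn_Icc).mono_set Ioc_subset_Icc_self
  refine hkI.mul_bdd (c := C) ?_ ?_
  · have : Measurable (fun x : ℝ => ind V (q, x) * Φ (q.1 + x • (q.2:E3))) := by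
      apply ((meas_ind hV.op).comp (measurable_const.prodMk measurable_id)).mul
      exact hm.comp (Continuous.measurable (by fun_prop))
    exact this.aestronglyMeasurable
  · filter_upwards with x
    rw [norm_mul]
    have h1 := ind_mem V (q, x)
    have h2 : ‖ind V (q, x)‖ ≤ 1 := by rw [Real.norm_eq_abs, abs_of_nonneg h1.1]; exact h1.2
    calc ‖ind V (q, x)‖ * ‖Φ (q.1 + x • (q.2:E3))‖ ≤ 1 * C :=
          mul_le_mul h2 (hC _) (norm_nonneg _) zero_le_one
      _ = C := one_mul _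

lemma LL_eq {k : ℝ → ℝ} {Φ : E3 → ℝ} {r : E3} (hr : r ∈ V) (ω : S2) :
    LL V R k Φ (r, ω) = ∫ x in (0:ℝ)..(exitD V r ω), k x * Φ (r + x • (ω:E3)) := by
  unfold LL
  have hD := exit_le hV hr ω
  have hD0 := exit_pos hV hr ω
  rw [intervalIntegral.integral_of_le hD0.le]
  have hsub : Ioc (0:ℝ) (exitD V r ω) ⊆ Ioc 0 R := Ioc_subset_Ioc_right hD
  have e1 : ∫ x in Ioc 0 R, k x * (ind V ((r, ω), x) * Φ (r + x • (ω:E3)))
      = ∫ x in Ioc 0 R, (Ioo 0 (exitD V r ω)).indicator (fun x => k x * Φ (r + x • (ω:E3))) x := by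
    apply setIntegral_congr_fun measurableSet_Ioc
    intro x hx
    simp only
    by_cases h : x < exitD V r ω
    · have h2 := (lt_exit_iff hV hr ω hx.1).1 h
      have hmem : x ∈ Ioo 0 (exitD V r ω) := ⟨hx.1, h⟩
      rw [indicator_of_mem hmem]
      unfold ind
      rw [indicator_of_mem h2, one_mul]
    · have h2 : ((r, ω), x) ∉ Seg V := fun h3 => h ((lt_exit_iff hV hr ω hx.1).2 h3)
      have hmem : x ∉ Ioo 0 (exitD V r ω) := fun h3 => h h3.2
      rw [indicator_of_notMem hmem]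
      unfold ind
      rw [indicator_of_notMem h2]; ring
  rw [e1, integral_indicator measurableSet_Ioo, Measure.restrict_restrict measurableSet_Ioo,
    inter_eq_left.2 (Ioo_subset_Ioc_self.trans hsub), integral_Ioc_eq_integral_Ioo]

lemma LL_out {k : ℝ → ℝ} {Φ : E3 → ℝ} {r : E3} (hr : r ∉ V) (ω : S2) : LL V R k Φ (r, ω) = 0 := by
  unfold LL
  have : ∀ x : ℝ, ind V ((r, ω), x) = 0 := by
    intro x
    unfold ind
    apply indicator_of_notMem
    intro h
    have := h 0 (by simp)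
    simp only [zero_mul, zero_smul, add_zero] at this
    exact hr this
  simp [this]

lemma LL_bound {k : ℝ → ℝ} (hk : Continuous k) {Φ : E3 → ℝ} {C : ℝ}
    (hC : ∀ x ∈ V, |Φ x| ≤ C) {r : E3} (hr : r ∈ V) (ω : S2) :
    |LL V R k Φ (r, ω)| ≤ C * ∫ x in (0:ℝ)..(exitD V r ω), |k x| := by
  rw [LL_eq hV hr ω]
  have hD0 := exit_pos hV hr ω
  rw [← Real.norm_eq_abs, ← intervalIntegral.integral_const_mul]
  apply intervalIntegral.norm_integral_le_of_norm_le hD0.le
  · have hne : ∀ᵐ x : ℝ, x ≠ exitD V r ω := by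
      have : (volume : Measure ℝ) {exitD V r ω} = 0 := measure_singleton _
      exact measure_eq_zero_iff_ae_notMem.1 this
    filter_upwards [hne] with x hx hxI
    have hlt : x < exitD V r ω := lt_of_le_of_ne hxI.2 hx
    have h1 := (lt_exit_iff hV hr ω hxI.1).1 hlt
    have h2 : r + x • (ω:E3) ∈ V := by
      have := h1 1 (by simp)
      simpa using this
    rw [norm_mul, Real.norm_eq_abs, Real.norm_eq_abs, mul_comm]
    exact mul_le_mul_of_nonneg_right (hC _ h2) (abs_nonneg _)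
  · exact (hk.abs.const_mul C).intervalIntegrable _ _

lemma LL_add {k : ℝ → ℝ} (hk : Continuous k) {Φ Ψ : E3 → ℝ} (hΦ : BM Φ) (hΨ : BM Ψ) (q : E3 × S2) :
    LL V R k (fun x => Φ x + Ψ x) q = LL V R k Φ q + LL V R k Ψ q := by
  unfold LL
  rw [← integral_add (int_integrand hV hk hΦ q) (int_integrand hV hk hΨ q)]
  congr 1; ext x; ring

lemma LL_smul {k : ℝ → ℝ} (c : ℝ) (Φ : E3 → ℝ) (q : E3 × S2) :
    LL V R k (fun x => c * Φ x) q = c * LL V R k Φ q := by
  unfold LL
  rw [← integral_const_mul]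
  congr 1; ext x; ring

lemma LL_kadd {k l : ℝ → ℝ} (hk : Continuous k) (hl : Continuous l) {Φ : E3 → ℝ} (hΦ : BM Φ)
    (q : E3 × S2) : LL V R (fun x => k x + l x) Φ q = LL V R k Φ q + LL V R l Φ q := by
  unfold LL
  rw [← integral_add (int_integrand hV hk hΦ q) (int_integrand hV hl hΦ q)]
  congr 1; ext x; ring

lemma LL_ksmul (k : ℝ → ℝ) (c : ℝ) (Φ : E3 → ℝ) (q : E3 × S2) :
    LL V R (fun x => c * k x) Φ q = c * LL V R k Φ q := by
  unfold LL
  rw [← integral_const_mul]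
  congr 1; ext x; ring

/-- an absolute bound for `LL` -/
lemma LL_bdd {k : ℝ → ℝ} (hk : Continuous k) {Φ : E3 → ℝ} {C : ℝ} (hC : ∀ x ∈ V, |Φ x| ≤ C)
    (hC0 : 0 ≤ C) (q : E3 × S2) : |LL V R k Φ q| ≤ C * ∫ x in (0:ℝ)..R, |k x| := by
  obtain ⟨r, ω⟩ := q
  have hR := hV.one_le
  have hnn : 0 ≤ ∫ x in (0:ℝ)..R, |k x| :=
    intervalIntegral.integral_nonneg (by linarith) fun x _ => abs_nonneg _
  by_cases hr : r ∈ V
  · refine (LL_bound hV hk hC hr ω).trans ?_
    apply mul_le_mul_of_nonneg_left _ hC0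
    apply intervalIntegral.integral_mono_interval le_rfl (exit_pos hV hr ω).le (exit_le hV hr ω)
    · filter_upwards with x; exact abs_nonneg _
    · exact (hk.abs).intervalIntegrable _ _
  · rw [LL_out hV hr, abs_zero]; positivity

lemma int_LL {k : ℝ → ℝ} (hk : Continuous k) {Φ : E3 → ℝ} (hΦ : BM Φ) (r : E3) :
    Integrable (fun ω => LL V R k Φ (r, ω)) sig := by
  obtain ⟨hm, C, hC⟩ := hΦ
  have hC0 : 0 ≤ C := (abs_nonneg _).trans (hC 0)
  have h1 : Measurable (fun ω => LL V R k Φ (r, ω)) :=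
    (meas_LL hV hk.measurable hm).comp (measurable_const.prodMk measurable_id)
  refine Integrable.of_bound (C := C * ∫ x in (0:ℝ)..R, |k x|) h1.aestronglyMeasurable ?_
  filter_upwards with ω
  exact LL_bdd hV hk (fun x _ => hC x) hC0 _

lemma AA_bound_of {k : ℝ → ℝ} {Φ : E3 → ℝ} {B : S2 → ℝ}
    (hB : Integrable B sig) (r : E3) (h : ∀ ω, |LL V R k Φ (r, ω)| ≤ B ω) :
    |AA V R k Φ r| ≤ (4 * Real.pi)⁻¹ * ∫ ω, B ω ∂sig := by
  unfold AA
  rw [abs_mul, abs_of_pos (by positivity)]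
  apply mul_le_mul_of_nonneg_left _ (by positivity)
  rw [← Real.norm_eq_abs]
  exact norm_integral_le_of_norm_le hB (by filter_upwards with ω; exact h ω)

lemma AA_bound_const {k : ℝ → ℝ} {Φ : E3 → ℝ} {B : ℝ} (r : E3)
    (h : ∀ ω, |LL V R k Φ (r, ω)| ≤ B) : |AA V R k Φ r| ≤ B := by
  have := AA_bound_of hV (B := fun _ => B) (integrable_const B) r h
  rw [integral_const, sig_univ, smul_eq_mul] at this
  rwa [← mul_assoc, inv_mul_cancel₀ (by positivity), one_mul] at this

lemma AA_add {k : ℝ → ℝ} (hk : Continuous k) {Φ Ψ : E3 → ℝ} (hΦ : BM Φ) (hΨ : BM Ψ) (r : E3) :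
    AA V R k (fun x => Φ x + Ψ x) r = AA V R k Φ r + AA V R k Ψ r := by
  unfold AA
  rw [← mul_add, ← integral_add (int_LL hV hk hΦ r) (int_LL hV hk hΨ r)]
  congr 2; ext ω; exact LL_add hV hk hΦ hΨ _

lemma AA_smul {k : ℝ → ℝ} (c : ℝ) (Φ : E3 → ℝ) (r : E3) :
    AA V R k (fun x => c * Φ x) r = c * AA V R k Φ r := by
  unfold AA
  simp only [LL_smul hV c Φ, integral_const_mul]
  ring

lemma AA_kadd {k l : ℝ → ℝ} (hk : Continuous k) (hl : Continuous l) {Φ : E3 → ℝ} (hΦ : BM Φ)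
    (r : E3) : AA V R (fun x => k x + l x) Φ r = AA V R k Φ r + AA V R l Φ r := by
  unfold AA
  rw [← mul_add, ← integral_add (int_LL hV hk hΦ r) (int_LL hV hl hΦ r)]
  congr 2; ext ω; exact LL_kadd hV hk hl hΦ _

lemma AA_ksmul (k : ℝ → ℝ) (c : ℝ) (Φ : E3 → ℝ) (r : E3) :
    AA V R (fun x => c * k x) Φ r = c * AA V R k Φ r := by
  unfold AA
  simp only [LL_ksmul hV k c Φ, integral_const_mul]
  ring

lemma AA_out {k : ℝ → ℝ} {Φ : E3 → ℝ} {r : E3} (hr : r ∉ V) : AA V R k Φ r = 0 := by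
  unfold AA
  simp [LL_out hV hr]

lemma BM_AA {k : ℝ → ℝ} (hk : Continuous k) {Φ : E3 → ℝ} (hΦ : BM Φ) : BM (AA V R k Φ) := by
  refine ⟨meas_AA hV hk.measurable hΦ.1, ?_⟩
  obtain ⟨hm, C, hC⟩ := hΦ
  have hC0 : 0 ≤ C := (abs_nonneg _).trans (hC 0)
  exact ⟨C * ∫ x in (0:ℝ)..R, |k x|, fun r => AA_bound_const hV r
    fun ω => LL_bdd hV hk (fun x _ => hC x) hC0 _⟩

end ops

/-- the kernels -/
def kk (lam : ℝ) (x : ℝ) : ℝ := lam * Real.exp (-(lam * x))

lemma cont_kk (lam : ℝ) : Continuous (kk lam) := by unfold kk; fun_prop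

lemma kk_nonneg {lam : ℝ} (h : 0 ≤ lam) (x : ℝ) : 0 ≤ kk lam x := by unfold kk; positivity

lemma int_kk (lam a b : ℝ) : ∫ x in a..b, kk lam x = Real.exp (-(lam * a)) - Real.exp (-(lam * b)) := by
  have h : ∀ x ∈ uIcc a b, HasDerivAt (fun y => - Real.exp (-(lam * y))) (kk lam x) x := by
    intro x _
    have h1 : HasDerivAt (fun y : ℝ => -(lam * y)) (-(lam * 1)) x := ((hasDerivAt_id x).const_mul lam).neg
    have h2 := (h1.exp).neg
    refine h2.congr_deriv ?_
    unfold kk; ring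
  rw [intervalIntegral.integral_eq_sub_of_hasDerivAt h ((cont_kk lam).intervalIntegrable _ _)]
  ring

lemma int_abs_kk {lam : ℝ} (h : 0 ≤ lam) (b : ℝ) :
    ∫ x in (0:ℝ)..b, |kk lam x| = 1 - Real.exp (-(lam * b)) := by
  have : (fun x => |kk lam x|) = kk lam := by
    ext x; exact abs_of_nonneg (kk_nonneg h x)
  rw [this, int_kk]; simp

section fixedpoint

variable (hV : Dom V R)
include hV

/-- contraction estimate for `AA (kk lam)` -/
lemma AA_contr {lam : ℝ} (hl : 0 < lam) {Φ : E3 → ℝ} {C : ℝ} (hC0 : 0 ≤ C)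
    (hC : ∀ x ∈ V, |Φ x| ≤ C) (r : E3) :
    |AA V R (kk lam) Φ r| ≤ (1 - Real.exp (-(lam * R))) * C := by
  apply AA_bound_const hV
  intro ω
  have := LL_bdd hV (cont_kk lam) hC hC0 (r, ω)
  rw [int_abs_kk hl.le] at this
  linarith

lemma exists_fix {lam : ℝ} (hl : 0 < lam) {s : E3 → ℝ} (hs : BM s) :
    ∃ φ, BM φ ∧ ∀ r, φ r = s r + AA V R (kk lam) φ r := by
  obtain ⟨hsm, Cs, hCs⟩ := hs
  have hCs0 : 0 ≤ Cs := (abs_nonneg _).trans (hCs 0)
  set κ := 1 - Real.exp (-(lam * R)) with hκ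
  have hκ1 : κ < 1 := by rw [hκ]; linarith [Real.exp_pos (-(lam * R))]
  have hR := hV.one_le
  have hκ0 : 0 ≤ κ := by
    rw [hκ]; have : Real.exp (-(lam * R)) ≤ 1 := Real.exp_le_one_iff.2 (by nlinarith)
    linarith
  -- the iteration
  let F : (E3 → ℝ) → (E3 → ℝ) := fun φ r => s r + AA V R (kk lam) φ r
  let it : ℕ → (E3 → ℝ) := fun n => F^[n] (fun _ => 0)
  have hit : ∀ n, it (n+1) = F (it n) := fun n => Function.iterate_succ_apply' F n _
  have hFBM : ∀ φ, BM φ → BM (F φ) := by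
    intro φ hφ
    obtain ⟨h1, C, h2⟩ := BM_AA hV (cont_kk lam) hφ
    exact ⟨hsm.add h1, Cs + C, fun x => (abs_add_le _ _).trans (add_le_add (hCs x) (h2 x))⟩
  have hBM : ∀ n, BM (it n) := by
    intro n
    induction n with
    | zero => exact ⟨measurable_const, 0, fun x => by simp [it]⟩
    | succ n ih => rw [hit]; exact hFBM _ ih
  have hdiff : ∀ φ ψ, BM φ → BM ψ → ∀ C, 0 ≤ C → (∀ x, |φ x - ψ x| ≤ C) →
      ∀ x, |F φ x - F ψ x| ≤ κ * C := by
    intro φ ψ hφ hψ C hC0 hC x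
    have e : F φ x - F ψ x = AA V R (kk lam) (fun y => φ y + (-1) * ψ y) x := by
      have hψ' : BM (fun y => (-1) * ψ y) := by
        obtain ⟨h1, C, h2⟩ := hψ
        exact ⟨h1.const_mul _, C, fun y => by simpa using h2 y⟩
      rw [AA_add hV (cont_kk lam) hφ hψ', AA_smul hV]
      simp only [F]; ring
    rw [e]
    apply AA_contr hV hl hC0
    intro y _
    have := hC y
    rwa [show φ y + (-1) * ψ y = φ y - ψ y by ring]
  have hstep : ∀ n x, |it (n+1) x - it n x| ≤ Cs * κ ^ n := by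
    intro n
    induction n with
    | zero =>
      intro x
      rw [hit]
      have e : F (it 0) x = s x := by
        simp only [F, it, Function.iterate_zero, id_eq]
        have : AA V R (kk lam) (fun _ => 0) x = 0 := by
          have := AA_smul hV (k := kk lam) 0 (fun _ => 0) x
          simpa using this
        rw [this, add_zero]
      rw [e]
      simpa [it] using hCs x
    | succ n ih =>
      intro x
      rw [hit (n+1), hit n]
      have := hdiff _ _ (hBM (n+1)) (hBM n) (Cs * κ ^ n) (by positivity) ih x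
      rw [hit n] at this
      calc _ ≤ κ * (Cs * κ ^ n) := this
        _ = Cs * κ ^ (n+1) := by ring
  have hdist : ∀ x n, dist (it n x) (it (n+1) x) ≤ Cs * κ ^ n := by
    intro x n
    rw [dist_comm, Real.dist_eq]; exact hstep n x
  have hcau : ∀ x, CauchySeq (fun n => it n x) := fun x =>
    cauchySeq_of_le_geometric κ Cs hκ1 (hdist x)
  choose φ hφ using fun x => cauchySeq_tendsto_of_complete (hcau x)
  have hφd : ∀ x n, dist (it n x) (φ x) ≤ Cs * κ ^ n / (1 - κ) := fun x n =>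
    dist_le_of_le_geometric_of_tendsto κ Cs hκ1 (hdist x) (hφ x) n
  have hφBM : BM φ := by
    refine ⟨measurable_of_tendsto_metrizable (fun n => (hBM n).1) (tendsto_pi_nhds.2 hφ),
      Cs / (1 - κ), fun x => ?_⟩
    have := hφd x 0
    simp only [it, Function.iterate_zero, id_eq, pow_zero, mul_one] at this
    rwa [dist_comm, Real.dist_eq, sub_zero] at this
  refine ⟨φ, hφBM, fun r => ?_⟩
  -- `φ r = F φ r`
  have h1 : ∀ n, |F φ r - φ r| ≤ κ * (Cs * κ ^ n / (1 - κ)) + Cs * κ ^ (n+1) / (1 - κ) := by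
    intro n
    have a1 := hdiff φ (it n) hφBM (hBM n) (Cs * κ ^ n / (1 - κ))
      (by have : 0 < 1 - κ := by linarith
          positivity)
      (fun x => by rw [← Real.dist_eq, dist_comm]; exact hφd x n) r
    have a2 := hφd r (n+1)
    rw [Real.dist_eq, hit] at a2
    calc |F φ r - φ r| = |(F φ r - F (it n) r) + (F (it n) r - φ r)| := by ring_nf
      _ ≤ _ := abs_add_le _ _
      _ ≤ _ := add_le_add a1 a2
  have hlim : Tendsto (fun n : ℕ => κ * (Cs * κ ^ n / (1 - κ)) + Cs * κ ^ (n+1) / (1 - κ)) atTop (𝓝 0) := by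
    have hp := tendsto_pow_atTop_nhds_zero_of_lt_one hκ0 hκ1
    have hp1 := hp.comp (tendsto_add_atTop_nat 1)
    have a1 := ((hp.const_mul Cs).div_const (1 - κ)).const_mul κ
    have a2 := (hp1.const_mul Cs).div_const (1 - κ)
    have := a1.add a2
    simpa using this
  have h0 : |F φ r - φ r| ≤ 0 := ge_of_tendsto' hlim h1
  have := abs_nonpos_iff.1 h0
  change φ r = F φ r
  linarith

end fixedpoint

end

end Q65.Trans
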