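import Mathlib
import Pool.Agent.Q65.TransA

/-!
# Solutions of the transport equation: existence, uniqueness, differentiability in the parameter
-/

set_option linter.unusedSectionVars false

namespace Q65.Trans

open Set MeasureTheory Filter Topology Metric
open scoped NNReal ENNReal

noncomputable section

variable {V : Set E3} {R : ℝ}

/-- a self-improving bound -/
lemma self_improve {α : Type*} {s : Set α} {f : α → ℝ} {E0 κ b : ℝ} (hE0 : 0 ≤ E0) (hκ : 0 ≤ κ)
    (hκ1 : κ < 1) (hb : 0 ≤ b) (h0 : ∀ x ∈ s, |f x| ≤ E0)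
    (h : ∀ E, 0 ≤ E → (∀ x ∈ s, |f x| ≤ E) → ∀ x ∈ s, |f x| ≤ κ * E + b) :
    ∀ x ∈ s, |f x| ≤ b / (1 - κ) := by
  have h1 : 0 < 1 - κ := by linarith
  have key : ∀ n : ℕ, ∀ x ∈ s, |f x| ≤ κ ^ n * E0 + b / (1 - κ) := by
    intro n
    induction n with
    | zero =>
      intro x hx
      have := h0 x hx
      have : 0 ≤ b / (1 - κ) := by positivity
      simp only [pow_zero, one_mul]; linarith [h0 x hx]
    | succ n ih =>
      intro x hx
      have := h _ (by positivity) ih x hx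
      calc |f x| ≤ _ := this
        _ = κ ^ (n+1) * E0 + b / (1 - κ) := by field_simp; ring
  intro x hx
  have hlim : Tendsto (fun n : ℕ => κ ^ n * E0 + b / (1 - κ)) atTop (𝓝 (0 * E0 + b / (1 - κ))) :=
    ((tendsto_pow_atTop_nhds_zero_of_lt_one hκ hκ1).mul_const E0).add_const _
  rw [zero_mul, zero_add] at hlim
  exact ge_of_tendsto' hlim fun n => key n x hx

lemma BM_one : BM (fun _ => (1:ℝ)) := ⟨measurable_const, 1, fun x => by simp⟩

/-- the derivative kernel at `lam = 1` -/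
def kd (x : ℝ) : ℝ := (1 - x) * Real.exp (-x)

lemma cont_kd : Continuous kd := by unfold kd; fun_prop

section

variable (hV : Dom V R)
include hV

/-- the averaged source -/
def src (V : Set E3) (R : ℝ) : E3 → ℝ := AA V R (kk 1) (fun _ => 1)

lemma LL_one {r : E3} (hr : r ∈ V) (ω : S2) :
    LL V R (kk 1) (fun _ => 1) (r, ω) = 1 - Real.exp (-(exitD V r ω)) := by
  rw [LL_eq hV hr]
  simp only [mul_one]
  rw [int_kk]; simp

lemma BM_src : BM (src V R) := BM_AA hV (cont_kk 1) BM_one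

/-- a solution of the averaged equation -/
structure IsPhi (V : Set E3) (R lam : ℝ) (φ : E3 → ℝ) : Prop where
  bm : BM φ
  eq : ∀ r, φ r = src V R r + AA V R (kk lam) φ r

lemma exists_phi {lam : ℝ} (hl : 0 < lam) : ∃ φ, IsPhi V R lam φ := by
  obtain ⟨φ, h1, h2⟩ := exists_fix hV hl (BM_src hV)
  exact ⟨φ, h1, h2⟩

/-- the phase-space solution attached to `φ` -/
def Msol (V : Set E3) (R lam : ℝ) (φ : E3 → ℝ) (r : E3) (ω : S2) : ℝ :=
  LL V R (kk 1) (fun _ => 1) (r, ω) + LL V R (kk lam) φ (r, ω)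

lemma avg_Msol {lam : ℝ} {φ : E3 → ℝ} (hφ : IsPhi V R lam φ) (r : E3) :
    ∫ ω, Msol V R lam φ r ω ∂sig = (4 * Real.pi) * φ r := by
  unfold Msol
  rw [integral_add (int_LL hV (cont_kk 1) BM_one r) (int_LL hV (cont_kk lam) hφ.bm r)]
  have h1 := hφ.eq r
  unfold src AA at h1
  rw [h1]
  have : (4 * Real.pi) ≠ 0 := by positivity
  field_simp

lemma isSol_Msol {lam : ℝ} (hl : 0 < lam) {φ : E3 → ℝ} (hφ : IsPhi V R lam φ) :
    IsSol V lam (Msol V R lam φ) := by
  obtain ⟨hφm, C, hC⟩ := hφ.bm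
  have hC0 : 0 ≤ C := (abs_nonneg _).trans (hC 0)
  refine ⟨?_, ?_, ?_⟩
  · exact (meas_LL hV (cont_kk 1).measurable measurable_const).add
      (meas_LL hV (cont_kk lam).measurable hφm)
  · refine ⟨1 * (∫ x in (0:ℝ)..R, |kk 1 x|) + C * ∫ x in (0:ℝ)..R, |kk lam x|, fun r ω => ?_⟩
    exact (abs_add_le _ _).trans (add_le_add
      (LL_bdd hV (cont_kk 1) (fun x _ => by simp) zero_le_one _)
      (LL_bdd hV (cont_kk lam) (fun x _ => hC x) hC0 _))
  · intro r hr ω
    unfold Msol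
    rw [LL_one hV hr, LL_eq hV hr]
    congr 1
    rw [← intervalIntegral.integral_const_mul]
    congr 1
    ext x
    have := avg_Msol hV hφ (r + x • (ω:E3))
    unfold Msol at this
    rw [this]
    unfold kk
    have : (4 * Real.pi) ≠ 0 := by positivity
    field_simp

lemma kappa_mem {lam : ℝ} (hl : 0 < lam) :
    0 ≤ 1 - Real.exp (-(lam * R)) ∧ 1 - Real.exp (-(lam * R)) < 1 := by
  have hR := hV.one_le
  constructor
  · have : Real.exp (-(lam * R)) ≤ 1 := Real.exp_le_one_iff.2 (by nlinarith)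
    linarith
  · linarith [Real.exp_pos (-(lam * R))]

/-- uniqueness of bounded measurable solutions -/
theorem sol_unique {lam : ℝ} (hl : 0 < lam) {M N : E3 → S2 → ℝ} (hM : IsSol V lam M)
    (hN : IsSol V lam N) : ∀ r ∈ V, ∀ ω, M r ω = N r ω := by
  obtain ⟨CM, hCM⟩ := hM.bdd
  obtain ⟨CN, hCN⟩ := hN.bdd
  have hpi : 0 < 4 * Real.pi := by positivity
  have hMi : ∀ r, Integrable (fun ω => M r ω) sig := fun r => by
    refine Integrable.of_bound (C := CM) ?_ ?_
    · exact (hM.meas.comp (measurable_const.prodMk measurable_id)).aestronglyMeasurable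
    · filter_upwards with ω; exact hCM r ω
  have hNi : ∀ r, Integrable (fun ω => N r ω) sig := fun r => by
    refine Integrable.of_bound (C := CN) ?_ ?_
    · exact (hN.meas.comp (measurable_const.prodMk measurable_id)).aestronglyMeasurable
    · filter_upwards with ω; exact hCN r ω
  set ψ : E3 → ℝ := fun r => (4 * Real.pi)⁻¹ * ∫ ω, (M r ω - N r ω) ∂sig with hψ
  have hψm : Measurable ψ := by
    have h1 : Measurable (fun q : E3 × S2 => M q.1 q.2 - N q.1 q.2) := hM.meas.sub hN.meas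
    exact (h1.stronglyMeasurable.integral_prod_right' (ν := sig)).measurable.const_mul _
  have hψb : ∀ r, |ψ r| ≤ CM + CN := by
    intro r
    simp only [hψ]
    rw [abs_mul, abs_of_pos (inv_pos.2 hpi), ← Real.norm_eq_abs (∫ ω, (M r ω - N r ω) ∂sig)]
    have h2 : ‖∫ ω, (M r ω - N r ω) ∂sig‖ ≤ (CM + CN) * sig.real univ := by
      apply norm_integral_le_of_norm_le_const
      filter_upwards with ω
      exact (norm_sub_le _ _).trans (add_le_add (hCM r ω) (hCN r ω))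
    rw [sig_univ] at h2
    rw [inv_mul_le_iff₀ hpi]; linarith
  have hC0 : 0 ≤ CM + CN := (abs_nonneg _).trans (hψb 0)
  have hψBM : BM ψ := ⟨hψm, _, hψb⟩
  have hdiff : ∀ r ∈ V, ∀ ω, M r ω - N r ω = LL V R (kk lam) ψ (r, ω) := by
    intro r hr ω
    rw [hM.eq r hr ω, hN.eq r hr ω, LL_eq hV hr]
    have hmi : ∀ (K : E3 → S2 → ℝ), IsSol V lam K →
        IntervalIntegrable (fun x => Real.exp (-(lam * x)) * ∫ ω', K (r + x • (ω:E3)) ω' ∂sig)
          volume 0 (exitD V r ω) := by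
      intro K hK
      obtain ⟨CK, hCK⟩ := hK.bdd
      have hc : Continuous (fun x : ℝ => Real.exp (-(lam * x))) := by fun_prop
      rw [intervalIntegrable_iff_integrableOn_Ioc_of_le (exit_pos hV hr ω).le]
      apply Integrable.mul_bdd (c := CK * sig.real univ) (hc.integrableOn_Ioc)
      · have h1 := (hK.meas.stronglyMeasurable.integral_prod_right' (ν := sig)).measurable
        have h2 : Measurable (fun x : ℝ => r + x • (ω:E3)) := Continuous.measurable (by fun_prop)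
        exact (h1.comp h2).aestronglyMeasurable
      · filter_upwards with x
        apply norm_integral_le_of_norm_le_const
        filter_upwards with ω'
        exact hCK _ _
    have e : ∀ a b : ℝ, (1 - Real.exp (-(exitD V r ω)) + a) - (1 - Real.exp (-(exitD V r ω)) + b) = a - b := by
      intro a b; ring
    rw [e, ← mul_sub, ← intervalIntegral.integral_sub (hmi M hM) (hmi N hN),
      ← intervalIntegral.integral_const_mul]
    congr 1
    ext x
    simp only [hψ]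
    rw [integral_sub (hMi _) (hNi _)]
    unfold kk
    field_simp
  have hκ := kappa_mem hV hl
  have hz : ∀ r ∈ V, |ψ r| ≤ 0 / (1 - (1 - Real.exp (-(lam * R)))) := by
    apply self_improve hC0 hκ.1 hκ.2 le_rfl (fun x _ => hψb x)
    intro E hE hbd x hx
    have e1 : ψ x = AA V R (kk lam) ψ x := by
      unfold AA
      conv_lhs => simp only [hψ]
      congr 1
      congr 1
      ext ω
      exact hdiff x hx ω
    rw [e1, add_zero]
    exact AA_contr hV hl hE hbd x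
  have hz' : ∀ r ∈ V, ψ r = 0 := by
    intro r hr
    have := hz r hr
    rw [zero_div] at this
    exact abs_nonpos_iff.1 this
  intro r hr ω
  have h1 := hdiff r hr ω
  have h2 := LL_bound hV (cont_kk lam) (Φ := ψ) (C := 0) (fun x hx => by rw [hz' x hx]; simp) hr ω
  rw [zero_mul] at h2
  have h3 := abs_nonpos_iff.1 h2
  linarith

/-- derivative of the averaged solution at `lam = 1` -/
structure IsPhi' (V : Set E3) (R : ℝ) (φ φ' : E3 → ℝ) : Prop where
  bm : BM φ'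
  eq : ∀ r, φ' r = AA V R kd φ r + AA V R (kk 1) φ' r

lemma exists_phi' {φ : E3 → ℝ} (hφ : BM φ) : ∃ φ', IsPhi' V R φ φ' := by
  obtain ⟨φ', h1, h2⟩ := exists_fix hV one_pos (BM_AA hV cont_kd hφ)
  exact ⟨φ', h1, h2⟩

def Md (V : Set E3) (R : ℝ) (φ φ' : E3 → ℝ) (r : E3) (ω : S2) : ℝ :=
  LL V R kd φ (r, ω) + LL V R (kk 1) φ' (r, ω)

lemma LL_sup {k : ℝ → ℝ} (hk : Continuous k) {K : ℝ} (hK : ∀ x ∈ Icc 0 R, |k x| ≤ K)
    {Φ : E3 → ℝ} {C : ℝ} (hC : ∀ x, |Φ x| ≤ C) (q : E3 × S2) : |LL V R k Φ q| ≤ C * (K * R) := by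
  have hC0 : 0 ≤ C := (abs_nonneg _).trans (hC 0)
  have hR := hV.one_le
  refine (LL_bdd hV hk (fun x _ => hC x) hC0 q).trans ?_
  apply mul_le_mul_of_nonneg_left _ hC0
  have : ∫ x in (0:ℝ)..R, |k x| ≤ ∫ x in (0:ℝ)..R, K := by
    apply intervalIntegral.integral_mono_on (by linarith) (hk.abs.intervalIntegrable _ _)
      (by simp)
    exact hK
  refine this.trans ?_
  rw [intervalIntegral.integral_const, smul_eq_mul, sub_zero, mul_comm]

lemma kernel_est {h : ℝ} (hh : |h| * R ≤ 1) {x : ℝ} (hx : x ∈ Icc 0 R) :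
    |kk (1 + h) x + ((-1) * kk 1 x + (-h) * kd x)| ≤ 3 * R ^ 2 * h ^ 2 ∧
    |kk (1 + h) x + (-1) * kk 1 x| ≤ 6 * R ^ 2 * |h| := by
  have hR := hV.one_le
  have hh1 : |h| ≤ 1 := by nlinarith [abs_nonneg h]
  have hhx : |-(h * x)| ≤ 1 := by
    rw [abs_neg, abs_mul, abs_of_nonneg hx.1]
    calc |h| * x ≤ |h| * R := mul_le_mul_of_nonneg_left hx.2 (abs_nonneg _)
      _ ≤ 1 := hh
  have hρ := Real.abs_exp_sub_one_sub_id_le hhx
  set ρ := Real.exp (-(h * x)) - 1 - -(h * x) with hρd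
  have e0 : Real.exp (-((1 + h) * x)) = Real.exp (-x) * (1 - h * x + ρ) := by
    rw [hρd]
    have : -((1 + h) * x) = -x + -(h * x) := by ring
    rw [this, Real.exp_add]; ring
  have e1 : kk (1 + h) x + ((-1) * kk 1 x + (-h) * kd x) = Real.exp (-x) * (-(h ^ 2 * x) + (1 + h) * ρ) := by
    unfold kk kd
    rw [e0, one_mul]; ring
  have hex : Real.exp (-x) ≤ 1 := Real.exp_le_one_iff.2 (by linarith [hx.1])
  have hex0 := Real.exp_pos (-x)
  have hsq : (-(h * x)) ^ 2 = h ^ 2 * x ^ 2 := by ring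
  rw [hsq] at hρ
  have hx2 : x ^ 2 ≤ R ^ 2 := pow_le_pow_left₀ hx.1 hx.2 2
  have hxR : x ≤ R ^ 2 := by nlinarith [hx.1, hx.2]
  have h2nn : 0 ≤ h ^ 2 := sq_nonneg h
  have k1 : |kk (1 + h) x + ((-1) * kk 1 x + (-h) * kd x)| ≤ 3 * R ^ 2 * h ^ 2 := by
    rw [e1, abs_mul, abs_of_pos hex0]
    have a1 : |-(h ^ 2 * x) + (1 + h) * ρ| ≤ h ^ 2 * x + 2 * (h ^ 2 * x ^ 2) := by
      refine (abs_add_le _ _).trans ?_
      rw [abs_neg, abs_of_nonneg (by have := hx.1; positivity), abs_mul]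
      have : |1 + h| ≤ 2 := by
        refine (abs_add_le _ _).trans ?_
        rw [abs_one]; linarith
      have := mul_le_mul this hρ (abs_nonneg _) (by norm_num)
      linarith
    have a2 : h ^ 2 * x + 2 * (h ^ 2 * x ^ 2) ≤ 3 * R ^ 2 * h ^ 2 := by nlinarith
    calc Real.exp (-x) * |-(h ^ 2 * x) + (1 + h) * ρ| ≤ 1 * (3 * R ^ 2 * h ^ 2) :=
          mul_le_mul hex (a1.trans a2) (abs_nonneg _) zero_le_one
      _ = _ := one_mul _
  refine ⟨k1, ?_⟩
  have e2 : kk (1 + h) x + (-1) * kk 1 x =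
      (kk (1 + h) x + ((-1) * kk 1 x + (-h) * kd x)) + h * kd x := by ring
  rw [e2]
  have a3 : |kd x| ≤ 1 + R := by
    unfold kd
    rw [abs_mul, abs_of_pos hex0]
    have : |1 - x| ≤ 1 + R := by rw [abs_le]; constructor <;> linarith [hx.1, hx.2]
    calc |1 - x| * Real.exp (-x) ≤ (1 + R) * 1 := mul_le_mul this hex hex0.le (by linarith)
      _ = _ := mul_one _
  refine (abs_add_le _ _).trans ?_
  rw [abs_mul]
  have a4 : h ^ 2 ≤ |h| := by
    rw [← sq_abs]; nlinarith [abs_nonneg h]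
  have a5 : |h| * |kd x| ≤ |h| * (1 + R) := mul_le_mul_of_nonneg_left a3 (abs_nonneg _)
  have a6 : 3 * R ^ 2 * h ^ 2 ≤ 3 * R ^ 2 * |h| := mul_le_mul_of_nonneg_left a4 (by positivity)
  have a7 : (1 + R) ≤ 2 * R ^ 2 := by nlinarith
  have a8 : |h| * (1 + R) ≤ 2 * R ^ 2 * |h| := by
    rw [mul_comm]; exact mul_le_mul_of_nonneg_right a7 (abs_nonneg _)
  have a9 : 0 ≤ R ^ 2 * |h| := by positivity
  linarith

omit hV in
lemma int4 (h : ℝ) {a b c d : S2 → ℝ} (ha : Integrable a sig) (hb : Integrable b sig)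
    (hc : Integrable c sig) (hd : Integrable d sig) :
    ∫ ω, (a ω - b ω - h * (c ω + d ω)) ∂sig =
      (∫ ω, a ω ∂sig) - (∫ ω, b ω ∂sig) - h * ((∫ ω, c ω ∂sig) + ∫ ω, d ω ∂sig) := by
  have e1 : ∫ ω, (a ω - b ω - h * (c ω + d ω)) ∂sig =
      (∫ ω, (a ω - b ω) ∂sig) - ∫ ω, h * (c ω + d ω) ∂sig :=
    integral_sub (f := fun ω => a ω - b ω) (g := fun ω => h * (c ω + d ω)) (ha.sub hb)
      ((hc.add hd).const_mul h)
  rw [e1, integral_sub ha hb, integral_const_mul, integral_add hc hd]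

/-- differentiability in the parameter -/
theorem hasDeriv_M {φ : ℝ → E3 → ℝ} (hφ : ∀ lam, 0 < lam → IsPhi V R lam (φ lam)) {φ' : E3 → ℝ}
    (hφ' : IsPhi' V R (φ 1) φ') (r : E3) (ω : S2) :
    HasDerivAt (fun lam => Msol V R lam (φ lam) r ω) (Md V R (φ 1) φ' r ω) 1 := by
  have hR := hV.one_le
  obtain ⟨C1, hC1⟩ := (hφ 1 one_pos).bm.2
  obtain ⟨C2, hC2⟩ := hφ'.bm.2
  have hC10 : 0 ≤ C1 := (abs_nonneg _).trans (hC1 0)
  have hC20 : 0 ≤ C2 := (abs_nonneg _).trans (hC2 0)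
  have hBMs : ∀ (c : ℝ) (Φ : E3 → ℝ), BM Φ → BM (fun x => c * Φ x) := by
    rintro c Φ ⟨h1, C, h2⟩
    refine ⟨h1.const_mul _, |c| * C, fun y => ?_⟩
    rw [abs_mul]; exact mul_le_mul_of_nonneg_left (h2 y) (abs_nonneg _)
  have hBMa : ∀ (Φ Ψ : E3 → ℝ), BM Φ → BM Ψ → BM (fun x => Φ x + Ψ x) := by
    rintro Φ Ψ ⟨h1, C, h2⟩ ⟨h3, D, h4⟩
    exact ⟨h1.add h3, C + D, fun y => (abs_add_le _ _).trans (add_le_add (h2 y) (h4 y))⟩
  set B : ℝ := C1 * (3 * R ^ 2 * R) + C2 * (6 * R ^ 2 * R) with hB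
  have hB0 : 0 ≤ B := by positivity
  -- the quadratic estimate
  have quad : ∀ h : ℝ, |h| * R ≤ 1 → |h| ≤ 1/2 →
      |Msol V R (1+h) (φ (1+h)) r ω - Msol V R 1 (φ 1) r ω - h * Md V R (φ 1) φ' r ω|
        ≤ (B * h ^ 2) / Real.exp (-(2 * R)) + B * h ^ 2 := by
    intro h hh hh2
    have hlpos : 0 < 1 + h := by have := neg_abs_le h; linarith
    have hl2 : 1 + h ≤ 2 := by have := le_abs_self h; linarith
    set e : E3 → ℝ := fun x => φ (1+h) x + ((-1) * φ 1 x + (-h) * φ' x) with he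
    have hφh := (hφ (1+h) hlpos)
    have hφ1 := (hφ 1 one_pos)
    have hBMe : BM e := hBMa _ _ hφh.bm (hBMa _ _ (hBMs _ _ hφ1.bm) (hBMs _ _ hφ'.bm))
    set k1 : ℝ → ℝ := fun x => kk (1+h) x + ((-1) * kk 1 x + (-h) * kd x) with hk1
    set k2 : ℝ → ℝ := fun x => kk (1+h) x + (-1) * kk 1 x with hk2
    have c0 := cont_kk (1+h)
    have c1 := cont_kk 1
    have c2 := cont_kd
    have c3 : Continuous (fun x => (-1) * kk 1 x) := c1.const_mul _
    have c4 : Continuous (fun x => (-h) * kd x) := c2.const_mul _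
    have c5 : Continuous (fun x => (-1) * kk 1 x + (-h) * kd x) := c3.add c4
    have ck1 : Continuous k1 := c0.add c5
    have ck2 : Continuous k2 := c0.add c3
    -- the algebraic identity for LL
    have idL : ∀ q, LL V R (kk (1+h)) (φ (1+h)) q - LL V R (kk 1) (φ 1) q
        - h * (LL V R kd (φ 1) q + LL V R (kk 1) φ' q)
        = LL V R (kk (1+h)) e q + LL V R k1 (φ 1) q + h * LL V R k2 φ' q := by
      intro q
      have i1 : LL V R (kk (1+h)) e q = LL V R (kk (1+h)) (φ (1+h)) q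
          + ((-1) * LL V R (kk (1+h)) (φ 1) q + (-h) * LL V R (kk (1+h)) φ' q) := by
        simp only [he]
        rw [LL_add hV c0 hφh.bm (hBMa _ _ (hBMs _ _ hφ1.bm) (hBMs _ _ hφ'.bm)),
          LL_add hV c0 (hBMs _ _ hφ1.bm) (hBMs _ _ hφ'.bm), LL_smul hV, LL_smul hV]
      have i2 : LL V R k1 (φ 1) q = LL V R (kk (1+h)) (φ 1) q
          + ((-1) * LL V R (kk 1) (φ 1) q + (-h) * LL V R kd (φ 1) q) := by
        simp only [hk1]
        rw [LL_kadd hV c0 c5 hφ1.bm, LL_kadd hV c3 c4 hφ1.bm, LL_ksmul hV, LL_ksmul hV]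
      have i3 : LL V R k2 φ' q = LL V R (kk (1+h)) φ' q + (-1) * LL V R (kk 1) φ' q := by
        simp only [hk2]
        rw [LL_kadd hV c0 c3 hφ'.bm, LL_ksmul hV]
      rw [i1, i2, i3]; ring
    have b1 : ∀ q, |LL V R k1 (φ 1) q| ≤ C1 * ((3 * R ^ 2 * h ^ 2) * R) := fun q =>
      LL_sup hV ck1 (fun x hx => (kernel_est hV hh hx).1) hC1 q
    have b2 : ∀ q, |LL V R k2 φ' q| ≤ C2 * ((6 * R ^ 2 * |h|) * R) := fun q =>
      LL_sup hV ck2 (fun x hx => (kernel_est hV hh hx).2) hC2 q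
    have b3 : ∀ q, |LL V R k1 (φ 1) q + h * LL V R k2 φ' q| ≤ B * h ^ 2 := by
      intro q
      refine (abs_add_le _ _).trans ?_
      rw [abs_mul]
      have := mul_le_mul_of_nonneg_left (b2 q) (abs_nonneg h)
      have h3 : |h| * |h| = h ^ 2 := by rw [← sq, sq_abs]
      calc _ ≤ C1 * ((3 * R ^ 2 * h ^ 2) * R) + |h| * (C2 * ((6 * R ^ 2 * |h|) * R)) :=
            add_le_add (b1 q) this
        _ = C1 * (3 * R ^ 2 * R) * h ^ 2 + C2 * (6 * R ^ 2 * R) * (|h| * |h|) := by ring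
        _ = B * h ^ 2 := by rw [h3, hB]; ring
    -- equation for `e`
    have ide : ∀ x, e x = AA V R (kk (1+h)) e x +
        (4 * Real.pi)⁻¹ * ∫ ω, (LL V R k1 (φ 1) (x, ω) + h * LL V R k2 φ' (x, ω)) ∂sig := by
      intro x
      have i0 : e x = AA V R (kk (1+h)) (φ (1+h)) x - AA V R (kk 1) (φ 1) x
          - h * (AA V R kd (φ 1) x + AA V R (kk 1) φ' x) := by
        simp only [he]
        rw [hφh.eq x, hφ'.eq x]
        have := hφ1.eq x
        linarith
      rw [i0]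
      unfold AA
      have j1 := int_LL hV c0 hφh.bm x
      have j2 := int_LL hV c1 hφ1.bm x
      have j3 := int_LL hV c2 hφ1.bm x
      have j4 := int_LL hV c1 hφ'.bm x
      have j5 := int_LL hV c0 hBMe x
      have j6 := int_LL hV ck1 hφ1.bm x
      have j7 := int_LL hV ck2 hφ'.bm x
      have l1 : (4 * Real.pi)⁻¹ * ∫ ω, LL V R (kk (1 + h)) (φ (1 + h)) (x, ω) ∂sig -
          (4 * Real.pi)⁻¹ * ∫ ω, LL V R (kk 1) (φ 1) (x, ω) ∂sig -
          h * ((4 * Real.pi)⁻¹ * ∫ ω, LL V R kd (φ 1) (x, ω) ∂sig +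
            (4 * Real.pi)⁻¹ * ∫ ω, LL V R (kk 1) φ' (x, ω) ∂sig)
          = (4 * Real.pi)⁻¹ * ∫ ω, (LL V R (kk (1+h)) (φ (1+h)) (x, ω) - LL V R (kk 1) (φ 1) (x, ω)
            - h * (LL V R kd (φ 1) (x, ω) + LL V R (kk 1) φ' (x, ω))) ∂sig := by
        rw [int4 h j1 j2 j3 j4]
        ring
      rw [l1]
      simp only [idL]
      rw [← mul_add, ← integral_add j5 (show Integrable
        (fun ω => LL V R k1 (φ 1) (x, ω) + h * LL V R k2 φ' (x, ω)) sig from j6.add (j7.const_mul h))]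
      congr 2
      ext ω
      ring
    obtain ⟨E0, hE0⟩ := hBMe.2
    have hE00 : 0 ≤ E0 := (abs_nonneg _).trans (hE0 0)
    have hκ := kappa_mem hV hlpos
    have hbe : ∀ x ∈ (univ : Set E3), |e x| ≤ (B * h ^ 2) / (1 - (1 - Real.exp (-((1+h) * R)))) := by
      apply self_improve hE00 hκ.1 hκ.2 (by positivity) (fun x _ => hE0 x)
      intro E hE hbd x _
      rw [ide x]
      refine (abs_add_le _ _).trans (add_le_add ?_ ?_)
      · exact AA_contr hV hlpos hE (fun y _ => hbd y (mem_univ _)) x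
      · rw [abs_mul, abs_of_pos (by positivity)]
        have := norm_integral_le_of_norm_le_const (μ := sig) (C := B * h ^ 2)
          (f := fun ω => LL V R k1 (φ 1) (x, ω) + h * LL V R k2 φ' (x, ω))
          (by filter_upwards with ω; exact b3 _)
        rw [sig_univ, Real.norm_eq_abs] at this
        rw [inv_mul_le_iff₀ (by positivity)]; linarith
    have hbe' : ∀ x, |e x| ≤ (B * h ^ 2) / Real.exp (-(2 * R)) := by
      intro x
      have h1 := hbe x (mem_univ _)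
      rw [sub_sub_cancel] at h1
      refine h1.trans ?_
      apply div_le_div_of_nonneg_left (by positivity) (Real.exp_pos _)
      apply Real.exp_le_exp.2
      nlinarith
    have hid := idL (r, ω)
    have e3 : Msol V R (1+h) (φ (1+h)) r ω - Msol V R 1 (φ 1) r ω - h * Md V R (φ 1) φ' r ω
        = LL V R (kk (1+h)) e (r, ω) + (LL V R k1 (φ 1) (r, ω) + h * LL V R k2 φ' (r, ω)) := by
      unfold Msol Md
      linarith
    rw [e3]
    refine (abs_add_le _ _).trans (add_le_add ?_ (b3 _))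
    have h4 : 0 ≤ (B * h ^ 2) / Real.exp (-(2 * R)) := by positivity
    refine (LL_bdd hV c0 (fun x _ => hbe' x) h4 _).trans ?_
    rw [int_abs_kk hlpos.le]
    have : 1 - Real.exp (-((1 + h) * R)) ≤ 1 := hκ.2.le
    nlinarith
  rw [hasDerivAt_iff_isLittleO_nhds_zero]
  have hO : (fun h : ℝ => Msol V R (1+h) (φ (1+h)) r ω - Msol V R 1 (φ 1) r ω
      - h • Md V R (φ 1) φ' r ω) =O[𝓝 0] fun h : ℝ => h ^ 2 := by
    apply Asymptotics.IsBigO.of_bound (B / Real.exp (-(2 * R)) + B)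
    have n1 : ∀ᶠ h : ℝ in 𝓝 0, |h| < 1 / (2 * R) := by
      have : (0:ℝ) < 1 / (2 * R) := by positivity
      have := Metric.ball_mem_nhds (0:ℝ) this
      filter_upwards [this] with h hh
      simpa [Real.dist_eq] using hh
    filter_upwards [n1] with h hh
    have h1 : |h| * R ≤ 1 := by
      rw [lt_div_iff₀ (by positivity)] at hh
      nlinarith [abs_nonneg h]
    have h2 : |h| ≤ 1/2 := by
      rw [lt_div_iff₀ (by positivity)] at hh
      nlinarith [abs_nonneg h]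
    have := quad h h1 h2
    rw [smul_eq_mul, Real.norm_eq_abs, Real.norm_eq_abs, abs_of_nonneg (sq_nonneg h)]
    calc _ ≤ _ := this
      _ = _ := by ring
  refine hO.trans_isLittleO ?_
  have := Asymptotics.isLittleO_pow_id (𝕜 := ℝ) (n := 2) one_lt_two
  exact this

end

end

end Q65.Trans
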