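import Mathlib
import Pool.Agent.Q65.TransB

/-!
# A ball with a long thin plate attached: the derivative is negative
-/

set_option linter.unusedSectionVars false

namespace Q65.Trans

open Set MeasureTheory Filter Topology Metric
open scoped NNReal ENNReal Pointwise

noncomputable section

/-- the domain -/
def VV (L ε : ℝ) : Set E3 :=
  ball (0:E3) 1 ∪ {x : E3 | -(L + 2) < x 0 ∧ x 0 < 0 ∧ |x 1| < ε ∧ |x 2| < 1}

lemma norm_sq_E3 (x : E3) : ‖x‖ ^ 2 = x 0 ^ 2 + x 1 ^ 2 + x 2 ^ 2 := by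
  rw [EuclideanSpace.norm_sq_eq]
  simp [Fin.sum_univ_three]

lemma abs_coord_le (x : E3) (i : Fin 3) : |x i| ≤ ‖x‖ := by
  have := PiLp.norm_apply_le x i
  simpa using this

lemma cont_coord (i : Fin 3) : Continuous (fun x : E3 => x i) :=
  (EuclideanSpace.proj (𝕜 := ℝ) i : E3 →L[ℝ] ℝ).continuous

lemma isOpen_VV (L ε : ℝ) : IsOpen (VV L ε) := by
  apply isOpen_ball.union
  have h0 := cont_coord 0
  have h1 := cont_coord 1
  have h2 := cont_coord 2
  exact (isOpen_lt continuous_const h0).inter ((isOpen_lt h0 continuous_const).inter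
    ((isOpen_lt h1.abs continuous_const).inter (isOpen_lt h2.abs continuous_const)))

lemma VV_norm {L ε : ℝ} (hL : 0 ≤ L) (hε : ε ≤ 1) {x : E3} (hx : x ∈ VV L ε) : ‖x‖ < L + 4 := by
  rcases hx with hx | ⟨h0, h0', h1, h2⟩
  · rw [mem_ball_zero_iff] at hx; linarith
  · have hs := norm_sq_E3 x
    have a0 : x 0 ^ 2 < (L + 2) ^ 2 := by nlinarith
    have a1 : x 1 ^ 2 < 1 := by
      have := abs_lt.1 (h1.trans_le hε)
      nlinarith [this.1, this.2]
    have a2 : x 2 ^ 2 < 1 := by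
      have := abs_lt.1 h2
      nlinarith [this.1, this.2]
    nlinarith [norm_nonneg x]

lemma dom_VV {L ε : ℝ} (hL : 0 ≤ L) (hε : ε ≤ 1) : Dom (VV L ε) (2 * (L + 4)) := by
  refine ⟨isOpen_VV L ε, by linarith, ?_⟩
  intro r hr ω t ht hcon
  have h1 := VV_norm hL hε hr
  have h2 := VV_norm hL hε hcon
  have hω : ‖(ω:E3)‖ = 1 := by simp
  have h3 : ‖t • (ω:E3)‖ = t := by
    rw [norm_smul, hω, mul_one, Real.norm_eq_abs, abs_of_nonneg (by linarith)]
  have h4 : ‖t • (ω:E3)‖ ≤ ‖r + t • (ω:E3)‖ + ‖r‖ := by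
    have := norm_sub_le (r + t • (ω:E3)) r
    rwa [add_sub_cancel_left] at this
  linarith

section geom

variable {L ε : ℝ}

lemma ball_diam {r : E3} {ω : S2} {s t : ℝ} (hst : s ≤ t) (hs : r + s • (ω:E3) ∈ ball (0:E3) 1)
    (ht : r + t • (ω:E3) ∈ ball (0:E3) 1) : t - s < 2 := by
  rw [mem_ball_zero_iff] at hs ht
  have hω : ‖(ω:E3)‖ = 1 := by simp
  have h1 : ‖(r + t • (ω:E3)) - (r + s • (ω:E3))‖ = t - s := by
    rw [add_sub_add_left_eq_sub, ← sub_smul, norm_smul, hω, mul_one, Real.norm_eq_abs,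
      abs_of_nonneg (by linarith)]
  have := norm_sub_le (r + t • (ω:E3)) (r + s • (ω:E3))
  linarith

lemma plate_diam {r : E3} {ω : S2} {s t δ : ℝ} (hst : s ≤ t) (hδ : δ ≤ |(ω:E3) 1|)
    (hs : |(r + s • (ω:E3)) 1| < ε) (ht : |(r + t • (ω:E3)) 1| < ε) : (t - s) * δ < 2 * ε := by
  have e : (r + t • (ω:E3)) 1 - (r + s • (ω:E3)) 1 = (t - s) * (ω:E3) 1 := by
    simp only [PiLp.add_apply, PiLp.smul_apply, smul_eq_mul]; ring
  have h1 : (t - s) * |(ω:E3) 1| < 2 * ε := by
    rw [← abs_of_nonneg (by linarith : 0 ≤ t - s), ← abs_mul, ← e]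
    exact (abs_sub _ _).trans_lt (by linarith)
  have h2 : (t - s) * δ ≤ (t - s) * |(ω:E3) 1| := mul_le_mul_of_nonneg_left hδ (by linarith)
  linarith

/-- exit distances for directions which are not nearly parallel to the plate -/
lemma exit_le_three (hL : 0 ≤ L) (hε : ε ≤ 1) {δ : ℝ} (hδ : 2 * ε < δ) {r : E3} (hr : r ∈ VV L ε)
    {ω : S2} (hω : δ ≤ |(ω:E3) 1|) : exitD (VV L ε) r ω ≤ 3 := by
  by_contra hcon
  push Not at hcon
  have hseg := (lt_exit_iff (dom_VV hL hε) hr ω (by norm_num : (0:ℝ) < 3)).1 hcon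
  have hpt : ∀ t : ℝ, 0 ≤ t → t ≤ 3 → r + t • (ω:E3) ∈ VV L ε := by
    intro t h0 h3
    have := hseg (t/3) ⟨by positivity, by linarith⟩
    simp only at this
    rwa [div_mul_cancel₀ _ (by norm_num : (3:ℝ) ≠ 0)] at this
  have hp : ∀ s t : ℝ, s + 1 ≤ t → |(r + s • (ω:E3)) 1| < ε → |(r + t • (ω:E3)) 1| < ε → False := by
    intro s t hst h1 h2
    have h3 := plate_diam (by linarith : s ≤ t) hω h1 h2
    have : 0 < δ := by
      have : 0 ≤ |(r + s • (ω:E3)) 1| := abs_nonneg _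
      linarith
    nlinarith
  have hb : ∀ s t : ℝ, s + 2 ≤ t → r + s • (ω:E3) ∈ ball (0:E3) 1 → r + t • (ω:E3) ∈ ball (0:E3) 1 → False := by
    intro s t hst h1 h2
    have := ball_diam (by linarith : s ≤ t) h1 h2
    linarith
  rcases hpt 0 le_rfl (by norm_num) with h0 | ⟨-, -, h0, -⟩
  · rcases hpt 2 (by norm_num) (by norm_num) with h2 | ⟨-, -, h2, -⟩
    · exact hb 0 2 (by norm_num) h0 h2
    rcases hpt 3 (by norm_num) le_rfl with h3 | ⟨-, -, h3, -⟩
    · exact hb 0 3 (by norm_num) h0 h3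
    exact hp 2 3 (by norm_num) h2 h3
  · rcases hpt 1 (by norm_num) (by norm_num) with h1 | ⟨-, -, h1, -⟩
    swap
    · exact hp 0 1 (by norm_num) h0 h1
    rcases hpt 3 (by norm_num) le_rfl with h3 | ⟨-, -, h3, -⟩
    · exact hb 1 3 (by norm_num) h1 h3
    · exact hp 0 3 (by norm_num) h0 h3

/-- exit distances from the far part of the plate -/
lemma exit_le_far (hL : 0 ≤ L) (hε : ε ≤ 1) {δ τ : ℝ} (hτ0 : 0 < τ) (hτ1 : τ ≤ 1)
    (hδ : 2 * ε < τ * δ) {r : E3} (hr : r ∈ VV L ε) (hr0 : r 0 ≤ -2)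
    {ω : S2} (hω : δ ≤ |(ω:E3) 1|) : exitD (VV L ε) r ω ≤ τ := by
  by_contra hcon
  push Not at hcon
  have hseg := (lt_exit_iff (dom_VV hL hε) hr ω hτ0).1 hcon
  have h1 : r + τ • (ω:E3) ∈ VV L ε := by
    have := hseg 1 (by simp)
    simpa using this
  have hω1 : |(ω:E3) 0| ≤ 1 := by
    have := abs_coord_le (ω:E3) 0
    simpa using this
  have hc : (r + τ • (ω:E3)) 0 ≤ -1 := by
    simp only [PiLp.add_apply, PiLp.smul_apply, smul_eq_mul]
    have := (abs_le.1 hω1).2
    nlinarith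
  have hnb : ∀ x : E3, x 0 ≤ -1 → x ∉ ball (0:E3) 1 := by
    intro x hx hb
    rw [mem_ball_zero_iff] at hb
    have := abs_le.1 ((abs_coord_le x 0).trans hb.le)
    have h2 := abs_coord_le x 0
    rw [abs_of_nonpos (by linarith)] at h2
    linarith
  rcases hr with hr | ⟨-, -, hr1, -⟩
  · exact hnb r (by linarith) hr
  rcases h1 with h1 | ⟨-, -, h1, -⟩
  · exact hnb _ hc h1
  have := plate_diam (r := r) (ω := ω) (s := 0) (t := τ) hτ0.le hω (by simpa using hr1) h1
  linarith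

end geom

/-! ### the measure of the bad directions -/

def bad (δ : ℝ) : Set S2 := {ω | |(ω:E3) 1| < δ}

lemma meas_bad (δ : ℝ) : MeasurableSet (bad δ) := by
  have : Continuous (fun ω : S2 => |(ω:E3) 1|) := ((cont_coord 1).comp continuous_subtype_val).abs
  exact (isOpen_lt this continuous_const).measurableSet

lemma sig_zero : sig {ω : S2 | (ω:E3) 1 = 0} = 0 := by
  have hm : MeasurableSet {ω : S2 | (ω:E3) 1 = 0} := by
    have : Continuous (fun ω : S2 => (ω:E3) 1) := (cont_coord 1).comp continuous_subtype_val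
    exact (isClosed_eq this continuous_const).measurableSet
  unfold sig
  rw [Measure.toSphere_apply' _ hm]
  have hnull : (volume : Measure E3) {x : E3 | x 1 = 0} = 0 := by
    have h := (PiLp.volume_preserving_ofLp (Fin 3))
    have h0 : ∀ᵐ y : Fin 3 → ℝ, y 1 ≠ 0 :=
      MeasureTheory.Measure.ae_eval_ne (μ := fun _ : Fin 3 => (volume : Measure ℝ)) 1 0
    have h1 : ∀ᵐ x : E3, x 1 ≠ 0 := h.quasiMeasurePreserving.ae h0
    rw [ae_iff] at h1
    simpa using h1
  have hsub : (Ioo (0:ℝ) 1 • (Subtype.val '' {ω : S2 | (ω:E3) 1 = 0}) : Set E3)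
      ⊆ {x : E3 | x 1 = 0} := by
    rintro _ ⟨t, _, _, ⟨ω, hω, rfl⟩, rfl⟩
    change (t • (ω:E3)) 1 = 0
    have hω' : (ω:E3) 1 = 0 := hω
    rw [PiLp.smul_apply, hω', smul_zero]
  rw [measure_mono_null hsub hnull, mul_zero]

lemma exists_bad {η : ℝ} (hη : 0 < η) : ∃ δ, 0 < δ ∧ (4 * Real.pi)⁻¹ * sig.real (bad δ) < η := by
  have hanti : Antitone (fun n : ℕ => bad (1 / ((n:ℝ) + 1))) := by
    intro a b hab ω hω
    have hω' : |(ω:E3) 1| < 1 / ((b:ℝ) + 1) := hω
    refine lt_of_lt_of_le hω' ?_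
    apply one_div_le_one_div_of_le (by positivity)
    have : (a:ℝ) ≤ b := by exact_mod_cast hab
    linarith
  have hlim := tendsto_measure_iInter_atTop (μ := sig) (s := fun n : ℕ => bad (1 / ((n:ℝ) + 1)))
    (fun n => (meas_bad (1 / ((n:ℝ) + 1))).nullMeasurableSet) hanti ⟨0, measure_ne_top _ _⟩
  have hint : ⋂ n : ℕ, bad (1 / ((n:ℝ) + 1)) = {ω : S2 | (ω:E3) 1 = 0} := by
    ext ω
    simp only [mem_iInter]
    constructor
    · intro h
      by_contra hne
      have hpos : 0 < |(ω:E3) 1| := abs_pos.2 hne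
      obtain ⟨n, hn⟩ := exists_nat_one_div_lt hpos
      have := h n
      unfold bad at this
      simp only [mem_ofPred_eq] at this
      linarith
    · intro h n
      unfold bad
      simp only [mem_ofPred_eq] at h ⊢
      rw [h, abs_zero]; positivity
  rw [hint, sig_zero] at hlim
  have hlim2 : Tendsto (fun n : ℕ => (4 * Real.pi)⁻¹ * sig.real (bad (1 / ((n:ℝ) + 1)))) atTop (𝓝 0) := by
    have := (ENNReal.tendsto_toReal ENNReal.zero_ne_top).comp hlim
    have h2 := this.const_mul ((4 * Real.pi)⁻¹)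
    simpa [Measure.real, Function.comp_def] using h2
  obtain ⟨n, hn⟩ := (hlim2.eventually (gt_mem_nhds hη)).exists
  exact ⟨1 / ((n:ℝ) + 1), by positivity, hn⟩

/-! ### bounds on the averaged solution -/

lemma kk1_le (x : ℝ) (hx : 0 ≤ x) : kk 1 x ≤ 1 := by
  unfold kk
  rw [one_mul, one_mul]
  exact Real.exp_le_one_iff.2 (by linarith)

lemma kd_le (x : ℝ) (hx : 0 ≤ x) : |kd x| ≤ 1 := by
  unfold kd
  rw [abs_mul, abs_of_pos (Real.exp_pos _), Real.exp_neg, ← div_eq_mul_inv,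
    div_le_one (Real.exp_pos x)]
  have := Real.add_one_le_exp x
  rw [abs_le]; constructor <;> linarith

lemma int_kd_le {b : ℝ} (hb : 0 ≤ b) : ∫ x in (0:ℝ)..b, |kd x| ≤ 2 := by
  have h1 : ∀ x ∈ uIcc 0 b, HasDerivAt (fun y => -((2 + y) * Real.exp (-y))) ((1 + x) * Real.exp (-x)) x := by
    intro x _
    have a1 : HasDerivAt (fun y : ℝ => 2 + y) 1 x := (hasDerivAt_id x).const_add 2
    have a2 : HasDerivAt (fun y : ℝ => Real.exp (-y)) (Real.exp (-x) * (-1)) x :=
      (hasDerivAt_id x).neg.exp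
    refine ((a1.mul a2).neg).congr_deriv ?_
    ring
  have hc : Continuous (fun x : ℝ => (1 + x) * Real.exp (-x)) := by fun_prop
  have h2 := intervalIntegral.integral_eq_sub_of_hasDerivAt h1 (hc.intervalIntegrable _ _)
  have h3 : ∫ x in (0:ℝ)..b, |kd x| ≤ ∫ x in (0:ℝ)..b, (1 + x) * Real.exp (-x) := by
    apply intervalIntegral.integral_mono_on hb (cont_kd.abs.intervalIntegrable _ _)
      (hc.intervalIntegrable _ _)
    intro x hx
    unfold kd
    rw [abs_mul, abs_of_pos (Real.exp_pos _)]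
    apply mul_le_mul_of_nonneg_right _ (Real.exp_pos _).le
    rw [abs_le]; constructor <;> linarith [hx.1]
  rw [h2] at h3
  have h4 : 0 ≤ (2 + b) * Real.exp (-b) := by positivity
  simp at h3
  linarith

lemma int_abs_le {k : ℝ → ℝ} (hk : Continuous k) (h : ∀ x, 0 ≤ x → |k x| ≤ 1) {b : ℝ} (hb : 0 ≤ b) :
    ∫ x in (0:ℝ)..b, |k x| ≤ b := by
  have : ∫ x in (0:ℝ)..b, |k x| ≤ ∫ x in (0:ℝ)..b, (1:ℝ) :=
    intervalIntegral.integral_mono_on hb (hk.abs.intervalIntegrable _ _) (by simp)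
      fun x hx => h x hx.1
  simpa using this

section bounds

variable {V : Set E3} {R : ℝ} (hV : Dom V R)
include hV

/-- bound of an average by separating the bad directions -/
lemma AA_split {k : ℝ → ℝ} {Φ : E3 → ℝ} {r : E3} {δ g b : ℝ}
    (hg : ∀ ω : S2, δ ≤ |(ω:E3) 1| → |LL V R k Φ (r, ω)| ≤ g) (hg0 : 0 ≤ g) (hb0 : 0 ≤ b)
    (hb : ∀ ω : S2, |LL V R k Φ (r, ω)| ≤ b) :
    |AA V R k Φ r| ≤ g + b * ((4 * Real.pi)⁻¹ * sig.real (bad δ)) := by
  have hint : Integrable (fun ω => g + (bad δ).indicator (fun _ => b) ω) sig :=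
    (integrable_const g).add ((integrable_const b).indicator (meas_bad δ))
  have h1 := AA_bound_of hV (k := k) (Φ := Φ) hint r (by
    intro ω
    by_cases h : ω ∈ bad δ
    · rw [indicator_of_mem h]; linarith [hb ω]
    · rw [indicator_of_notMem h, add_zero]
      exact hg ω (not_lt.1 h))
  refine h1.trans (le_of_eq ?_)
  rw [integral_add (integrable_const g) ((integrable_const b).indicator (meas_bad δ)),
    integral_const, sig_univ, integral_indicator_const _ (meas_bad δ), smul_eq_mul, smul_eq_mul]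
  have : (4 * Real.pi) ≠ 0 := by positivity
  field_simp

lemma LL_lower {lam : ℝ} (hl : 0 < lam) {Φ : E3 → ℝ} (hΦ : BM Φ) {E : ℝ} (hE : 0 ≤ E)
    (h : ∀ x ∈ V, -E ≤ Φ x) (q : E3 × S2) : -((1 - Real.exp (-(lam * R))) * E) ≤ LL V R (kk lam) Φ q := by
  obtain ⟨r, ω⟩ := q
  have hκ := kappa_mem hV hl
  by_cases hr : r ∈ V
  swap
  · rw [LL_out hV hr]; have := mul_nonneg hκ.1 hE; linarith
  have hD := exit_le hV hr ω
  have hD0 := exit_pos hV hr ω
  -- compare with the constant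
  have e1 : LL V R (kk lam) (fun x => Φ x + E) (r, ω) = LL V R (kk lam) Φ (r, ω)
      + LL V R (kk lam) (fun _ => E) (r, ω) := LL_add hV (cont_kk lam) hΦ ⟨measurable_const, |E|, fun _ => le_rfl⟩ _
  have e2 : 0 ≤ LL V R (kk lam) (fun x => Φ x + E) (r, ω) := by
    unfold LL
    apply setIntegral_nonneg measurableSet_Ioc
    intro x _
    apply mul_nonneg (kk_nonneg hl.le x)
    unfold ind
    by_cases hs : ((r, ω), x) ∈ Seg V
    · rw [indicator_of_mem hs, one_mul]
      have h1 := hs 1 (by simp)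
      simp only [one_mul] at h1
      have h2 := h _ h1
      simp only
      linarith
    · rw [indicator_of_notMem hs, zero_mul]
  have e3 : LL V R (kk lam) (fun _ => E) (r, ω) = (1 - Real.exp (-(lam * exitD V r ω))) * E := by
    rw [LL_eq hV hr, intervalIntegral.integral_mul_const, int_kk]; simp
  have e4 : Real.exp (-(lam * R)) ≤ Real.exp (-(lam * exitD V r ω)) := by
    apply Real.exp_le_exp.2; nlinarith
  have e5 : (1 - Real.exp (-(lam * exitD V r ω))) * E ≤ (1 - Real.exp (-(lam * R))) * E :=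
    mul_le_mul_of_nonneg_right (by linarith) hE
  linarith

lemma AA_ge_of {k : ℝ → ℝ} (hk : Continuous k) {Φ : E3 → ℝ} (hΦ : BM Φ) {r : E3} {c : ℝ}
    (h : ∀ ω, c ≤ LL V R k Φ (r, ω)) : c ≤ AA V R k Φ r := by
  unfold AA
  have h1 : ∫ ω : S2, c ∂sig ≤ ∫ ω, LL V R k Φ (r, ω) ∂sig :=
    integral_mono (integrable_const c) (int_LL hV hk hΦ r) h
  rw [integral_const, sig_univ, smul_eq_mul] at h1
  have hpi : 0 < 4 * Real.pi := by positivity
  rw [← div_eq_inv_mul, le_div_iff₀ hpi]; linarith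

lemma phi_nonneg {lam : ℝ} (hl : 0 < lam) {φ : E3 → ℝ} (hφ : IsPhi V R lam φ) : ∀ x, 0 ≤ φ x := by
  obtain ⟨C, hC⟩ := hφ.bm.2
  have hC0 : 0 ≤ C := (abs_nonneg _).trans (hC 0)
  have hκ := kappa_mem hV hl
  have hsrc : ∀ x, 0 ≤ src V R x := fun x => AA_ge_of hV (cont_kk 1) BM_one (fun ω => by
    have := LL_lower hV one_pos BM_one (E := 0) le_rfl (fun _ _ => by norm_num) (x, ω)
    simpa using this)
  have key := self_improve (s := (univ : Set E3)) (f := fun x => min (φ x) 0) (E0 := C) (b := 0)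
    hC0 hκ.1 hκ.2 le_rfl (fun x _ => by
      rcases le_total (φ x) 0 with h | h
      · rw [min_eq_left h]; exact hC x
      · rw [min_eq_right h, abs_zero]; exact hC0) (by
      intro E hE hbd x _
      have hlow : ∀ y ∈ V, -E ≤ φ y := by
        intro y _
        have h1 := abs_le.1 (hbd y (mem_univ _))
        exact h1.1.trans (min_le_left _ _)
      have h2 : -((1 - Real.exp (-(lam * R))) * E) ≤ φ x := by
        rw [hφ.eq x]
        have h3 := AA_ge_of hV (cont_kk lam) hφ.bm (r := x)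
          (fun ω => LL_lower hV hl hφ.bm hE hlow (x, ω))
        linarith [hsrc x]
      rw [add_zero, abs_le]
      have h4 := mul_nonneg hκ.1 hE
      constructor
      · exact le_min h2 (by linarith)
      · exact (min_le_right _ _).trans h4)
  intro x
  have h := key x (mem_univ _)
  rw [zero_div] at h
  have h2 := abs_nonpos_iff.1 h
  exact min_eq_right_iff.1 h2

end bounds

end

end Q65.Trans
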