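import Mathlib
import Pool.Agent.Q65.TransC

/-!
# Final estimates
-/

set_option linter.unusedSectionVars false

namespace Q65.Trans

open Set MeasureTheory Filter Topology Metric
open scoped NNReal ENNReal Pointwise

noncomputable section

/-- the point and the direction -/
def e0 : E3 := EuclideanSpace.single 0 1

lemma e0_norm : ‖e0‖ = 1 := by simp [e0]

def w0 : S2 := ⟨e0, by simp [e0_norm]⟩

def P0 (L : ℝ) : E3 := (-(1 + L)) • e0

lemma e0_0 : e0 0 = 1 := by simp [e0]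
lemma e0_1 : e0 1 = 0 := by simp [e0]
lemma e0_2 : e0 2 = 0 := by simp [e0]

lemma ray_eq (L x : ℝ) : P0 L + x • (w0:E3) = (x - 1 - L) • e0 := by
  unfold P0
  change (-(1 + L)) • e0 + x • e0 = _
  rw [← add_smul]; congr 1; ring

lemma smul_mem {L ε s : ℝ} (hε : 0 < ε) (h1 : -(L + 2) < s) (h2 : s < 1) : s • e0 ∈ VV L ε := by
  rcases lt_or_ge s 0 with h | h
  · right
    refine ⟨?_, ?_, ?_, ?_⟩
    · simpa [e0_0] using h1
    · simpa [e0_0] using h
    · simpa [e0_1] using hε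
    · simp [e0_2]
  · left
    rw [mem_ball_zero_iff, norm_smul, e0_norm, mul_one, Real.norm_eq_abs, abs_of_nonneg h]
    exact h2

lemma P0_mem {L ε : ℝ} (hL : 0 ≤ L) (hε : 0 < ε) : P0 L ∈ VV L ε :=
  smul_mem hε (by linarith) (by linarith)

lemma one_notMem {L ε : ℝ} : (1:ℝ) • e0 ∉ VV L ε := by
  rintro (h | ⟨-, h, -, -⟩)
  · rw [mem_ball_zero_iff, norm_smul, e0_norm] at h
    norm_num at h
  · simp [e0_0] at h
    linarith

lemma exit_P0 {L ε : ℝ} (hL : 0 ≤ L) (hε : 0 < ε) (hε1 : ε ≤ 1) :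
    exitD (VV L ε) (P0 L) w0 = L + 2 := by
  have hd := dom_VV hL hε1
  apply le_antisymm
  · apply csInf_le ⟨0, fun t ht => ht.1.le⟩
    refine ⟨by linarith, ?_⟩
    rw [ray_eq]
    have : L + 2 - 1 - L = 1 := by ring
    rw [this]; exact one_notMem
  · by_contra hlt
    push Not at hlt
    have h0 := exit_pos hd (P0_mem hL hε) w0
    set D := exitD (VV L ε) (P0 L) w0 with hD
    have hseg : ((P0 L, w0), D) ∈ Seg (VV L ε) := by
      intro s hs
      simp only
      rw [ray_eq]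
      apply smul_mem hε
      · have := mul_nonneg hs.1 h0.le; linarith
      · have : s * D ≤ D := by nlinarith [hs.2]
        linarith
    have := (lt_exit_iff hd (P0_mem hL hε) w0 h0).2 hseg
    exact lt_irrefl _ this

/-- the constants -/
def K1 : ℝ := 2 * Real.exp 3
def K2 : ℝ := 2 * K1 * (2 * Real.exp 3)
def c0 : ℝ := 1 - Real.exp (-(1/2))

lemma K1_pos : 0 < K1 := by unfold K1; positivity
lemma K2_pos : 0 < K2 := by have := K1_pos; unfold K2; positivity
lemma c0_pos : 0 < c0 := by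
  unfold c0
  have : Real.exp (-(1/2)) < 1 := by
    rw [← Real.exp_zero]; exact Real.exp_lt_exp.2 (by norm_num)
  linarith

section est

variable {L ε δ τ : ℝ} (hL : 0 ≤ L) (hε : 0 < ε) (hε1 : ε ≤ 1) (hδ : 2 * ε < δ)
  (hτ0 : 0 < τ) (hτ1 : τ ≤ 1) (hτ : 2 * ε < τ * δ)
  (hβ : (4 * Real.pi)⁻¹ * sig.real (bad δ) ≤ Real.exp (-3) / 2)
include hL hε hε1 hδ hβ

/-- contraction with constants independent of the length of the plate -/
lemma AA_kk_good {Φ : E3 → ℝ} {E : ℝ} (hE : 0 ≤ E) (h : ∀ x ∈ VV L ε, |Φ x| ≤ E) {r : E3}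
    (hr : r ∈ VV L ε) :
    |AA (VV L ε) (2 * (L + 4)) (kk 1) Φ r| ≤ (1 - Real.exp (-3) / 2) * E := by
  have hd := dom_VV hL hε1
  have hex3 : Real.exp (-3) ≤ 1 := Real.exp_le_one_iff.2 (by norm_num)
  have h1 := AA_split hd (k := kk 1) (Φ := Φ) (r := r) (δ := δ) (g := (1 - Real.exp (-3)) * E) (b := E)
    (by
      intro ω hω
      have h2 := LL_bound hd (cont_kk 1) h hr ω
      rw [int_abs_kk zero_le_one] at h2
      refine h2.trans ?_
      rw [mul_comm]
      apply mul_le_mul_of_nonneg_right _ hE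
      have h3 := exit_le_three hL hε1 hδ hr hω
      have : Real.exp (-3) ≤ Real.exp (-(1 * exitD (VV L ε) r ω)) := Real.exp_le_exp.2 (by linarith)
      linarith)
    (mul_nonneg (by linarith) hE) hE
    (by
      intro ω
      have h2 := LL_bound hd (cont_kk 1) h hr ω
      rw [int_abs_kk zero_le_one] at h2
      have : 0 < Real.exp (-(1 * exitD (VV L ε) r ω)) := Real.exp_pos _
      nlinarith)
  have h2 := mul_le_mul_of_nonneg_left hβ hE
  linarith

lemma phi_bound {φ : E3 → ℝ} (hφ : IsPhi (VV L ε) (2 * (L + 4)) 1 φ) :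
    ∀ x ∈ VV L ε, |φ x| ≤ K1 := by
  have hd := dom_VV hL hε1
  obtain ⟨C, hC⟩ := hφ.bm.2
  have hC0 : 0 ≤ C := (abs_nonneg _).trans (hC 0)
  have hex3 : Real.exp (-3) ≤ 1 := Real.exp_le_one_iff.2 (by norm_num)
  have hex0 := Real.exp_pos (-3)
  have key := self_improve (s := VV L ε) (f := φ) (E0 := C) (b := 1) (κ := 1 - Real.exp (-3) / 2)
    hC0 (by linarith) (by linarith) zero_le_one (fun x _ => hC x) (by
      intro E hE hbd x hx
      rw [hφ.eq x]
      refine (abs_add_le _ _).trans ?_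
      have h1 := AA_kk_good hL hε hε1 hδ hβ hE hbd hx
      have h2 := AA_kk_good hL hε hε1 hδ hβ (Φ := fun _ => (1:ℝ)) zero_le_one (by simp) hx
      unfold src
      linarith)
  intro x hx
  refine (key x hx).trans (le_of_eq ?_)
  unfold K1
  have : Real.exp (-3) = (Real.exp 3)⁻¹ := Real.exp_neg 3
  rw [sub_sub_cancel, this]
  field_simp

lemma phi'_bound {φ φ' : E3 → ℝ} (hφ : IsPhi (VV L ε) (2 * (L + 4)) 1 φ)
    (hφ' : IsPhi' (VV L ε) (2 * (L + 4)) φ φ') : ∀ x ∈ VV L ε, |φ' x| ≤ K2 := by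
  have hd := dom_VV hL hε1
  obtain ⟨C, hC⟩ := hφ'.bm.2
  have hC0 : 0 ≤ C := (abs_nonneg _).trans (hC 0)
  have hex3 : Real.exp (-3) ≤ 1 := Real.exp_le_one_iff.2 (by norm_num)
  have hex0 := Real.exp_pos (-3)
  have hK1 := K1_pos
  have hφb := phi_bound hL hε hε1 hδ hβ hφ
  have key := self_improve (s := VV L ε) (f := φ') (E0 := C) (b := 2 * K1) (κ := 1 - Real.exp (-3) / 2)
    hC0 (by linarith) (by linarith) (by linarith) (fun x _ => hC x) (by
      intro E hE hbd x hx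
      rw [hφ'.eq x]
      refine (abs_add_le _ _).trans ?_
      have h1 := AA_kk_good hL hε hε1 hδ hβ hE hbd hx
      have h2 : |AA (VV L ε) (2 * (L + 4)) kd φ x| ≤ 2 * K1 := by
        apply AA_bound_const hd
        intro ω
        have h3 := LL_bound hd cont_kd hφb hx ω
        have h4 := int_kd_le (exit_pos hd hx ω).le
        nlinarith
      linarith)
  intro x hx
  refine (key x hx).trans (le_of_eq ?_)
  unfold K2
  have : Real.exp (-3) = (Real.exp 3)⁻¹ := Real.exp_neg 3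
  rw [sub_sub_cancel, this]
  field_simp

include hτ0 hτ1 hτ

lemma far_bounds {φ φ' : E3 → ℝ} (hφ : IsPhi (VV L ε) (2 * (L + 4)) 1 φ)
    (hφ' : IsPhi' (VV L ε) (2 * (L + 4)) φ φ') {β : ℝ}
    (hβ2 : (4 * Real.pi)⁻¹ * sig.real (bad δ) ≤ β) {x : E3} (hx : x ∈ VV L ε) (hx0 : x 0 ≤ -2) :
    |φ x| ≤ (1 + K1) * (τ + β) ∧ |φ' x| ≤ (K1 + K2) * (τ + 2 * β) := by
  have hd := dom_VV hL hε1
  have hK1 := K1_pos
  have hK2 := K2_pos
  have hφb := phi_bound hL hε hε1 hδ hβ hφ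
  have hφb' := phi'_bound hL hε hε1 hδ hβ hφ hφ'
  have hβ0 : 0 ≤ (4 * Real.pi)⁻¹ * sig.real (bad δ) := by positivity
  -- kernels bounded by one, integral at most `b`
  have gen : ∀ (k : ℝ → ℝ), Continuous k → (∀ x, 0 ≤ x → |k x| ≤ 1) → ∀ b : ℝ, 0 ≤ b →
      (∀ t, 0 ≤ t → ∫ x in (0:ℝ)..t, |k x| ≤ b) → ∀ (Φ : E3 → ℝ) (C : ℝ), 0 ≤ C →
      (∀ y ∈ VV L ε, |Φ y| ≤ C) → |AA (VV L ε) (2 * (L + 4)) k Φ x| ≤ C * τ + C * b * β := by
    intro k hk hk1 b hb0 hb Φ C hC0 hC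
    have h1 := AA_split hd (k := k) (Φ := Φ) (r := x) (δ := δ) (g := C * τ) (b := C * b)
      (by
        intro ω hω
        refine (LL_bound hd hk hC hx ω).trans ?_
        apply mul_le_mul_of_nonneg_left _ hC0
        exact (int_abs_le hk hk1 (exit_pos hd hx ω).le).trans
          (exit_le_far hL hε1 hτ0 hτ1 hτ hx hx0 hω))
      (by positivity) (by positivity)
      (by
        intro ω
        refine (LL_bound hd hk hC hx ω).trans ?_
        exact mul_le_mul_of_nonneg_left (hb _ (exit_pos hd hx ω).le) hC0)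
    have h2 := mul_le_mul_of_nonneg_left hβ2 (by positivity : 0 ≤ C * b)
    linarith
  have hkk : ∀ x, 0 ≤ x → |kk 1 x| ≤ 1 := fun x hx => by
    rw [abs_of_nonneg (kk_nonneg zero_le_one x)]; exact kk1_le x hx
  have hkkint : ∀ t, 0 ≤ t → ∫ x in (0:ℝ)..t, |kk 1 x| ≤ 1 := fun t _ => by
    rw [int_abs_kk zero_le_one]; linarith [Real.exp_pos (-(1 * t))]
  have a1 := gen (kk 1) (cont_kk 1) hkk 1 zero_le_one hkkint (fun _ => 1) 1 zero_le_one (by simp)
  have a2 := gen (kk 1) (cont_kk 1) hkk 1 zero_le_one hkkint φ K1 hK1.le hφb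
  have a3 := gen (kk 1) (cont_kk 1) hkk 1 zero_le_one hkkint φ' K2 hK2.le hφb'
  have a4 := gen kd cont_kd kd_le 2 zero_le_two (fun t ht => int_kd_le ht) φ K1 hK1.le hφb
  have hβnn : 0 ≤ β := hβ0.trans hβ2
  constructor
  · rw [hφ.eq x]
    refine (abs_add_le _ _).trans ?_
    unfold src
    linarith
  · rw [hφ'.eq x]
    refine (abs_add_le _ _).trans ?_
    nlinarith [mul_nonneg hK2.le hβnn]

end est

lemma int_le_const {g : ℝ → ℝ} {a b c : ℝ} (hab : a ≤ b) (hg : IntervalIntegrable g volume a b)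
    (h : ∀ x ∈ Ioo a b, g x ≤ c) : ∫ x in a..b, g x ≤ c * (b - a) := by
  have := intervalIntegral.integral_mono_on_of_le_Ioo hab hg
    (intervalIntegrable_const (c := c)) h
  rw [intervalIntegral.integral_const, smul_eq_mul] at this
  linarith

lemma exit_half {L ε : ℝ} (hL : 0 ≤ L) (hε1 : ε ≤ 1) {r : E3} (hr : ‖r‖ ≤ 1/2) (ω : S2) :
    1/2 ≤ exitD (VV L ε) r ω := by
  have hd := dom_VV hL hε1
  have hω : ‖(ω:E3)‖ = 1 := by simp
  have hrV : r ∈ VV L ε := Or.inl (by rw [mem_ball_zero_iff]; linarith)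
  apply le_of_forall_lt
  intro x hx
  rcases le_or_gt x 0 with h | h
  · exact lt_of_le_of_lt h (exit_pos hd hrV ω)
  · rw [lt_exit_iff hd hrV ω h]
    intro s hs
    left
    rw [mem_ball_zero_iff]
    simp only
    have h1 := norm_add_le r ((s * x) • (ω:E3))
    rw [norm_smul, hω, mul_one, Real.norm_eq_abs, abs_of_nonneg (mul_nonneg hs.1 h.le)] at h1
    have : s * x ≤ x := by nlinarith [hs.2]
    linarith

lemma phi_lower {L ε : ℝ} (hL : 0 ≤ L) (hε1 : ε ≤ 1) {φ : E3 → ℝ}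
    (hφ : IsPhi (VV L ε) (2 * (L + 4)) 1 φ) {r : E3} (hr : ‖r‖ ≤ 1/2) : c0 ≤ φ r := by
  have hd := dom_VV hL hε1
  have hrV : r ∈ VV L ε := Or.inl (by rw [mem_ball_zero_iff]; linarith)
  have hnn := phi_nonneg hd one_pos hφ
  rw [hφ.eq r]
  have h1 : c0 ≤ src (VV L ε) (2 * (L + 4)) r := by
    apply AA_ge_of hd (cont_kk 1) BM_one
    intro ω
    rw [LL_one hd hrV]
    unfold c0
    have := exit_half hL hε1 hr ω
    have : Real.exp (-exitD (VV L ε) r ω) ≤ Real.exp (-(1/2)) := Real.exp_le_exp.2 (by linarith)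
    linarith
  have h2 : 0 ≤ AA (VV L ε) (2 * (L + 4)) (kk 1) φ r := AA_ge_of hd (cont_kk 1) hφ.bm (fun ω => by
    have := LL_lower hd one_pos hφ.bm (E := 0) le_rfl (fun y _ => by rw [neg_zero]; exact hnn y) (r, ω)
    simpa using this)
  linarith

theorem Md_neg : ∃ (L ε : ℝ), 0 ≤ L ∧ 0 < ε ∧ ε ≤ 1 ∧ ∀ φ φ' : E3 → ℝ,
    IsPhi (VV L ε) (2 * (L + 4)) 1 φ → IsPhi' (VV L ε) (2 * (L + 4)) φ φ' →
    Md (VV L ε) (2 * (L + 4)) φ φ' (P0 L) w0 < 0 := by
  have hK1 := K1_pos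
  have hK2 := K2_pos
  have hc0 := c0_pos
  have he32 := Real.exp_pos (-(3/2))
  -- the length
  set L : ℝ := 2 + (3 * Real.exp 1 * K2 + 1) / (c0 * Real.exp (-(3/2))) with hLdef
  have hfr : 0 < (3 * Real.exp 1 * K2 + 1) / (c0 * Real.exp (-(3/2))) := by positivity
  have hL2 : 2 ≤ L := by linarith
  have hL : 0 ≤ L := by linarith
  have hLc : 3 * Real.exp 1 * K2 + 1 ≤ (L - 1) * (c0 * Real.exp (-(3/2))) := by
    have hpos : 0 < c0 * Real.exp (-(3/2)) := by positivity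
    have h1 : (3 * Real.exp 1 * K2 + 1) / (c0 * Real.exp (-(3/2))) ≤ L - 1 := by linarith
    rwa [div_le_iff₀ hpos] at h1
  -- smallness
  set t : ℝ := min (Real.exp (-3) / 2) (Real.exp (-L) / (6 * (1 + 2 * K1 + K2) * L)) with ht
  have ht0 : 0 < t := lt_min (by positivity) (by positivity)
  have ht1 : t ≤ Real.exp (-3) / 2 := min_le_left _ _
  have hex3 : Real.exp (-3) ≤ 1 := Real.exp_le_one_iff.2 (by norm_num)
  have ht2 : t ≤ 1 := by linarith
  have ht3 : 6 * (1 + 2 * K1 + K2) * L * t ≤ Real.exp (-L) := by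
    have h1 : t ≤ Real.exp (-L) / (6 * (1 + 2 * K1 + K2) * L) := min_le_right _ _
    rw [le_div_iff₀ (by positivity)] at h1
    linarith
  obtain ⟨δ, hδ0, hδ⟩ := exists_bad ht0
  set ε : ℝ := min 1 (t * δ / 4) with hεdef
  have hε0 : 0 < ε := lt_min one_pos (by positivity)
  have hε1 : ε ≤ 1 := min_le_left _ _
  have hε2 : ε ≤ t * δ / 4 := min_le_right _ _
  have htd : 0 < t * δ := by positivity
  have hτ : 2 * ε < t * δ := by linarith
  have hδ' : 2 * ε < δ := by nlinarith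
  refine ⟨L, ε, hL, hε0, hε1, ?_⟩
  intro φ φ' hφ hφ'
  have hd := dom_VV hL hε1
  have hβ : (4 * Real.pi)⁻¹ * sig.real (bad δ) ≤ Real.exp (-3) / 2 := by linarith
  have hφb := phi_bound hL hε0 hε1 hδ' hβ hφ
  have hφb' := phi'_bound hL hε0 hε1 hδ' hβ hφ hφ'
  have hnn := phi_nonneg hd one_pos hφ
  have hP := P0_mem hL hε0
  unfold Md
  rw [LL_eq hd hP, LL_eq hd hP, exit_P0 hL hε0 hε1]
  simp only [ray_eq]
  -- integrability
  have hmeasray : Measurable (fun x : ℝ => (x - 1 - L) • e0) := Continuous.measurable (by fun_prop)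
  have hint : ∀ (k : ℝ → ℝ), Continuous k → ∀ Φ : E3 → ℝ, BM Φ → ∀ a b : ℝ, a ≤ b →
      IntervalIntegrable (fun x => k x * Φ ((x - 1 - L) • e0)) volume a b := by
    rintro k hk Φ ⟨hm, C, hC⟩ a b hab
    rw [intervalIntegrable_iff_integrableOn_Ioc_of_le hab]
    apply Integrable.mul_bdd (c := C) (hk.integrableOn_Ioc)
    · exact (hm.comp hmeasray).aestronglyMeasurable
    · filter_upwards with x; exact hC _
  rw [← intervalIntegral.integral_add (hint kd cont_kd φ hφ.bm 0 (L+2) (by linarith))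
    (hint (kk 1) (cont_kk 1) φ' hφ'.bm 0 (L+2) (by linarith))]
  set g : ℝ → ℝ := fun x => kd x * φ ((x - 1 - L) • e0) + kk 1 x * φ' ((x - 1 - L) • e0) with hg
  have hgi : ∀ a b : ℝ, a ≤ b → IntervalIntegrable g volume a b := fun a b hab =>
    (hint kd cont_kd φ hφ.bm a b hab).add (hint (kk 1) (cont_kk 1) φ' hφ'.bm a b hab)
  -- pointwise bounds
  set η : ℝ := (1 + K1) * (t + t) + (K1 + K2) * (t + 2 * t) with hη
  have b1 : ∀ x ∈ Ioo (0:ℝ) (L - 1), g x ≤ η := by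
    intro x hx
    have hmem : (x - 1 - L) • e0 ∈ VV L ε := smul_mem hε0 (by linarith [hx.1]) (by linarith [hx.2])
    have h0 : ((x - 1 - L) • e0) 0 ≤ -2 := by
      simp only [PiLp.smul_apply, e0_0, smul_eq_mul]; linarith [hx.2]
    obtain ⟨f1, f2⟩ := far_bounds hL hε0 hε1 hδ' ht0 ht2 hτ hβ hφ hφ' hδ.le hmem h0
    have k1 := kd_le x hx.1.le
    have k2 : |kk 1 x| ≤ 1 := by rw [abs_of_nonneg (kk_nonneg zero_le_one x)]; exact kk1_le x hx.1.le
    have a1 : kd x * φ ((x - 1 - L) • e0) ≤ 1 * ((1 + K1) * (t + t)) :=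
      (le_abs_self _).trans (by rw [abs_mul]; exact mul_le_mul k1 f1 (abs_nonneg _) zero_le_one)
    have a2 : kk 1 x * φ' ((x - 1 - L) • e0) ≤ 1 * ((K1 + K2) * (t + 2 * t)) :=
      (le_abs_self _).trans (by rw [abs_mul]; exact mul_le_mul k2 f2 (abs_nonneg _) zero_le_one)
    simp only [hg, hη]; linarith
  have b2 : ∀ x ∈ Ioo (L - 1) (L + 2), kd x * φ ((x - 1 - L) • e0) ≤ 0 ∧
      kk 1 x * φ' ((x - 1 - L) • e0) ≤ K2 * Real.exp (-(L - 1)) := by
    intro x hx
    have hmem : (x - 1 - L) • e0 ∈ VV L ε := smul_mem hε0 (by linarith [hx.1]) (by linarith [hx.2])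
    constructor
    · apply mul_nonpos_of_nonpos_of_nonneg _ (hnn _)
      unfold kd
      apply mul_nonpos_of_nonpos_of_nonneg (by linarith [hx.1]) (Real.exp_pos _).le
    · have a1 : |φ' ((x - 1 - L) • e0)| ≤ K2 := hφb' _ hmem
      have a2 : |kk 1 x| ≤ Real.exp (-(L - 1)) := by
        rw [abs_of_nonneg (kk_nonneg zero_le_one x)]
        unfold kk
        rw [one_mul, one_mul]
        exact Real.exp_le_exp.2 (by linarith [hx.1])
      calc _ ≤ |kk 1 x * φ' ((x - 1 - L) • e0)| := le_abs_self _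
        _ = |kk 1 x| * |φ' ((x - 1 - L) • e0)| := abs_mul _ _
        _ ≤ Real.exp (-(L - 1)) * K2 := mul_le_mul a2 a1 (abs_nonneg _) (Real.exp_pos _).le
        _ = _ := mul_comm _ _
  have b3 : ∀ x ∈ Ioo (L + 1/2) (L + 3/2),
      kd x * φ ((x - 1 - L) • e0) ≤ -((L - 1) * (c0 * Real.exp (-(L + 3/2)))) := by
    intro x hx
    have hn : ‖(x - 1 - L) • e0‖ ≤ 1/2 := by
      rw [norm_smul, e0_norm, mul_one, Real.norm_eq_abs, abs_le]
      constructor <;> linarith [hx.1, hx.2]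
    have h1 := phi_lower hL hε1 hφ hn
    have h2 : kd x ≤ -((L - 1) * Real.exp (-(L + 3/2))) := by
      unfold kd
      have e1 : Real.exp (-(L + 3/2)) ≤ Real.exp (-x) := Real.exp_le_exp.2 (by linarith [hx.2])
      have e2 := Real.exp_pos (-(L + 3/2))
      have : (L - 1) * Real.exp (-(L + 3/2)) ≤ (x - 1) * Real.exp (-x) :=
        mul_le_mul (by linarith [hx.1]) e1 e2.le (by linarith [hx.1])
      linarith
    have h3 : 0 ≤ (L - 1) * Real.exp (-(L + 3/2)) := by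
      have := Real.exp_pos (-(L + 3/2))
      apply mul_nonneg (by linarith) this.le
    have h4 : ((L - 1) * Real.exp (-(L + 3/2))) * c0 ≤ (-kd x) * φ ((x - 1 - L) • e0) :=
      mul_le_mul (by linarith) h1 hc0.le (by linarith)
    linarith
  have i1 := int_le_const (by linarith : (0:ℝ) ≤ L - 1) (hgi 0 (L-1) (by linarith)) b1
  have i2 := int_le_const (by linarith : L - 1 ≤ L + 1/2) (hgi (L-1) (L+1/2) (by linarith))
    (c := K2 * Real.exp (-(L - 1))) (fun x hx => by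
      have := b2 x ⟨hx.1, by linarith [hx.2]⟩
      simp only [hg]; linarith [this.1, this.2])
  have i3 := int_le_const (by linarith : L + 1/2 ≤ L + 3/2) (hgi (L+1/2) (L+3/2) (by linarith))
    (c := K2 * Real.exp (-(L - 1)) - ((L - 1) * (c0 * Real.exp (-(L + 3/2))))) (fun x hx => by
      have h1 := b2 x ⟨by linarith [hx.1], by linarith [hx.2]⟩
      have h2 := b3 x hx
      simp only [hg]; linarith [h1.2])
  have i4 := int_le_const (by linarith : L + 3/2 ≤ L + 2) (hgi (L+3/2) (L+2) (by linarith))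
    (c := K2 * Real.exp (-(L - 1))) (fun x hx => by
      have := b2 x ⟨by linarith [hx.1], hx.2⟩
      simp only [hg]; linarith [this.1, this.2])
  have hsplit : ∫ x in (0:ℝ)..(L+2), g x = (∫ x in (0:ℝ)..(L-1), g x) + (∫ x in (L-1)..(L+1/2), g x)
      + (∫ x in (L+1/2)..(L+3/2), g x) + ∫ x in (L+3/2)..(L+2), g x := by
    rw [intervalIntegral.integral_add_adjacent_intervals (hgi _ _ (by linarith)) (hgi _ _ (by linarith)),
      intervalIntegral.integral_add_adjacent_intervals (hgi _ _ (by linarith)) (hgi _ _ (by linarith)),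
      intervalIntegral.integral_add_adjacent_intervals (hgi _ _ (by linarith)) (hgi _ _ (by linarith))]
  rw [hsplit]
  have x1 : Real.exp (-(L - 1)) = Real.exp 1 * Real.exp (-L) := by
    rw [← Real.exp_add]; congr 1; ring
  have x2 : Real.exp (-(L + 3/2)) = Real.exp (-(3/2)) * Real.exp (-L) := by
    rw [← Real.exp_add]; congr 1; ring
  rw [x1] at i2 i3 i4
  rw [x2] at i3
  have hexL := Real.exp_pos (-L)
  have hmain := mul_le_mul_of_nonneg_right hLc hexL.le
  have hη' : η * (L - 1) ≤ Real.exp (-L) / 2 := by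
    have h1 : η ≤ 3 * (1 + 2 * K1 + K2) * t := by rw [hη]; nlinarith
    have h2 : η * (L - 1) ≤ 3 * (1 + 2 * K1 + K2) * t * L := by
      apply mul_le_mul h1 (by linarith) (by linarith) (by positivity)
    linarith
  nlinarith

/-- the main statement -/
theorem main : ∃ (V : Set E3) (r : E3) (ω : S2) (M : ℝ → E3 → S2 → ℝ) (d : ℝ),
    V.Nonempty ∧ IsOpen V ∧ Bornology.IsBounded V ∧ r ∈ V ∧
    (∀ lam, 0 < lam → IsSol V lam (M lam)) ∧
    (∀ lam, 0 < lam → ∀ N, IsSol V lam N → ∀ s ∈ V, ∀ θ, N s θ = M lam s θ) ∧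
    HasDerivAt (fun lam => M lam r ω) d 1 ∧ d < 0 := by
  obtain ⟨L, ε, hL, hε0, hε1, hneg⟩ := Md_neg
  have hd := dom_VV hL hε1
  have hex : ∀ lam : ℝ, ∃ φ : E3 → ℝ, 0 < lam → IsPhi (VV L ε) (2 * (L + 4)) lam φ := by
    intro lam
    by_cases h : 0 < lam
    · obtain ⟨φ, hφ⟩ := exists_phi hd h
      exact ⟨φ, fun _ => hφ⟩
    · exact ⟨fun _ => 0, fun h' => absurd h' h⟩
  choose φ hφ using hex
  obtain ⟨φ', hφ'⟩ := exists_phi' hd (hφ 1 one_pos).bm
  refine ⟨VV L ε, P0 L, w0, fun lam => Msol (VV L ε) (2 * (L + 4)) lam (φ lam),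
    Md (VV L ε) (2 * (L + 4)) (φ 1) φ' (P0 L) w0, ⟨_, P0_mem hL hε0⟩, isOpen_VV L ε, ?_,
    P0_mem hL hε0, ?_, ?_, ?_, ?_⟩
  · rw [isBounded_iff_forall_norm_le]
    exact ⟨L + 4, fun x hx => (VV_norm hL hε1 hx).le⟩
  · intro lam hl
    exact isSol_Msol hd hl (hφ lam hl)
  · intro lam hl N hN s hs θ
    exact sol_unique hd hl hN (isSol_Msol hd hl (hφ lam hl)) s hs θ
  · exact hasDeriv_M hd hφ hφ' (P0 L) w0
  · exact hneg _ _ (hφ 1 one_pos) hφ'

end

end Q65.Trans
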