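import Mathlib

/-! Decompositions of the edge set and of the vertex set of a graph into trees. -/

set_option autoImplicit false

namespace Q65.TreePart

open SimpleGraph

/-- The edges of `G` are partitioned into the edge sets of `k` subgraphs which are trees. -/
def EdgePart {V : Type} (G : SimpleGraph V) (k : ℕ) : Prop :=
  ∃ T : Fin k → G.Subgraph, (∀ i, (T i).coe.IsTree) ∧ ∀ e ∈ G.edgeSet, ∃! i, e ∈ (T i).edgeSet

/-- The vertices of `G` are partitioned into `k` sets each of which induces a tree. -/
def VertPart {V : Type} (G : SimpleGraph V) (k : ℕ) : Prop :=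
  ∃ f : V → Fin k, ∀ i, (G.induce {v | f v = i}).IsTree

theorem isTree_of_parent {W : Type} (H : SimpleGraph W) (r : W) (ρ : W → ℕ) (p : W → W)
    (h1 : ∀ v, v ≠ r → H.Adj v (p v) ∧ ρ (p v) < ρ v)
    (h2 : ∀ u v, H.Adj u v → (u ≠ r ∧ v = p u) ∨ (v ≠ r ∧ u = p v)) : H.IsTree := by
  have hreach : ∀ n v, ρ v ≤ n → H.Reachable v r := by
    intro n
    induction n with
    | zero =>
      intro v hv
      by_cases hvr : v = r
      · rw [hvr]
      · have := (h1 v hvr).2; omega
    | succ n ih =>
      intro v hv
      by_cases hvr : v = r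
      · rw [hvr]
      · have h := h1 v hvr
        exact h.1.reachable.trans (ih _ (by omega))
  classical
  have : Nonempty W := ⟨r⟩
  refine ⟨⟨fun u v => (hreach _ u le_rfl).trans (hreach _ v le_rfl).symm⟩, ?_⟩
  intro x c hc
  -- a vertex of the cycle of maximal rank
  obtain ⟨v, hv, hmax⟩ : ∃ v ∈ c.support, ∀ w ∈ c.support, ρ w ≤ ρ v := by
    have hne : c.support.toFinset.Nonempty := ⟨x, by simp⟩
    obtain ⟨v, hv, hm⟩ := Finset.exists_max_image _ ρ hne
    exact ⟨v, by simpa using hv, fun w hw => hm w (by simpa using hw)⟩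
  set c' := c.rotate v hv with hc'
  have hcy : c'.IsCycle := (Walk.isCycle_rotate hv).2 hc
  have hne := hcy.snd_ne_penultimate
  have hmax' : ∀ w ∈ c'.support, ρ w ≤ ρ v := by
    intro w hw
    exact hmax w ((Walk.mem_support_rotate_iff c v hv).1 hw)
  have hnn : ¬ c'.Nil := hcy.not_nil
  have ha1 : H.Adj v c'.snd := c'.adj_snd hnn
  have ha2 : H.Adj c'.penultimate v := c'.adj_penultimate hnn
  have hs1 : c'.snd ∈ c'.support := c'.getVert_mem_support 1
  have hs2 : c'.penultimate ∈ c'.support := c'.getVert_mem_support _
  have e1 : c'.snd = p v := by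
    rcases h2 _ _ ha1 with h | h
    · exact h.2
    · have := (h1 _ h.1).2
      rw [← h.2] at this
      have := hmax' _ hs1
      omega
  have e2 : c'.penultimate = p v := by
    rcases h2 _ _ ha2 with h | h
    · have h3 := (h1 _ h.1).2
      rw [← h.2] at h3
      have := hmax' _ hs2
      omega
    · exact h.2
  exact hne (e1.trans e2.symm)

/-- A set consisting of a vertex and of pairwise nonadjacent neighbours of it induces a tree. -/
theorem star_tree {V : Type} (G : SimpleGraph V) (c : V) (D : Set V)
    (hadj : ∀ x ∈ D, G.Adj x c) (hind : ∀ x ∈ D, ∀ y ∈ D, ¬ G.Adj x y) :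
    (G.induce (insert c D)).IsTree := by
  classical
  refine isTree_of_parent _ ⟨c, Set.mem_insert _ _⟩ (fun v => if v.1 = c then 0 else 1)
    (fun _ => ⟨c, Set.mem_insert _ _⟩) ?_ ?_
  · rintro ⟨v, hv⟩ hne
    have hvc : v ≠ c := fun h => hne (Subtype.ext h)
    have hvD : v ∈ D := by
      rcases hv with h | h
      · exact absurd h hvc
      · exact h
    refine ⟨?_, ?_⟩
    · simpa using hadj v hvD
    · simp [hvc]
  · rintro ⟨u, hu⟩ ⟨v, hv⟩ h
    have h' : G.Adj u v := by simpa using h
    rcases hu with hu | hu
    · right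
      refine ⟨?_, Subtype.ext hu⟩
      intro h3
      have : v = c := congrArg Subtype.val h3
      rw [hu, this] at h'
      exact h'.ne rfl
    · rcases hv with hv | hv
      · left
        refine ⟨?_, Subtype.ext hv⟩
        intro h3
        have : u = c := congrArg Subtype.val h3
        rw [hv, this] at h'
        exact h'.ne rfl
      · exact absurd h' (hind u hu v hv)

/-- From a finite connected graph with at least two vertices one can split off a set of at least two
vertices which induces a tree, so that the rest is empty or connected. -/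
theorem peel {V : Type} (G : SimpleGraph V) [Finite V] [Nontrivial V] (hG : G.Connected) :
    ∃ S : Set V, S.Nontrivial ∧ (G.induce S).IsTree ∧ (Sᶜ = ∅ ∨ (G.induce Sᶜ).Connected) := by
  classical
  have : Nonempty V := hG.nonempty
  obtain ⟨u, v, p, hp, hmax⟩ := Walk.exists_isPath_forall_isPath_length_le_length G
  cases p with
  | nil =>
    exfalso
    obtain ⟨w, hw⟩ := hG.preconnected.exists_adj_of_nontrivial u
    have := hmax u w (Walk.cons hw Walk.nil) (by simp [hw.ne])
    simp at this
  | @cons _ c _ h q =>
    have hq : q.IsPath := hp.of_cons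
    have huq : u ∉ q.support := ((Walk.cons_isPath_iff h q).1 hp).2
    have key : ∀ x, G.Adj x c → x ∉ q.support → ∀ y, G.Adj y x → y ∈ q.support := by
      intro x hxc hxq y hyx
      by_contra hy
      have hpath : (Walk.cons hyx (Walk.cons hxc q)).IsPath := by
        rw [Walk.cons_isPath_iff, Walk.cons_isPath_iff]
        refine ⟨⟨hq, hxq⟩, ?_⟩
        rw [Walk.support_cons]
        simp only [List.mem_cons, not_or]
        exact ⟨hyx.ne, hy⟩
      have := hmax _ _ _ hpath
      simp at this
    have hcq : c ∈ q.support := q.start_mem_support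
    -- the set of leaves removed together with `c`
    obtain ⟨D, hDne, hD1, hD2⟩ : ∃ D : Set V, D.Nonempty ∧
        (∀ x ∈ D, x ∉ q.support ∧ G.Adj x c) ∧
        (∀ x, x ∉ D → x ∉ q.support → G.Adj x c → ∃ z ∈ q.support, z ≠ c ∧ G.Adj x z) := by
      set L : Set V := {x | x ∉ q.support ∧ G.Adj x c ∧ ∀ y, G.Adj y x → y = c} with hL
      by_cases hLn : L.Nonempty
      · refine ⟨L, hLn, fun x hx => ⟨hx.1, hx.2.1⟩, ?_⟩
        intro x hx hxq hxc
        have : ¬ ∀ y, G.Adj y x → y = c := fun h' => hx ⟨hxq, hxc, h'⟩
        push Not at this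
        obtain ⟨y, hyx, hyc⟩ := this
        exact ⟨y, key x hxc hxq y hyx, hyc, hyx.symm⟩
      · refine ⟨{u}, ⟨u, rfl⟩, ?_, ?_⟩
        · rintro x rfl
          exact ⟨huq, h⟩
        · intro x _ hxq hxc
          have hxL : x ∉ L := fun h' => hLn ⟨x, h'⟩
          have : ¬ ∀ y, G.Adj y x → y = c := fun h' => hxL ⟨hxq, hxc, h'⟩
          push Not at this
          obtain ⟨y, hyx, hyc⟩ := this
          exact ⟨y, key x hxc hxq y hyx, hyc, hyx.symm⟩
    have hcD : c ∉ D := fun h' => (hD1 c h').1 hcq
    refine ⟨insert c D, ?_, ?_, ?_⟩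
    · obtain ⟨x, hx⟩ := hDne
      exact ⟨c, Set.mem_insert _ _, x, Set.mem_insert_of_mem _ hx, fun h' => hcD (h' ▸ hx)⟩
    · refine star_tree G c D (fun x hx => (hD1 x hx).2) ?_
      intro x hx y hy hxy
      exact (hD1 x hx).1 (key y (hD1 y hy).2 (hD1 y hy).1 x hxy)
    · set S : Set V := insert c D with hS
      by_cases hemp : Sᶜ = ∅
      · exact Or.inl hemp
      right
      have hqS : ∀ z ∈ q.support, z ≠ c → z ∈ Sᶜ := by
        intro z hz hzc hzS
        rcases hzS with h' | h'
        · exact hzc h'
        · exact (hD1 z h').1 hz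
      have hA : ∀ (y y' : V) (w : G.Walk y y'), y' = c → ∀ hy : y ∈ Sᶜ,
          ∃ z, ∃ hz : z ∈ Sᶜ, z ∈ q.support ∧ (G.induce Sᶜ).Reachable ⟨y, hy⟩ ⟨z, hz⟩ := by
        intro y y' w
        induction w with
        | nil =>
          rintro rfl hy
          exact absurd (Set.mem_insert _ _) hy
        | @cons a b d hab w ih =>
          intro hd hy
          by_cases hb : b ∈ Sᶜ
          · obtain ⟨z, hz, hzq, hr⟩ := ih hd hb
            refine ⟨z, hz, hzq, Reachable.trans ?_ hr⟩
            exact Adj.reachable (by simpa using hab)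
          · have hb' : b = c ∨ b ∈ D := by
              have := not_not.1 hb
              exact this
            have haS : a ≠ c ∧ a ∉ D := by
              constructor
              · rintro rfl; exact hy (Set.mem_insert _ _)
              · intro h'; exact hy (Set.mem_insert_of_mem _ h')
            rcases hb' with rfl | hbD
            · by_cases haq : a ∈ q.support
              · exact ⟨a, hy, haq, Reachable.refl _⟩
              · obtain ⟨z, hzq, hzc, haz⟩ := hD2 a haS.2 haq hab
                exact ⟨z, hqS z hzq hzc, hzq, Adj.reachable (by simpa using haz)⟩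
            · have : a ∈ q.support := key b (hD1 b hbD).2 (hD1 b hbD).1 a hab
              exact ⟨a, hy, this, Reachable.refl _⟩
      have hB : ∀ z, ∀ hz : z ∈ Sᶜ, z ∈ q.support → ∃ hv : v ∈ Sᶜ,
          (G.induce Sᶜ).Reachable ⟨z, hz⟩ ⟨v, hv⟩ := by
        intro z hz hzq
        have hzc : z ≠ c := by rintro rfl; exact hz (Set.mem_insert _ _)
        clear hmax hA
        cases q with
        | nil => simp at hzq; exact absurd hzq hzc
        | @cons _ c' _ h' q' =>
          have hcq' : c ∉ q'.support := ((Walk.cons_isPath_iff h' q').1 hq).2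
          have hz' : z ∈ q'.support := by
            rw [Walk.support_cons] at hzq
            rcases List.mem_cons.1 hzq with h'' | h''
            · exact absurd h'' hzc
            · exact h''
          have hall : ∀ x ∈ (q'.dropUntil z hz').support, x ∈ Sᶜ := by
            intro x hx
            have hx' : x ∈ q'.support := Walk.support_dropUntil_subset_support _ hz' hx
            refine hqS x ?_ ?_
            · rw [Walk.support_cons]; exact List.mem_cons_of_mem _ hx'
            · rintro rfl; exact hcq' hx'
          exact ⟨hall v (Walk.end_mem_support _), ⟨(q'.dropUntil z hz').induce Sᶜ hall⟩⟩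
      obtain ⟨y0, hy0⟩ := Set.nonempty_iff_ne_empty.2 hemp
      have hall : ∀ y, ∀ hy : y ∈ Sᶜ, ∃ hv : v ∈ Sᶜ,
          (G.induce Sᶜ).Reachable ⟨y, hy⟩ ⟨v, hv⟩ := by
        intro y hy
        obtain ⟨w⟩ := hG.preconnected y c
        obtain ⟨z, hz, hzq, hr⟩ := hA y c w rfl hy
        obtain ⟨hv, hr'⟩ := hB z hz hzq
        exact ⟨hv, hr.trans hr'⟩
      have : Nonempty (Sᶜ : Set V) := ⟨⟨y0, hy0⟩⟩
      refine ⟨fun a b => ?_⟩
      obtain ⟨hv, ha⟩ := hall a.1 a.2
      obtain ⟨_, hb⟩ := hall b.1 b.2
      exact ha.trans hb.symm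

theorem vertPart_one_of_tree {V : Type} (G : SimpleGraph V) (h : G.IsTree) : VertPart G 1 := by
  refine ⟨fun _ => 0, fun i => ?_⟩
  have : {v : V | (fun _ => (0 : Fin 1)) v = i} = Set.univ := by
    ext v; simp [Subsingleton.elim (0 : Fin 1) i]
  rw [this]
  exact (induceUnivIso G).isTree_iff.2 h

/-- Every connected graph on `n` vertices has a partition of the vertex set into at most
`(n + 1) / 2` sets inducing trees. -/
theorem exists_vertPart : ∀ (n : ℕ) (V : Type) [Finite V] (G : SimpleGraph V), G.Connected →
    Nat.card V = n → ∃ k, 2 * k ≤ n + 1 ∧ VertPart G k := by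
  intro n
  induction n using Nat.strong_induction_on with
  | _ n ih =>
    intro V _ G hG hn
    classical
    have hne : Nonempty V := hG.nonempty
    rcases subsingleton_or_nontrivial V with hs | hs
    · refine ⟨1, ?_, vertPart_one_of_tree G IsTree.of_subsingleton⟩
      have : 0 < Nat.card V := Nat.card_pos
      omega
    · obtain ⟨S, hS, hST, hSc⟩ := peel G hG
      rcases hSc with hSc | hSc
      · refine ⟨1, ?_, ?_⟩
        · have : 0 < Nat.card V := Nat.card_pos
          omega
        · refine vertPart_one_of_tree G ?_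
          have hu : S = Set.univ := by
            rw [← compl_compl S, hSc, Set.compl_empty]
          rw [hu] at hST
          exact (induceUnivIso G).isTree_iff.1 hST
      · have hcard : Nat.card (Sᶜ : Set V) + 2 ≤ n := by
          have h1 : S.ncard + Sᶜ.ncard = Nat.card V := Set.ncard_add_ncard_compl S
          have h2 : 1 < S.ncard := (Set.one_lt_ncard (Set.toFinite S)).2 (by
            obtain ⟨a, ha, b, hb, hab⟩ := hS
            exact ⟨a, ha, b, hb, hab⟩)
          have h3 : Nat.card (Sᶜ : Set V) = Sᶜ.ncard := rfl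
          omega
        obtain ⟨k, hk, f, hf⟩ := ih (Nat.card (Sᶜ : Set V)) (by omega) (Sᶜ : Set V)
          (G.induce Sᶜ) hSc rfl
        refine ⟨k + 1, by omega, fun v => if h : v ∈ Sᶜ then (f ⟨v, h⟩).succ else 0, ?_⟩
        intro i
        refine Fin.cases ?_ (fun j => ?_) i
        · have : {v : V | (if h : v ∈ Sᶜ then (f ⟨v, h⟩).succ else 0) = 0} = S := by
            ext v
            by_cases hv : v ∈ Sᶜ
            · simp only [Set.mem_ofPred_eq, dif_pos hv]
              constructor
              · intro h; exact absurd h (Fin.succ_ne_zero _)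
              · intro h; exact absurd h hv
            · simp only [Set.mem_ofPred_eq, dif_neg hv, true_iff]
              exact not_not.1 hv
          rw [this]
          exact hST
        · refine (Iso.isTree_iff (G := (G.induce Sᶜ).induce {x | f x = j}) ?_).1 (hf j)
          refine
            { toFun := fun x => ⟨x.1.1, ?_⟩
              invFun := fun x => ⟨⟨x.1, ?_⟩, ?_⟩
              left_inv := fun x => ?_
              right_inv := fun x => ?_
              map_rel_iff' := ?_ }
          · have h1 : x.1.1 ∈ Sᶜ := x.1.2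
            have h2 : f x.1 = j := x.2
            simp only [Set.mem_ofPred_eq, dif_pos h1]
            rw [show (⟨x.1.1, h1⟩ : (Sᶜ : Set V)) = x.1 from rfl, h2]
          · have h1 := x.2
            by_contra hv
            simp only [Set.mem_ofPred_eq, dif_neg hv] at h1
            exact Fin.succ_ne_zero _ h1.symm
          · have h1 := x.2
            have h2 : x.1 ∈ Sᶜ := by
              by_contra hv
              simp only [Set.mem_ofPred_eq, dif_neg hv] at h1
              exact Fin.succ_ne_zero _ h1.symm
            simp only [Set.mem_ofPred_eq, dif_pos h2] at h1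
            exact Fin.succ_injective _ h1
          · rfl
          · rfl
          · intro a b
            rfl

/-- If one tree is enough for the edges of a connected graph with at least two vertices, then the
graph is a tree. -/
theorem isTree_of_edgePart_one {V : Type} [Nontrivial V] (G : SimpleGraph V) (hG : G.Connected)
    (h : EdgePart G 1) : G.IsTree := by
  obtain ⟨T, hT, hE⟩ := h
  have hall : ∀ u v, G.Adj u v → (T 0).Adj u v := by
    intro u v huv
    obtain ⟨i, hi, -⟩ := hE s(u, v) huv
    rw [Subsingleton.elim i 0] at hi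
    exact hi
  have htop : T 0 = ⊤ := by
    ext a b
    · simp only [Subgraph.verts_top, Set.mem_univ, iff_true]
      obtain ⟨w, hw⟩ := hG.preconnected.exists_adj_of_nontrivial a
      exact (T 0).edge_vert (hall a w hw)
    · constructor
      · intro h; exact (T 0).adj_sub h
      · intro h; exact hall a b h
  have := hT 0
  rw [htop] at this
  exact (Subgraph.topIso (G := G)).isTree_iff.1 this

/-- The single edges form a decomposition into trees. -/
theorem exists_edgePart {V : Type} [Finite V] (G : SimpleGraph V) : ∃ k, EdgePart G k := by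
  classical
  have : Finite G.edgeSet := inferInstance
  obtain ⟨k, ⟨φ⟩⟩ := Finite.exists_equiv_fin G.edgeSet
  have hrep : ∀ e : G.edgeSet, ∃ a b, ∃ h : G.Adj a b, (e : Sym2 V) = s(a, b) := by
    rintro ⟨e, he⟩
    induction e using Sym2.ind with
    | _ a b => exact ⟨a, b, he, rfl⟩
  choose a b hab heq using hrep
  refine ⟨k, fun i => G.subgraphOfAdj (hab (φ.symm i)), fun i => ?_, ?_⟩
  · exact IsTree.coe_subgraphOfAdj (hab (φ.symm i))
  · intro e he
    refine ⟨φ ⟨e, he⟩, ?_, ?_⟩
    · simp only [edgeSet_subgraphOfAdj, Equiv.symm_apply_apply]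
      exact heq ⟨e, he⟩
    · intro j hj
      simp only [edgeSet_subgraphOfAdj] at hj
      have h1 : (e : Sym2 V) = s(a (φ.symm j), b (φ.symm j)) := hj
      have h2 : (⟨e, he⟩ : G.edgeSet) = φ.symm j := Subtype.ext (h1.trans (heq (φ.symm j)).symm)
      rw [h2, Equiv.apply_symm_apply]

/-- Triangles (and, for even `n`, one more edge) sharing the vertex `0`. -/
def mill (n : ℕ) : SimpleGraph (Fin n) where
  Adj u v := u ≠ v ∧ (u.1 = 0 ∨ v.1 = 0 ∨ (u.1 + 1) / 2 = (v.1 + 1) / 2)
  symm := ⟨by
    rintro u v ⟨h1, h2⟩
    refine ⟨h1.symm, ?_⟩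
    rcases h2 with h | h | h
    · exact Or.inr (Or.inl h)
    · exact Or.inl h
    · exact Or.inr (Or.inr h.symm)⟩
  loopless := ⟨fun u h => h.1 rfl⟩

theorem mill_adj {n : ℕ} (u v : Fin n) :
    (mill n).Adj u v ↔ u ≠ v ∧ (u.1 = 0 ∨ v.1 = 0 ∨ (u.1 + 1) / 2 = (v.1 + 1) / 2) := Iff.rfl

theorem mill_connected {n : ℕ} (hn : 1 ≤ n) : (mill n).Connected := by
  have : Nonempty (Fin n) := ⟨⟨0, hn⟩⟩
  have h0 : ∀ v : Fin n, (mill n).Reachable v ⟨0, hn⟩ := by
    intro v
    by_cases hv : v = ⟨0, hn⟩
    · rw [hv]
    · exact Adj.reachable ⟨hv, Or.inr (Or.inl rfl)⟩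
  exact ⟨fun u v => (h0 u).trans (h0 v).symm⟩

theorem mill_lower {n k : ℕ} (hn : 1 ≤ n) (h : VertPart (mill n) k) : n ≤ 2 * k := by
  classical
  obtain ⟨f, hf⟩ := h
  set z : Fin n := ⟨0, hn⟩ with hz
  -- no triangle lies in a single class
  have h1 : ∀ b : Fin ((n - 1) / 2), ∃ x : Fin n, (x.1 + 1) / 2 = b.1 + 1 ∧ f x ≠ f z := by
    intro b
    have hb := b.2
    by_contra hcon
    push Not at hcon
    set x : Fin n := ⟨2 * b.1 + 1, by omega⟩ with hx
    set y : Fin n := ⟨2 * b.1 + 2, by omega⟩ with hy
    have hfx : f x = f z := hcon x (by simp only [hx]; omega)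
    have hfy : f y = f z := hcon y (by simp only [hy]; omega)
    have hac := (hf (f z)).isAcyclic.cliqueFree (n := 3) le_rfl
    refine hac {⟨z, rfl⟩, ⟨x, hfx⟩, ⟨y, hfy⟩} ?_
    rw [is3Clique_triple_iff]
    refine ⟨?_, ?_, ?_⟩
    · show (mill n).Adj z x
      refine ⟨fun h => ?_, Or.inl rfl⟩
      have := congrArg Fin.val h
      simp [hz, hx] at this
    · show (mill n).Adj z y
      refine ⟨fun h => ?_, Or.inl rfl⟩
      have := congrArg Fin.val h
      simp [hz, hy] at this
    · show (mill n).Adj x y
      refine ⟨fun h => ?_, Or.inr (Or.inr ?_)⟩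
      · have := congrArg Fin.val h
        simp only [hx, hy] at this
        omega
      · simp only [hx, hy]; omega
  choose x hx1 hx2 using h1
  -- a class without the centre stays in one block
  have h2 : ∀ (i : Fin k), i ≠ f z → ∀ (a b : {v | f v = i}) (_ : ((mill n).induce
      {v | f v = i}).Walk a b), (a.1.1 + 1) / 2 = (b.1.1 + 1) / 2 := by
    intro i hi a b w
    induction w with
    | nil => rfl
    | @cons a b c hab w ih =>
      rw [← ih]
      have hab' : (mill n).Adj a.1 b.1 := hab
      have ha0 : a.1.1 ≠ 0 := by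
        intro h
        have : a.1 = z := Fin.ext h
        have h3 : f a.1 = i := a.2
        rw [this] at h3
        exact hi h3.symm
      have hb0 : b.1.1 ≠ 0 := by
        intro h
        have : b.1 = z := Fin.ext h
        have h3 : f b.1 = i := b.2
        rw [this] at h3
        exact hi h3.symm
      rcases hab'.2 with h | h | h
      · exact absurd h ha0
      · exact absurd h hb0
      · exact h
  have hinj : Function.Injective (fun b : Fin ((n - 1) / 2) => (⟨f (x b), hx2 b⟩ :
      {i : Fin k // i ≠ f z})) := by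
    intro b b' h
    have h3 : f (x b) = f (x b') := congrArg Subtype.val h
    obtain ⟨w⟩ := (hf (f (x b))).connected.preconnected ⟨x b, rfl⟩ ⟨x b', h3.symm⟩
    have h4 := h2 _ (hx2 b) _ _ w
    have e1 := hx1 b
    have e2 := hx1 b'
    apply Fin.ext
    simp only at h4
    omega
  have hc := Fintype.card_le_of_injective _ hinj
  rw [Fintype.card_fin, Fintype.card_subtype_compl, Fintype.card_subtype_eq, Fintype.card_fin] at hc
  have hk : 0 < k := Fin.pos (f z)
  omega

theorem mill_edgePart {n : ℕ} (hn : 1 ≤ n) : EdgePart (mill n) 2 := by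
  classical
  let T0 : (mill n).Subgraph :=
    { verts := Set.univ
      Adj := fun u v => (mill n).Adj u v ∧ (u.1 % 2 = 1 ∨ v.1 % 2 = 1)
      adj_sub := fun h => h.1
      edge_vert := fun _ => Set.mem_univ _
      symm := ⟨fun u v h => ⟨h.1.symm, h.2.symm⟩⟩ }
  let T1 : (mill n).Subgraph :=
    { verts := {v | v.1 % 2 = 0}
      Adj := fun u v => (mill n).Adj u v ∧ (u.1 % 2 = 0 ∧ v.1 % 2 = 0)
      adj_sub := fun h => h.1
      edge_vert := fun h => h.2.1
      symm := ⟨fun u v h => ⟨h.1.symm, h.2.symm⟩⟩ }
  have hT0 : T0.coe.IsTree := by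
    refine isTree_of_parent T0.coe ⟨⟨0, hn⟩, Set.mem_univ _⟩
      (fun v => if v.1.1 = 0 then 0 else if v.1.1 % 2 = 1 then 1 else 2)
      (fun v => if v.1.1 % 2 = 1 then ⟨⟨0, hn⟩, Set.mem_univ _⟩ else
        ⟨⟨v.1.1 - 1, by have := v.1.2; omega⟩, Set.mem_univ _⟩) ?_ ?_
    · rintro ⟨⟨v, hvn⟩, _⟩ hne
      have hv0 : v ≠ 0 := by
        rintro rfl
        exact hne rfl
      by_cases h : v % 2 = 1
      · simp only [h, if_true]
        refine ⟨⟨⟨?_, Or.inr (Or.inl rfl)⟩, Or.inl h⟩, ?_⟩
        · intro h'
          exact hv0 (congrArg Fin.val h')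
        · simp [hv0]
      · simp only [h, if_false]
        refine ⟨⟨⟨?_, Or.inr (Or.inr ?_)⟩, Or.inr ?_⟩, ?_⟩
        · intro h'
          have := congrArg Fin.val h'
          simp only at this
          omega
        · simp only; omega
        · simp only; omega
        · have e1 : v - 1 ≠ 0 := by omega
          have e2 : (v - 1) % 2 = 1 := by omega
          simp [hv0, e1, e2]
    · rintro ⟨⟨u, hu⟩, _⟩ ⟨⟨v, hv⟩, _⟩ ⟨⟨huv, h⟩, h'⟩
      have huv' : u ≠ v := fun h => huv (Fin.ext h)
      simp only at h h'
      by_cases hu1 : u % 2 = 1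
      · by_cases hv0 : v = 0
        · left
          refine ⟨?_, ?_⟩
          · intro h3
            have := congrArg (fun x => x.1.1) h3
            simp only at this
            omega
          · simp [hu1, hv0]
        · right
          have hv1 : ¬ v % 2 = 1 := by omega
          refine ⟨?_, ?_⟩
          · intro h3
            have := congrArg (fun x => x.1.1) h3
            simp only at this
            omega
          · simp only [hv1, if_false]
            apply Subtype.ext
            apply Fin.ext
            simp only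
            omega
      · have hv1 : v % 2 = 1 := by omega
        by_cases hu0 : u = 0
        · right
          refine ⟨?_, ?_⟩
          · intro h3
            have := congrArg (fun x => x.1.1) h3
            simp only at this
            omega
          · simp [hv1, hu0]
        · left
          refine ⟨?_, ?_⟩
          · intro h3
            have := congrArg (fun x => x.1.1) h3
            simp only at this
            omega
          · simp only [hu1, if_false]
            apply Subtype.ext
            apply Fin.ext
            simp only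
            omega
  have hT1 : T1.coe.IsTree := by
    refine isTree_of_parent T1.coe ⟨⟨0, hn⟩, rfl⟩ (fun v => v.1.1) (fun _ => ⟨⟨0, hn⟩, rfl⟩) ?_ ?_
    · rintro ⟨⟨v, hvn⟩, hv2⟩ hne
      have hv0 : v ≠ 0 := by
        rintro rfl
        exact hne rfl
      refine ⟨⟨⟨?_, Or.inr (Or.inl rfl)⟩, hv2, rfl⟩, ?_⟩
      · intro h'
        exact hv0 (congrArg Fin.val h')
      · simp only; omega
    · rintro ⟨⟨u, hu⟩, hu2⟩ ⟨⟨v, hv⟩, hv2⟩ ⟨⟨huv, h⟩, h'⟩
      have huv' : u ≠ v := fun h => huv (Fin.ext h)
      simp only at h h'
      by_cases hv0 : v = 0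
      · left
        refine ⟨?_, ?_⟩
        · intro h3
          have := congrArg (fun x => x.1.1) h3
          simp only at this
          omega
        · apply Subtype.ext
          apply Fin.ext
          exact hv0
      · right
        refine ⟨?_, ?_⟩
        · intro h3
          have := congrArg (fun x => x.1.1) h3
          simp only at this
          omega
        · apply Subtype.ext
          apply Fin.ext
          simp only
          omega
  refine ⟨![T0, T1], ?_, ?_⟩
  · intro i
    fin_cases i
    · exact hT0
    · exact hT1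
  · intro e he
    induction e using Sym2.ind with
    | _ u v =>
      have huv : (mill n).Adj u v := he
      by_cases hc : u.1 % 2 = 1 ∨ v.1 % 2 = 1
      · refine ⟨0, ⟨huv, hc⟩, ?_⟩
        intro i hi
        fin_cases i
        · rfl
        · exfalso
          have h3 : (mill n).Adj u v ∧ (u.1 % 2 = 0 ∧ v.1 % 2 = 0) := hi
          omega
      · have hu0 : u.1 % 2 = 0 := by omega
        have hv0 : v.1 % 2 = 0 := by omega
        refine ⟨1, ⟨huv, hu0, hv0⟩, ?_⟩
        intro i hi
        fin_cases i
        · exfalso
          have h3 : (mill n).Adj u v ∧ (u.1 % 2 = 1 ∨ v.1 % 2 = 1) := hi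
          exact hc h3.2
        · rfl

end Q65.TreePart
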